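import Pool.Agent.Lib.MP_bc6037_nt.FO.AF

/-!
# PR / A1 (150 lines): approximation of `ζ(σ+it)` by a sum with decreasing weights

PROOF.  Copy of `FO/AF1.lean` (`weights`) and `FO/AF.lean` (`approx`) with one more conclusion, `Antitone φ`: `φ n` is the integral of
`1[n ≤ e^(y-v)] psi v`, decreasing in `n` (for `T ≤ 3` it is `0`).
-/

set_option autoImplicit false

open MeasureTheory Complex Filter Set

namespace Pool.Agent.Lib.PR

open Pool.Agent.Lib.MP_bc6037_nt Pool.Agent.Lib.MP_bc6037_nt.Perron Pool.Agent.Lib.MP_bc6037_nt.FO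

private noncomputable def a1Ind (y : ℝ) (n : ℕ) (v : ℝ) : ℝ :=
  if (n : ℝ) ≤ Real.exp (y - v) then 1 else 0

private lemma a1Ind_meas (y : ℝ) (n : ℕ) : Measurable (a1Ind y n) :=
  Measurable.ite (measurableSet_le measurable_const
    (by fun_prop : Continuous fun v : ℝ => Real.exp (y - v)).measurable) measurable_const
    measurable_const

private lemma a1Ind_nonneg (y : ℝ) (n : ℕ) (v : ℝ) : 0 ≤ a1Ind y n v := by
  unfold a1Ind
  split_ifs <;> norm_num

private lemma a1Ind_le (y : ℝ) (n : ℕ) (v : ℝ) : a1Ind y n v ≤ 1 := by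
  unfold a1Ind
  split_ifs <;> norm_num

private lemma a1Ind_int (y : ℝ) (n : ℕ) : Integrable fun v : ℝ => a1Ind y n v * psi v := by
  refine psi_integrable.mono' ((a1Ind_meas y n).mul psi_continuous.measurable).aestronglyMeasurable
    (ae_of_all _ fun v => ?_)
  rw [norm_mul, Real.norm_of_nonneg (a1Ind_nonneg y n v), Real.norm_of_nonneg (psi_nonneg v)]
  exact mul_le_of_le_one_left (psi_nonneg v) (a1Ind_le y n v)

private lemma a1_ps {y v : ℝ} (hv : v ∈ Icc (-1 : ℝ) 0) (s : ℂ) :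
    ps s (Real.exp (y - v)) =
      ∑ n ∈ Finset.Icc 1 ⌊Real.exp (y + 1)⌋₊, (a1Ind y n v : ℂ) * (n : ℂ) ^ (-s) := by
  unfold ps
  have hle : Real.exp (y - v) ≤ Real.exp (y + 1) := Real.exp_le_exp.2 (by linarith [hv.1])
  have hsub : Finset.Icc 1 ⌊Real.exp (y - v)⌋₊ ⊆ Finset.Icc 1 ⌊Real.exp (y + 1)⌋₊ :=
    Finset.Icc_subset_Icc_right (Nat.floor_mono hle)
  rw [← Finset.sum_subset hsub]
  · refine Finset.sum_congr rfl fun n hn => ?_
    have h1 : (n : ℝ) ≤ Real.exp (y - v) :=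
      (Nat.le_floor_iff (Real.exp_pos _).le).1 (Finset.mem_Icc.1 hn).2
    rw [a1Ind, if_pos h1, Complex.ofReal_one, one_mul]
  · intro n hn hn'
    have h1 : ¬ (n : ℝ) ≤ Real.exp (y - v) := by
      intro h
      apply hn'
      exact Finset.mem_Icc.2 ⟨(Finset.mem_Icc.1 hn).1, (Nat.le_floor_iff (Real.exp_pos _).le).2 h⟩
    rw [a1Ind, if_neg h1, Complex.ofReal_zero, zero_mul]

private lemma a1Ind_anti (y : ℝ) (v : ℝ) {m n : ℕ} (h : m ≤ n) : a1Ind y n v ≤ a1Ind y m v := by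
  unfold a1Ind
  have h1 : (m : ℝ) ≤ n := by exact_mod_cast h
  by_cases hn : (n : ℝ) ≤ Real.exp (y - v)
  · rw [if_pos hn, if_pos (h1.trans hn)]
  · rw [if_neg hn]
    split_ifs <;> norm_num

private theorem a1_weights {y : ℝ} (hy : 0 < y) : ∃ φ : ℕ → ℝ, (∀ n, 0 ≤ φ n) ∧ (∀ n, φ n ≤ 1) ∧ Antitone φ ∧
    ∀ s : ℂ, 1 / 2 ≤ s.re → s.re < 1 → 1 ≤ s.im →
      ∫ v : ℝ, ff s (y - v) * (psi v : ℂ) =
        ∑ n ∈ Finset.Icc 1 ⌊Real.exp (y + 1)⌋₊, (φ n : ℂ) * (n : ℂ) ^ (-s) - riemannZeta s -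
          cexp ((1 - s) * y) * KK (1 - s) / (1 - s) := by
  refine ⟨fun n => ∫ v : ℝ, a1Ind y n v * psi v, fun n => ?_, fun n => ?_, fun m n hmn => ?_, fun s h0 h1 ht => ?_⟩
  · exact integral_nonneg fun v => mul_nonneg (a1Ind_nonneg y n v) (psi_nonneg v)
  · rw [← psi_integral]
    exact integral_mono (a1Ind_int y n) psi_integrable
      fun v => mul_le_of_le_one_left (psi_nonneg v) (a1Ind_le y n v)
  · exact integral_mono (a1Ind_int y n) (a1Ind_int y m)
      fun v => mul_le_mul_of_nonneg_right (a1Ind_anti y v hmn) (psi_nonneg v)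
  · have hpt : ∀ v : ℝ, ff s (y - v) * (psi v : ℂ) =
        (∑ n ∈ Finset.Icc 1 ⌊Real.exp (y + 1)⌋₊,
          ((a1Ind y n v * psi v : ℝ) : ℂ) * (n : ℂ) ^ (-s)) - riemannZeta s * (psi v : ℂ) -
          (cexp ((1 - s) * y) / (1 - s)) * ((psi v : ℂ) * cexp (-(1 - s) * v)) := by
      intro v
      by_cases hv : v ∈ Icc (-1 : ℝ) 0
      · have hyv : y - v ∈ Ioi (0 : ℝ) := by
          have := hv.2
          simp only [mem_Ioi]
          linarith
        rw [ff, indicator_of_mem hyv, a1_ps hv s, sub_mul, sub_mul, Finset.sum_mul]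
        have e1 : cexp ((1 - s) * ((y - v : ℝ) : ℂ)) =
            cexp ((1 - s) * y) * cexp (-(1 - s) * v) := by
          rw [← Complex.exp_add]
          congr 1
          push_cast
          ring
        rw [e1]
        have e2 : ∀ n ∈ Finset.Icc 1 ⌊Real.exp (y + 1)⌋₊,
            (a1Ind y n v : ℂ) * (n : ℂ) ^ (-s) * (psi v : ℂ) =
              ((a1Ind y n v * psi v : ℝ) : ℂ) * (n : ℂ) ^ (-s) := by
          intro n _
          push_cast
          ring
        rw [Finset.sum_congr rfl e2]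
        ring
      · rw [psi_eq_zero hv]
        simp
    have i1 : ∀ n ∈ Finset.Icc 1 ⌊Real.exp (y + 1)⌋₊,
        Integrable fun v : ℝ => ((a1Ind y n v * psi v : ℝ) : ℂ) * (n : ℂ) ^ (-s) :=
      fun n _ => (a1Ind_int y n).ofReal.mul_const _
    have i2 : Integrable fun v : ℝ => riemannZeta s * (psi v : ℂ) :=
      psi_integrable.ofReal.const_mul _
    have hc : Continuous fun v : ℝ => (psi v : ℂ) * cexp (-(1 - s) * v) :=
      (Complex.continuous_ofReal.comp psi_continuous).mul (by fun_prop)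
    have i3 : Integrable fun v : ℝ => (psi v : ℂ) * cexp (-(1 - s) * v) := by
      refine hc.integrable_of_hasCompactSupport ?_
      refine HasCompactSupport.mul_right ?_
      exact psi_compact.comp_left (g := fun x : ℝ => (x : ℂ)) (by simp)
    have i4 : Integrable fun v : ℝ =>
        (cexp ((1 - s) * y) / (1 - s)) * ((psi v : ℂ) * cexp (-(1 - s) * v)) := i3.const_mul _
    have i5 : Integrable fun v : ℝ => ∑ n ∈ Finset.Icc 1 ⌊Real.exp (y + 1)⌋₊,
        ((a1Ind y n v * psi v : ℝ) : ℂ) * (n : ℂ) ^ (-s) := integrable_finset_sum _ i1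
    have i6 : Integrable fun v : ℝ => (∑ n ∈ Finset.Icc 1 ⌊Real.exp (y + 1)⌋₊,
        ((a1Ind y n v * psi v : ℝ) : ℂ) * (n : ℂ) ^ (-s)) - riemannZeta s * (psi v : ℂ) :=
      i5.sub i2
    rw [integral_congr_ae (ae_of_all _ hpt), integral_sub i6 i4,
      integral_sub i5 i2, integral_finset_sum _ i1,
      integral_const_mul, integral_const_mul]
    have e3 : ∫ v : ℝ, (psi v : ℂ) = 1 := by
      have := integral_ofReal (𝕜 := ℂ) (f := psi) (μ := volume)
      rw [psi_integral] at this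
      simpa using this
    have e4 : ∀ n ∈ Finset.Icc 1 ⌊Real.exp (y + 1)⌋₊,
        ∫ v : ℝ, ((a1Ind y n v * psi v : ℝ) : ℂ) * (n : ℂ) ^ (-s) =
          ((∫ v : ℝ, a1Ind y n v * psi v : ℝ) : ℂ) * (n : ℂ) ^ (-s) := by
      intro n _
      rw [integral_mul_const]
      congr 1
      exact integral_ofReal
    rw [e3, Finset.sum_congr rfl e4, mul_one]
    have e5 : ∫ v : ℝ, (psi v : ℂ) * cexp (-(1 - s) * v) = KK (1 - s) := rfl
    rw [e5]
    ring

theorem approxM {σ : ℝ} (h0 : 1 / 2 ≤ σ) (h1 : σ < 1) : ∃ C : ℝ, 0 ≤ C ∧ ∀ T : ℝ, 1 ≤ T →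
    ∃ φ : ℕ → ℝ, (∀ n, 0 ≤ φ n) ∧ (∀ n, φ n ≤ 1) ∧ Antitone φ ∧ ∀ t : ℝ, T ≤ t → t ≤ 2 * T →
      ‖riemannZeta (σ + t * I) -
        ∑ n ∈ Finset.Icc 1 ⌊T⌋₊, (φ n : ℂ) * (n : ℂ) ^ (-((σ : ℂ) + t * I))‖ ≤ C := by
  obtain ⟨C0, hC0, hz⟩ := norm_zeta_le (by norm_num : (0 : ℝ) < 1 / 2)
  obtain ⟨C1, hC1, hs⟩ := smoothed_bound h0 h1
  obtain ⟨C2, hC2, hk⟩ := KK_decay 1
  refine ⟨6 * C0 + (C1 * ((2 : ℝ) ^ (3 / 2 : ℝ) * Real.exp (3 / 2)) + C2), by positivity,
    fun T hT => ?_⟩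
  rcases le_or_gt T 3 with hT3 | hT3
  · refine ⟨fun _ => 0, fun _ => le_rfl, fun _ => zero_le_one, antitone_const, fun t ht1 ht2 => ?_⟩
    have hre : ((σ : ℂ) + t * I).re = σ := by simp
    have him : ((σ : ℂ) + t * I).im = t := by simp
    have ht0 : 1 ≤ t := by linarith
    have h := hz (σ + t * I) (by rw [hre]; exact h0) (by rw [hre]; linarith)
      (by rw [him, abs_of_pos (by linarith)]; exact ht0)
    rw [him, abs_of_pos (by linarith)] at h
    simp only [Complex.ofReal_zero, zero_mul, Finset.sum_const_zero, sub_zero]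
    have h2 : C0 * t ≤ C0 * 6 := mul_le_mul_of_nonneg_left (by linarith) hC0
    have h3 : 0 ≤ C1 * ((2 : ℝ) ^ (3 / 2 : ℝ) * Real.exp (3 / 2)) + C2 := by positivity
    linarith
  · have hT0 : 0 < T := by linarith
    set y : ℝ := Real.log T - 1 with hy
    have hy0 : 0 < y := by
      have : Real.log (Real.exp 1) < Real.log T :=
        Real.log_lt_log (Real.exp_pos 1) (by linarith [Real.exp_one_lt_d9])
      rw [Real.log_exp] at this
      linarith
    have hexp : Real.exp (y + 1) = T := by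
      rw [hy, sub_add_cancel, Real.exp_log hT0]
    obtain ⟨φ, hφ0, hφ1, hφm, hφ⟩ := a1_weights hy0
    refine ⟨φ, hφ0, hφ1, hφm, fun t ht1 ht2 => ?_⟩
    have ht0 : 1 ≤ t := by linarith
    set s : ℂ := (σ : ℂ) + t * I with hsdef
    have hre : s.re = σ := by simp [hsdef]
    have him : s.im = t := by simp [hsdef]
    have h := hφ s (by rw [hre]; exact h0) (by rw [hre]; exact h1) (by rw [him]; exact ht0)
    rw [hexp] at h
    have hb := hs t ht0 y hy0
    rw [← hsdef] at hb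
    have e : riemannZeta s - ∑ n ∈ Finset.Icc 1 ⌊T⌋₊, (φ n : ℂ) * (n : ℂ) ^ (-s)
        = -(∫ v : ℝ, ff s (y - v) * (psi v : ℂ)) - cexp ((1 - s) * y) * KK (1 - s) / (1 - s) := by
      rw [h]; ring
    rw [e]
    -- first term
    have hb1 : C1 * t ^ (3 / 2 : ℝ) * Real.exp (-(1 + σ) * y) ≤
        C1 * ((2 : ℝ) ^ (3 / 2 : ℝ) * Real.exp (3 / 2)) := by
      have a1 : t ^ (3 / 2 : ℝ) ≤ (2 : ℝ) ^ (3 / 2 : ℝ) * T ^ (3 / 2 : ℝ) := by
        rw [← Real.mul_rpow (by norm_num) hT0.le]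
        exact Real.rpow_le_rpow (by linarith) ht2 (by norm_num)
      have a2 : Real.exp (-(1 + σ) * y) ≤ Real.exp (3 / 2) * T ^ (-(3 / 2) : ℝ) := by
        rw [Real.rpow_def_of_pos hT0, ← Real.exp_add]
        apply Real.exp_le_exp.mpr
        have : Real.log T = y + 1 := by rw [hy]; ring
        rw [this]
        nlinarith
      have a3 : T ^ (3 / 2 : ℝ) * T ^ (-(3 / 2) : ℝ) = 1 := by
        rw [← Real.rpow_add hT0]
        norm_num
      calc C1 * t ^ (3 / 2 : ℝ) * Real.exp (-(1 + σ) * y)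
          ≤ C1 * ((2 : ℝ) ^ (3 / 2 : ℝ) * T ^ (3 / 2 : ℝ)) *
            (Real.exp (3 / 2) * T ^ (-(3 / 2) : ℝ)) := by
            apply mul_le_mul (mul_le_mul_of_nonneg_left a1 hC1) a2 (Real.exp_pos _).le
            positivity
        _ = C1 * ((2 : ℝ) ^ (3 / 2 : ℝ) * Real.exp (3 / 2)) * (T ^ (3 / 2 : ℝ) * T ^ (-(3 / 2) : ℝ)) := by
            ring
        _ = C1 * ((2 : ℝ) ^ (3 / 2 : ℝ) * Real.exp (3 / 2)) := by rw [a3, mul_one]
    -- second term
    have hre1 : (1 - s).re = 1 - σ := by rw [Complex.sub_re, Complex.one_re, hre]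
    have him1 : (1 - s).im = -t := by rw [Complex.sub_im, Complex.one_im, him]; ring
    have hnorm : t ≤ ‖1 - s‖ := by
      have := Complex.abs_im_le_norm (1 - s)
      rw [him1, abs_neg, abs_of_pos (by linarith)] at this
      exact this
    have hk1 := hk (1 - s) (by rw [hre1]; linarith) (by rw [hre1]; linarith)
    have hb2 : ‖cexp ((1 - s) * y) * KK (1 - s) / (1 - s)‖ ≤ C2 := by
      rw [norm_div, norm_mul, Complex.norm_exp]
      have e1 : ((1 - s) * (y : ℂ)).re = (1 - σ) * y := by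
        rw [Complex.re_mul_ofReal, hre1]
      rw [e1]
      have a1 : Real.exp ((1 - σ) * y) ≤ T := by
        rw [← hexp]
        apply Real.exp_le_exp.mpr
        nlinarith
      have a2 : ‖KK (1 - s)‖ ≤ C2 / T := by
        refine hk1.trans ?_
        rw [Nat.cast_one, Real.rpow_neg_one, ← div_eq_mul_inv]
        exact div_le_div_of_nonneg_left hC2.le hT0 (by linarith)
      rw [div_le_iff₀ (by linarith)]
      calc Real.exp ((1 - σ) * y) * ‖KK (1 - s)‖ ≤ T * (C2 / T) :=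
            mul_le_mul a1 a2 (norm_nonneg _) hT0.le
        _ = C2 * 1 := by field_simp
        _ ≤ C2 * ‖1 - s‖ := mul_le_mul_of_nonneg_left (by linarith) hC2.le
    calc ‖-(∫ v : ℝ, ff s (y - v) * (psi v : ℂ)) - cexp ((1 - s) * y) * KK (1 - s) / (1 - s)‖
        ≤ ‖-(∫ v : ℝ, ff s (y - v) * (psi v : ℂ))‖ + ‖cexp ((1 - s) * y) * KK (1 - s) / (1 - s)‖ :=
          norm_sub_le _ _
      _ ≤ C1 * ((2 : ℝ) ^ (3 / 2 : ℝ) * Real.exp (3 / 2)) + C2 := by
          rw [norm_neg]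
          exact add_le_add (hb.trans hb1) hb2
      _ ≤ _ := by linarith [mul_nonneg (by norm_num : (0 : ℝ) ≤ 6) hC0]


end Pool.Agent.Lib.PR
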