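import Pool.Agent.Lib.PR.V4

/-!
# PR / A2 (150 lines): pointwise bound for a block of `ζ(σ+it)` with decreasing weights

PROOF.  `a n = φ n n^(-σ)` is antitone (`n ≥ 1`), nonnegative, `≤ N^(-σ)` for `n > N`.  Abel summation over `(N, 2N]`: for an antitone nonnegative
`a`, `‖∑_{n ∈ (N,2N]} a n z n‖ ≤ a (N+1) max_{N ≤ M ≤ 2N} ‖∑_{n ∈ (N,M]} z n‖` (`S M = ∑_{(N,M]} z`, `∑ a n z n = a(2N) S(2N) +
∑_{N<M<2N} (a M - a (M+1)) S M`).  `z n = n^(-it)` and `blockP'`.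
-/

set_option autoImplicit false

namespace Pool.Agent.Lib.PR

open Finset Complex

private theorem abel_aux (a : ℕ → ℝ) (z : ℕ → ℂ) (N : ℕ) (B : ℝ)
    (ha : ∀ n, N < n → a (n + 1) ≤ a n) (k : ℕ)
    (hB : ∀ M, N ≤ M → M ≤ N + 1 + k → ‖∑ n ∈ Ioc N M, z n‖ ≤ B) :
    ‖∑ n ∈ Ioc N (N + 1 + k), ((a n : ℝ) : ℂ) * z n -
      ((a (N + 1 + k) : ℝ) : ℂ) * ∑ n ∈ Ioc N (N + 1 + k), z n‖ ≤
      (a (N + 1) - a (N + 1 + k)) * B := by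
  induction k with
  | zero =>
    simp
  | succ k ih =>
    have ih' := ih (fun M h1 h2 => hB M h1 (by omega))
    have e1 : N + 1 + (k + 1) = (N + 1 + k) + 1 := by ring
    rw [e1, Finset.sum_Ioc_succ_top (by omega), Finset.sum_Ioc_succ_top (by omega)]
    have h1 : ‖∑ n ∈ Ioc N (N + 1 + k), z n‖ ≤ B := hB _ (by omega) (by omega)
    have h2 : 0 ≤ a (N + 1 + k) - a (N + 1 + k + 1) := sub_nonneg.2 (ha _ (by omega))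
    have e2 : ∑ n ∈ Ioc N (N + 1 + k), ((a n : ℝ) : ℂ) * z n +
        ((a (N + 1 + k + 1) : ℝ) : ℂ) * z (N + 1 + k + 1) -
        ((a (N + 1 + k + 1) : ℝ) : ℂ) * (∑ n ∈ Ioc N (N + 1 + k), z n + z (N + 1 + k + 1)) =
        (∑ n ∈ Ioc N (N + 1 + k), ((a n : ℝ) : ℂ) * z n -
          ((a (N + 1 + k) : ℝ) : ℂ) * ∑ n ∈ Ioc N (N + 1 + k), z n) +
        (((a (N + 1 + k) - a (N + 1 + k + 1) : ℝ)) : ℂ) * ∑ n ∈ Ioc N (N + 1 + k), z n := by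
      push_cast
      ring
    rw [e2]
    refine (norm_add_le _ _).trans ?_
    rw [norm_mul, Complex.norm_real, Real.norm_of_nonneg h2]
    have h3 := mul_le_mul_of_nonneg_left h1 h2
    linarith

private theorem abel (a : ℕ → ℝ) (z : ℕ → ℂ) (N M : ℕ) (B : ℝ) (hNM : N < M)
    (ha : ∀ n, N < n → a (n + 1) ≤ a n) (ha0 : ∀ n, 0 ≤ a n)
    (hB : ∀ K, N ≤ K → K ≤ M → ‖∑ n ∈ Ioc N K, z n‖ ≤ B) :
    ‖∑ n ∈ Ioc N M, ((a n : ℝ) : ℂ) * z n‖ ≤ a (N + 1) * B := by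
  obtain ⟨k, rfl⟩ : ∃ k, M = N + 1 + k := ⟨M - (N + 1), by omega⟩
  have h1 := abel_aux a z N B ha k hB
  have h2 : ‖((a (N + 1 + k) : ℝ) : ℂ) * ∑ n ∈ Ioc N (N + 1 + k), z n‖ ≤ a (N + 1 + k) * B := by
    rw [norm_mul, Complex.norm_real, Real.norm_of_nonneg (ha0 _)]
    exact mul_le_mul_of_nonneg_left (hB _ (by omega) le_rfl) (ha0 _)
  have h3 : ∑ n ∈ Ioc N (N + 1 + k), ((a n : ℝ) : ℂ) * z n =
      (∑ n ∈ Ioc N (N + 1 + k), ((a n : ℝ) : ℂ) * z n -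
        ((a (N + 1 + k) : ℝ) : ℂ) * ∑ n ∈ Ioc N (N + 1 + k), z n) +
      ((a (N + 1 + k) : ℝ) : ℂ) * ∑ n ∈ Ioc N (N + 1 + k), z n := by ring
  rw [h3]
  refine (norm_add_le _ _).trans ?_
  linarith

theorem blockD (q : ℕ) {σ : ℝ} (h0 : 0 ≤ σ) : ∃ C : ℝ, 0 ≤ C ∧ ∀ N : ℕ, 1 ≤ N → ∀ φ : ℕ → ℝ,
    (∀ n, 0 ≤ φ n) → (∀ n, φ n ≤ 1) → Antitone φ → ∀ t : ℝ, 0 < t → (N : ℝ) ^ ((q : ℝ) + nu q) ≤ t →
    ‖∑ n ∈ Ioc N (2 * N), ((φ n * (n : ℝ) ^ (-σ) : ℝ) : ℂ) * (n : ℂ) ^ (-((t : ℂ) * I))‖ ≤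
      C * ((N : ℝ) ^ (1 - σ) * (t / (N : ℝ) ^ (q + 2)) ^ kp q) := by
  obtain ⟨C, hC, h⟩ := blockP' q
  refine ⟨C, hC, ?_⟩
  intro N hN φ h1 h2 h3 t ht htN
  have hN0 : (0 : ℝ) < N := by exact_mod_cast hN
  set B : ℝ := C * (N * (t / (N : ℝ) ^ (q + 2)) ^ kp q) with hBdef
  have hB0 : 0 ≤ B := by
    rw [hBdef]
    positivity
  have hanti : ∀ n, N < n → φ (n + 1) * ((n + 1 : ℕ) : ℝ) ^ (-σ) ≤ φ n * (n : ℝ) ^ (-σ) := by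
    intro n hn
    have hn0 : (0 : ℝ) < n := by exact_mod_cast (by omega : 0 < n)
    refine mul_le_mul (h3 (Nat.le_succ n)) ?_ (by positivity) (h1 n)
    exact Real.rpow_le_rpow_of_nonpos hn0 (by exact_mod_cast Nat.le_succ n) (by linarith)
  have key := abel (fun n => φ n * (n : ℝ) ^ (-σ)) (fun n => (n : ℂ) ^ (-((t : ℂ) * I))) N (2 * N) B
    (by omega) hanti (fun n => mul_nonneg (h1 n) (by positivity))
    (fun K hK1 hK2 => h N K hN hK1 hK2 t ht htN)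
  refine key.trans ?_
  have h4 : φ (N + 1) * ((N + 1 : ℕ) : ℝ) ^ (-σ) ≤ (N : ℝ) ^ (-σ) := by
    have h5 : ((N + 1 : ℕ) : ℝ) ^ (-σ) ≤ (N : ℝ) ^ (-σ) :=
      Real.rpow_le_rpow_of_nonpos hN0 (by exact_mod_cast Nat.le_succ N) (by linarith)
    have h6 : (0 : ℝ) ≤ ((N + 1 : ℕ) : ℝ) ^ (-σ) := by positivity
    calc φ (N + 1) * ((N + 1 : ℕ) : ℝ) ^ (-σ) ≤ 1 * ((N + 1 : ℕ) : ℝ) ^ (-σ) :=
          mul_le_mul_of_nonneg_right (h2 _) h6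
      _ ≤ (N : ℝ) ^ (-σ) := by rw [one_mul]; exact h5
  have h7 : (N : ℝ) ^ (1 - σ) = (N : ℝ) * (N : ℝ) ^ (-σ) := by
    rw [sub_eq_add_neg, Real.rpow_add hN0, Real.rpow_one]
  calc φ (N + 1) * ((N + 1 : ℕ) : ℝ) ^ (-σ) * B ≤ (N : ℝ) ^ (-σ) * B :=
        mul_le_mul_of_nonneg_right h4 hB0
    _ = C * ((N : ℝ) ^ (1 - σ) * (t / (N : ℝ) ^ (q + 2)) ^ kp q) := by
        rw [hBdef, h7]
        ring

end Pool.Agent.Lib.PR
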