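import Pool.Agent.Lib.MP_8382de_an.Shift
import Pool.Agent.Lib.MP_bc6037_nt.RecDown
import Pool.Agent.Lib.MP_bc6037_nt.FO.Base

/-!
# PR / BFin: finiteness of the weighted moments of `(s-1) ζ(s)` from the moment condition

`fin_of_mom`: if `∫ |ζ(σ₁+it)|^(2k) (1+|t|)^(-(M+ε)) dt < ∞` for every `ε > 0`, `M < 2`, then the weighted moment `Fin k σ` is
finite for `σ₁ < σ < 2`.
PROOF.  `H = (s-1) ζ(s)` is entire.  For `s₀ = σ + iu` the residue of `H(s+iu)^(2k) e^((s-σ)²)/(s-σ)` at `σ` and the lines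
`σ₁, 2` give `|H(s₀)|^(2k) ≤ C ∫ h(v) e^(-(v-u)²) dv`, `h(v) = |H(σ₁+iv)|^(2k) + |H(2+iv)|^(2k)`, so the local maximum has
`U(σ,t)^(2k) ≤ C' ∫ h(v) e^(-2|v-t|) dv` and, with the weight, is at most the convolution of an integrable function and `e^(-|x|)`.
-/

set_option autoImplicit false

open MeasureTheory Complex Filter Set
open scoped Topology Convolution

namespace Pool.Agent.Lib.PR

open Pool.Agent.Lib.MP_bc6037_nt
open Pool.Agent.Lib.MP_bc6037_nt.Rec Pool.Agent.Lib.MP_bc6037_nt.ZetaGrowth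
open Pool.Agent.Lib.MP_8382de_an (vs VB base_pos integrable_base residue_shift)

private lemma bf_exp (n : ℕ) {x : ℝ} (hx : 0 ≤ x) :
    (1 + x) ^ n * Real.exp (-x ^ 2) ≤ (n.factorial : ℝ) * Real.exp 2 := by
  have h1 := Real.pow_div_factorial_le_exp (1 + x) (by positivity) n
  rw [div_le_iff₀ (by positivity)] at h1
  have h2 : Real.exp (-x ^ 2) ≤ Real.exp (1 - x) :=
    Real.exp_le_exp.2 (by nlinarith [sq_nonneg (x - 1 / 2)])
  calc (1 + x) ^ n * Real.exp (-x ^ 2)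
      ≤ (Real.exp (1 + x) * (n.factorial : ℝ)) * Real.exp (1 - x) := by gcongr
    _ = n.factorial * (Real.exp (1 + x) * Real.exp (1 - x)) := by ring
    _ = _ := by
        rw [← Real.exp_add]
        congr 2
        ring

private lemma bf_dom (k : ℕ) {σ₁ : ℝ} (h0 : 0 < σ₁) (u : ℝ) : ∃ C : ℝ, 0 ≤ C ∧ ∀ x t : ℝ,
    σ₁ ≤ x → x ≤ 2 →
    ‖H (x + ((t + u : ℝ) : ℂ) * I)‖ ^ k * Real.exp (-t ^ 2) ≤ C * (1 + t ^ 2) ^ (-(1 : ℝ)) := by
  obtain ⟨A, hA0, hA⟩ := norm_H_line (σ₀ := σ₁) (σ₁ := 2) h0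
  refine ⟨A ^ k * (1 + |u|) ^ (2 * k) * (((2 * k + 2).factorial : ℝ) * Real.exp 2), by positivity,
    fun x t hx1 hx2 => ?_⟩
  have h1 := hA x (t + u) hx1 hx2
  have h2 : 1 + |t + u| ≤ (1 + |u|) * (1 + |t|) := by
    have := abs_add_le t u
    nlinarith [abs_nonneg t, abs_nonneg u, mul_nonneg (abs_nonneg u) (abs_nonneg t)]
  have h3 : 1 + t ^ 2 ≤ (1 + |t|) ^ 2 := by
    rw [← sq_abs t]
    nlinarith [abs_nonneg t]
  have h4 := bf_exp (2 * k + 2) (abs_nonneg t)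
  rw [sq_abs] at h4
  rw [Real.rpow_neg_one, ← div_eq_mul_inv, le_div_iff₀ (base_pos t)]
  calc ‖H (x + ((t + u : ℝ) : ℂ) * I)‖ ^ k * Real.exp (-t ^ 2) * (1 + t ^ 2)
      ≤ (A * ((1 + |u|) * (1 + |t|)) ^ 2) ^ k * Real.exp (-t ^ 2) * (1 + |t|) ^ 2 := by
        have h5 : ‖H (x + ((t + u : ℝ) : ℂ) * I)‖ ≤ A * ((1 + |u|) * (1 + |t|)) ^ 2 :=
          h1.trans (mul_le_mul_of_nonneg_left (pow_le_pow_left₀ (by positivity) h2 2) hA0)
        gcongr
    _ = A ^ k * (1 + |u|) ^ (2 * k) * ((1 + |t|) ^ (2 * k + 2) * Real.exp (-t ^ 2)) := by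
        rw [mul_pow A, ← pow_mul, mul_pow (1 + |u|), pow_add]
        ring
    _ ≤ _ := by gcongr

private lemma bf_cont (k : ℕ) (x u : ℝ) :
    Continuous fun t : ℝ => ‖H (x + ((t + u : ℝ) : ℂ) * I)‖ ^ k * Real.exp (-t ^ 2) := by
  have h := differentiable_H.continuous
  fun_prop

private lemma bf_int (k : ℕ) {σ₁ x : ℝ} (h0 : 0 < σ₁) (h1 : σ₁ ≤ x) (h2 : x ≤ 2) (u : ℝ) :
    Integrable fun t : ℝ => ‖H (x + ((t + u : ℝ) : ℂ) * I)‖ ^ k * Real.exp (-t ^ 2) := by
  obtain ⟨C, hC0, hC⟩ := bf_dom k h0 u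
  refine ((integrable_base (η := 1) (by norm_num)).const_mul C).mono'
    (bf_cont k x u).aestronglyMeasurable (ae_of_all _ fun t => ?_)
  rw [Real.norm_of_nonneg (by positivity)]
  exact hC x t h1 h2

/-- the value at `σ + iu` from the lines `σ₁` and `2` -/
private lemma bf_lines (k : ℕ) {σ₁ σ : ℝ} (h0 : 0 < σ₁) (h1 : σ₁ < σ) (h2 : σ < 2) :
    ∃ C : ℝ, 0 ≤ C ∧ ∀ u : ℝ, ‖H (σ + u * I)‖ ^ k ≤
      C * ((∫ t : ℝ, ‖H (σ₁ + ((t + u : ℝ) : ℂ) * I)‖ ^ k * Real.exp (-t ^ 2)) +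
        ∫ t : ℝ, ‖H (2 + ((t + u : ℝ) : ℂ) * I)‖ ^ k * Real.exp (-t ^ 2)) := by
  obtain ⟨d, hd⟩ : ∃ d : ℝ, d = min (σ - σ₁) (2 - σ) := ⟨_, rfl⟩
  have hd0 : 0 < d := by
    rw [hd]
    exact lt_min (by linarith) (by linarith)
  refine ⟨Real.exp 4 / d, by positivity, fun u => ?_⟩
  obtain ⟨C, hC0, hC⟩ := bf_dom k h0 u
  obtain ⟨g, hg⟩ : ∃ g : ℂ → ℂ, g = fun s => H (s + u * I) ^ k * cexp ((s - σ) ^ 2) := ⟨_, rfl⟩
  have hgd : Differentiable ℂ g := by
    rw [hg]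
    have := differentiable_H
    fun_prop
  have hgn : ∀ x t : ℝ, ‖g (x + t * I)‖ =
      ‖H (x + ((t + u : ℝ) : ℂ) * I)‖ ^ k * Real.exp ((x - σ) ^ 2 - t ^ 2) := by
    intro x t
    rw [hg]
    simp only
    rw [norm_mul, norm_pow, Complex.norm_exp]
    congr 3
    · push_cast
      ring_nf
    · rw [pow_two]
      simp [Complex.mul_re]
      ring
  have hgle : ∀ x t : ℝ, σ₁ ≤ x → x ≤ 2 → ‖g (x + t * I)‖ ≤
      Real.exp 4 * (‖H (x + ((t + u : ℝ) : ℂ) * I)‖ ^ k * Real.exp (-t ^ 2)) := by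
    intro x t hx1 hx2
    rw [hgn, mul_left_comm, ← Real.exp_add]
    refine mul_le_mul_of_nonneg_left (Real.exp_le_exp.2 ?_) (by positivity)
    nlinarith
  have hre : ∀ x t : ℝ, |x - σ| ≤ ‖((x : ℂ) + t * I) - σ‖ := by
    intro x t
    have := Complex.abs_re_le_norm (((x : ℂ) + t * I) - σ)
    simpa using this
  have him : ∀ x t : ℝ, |t| ≤ ‖((x : ℂ) + t * I) - σ‖ := by
    intro x t
    have := Complex.abs_im_le_norm (((x : ℂ) + t * I) - σ)
    simpa using this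
  obtain ⟨F, hF⟩ : ∃ F : ℂ → ℂ, F = fun s => g s / (s - σ) := ⟨_, rfl⟩
  have hVB : VB F σ₁ 2 1 (Real.exp 4 * C) 1 := by
    intro x t hx1 hx2 ht
    rw [hF]
    simp only
    rw [norm_div, div_le_iff₀ (by linarith [him x t])]
    have h3 := hgle x t hx1 hx2
    have h4 := hC x t hx1 hx2
    have h5 : 0 ≤ Real.exp 4 * C * (1 + t ^ 2) ^ (-(1 : ℝ)) := by positivity
    calc ‖g (x + t * I)‖ ≤ Real.exp 4 * (C * (1 + t ^ 2) ^ (-(1 : ℝ))) :=
          h3.trans (mul_le_mul_of_nonneg_left h4 (Real.exp_pos _).le)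
      _ = Real.exp 4 * C * (1 + t ^ 2) ^ (-(1 : ℝ)) * 1 := by ring
      _ ≤ _ := mul_le_mul_of_nonneg_left (by linarith [him x t]) h5
  obtain ⟨-, -, h3⟩ := residue_shift (F := F) (H := fun s => g s * (s - σ)) (U := univ) (p := σ)
    isOpen_univ (subset_univ _) ((hgd.mul (differentiable_id.sub_const _)).differentiableOn) h1 h2
    (fun s _ hs => by
      rw [hF]
      have : s - σ ≠ 0 := sub_ne_zero.2 hs
      field_simp) (η := 1) (by norm_num) hVB
  have h4 : deriv (fun s => g s * (s - σ)) σ = H (σ + u * I) ^ k := by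
    have e1 : HasDerivAt (fun s : ℂ => g s * (s - σ)) (deriv g σ * ((σ : ℂ) - σ) + g σ * 1) σ :=
      (hgd σ).hasDerivAt.mul ((hasDerivAt_id _).sub_const _)
    rw [e1.deriv, hg]
    simp
  rw [h4] at h3
  have hbd : ∀ x : ℝ, σ₁ ≤ x → x ≤ 2 → d ≤ |x - σ| → ‖∫ t : ℝ, F (x + t * I)‖ ≤
      Real.exp 4 / d * ∫ t : ℝ, ‖H (x + ((t + u : ℝ) : ℂ) * I)‖ ^ k * Real.exp (-t ^ 2) := by
    intro x hx1 hx2 hx3
    rw [← integral_const_mul]
    refine norm_integral_le_of_norm_le ((bf_int k h0 hx1 hx2 u).const_mul _)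
      (ae_of_all _ fun t => ?_)
    rw [hF]
    simp only
    rw [norm_div]
    have h5 := hgle x t hx1 hx2
    have h6 := hre x t
    calc ‖g (x + t * I)‖ / ‖((x : ℂ) + t * I) - σ‖
        ≤ (Real.exp 4 * (‖H (x + ((t + u : ℝ) : ℂ) * I)‖ ^ k * Real.exp (-t ^ 2))) / d := by
          gcongr
          exact hx3.trans h6
      _ = _ := by ring
  have h5 := hbd σ₁ le_rfl (by linarith) (by
    rw [abs_sub_comm, abs_of_pos (by linarith), hd]
    exact min_le_left _ _)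
  have h6 := hbd 2 (by linarith) le_rfl (by
    rw [abs_of_pos (by linarith), hd]
    exact min_le_right _ _)
  have e2 : ((2 : ℝ) : ℂ) = 2 := by norm_num
  rw [e2] at h6 h3
  have h7 : 2 * Real.pi * ‖H (σ + u * I)‖ ^ k ≤ ‖∫ t : ℝ, F (2 + t * I)‖ + ‖∫ t : ℝ, F (σ₁ + t * I)‖ := by
    have := norm_sub_le (∫ t : ℝ, F (2 + t * I)) (∫ t : ℝ, F (σ₁ + t * I))
    rw [h3, norm_mul, norm_mul, norm_pow, Complex.norm_two, Complex.norm_real,
      Real.norm_of_nonneg Real.pi_pos.le] at this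
    exact this
  have h8 : 0 ≤ ‖H (σ + u * I)‖ ^ k := by positivity
  have h9 := Real.pi_gt_three
  have h10 : ‖H (σ + u * I)‖ ^ k ≤ 2 * Real.pi * ‖H (σ + u * I)‖ ^ k :=
    le_mul_of_one_le_left h8 (by linarith)
  rw [mul_add]
  linarith

/-- the same with the gaussian centred at `u` -/
private lemma bf_shift (k : ℕ) (x u : ℝ) :
    ∫ t : ℝ, ‖H (x + ((t + u : ℝ) : ℂ) * I)‖ ^ k * Real.exp (-t ^ 2) =
      ∫ v : ℝ, ‖H (x + (v : ℂ) * I)‖ ^ k * Real.exp (-(v - u) ^ 2) := by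
  rw [← integral_add_right_eq_self (fun v : ℝ => ‖H (x + (v : ℂ) * I)‖ ^ k * Real.exp (-(v - u) ^ 2)) u]
  refine integral_congr_ae (ae_of_all _ fun t => ?_)
  simp only [add_sub_cancel_right]

private lemma bf_poly (n : ℕ) {x : ℝ} (hx : 0 ≤ x) :
    (1 + x) ^ n * Real.exp (-(2 * x)) ≤ (n.factorial : ℝ) * Real.exp 1 * Real.exp (-x) := by
  have h1 := Real.pow_div_factorial_le_exp (1 + x) (by positivity) n
  rw [div_le_iff₀ (by positivity)] at h1
  calc (1 + x) ^ n * Real.exp (-(2 * x))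
      ≤ (Real.exp (1 + x) * (n.factorial : ℝ)) * Real.exp (-(2 * x)) := by gcongr
    _ = n.factorial * (Real.exp (1 + x) * Real.exp (-(2 * x))) := by ring
    _ = n.factorial * (Real.exp 1 * Real.exp (-x)) := by
        rw [← Real.exp_add, ← Real.exp_add]
        congr 2
        ring
    _ = _ := by ring

/-- `|H(x+iv)|^(2k)/(1+|v|)^(2k+2)` is integrable on a line where `∫ |ζ|^(2k) (1+|v|)^(-2)` is finite -/
private lemma bf_line {k : ℕ} {σ₁ M : ℝ} (h0 : 0 < σ₁) (h1 : σ₁ < 1) (hM : M < 2)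
    (h : FO.Mom (2 * k) σ₁ M) :
    Integrable fun v : ℝ => ‖H (σ₁ + v * I)‖ ^ (2 * k) / (1 + |v|) ^ (2 * k + 2) := by
  have h2 := h (2 - M) (by linarith)
  refine h2.mono' ?_ (ae_of_all _ fun v => ?_)
  · apply Continuous.aestronglyMeasurable
    have h := differentiable_H.continuous
    exact Continuous.div (by fun_prop) (by fun_prop) (fun v => by positivity)
  · have hv : 0 < 1 + |v| := by positivity
    rw [Real.norm_of_nonneg (by positivity)]
    have e1 : (1 + |v|) ^ (-(M + (2 - M))) = 1 / (1 + |v|) ^ 2 := by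
      rw [show -(M + (2 - M)) = -((2 : ℕ) : ℝ) by push_cast; ring, Real.rpow_neg hv.le,
        Real.rpow_natCast, one_div]
    have hne : ((σ₁ : ℂ) + v * I) ≠ 1 := by
      intro h3
      have h4 := congrArg Complex.re h3
      simp at h4
      linarith
    have h3 : ‖((σ₁ : ℂ) + v * I) - 1‖ ≤ 1 + |v| := by
      have h4 := Complex.norm_le_abs_re_add_abs_im (((σ₁ : ℂ) + v * I) - 1)
      have h5 : (((σ₁ : ℂ) + v * I) - 1).re = σ₁ - 1 := by simp
      have h6 : (((σ₁ : ℂ) + v * I) - 1).im = v := by simp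
      rw [h5, h6] at h4
      have h7 : |σ₁ - 1| ≤ 1 := by
        rw [abs_le]
        constructor <;> linarith
      linarith
    rw [e1, H_of_ne hne, norm_mul, mul_pow, mul_one_div, div_le_div_iff₀ (by positivity) (by positivity)]
    calc ‖((σ₁ : ℂ) + v * I) - 1‖ ^ (2 * k) * ‖riemannZeta (σ₁ + v * I)‖ ^ (2 * k) * (1 + |v|) ^ 2
        ≤ (1 + |v|) ^ (2 * k) * ‖riemannZeta (σ₁ + v * I)‖ ^ (2 * k) * (1 + |v|) ^ 2 := by gcongr
      _ = _ := by ring

theorem fin_of_mom {k : ℕ} (hk : 1 ≤ k) {σ₁ σ M : ℝ} (h0 : 0 < σ₁) (h11 : σ₁ < 1) (h1 : σ₁ < σ)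
    (h2 : σ < 2) (hM : M < 2) (h : FO.Mom (2 * k) σ₁ M) : Fin k σ := by
  have hσ0 : 0 < σ := h0.trans h1
  obtain ⟨C, hC0, hC⟩ := bf_lines (2 * k) h0 h1 h2
  have i1 := bf_line h0 h11 hM h
  have i2 : Integrable fun v : ℝ => ‖H (2 + v * I)‖ ^ (2 * k) / (1 + |v|) ^ (2 * k + 2) := by
    have h3 : Fin k 2 := fin_of_beta hk
      (((Limit.beta_le_alpha k).trans_lt (Limit.alpha_lt_one k)).trans (by norm_num))
    refine h3.mono' ?_ (ae_of_all _ fun v => ?_)
    · apply Continuous.aestronglyMeasurable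
      have h := differentiable_H.continuous
      exact Continuous.div (by fun_prop) (by fun_prop) (fun v => by positivity)
    · rw [Real.norm_of_nonneg (by positivity)]
      have h4 := H_le_U (σ := 2) (by norm_num) v
      push_cast at h4
      gcongr
  obtain ⟨w, hw⟩ : ∃ w : ℝ → ℝ, w = fun v : ℝ => ‖H (σ₁ + v * I)‖ ^ (2 * k) / (1 + |v|) ^ (2 * k + 2) +
      ‖H (2 + v * I)‖ ^ (2 * k) / (1 + |v|) ^ (2 * k + 2) := ⟨_, rfl⟩
  have hwi : Integrable w := by
    rw [hw]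
    exact i1.add i2
  have hw0 : ∀ v, 0 ≤ w v := fun v => by
    rw [hw]
    positivity
  have hwc : Continuous w := by
    have h := differentiable_H.continuous
    rw [hw]
    exact (Continuous.div (by fun_prop) (by fun_prop) (fun v => by positivity)).add
      (Continuous.div (by fun_prop) (by fun_prop) (fun v => by positivity))
  obtain ⟨E, hE⟩ : ∃ E : ℝ → ℝ, E = fun x => Real.exp (-|x|) := ⟨_, rfl⟩
  have hEi : Integrable E := by
    rw [hE]
    exact integrable_exp_abs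
  have hW := hwi.integrable_convolution (ContinuousLinearMap.mul ℝ ℝ) hEi
  have hWe : ∀ t, (w ⋆[ContinuousLinearMap.mul ℝ ℝ] E) t = ∫ x, w x * Real.exp (-|t - x|) := by
    intro t
    rw [convolution_def, hE]
    rfl
  have hloc : ∀ t, Integrable fun x => w x * Real.exp (-|t - x|) := by
    intro t
    refine hwi.mono' (by fun_prop) (ae_of_all _ fun x => ?_)
    rw [norm_mul, Real.norm_of_nonneg (hw0 x), Real.norm_of_nonneg (Real.exp_pos _).le]
    have : Real.exp (-|t - x|) ≤ 1 := by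
      rw [Real.exp_le_one_iff]
      simp
    nlinarith [hw0 x]
  obtain ⟨K, hK⟩ : ∃ K : ℝ, K = C * (Real.exp 1 * (((2 * k + 2).factorial : ℝ) * Real.exp 1)) :=
    ⟨_, rfl⟩
  have hK0 : 0 ≤ K := by
    rw [hK]
    positivity
  -- one line
  have hone : ∀ (x : ℝ), 0 < x → x ≤ 2 → (∀ v : ℝ, ‖H (x + v * I)‖ ^ (2 * k) / (1 + |v|) ^ (2 * k + 2) ≤ w v) →
      Integrable (fun v : ℝ => ‖H (x + v * I)‖ ^ (2 * k) / (1 + |v|) ^ (2 * k + 2)) → ∀ t u : ℝ,
      (∫ t : ℝ, ‖H (x + ((t + u : ℝ) : ℂ) * I)‖ ^ (2 * k) * Real.exp (-t ^ 2)) * Real.exp (-|u - t|) ^ (2 * k) ≤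
      Real.exp 1 * (((2 * k + 2).factorial : ℝ) * Real.exp 1) * (1 + |t|) ^ (2 * k + 2) *
        ∫ v : ℝ, ‖H (x + v * I)‖ ^ (2 * k) / (1 + |v|) ^ (2 * k + 2) * Real.exp (-|t - v|) := by
    intro x hx0 hx2 hxw hxi t u
    rw [bf_shift, ← integral_mul_const, ← integral_const_mul]
    have hc := differentiable_H.continuous
    refine integral_mono_of_nonneg (ae_of_all _ fun v => by positivity) ?_ (ae_of_all _ fun v => ?_)
    · refine Integrable.const_mul ?_ _
      refine hxi.mono' ?_ (ae_of_all _ fun v => ?_)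
      · apply Continuous.aestronglyMeasurable
        exact (Continuous.div (by fun_prop) (by fun_prop) (fun v => by positivity)).mul (by fun_prop)
      · rw [Real.norm_of_nonneg (by positivity)]
        refine mul_le_of_le_one_right (by positivity) ?_
        rw [Real.exp_le_one_iff]
        simp
    · simp only
      have e1 : Real.exp (-|u - t|) ^ (2 * k) ≤ Real.exp (-(2 * |u - t|)) := by
        rw [← Real.exp_nat_mul]
        apply Real.exp_le_exp.2
        have hk1 : (1 : ℝ) ≤ k := by exact_mod_cast hk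
        push_cast
        nlinarith [abs_nonneg (u - t)]
      have e2 : Real.exp (-(v - u) ^ 2) ≤ Real.exp (1 - 2 * |v - u|) := by
        apply Real.exp_le_exp.2
        rw [← sq_abs (v - u)]
        nlinarith [sq_nonneg (|v - u| - 1)]
      have e3 : Real.exp (1 - 2 * |v - u|) * Real.exp (-(2 * |u - t|)) ≤
          Real.exp 1 * Real.exp (-(2 * |t - v|)) := by
        rw [← Real.exp_add, ← Real.exp_add]
        apply Real.exp_le_exp.2
        have := abs_sub_le t u v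
        rw [abs_sub_comm t u, abs_sub_comm u v] at this
        linarith
      have e4 : (1 + |v|) ^ (2 * k + 2) ≤ (1 + |t|) ^ (2 * k + 2) * (1 + |t - v|) ^ (2 * k + 2) := by
        rw [← mul_pow]
        apply pow_le_pow_left₀ (by positivity)
        have := abs_sub_abs_le_abs_sub v t
        rw [abs_sub_comm v t] at this
        nlinarith [abs_nonneg t, abs_nonneg (t - v), mul_nonneg (abs_nonneg t) (abs_nonneg (t - v))]
      have e5 := bf_poly (2 * k + 2) (abs_nonneg (t - v))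
      have e6 : ‖H (x + v * I)‖ ^ (2 * k) ≤ ‖H (x + v * I)‖ ^ (2 * k) / (1 + |v|) ^ (2 * k + 2) *
          ((1 + |t|) ^ (2 * k + 2) * (1 + |t - v|) ^ (2 * k + 2)) := by
        calc ‖H (x + v * I)‖ ^ (2 * k) = ‖H (x + v * I)‖ ^ (2 * k) / (1 + |v|) ^ (2 * k + 2) *
            (1 + |v|) ^ (2 * k + 2) := by field_simp
          _ ≤ _ := by gcongr
      calc ‖H (x + v * I)‖ ^ (2 * k) * Real.exp (-(v - u) ^ 2) * Real.exp (-|u - t|) ^ (2 * k)
          ≤ (‖H (x + v * I)‖ ^ (2 * k) / (1 + |v|) ^ (2 * k + 2) *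
            ((1 + |t|) ^ (2 * k + 2) * (1 + |t - v|) ^ (2 * k + 2))) *
            Real.exp (1 - 2 * |v - u|) * Real.exp (-(2 * |u - t|)) := by gcongr
        _ = (‖H (x + v * I)‖ ^ (2 * k) / (1 + |v|) ^ (2 * k + 2) *
            ((1 + |t|) ^ (2 * k + 2) * (1 + |t - v|) ^ (2 * k + 2))) *
            (Real.exp (1 - 2 * |v - u|) * Real.exp (-(2 * |u - t|))) := by ring
        _ ≤ (‖H (x + v * I)‖ ^ (2 * k) / (1 + |v|) ^ (2 * k + 2) *
            ((1 + |t|) ^ (2 * k + 2) * (1 + |t - v|) ^ (2 * k + 2))) *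
            (Real.exp 1 * Real.exp (-(2 * |t - v|))) := by gcongr
        _ = (‖H (x + v * I)‖ ^ (2 * k) / (1 + |v|) ^ (2 * k + 2) * (1 + |t|) ^ (2 * k + 2) * Real.exp 1) *
            ((1 + |t - v|) ^ (2 * k + 2) * Real.exp (-(2 * |t - v|))) := by ring
        _ ≤ (‖H (x + v * I)‖ ^ (2 * k) / (1 + |v|) ^ (2 * k + 2) * (1 + |t|) ^ (2 * k + 2) * Real.exp 1) *
            (((2 * k + 2).factorial : ℝ) * Real.exp 1 * Real.exp (-|t - v|)) := by gcongr
        _ = _ := by ring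
  have main : ∀ t : ℝ, U σ t ^ (2 * k) / (1 + |t|) ^ (2 * k + 2) ≤
      K * ∫ x, w x * Real.exp (-|t - x|) := by
    intro t
    have hI0 : 0 ≤ ∫ x, w x * Real.exp (-|t - x|) :=
      integral_nonneg fun x => mul_nonneg (hw0 x) (Real.exp_pos _).le
    rw [div_le_iff₀ (by positivity)]
    have m0 : ∀ u : ℝ, (‖H (σ + u * I)‖ * Real.exp (-|u - t|)) ^ (2 * k) ≤
        (K * ∫ x, w x * Real.exp (-|t - x|)) * (1 + |t|) ^ (2 * k + 2) := by
      intro u
      have m1 := hC u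
      have m2 := hone σ₁ h0 (by linarith) (fun v => by
        rw [hw]
        simp only
        have : 0 ≤ ‖H (2 + v * I)‖ ^ (2 * k) / (1 + |v|) ^ (2 * k + 2) := by positivity
        linarith) i1 t u
      have m3 := hone 2 (by norm_num) le_rfl (fun v => by
        rw [hw]
        simp only
        have : 0 ≤ ‖H (σ₁ + v * I)‖ ^ (2 * k) / (1 + |v|) ^ (2 * k + 2) := by positivity
        push_cast
        linarith) (by simpa using i2) t u
      have e2 : ((2 : ℝ) : ℂ) = 2 := by norm_num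
      rw [e2] at m3
      have l1 : Integrable fun v : ℝ => ‖H (σ₁ + v * I)‖ ^ (2 * k) / (1 + |v|) ^ (2 * k + 2) *
          Real.exp (-|t - v|) := by
        have hc := differentiable_H.continuous
        refine i1.mono' ?_ (ae_of_all _ fun v => ?_)
        · apply Continuous.aestronglyMeasurable
          exact (Continuous.div (by fun_prop) (by fun_prop) (fun v => by positivity)).mul (by fun_prop)
        · rw [Real.norm_of_nonneg (by positivity)]
          refine mul_le_of_le_one_right (by positivity) ?_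
          rw [Real.exp_le_one_iff]
          simp
      have l2 : Integrable fun v : ℝ => ‖H (2 + v * I)‖ ^ (2 * k) / (1 + |v|) ^ (2 * k + 2) *
          Real.exp (-|t - v|) := by
        have hc := differentiable_H.continuous
        refine i2.mono' ?_ (ae_of_all _ fun v => ?_)
        · apply Continuous.aestronglyMeasurable
          exact (Continuous.div (by fun_prop) (by fun_prop) (fun v => by positivity)).mul (by fun_prop)
        · rw [Real.norm_of_nonneg (by positivity)]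
          refine mul_le_of_le_one_right (by positivity) ?_
          rw [Real.exp_le_one_iff]
          simp
      have m4 : ∫ x, w x * Real.exp (-|t - x|) =
          (∫ v : ℝ, ‖H (σ₁ + v * I)‖ ^ (2 * k) / (1 + |v|) ^ (2 * k + 2) * Real.exp (-|t - v|)) +
          ∫ v : ℝ, ‖H (2 + v * I)‖ ^ (2 * k) / (1 + |v|) ^ (2 * k + 2) * Real.exp (-|t - v|) := by
        rw [← integral_add l1 l2]
        refine integral_congr_ae (ae_of_all _ fun v => ?_)
        simp only [hw]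
        ring
      rw [mul_pow, m4]
      calc ‖H (σ + u * I)‖ ^ (2 * k) * Real.exp (-|u - t|) ^ (2 * k)
          ≤ (C * ((∫ t : ℝ, ‖H (σ₁ + ((t + u : ℝ) : ℂ) * I)‖ ^ (2 * k) * Real.exp (-t ^ 2)) +
            ∫ t : ℝ, ‖H (2 + ((t + u : ℝ) : ℂ) * I)‖ ^ (2 * k) * Real.exp (-t ^ 2))) *
            Real.exp (-|u - t|) ^ (2 * k) := by gcongr
        _ = C * ((∫ t : ℝ, ‖H (σ₁ + ((t + u : ℝ) : ℂ) * I)‖ ^ (2 * k) * Real.exp (-t ^ 2)) *
            Real.exp (-|u - t|) ^ (2 * k) +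
            (∫ t : ℝ, ‖H (2 + ((t + u : ℝ) : ℂ) * I)‖ ^ (2 * k) * Real.exp (-t ^ 2)) *
            Real.exp (-|u - t|) ^ (2 * k)) := by ring
        _ ≤ C * (Real.exp 1 * (((2 * k + 2).factorial : ℝ) * Real.exp 1) * (1 + |t|) ^ (2 * k + 2) *
            (∫ v : ℝ, ‖H (σ₁ + v * I)‖ ^ (2 * k) / (1 + |v|) ^ (2 * k + 2) * Real.exp (-|t - v|)) +
            Real.exp 1 * (((2 * k + 2).factorial : ℝ) * Real.exp 1) * (1 + |t|) ^ (2 * k + 2) *
            ∫ v : ℝ, ‖H (2 + v * I)‖ ^ (2 * k) / (1 + |v|) ^ (2 * k + 2) * Real.exp (-|t - v|)) :=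
            mul_le_mul_of_nonneg_left (add_le_add m2 m3) hC0
        _ = _ := by
            rw [hK]
            ring
    obtain ⟨R, hR⟩ : ∃ R : ℝ, R = (K * ∫ x, w x * Real.exp (-|t - x|)) * (1 + |t|) ^ (2 * k + 2) :=
      ⟨_, rfl⟩
    have hR0 : 0 ≤ R := by
      rw [hR]
      positivity
    rw [← hR] at m0 ⊢
    have h2k : (2 * k : ℕ) ≠ 0 := by omega
    have hU : U σ t ≤ R ^ ((1 : ℝ) / ((2 * k : ℕ) : ℝ)) := by
      apply U_le
      intro u
      have hn : 0 ≤ ‖H (σ + u * I)‖ * Real.exp (-|u - t|) := by positivity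
      calc ‖H (σ + u * I)‖ * Real.exp (-|u - t|)
          = ((‖H (σ + u * I)‖ * Real.exp (-|u - t|)) ^ (2 * k)) ^ ((1 : ℝ) / ((2 * k : ℕ) : ℝ)) := by
            rw [one_div, Real.pow_rpow_inv_natCast hn h2k]
        _ ≤ _ := Real.rpow_le_rpow (by positivity) (m0 u) (by positivity)
    calc U σ t ^ (2 * k) ≤ (R ^ ((1 : ℝ) / ((2 * k : ℕ) : ℝ))) ^ (2 * k) :=
          pow_le_pow_left₀ (U_nonneg _) hU _
      _ = R := by rw [one_div, Real.rpow_inv_natCast_pow hR0 h2k]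
  refine Integrable.mono' (hW.const_mul K) ?_ (ae_of_all _ fun t => ?_)
  · apply Continuous.aestronglyMeasurable
    exact ((continuous_U hσ0).pow _).div (by fun_prop) (fun t => by positivity)
  · rw [Real.norm_of_nonneg (div_nonneg (pow_nonneg (U_nonneg _) _) (by positivity)), hWe]
    exact main t

end Pool.Agent.Lib.PR
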