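import Pool.Agent.Lib.PR.H2
import Pool.Agent.Lib.MP_bc6037_nt.FO.Pow

/-!
# PR / P1 (200 lines): Halász-Montgomery-Huxley for the powers of a block

PROOF.  `j = 0`: the right side is `≥ T`.  `pow_poly j` with `η/4`: `D^j = ∑_{n ≤ (2N)^j} b n n^(-it)`, `∑ ‖b n‖^2 ≤ C1 N^(j(1-2σ)+η/4)`
(take `C1 ≥ 1`).  `V ≤ |D t|` gives `V^j ≤ |D^j|`.  `hmT` with `M = (2N)^j`, `V^j`, `G = C1 N^(j(1-2σ)+η/4)`, exponent
`η' = η/(4(j+1))`: `(M T)^η' ≤ 2^j N^(j η') T^η' ≤ 2^j (N T)^(η/4)`, `G M/V^(2j) = C N^(2j(1-σ)+η/4)/V^(2j)`,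
`T G^3 M/V^(6j) = C T N^(j(4-6σ)+3η/4)/V^(6j)`, and `N^(3η/4) (N T)^(η/4) ≤ (N T)^η`.
-/

set_option autoImplicit false

open MeasureTheory

namespace Pool.Agent.Lib.PR

theorem hmPow (j : ℕ) {σ η : ℝ} (hσ : 0 < σ) (hσ1 : σ ≤ 1) (hη : 0 < η) : ∃ C : ℝ, 0 ≤ C ∧
    ∀ (N : ℕ), 1 ≤ N → ∀ c : ℕ → ℂ, (∀ n : ℕ, 1 ≤ n → ‖c n‖ ≤ (n : ℝ) ^ (-σ)) →
      ∀ T : ℝ, 1 ≤ T → ∀ V : ℝ, 0 < V →
        (volume {t : ℝ | t ∈ Set.Icc T (2 * T) ∧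
          V ≤ ‖∑ n ∈ Finset.Ioc N (2 * N), c n * (n : ℂ) ^ (-((t : ℂ) * Complex.I))‖}).toReal ≤
          C * ((N : ℝ) * T) ^ η * ((N : ℝ) ^ (2 * j * (1 - σ)) / V ^ (2 * j) +
            T * (N : ℝ) ^ (j * (4 - 6 * σ)) / V ^ (6 * j)) := by
  obtain ⟨C1, hC1, hP⟩ := MP_bc6037_nt.FO.pow_poly j hσ hσ1 (show (0 : ℝ) < η / 4 by positivity)
  have hη' : 0 < η / (4 * ((j : ℝ) + 1)) := by positivity
  obtain ⟨C2, hC2, hH⟩ := hmT hη'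
  set η' : ℝ := η / (4 * ((j : ℝ) + 1)) with hη'def
  set A : ℝ := max C1 1 with hA
  have hA1 : 1 ≤ A := le_max_right _ _
  have hAC : C1 ≤ A := le_max_left _ _
  have hA0 : 0 < A := by linarith
  have hj0 : (0 : ℝ) ≤ j := Nat.cast_nonneg j
  have hjη : (j : ℝ) * η' ≤ η / 4 := by
    rw [hη'def, mul_div_assoc', div_le_div_iff₀ (by positivity) (by norm_num)]
    nlinarith
  have hη4 : η' ≤ η / 4 := by
    rw [hη'def, div_le_div_iff₀ (by positivity) (by norm_num)]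
    nlinarith
  refine ⟨C2 * ((2 : ℝ) ^ j) ^ η' * (A ^ 3 * 2 ^ j), by positivity, ?_⟩
  intro N hN c hc T hT V hV
  obtain ⟨b, hb1, hb2⟩ := hP N hN c hc
  have hN1 : (1 : ℝ) ≤ N := by exact_mod_cast hN
  have hN0 : (0 : ℝ) < N := by linarith
  have hT0 : (0 : ℝ) < T := by linarith
  set G : ℝ := A * (N : ℝ) ^ ((j : ℝ) * (1 - 2 * σ) + η / 4) with hG
  have hG0 : 0 < G := by positivity
  have hbG : ∑ n ∈ Finset.Icc 1 ((2 * N) ^ j), ‖b n‖ ^ 2 ≤ G :=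
    hb2.trans (mul_le_mul_of_nonneg_right hAC (by positivity))
  have hM1 : 1 ≤ (2 * N) ^ j := Nat.one_le_pow _ _ (by omega)
  have h1 := hH ((2 * N) ^ j) b T (V ^ j) G hM1 hT (by positivity) hG0 hbG
  have h2 : (volume {t : ℝ | t ∈ Set.Icc T (2 * T) ∧
      V ≤ ‖∑ n ∈ Finset.Ioc N (2 * N), c n * (n : ℂ) ^ (-((t : ℂ) * Complex.I))‖}).toReal ≤
      (volume {t : ℝ | t ∈ Set.Icc T (2 * T) ∧
      V ^ j ≤ ‖∑ n ∈ Finset.Icc 1 ((2 * N) ^ j), b n * (n : ℂ) ^ (-((t : ℂ) * Complex.I))‖}).toReal := by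
    refine ENNReal.toReal_mono ?_ (measure_mono ?_)
    · refine ne_top_of_le_ne_top ?_ (measure_mono (fun t ht => ht.1) :
        volume {t : ℝ | t ∈ Set.Icc T (2 * T) ∧ V ^ j ≤
          ‖∑ n ∈ Finset.Icc 1 ((2 * N) ^ j), b n * (n : ℂ) ^ (-((t : ℂ) * Complex.I))‖} ≤
          volume (Set.Icc T (2 * T)))
      rw [Real.volume_Icc]
      exact ENNReal.ofReal_ne_top
    · intro t ht
      refine ⟨ht.1, ?_⟩
      rw [← hb1 t, norm_pow]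
      exact pow_le_pow_left₀ hV.le ht.2 j
  refine h2.trans (h1.trans ?_)
  have hNT1 : 1 ≤ (N : ℝ) * T := by nlinarith
  have hNT0 : 0 < (N : ℝ) * T := by linarith
  -- the factor
  have h3 : ((((2 * N) ^ j : ℕ) : ℝ) * T) ^ η' ≤ ((2 : ℝ) ^ j) ^ η' * ((N : ℝ) * T) ^ (η / 4) := by
    have e1 : (((2 * N) ^ j : ℕ) : ℝ) * T = (2 : ℝ) ^ j * ((N : ℝ) ^ j * T) := by
      push_cast
      rw [mul_pow]
      ring
    rw [e1, Real.mul_rpow (by positivity) (by positivity),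
      Real.mul_rpow (by positivity) hT0.le, Real.mul_rpow hN0.le hT0.le]
    refine mul_le_mul_of_nonneg_left ?_ (by positivity)
    refine mul_le_mul ?_ ?_ (by positivity) (by positivity)
    · rw [← Real.rpow_natCast, ← Real.rpow_mul hN0.le]
      exact Real.rpow_le_rpow_of_exponent_le hN1 hjη
    · exact Real.rpow_le_rpow_of_exponent_le hT hη4
  have hNj : (((2 * N) ^ j : ℕ) : ℝ) = (2 : ℝ) ^ j * (N : ℝ) ^ (j : ℝ) := by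
    push_cast
    rw [mul_pow, Real.rpow_natCast]
  have h4 : G * (((2 * N) ^ j : ℕ) : ℝ) / (V ^ j) ^ 2 ≤
      A ^ 3 * 2 ^ j * ((N : ℝ) * T) ^ (3 * η / 4) * ((N : ℝ) ^ (2 * j * (1 - σ)) / V ^ (2 * j)) := by
    have e1 : G * (((2 * N) ^ j : ℕ) : ℝ) =
        A * 2 ^ j * ((N : ℝ) ^ (η / 4) * (N : ℝ) ^ (2 * j * (1 - σ))) := by
      rw [hG, hNj, ← Real.rpow_add hN0]
      have : (N : ℝ) ^ (η / 4 + 2 * j * (1 - σ)) =
          (N : ℝ) ^ ((j : ℝ) * (1 - 2 * σ) + η / 4) * (N : ℝ) ^ (j : ℝ) := by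
        rw [← Real.rpow_add hN0]
        congr 1
        ring
      rw [this]
      ring
    have e2 : (V ^ j) ^ 2 = V ^ (2 * j) := by
      rw [← pow_mul, mul_comm]
    have e3 : (N : ℝ) ^ (η / 4) ≤ ((N : ℝ) * T) ^ (3 * η / 4) := by
      calc (N : ℝ) ^ (η / 4) ≤ ((N : ℝ) * T) ^ (η / 4) :=
            Real.rpow_le_rpow hN0.le (by nlinarith) (by positivity)
        _ ≤ ((N : ℝ) * T) ^ (3 * η / 4) := Real.rpow_le_rpow_of_exponent_le hNT1 (by linarith)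
    have e4 : A ≤ A ^ 3 := by
      have : A * 1 ≤ A * A ^ 2 := mul_le_mul_of_nonneg_left (one_le_pow₀ hA1) hA0.le
      calc A = A * 1 := by ring
        _ ≤ A * A ^ 2 := this
        _ = A ^ 3 := by ring
    rw [e1, e2, mul_div_assoc, mul_div_assoc]
    calc A * 2 ^ j * ((N : ℝ) ^ (η / 4) * ((N : ℝ) ^ (2 * j * (1 - σ)) / V ^ (2 * j)))
        ≤ A ^ 3 * 2 ^ j * (((N : ℝ) * T) ^ (3 * η / 4) * ((N : ℝ) ^ (2 * j * (1 - σ)) / V ^ (2 * j))) := by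
          refine mul_le_mul (mul_le_mul_of_nonneg_right e4 (by positivity))
            (mul_le_mul_of_nonneg_right e3 (by positivity)) (by positivity) (by positivity)
      _ = _ := by ring
  have h5 : T * G ^ 3 * (((2 * N) ^ j : ℕ) : ℝ) / (V ^ j) ^ 6 ≤
      A ^ 3 * 2 ^ j * ((N : ℝ) * T) ^ (3 * η / 4) * (T * (N : ℝ) ^ (j * (4 - 6 * σ)) / V ^ (6 * j)) := by
    have e0 : ((N : ℝ) ^ ((j : ℝ) * (1 - 2 * σ) + η / 4)) ^ 3 =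
        (N : ℝ) ^ (3 * ((j : ℝ) * (1 - 2 * σ) + η / 4)) := by
      rw [← Real.rpow_natCast, ← Real.rpow_mul hN0.le]
      congr 1
      push_cast
      ring
    have e1 : T * G ^ 3 * (((2 * N) ^ j : ℕ) : ℝ) =
        A ^ 3 * 2 ^ j * ((N : ℝ) ^ (3 * η / 4) * (T * (N : ℝ) ^ (j * (4 - 6 * σ)))) := by
      rw [hG, hNj, mul_pow, e0]
      have : (N : ℝ) ^ (3 * η / 4) * (N : ℝ) ^ (j * (4 - 6 * σ)) =
          (N : ℝ) ^ (3 * ((j : ℝ) * (1 - 2 * σ) + η / 4)) * (N : ℝ) ^ (j : ℝ) := by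
        rw [← Real.rpow_add hN0, ← Real.rpow_add hN0]
        congr 1
        ring
      calc T * (A ^ 3 * (N : ℝ) ^ (3 * ((j : ℝ) * (1 - 2 * σ) + η / 4))) * (2 ^ j * (N : ℝ) ^ (j : ℝ))
          = A ^ 3 * 2 ^ j * T * ((N : ℝ) ^ (3 * ((j : ℝ) * (1 - 2 * σ) + η / 4)) * (N : ℝ) ^ (j : ℝ)) := by
            ring
        _ = A ^ 3 * 2 ^ j * T * ((N : ℝ) ^ (3 * η / 4) * (N : ℝ) ^ (j * (4 - 6 * σ))) := by rw [this]
        _ = _ := by ring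
    have e2 : (V ^ j) ^ 6 = V ^ (6 * j) := by
      rw [← pow_mul, mul_comm]
    have e3 : (N : ℝ) ^ (3 * η / 4) ≤ ((N : ℝ) * T) ^ (3 * η / 4) :=
      Real.rpow_le_rpow hN0.le (by nlinarith) (by positivity)
    rw [e1, e2, mul_div_assoc, mul_div_assoc]
    calc A ^ 3 * 2 ^ j * ((N : ℝ) ^ (3 * η / 4) * (T * (N : ℝ) ^ (j * (4 - 6 * σ)) / V ^ (6 * j)))
        ≤ A ^ 3 * 2 ^ j * (((N : ℝ) * T) ^ (3 * η / 4) *
            (T * (N : ℝ) ^ (j * (4 - 6 * σ)) / V ^ (6 * j))) := by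
          refine mul_le_mul_of_nonneg_left (mul_le_mul_of_nonneg_right e3 (by positivity)) (by positivity)
      _ = _ := by ring
  have h6 : ((N : ℝ) * T) ^ (η / 4) * ((N : ℝ) * T) ^ (3 * η / 4) = ((N : ℝ) * T) ^ η := by
    rw [← Real.rpow_add hNT0]
    congr 1
    ring
  set S : ℝ := (N : ℝ) ^ (2 * j * (1 - σ)) / V ^ (2 * j) + T * (N : ℝ) ^ (j * (4 - 6 * σ)) / V ^ (6 * j)
    with hS
  have h7 : G * (((2 * N) ^ j : ℕ) : ℝ) / (V ^ j) ^ 2 + T * G ^ 3 * (((2 * N) ^ j : ℕ) : ℝ) / (V ^ j) ^ 6 ≤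
      A ^ 3 * 2 ^ j * ((N : ℝ) * T) ^ (3 * η / 4) * S := by
    rw [hS, mul_add]
    exact add_le_add h4 h5
  calc C2 * ((((2 * N) ^ j : ℕ) : ℝ) * T) ^ η' * (G * (((2 * N) ^ j : ℕ) : ℝ) / (V ^ j) ^ 2 +
        T * G ^ 3 * (((2 * N) ^ j : ℕ) : ℝ) / (V ^ j) ^ 6)
      ≤ C2 * (((2 : ℝ) ^ j) ^ η' * ((N : ℝ) * T) ^ (η / 4)) *
        (A ^ 3 * 2 ^ j * ((N : ℝ) * T) ^ (3 * η / 4) * S) := by
        refine mul_le_mul (mul_le_mul_of_nonneg_left h3 hC2) h7 (by positivity) (by positivity)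
    _ = C2 * ((2 : ℝ) ^ j) ^ η' * (A ^ 3 * 2 ^ j) *
        (((N : ℝ) * T) ^ (η / 4) * ((N : ℝ) * T) ^ (3 * η / 4)) * S := by ring
    _ = C2 * ((2 : ℝ) ^ j) ^ η' * (A ^ 3 * 2 ^ j) * ((N : ℝ) * T) ^ η * S := by rw [h6]

end Pool.Agent.Lib.PR
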