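import Pool.Agent.Lib.PR.Defs
import Pool.Agent.Lib.MP_bc6037_nt.FO.Block

/-!
# PR / P2 (120 lines): the mean value theorem for the powers of a block

PROOF.  Copy of `FO/Block.lean` (the case `V = 1`) with the threshold `V`: Chebyshev `V^(2j) |E| ≤ ∫_T^{2T} |D^j|^2`; at the end
`N^η ≤ (N T)^η` and `N^(-(j(2σ-1))) = N^(j(1-2σ))`.
-/

set_option autoImplicit false

open MeasureTheory

namespace Pool.Agent.Lib.PR

open Pool.Agent.Lib.MP_bc6037_nt.FO (mean_value pow_poly)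

private lemma p2_cont {S : Finset ℕ} (hS : ∀ n ∈ S, 1 ≤ n) (c : ℕ → ℂ) :
    Continuous fun t : ℝ => ∑ n ∈ S, c n * (n : ℂ) ^ (-((t : ℂ) * Complex.I)) := by
  refine continuous_finsetSum _ fun n hn => ?_
  refine continuous_const.mul ?_
  have h0 : (n : ℂ) ≠ 0 := by
    have := hS n hn
    exact_mod_cast (by omega : n ≠ 0)
  exact Continuous.const_cpow (by fun_prop) (Or.inl h0)

theorem mvPow (j : ℕ) {σ η : ℝ} (hσ : 0 < σ) (hσ1 : σ ≤ 1) (hη : 0 < η) : ∃ C : ℝ, 0 ≤ C ∧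
    ∀ (N : ℕ), 1 ≤ N → ∀ c : ℕ → ℂ, (∀ n : ℕ, 1 ≤ n → ‖c n‖ ≤ (n : ℝ) ^ (-σ)) →
      ∀ T : ℝ, 1 ≤ T → ∀ V : ℝ, 0 < V →
        (volume {t : ℝ | t ∈ Set.Icc T (2 * T) ∧
          V ≤ ‖∑ n ∈ Finset.Ioc N (2 * N), c n * (n : ℂ) ^ (-((t : ℂ) * Complex.I))‖}).toReal ≤
          C * ((N : ℝ) * T) ^ η * ((T * (N : ℝ) ^ (j * (1 - 2 * σ)) + (N : ℝ) ^ (2 * j * (1 - σ))) /
            V ^ (2 * j)) := by
  obtain ⟨C1, hC1, hMV⟩ := mean_value
  obtain ⟨C2, hC2, hP⟩ := pow_poly j hσ hσ1 (half_pos hη)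
  have hC3 : (0 : ℝ) ≤ 2 ^ j * (1 + j + j * (2 / η)) := by positivity
  refine ⟨C1 * C2 * (1 + 2 ^ j * (1 + j + j * (2 / η))), by positivity, ?_⟩
  intro N hN c hc T hT V hV
  obtain ⟨b, hb1, hb2⟩ := hP N hN c hc
  have hN1 : (1 : ℝ) ≤ N := by exact_mod_cast hN
  have hN0 : (0 : ℝ) < N := by linarith
  set D : ℝ → ℂ := fun t => ∑ n ∈ Finset.Ioc N (2 * N), c n * (n : ℂ) ^ (-((t : ℂ) * Complex.I))
    with hD
  set F : ℝ → ℝ := fun t =>
    ‖∑ n ∈ Finset.Icc 1 ((2 * N) ^ j), b n * (n : ℂ) ^ (-((t : ℂ) * Complex.I))‖ ^ 2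
    with hF
  have hDc : Continuous D := p2_cont (fun n hn => by have := (Finset.mem_Ioc.1 hn).1; omega) c
  have hFc : Continuous F :=
    ((p2_cont (fun n hn => (Finset.mem_Icc.1 hn).1) b).norm).pow 2
  have hA : MeasurableSet {t : ℝ | t ∈ Set.Icc T (2 * T) ∧ V ≤ ‖D t‖} := by
    have h1 : IsClosed {t : ℝ | t ∈ Set.Icc T (2 * T) ∧ V ≤ ‖D t‖} :=
      isClosed_Icc.inter (isClosed_le continuous_const hDc.norm)
    exact h1.measurableSet
  have hAfin : volume {t : ℝ | t ∈ Set.Icc T (2 * T) ∧ V ≤ ‖D t‖} ≠ ⊤ := by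
    refine ne_top_of_le_ne_top ?_ (measure_mono (fun t ht => ht.1) :
      volume {t : ℝ | t ∈ Set.Icc T (2 * T) ∧ V ≤ ‖D t‖} ≤ volume (Set.Icc T (2 * T)))
    rw [Real.volume_Icc]
    exact ENNReal.ofReal_ne_top
  have hFi : IntegrableOn F (Set.Icc T (2 * T)) := hFc.continuousOn.integrableOn_Icc
  have h1 : V ^ (2 * j) * (volume {t : ℝ | t ∈ Set.Icc T (2 * T) ∧ V ≤ ‖D t‖}).toReal ≤
      ∫ t in T..(2 * T), F t := by
    have h2 : V ^ (2 * j) * (volume {t : ℝ | t ∈ Set.Icc T (2 * T) ∧ V ≤ ‖D t‖}).toReal =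
        ∫ t in {t : ℝ | t ∈ Set.Icc T (2 * T) ∧ V ≤ ‖D t‖}, (V ^ (2 * j) : ℝ) := by
      rw [setIntegral_const, smul_eq_mul, mul_comm]
      rfl
    rw [h2, intervalIntegral.integral_of_le (by linarith), ← integral_Icc_eq_integral_Ioc]
    calc ∫ t in {t : ℝ | t ∈ Set.Icc T (2 * T) ∧ V ≤ ‖D t‖}, (V ^ (2 * j) : ℝ)
        ≤ ∫ t in {t : ℝ | t ∈ Set.Icc T (2 * T) ∧ V ≤ ‖D t‖}, F t := by
          refine setIntegral_mono_on ?_ (hFi.mono_set fun t ht => ht.1) hA ?_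
          · exact integrableOn_const hAfin
          · intro t ht
            have h3 : V ≤ ‖D t‖ := ht.2
            have h4 : F t = (‖D t‖ ^ j) ^ 2 := by
              simp only [hF, hD]
              rw [← hb1 t, norm_pow]
            rw [h4, ← pow_mul, mul_comm j 2]
            exact pow_le_pow_left₀ hV.le h3 _
      _ ≤ ∫ t in Set.Icc T (2 * T), F t := by
          refine setIntegral_mono_set hFi ?_ ?_
          · exact Filter.Eventually.of_forall fun t => by simp only [hF]; positivity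
          · exact Filter.Eventually.of_forall fun t ht => ht.1
  have hVj : (0 : ℝ) < V ^ (2 * j) := by positivity
  rw [← mul_div_assoc, le_div_iff₀ hVj, mul_comm _ (V ^ (2 * j))]
  refine h1.trans ?_
  have h5 := hMV ((2 * N) ^ j) b T hT
  refine h5.trans ?_
  -- the elementary bound
  have hM : (((2 * N) ^ j : ℕ) : ℝ) * (1 + Real.log (((2 * N) ^ j : ℕ) : ℝ)) ≤
      2 ^ j * (1 + j + j * (2 / η)) * (N : ℝ) ^ ((j : ℝ) + η / 2) := by
    have h6 : (((2 * N) ^ j : ℕ) : ℝ) = 2 ^ j * (N : ℝ) ^ j := by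
      push_cast
      rw [mul_pow]
    have h7 : Real.log (((2 * N) ^ j : ℕ) : ℝ) = j * (Real.log 2 + Real.log N) := by
      push_cast
      rw [Real.log_pow, Real.log_mul (by norm_num) hN0.ne']
    have h8 : Real.log N ≤ (N : ℝ) ^ (η / 2) * (2 / η) := by
      have := Real.log_le_rpow_div hN0.le (half_pos hη)
      refine this.trans (le_of_eq ?_)
      field_simp
    have h9 : Real.log 2 ≤ 1 := by
      have := Real.log_two_lt_d9
      linarith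
    have h10 : (1 : ℝ) ≤ (N : ℝ) ^ (η / 2) := Real.one_le_rpow hN1 (by positivity)
    have h11 : 1 + Real.log (((2 * N) ^ j : ℕ) : ℝ) ≤ (1 + j + j * (2 / η)) * (N : ℝ) ^ (η / 2) := by
      rw [h7]
      have hm0 : (0 : ℝ) ≤ j := Nat.cast_nonneg j
      have h12 : (j : ℝ) * (Real.log 2 + Real.log N) ≤ j * (1 + (N : ℝ) ^ (η / 2) * (2 / η)) :=
        mul_le_mul_of_nonneg_left (by linarith) hm0
      nlinarith [mul_le_mul_of_nonneg_left h10 hm0]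
    rw [h6, Real.rpow_add hN0, Real.rpow_natCast]
    rw [h6] at h11
    calc 2 ^ j * (N : ℝ) ^ j * (1 + Real.log (2 ^ j * (N : ℝ) ^ j))
        ≤ 2 ^ j * (N : ℝ) ^ j * ((1 + j + j * (2 / η)) * (N : ℝ) ^ (η / 2)) :=
          mul_le_mul_of_nonneg_left h11 (by positivity)
      _ = 2 ^ j * (1 + j + j * (2 / η)) * ((N : ℝ) ^ j * (N : ℝ) ^ (η / 2)) := by ring
  have hX : T * (N : ℝ) ^ ((j : ℝ) * (1 - 2 * σ) + η / 2) ≤
      (N : ℝ) ^ η * (T * (N : ℝ) ^ ((j : ℝ) * (1 - 2 * σ))) := by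
    have h12 : (N : ℝ) ^ ((j : ℝ) * (1 - 2 * σ) + η / 2) ≤
        (N : ℝ) ^ (η + (j : ℝ) * (1 - 2 * σ)) :=
      Real.rpow_le_rpow_of_exponent_le hN1 (by linarith)
    rw [Real.rpow_add hN0 η] at h12
    calc T * (N : ℝ) ^ ((j : ℝ) * (1 - 2 * σ) + η / 2)
        ≤ T * ((N : ℝ) ^ η * (N : ℝ) ^ ((j : ℝ) * (1 - 2 * σ))) :=
          mul_le_mul_of_nonneg_left h12 (by linarith)
      _ = _ := by ring
  have hY : (N : ℝ) ^ ((j : ℝ) + η / 2) * (N : ℝ) ^ ((j : ℝ) * (1 - 2 * σ) + η / 2) =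
      (N : ℝ) ^ η * (N : ℝ) ^ (2 * (j : ℝ) * (1 - σ)) := by
    rw [← Real.rpow_add hN0, ← Real.rpow_add hN0]
    congr 1
    ring
  have hT0 : 0 ≤ T := by linarith
  have hNT : (N : ℝ) ^ η ≤ ((N : ℝ) * T) ^ η := by
    apply Real.rpow_le_rpow hN0.le _ hη.le
    nlinarith
  set P : ℝ := (N : ℝ) ^ ((j : ℝ) * (1 - 2 * σ) + η / 2) with hPdef
  have hP0 : 0 ≤ P := Real.rpow_nonneg hN0.le _
  set Q : ℝ := 2 ^ j * (1 + j + j * (2 / η)) with hQdef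
  set U : ℝ := T * (N : ℝ) ^ ((j : ℝ) * (1 - 2 * σ)) with hU
  set W : ℝ := (N : ℝ) ^ (2 * (j : ℝ) * (1 - σ)) with hW
  have hU0 : 0 ≤ U := mul_nonneg hT0 (Real.rpow_nonneg hN0.le _)
  have hW0 : 0 ≤ W := Real.rpow_nonneg hN0.le _
  have hE0 : 0 ≤ (N : ℝ) ^ η := Real.rpow_nonneg hN0.le _
  calc C1 * (T + (((2 * N) ^ j : ℕ) : ℝ) * (1 + Real.log (((2 * N) ^ j : ℕ) : ℝ))) *
        ∑ n ∈ Finset.Icc 1 ((2 * N) ^ j), ‖b n‖ ^ 2
      ≤ C1 * (T + Q * (N : ℝ) ^ ((j : ℝ) + η / 2)) * (C2 * P) := by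
        refine mul_le_mul ?_ hb2 (Finset.sum_nonneg fun n _ => by positivity) ?_
        · refine mul_le_mul_of_nonneg_left ?_ hC1
          linarith
        · positivity
    _ = C1 * C2 * (T * P + Q * ((N : ℝ) ^ ((j : ℝ) + η / 2) * P)) := by ring
    _ ≤ C1 * C2 * ((N : ℝ) ^ η * U + Q * ((N : ℝ) ^ η * W)) := by
        refine mul_le_mul_of_nonneg_left ?_ (mul_nonneg hC1 hC2)
        rw [hY]
        linarith
    _ ≤ C1 * C2 * (1 + Q) * (N : ℝ) ^ η * (U + W) := by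
        have h13 : 0 ≤ C1 * C2 * (N : ℝ) ^ η * (Q * U + W) :=
          mul_nonneg (mul_nonneg (mul_nonneg hC1 hC2) hE0) (add_nonneg (mul_nonneg hC3 hU0) hW0)
        nlinarith
    _ ≤ C1 * C2 * (1 + Q) * ((N : ℝ) * T) ^ η * (U + W) := by
        apply mul_le_mul_of_nonneg_right _ (add_nonneg hU0 hW0)
        apply mul_le_mul_of_nonneg_left hNT
        exact mul_nonneg (mul_nonneg hC1 hC2) (by linarith)

end Pool.Agent.Lib.PR
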