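import Pool.Agent.Lib.PR.Defs

/-!
# PR / PW: pointwise savings

`PW σ θ`: the blocks of length `N = T^a` are `≤ C N^(1-σ) T^(ε-θ(a))`.
-/

set_option autoImplicit false

namespace Pool.Agent.Lib.PR

/-- pointwise saving `θ a` for the blocks of length `N = T^a` -/
def PW (σ : ℝ) (θ : ℝ → ℝ) : Prop :=
  ∀ ε : ℝ, 0 < ε → ∃ C : ℝ, 0 ≤ C ∧ ∀ T : ℝ, 2 ≤ T → ∀ N : ℕ, 1 ≤ N → (N : ℝ) ≤ T →
    ∀ φ : ℕ → ℝ, (∀ n, 0 ≤ φ n) → (∀ n, φ n ≤ 1) → Antitone φ → ∀ t : ℝ, T ≤ t → t ≤ 2 * T →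
      ‖∑ n ∈ Finset.Ioc N (2 * N), ((φ n * (n : ℝ) ^ (-σ) : ℝ) : ℂ) *
        (n : ℂ) ^ (-((t : ℂ) * Complex.I))‖ ≤
        C * ((N : ℝ) ^ (1 - σ) * T ^ (ε - θ (Real.log N / Real.log T)))

theorem PW_mono {σ : ℝ} {θ θ' : ℝ → ℝ} (h : PW σ θ) (hle : ∀ a, 0 ≤ a → a ≤ 1 → θ' a ≤ θ a) : PW σ θ' := by
  intro ε hε
  obtain ⟨C, hC, hb⟩ := h ε hε
  refine ⟨C, hC, fun T hT N hN hNT φ h0 h1 ha t ht1 ht2 => (hb T hT N hN hNT φ h0 h1 ha t ht1 ht2).trans ?_⟩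
  have hT1 : (1 : ℝ) ≤ T := by linarith
  have hN1 : (1 : ℝ) ≤ N := by exact_mod_cast hN
  have hl : 0 < Real.log T := Real.log_pos (by linarith)
  have ha0 : 0 ≤ Real.log N / Real.log T := div_nonneg (Real.log_nonneg hN1) hl.le
  have ha1 : Real.log N / Real.log T ≤ 1 := by
    rw [div_le_one hl]
    exact Real.log_le_log (by linarith) hNT
  refine mul_le_mul_of_nonneg_left (mul_le_mul_of_nonneg_left ?_ (by positivity)) hC
  exact Real.rpow_le_rpow_of_exponent_le hT1 (by linarith [hle _ ha0 ha1])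

theorem PW_max {σ : ℝ} {θ₁ θ₂ : ℝ → ℝ} (h1 : PW σ θ₁) (h2 : PW σ θ₂) :
    PW σ (fun a => max (θ₁ a) (θ₂ a)) := by
  intro ε hε
  obtain ⟨C, hC, hb⟩ := h1 ε hε
  obtain ⟨D, hD, hb'⟩ := h2 ε hε
  refine ⟨C + D, by positivity, fun T hT N hN hNT φ h0 h1 ha t ht1 ht2 => ?_⟩
  have e1 := hb T hT N hN hNT φ h0 h1 ha t ht1 ht2
  have e2 := hb' T hT N hN hNT φ h0 h1 ha t ht1 ht2
  have hX : 0 ≤ (N : ℝ) ^ (1 - σ) * T ^ (ε - max (θ₁ (Real.log N / Real.log T)) (θ₂ (Real.log N / Real.log T))) := by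
    have : 0 < T := by linarith
    positivity
  rcases le_total (θ₁ (Real.log N / Real.log T)) (θ₂ (Real.log N / Real.log T)) with h | h
  · simp only [max_eq_right h] at hX ⊢
    refine e2.trans ?_
    nlinarith
  · simp only [max_eq_left h] at hX ⊢
    refine e1.trans ?_
    nlinarith

theorem PW_zero {σ : ℝ} (hσ : 0 ≤ σ) : PW σ (fun _ => 0) := by
  intro ε hε
  refine ⟨1, zero_le_one, fun T hT N hN hNT φ h0 h1 ha t ht1 ht2 => ?_⟩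
  have hN1 : (1 : ℝ) ≤ N := by exact_mod_cast hN
  have hN0 : (0 : ℝ) < N := by linarith
  have hT1 : 1 ≤ T ^ (ε - 0) := Real.one_le_rpow (by linarith) (by linarith)
  have hterm : ∀ n ∈ Finset.Ioc N (2 * N), ‖((φ n * (n : ℝ) ^ (-σ) : ℝ) : ℂ) *
      (n : ℂ) ^ (-((t : ℂ) * Complex.I))‖ ≤ (N : ℝ) ^ (-σ) := by
    intro n hn
    rw [Finset.mem_Ioc] at hn
    have hnN : (N : ℝ) ≤ n := by exact_mod_cast hn.1.le
    have hn0 : 0 < n := by omega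
    have e1 : ‖(n : ℂ) ^ (-((t : ℂ) * Complex.I))‖ = 1 := by
      rw [Complex.norm_natCast_cpow_of_pos hn0]
      simp
    rw [norm_mul, e1, mul_one, Complex.norm_real, Real.norm_eq_abs,
      abs_of_nonneg (mul_nonneg (h0 n) (Real.rpow_nonneg (Nat.cast_nonneg n) _))]
    have e2 : (n : ℝ) ^ (-σ) ≤ (N : ℝ) ^ (-σ) := Real.rpow_le_rpow_of_nonpos hN0 hnN (by linarith)
    have e3 : 0 ≤ (n : ℝ) ^ (-σ) := Real.rpow_nonneg (Nat.cast_nonneg n) _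
    calc φ n * (n : ℝ) ^ (-σ) ≤ 1 * (n : ℝ) ^ (-σ) := mul_le_mul_of_nonneg_right (h1 n) e3
      _ ≤ (N : ℝ) ^ (-σ) := by rw [one_mul]; exact e2
  refine (norm_sum_le _ _).trans ((Finset.sum_le_sum hterm).trans ?_)
  rw [Finset.sum_const, Nat.card_Ioc, nsmul_eq_mul, show 2 * N - N = N by omega]
  have e4 : (N : ℝ) * (N : ℝ) ^ (-σ) = (N : ℝ) ^ (1 - σ) := by
    rw [sub_eq_add_neg, Real.rpow_add hN0, Real.rpow_one]
  rw [e4, one_mul]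
  exact le_mul_of_one_le_right (by positivity) hT1

end Pool.Agent.Lib.PR
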