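import Pool.Agent.Lib.PR.Defs

/-!
# PR / BD: the bound for the dyadic blocks with a general exponent

`BlockMomM k M σ`: `V^k |{t ∈ [T,2T] : |D(t)| ≥ V}| ≤ C T^(M+ε)` for all dyadic blocks `D` of `ζ(σ+it)` of length `≤ T` with
decreasing weights.  `M = 1` is `BlockMom`; for Ivic's `beta_k` the exponent is `M < 2`.
-/

set_option autoImplicit false

open MeasureTheory

namespace Pool.Agent.Lib.PR

/-- the bound for the dyadic blocks, exponent `M` -/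
def BlockMomM (k : ℕ) (M σ : ℝ) : Prop :=
  ∀ ε : ℝ, 0 < ε → ∃ C : ℝ, 0 ≤ C ∧ ∀ T : ℝ, 1 ≤ T → ∀ N : ℕ, 1 ≤ N → (N : ℝ) ≤ T →
    ∀ φ : ℕ → ℝ, (∀ n, 0 ≤ φ n) → (∀ n, φ n ≤ 1) → Antitone φ → ∀ V : ℝ, 1 ≤ V →
      V ^ k * (volume {t : ℝ | t ∈ Set.Icc T (2 * T) ∧
        V ≤ ‖∑ n ∈ Finset.Ioc N (2 * N), ((φ n * (n : ℝ) ^ (-σ) : ℝ) : ℂ) *
          (n : ℂ) ^ (-((t : ℂ) * Complex.I))‖}).toReal ≤ C * T ^ (M + ε)

end Pool.Agent.Lib.PR
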