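import Pool.Agent.Lib.PR.RZ1
import Pool.Agent.Lib.MP_bc6037_nt.FO.LE

/-!
# PR / RZ2: the moment condition `Mom k σ R`, `R ≥ 1`

The proof of `mom_of_block` (`PR/Z2.lean`) with `R` in place of `1`.
-/


set_option autoImplicit false

open MeasureTheory Complex

namespace Pool.Agent.Lib.PR

private lemma Z2_symm {σ : ℝ} (t : ℝ) :
    ‖riemannZeta (σ + ((-t : ℝ) : ℂ) * I)‖ = ‖riemannZeta (σ + t * I)‖ := by
  have h := riemannZeta_conj (σ + t * I)
  have h2 : (starRingEnd ℂ) ((σ : ℂ) + t * I) = (σ : ℂ) + ((-t : ℝ) : ℂ) * I := by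
    rw [map_add, map_mul, Complex.conj_ofReal, Complex.conj_ofReal, Complex.conj_I]
    push_cast
    ring
  rw [h2] at h
  rw [h, RCLike.norm_conj]

private lemma Z2_cont {k : ℕ} {σ κ : ℝ} (h1 : σ < 1) :
    Continuous fun t : ℝ => ‖riemannZeta (σ + t * I)‖ ^ k * (1 + |t|) ^ κ := by
  have hzc : Continuous fun t : ℝ => riemannZeta (σ + t * I) :=
    Pool.Agent.Lib.MP_bc6037_nt.FO.continuous_zeta_line h1.ne
  refine (hzc.norm.pow k).mul (Continuous.rpow_const (by fun_prop) ?_)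
  intro t
  left
  positivity

private lemma Z2_piece {k : ℕ} {R σ ε C : ℝ} (hR : 1 ≤ R) (h1 : σ < 1) (hε : 0 < ε)
    (hC : ∀ T : ℝ, 1 ≤ T → ∫ t in T..(2 * T), ‖riemannZeta (σ + t * I)‖ ^ k ≤ C * T ^ (R + ε / 2))
    (i : ℕ) :
    ∫ t in Set.Icc ((2 : ℝ) ^ i) (2 * (2 : ℝ) ^ i),
      ‖‖riemannZeta (σ + t * I)‖ ^ k * (1 + |t|) ^ (-(R + ε))‖ ≤ C * ((2 : ℝ) ^ (-(ε / 2))) ^ i := by
  have hzc : Continuous fun t : ℝ => riemannZeta (σ + t * I) :=
    Pool.Agent.Lib.MP_bc6037_nt.FO.continuous_zeta_line h1.ne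
  have hT1 : (1 : ℝ) ≤ 2 ^ i := one_le_pow₀ (by norm_num)
  have hT0 : (0 : ℝ) < 2 ^ i := by linarith
  have h3 : ∫ t in Set.Icc ((2 : ℝ) ^ i) (2 * (2 : ℝ) ^ i),
      ‖‖riemannZeta (σ + t * I)‖ ^ k * (1 + |t|) ^ (-(R + ε))‖ ≤
      ∫ t in Set.Icc ((2 : ℝ) ^ i) (2 * (2 : ℝ) ^ i),
        ‖riemannZeta (σ + t * I)‖ ^ k * ((2 : ℝ) ^ i) ^ (-(R + ε)) := by
    refine setIntegral_mono_on ?_ ?_ measurableSet_Icc ?_
    · exact (Z2_cont (k := k) (κ := -(R + ε)) h1).norm.continuousOn.integrableOn_Icc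
    · exact ((hzc.norm.pow k).mul continuous_const).continuousOn.integrableOn_Icc
    · intro t ht
      have ht1 : (2 : ℝ) ^ i ≤ t := ht.1
      have ht0 : 0 ≤ t := by linarith
      rw [Real.norm_eq_abs, abs_of_nonneg (by positivity)]
      refine mul_le_mul_of_nonneg_left ?_ (by positivity)
      rw [abs_of_nonneg ht0]
      exact Real.rpow_le_rpow_of_nonpos hT0 (by linarith) (by linarith)
  have h4 := hC ((2 : ℝ) ^ i) hT1
  rw [intervalIntegral.integral_of_le (by linarith), ← integral_Icc_eq_integral_Ioc] at h4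
  rw [integral_mul_const] at h3
  refine h3.trans ?_
  calc (∫ t in Set.Icc ((2 : ℝ) ^ i) (2 * (2 : ℝ) ^ i), ‖riemannZeta (σ + t * I)‖ ^ k) *
        ((2 : ℝ) ^ i) ^ (-(R + ε))
      ≤ C * ((2 : ℝ) ^ i) ^ (R + ε / 2) * ((2 : ℝ) ^ i) ^ (-(R + ε)) :=
        mul_le_mul_of_nonneg_right h4 (Real.rpow_nonneg hT0.le _)
    _ = C * ((2 : ℝ) ^ i) ^ (-(ε / 2)) := by
        rw [mul_assoc, ← Real.rpow_add hT0]
        congr 2
        ring
    _ = C * ((2 : ℝ) ^ (-(ε / 2))) ^ i := by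
        rw [← Real.rpow_natCast, ← Real.rpow_natCast, ← Real.rpow_mul (by norm_num),
          ← Real.rpow_mul (by norm_num), mul_comm (i : ℝ)]

private lemma Z2_pos {k : ℕ} {R σ ε C : ℝ} (hR : 1 ≤ R) (h1 : σ < 1) (hε : 0 < ε)
    (hC : ∀ T : ℝ, 1 ≤ T → ∫ t in T..(2 * T), ‖riemannZeta (σ + t * I)‖ ^ k ≤ C * T ^ (R + ε / 2)) :
    IntegrableOn (fun t : ℝ => ‖riemannZeta (σ + t * I)‖ ^ k * (1 + |t|) ^ (-(R + ε)))
      (Set.Ici 1) := by
  have hi : ∀ i : ℕ, IntegrableOn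
      (fun t : ℝ => ‖riemannZeta (σ + t * I)‖ ^ k * (1 + |t|) ^ (-(R + ε)))
      (Set.Icc ((2 : ℝ) ^ i) (2 * (2 : ℝ) ^ i)) := fun i =>
    (Z2_cont h1).continuousOn.integrableOn_Icc
  have hb := Z2_piece hR h1 hε hC
  have hr : (2 : ℝ) ^ (-(ε / 2)) < 1 :=
    Real.rpow_lt_one_of_one_lt_of_neg (by norm_num) (by linarith)
  have hr0 : 0 ≤ (2 : ℝ) ^ (-(ε / 2)) := Real.rpow_nonneg (by norm_num) _
  have hsum : Summable fun i : ℕ => ∫ t in Set.Icc ((2 : ℝ) ^ i) (2 * (2 : ℝ) ^ i),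
      ‖‖riemannZeta (σ + t * I)‖ ^ k * (1 + |t|) ^ (-(R + ε))‖ := by
    refine Summable.of_nonneg_of_le (fun i => ?_) hb ((summable_geometric_of_lt_one hr0 hr).mul_left C)
    exact integral_nonneg fun t => norm_nonneg _
  have hU := integrableOn_iUnion_of_summable_integral_norm hi hsum
  refine hU.mono_set ?_
  intro t ht
  obtain ⟨i, hi1, hi2⟩ := exists_nat_pow_near (Set.mem_Ici.1 ht) (by norm_num : (1 : ℝ) < 2)
  rw [Set.mem_iUnion]
  refine ⟨i, hi1, ?_⟩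
  rw [pow_succ, mul_comm] at hi2
  exact hi2.le

theorem mom_of_blockR {k : ℕ} {R σ : ℝ} (hR : 1 ≤ R) (h0 : 1 / 2 ≤ σ) (h1 : σ < 1) (h : BlockMomR k R σ) :
    Pool.Agent.Lib.MP_bc6037_nt.FO.Mom k σ R := by
  intro ε hε
  obtain ⟨C, -, hC⟩ := dyadic_momentR hR h0 h1 h (half_pos hε)
  have hpos := Z2_pos hR h1 hε hC
  have hneg : IntegrableOn
      (fun t : ℝ => ‖riemannZeta (σ + t * I)‖ ^ k * (1 + |t|) ^ (-(R + ε)))
      (Neg.neg ⁻¹' (Set.Ici (1 : ℝ))) := by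
    rw [← integrable_indicator_iff (measurable_neg measurableSet_Ici)]
    have h3 := ((integrable_indicator_iff measurableSet_Ici).2 hpos).comp_neg
    refine h3.congr (Filter.Eventually.of_forall fun t => ?_)
    simp only [Set.indicator, Set.mem_preimage, abs_neg]
    rw [Z2_symm]
  have hmid : IntegrableOn
      (fun t : ℝ => ‖riemannZeta (σ + t * I)‖ ^ k * (1 + |t|) ^ (-(R + ε)))
      (Set.Icc (-1 : ℝ) 1) := (Z2_cont h1).continuousOn.integrableOn_Icc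
  rw [← integrableOn_univ]
  refine ((hpos.union hneg).union hmid).mono_set ?_
  intro t _
  rcases le_total 1 t with h2 | h2
  · left
    left
    exact h2
  · rcases le_total t (-1) with h3 | h3
    · left
      right
      rw [Set.mem_preimage, Set.mem_Ici]
      linarith
    · right
      exact ⟨h3, h2⟩

end Pool.Agent.Lib.PR
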