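import Pool.Agent.Lib.PR.RD
import Pool.Agent.Lib.PR.PW
import Pool.Agent.Lib.PR.P1
import Pool.Agent.Lib.PR.P2

/-!
# PR / RZg: the bound for the blocks with a general exponent `R`

The proof of `blockMom_gen` (`PR/Zg.lean`) with `R` in place of `1`.
-/


set_option autoImplicit false

open MeasureTheory

namespace Pool.Agent.Lib.PR

private theorem zg_log {T x : ℝ} (hT : 1 < T) (hx : 0 < x) : T ^ (Real.log x / Real.log T) = x := by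
  have h := (Real.log_pos hT).ne'
  rw [Real.rpow_def_of_pos (by linarith), mul_div_assoc', mul_div_cancel_left₀ _ h, Real.exp_log hx]

private theorem zg_c {φ : ℕ → ℝ} {σ : ℝ} (h0 : ∀ n, 0 ≤ φ n) (h1 : ∀ n, φ n ≤ 1) (n : ℕ) :
    ‖((φ n * (n : ℝ) ^ (-σ) : ℝ) : ℂ)‖ ≤ (n : ℝ) ^ (-σ) := by
  have h2 : 0 ≤ (n : ℝ) ^ (-σ) := Real.rpow_nonneg (Nat.cast_nonneg n) _
  rw [Complex.norm_real, Real.norm_of_nonneg (mul_nonneg (h0 n) h2)]
  exact mul_le_of_le_one_left h2 (h1 n)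

/-- the trivial bound of a block -/
private theorem zg_triv {φ : ℕ → ℝ} {σ : ℝ} (hσ : 0 ≤ σ) (h0 : ∀ n, 0 ≤ φ n) (h1 : ∀ n, φ n ≤ 1) (N : ℕ) (t : ℝ) :
    ‖∑ n ∈ Finset.Ioc N (2 * N), ((φ n * (n : ℝ) ^ (-σ) : ℝ) : ℂ) * (n : ℂ) ^ (-((t : ℂ) * Complex.I))‖ ≤ N := by
  refine (norm_sum_le _ _).trans ?_
  have h2 : ∀ n ∈ Finset.Ioc N (2 * N), ‖((φ n * (n : ℝ) ^ (-σ) : ℝ) : ℂ) * (n : ℂ) ^ (-((t : ℂ) * Complex.I))‖ ≤ 1 := by
    intro n hn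
    rw [Finset.mem_Ioc] at hn
    have hn0 : 0 < n := by omega
    have hn1 : (1 : ℝ) ≤ n := by exact_mod_cast hn0
    rw [norm_mul, Complex.norm_natCast_cpow_of_pos hn0]
    have h3 : (-((t : ℂ) * Complex.I)).re = 0 := by simp
    rw [h3, Real.rpow_zero, mul_one]
    exact (zg_c h0 h1 n).trans (Real.rpow_le_one_of_one_le_of_nonpos hn1 (by linarith))
  refine (Finset.sum_le_sum h2).trans ?_
  rw [Finset.sum_const, Nat.card_Ioc, nsmul_eq_mul, mul_one]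
  have h4 : 2 * N - N = N := by omega
  rw [h4]

private theorem zg_vol {T : ℝ} (hT : 0 ≤ T) (f : ℝ → Prop) : (volume {t : ℝ | t ∈ Set.Icc T (2 * T) ∧ f t}).toReal ≤ T := by
  have h1 : volume {t : ℝ | t ∈ Set.Icc T (2 * T) ∧ f t} ≤ ENNReal.ofReal (2 * T - T) := by
    rw [← Real.volume_Icc]
    exact measure_mono fun t ht => ht.1
  have h2 := ENNReal.toReal_mono ENNReal.ofReal_ne_top h1
  rw [ENNReal.toReal_ofReal (by linarith)] at h2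
  linarith

/-- the exponents -/
private theorem zg_exp {T a v δ σ : ℝ} (hT : 1 < T) (hσ : σ = 1 - δ) {N V : ℝ} (hN : T ^ a = N) (hV : T ^ v = V) (k j : ℕ) :
    V ^ k * (N ^ (2 * j * (1 - σ)) / V ^ (2 * j)) = T ^ (2 * j * (a * δ - v) - k * ((a * δ - v) - a * δ)) ∧
    V ^ k * (T * N ^ (j * (4 - 6 * σ)) / V ^ (6 * j)) = T ^ (1 - 2 * j * a + 6 * j * (a * δ - v) - k * ((a * δ - v) - a * δ)) ∧
    V ^ k * (T * N ^ (j * (1 - 2 * σ)) / V ^ (2 * j)) = T ^ (1 - j * a + 2 * j * (a * δ - v) - k * ((a * δ - v) - a * δ)) := by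
  have hT0 : 0 < T := by linarith
  have hVk : ∀ i : ℕ, V ^ i = T ^ (v * i) := by
    intro i
    rw [← hV, ← Real.rpow_natCast, ← Real.rpow_mul hT0.le]
  have hNr : ∀ r : ℝ, N ^ r = T ^ (a * r) := by
    intro r
    rw [← hN, ← Real.rpow_mul hT0.le]
  refine ⟨?_, ?_, ?_⟩
  · rw [hVk, hVk, hNr, ← Real.rpow_sub hT0, ← Real.rpow_add hT0]
    congr 1
    rw [hσ]
    push_cast
    ring
  · rw [hVk, hVk, hNr, mul_div_assoc, ← Real.rpow_sub hT0]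
    nth_rewrite 2 [← Real.rpow_one T]
    rw [← Real.rpow_add hT0, ← Real.rpow_add hT0]
    congr 1
    rw [hσ]
    push_cast
    ring
  · rw [hVk, hVk, hNr, mul_div_assoc, ← Real.rpow_sub hT0]
    nth_rewrite 2 [← Real.rpow_one T]
    rw [← Real.rpow_add hT0, ← Real.rpow_add hT0]
    congr 1
    rw [hσ]
    push_cast
    ring

theorem blockMomR_gen (k J : ℕ) (R δ c0 : ℝ) (hR : 0 ≤ R) (hδ : 0 < δ) (hδ1 : δ ≤ 1 / 2) (hc0 : 0 ≤ c0) (θ : ℝ → ℝ)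
    (hP : PW (1 - δ) θ)
    (hA : ∀ a s e : ℝ, 0 ≤ a → a ≤ 1 → 0 ≤ e → e ≤ 1 → θ a - e ≤ s → ∃ j : ℕ, j ≤ J ∧
      2 * j * s ≤ R + k * (s - a * δ) + c0 * e ∧
      (1 - 2 * j * a + 6 * j * s ≤ R + k * (s - a * δ) + c0 * e ∨
        1 - j * a + 2 * j * s ≤ R + k * (s - a * δ) + c0 * e)) :
    BlockMomR k R (1 - δ) := by
  intro ε hε
  obtain ⟨ε', hε'0, hε'1, hε'ε⟩ : ∃ ε' : ℝ, 0 < ε' ∧ ε' ≤ 1 ∧ ε' ≤ ε := ⟨min ε 1, lt_min hε one_pos, min_le_right _ _, min_le_left _ _⟩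
  obtain ⟨e, he⟩ : ∃ e : ℝ, e = ε' / (4 * (c0 + 1)) := ⟨_, rfl⟩
  have he0 : 0 < e := by
    rw [he]
    positivity
  have hc0e : c0 * e ≤ ε' / 4 := by
    rw [he, ← mul_div_assoc, div_le_div_iff₀ (by positivity) (by norm_num)]
    nlinarith
  have he1 : e ≤ 1 := by
    rw [he, div_le_one (by positivity)]
    linarith
  obtain ⟨C2, hC20, hC2⟩ := hP (e / 2) (by positivity)
  have hm : ∀ j : ℕ, ∃ C : ℝ, 0 ≤ C ∧ ∀ (N : ℕ), 1 ≤ N → ∀ c : ℕ → ℂ, (∀ n : ℕ, 1 ≤ n → ‖c n‖ ≤ (n : ℝ) ^ (-(1 - δ))) →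
      ∀ T : ℝ, 1 ≤ T → ∀ V : ℝ, 0 < V →
        (volume {t : ℝ | t ∈ Set.Icc T (2 * T) ∧
          V ≤ ‖∑ n ∈ Finset.Ioc N (2 * N), c n * (n : ℂ) ^ (-((t : ℂ) * Complex.I))‖}).toReal ≤
          C * ((N : ℝ) * T) ^ (ε' / 16) * ((N : ℝ) ^ (2 * j * (1 - (1 - δ))) / V ^ (2 * j) +
            T * (N : ℝ) ^ (j * (4 - 6 * (1 - δ))) / V ^ (6 * j)) :=
    fun j => hmPow j (by linarith) (by linarith) (by positivity)
  have hv : ∀ j : ℕ, ∃ C : ℝ, 0 ≤ C ∧ ∀ (N : ℕ), 1 ≤ N → ∀ c : ℕ → ℂ, (∀ n : ℕ, 1 ≤ n → ‖c n‖ ≤ (n : ℝ) ^ (-(1 - δ))) →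
      ∀ T : ℝ, 1 ≤ T → ∀ V : ℝ, 0 < V →
        (volume {t : ℝ | t ∈ Set.Icc T (2 * T) ∧
          V ≤ ‖∑ n ∈ Finset.Ioc N (2 * N), c n * (n : ℂ) ^ (-((t : ℂ) * Complex.I))‖}).toReal ≤
          C * ((N : ℝ) * T) ^ (ε' / 16) * ((T * (N : ℝ) ^ (j * (1 - 2 * (1 - δ))) + (N : ℝ) ^ (2 * j * (1 - (1 - δ)))) /
            V ^ (2 * j)) :=
    fun j => mvPow j (by linarith) (by linarith) (by positivity)
  choose Ch hCh0 hCh using hm
  choose Cm hCm0 hCm using hv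
  obtain ⟨C1, hC1⟩ : ∃ C1 : ℝ, C1 = ∑ j ∈ Finset.range (J + 1), (Ch j + Cm j) := ⟨_, rfl⟩
  have hC1s : ∀ j ≤ J, Ch j + Cm j ≤ C1 := by
    intro j hj
    rw [hC1]
    exact Finset.single_le_sum (f := fun j => Ch j + Cm j) (fun i _ => add_nonneg (hCh0 i) (hCm0 i)) (Finset.mem_range.2 (by omega))
  have hC10 : 0 ≤ C1 := (add_nonneg (hCh0 0) (hCm0 0)).trans (hC1s 0 (by omega))
  obtain ⟨T1, hT12, hT1⟩ : ∃ T1 : ℝ, 2 ≤ T1 ∧ ∀ T : ℝ, T1 ≤ T → C2 ≤ T ^ (e / 2) := by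
    have h := (tendsto_rpow_atTop (by positivity : 0 < e / 2)).eventually_ge_atTop C2
    obtain ⟨x, hx⟩ := Filter.eventually_atTop.1 h
    exact ⟨max 2 x, le_max_left _ _, fun T hT => hx T ((le_max_right _ _).trans hT)⟩
  refine ⟨T1 ^ (k + 1) + 2 * C1, by positivity, ?_⟩
  intro T hT N hN hNT φ h0 h1 hanti V hV
  have hTε : 1 ≤ T ^ (R + ε) := Real.one_le_rpow hT (by linarith)
  by_cases hne : {t : ℝ | t ∈ Set.Icc T (2 * T) ∧
        V ≤ ‖∑ n ∈ Finset.Ioc N (2 * N), ((φ n * (n : ℝ) ^ (-(1 - δ)) : ℝ) : ℂ) *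
          (n : ℂ) ^ (-((t : ℂ) * Complex.I))‖}.Nonempty
  swap
  · rw [Set.not_nonempty_iff_eq_empty.1 hne, measure_empty, ENNReal.toReal_zero, mul_zero]
    positivity
  obtain ⟨t, ⟨ht1, ht2⟩, htV⟩ := hne
  rcases lt_or_ge T T1 with hTT | hTT
  · -- small `T`
    have h2 := zg_vol (T := T) (by linarith) (fun t => V ≤ ‖∑ n ∈ Finset.Ioc N (2 * N), ((φ n * (n : ℝ) ^ (-(1 - δ)) : ℝ) : ℂ) *
          (n : ℂ) ^ (-((t : ℂ) * Complex.I))‖)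
    have h3 : V ≤ T1 := htV.trans ((zg_triv (by linarith) h0 h1 N t).trans (by linarith))
    have h4 : V ^ k ≤ T1 ^ k := pow_le_pow_left₀ (by linarith) h3 k
    calc V ^ k * (volume {t : ℝ | t ∈ Set.Icc T (2 * T) ∧
        V ≤ ‖∑ n ∈ Finset.Ioc N (2 * N), ((φ n * (n : ℝ) ^ (-(1 - δ)) : ℝ) : ℂ) *
          (n : ℂ) ^ (-((t : ℂ) * Complex.I))‖}).toReal ≤ T1 ^ k * T1 :=
          mul_le_mul h4 (h2.trans hTT.le) ENNReal.toReal_nonneg (by positivity)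
      _ = T1 ^ (k + 1) := (pow_succ _ _).symm
      _ ≤ (T1 ^ (k + 1) + 2 * C1) * 1 := by linarith
      _ ≤ (T1 ^ (k + 1) + 2 * C1) * T ^ (R + ε) := mul_le_mul_of_nonneg_left hTε (by positivity)
  -- large `T`
  have hT2 : 2 ≤ T := hT12.trans hTT
  have hT1' : 1 < T := by linarith
  have hT0 : 0 < T := by linarith
  have hlT : 0 < Real.log T := Real.log_pos hT1'
  have hN1 : (1 : ℝ) ≤ N := by exact_mod_cast hN
  obtain ⟨a, ha⟩ : ∃ a : ℝ, a = Real.log N / Real.log T := ⟨_, rfl⟩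
  obtain ⟨v, hv⟩ : ∃ v : ℝ, v = Real.log V / Real.log T := ⟨_, rfl⟩
  have ha0 : 0 ≤ a := by
    rw [ha]
    exact div_nonneg (Real.log_nonneg hN1) hlT.le
  have ha1 : a ≤ 1 := by
    rw [ha]
    exact div_le_one_of_le₀ (Real.log_le_log (by linarith) hNT) hlT.le
  have hNa : T ^ a = N := by
    rw [ha]
    exact zg_log hT1' (by linarith)
  have hVv : T ^ v = V := by
    rw [hv]
    exact zg_log hT1' (by linarith)
  have hs : θ a - e ≤ a * δ - v := by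
    have h2 := hC2 T hT2 N hN hNT φ h0 h1 hanti t ht1 ht2
    rw [← ha, show (1 : ℝ) - (1 - δ) = δ by ring] at h2
    have h3 : T ^ v ≤ T ^ (a * δ + e - θ a) := by
      calc T ^ v = V := hVv
        _ ≤ _ := htV
        _ ≤ _ := h2
        _ ≤ T ^ (e / 2) * ((N : ℝ) ^ δ * T ^ (e / 2 - θ a)) := mul_le_mul_of_nonneg_right (hT1 T hTT) (by positivity)
        _ = T ^ (a * δ + e - θ a) := by
            rw [← hNa, ← Real.rpow_mul hT0.le, ← Real.rpow_add hT0, ← Real.rpow_add hT0]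
            congr 1
            ring
    have h4 := (Real.rpow_le_rpow_left_iff hT1').1 h3
    linarith
  obtain ⟨j, hj, hj1, hj2⟩ := hA a (a * δ - v) e ha0 ha1 he0.le he1 hs
  obtain ⟨x1, x2, x3⟩ := zg_exp (σ := 1 - δ) hT1' rfl hNa hVv k j
  have hV0 : 0 < V := by linarith
  have hVk : 0 ≤ V ^ k := by positivity
  have hNT' : ((N : ℝ) * T) ^ (ε' / 16) ≤ T ^ (ε' / 8) := by
    calc ((N : ℝ) * T) ^ (ε' / 16) ≤ (T * T) ^ (ε' / 16) :=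
          Real.rpow_le_rpow (by positivity) (mul_le_mul_of_nonneg_right hNT hT0.le) (by positivity)
      _ = T ^ (ε' / 8) := by
          rw [Real.mul_rpow hT0.le hT0.le, ← Real.rpow_add hT0]
          congr 1
          ring
  have hexp : ∀ x : ℝ, x ≤ R + c0 * e → T ^ x ≤ T ^ (R + ε' / 4) := fun x hx =>
    Real.rpow_le_rpow_of_exponent_le hT (by linarith)
  have hfin : ∀ C S : ℝ, 0 ≤ C → C ≤ C1 → 0 ≤ S → S ≤ 2 * T ^ (R + ε' / 4) →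
      C * ((N : ℝ) * T) ^ (ε' / 16) * S ≤ (T1 ^ (k + 1) + 2 * C1) * T ^ (R + ε) := by
    intro C S hC hCC hS hSS
    calc C * ((N : ℝ) * T) ^ (ε' / 16) * S ≤ C1 * T ^ (ε' / 8) * (2 * T ^ (R + ε' / 4)) :=
          mul_le_mul (mul_le_mul hCC hNT' (by positivity) hC10) hSS hS (by positivity)
      _ = 2 * C1 * T ^ (ε' / 8 + (R + ε' / 4)) := by
          rw [Real.rpow_add hT0 (ε' / 8)]
          ring
      _ ≤ 2 * C1 * T ^ (R + ε) := by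
          refine mul_le_mul_of_nonneg_left ?_ (by positivity)
          exact Real.rpow_le_rpow_of_exponent_le hT (by linarith)
      _ ≤ _ := by
          refine mul_le_mul_of_nonneg_right ?_ (by positivity)
          have : 0 ≤ T1 ^ (k + 1) := by positivity
          linarith
  have hj1' : V ^ k * ((N : ℝ) ^ (2 * j * (1 - (1 - δ))) / V ^ (2 * j)) ≤ T ^ (R + ε' / 4) := by
    rw [x1]
    exact hexp _ (by linarith)
  rcases hj2 with hj2 | hj2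
  · have h2 := hCh j N hN (fun n => ((φ n * (n : ℝ) ^ (-(1 - δ)) : ℝ) : ℂ)) (fun n _ => zg_c h0 h1 n) T hT V hV0
    refine (mul_le_mul_of_nonneg_left h2 hVk).trans ?_
    have hj2' : V ^ k * (T * (N : ℝ) ^ (j * (4 - 6 * (1 - δ))) / V ^ (6 * j)) ≤ T ^ (R + ε' / 4) := by
      rw [x2]
      exact hexp _ (by linarith)
    have h3 : V ^ k * (Ch j * ((N : ℝ) * T) ^ (ε' / 16) * ((N : ℝ) ^ (2 * j * (1 - (1 - δ))) / V ^ (2 * j) +
            T * (N : ℝ) ^ (j * (4 - 6 * (1 - δ))) / V ^ (6 * j))) = Ch j * ((N : ℝ) * T) ^ (ε' / 16) *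
            (V ^ k * ((N : ℝ) ^ (2 * j * (1 - (1 - δ))) / V ^ (2 * j)) + V ^ k * (T * (N : ℝ) ^ (j * (4 - 6 * (1 - δ))) / V ^ (6 * j))) := by
      ring
    rw [h3]
    refine hfin _ _ (hCh0 j) ?_ (by positivity) (by linarith)
    have := hC1s j hj
    have := hCm0 j
    linarith
  · have h2 := hCm j N hN (fun n => ((φ n * (n : ℝ) ^ (-(1 - δ)) : ℝ) : ℂ)) (fun n _ => zg_c h0 h1 n) T hT V hV0
    refine (mul_le_mul_of_nonneg_left h2 hVk).trans ?_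
    have hj2' : V ^ k * (T * (N : ℝ) ^ (j * (1 - 2 * (1 - δ))) / V ^ (2 * j)) ≤ T ^ (R + ε' / 4) := by
      rw [x3]
      exact hexp _ (by linarith)
    have h3 : V ^ k * (Cm j * ((N : ℝ) * T) ^ (ε' / 16) * ((T * (N : ℝ) ^ (j * (1 - 2 * (1 - δ))) +
            (N : ℝ) ^ (2 * j * (1 - (1 - δ)))) / V ^ (2 * j))) = Cm j * ((N : ℝ) * T) ^ (ε' / 16) *
            (V ^ k * (T * (N : ℝ) ^ (j * (1 - 2 * (1 - δ))) / V ^ (2 * j)) + V ^ k * ((N : ℝ) ^ (2 * j * (1 - (1 - δ))) / V ^ (2 * j))) := by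
      ring
    rw [h3]
    refine hfin _ _ (hCm0 j) ?_ (by positivity) (by linarith)
    have := hC1s j hj
    have := hCh0 j
    linarith

end Pool.Agent.Lib.PR
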