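import Pool.Agent.Lib.PR.FM
import Pool.Agent.Lib.PR.RZg
import Pool.Agent.Lib.PR.RZ2
import Pool.Agent.Lib.MP_bc6037_nt.RecUp
import Pool.Agent.Lib.MP_bc6037_nt.Limit

/-!
# PR / BL: bounds for `beta k` from the moments `Mom (2k) σ R`, `R < 2`, and from the arithmetic of the exponents
-/

set_option autoImplicit false

open MeasureTheory Complex

namespace Pool.Agent.Lib.PR

open Pool.Agent.Lib.MP_bc6037_nt Rec

private theorem bl_mono {j : ℕ} {σ M M' : ℝ} (h : FO.Mom j σ M) (hM : M ≤ M') : FO.Mom j σ M' := by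
  intro ε hε
  have h1 := h (M' - M + ε) (by linarith)
  have e : M + (M' - M + ε) = M' + ε := by ring
  rwa [e] at h1

theorem beta_le_of_mom {k : ℕ} (hk : 1 ≤ k) {c : ℝ} (hc : 0 ≤ c)
    (h : ∀ σ : ℝ, c < σ → σ < 1 → ∃ R : ℝ, R < 2 ∧ FO.Mom (2 * k) σ R) : beta k ≤ c := by
  refine beta_le_of_fin hc fun σ hσ => ?_
  rcases lt_or_ge σ 1 with h1 | h1
  · obtain ⟨r, hr0, hr1, hr2⟩ : ∃ r : ℝ, 0 < r ∧ c < σ - r ∧ σ + r < 1 := by
      refine ⟨min ((σ - c) / 2) ((1 - σ) / 2), lt_min (by linarith) (by linarith), ?_, ?_⟩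
      · have := min_le_left ((σ - c) / 2) ((1 - σ) / 2)
        linarith
      · have := min_le_right ((σ - c) / 2) ((1 - σ) / 2)
        linarith
    obtain ⟨R1, hR1, hm1⟩ := h (σ - r) hr1 (by linarith)
    obtain ⟨R2, hR2, hm2⟩ := h (σ + r) (by linarith) hr2
    exact fin_of_mom hk hr0 (by linarith) hr2 (max_lt hR1 hR2) (bl_mono hm1 (le_max_left _ _)) (bl_mono hm2 (le_max_right _ _))
  · exact fin_of_beta hk (((Limit.beta_le_alpha k).trans_lt (Limit.alpha_lt_one k)).trans_le h1)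

/-- the bound for `beta k` from a pointwise saving and the arithmetic of the exponents with `2` in place of `1` -/
theorem beta_le_of_exp (k J : ℕ) (hk : 1 ≤ k) (δ c0 : ℝ) (hδ : 0 < δ) (hδ1 : δ ≤ 1 / 2) (hc0 : 2 * (k : ℝ) ≤ c0)
    (θ : ℝ → ℝ) (hθ : ∀ a, 0 ≤ θ a) (hP : ∀ σ : ℝ, 0 ≤ σ → PW σ θ)
    (hA : ∀ a s e : ℝ, 0 ≤ a → a ≤ 1 → 0 ≤ e → e ≤ 1 → θ a - e ≤ s → ∃ j : ℕ, j ≤ J ∧
      2 * j * s ≤ 2 + 2 * k * (s - a * δ) + c0 * e ∧
      (1 - 2 * j * a + 6 * j * s ≤ 2 + 2 * k * (s - a * δ) + c0 * e ∨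
        1 - j * a + 2 * j * s ≤ 2 + 2 * k * (s - a * δ) + c0 * e)) :
    beta k ≤ 1 - δ := by
  have hk0 : (0 : ℝ) < k := by exact_mod_cast hk
  refine beta_le_of_mom hk (by linarith) fun σ hσ hσ1 => ?_
  obtain ⟨δ', hδ'⟩ : ∃ δ' : ℝ, δ' = 1 - σ := ⟨_, rfl⟩
  have h0 : 0 < δ' := by linarith
  have h1 : δ' < δ := by linarith
  have e0 : σ = 1 - δ' := by linarith
  obtain ⟨η, hη⟩ : ∃ η : ℝ, η = (δ - δ') / (2 * δ) := ⟨_, rfl⟩
  have hη0 : 0 < η := by
    rw [hη]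
    exact div_pos (by linarith) (by linarith)
  have hη1 : η ≤ 1 / 2 := by
    rw [hη, div_le_iff₀ (by linarith)]
    linarith
  refine ⟨2 - η, by linarith, ?_⟩
  rw [e0]
  refine mom_of_blockR (by linarith) (by linarith) (by linarith) ?_
  refine blockMomR_gen (2 * k) J (2 - η) δ' c0 (by linarith) h0 (by linarith) (by linarith) θ (hP _ (by linarith)) ?_
  intro a s e ha0 ha1 he0 he1 hs
  have hk2 : ((2 * k : ℕ) : ℝ) = 2 * k := by push_cast; ring
  rw [hk2]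
  rcases le_total (1 / (4 * k * δ)) a with ha | ha
  · obtain ⟨j, hj, h2, h3⟩ := hA a s e ha0 ha1 he0 he1 hs
    have h4 : η ≤ 2 * k * (a * (δ - δ')) := by
      rw [div_le_iff₀ (by positivity)] at ha
      rw [hη, div_le_iff₀ (by positivity)]
      have h5 : 0 ≤ δ - δ' := by linarith
      nlinarith [mul_le_mul_of_nonneg_right ha h5]
    have h5 : 2 * k * (s - a * δ') = 2 * k * (s - a * δ) + 2 * k * (a * (δ - δ')) := by ring
    refine ⟨j, hj, by linarith, ?_⟩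
    rcases h3 with h3 | h3
    · left
      linarith
    · right
      linarith
  · refine ⟨0, Nat.zero_le _, ?_, Or.inl ?_⟩
    all_goals
      have h2 : -e ≤ s := by
        have := hθ a
        linarith
      have h3 : 2 * k * (-e) ≤ 2 * k * s := mul_le_mul_of_nonneg_left h2 (by positivity)
      have h4 : 2 * k * (a * δ') ≤ 1 / 2 := by
        rw [le_div_iff₀ (by positivity)] at ha
        have h5 : a * δ' ≤ a * δ := mul_le_mul_of_nonneg_left h1.le ha0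
        nlinarith
      have h5 : 2 * k * e ≤ c0 * e := mul_le_mul_of_nonneg_right hc0 he0
      push_cast
      nlinarith

end Pool.Agent.Lib.PR
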