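import Pool.Agent.Lib.PR.PW
import Pool.Agent.Lib.PR.A2

/-!
# PR / PWv (100 lines): the savings of van der Corput

PROOF.  Let `N = T^a`, `a = log N/log T`.  If `a (q + nu q) ≤ 1` then `N^(q + nu q) = T^(a(q + nu q)) ≤ T ≤ t` and `blockD q` gives
`|D| ≤ C N^(1-σ) (t/N^(q+2))^(kp q) ≤ 2 C N^(1-σ) (T/N^(q+2))^(kp q) = 2 C N^(1-σ) T^(kp q (1 - (q+2) a))` (`t ≤ 2T`, `kp q ≤ 1`), and `1 ≤ T^ε`.
Else the trivial bound `PW_zero`.
-/

set_option autoImplicit false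

namespace Pool.Agent.Lib.PR

theorem PW_vdc (q : ℕ) {σ : ℝ} (h0 : 0 ≤ σ) :
    PW σ (fun a => if a * ((q : ℝ) + nu q) ≤ 1 then kp q * (((q : ℝ) + 2) * a - 1) else 0) := by
  intro ε hε
  obtain ⟨C, hC, hb⟩ := blockD q h0
  obtain ⟨D, hD, hz⟩ := PW_zero h0 ε hε
  refine ⟨2 * C + D, by positivity, fun T hT N hN hNT φ p0 p1 pa t ht1 ht2 => ?_⟩
  have hT0 : (0 : ℝ) < T := by linarith
  have hT1 : (1 : ℝ) ≤ T := by linarith
  have hN1 : (1 : ℝ) ≤ N := by exact_mod_cast hN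
  have hN0 : (0 : ℝ) < N := by linarith
  have hk0 := kp_pos q
  have hk1 := kp_le q
  set a : ℝ := Real.log N / Real.log T with ha
  have hNa : (N : ℝ) = T ^ a := by
    have := Real.rpow_logb hT0 (by linarith : T ≠ 1) hN0
    rw [ha]
    exact this.symm
  by_cases hif : a * ((q : ℝ) + nu q) ≤ 1
  · have hθ : (if a * ((q : ℝ) + nu q) ≤ 1 then kp q * (((q : ℝ) + 2) * a - 1) else 0)
        = kp q * (((q : ℝ) + 2) * a - 1) := if_pos hif
    simp only [hθ]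
    have htN : (N : ℝ) ^ ((q : ℝ) + nu q) ≤ t := by
      rw [hNa, ← Real.rpow_mul hT0.le]
      calc T ^ (a * ((q : ℝ) + nu q)) ≤ T ^ (1 : ℝ) :=
            Real.rpow_le_rpow_of_exponent_le hT1 hif
        _ = T := Real.rpow_one T
        _ ≤ t := ht1
    have h1 := hb N hN φ p0 p1 pa t (by linarith) htN
    refine h1.trans ?_
    have hNq : (0 : ℝ) < (N : ℝ) ^ (q + 2) := by positivity
    have e1 : (t / (N : ℝ) ^ (q + 2)) ^ kp q ≤ 2 * T ^ (kp q * (1 - ((q : ℝ) + 2) * a)) := by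
      have e2 : t / (N : ℝ) ^ (q + 2) ≤ 2 * (T / (N : ℝ) ^ (q + 2)) := by
        rw [← mul_div_assoc]
        exact div_le_div_of_nonneg_right ht2 hNq.le
      have e3 : T / (N : ℝ) ^ (q + 2) = T ^ (1 - ((q : ℝ) + 2) * a) := by
        have e4 : (N : ℝ) ^ (q + 2) = T ^ (((q : ℝ) + 2) * a) := by
          rw [hNa, ← Real.rpow_natCast, ← Real.rpow_mul hT0.le]
          congr 1
          push_cast
          ring
        rw [e4, Real.rpow_sub hT0, Real.rpow_one]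
      calc (t / (N : ℝ) ^ (q + 2)) ^ kp q ≤ (2 * (T / (N : ℝ) ^ (q + 2))) ^ kp q :=
            Real.rpow_le_rpow (div_nonneg (by linarith) hNq.le) e2 hk0.le
        _ = 2 ^ kp q * (T / (N : ℝ) ^ (q + 2)) ^ kp q :=
            Real.mul_rpow (by norm_num) (div_nonneg hT0.le hNq.le)
        _ ≤ 2 * (T / (N : ℝ) ^ (q + 2)) ^ kp q := by
            apply mul_le_mul_of_nonneg_right _ (by positivity)
            calc (2 : ℝ) ^ kp q ≤ 2 ^ (1 : ℝ) :=
                  Real.rpow_le_rpow_of_exponent_le (by norm_num) (by linarith)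
              _ = 2 := Real.rpow_one 2
        _ = 2 * T ^ (kp q * (1 - ((q : ℝ) + 2) * a)) := by
            rw [e3, ← Real.rpow_mul hT0.le, mul_comm (kp q)]
    have e5 : T ^ (kp q * (1 - ((q : ℝ) + 2) * a)) ≤
        T ^ (ε - kp q * (((q : ℝ) + 2) * a - 1)) :=
      Real.rpow_le_rpow_of_exponent_le hT1 (by linarith)
    have hX : 0 ≤ (N : ℝ) ^ (1 - σ) := by positivity
    have hY : 0 ≤ T ^ (ε - kp q * (((q : ℝ) + 2) * a - 1)) := by positivity
    calc C * ((N : ℝ) ^ (1 - σ) * (t / (N : ℝ) ^ (q + 2)) ^ kp q)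
        ≤ C * ((N : ℝ) ^ (1 - σ) * (2 * T ^ (ε - kp q * (((q : ℝ) + 2) * a - 1)))) := by
          refine mul_le_mul_of_nonneg_left (mul_le_mul_of_nonneg_left ?_ hX) hC
          linarith
      _ = (2 * C) * ((N : ℝ) ^ (1 - σ) * T ^ (ε - kp q * (((q : ℝ) + 2) * a - 1))) := by ring
      _ ≤ (2 * C + D) * ((N : ℝ) ^ (1 - σ) * T ^ (ε - kp q * (((q : ℝ) + 2) * a - 1))) :=
          mul_le_mul_of_nonneg_right (by linarith) (mul_nonneg hX hY)
  · have hθ : (if a * ((q : ℝ) + nu q) ≤ 1 then kp q * (((q : ℝ) + 2) * a - 1) else 0)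
        = 0 := if_neg hif
    simp only [hθ]
    have h1 := hz T hT N hN hNT φ p0 p1 pa t ht1 ht2
    refine h1.trans (mul_le_mul_of_nonneg_right (by linarith) (by positivity))

end Pool.Agent.Lib.PR
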