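import Pool.Agent.Lib.PR.O1
import Pool.Agent.Lib.PR.Zg
import Pool.Agent.Lib.PR.PWv

/-!
# PR / Z3: the bound for the blocks, `18 ≤ k ≤ 262`

The pointwise savings of van der Corput of order `q < 8` (`PW_vdc`), the arithmetic `optE` and `blockMom_gen`.
-/

set_option autoImplicit false

namespace Pool.Agent.Lib.PR

/-- the maximum of the savings of van der Corput, `q < Q` -/
noncomputable def thv : ℕ → ℝ → ℝ
  | 0 => fun _ => 0
  | q + 1 => fun a => max (thv q a) (if a * ((q : ℝ) + nu q) ≤ 1 then kp q * (((q : ℝ) + 2) * a - 1) else 0)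

theorem PW_thv {σ : ℝ} (h0 : 0 ≤ σ) (Q : ℕ) : PW σ (thv Q) := by
  induction Q with
  | zero => exact PW_zero h0
  | succ q ih => exact PW_max ih (PW_vdc q h0)

theorem thv_nonneg (Q : ℕ) (a : ℝ) : 0 ≤ thv Q a := by
  induction Q with
  | zero => exact le_rfl
  | succ q ih => exact le_max_of_le_left ih

theorem le_thv {q Q : ℕ} (h : q < Q) {a : ℝ} (ha : a * ((q : ℝ) + nu q) ≤ 1) :
    kp q * (((q : ℝ) + 2) * a - 1) ≤ thv Q a := by
  induction Q with
  | zero => omega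
  | succ Q ih =>
    rcases Nat.lt_succ_iff_lt_or_eq.mp h with h1 | h1
    · exact le_max_of_le_left (ih h1)
    · subst h1
      refine le_max_of_le_right ?_
      rw [if_pos ha]

theorem mm_le (k : ℝ) (hk : 18 ≤ k) : 0 < mm k ∧ mm k ≤ k / 2 := by
  unfold mm
  refine ⟨?_, (min_le_left _ _).trans (by linarith)⟩
  simp only [lt_min_iff]
  refine ⟨?_, ?_, ?_, ?_, ?_, ?_⟩ <;> linarith

theorem blockMom (k : ℕ) (hk1 : 18 ≤ k) (hk2 : k ≤ 262) : BlockMom k (1 - mm k / k) := by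
  have hk : (18 : ℝ) ≤ k := by exact_mod_cast hk1
  have hk' : (k : ℝ) ≤ 262 := by exact_mod_cast hk2
  have hk0 : (0 : ℝ) < k := by linarith
  obtain ⟨h1, h2⟩ := mm_le k hk
  have h3 : 0 < mm k / k := div_pos h1 hk0
  have h4 : mm k / k ≤ 1 / 2 := by
    rw [div_le_iff₀ hk0]
    linarith
  have h5 : (k : ℝ) ≤ 129 ∨ (130 : ℝ) ≤ k := by
    rcases Nat.lt_or_ge k 130 with h | h
    · left
      have : k ≤ 129 := by omega
      exact_mod_cast this
    · right
      exact_mod_cast h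
  refine blockMom_gen k 8 (mm k / k) (k + 50) h3 h4 (by linarith) (thv 8) (PW_thv (by linarith) 8) ?_
  intro a s e ha0 ha1 he0 _ hs
  have hs0 : -e ≤ s := by
    have := thv_nonneg 8 a
    linarith
  have hsq : ∀ q : ℕ, q ≤ 7 → a * ((q : ℝ) + nu q) ≤ 1 → kp q * (((q : ℝ) + 2) * a - 1) - e ≤ s := by
    intro q hq hqa
    have := le_thv (show q < 8 by omega) hqa
    linarith
  have h6 : (k : ℝ) * (s - a * (mm k / k)) = k * s - a * mm k := by
    field_simp
  obtain ⟨j, hj, h⟩ := optE k hk hk' h5 a s e ha0 ha1 he0 hs0 hsq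
  refine ⟨j, hj, ?_⟩
  rw [h6]
  rcases h with ⟨h7, h8⟩ | ⟨h7, h8⟩
  · exact ⟨by linarith, Or.inl (by linarith)⟩
  · exact ⟨by linarith, Or.inr (by linarith)⟩

end Pool.Agent.Lib.PR
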