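import Pool.Agent.Lib.PR.OH
import Pool.Agent.Lib.PR.Z2
import Pool.Agent.Lib.PR.Z3
import Pool.Agent.Lib.PR.PWh
import Pool.Agent.Lib.MP_bc6037_nt.FO.Per
import Pool.Agent.Lib.MP_bc6037_nt.Limit

/-!
# PR / ZH: the bounds for all `k ≥ 18` from Heath-Brown's form of the derivative test

`HBB q` is the test of order `q` for the blocks of zeta.  `alphaAll`: `alpha k ≤ 1 - m/k` for every `m` with `RecH k m`.
`rec_closed`: `m = (3/2)((2k)^(1/3) - 1)` is admissible; `rec152`: `m = 1.52 k^(1/3)` is admissible.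
-/

set_option autoImplicit false

namespace Pool.Agent.Lib.PR

open Pool.Agent.Lib.MP_bc6037_nt

/-- Heath-Brown's test of order `q` for `n^(-it)` -/
def HBB (q : ℕ) : Prop :=
  ∀ ε : ℝ, 0 < ε → ∃ C : ℝ, 0 ≤ C ∧ ∀ (N M : ℕ), 1 ≤ N → N ≤ M → M ≤ 2 * N → ∀ t : ℝ, (N : ℝ) ≤ t →
    ‖∑ n ∈ Finset.Ioc N M, (n : ℂ) ^ (-((t : ℂ) * Complex.I))‖ ≤
      C * (N : ℝ) ^ (1 + ε) * ((t / (N : ℝ) ^ q) ^ (1 / ((q : ℝ) * (q - 1))) +
        (N : ℝ) ^ (-(1 / ((q : ℝ) * (q - 1)))) + t ^ (-(2 / ((q : ℝ) ^ 2 * (q - 1)))))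

/-- the maximum of the savings `hb 3, ..., hb (n + 2)` -/
noncomputable def thh : ℕ → ℝ → ℝ
  | 0 => fun _ => 0
  | n + 1 => fun a => max (thh n a) (hb (n + 3) a)

theorem PW_thh {σ : ℝ} (h0 : 0 ≤ σ) (hz : ∀ q : ℕ, 3 ≤ q → HBB q) (n : ℕ) : PW σ (thh n) := by
  induction n with
  | zero => exact PW_zero h0
  | succ n ih => exact PW_max ih (PW_of_hb (n + 3) (by omega) h0 (hz (n + 3) (by omega)))

theorem le_thh {n : ℕ} {q : ℕ} (h1 : 3 ≤ q) (h2 : q < n + 3) (a : ℝ) : hb q a ≤ thh n a := by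
  induction n with
  | zero => omega
  | succ n ih =>
    rcases Nat.lt_or_ge q (n + 3) with h3 | h3
    · exact le_max_of_le_left (ih h3)
    · obtain rfl : q = n + 3 := by omega
      exact le_max_right _ _

theorem blockMomH (k : ℕ) (hk1 : 18 ≤ k) {m : ℝ} (hm : 0 < m) (hR : RecH k m) (hz : ∀ q : ℕ, 3 ≤ q → HBB q) :
    BlockMom k (1 - m / k) := by
  have hk : (18 : ℝ) ≤ k := by exact_mod_cast hk1
  have hk0 : (0 : ℝ) < k := by linarith
  have h3 : 0 < m / k := div_pos hm hk0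
  have h4 : m / k ≤ 1 / 2 := by
    rw [div_le_iff₀ hk0]
    linarith [hR.1]
  refine blockMom_gen k k (m / k) k h3 h4 hk0.le (fun a => max (thv 8 a) (thh k a))
    (PW_max (PW_thv (by linarith) 8) (PW_thh (by linarith) hz k)) ?_
  intro a s e ha0 ha1 he0 _ hs
  have hs1 : thv 8 a - e ≤ s := by
    have := le_max_left (thv 8 a) (thh k a)
    linarith
  have hs2 : thh k a - e ≤ s := by
    have := le_max_right (thv 8 a) (thh k a)
    linarith
  have hs0 : -e ≤ s := by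
    have := thv_nonneg 8 a
    linarith
  have h6 : (k : ℝ) * (s - a * (m / k)) = k * s - a * m := by
    field_simp
  obtain ⟨j, hj, h7, h8⟩ := optH hk hR ha0 ha1 he0 hs0
    (fun q hq hqa => by
      have := le_thv (show q < 8 by omega) hqa
      linarith)
    (fun q hq hqk => by
      have hqk' : q ≤ k := by exact_mod_cast hqk
      have := le_thh (n := k) (q := q) (by omega) (by omega) a
      linarith)
  refine ⟨j, by exact_mod_cast hj, ?_⟩
  rw [h6]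
  exact ⟨by linarith, h8.imp (fun h => by linarith) (fun h => by linarith)⟩

theorem alphaAll (k : ℕ) (hk1 : 18 ≤ k) {m : ℝ} (hR : RecH k m) (hz : ∀ q : ℕ, 3 ≤ q → HBB q) :
    alpha k ≤ 1 - m / k := by
  have hk : (18 : ℝ) ≤ k := by exact_mod_cast hk1
  have hk0 : (0 : ℝ) < k := by linarith
  rcases le_or_gt m 0 with hm | hm
  · have h1 := Limit.alpha_lt_one k
    have h2 : m / k ≤ 0 := div_nonpos_of_nonpos_of_nonneg hm hk0.le
    linarith
  have h3 : 0 < m / k := div_pos hm hk0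
  have h4 : m / k ≤ 1 / 2 := by
    rw [div_le_iff₀ hk0]
    linarith [hR.1]
  have h := FO.alpha_le_of_mom (j := k) (σ := 1 - m / k) (M := 1) (by linarith) (by linarith) le_rfl
    (mom_of_block (by linarith) (by linarith) (blockMomH k hk1 hm hR hz))
  linarith

/-- `x^3 + c ≥ d x` if `2 y^3 ≤ c` and `d ≤ 3 y^2` -/
private theorem cube_ge {x y c d : ℝ} (hx : 0 ≤ x) (hy : 0 ≤ y) (h1 : 2 * y ^ 3 ≤ c) (h2 : d ≤ 3 * y ^ 2) : d * x ≤ x ^ 3 + c := by
  have h3 : 0 ≤ (x - y) ^ 2 * (x + 2 * y) := by positivity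
  nlinarith [mul_le_mul_of_nonneg_right h2 hx]

/-- `m = (3/2)((2k)^(1/3) - 1)`, `k ≥ 18` -/
theorem rec_closed (k : ℝ) (hk : 18 ≤ k) : RecH k (3 / 2 * ((2 * k) ^ (1 / 3 : ℝ) - 1)) := by
  obtain ⟨y, hy⟩ : ∃ y : ℝ, y = (2 * k) ^ (1 / 3 : ℝ) := ⟨_, rfl⟩
  have hy0 : 0 ≤ y := by
    rw [hy]
    positivity
  have hy3 : y ^ 3 = 2 * k := by
    rw [hy, ← Real.rpow_natCast, ← Real.rpow_mul (by linarith)]
    norm_num
  rw [← hy]
  refine ⟨?_, ?_, ?_, fun q hq => ?_⟩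
  · have := cube_ge (x := y) (y := 3.5) (c := 96) (d := 36) hy0 (by norm_num) (by norm_num) (by norm_num)
    linarith
  · have := cube_ge (x := y) (y := 4.3) (c := 166) (d := 54) hy0 (by norm_num) (by norm_num) (by norm_num)
    linarith
  · have := cube_ge (x := y) (y := 4.5) (c := 192) (d := 60) hy0 (by norm_num) (by norm_num) (by norm_num)
    linarith
  · have hq5 : (5 : ℝ) ≤ q := by exact_mod_cast hq
    have hp : ((q % 2 : ℕ) : ℝ) ≤ 1 := by exact_mod_cast (by omega : q % 2 ≤ 1)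
    unfold HH
    rw [le_div_iff₀ (by positivity)]
    have h1 : 0 ≤ (y - q) ^ 2 * (y + 2 * q) := by positivity
    have h2 : 0 ≤ q * (y - q - 1 / 2) ^ 2 := by positivity
    nlinarith

/-- `m = 1.52 k^(1/3)`, `k ≥ 18` -/
theorem rec152 (k : ℝ) (hk : 18 ≤ k) : RecH k (1.52 * k ^ (1 / 3 : ℝ)) := by
  obtain ⟨x, hx⟩ : ∃ x : ℝ, x = k ^ (1 / 3 : ℝ) := ⟨_, rfl⟩
  have hx0 : 0 ≤ x := by
    rw [hx]
    positivity
  have hx3 : x ^ 3 = k := by
    rw [hx, ← Real.rpow_natCast, ← Real.rpow_mul (by linarith)]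
    norm_num
  rw [← hx]
  refine ⟨?_, ?_, ?_, fun q hq => ?_⟩
  · have := cube_ge (x := x) (y := 2.466) (c := 30) (d := 18.24) hx0 (by norm_num) (by norm_num) (by norm_num)
    linarith
  · have := cube_ge (x := x) (y := 3.03) (c := 56) (d := 27.36) hx0 (by norm_num) (by norm_num) (by norm_num)
    linarith
  · have := cube_ge (x := x) (y := 3.2) (c := 66) (d := 30.4) hx0 (by norm_num) (by norm_num) (by norm_num)
    linarith
  · have hq5 : (5 : ℝ) ≤ q := by exact_mod_cast hq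
    have hp : ((q % 2 : ℕ) : ℝ) ≤ 1 := by exact_mod_cast (by omega : q % 2 ≤ 1)
    unfold HH
    rw [le_div_iff₀ (by positivity)]
    have h1 : (0 : ℝ) ≤ q - 5 := by linarith
    have := cube_ge (x := x) (y := 0.712 * (q + 1 / 2)) (c := (q : ℝ) ^ 3 - 1) (d := 1.52 * (q * (q + 1))) hx0 (by positivity)
      (by nlinarith [mul_nonneg h1 h1, mul_nonneg (mul_nonneg h1 h1) h1]) (by nlinarith)
    nlinarith

end Pool.Agent.Lib.PR
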