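import Pool.Agent.Lib.PR.BA
import Pool.Agent.Lib.PR.BO
import Pool.Agent.Lib.PR.ZH

/-!
# PR / BR: the bounds for the mean square exponent for all `k ≥ 9` from Heath-Brown's form of the derivative test

`betaAll`: `beta k ≤ 1 - m/k` for every `m` with `RecB k m`.  `recB_closed`: `m = (3/2)((2k)^(1/3) - 1) + (2k)^(-1/3)` is admissible
for `k ≥ 9`; `recB157`: `m = 1.57 k^(1/3)` is admissible for `k ≥ 15`.
-/

set_option autoImplicit false

namespace Pool.Agent.Lib.PR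

open Pool.Agent.Lib.MP_bc6037_nt

theorem betaAll (k : ℕ) (hk1 : 9 ≤ k) {m : ℝ} (hR : RecB k m) (hz : ∀ q : ℕ, 3 ≤ q → HBB q) :
    beta k ≤ 1 - m / k := by
  have hk : (9 : ℝ) ≤ k := by exact_mod_cast hk1
  have hk0 : (0 : ℝ) < k := by linarith
  have hb1 : beta k < 1 := (Limit.beta_le_alpha k).trans_lt (Limit.alpha_lt_one k)
  rcases le_or_gt m 0 with hm | hm
  · have h2 : m / k ≤ 0 := div_nonpos_of_nonpos_of_nonneg hm hk0.le
    linarith
  have h3 : 0 < m / k := div_pos hm hk0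
  have h4 : m / k ≤ 1 / 2 := by
    rw [div_le_iff₀ hk0]
    linarith [hR.1]
  refine Rec.beta_le_of_fin (by linarith) fun σ hσ => ?_
  rcases lt_or_ge σ 1 with hσ1 | hσ1
  swap
  · exact Rec.fin_of_beta (by omega) (hb1.trans_le hσ1)
  refine fin_gen k k (by omega) (m / k) (2 * k) h3 h4 le_rfl (fun a => max (thv 8 a) (thh k a))
    (fun a => le_max_of_le_left (thv_nonneg 8 a))
    (fun σ h0 => PW_max (PW_thv h0 8) (PW_thh h0 hz k)) ?_ hσ hσ1
  intro a s e ha0 ha1 he0 _ hs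
  have hs1 : thv 8 a - e ≤ s := by
    have := le_max_left (thv 8 a) (thh k a)
    linarith
  have hs2 : thh k a - e ≤ s := by
    have := le_max_right (thv 8 a) (thh k a)
    linarith
  have hs0 : -e ≤ s := by
    have := thv_nonneg 8 a
    linarith
  have h6 : 2 * (k : ℝ) * (s - a * (m / k)) = 2 * k * s - 2 * a * m := by
    field_simp
  obtain ⟨j, hj, h7, h8⟩ := optB hk hR ha0 ha1 he0 hs0
    (fun q hq hqa => by
      have := le_thv (show q < 8 by omega) hqa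
      linarith)
    (fun q hq hqk => by
      have hqk' : q ≤ k := by exact_mod_cast hqk
      have := le_thh (n := k) (q := q) (by omega) (by omega) a
      linarith)
  refine ⟨j, by exact_mod_cast hj, ?_⟩
  rw [h6]
  exact ⟨by linarith, h8.imp (fun h => by linarith) (fun h => by linarith)⟩

/-- `y (y - z)^2 (y + 2 z) ≥ 0` -/
private theorem quart {y z : ℝ} (hy : 0 ≤ y) (hz : 0 ≤ z) : 0 ≤ y * (y ^ 3 - 3 * z ^ 2 * y + 2 * z ^ 3) := by
  have h3 : 0 ≤ y * ((y - z) ^ 2 * (y + 2 * z)) := by positivity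
  nlinarith

/-- `m = (3/2)((2k)^(1/3) - 1) + (2k)^(-1/3)`, `k ≥ 9` -/
theorem recB_closed (k : ℝ) (hk : 9 ≤ k) :
    RecB k (3 / 2 * ((2 * k) ^ (1 / 3 : ℝ) - 1) + 1 / (2 * k) ^ (1 / 3 : ℝ)) := by
  obtain ⟨y, hy⟩ : ∃ y : ℝ, y = (2 * k) ^ (1 / 3 : ℝ) := ⟨_, rfl⟩
  have hy0 : 0 ≤ y := by
    rw [hy]
    positivity
  have hy3 : y ^ 3 = 2 * k := by
    rw [hy, ← Real.rpow_natCast, ← Real.rpow_mul (by linarith)]
    norm_num
  rw [← hy]
  have hy2 : 2.6 ≤ y := by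
    by_contra h
    rw [not_le] at h
    have h1 := pow_le_pow_left₀ hy0 h.le 3
    norm_num at h1
    linarith
  have hyp : 0 < y := by linarith
  have red : ∀ A D : ℝ, 0 < D → 0 ≤ (y ^ 3 / 2 + A) * y - D * (3 / 2 * (y - 1) * y + 1) →
      3 / 2 * (y - 1) + 1 / y ≤ (k + A) / D := by
    intro A D hD h
    rw [le_div_iff₀ hD]
    have e1 : (3 / 2 * (y - 1) + 1 / y) * D = (D * (3 / 2 * (y - 1) * y + 1)) / y := by
      field_simp
    rw [e1, div_le_iff₀ hyp]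
    rw [hy3] at h
    linarith
  refine ⟨?_, ?_, ?_, ?_, ?_, fun q hq => ?_⟩
  · refine red _ _ (by norm_num) ?_
    have := quart (y := y) (z := 2) hy0 (by norm_num)
    nlinarith
  · refine red _ _ (by norm_num) ?_
    have := quart (y := y) (z := 2.83) hy0 (by norm_num)
    nlinarith
  · refine red _ _ (by norm_num) ?_
    have := quart (y := y) (z := 3.4642) hy0 (by norm_num)
    nlinarith
  · refine red _ _ (by norm_num) ?_
    have := quart (y := y) (z := 4.2427) hy0 (by norm_num)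
    nlinarith
  · refine red _ _ (by norm_num) ?_
    have := quart (y := y) (z := 4.4722) hy0 (by norm_num)
    nlinarith
  · have hq5 : (5 : ℝ) ≤ q := by exact_mod_cast hq
    have hp : (((q + 1) / 2 : ℕ) : ℝ) ≤ ((q : ℝ) + 1) / 2 := by
      rw [le_div_iff₀ (by norm_num)]
      exact_mod_cast (by omega : (q + 1) / 2 * 2 ≤ q + 1)
    unfold HQ
    have e0 : (k + (q : ℝ) ^ 3 + q - (((q + 1) / 2 : ℕ) : ℝ)) = k + ((q : ℝ) ^ 3 + q - (((q + 1) / 2 : ℕ) : ℝ)) := by ring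
    rw [e0]
    refine red _ _ (by positivity) ?_
    obtain ⟨z, hz⟩ : ∃ z : ℝ, z = q + 1 / 2 := ⟨_, rfl⟩
    have hz5 : 5.5 ≤ z := by
      rw [hz]
      norm_num
      linarith
    have hqz : (q : ℝ) = z - 1 / 2 := by linarith
    have key : 0 ≤ y * ((y - z) ^ 2 * (y + 2 * z)) / 2 + 3 / 8 * y ^ 2 + 5 / 4 * (z - 1) * y - z ^ 2 + 1 / 4 := by
      rcases le_total (0.8 * z) y with h | h
      · have h1 : 0 ≤ y * ((y - z) ^ 2 * (y + 2 * z)) := by positivity
        nlinarith [mul_le_mul_of_nonneg_left h hy0, mul_le_mul_of_nonneg_left h (show 0 ≤ z - 1 by linarith)]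
      · have h1 : 0.04 * z ^ 2 ≤ (y - z) ^ 2 := by nlinarith
        have h2 : 0.04 * z ^ 2 * (2.6 + 2 * z) ≤ (y - z) ^ 2 * (y + 2 * z) :=
          mul_le_mul h1 (by linarith) (by positivity) (by positivity)
        have h3 : 2.6 * (0.04 * z ^ 2 * (2.6 + 2 * z)) ≤ y * ((y - z) ^ 2 * (y + 2 * z)) :=
          mul_le_mul hy2 h2 (by positivity) hy0
        have h4 : (z - 1) * 2.6 ≤ (z - 1) * y := mul_le_mul_of_nonneg_left hy2 (by linarith)
        nlinarith [mul_nonneg (sq_nonneg (z - 4)) (show (0 : ℝ) ≤ z by linarith)]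
    rw [hqz] at hp ⊢
    nlinarith [mul_le_mul_of_nonneg_right hp hy0]

/-- `x^3 + c ≥ d x` if `2 y^3 ≤ c` and `d ≤ 3 y^2` -/
private theorem cube_ge {x y c d : ℝ} (hx : 0 ≤ x) (hy : 0 ≤ y) (h1 : 2 * y ^ 3 ≤ c) (h2 : d ≤ 3 * y ^ 2) : d * x ≤ x ^ 3 + c := by
  have h3 : 0 ≤ (x - y) ^ 2 * (x + 2 * y) := by positivity
  nlinarith [mul_le_mul_of_nonneg_right h2 hx]

/-- `m = 1.57 k^(1/3)`, `k ≥ 15` -/
theorem recB157 (k : ℝ) (hk : 15 ≤ k) : RecB k (1.57 * k ^ (1 / 3 : ℝ)) := by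
  obtain ⟨x, hx⟩ : ∃ x : ℝ, x = k ^ (1 / 3 : ℝ) := ⟨_, rfl⟩
  have hx0 : 0 ≤ x := by
    rw [hx]
    positivity
  have hx3 : x ^ 3 = k := by
    rw [hx, ← Real.rpow_natCast, ← Real.rpow_mul (by linarith)]
    norm_num
  rw [← hx]
  have hx2 : 2.466 ≤ x := by
    by_contra h
    rw [not_le] at h
    have h1 := pow_le_pow_left₀ hx0 h.le 3
    norm_num at h1
    linarith
  refine ⟨?_, ?_, ?_, ?_, ?_, fun q hq => ?_⟩
  · nlinarith [mul_nonneg (sub_nonneg.2 hx2) hx0, mul_nonneg (mul_nonneg (sub_nonneg.2 hx2) hx0) hx0]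
  · nlinarith [mul_nonneg (sub_nonneg.2 hx2) hx0, mul_nonneg (mul_nonneg (sub_nonneg.2 hx2) hx0) hx0]
  · have := cube_ge (x := x) (y := 2.51) (c := 32) (d := 18.84) hx0 (by norm_num) (by norm_num) (by norm_num)
    linarith
  · have := cube_ge (x := x) (y := 3.07) (c := 58) (d := 28.26) hx0 (by norm_num) (by norm_num) (by norm_num)
    linarith
  · have := cube_ge (x := x) (y := 3.236) (c := 68) (d := 31.4) hx0 (by norm_num) (by norm_num) (by norm_num)
    linarith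
  · have hq5 : (5 : ℝ) ≤ q := by exact_mod_cast hq
    have hp : (((q + 1) / 2 : ℕ) : ℝ) ≤ ((q : ℝ) + 1) / 2 := by
      rw [le_div_iff₀ (by norm_num)]
      exact_mod_cast (by omega : (q + 1) / 2 * 2 ≤ q + 1)
    unfold HQ
    rw [le_div_iff₀ (by positivity)]
    have h1 : (0 : ℝ) ≤ q - 5 := by linarith
    have := cube_ge (x := x) (y := 0.7235 * (q + 1 / 2)) (c := (q : ℝ) ^ 3 + q / 2 - 1 / 2) (d := 1.57 * (q * (q + 1))) hx0
      (by positivity) (by nlinarith [mul_nonneg h1 h1, mul_nonneg (mul_nonneg h1 h1) h1]) (by nlinarith)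
    nlinarith

end Pool.Agent.Lib.PR
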