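import Pool.Agent.Lib.PR.DR

/-!
# PR / DC: closed forms with the dilation test

`recD_closed`: `m = (3/2)(2k)^(1/3) - 7/8 - (2/3)(2k)^(-1/3)` is admissible for `k ≥ 18`.
`recDL_closed`, `recD_top`: `m = (3/2)(2k)^(1/3) - 7/8 - (3/20)(2k)^(-1/3)` is admissible for the mean square.
-/

set_option autoImplicit false

namespace Pool.Agent.Lib.PR

/-- `y (y - z)^2 (y + 2 z) ≥ 0` -/
private theorem quart {y z : ℝ} (hy : 0 ≤ y) (hz : 0 ≤ z) : 0 ≤ y * (y ^ 3 - 3 * z ^ 2 * y + 2 * z ^ 3) := by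
  have h3 : 0 ≤ y * ((y - z) ^ 2 * (y + 2 * z)) := by positivity
  nlinarith

private theorem keyA {y q : ℝ} (hy : 0 ≤ y) (hq : 4 ≤ q) :
    0 ≤ (4 * q - 3) / 2 * (y * ((y - q) ^ 2 * (y + 2 * q))) + 3 / 2 * q ^ 2 * y * (q - y) + (5 / 4 * q ^ 2 - 4 * (4 * q - 3)) * y +
      4 / 3 * q ^ 2 * (2 * q - 1) := by
  obtain ⟨p, hp⟩ : ∃ p : ℝ, p = q - 4 := ⟨_, rfl⟩
  have hp0 : 0 ≤ p := by linarith
  have hqp : q = p + 4 := by linarith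
  rcases le_total y q with h | h
  · have h1 : 0 ≤ (4 * q - 3) / 2 * (y * ((y - q) ^ 2 * (y + 2 * q))) := by
      have : 0 ≤ (4 * q - 3) / 2 := by linarith
      positivity
    have h2 : 0 ≤ 3 / 2 * q ^ 2 * y * (q - y) := mul_nonneg (by positivity) (by linarith)
    have h3 : 0 ≤ (5 / 4 * q ^ 2 - 4 * (4 * q - 3)) * q + 4 / 3 * q ^ 2 * (2 * q - 1) := by
      rw [hqp]
      have e1 : (5 / 4 * (p + 4) ^ 2 - 4 * (4 * (p + 4) - 3)) * (p + 4) + 4 / 3 * (p + 4) ^ 2 * (2 * (p + 4) - 1) =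
          47 / 12 * p ^ 3 + 89 / 3 * p ^ 2 + 184 / 3 * p + 64 / 3 := by ring
      rw [e1]
      positivity
    have h4 : 0 ≤ (5 / 4 * q ^ 2 - 4 * (4 * q - 3)) * y + 4 / 3 * q ^ 2 * (2 * q - 1) := by
      rcases le_total 0 (5 / 4 * q ^ 2 - 4 * (4 * q - 3)) with h5 | h5
      · have h6 : 0 ≤ 4 / 3 * q ^ 2 * (2 * q - 1) := mul_nonneg (by positivity) (by linarith)
        have h7 := mul_nonneg h5 hy
        linarith
      · have h6 := mul_le_mul_of_nonpos_left h h5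
        linarith
    linarith
  · obtain ⟨d, hd⟩ : ∃ d : ℝ, d = y - q := ⟨_, rfl⟩
    have hd0 : 0 ≤ d := by linarith
    have hyd : y = p + 4 + d := by linarith
    rw [hyd, hqp]
    have e1 : (4 * (p + 4) - 3) / 2 * ((p + 4 + d) * ((p + 4 + d - (p + 4)) ^ 2 * (p + 4 + d + 2 * (p + 4)))) +
          3 / 2 * (p + 4) ^ 2 * (p + 4 + d) * (p + 4 - (p + 4 + d)) + (5 / 4 * (p + 4) ^ 2 - 4 * (4 * (p + 4) - 3)) * (p + 4 + d) +
          4 / 3 * (p + 4) ^ 2 * (2 * (p + 4) - 1) =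
        (288 * d ^ 2 - 128 * d + 64 / 3) + p * (240 * d ^ 2 - 78 * d + 184 / 3) + p ^ 2 * (66 * d ^ 2 - 67 / 4 * d + 89 / 3) +
          p ^ 3 * (6 * d ^ 2 - 3 / 2 * d + 47 / 12) + (2 * p + 13 / 2) * d ^ 4 + (8 * p ^ 2 + 58 * p + 104) * d ^ 3 := by
      ring
    rw [e1]
    have q0 : 0 ≤ 288 * d ^ 2 - 128 * d + 64 / 3 := by nlinarith [sq_nonneg (d - 2 / 9)]
    have q1 : 0 ≤ 240 * d ^ 2 - 78 * d + 184 / 3 := by nlinarith [sq_nonneg (d - 1 / 6)]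
    have q2 : 0 ≤ 66 * d ^ 2 - 67 / 4 * d + 89 / 3 := by nlinarith [sq_nonneg (d - 1 / 8)]
    have q3 : 0 ≤ 6 * d ^ 2 - 3 / 2 * d + 47 / 12 := by nlinarith [sq_nonneg (d - 1 / 8)]
    positivity

private theorem keyB {y q : ℝ} (hy : 0 ≤ y) (hq : 4 ≤ q) :
    0 ≤ (4 * q - 3) / 2 * (y * ((y - q) ^ 2 * (y + 2 * q))) + 3 / 2 * q ^ 2 * y * (q - y) + (5 / 4 * q ^ 2 - 2 * (4 * q - 3)) * y +
      3 / 10 * q ^ 2 * (2 * q - 1) := by
  obtain ⟨p, hp⟩ : ∃ p : ℝ, p = q - 4 := ⟨_, rfl⟩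
  have hp0 : 0 ≤ p := by linarith
  have hqp : q = p + 4 := by linarith
  rcases le_total y q with h | h
  · have h1 : 0 ≤ (4 * q - 3) / 2 * (y * ((y - q) ^ 2 * (y + 2 * q))) := by
      have : 0 ≤ (4 * q - 3) / 2 := by linarith
      positivity
    have h2 : 0 ≤ 3 / 2 * q ^ 2 * y * (q - y) := mul_nonneg (by positivity) (by linarith)
    have h3 : 0 ≤ (5 / 4 * q ^ 2 - 2 * (4 * q - 3)) * q + 3 / 10 * q ^ 2 * (2 * q - 1) := by
      rw [hqp]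
      have e1 : (5 / 4 * (p + 4) ^ 2 - 2 * (4 * (p + 4) - 3)) * (p + 4) + 3 / 10 * (p + 4) ^ 2 * (2 * (p + 4) - 1) =
          37 / 20 * p ^ 3 + 139 / 10 * p ^ 2 + 142 / 5 * p + 48 / 5 := by ring
      rw [e1]
      positivity
    have h4 : 0 ≤ (5 / 4 * q ^ 2 - 2 * (4 * q - 3)) * y + 3 / 10 * q ^ 2 * (2 * q - 1) := by
      rcases le_total 0 (5 / 4 * q ^ 2 - 2 * (4 * q - 3)) with h5 | h5
      · have h6 : 0 ≤ 3 / 10 * q ^ 2 * (2 * q - 1) := mul_nonneg (by positivity) (by linarith)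
        have h7 := mul_nonneg h5 hy
        linarith
      · have h6 := mul_le_mul_of_nonpos_left h h5
        linarith
    linarith
  · obtain ⟨d, hd⟩ : ∃ d : ℝ, d = y - q := ⟨_, rfl⟩
    have hd0 : 0 ≤ d := by linarith
    have hyd : y = p + 4 + d := by linarith
    rw [hyd, hqp]
    have e1 : (4 * (p + 4) - 3) / 2 * ((p + 4 + d) * ((p + 4 + d - (p + 4)) ^ 2 * (p + 4 + d + 2 * (p + 4)))) +
          3 / 2 * (p + 4) ^ 2 * (p + 4 + d) * (p + 4 - (p + 4 + d)) + (5 / 4 * (p + 4) ^ 2 - 2 * (4 * (p + 4) - 3)) * (p + 4 + d) +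
          3 / 10 * (p + 4) ^ 2 * (2 * (p + 4) - 1) =
        (288 * d ^ 2 - 102 * d + 48 / 5) + p * (240 * d ^ 2 - 70 * d + 142 / 5) + p ^ 2 * (66 * d ^ 2 - 67 / 4 * d + 139 / 10) +
          p ^ 3 * (6 * d ^ 2 - 3 / 2 * d + 37 / 20) + (2 * p + 13 / 2) * d ^ 4 + (8 * p ^ 2 + 58 * p + 104) * d ^ 3 := by
      ring
    rw [e1]
    have q0 : 0 ≤ 288 * d ^ 2 - 102 * d + 48 / 5 := by nlinarith [sq_nonneg (d - 17 / 96)]
    have q1 : 0 ≤ 240 * d ^ 2 - 70 * d + 142 / 5 := by nlinarith [sq_nonneg (d - 1 / 6)]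
    have q2 : 0 ≤ 66 * d ^ 2 - 67 / 4 * d + 139 / 10 := by nlinarith [sq_nonneg (d - 1 / 8)]
    have q3 : 0 ≤ 6 * d ^ 2 - 3 / 2 * d + 37 / 20 := by nlinarith [sq_nonneg (d - 1 / 8)]
    positivity

/-- the clauses, `y = (2k)^(1/3)` -/
private theorem redC {k y : ℝ} (c : ℝ) (hyp : 0 < y) (hy3 : y ^ 3 = 2 * k) (A D : ℝ) (hD : 0 < D)
    (h : 0 ≤ (y ^ 3 / 2 + A) * y - D * (3 / 2 * y ^ 2 - 7 / 8 * y - c)) :
    3 / 2 * y - 7 / 8 - c / y ≤ (k + A) / D := by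
  rw [le_div_iff₀ hD]
  have e1 : (3 / 2 * y - 7 / 8 - c / y) * D = (D * (3 / 2 * y ^ 2 - 7 / 8 * y - c)) / y := by
    field_simp
  rw [e1, div_le_iff₀ hyp]
  rw [hy3] at h
  linarith

/-- `m = (3/2)(2k)^(1/3) - 7/8 - (2/3)(2k)^(-1/3)`, `k ≥ 18` -/
theorem recD_closed (k : ℝ) (hk : 18 ≤ k) :
    RecD k (3 / 2 * (2 * k) ^ (1 / 3 : ℝ) - 7 / 8 - 2 / 3 / (2 * k) ^ (1 / 3 : ℝ)) := by
  obtain ⟨y, hy⟩ : ∃ y : ℝ, y = (2 * k) ^ (1 / 3 : ℝ) := ⟨_, rfl⟩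
  have hy0 : 0 ≤ y := by
    rw [hy]
    positivity
  have hy3 : y ^ 3 = 2 * k := by
    rw [hy, ← Real.rpow_natCast, ← Real.rpow_mul (by linarith)]
    norm_num
  rw [← hy]
  have hy2 : 3.3 ≤ y := by
    by_contra h
    rw [not_le] at h
    have h1 := pow_le_pow_left₀ hy0 h.le 3
    norm_num at h1
    linarith
  have hyp : 0 < y := by linarith
  refine ⟨?_, fun q hq => ?_⟩
  · refine redC _ hyp hy3 _ _ (by norm_num) ?_
    rcases le_total y 6 with h5 | h5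
    · have := quart (y := y) (z := 3.3167) hy0 (by norm_num)
      nlinarith
    · nlinarith [mul_nonneg (mul_nonneg hy0 hy0) (show 0 ≤ y - 6 by linarith), mul_nonneg hy0 (show 0 ≤ y - 6 by linarith),
        mul_nonneg (mul_nonneg (mul_nonneg hy0 hy0) hy0) (show 0 ≤ y - 6 by linarith)]
  · have hq4 : (4 : ℝ) ≤ q := by exact_mod_cast hq
    have h3 : (0 : ℝ) < 4 * q - 3 := by linarith
    have h4 : (0 : ℝ) < 2 * q - 1 := by linarith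
    have n3 : (4 * (q : ℝ) - 3) ≠ 0 := h3.ne'
    have n4 : (2 * (q : ℝ) - 1) ≠ 0 := h4.ne'
    have n5 : ((q : ℝ) * 4 - 3) ≠ 0 := by linarith
    have n6 : ((q : ℝ) * 2 - 1) ≠ 0 := by linarith
    have n7 : (q : ℝ) ≠ 0 := by linarith
    have e2 : HD (k - 4) q = (k + ((q : ℝ) ^ 2 * (4 * q ^ 2 - 5 * q + 3) / (4 * q - 3) - 4)) / (2 * (q : ℝ) ^ 2 * (2 * q - 1) / (4 * q - 3)) := by
      unfold HD
      field_simp
      ring
    rw [e2]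
    refine redC _ hyp hy3 _ _ (by positivity) ?_
    have h1 := keyA hy0 hq4
    have e1 : (y ^ 3 / 2 + ((q : ℝ) ^ 2 * (4 * q ^ 2 - 5 * q + 3) / (4 * q - 3) - 4)) * y -
        2 * (q : ℝ) ^ 2 * (2 * q - 1) / (4 * q - 3) * (3 / 2 * y ^ 2 - 7 / 8 * y - 2 / 3) =
        ((4 * (q : ℝ) - 3) / 2 * (y * ((y - q) ^ 2 * (y + 2 * q))) + 3 / 2 * (q : ℝ) ^ 2 * y * (q - y) + (5 / 4 * (q : ℝ) ^ 2 - 4 * (4 * q - 3)) * y +
          4 / 3 * (q : ℝ) ^ 2 * (2 * q - 1)) / (4 * q - 3) := by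
      field_simp
      ring
    rw [e1]
    exact div_nonneg h1 h3.le

/-- `m = (3/2)(2k)^(1/3) - 7/8 - (3/20)(2k)^(-1/3)`, `k ≥ 7`, the clauses for `a ≤ 3/8` -/
theorem recDL_closed (k : ℝ) (hk : 7 ≤ k) :
    RecDL k (3 / 2 * (2 * k) ^ (1 / 3 : ℝ) - 7 / 8 - 3 / 20 / (2 * k) ^ (1 / 3 : ℝ)) := by
  obtain ⟨y, hy⟩ : ∃ y : ℝ, y = (2 * k) ^ (1 / 3 : ℝ) := ⟨_, rfl⟩
  have hy0 : 0 ≤ y := by
    rw [hy]
    positivity
  have hy3 : y ^ 3 = 2 * k := by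
    rw [hy, ← Real.rpow_natCast, ← Real.rpow_mul (by linarith)]
    norm_num
  rw [← hy]
  have hyp : 0 < y := by
    rcases hy0.eq_or_lt with h | h
    · rw [← h] at hy3
      norm_num at hy3
      linarith
    · exact h
  refine ⟨?_, fun q hq => ?_⟩
  · refine redC _ hyp hy3 _ _ (by norm_num) ?_
    have := quart (y := y) (z := 3.3167) hy0 (by norm_num)
    nlinarith
  · have hq4 : (4 : ℝ) ≤ q := by exact_mod_cast hq
    have h3 : (0 : ℝ) < 4 * q - 3 := by linarith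
    have h4 : (0 : ℝ) < 2 * q - 1 := by linarith
    have n3 : (4 * (q : ℝ) - 3) ≠ 0 := h3.ne'
    have n4 : (2 * (q : ℝ) - 1) ≠ 0 := h4.ne'
    have n5 : ((q : ℝ) * 4 - 3) ≠ 0 := by linarith
    have n6 : ((q : ℝ) * 2 - 1) ≠ 0 := by linarith
    have n7 : (q : ℝ) ≠ 0 := by linarith
    have e2 : HD (k - 2) q = (k + ((q : ℝ) ^ 2 * (4 * q ^ 2 - 5 * q + 3) / (4 * q - 3) - 2)) / (2 * (q : ℝ) ^ 2 * (2 * q - 1) / (4 * q - 3)) := by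
      unfold HD
      field_simp
      ring
    rw [e2]
    refine redC _ hyp hy3 _ _ (by positivity) ?_
    have h1 := keyB hy0 hq4
    have e1 : (y ^ 3 / 2 + ((q : ℝ) ^ 2 * (4 * q ^ 2 - 5 * q + 3) / (4 * q - 3) - 2)) * y -
        2 * (q : ℝ) ^ 2 * (2 * q - 1) / (4 * q - 3) * (3 / 2 * y ^ 2 - 7 / 8 * y - 3 / 20) =
        ((4 * (q : ℝ) - 3) / 2 * (y * ((y - q) ^ 2 * (y + 2 * q))) + 3 / 2 * (q : ℝ) ^ 2 * y * (q - y) + (5 / 4 * (q : ℝ) ^ 2 - 2 * (4 * q - 3)) * y +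
          3 / 10 * (q : ℝ) ^ 2 * (2 * q - 1)) / (4 * q - 3) := by
      field_simp
      ring
    rw [e1]
    exact div_nonneg h1 h3.le

/-- the other clauses of the mean square: `(k+18)/8`, `2(k+26)/21` for `k ≥ 7` -/
theorem recD_top (k : ℝ) (hk : 7 ≤ k) :
    3 / 2 * (2 * k) ^ (1 / 3 : ℝ) - 7 / 8 - 3 / 20 / (2 * k) ^ (1 / 3 : ℝ) ≤ (k + 18) / 8 ∧
    3 / 2 * (2 * k) ^ (1 / 3 : ℝ) - 7 / 8 - 3 / 20 / (2 * k) ^ (1 / 3 : ℝ) ≤ 2 * (k + 26) / 21 ∧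
    3 / 2 * (2 * k) ^ (1 / 3 : ℝ) - 7 / 8 - 3 / 20 / (2 * k) ^ (1 / 3 : ℝ) ≤ (k + 16) / 8 ∧
    3 / 2 * (2 * k) ^ (1 / 3 : ℝ) - 7 / 8 - 3 / 20 / (2 * k) ^ (1 / 3 : ℝ) ≤ (k + 4) / 4 := by
  obtain ⟨y, hy⟩ : ∃ y : ℝ, y = (2 * k) ^ (1 / 3 : ℝ) := ⟨_, rfl⟩
  have hy0 : 0 ≤ y := by
    rw [hy]
    positivity
  have hy3 : y ^ 3 = 2 * k := by
    rw [hy, ← Real.rpow_natCast, ← Real.rpow_mul (by linarith)]
    norm_num
  rw [← hy]
  have hy2 : 2.4 ≤ y := by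
    by_contra h
    rw [not_le] at h
    have h1 := pow_le_pow_left₀ hy0 h.le 3
    norm_num at h1
    linarith
  have hyp : 0 < y := by linarith
  refine ⟨?_, ?_, ?_, ?_⟩
  · refine redC _ hyp hy3 _ _ (by norm_num) ?_
    have := quart (y := y) (z := 2.8285) hy0 (by norm_num)
    nlinarith
  · have h1 := redC (3 / 20) hyp hy3 26 (21 / 2) (by norm_num) (by
      have := quart (y := y) (z := 3.2404) hy0 (by norm_num)
      nlinarith)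
    have e1 : (k + 26) / (21 / 2) = 2 * (k + 26) / 21 := by ring
    rwa [e1] at h1
  · refine redC _ hyp hy3 _ _ (by norm_num) ?_
    have := quart (y := y) (z := 2.8285) hy0 (by norm_num)
    nlinarith
  · refine redC _ hyp hy3 _ _ (by norm_num) ?_
    have := quart (y := y) (z := 2.2) hy0 (by norm_num)
    nlinarith

end Pool.Agent.Lib.PR
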