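import Pool.Agent.Lib.PR.LVB

/-!
# PR / DO: the arithmetic of the exponents with the dilation test

On `[1/q, 3/(2(q+1))]` the dilation test of order `q` saves `(2a - 1/q)/(q(q+1))`.  Its corner with the new derivative test of order `q` is at
`2(2q-1)/(4q^2-5q+3)`, with the value `HD K q`, `K = k - 4` resp. `K = k - 2`.
-/

set_option autoImplicit false

namespace Pool.Agent.Lib.PR

/-- the corner value of order `q` -/
noncomputable def HD (K : ℝ) (q : ℕ) : ℝ :=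
  (4 * (q : ℝ) ^ 2 - 5 * q + 3) / (2 * (2 * q - 1)) + K * (4 * q - 3) / (2 * (q : ℝ) ^ 2 * (2 * q - 1))

/-- the clauses of order `q` and `q + 1` give the bound at `1/q` -/
theorem HD_q {K m : ℝ} (q : ℕ) (hq : 4 ≤ q) (h1 : m ≤ HD K q) (h2 : m ≤ HD K (q + 1)) :
    m ≤ (q : ℝ) + K / ((q : ℝ) * (q + 1)) := by
  have hq4 : (4 : ℝ) ≤ q := by exact_mod_cast hq
  have n0 : (q : ℝ) ≠ 0 := by linarith
  have n1 : (q : ℝ) + 1 ≠ 0 := by linarith
  have p1 : (0 : ℝ) < 2 * q - 1 := by linarith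
  have p2 : (0 : ℝ) < 2 * q + 1 := by linarith
  have n2 : 2 * (q : ℝ) - 1 ≠ 0 := p1.ne'
  have n3 : 2 * (q : ℝ) + 1 ≠ 0 := p2.ne'
  have n4 : (q : ℝ) * 2 - 1 ≠ 0 := by linarith
  have n5 : (q : ℝ) * 2 + 1 ≠ 0 := by linarith
  rcases le_total K ((q : ℝ) ^ 2 * (q + 1)) with h | h
  · refine h1.trans ?_
    have e1 : (q : ℝ) + K / ((q : ℝ) * (q + 1)) - HD K q =
        3 * (q - 1) * ((q : ℝ) ^ 2 * (q + 1) - K) / (2 * (2 * q - 1) * ((q : ℝ) ^ 2 * (q + 1))) := by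
      unfold HD
      field_simp
      ring
    have e2 : 0 ≤ 3 * ((q : ℝ) - 1) * ((q : ℝ) ^ 2 * (q + 1) - K) / (2 * (2 * q - 1) * ((q : ℝ) ^ 2 * (q + 1))) :=
      div_nonneg (mul_nonneg (by linarith) (by linarith)) (by positivity)
    linarith
  · refine h2.trans ?_
    have e1 : (q : ℝ) + K / ((q : ℝ) * (q + 1)) - HD K (q + 1) =
        (K * (5 * q + 2) - q * (q + 2) * ((q : ℝ) + 1) ^ 2) / (2 * q * ((q : ℝ) + 1) ^ 2 * (2 * q + 1)) := by
      unfold HD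
      push_cast
      have e3 : 2 * ((q : ℝ) + 1) - 1 = 2 * q + 1 := by ring
      rw [e3]
      field_simp
      ring
    have e2 : 0 ≤ (K * (5 * q + 2) - q * (q + 2) * ((q : ℝ) + 1) ^ 2) / (2 * q * ((q : ℝ) + 1) ^ 2 * (2 * q + 1)) := by
      refine div_nonneg ?_ (by positivity)
      have h3 : (q : ℝ) ^ 2 * (q + 1) * (5 * q + 2) ≤ K * (5 * q + 2) := mul_le_mul_of_nonneg_right h (by linarith)
      have h4 : 0 ≤ (q : ℝ) * (q + 1) * (q * (5 * q + 2) - (q + 2) * (q + 1)) := by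
        refine mul_nonneg (by positivity) ?_
        nlinarith
      nlinarith
    linarith

/-- `a m ≤ 1 + K s` on `[1/Q, 1/(Q-1)]` -/
theorem lineD {K m a s e : ℝ} (Q : ℕ) (hQ : 4 ≤ Q) (hK : 0 ≤ K) (hm : m ≤ HD K Q) (hm1 : m ≤ HD K (Q + 1))
    (hm2 : m ≤ (Q : ℝ) - 1 + K / ((Q : ℝ) * (Q - 1)))
    (l1 : 1 / (Q : ℝ) ≤ a) (l2 : a ≤ 1 / ((Q : ℝ) - 1))
    (hs1 : 2 * ((Q : ℝ) + 1) * a ≤ 3 → (2 * a - 1 / Q) / ((Q : ℝ) * (Q + 1)) - e ≤ s) (hs2 : hv Q a - e ≤ s) :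
    a * m ≤ 1 + K * s + K * e := by
  have hQ4 : (4 : ℝ) ≤ Q := by exact_mod_cast hQ
  have hQ0 : (0 : ℝ) < Q := by linarith
  have hQ1 : (0 : ℝ) < Q - 1 := by linarith
  have ha : 0 < a := lt_of_lt_of_le (by positivity) l1
  have hQa : 1 ≤ (Q : ℝ) * a := by
    rw [div_le_iff₀ hQ0] at l1
    linarith
  have hQa1 : ((Q : ℝ) - 1) * a ≤ 1 := by
    rw [le_div_iff₀ hQ1] at l2
    linarith
  obtain ⟨c, hc⟩ : ∃ c : ℝ, c = (4 * (Q : ℝ) - 3) / (3 * Q) := ⟨_, rfl⟩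
  have hc1 : 1 ≤ c := by
    rw [hc, le_div_iff₀ (by positivity)]
    linarith
  obtain ⟨W, hW⟩ : ∃ W : ℝ, W = 4 * (Q : ℝ) ^ 2 - 5 * Q + 3 := ⟨_, rfl⟩
  obtain ⟨b, hb0⟩ : ∃ b : ℝ, b = 2 * (2 * (Q : ℝ) - 1) / W := ⟨_, rfl⟩
  have hQ2 : (0 : ℝ) < 2 * Q - 1 := by linarith
  have hQ3 : (0 : ℝ) < 4 * Q - 3 := by linarith
  have hQ5 : (0 : ℝ) < W := by nlinarith
  have n1 : (Q : ℝ) * 2 - 1 ≠ 0 := by linarith
  have n2 : (2 * (Q : ℝ) - 1) ≠ 0 := hQ2.ne'
  have n3 : (4 * (Q : ℝ) - 3) ≠ 0 := hQ3.ne'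
  have n4 : (Q : ℝ) * 4 - 3 ≠ 0 := by linarith
  have n5 : (Q : ℝ) - 1 ≠ 0 := hQ1.ne'
  have n6 : W ≠ 0 := hQ5.ne'
  have hbp : 0 < b := by
    rw [hb0]
    positivity
  have hsb : c * (((Q : ℝ) * b - 1) / ((Q : ℝ) * (Q - 1))) = (2 * b - 1 / Q) / ((Q : ℝ) * (Q + 1)) := by
    rw [hc, hb0]
    field_simp
    rw [hW]
    ring
  -- the corner
  have hbm : b * m ≤ 1 + K * ((2 * b - 1 / Q) / ((Q : ℝ) * (Q + 1))) := by
    have h4 := mul_le_mul_of_nonneg_left hm hbp.le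
    have e1 : b * HD K Q = 1 + K * ((2 * b - 1 / Q) / ((Q : ℝ) * (Q + 1))) := by
      unfold HD
      rw [← hW, hb0]
      field_simp
      rw [hW]
      ring
    linarith
  unfold hv at hs2
  rw [← hc] at hs2
  rcases le_total (a / ((Q : ℝ) * (Q - 1))) (c * (((Q : ℝ) * a - 1) / ((Q : ℝ) * (Q - 1)))) with h | h
  · rw [min_eq_right h] at hs2
    have h4 : K * (a / ((Q : ℝ) * (Q - 1))) ≤ K * (s + e) := mul_le_mul_of_nonneg_left (by linarith) hK
    have h5 := mul_le_mul_of_nonneg_left hm2 ha.le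
    have e1 : a * ((Q : ℝ) - 1 + K / ((Q : ℝ) * (Q - 1))) = ((Q : ℝ) - 1) * a + K * (a / ((Q : ℝ) * (Q - 1))) := by ring
    linarith
  · rw [min_eq_left h] at hs2
    have h4 : K * (c * (((Q : ℝ) * a - 1) / ((Q : ℝ) * (Q - 1)))) ≤ K * (s + e) := mul_le_mul_of_nonneg_left (by linarith) hK
    rcases le_total a b with h5 | h5
    · -- dilation part
      have hr : 2 * ((Q : ℝ) + 1) * a ≤ 3 := by
        have h6 : 2 * ((Q : ℝ) + 1) * a ≤ 2 * ((Q : ℝ) + 1) * b := mul_le_mul_of_nonneg_left h5 (by linarith)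
        refine h6.trans ?_
        rw [hb0, mul_div_assoc', div_le_iff₀ hQ5, hW]
        nlinarith
      have h6 : K * ((2 * a - 1 / Q) / ((Q : ℝ) * (Q + 1))) ≤ K * (s + e) := mul_le_mul_of_nonneg_left (by linarith [hs1 hr]) hK
      have h7 := HD_q Q hQ hm hm1
      have h8 := lin_between (A := 1 - K * (1 / Q / ((Q : ℝ) * (Q + 1)))) (B := K * (2 / ((Q : ℝ) * (Q + 1))) - m) l1 h5
        (by
          have e2 : 1 - K * (1 / Q / ((Q : ℝ) * (Q + 1))) + (K * (2 / ((Q : ℝ) * (Q + 1))) - m) * (1 / (Q : ℝ)) =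
              (1 / (Q : ℝ)) * ((Q : ℝ) + K / ((Q : ℝ) * (Q + 1)) - m) := by
            field_simp
            ring
          rw [e2]
          exact mul_nonneg (by positivity) (by linarith))
        (by
          have e2 : 1 - K * (1 / Q / ((Q : ℝ) * (Q + 1))) + (K * (2 / ((Q : ℝ) * (Q + 1))) - m) * b =
              1 + K * ((2 * b - 1 / Q) / ((Q : ℝ) * (Q + 1))) - b * m := by ring
          rw [e2]
          linarith)
      have e3 : 1 - K * (1 / Q / ((Q : ℝ) * (Q + 1))) + (K * (2 / ((Q : ℝ) * (Q + 1))) - m) * a =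
          1 + K * ((2 * a - 1 / Q) / ((Q : ℝ) * (Q + 1))) - a * m := by ring
      linarith
    · -- rising part
      have h6 := lin_between (A := 1 - K * (c * (1 / ((Q : ℝ) * (Q - 1))))) (B := K * (c * (1 / ((Q : ℝ) - 1))) - m) h5 l2
        (by
          have e2 : 1 - K * (c * (1 / ((Q : ℝ) * (Q - 1)))) + (K * (c * (1 / ((Q : ℝ) - 1))) - m) * b =
              1 + K * (c * (((Q : ℝ) * b - 1) / ((Q : ℝ) * (Q - 1)))) - b * m := by
            field_simp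
            ring
          rw [e2, hsb]
          linarith)
        (by
          have e2 : 1 - K * (c * (1 / ((Q : ℝ) * (Q - 1)))) + (K * (c * (1 / ((Q : ℝ) - 1))) - m) * (1 / ((Q : ℝ) - 1)) =
              (1 / ((Q : ℝ) - 1)) * (((Q : ℝ) - 1 + K / ((Q : ℝ) * (Q - 1)) - m) + (c - 1) * K / ((Q : ℝ) * (Q - 1))) := by
            field_simp
            ring
          rw [e2]
          have h7 : 0 ≤ (c - 1) * K / ((Q : ℝ) * (Q - 1)) := div_nonneg (mul_nonneg (by linarith) hK) (by positivity)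
          exact mul_nonneg (by positivity) (by linarith))
      have e3 : 1 - K * (c * (1 / ((Q : ℝ) * (Q - 1)))) + (K * (c * (1 / ((Q : ℝ) - 1))) - m) * a =
          1 + K * (c * (((Q : ℝ) * a - 1) / ((Q : ℝ) * (Q - 1)))) - a * m := by
        field_simp
        ring
      linarith

/-- the bound needed for the power `R = ⌈Q/2⌉` -/
theorem powD {K m : ℝ} (Q R : ℕ) (hQ : 6 ≤ Q) (hR : R = (Q + 1) / 2) (hK : 0 ≤ K) (h : ∀ q : ℕ, 4 ≤ q → m ≤ HD K q) :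
    m ≤ (Q : ℝ) - 1 + (K + 4 - 2 * R) / (2 * R * (R + 1)) := by
  rcases eq_or_ne Q 7 with h7 | h7
  · have h8 : R = 4 := by omega
    have h5 := h 6 (by norm_num)
    have h6 := h 7 (by norm_num)
    unfold HD at h5 h6
    push_cast at h5 h6
    rw [h7, h8]
    push_cast
    norm_num at h5 h6 ⊢
    linarith
  · obtain ⟨P, rfl⟩ : ∃ P, Q = P + 1 := ⟨Q - 1, by omega⟩
    have hP : (5 : ℝ) ≤ P := by exact_mod_cast (by omega : 5 ≤ P)
    have hR3 : 3 ≤ R := by omega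
    have hR3' : (3 : ℝ) ≤ R := by exact_mod_cast hR3
    have h5 := h P (by omega)
    have p1 : (0 : ℝ) < 2 * P - 1 := by linarith
    have n1 : 2 * (P : ℝ) - 1 ≠ 0 := p1.ne'
    have n2 : (P : ℝ) * 2 - 1 ≠ 0 := by linarith
    have n0 : (P : ℝ) ≠ 0 := by linarith
    -- `HD K P ≤ P - 1/2 + K/P^2`
    have e1 : (P : ℝ) - 1 / 2 + K / (P : ℝ) ^ 2 - HD K P = (P - 2) / (2 * (2 * P - 1)) + K * 1 / (2 * (P : ℝ) ^ 2 * (2 * P - 1)) := by
      unfold HD
      field_simp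
      ring
    have e2 : 0 ≤ ((P : ℝ) - 2) / (2 * (2 * P - 1)) + K * 1 / (2 * (P : ℝ) ^ 2 * (2 * P - 1)) :=
      add_nonneg (div_nonneg (by linarith) (by positivity)) (by positivity)
    have h8 : 2 * (R : ℝ) * (R + 1) ≤ (P : ℝ) ^ 2 := by
      rcases Nat.even_or_odd' (P + 1) with ⟨n, hn | hn⟩
      · have hRn : (R : ℝ) = n := by exact_mod_cast (by omega : R = n)
        have hPn : (P : ℝ) = 2 * n - 1 := by
          have : (P : ℝ) + 1 = 2 * n := by exact_mod_cast hn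
          linarith
        rw [hRn] at hR3' ⊢
        rw [hPn]
        nlinarith
      · have hRn : (R : ℝ) = n + 1 := by exact_mod_cast (by omega : R = n + 1)
        have hPn : (P : ℝ) = 2 * n := by
          have : (P : ℝ) + 1 = 2 * n + 1 := by exact_mod_cast hn
          linarith
        have hn4 : (4 : ℝ) ≤ n := by exact_mod_cast (by omega : 4 ≤ n)
        rw [hRn, hPn]
        nlinarith
    have h9 : K / (P : ℝ) ^ 2 ≤ K / (2 * (R : ℝ) * (R + 1)) := div_le_div_of_nonneg_left hK (by positivity) h8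
    have h10 : -(1 / 2) ≤ (4 - 2 * (R : ℝ)) / (2 * R * (R + 1)) := by
      rw [le_div_iff₀ (by positivity)]
      nlinarith
    have e3 : ((P + 1 : ℕ) : ℝ) - 1 + (K + 4 - 2 * R) / (2 * R * (R + 1)) =
        P + K / (2 * (R : ℝ) * (R + 1)) + (4 - 2 * (R : ℝ)) / (2 * R * (R + 1)) := by
      push_cast
      ring
    rw [e3]
    linarith

end Pool.Agent.Lib.PR
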