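import Pool.Agent.Lib.PR.K5
import Pool.Agent.Lib.PR.Z2
import Pool.Agent.Lib.PR.PWh
import Pool.Agent.Lib.MP_bc6037_nt.FO.Per
import Pool.Agent.Lib.MP_bc6037_nt.Limit

/-!
# PR / K6: the bounds for all `k ≥ 18` with the pointwise kernel

`alphaAllK`: `alpha k ≤ 1 - m/k` for every `m` with `RecK k m`.  `recK_closed`: `m = (3/2)((2k)^(1/3) - 1) + (6/5)(2k)^(-1/3)` is
admissible.
-/

set_option autoImplicit false

namespace Pool.Agent.Lib.PR

open Pool.Agent.Lib.MP_bc6037_nt

/-- the kernel case in the form needed for the blocks -/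
theorem kerC_use {k : ℕ} {a s e : ℝ} (ha : 0 ≤ a) (h : KerC k a s e) :
    ∃ X : ℝ, 0 ≤ X ∧ X ≤ a ∧ 4 * s + e ≤ X ∧ ∀ y, 2 * a ≤ y → y ≤ 1 → X * y ≤ 2 * a * max (thv 8 y) (thh k y) := by
  obtain ⟨R, hR3, hRk, hRa, hX⟩ := h
  have hR : (3 : ℝ) ≤ R := by exact_mod_cast hR3
  have hRk' : R + 1 ≤ k := by exact_mod_cast hRk
  refine ⟨2 * a / ((R : ℝ) * (R + 1)), by positivity, ?_, hX, fun y hy1 hy2 => ?_⟩
  · rw [div_le_iff₀ (by positivity)]
    nlinarith [mul_nonneg ha (show (0 : ℝ) ≤ R - 3 by linarith)]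
  · have h1 := sav_ge (y := y) hR3 hRk' (by nlinarith) hy2
    have h2 := mul_le_mul_of_nonneg_left h1 (show 0 ≤ 2 * a by linarith)
    calc 2 * a / ((R : ℝ) * (R + 1)) * y = 2 * a * (y / ((R : ℝ) * (R + 1))) := by ring
      _ ≤ _ := h2

theorem blockMomK (k : ℕ) (hk1 : 18 ≤ k) {m : ℝ} (hm : 0 < m) (hR : RecK k m) (hz : ∀ q : ℕ, 3 ≤ q → HBB q) :
    BlockMom k (1 - m / k) := by
  have hk : (18 : ℝ) ≤ k := by exact_mod_cast hk1
  have hk0 : (0 : ℝ) < k := by linarith
  have h3 : 0 < m / k := div_pos hm hk0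
  have h4 : m / k ≤ 1 / 2 := by
    rw [div_le_iff₀ hk0]
    linarith [hR.1]
  have hB : BlockMomM k 1 (1 - m / k) := by
    refine blockMomK_gen k k (m / k) k 1 le_rfl h3 h4 hk0.le (fun a => max (thv 8 a) (thh k a))
      (PW_max (PW_thv (by linarith) 8) (PW_thh (by linarith) hz k)) (PW_max (PW_thv le_rfl 8) (PW_thh le_rfl hz k)) ?_
    intro a s e ha0 ha1 he0 _ hs
    have hs1 : thv 8 a - e ≤ s := by
      have := le_max_left (thv 8 a) (thh k a)
      linarith
    have hs2 : thh k a - e ≤ s := by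
      have := le_max_right (thv 8 a) (thh k a)
      linarith
    have hs0 : -e ≤ s := by
      have := thv_nonneg 8 a
      linarith
    have h6 : (k : ℝ) * (s - a * (m / k)) = k * s - a * m := by
      field_simp
    rcases optK hk hR ha0 ha1 he0.le hs0
      (fun q hq hqa => by
        have := le_thv (show q < 8 by omega) hqa
        linarith)
      (fun q hq hqk => by
        have hqk' : q ≤ k := by exact_mod_cast hqk
        have := le_thh (n := k) (q := q) (by omega) (by omega) a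
        linarith) with ⟨j, hj, h7, h8⟩ | ⟨h7, h8⟩
    · refine Or.inl ⟨j, by exact_mod_cast hj, ?_⟩
      rw [h6]
      exact ⟨by linarith, h8.imp (fun h => by linarith) (fun h => by linarith)⟩
    · refine Or.inr ⟨?_, kerC_use ha0 h8⟩
      rw [h6]
      linarith
  exact hB

theorem alphaAllK (k : ℕ) (hk1 : 18 ≤ k) {m : ℝ} (hR : RecK k m) (hz : ∀ q : ℕ, 3 ≤ q → HBB q) :
    alpha k ≤ 1 - m / k := by
  have hk : (18 : ℝ) ≤ k := by exact_mod_cast hk1
  have hk0 : (0 : ℝ) < k := by linarith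
  rcases le_or_gt m 0 with hm | hm
  · have h1 := Limit.alpha_lt_one k
    have h2 : m / k ≤ 0 := div_nonpos_of_nonpos_of_nonneg hm hk0.le
    linarith
  have h3 : 0 < m / k := div_pos hm hk0
  have h4 : m / k ≤ 1 / 2 := by
    rw [div_le_iff₀ hk0]
    linarith [hR.1]
  have h := FO.alpha_le_of_mom (j := k) (σ := 1 - m / k) (M := 1) (by linarith) (by linarith) le_rfl
    (mom_of_block (by linarith) (by linarith) (blockMomK k hk1 hm hR hz))
  linarith

end Pool.Agent.Lib.PR
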