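import Pool.Agent.Lib.PR.V4
import Pool.Agent.Lib.G3.SdtD
import Pool.Agent.Lib.MP_092512_nt.VC.KL

/-!
# PR / V5 (250 lines): the kernel of the Halász-Montgomery inequality

PROOF.  `|u| ≤ 1`: the trivial bound `M ≤ 2 M / (1 + |u|)`.  Let `|u| ≥ 1`; the conjugate sum has `-u`, so `u ≥ 1`.  Split `[1, M]` into `{1}` and
the blocks `(2^i, min(2^(i+1), M)]`, `2^i < M`; there are at most `2 (1 + log M)` of them.  A block with `K = 2^i ≤ u`: `blockP 0` gives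
`C (K (u/K^2)^(1/2) + K^0 (u/K^2)^(-1/2)) = C (u^(1/2) + K u^(-1/2)) ≤ 2 C u^(1/2)`.  A block with `K > u`: the discrete
Kusmin-Landau inequality of `VC/KL.lean` (phases with decreasing differences in `[lam, π]`): the phase `u log n` (conjugate) has the differences
`u log (1 + 1/n)`, decreasing, `≤ u/K ≤ 1 ≤ π` and `≥ u/(n+1) ≥ u/(3K)`, so the block is `≤ 8 · 3K/u`.  The sum of `K = 2^i ≤ M` is `≤ 2M`.
Together `≤ C' (M/u + (1 + log M) u^(1/2))`, and `1 + u ≤ 2u`.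
-/

set_option autoImplicit false

namespace Pool.Agent.Lib.PR

open Finset Complex

private lemma ker_exp {n : ℕ} (hn : 1 ≤ n) (u : ℝ) :
    (n : ℂ) ^ (-((u : ℂ) * I)) = Complex.exp (I * ((-(u * Real.log n) : ℝ) : ℂ)) := by
  have hn0 : (n : ℂ) ≠ 0 := by
    have : n ≠ 0 := by omega
    exact_mod_cast this
  rw [Complex.cpow_def_of_ne_zero hn0, ← Complex.natCast_log]
  apply congrArg
  push_cast
  ring

private lemma ker_norm {n : ℕ} (hn : 1 ≤ n) (u : ℝ) : ‖(n : ℂ) ^ (-((u : ℂ) * I))‖ = 1 := by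
  rw [ker_exp hn, mul_comm, Complex.norm_exp_ofReal_mul_I]

private lemma ker_conj {n : ℕ} (hn : 1 ≤ n) (u : ℝ) :
    (n : ℂ) ^ (-(((-u : ℝ) : ℂ) * I)) = (starRingEnd ℂ) ((n : ℂ) ^ (-((u : ℂ) * I))) := by
  rw [ker_exp hn, ker_exp hn, ← Complex.exp_conj]
  apply congrArg
  rw [map_mul, Complex.conj_I, Complex.conj_ofReal]
  push_cast
  ring

private lemma ker_shift (f : ℕ → ℂ) (m : ℕ) : ∑ n ∈ Ioc m (2 * m), f n = ∑ i ∈ range m, f (m + 1 + i) := by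
  have h : Ioc m (2 * m) = Ico (m + 1) (2 * m + 1) := by
    ext n; simp only [mem_Ioc, mem_Ico]; omega
  rw [h, Finset.sum_Ico_eq_sum_range, show 2 * m + 1 - (m + 1) = m by omega]

/-- long blocks: Kusmin-Landau -/
private lemma ker_long {m : ℕ} {u : ℝ} (hm : 1 ≤ m) (hu : 1 ≤ u) (hum : u ≤ m) :
    ‖∑ n ∈ Ioc m (2 * m), (n : ℂ) ^ (-((u : ℂ) * I))‖ ≤ 24 * (m / u) := by
  have hm1 : (1 : ℝ) ≤ m := by exact_mod_cast hm
  have hu0 : 0 < u := by linarith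
  rw [ker_shift]
  have h1 : ∀ i ∈ range m, ((m + 1 + i : ℕ) : ℂ) ^ (-((u : ℂ) * I)) =
      Complex.exp (I * ((-(u * Real.log ((m + 1 + i : ℕ) : ℝ)) : ℝ) : ℂ)) := fun i _ => ker_exp (by omega) u
  rw [Finset.sum_congr rfl h1, Pool.Agent.Lib.G3.sum_neg_phase (fun i : ℕ => u * Real.log ((m + 1 + i : ℕ) : ℝ)) m]
  have hx : ∀ n : ℕ, (0 : ℝ) < ((m + 1 + n : ℕ) : ℝ) := fun n => by exact_mod_cast (by omega : 0 < m + 1 + n)
  have hd : ∀ n : ℕ, u * Real.log ((m + 1 + (n + 1) : ℕ) : ℝ) - u * Real.log ((m + 1 + n : ℕ) : ℝ) =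
      u * Real.log ((((m + 1 + n : ℕ) : ℝ) + 1) / ((m + 1 + n : ℕ) : ℝ)) := by
    intro n
    have hx1 : ((m + 1 + (n + 1) : ℕ) : ℝ) = ((m + 1 + n : ℕ) : ℝ) + 1 := by push_cast; ring
    rw [Real.log_div (by linarith [hx n]) (hx n).ne', hx1]
    ring
  have key := Pool.Agent.Lib.VDC.kusmin_landau (fun i : ℕ => u * Real.log ((m + 1 + i : ℕ) : ℝ)) m (u / (3 * m))
    (by positivity) ?_ ?_ ?_
  · refine key.trans (le_of_eq ?_)
    field_simp
    norm_num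
  · intro n hn
    show u / (3 * m) ≤ u * Real.log ((m + 1 + (n + 1) : ℕ) : ℝ) - u * Real.log ((m + 1 + n : ℕ) : ℝ)
    rw [hd n]
    have h2 := Real.one_sub_inv_le_log_of_pos (x := (((m + 1 + n : ℕ) : ℝ) + 1) / ((m + 1 + n : ℕ) : ℝ))
      (div_pos (by linarith [hx n]) (hx n))
    have h3 : 1 - ((((m + 1 + n : ℕ) : ℝ) + 1) / ((m + 1 + n : ℕ) : ℝ))⁻¹ = 1 / (((m + 1 + n : ℕ) : ℝ) + 1) := by
      have := hx n
      rw [inv_div]
      field_simp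
      ring
    rw [h3] at h2
    have h4 : ((m + 1 + n : ℕ) : ℝ) + 1 ≤ 3 * m := by
      have : m + 1 + n + 1 ≤ 3 * m := by omega
      exact_mod_cast this
    have h5 : 1 / (3 * (m : ℝ)) ≤ 1 / (((m + 1 + n : ℕ) : ℝ) + 1) :=
      one_div_le_one_div_of_le (by linarith [hx n]) h4
    calc u / (3 * m) = u * (1 / (3 * m)) := by ring
      _ ≤ u * Real.log ((((m + 1 + n : ℕ) : ℝ) + 1) / ((m + 1 + n : ℕ) : ℝ)) := by gcongr; exact h5.trans h2
  · intro n hn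
    show u * Real.log ((m + 1 + (n + 1) : ℕ) : ℝ) - u * Real.log ((m + 1 + n : ℕ) : ℝ) ≤ Real.pi
    rw [hd n]
    have h2 := Real.log_le_sub_one_of_pos (x := (((m + 1 + n : ℕ) : ℝ) + 1) / ((m + 1 + n : ℕ) : ℝ))
      (div_pos (by linarith [hx n]) (hx n))
    have h3 : (((m + 1 + n : ℕ) : ℝ) + 1) / ((m + 1 + n : ℕ) : ℝ) - 1 = 1 / ((m + 1 + n : ℕ) : ℝ) := by
      have := hx n
      field_simp
      ring
    rw [h3] at h2
    have h4 : u ≤ ((m + 1 + n : ℕ) : ℝ) := by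
      push_cast
      have : (0 : ℝ) ≤ n := Nat.cast_nonneg _
      linarith
    calc u * Real.log ((((m + 1 + n : ℕ) : ℝ) + 1) / ((m + 1 + n : ℕ) : ℝ)) ≤ u * (1 / ((m + 1 + n : ℕ) : ℝ)) := by gcongr
      _ = u / ((m + 1 + n : ℕ) : ℝ) := by ring
      _ ≤ 1 := by rw [div_le_one (hx n)]; exact h4
      _ ≤ Real.pi := by linarith [Real.pi_gt_three]
  · intro n hn
    show u * Real.log ((m + 1 + (n + 2) : ℕ) : ℝ) - u * Real.log ((m + 1 + (n + 1) : ℕ) : ℝ) ≤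
      u * Real.log ((m + 1 + (n + 1) : ℕ) : ℝ) - u * Real.log ((m + 1 + n : ℕ) : ℝ)
    have e1 := hd (n + 1)
    rw [show m + 1 + (n + 2) = m + 1 + (n + 1 + 1) by ring, e1, hd n]
    have hx0 := hx n
    have hx1 := hx (n + 1)
    apply mul_le_mul_of_nonneg_left _ hu0.le
    apply Real.log_le_log (by positivity)
    have hx2 : ((m + 1 + (n + 1) : ℕ) : ℝ) = ((m + 1 + n : ℕ) : ℝ) + 1 := by push_cast; ring
    rw [hx2, div_le_div_iff₀ (by linarith) hx0]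
    nlinarith

/-- all blocks `(m, 2m]` -/
private lemma ker_block : ∃ C : ℝ, 0 ≤ C ∧ ∀ (m : ℕ) (u : ℝ), 1 ≤ m → 1 ≤ u →
    ‖∑ n ∈ Ioc m (2 * m), (n : ℂ) ^ (-((u : ℂ) * I))‖ ≤ C * (m / u + u ^ (1 / 2 : ℝ)) := by
  obtain ⟨C, hC, h⟩ := blockP 0
  refine ⟨2 * C + 24, by linarith, fun m u hm hu => ?_⟩
  have hm1 : (1 : ℝ) ≤ m := by exact_mod_cast hm
  have hu0 : 0 < u := by linarith
  have hs : 0 ≤ u ^ (1 / 2 : ℝ) := Real.rpow_nonneg hu0.le _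
  have hmu : 0 ≤ (m : ℝ) / u := by positivity
  rcases le_total (u : ℝ) m with hum | hum
  · refine (ker_long hm hu hum).trans ?_
    nlinarith [mul_nonneg hC hmu, mul_nonneg hC hs]
  · have h1 := h m (2 * m) hm (by omega) le_rfl u hu0
    rw [kp_zero, nu_zero, sub_self, Real.rpow_zero, one_mul, zero_add] at h1
    have hm0 : (0 : ℝ) < m := by linarith
    have e0 : ((m : ℝ) ^ 2) ^ (1 / 2 : ℝ) = m := by
      rw [← Real.sqrt_eq_rpow, Real.sqrt_sq hm0.le]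
    have e1 : (m : ℝ) * (u / (m : ℝ) ^ 2) ^ (1 / 2 : ℝ) = u ^ (1 / 2 : ℝ) := by
      rw [Real.div_rpow hu0.le (by positivity), e0]
      field_simp
    have e2 : (u / (m : ℝ) ^ 2) ^ (-(1 / 2) : ℝ) ≤ u ^ (1 / 2 : ℝ) := by
      rw [Real.rpow_neg (by positivity), Real.div_rpow hu0.le (by positivity), e0, inv_div]
      have hs0 : 0 < u ^ (1 / 2 : ℝ) := Real.rpow_pos_of_pos hu0 _
      rw [div_le_iff₀ hs0, ← Real.rpow_add hu0]
      norm_num
      exact hum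
    rw [e1] at h1
    calc _ ≤ C * (u ^ (1 / 2 : ℝ) + (u / (m : ℝ) ^ 2) ^ (-(1 / 2) : ℝ)) := h1
      _ ≤ C * (u ^ (1 / 2 : ℝ) + u ^ (1 / 2 : ℝ)) := by gcongr
      _ ≤ (2 * C + 24) * (m / u + u ^ (1 / 2 : ℝ)) := by nlinarith [mul_nonneg hC hmu, mul_nonneg hC hs]

/-- the sum for `u ≥ 1` -/
private lemma ker_main : ∃ C : ℝ, 1 ≤ C ∧ ∀ (M : ℕ) (u : ℝ), 1 ≤ M → 1 ≤ u →
    ‖∑ n ∈ Ioc 0 M, (n : ℂ) ^ (-((u : ℂ) * I))‖ ≤ C * (M / u + (1 + Real.log M) * u ^ (1 / 2 : ℝ)) := by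
  obtain ⟨C, hC, h⟩ := ker_block
  refine ⟨2 * (C + 1), by linarith, fun M => ?_⟩
  induction M using Nat.strong_induction_on with
  | _ M ih =>
    intro u hM hu
    have hu0 : 0 < u := by linarith
    have hs1 : 1 ≤ u ^ (1 / 2 : ℝ) := Real.one_le_rpow hu (by norm_num)
    rcases Nat.lt_or_ge M 2 with h2 | h2
    · have hM1 : M = 1 := by omega
      subst hM1
      have e : Ioc 0 1 = ({1} : Finset ℕ) := by ext n; simp only [mem_Ioc, mem_singleton]; omega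
      rw [e, Finset.sum_singleton, ker_norm le_rfl]
      have : (0 : ℝ) ≤ 1 / u := by positivity
      push_cast
      rw [Real.log_one]
      nlinarith [mul_nonneg hC this]
    · set m := M / 2 with hm
      have hm1 : 1 ≤ m := by omega
      have hm1r : (1 : ℝ) ≤ m := by exact_mod_cast hm1
      have h2m : 2 * m ≤ M := by omega
      have hM2 : M ≤ 2 * m + 1 := by omega
      have hmM : (m : ℝ) ≤ M / 2 := by
        have : (2 : ℝ) * m ≤ M := by exact_mod_cast h2m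
        linarith
      have i1 := ih m (by omega) u hm1 hu
      have i2 := h m u hm1 hu
      have i3 : ‖∑ n ∈ Ioc (2 * m) M, (n : ℂ) ^ (-((u : ℂ) * I))‖ ≤ 1 := by
        calc _ ≤ ∑ n ∈ Ioc (2 * m) M, ‖(n : ℂ) ^ (-((u : ℂ) * I))‖ := norm_sum_le _ _
          _ = ∑ _n ∈ Ioc (2 * m) M, (1 : ℝ) := Finset.sum_congr rfl fun n hn => by
              rw [mem_Ioc] at hn
              exact ker_norm (by omega) u
          _ = ((M - 2 * m : ℕ) : ℝ) := by simp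
          _ ≤ 1 := by
              have : M - 2 * m ≤ 1 := by omega
              exact_mod_cast this
      have hsplit : ∑ n ∈ Ioc 0 M, (n : ℂ) ^ (-((u : ℂ) * I)) = ∑ n ∈ Ioc 0 m, (n : ℂ) ^ (-((u : ℂ) * I)) +
          ∑ n ∈ Ioc m (2 * m), (n : ℂ) ^ (-((u : ℂ) * I)) + ∑ n ∈ Ioc (2 * m) M, (n : ℂ) ^ (-((u : ℂ) * I)) := by
        rw [Finset.sum_Ioc_consecutive _ (Nat.zero_le m) (by omega), Finset.sum_Ioc_consecutive _ (Nat.zero_le _) h2m]
      have hlog : Real.log m ≤ Real.log M - 1 / 2 := by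
        have hM0 : (0 : ℝ) < M := by linarith
        have : Real.log m ≤ Real.log (M / 2) := Real.log_le_log (by linarith) hmM
        rw [Real.log_div hM0.ne' (by norm_num)] at this
        linarith [Real.log_two_gt_d9]
      have hmu : (m : ℝ) / u ≤ M / u / 2 := by
        calc (m : ℝ) / u ≤ (M / 2) / u := by gcongr
          _ = M / u / 2 := by ring
      rw [hsplit]
      calc _ ≤ ‖∑ n ∈ Ioc 0 m, (n : ℂ) ^ (-((u : ℂ) * I))‖ + ‖∑ n ∈ Ioc m (2 * m), (n : ℂ) ^ (-((u : ℂ) * I))‖ +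
            ‖∑ n ∈ Ioc (2 * m) M, (n : ℂ) ^ (-((u : ℂ) * I))‖ := norm_add₃_le
        _ ≤ 2 * (C + 1) * (m / u + (1 + Real.log m) * u ^ (1 / 2 : ℝ)) + C * (m / u + u ^ (1 / 2 : ℝ)) + 1 := by linarith
        _ ≤ 2 * (C + 1) * (M / u / 2 + (1 + (Real.log M - 1 / 2)) * u ^ (1 / 2 : ℝ)) +
              C * (M / u / 2 + u ^ (1 / 2 : ℝ)) + u ^ (1 / 2 : ℝ) := by gcongr
        _ ≤ 2 * (C + 1) * (M / u + (1 + Real.log M) * u ^ (1 / 2 : ℝ)) := by
            have : 0 ≤ (M : ℝ) / u := by positivity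
            nlinarith [mul_nonneg hC this]

theorem kerB : ∃ C : ℝ, 0 ≤ C ∧ ∀ (M : ℕ) (u : ℝ), 1 ≤ M →
    ‖∑ n ∈ Icc 1 M, (n : ℂ) ^ (-((u : ℂ) * I))‖ ≤
      C * (M / (1 + |u|) + (1 + Real.log M) * (1 + |u|) ^ (1 / 2 : ℝ)) := by
  obtain ⟨C, hC, h⟩ := ker_main
  have hI : ∀ M : ℕ, Icc 1 M = Ioc 0 M := fun M => by ext n; simp only [mem_Icc, mem_Ioc]; omega
  -- `u ≥ 1`
  have hpos : ∀ (M : ℕ) (u : ℝ), 1 ≤ M → 1 ≤ u → ‖∑ n ∈ Icc 1 M, (n : ℂ) ^ (-((u : ℂ) * I))‖ ≤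
      2 * C * (M / (1 + |u|) + (1 + Real.log M) * (1 + |u|) ^ (1 / 2 : ℝ)) := by
    intro M u hM hu
    have hM1 : (1 : ℝ) ≤ M := by exact_mod_cast hM
    have hlog : 0 ≤ Real.log M := Real.log_nonneg hM1
    have hu0 : 0 < u := by linarith
    rw [hI, abs_of_pos hu0]
    have h1 := h M u hM hu
    have h2 : (M : ℝ) / u ≤ 2 * (M / (1 + u)) := by
      rw [← mul_div_assoc, div_le_div_iff₀ hu0 (by linarith)]
      nlinarith
    have h3 : u ^ (1 / 2 : ℝ) ≤ (1 + u) ^ (1 / 2 : ℝ) := Real.rpow_le_rpow hu0.le (by linarith) (by norm_num)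
    have h4 : 0 ≤ (1 + Real.log M) * (1 + u) ^ (1 / 2 : ℝ) := by positivity
    calc _ ≤ C * (M / u + (1 + Real.log M) * u ^ (1 / 2 : ℝ)) := h1
      _ ≤ C * (2 * (M / (1 + u)) + (1 + Real.log M) * (1 + u) ^ (1 / 2 : ℝ)) := by gcongr
      _ ≤ C * (2 * (M / (1 + u)) + 2 * ((1 + Real.log M) * (1 + u) ^ (1 / 2 : ℝ))) :=
          mul_le_mul_of_nonneg_left (by linarith) (by linarith)
      _ = _ := by ring
  refine ⟨2 * C, by linarith, fun M u hM => ?_⟩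
  have hM1 : (1 : ℝ) ≤ M := by exact_mod_cast hM
  have hlog : 0 ≤ Real.log M := Real.log_nonneg hM1
  rcases le_total |u| 1 with hu | hu
  · calc ‖∑ n ∈ Icc 1 M, (n : ℂ) ^ (-((u : ℂ) * I))‖ ≤ ∑ n ∈ Icc 1 M, ‖(n : ℂ) ^ (-((u : ℂ) * I))‖ := norm_sum_le _ _
      _ = ∑ _n ∈ Icc 1 M, (1 : ℝ) := Finset.sum_congr rfl fun n hn => ker_norm (mem_Icc.mp hn).1 u
      _ = M := by simp
      _ ≤ 2 * (M / (1 + |u|)) := by
          have : 0 ≤ |u| := abs_nonneg u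
          rw [← mul_div_assoc, le_div_iff₀ (by linarith)]
          nlinarith
      _ ≤ 2 * C * (M / (1 + |u|) + (1 + Real.log M) * (1 + |u|) ^ (1 / 2 : ℝ)) := by
          have h0 : 0 ≤ |u| := abs_nonneg u
          have h1 : 0 ≤ (M : ℝ) / (1 + |u|) := by positivity
          have h2 : 0 ≤ (1 + Real.log M) * (1 + |u|) ^ (1 / 2 : ℝ) := by positivity
          nlinarith [mul_nonneg (by linarith : (0 : ℝ) ≤ C) h2]
  · rcases le_total 0 u with h0 | h0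
    · rw [abs_of_nonneg h0] at hu
      exact hpos M u hM hu
    · rw [abs_of_nonpos h0] at hu
      have h1 := hpos M (-u) hM hu
      have e : ∑ n ∈ Icc 1 M, (n : ℂ) ^ (-(((-u : ℝ) : ℂ) * I)) =
          (starRingEnd ℂ) (∑ n ∈ Icc 1 M, (n : ℂ) ^ (-((u : ℂ) * I))) := by
        rw [map_sum]
        exact Finset.sum_congr rfl fun n hn => ker_conj (mem_Icc.mp hn).1 u
      rw [e, RCLike.norm_conj, abs_neg] at h1
      exact h1

end Pool.Agent.Lib.PR
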