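import Pool.Agent.Lib.PR.PW
import Pool.Agent.Lib.PR.V5

/-!
# PR / K2: the kernel `∑_{N < n ≤ 2N} n^(-iu)`, `|u| ≤ T`, from a pointwise saving

`T^x ≤ N`, `X y ≤ x θ(y)` for `y ∈ [x, 1]`, `2 X ≤ x`: the kernel is at most `C (N/(1+|u|) + N T^(η-X))`.
-/

set_option autoImplicit false

namespace Pool.Agent.Lib.PR

private lemma k2_exp {n : ℕ} (hn : 1 ≤ n) (u : ℝ) :
    (n : ℂ) ^ (-((u : ℂ) * Complex.I)) = Complex.exp (Complex.I * ((-(u * Real.log n) : ℝ) : ℂ)) := by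
  have hn0 : (n : ℂ) ≠ 0 := by
    have : n ≠ 0 := by omega
    exact_mod_cast this
  rw [Complex.cpow_def_of_ne_zero hn0, ← Complex.natCast_log]
  apply congrArg
  push_cast
  ring

private lemma k2_conj {n : ℕ} (hn : 1 ≤ n) (u : ℝ) :
    (n : ℂ) ^ (-(((-u : ℝ) : ℂ) * Complex.I)) = (starRingEnd ℂ) ((n : ℂ) ^ (-((u : ℂ) * Complex.I))) := by
  rw [k2_exp hn, k2_exp hn, ← Complex.exp_conj]
  apply congrArg
  rw [map_mul, Complex.conj_I, Complex.conj_ofReal]
  push_cast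
  ring

/-- the kernel is even -/
private lemma k2_abs (N : ℕ) (u : ℝ) :
    ‖∑ n ∈ Finset.Ioc N (2 * N), (n : ℂ) ^ (-((u : ℂ) * Complex.I))‖ =
      ‖∑ n ∈ Finset.Ioc N (2 * N), (n : ℂ) ^ (-(((|u| : ℝ) : ℂ) * Complex.I))‖ := by
  rcases le_total 0 u with h | h
  · rw [abs_of_nonneg h]
  · rw [abs_of_nonpos h]
    have h1 : ∑ n ∈ Finset.Ioc N (2 * N), (n : ℂ) ^ (-(((-u : ℝ) : ℂ) * Complex.I)) =
        (starRingEnd ℂ) (∑ n ∈ Finset.Ioc N (2 * N), (n : ℂ) ^ (-((u : ℂ) * Complex.I))) := by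
      rw [map_sum]
      refine Finset.sum_congr rfl fun n hn => ?_
      rw [Finset.mem_Ioc] at hn
      exact k2_conj (by omega) u
    rw [h1, RCLike.norm_conj]

private lemma k2_triv (N : ℕ) (u : ℝ) : ‖∑ n ∈ Finset.Ioc N (2 * N), (n : ℂ) ^ (-((u : ℂ) * Complex.I))‖ ≤ N := by
  refine (norm_sum_le _ _).trans ?_
  have h1 : ∀ n ∈ Finset.Ioc N (2 * N), ‖(n : ℂ) ^ (-((u : ℂ) * Complex.I))‖ ≤ 1 := by
    intro n hn
    rw [Finset.mem_Ioc] at hn
    rw [Complex.norm_natCast_cpow_of_pos (by omega)]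
    simp
  refine (Finset.sum_le_sum h1).trans ?_
  rw [Finset.sum_const, Nat.card_Ioc, nsmul_eq_mul, mul_one, show 2 * N - N = N by omega]

theorem kerBlock {θ : ℝ → ℝ} (hP : PW 0 θ) {η : ℝ} (hη : 0 < η) : ∃ C : ℝ, 0 ≤ C ∧
    ∀ T : ℝ, 2 ≤ T → ∀ N : ℕ, 1 ≤ N → (N : ℝ) ≤ T ^ (3 : ℝ) → ∀ x X : ℝ, T ^ x ≤ N → 0 ≤ X → 2 * X ≤ x →
      (∀ y, x ≤ y → y ≤ 1 → X * y ≤ x * θ y) → ∀ u : ℝ, |u| ≤ T →
        ‖∑ n ∈ Finset.Ioc N (2 * N), (n : ℂ) ^ (-((u : ℂ) * Complex.I))‖ ≤ C * (N / (1 + |u|) + N * T ^ (η - X)) := by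
  obtain ⟨C1, hC1, hk⟩ := kerB
  obtain ⟨C2, hC2, hp⟩ := hP η hη
  refine ⟨3 + 3 * C1 + 4 * C1 * (3 + 3 / η) + C2, by positivity, ?_⟩
  intro T hT N hN hNT x X hx hX hXx hy u hu
  have hT0 : 0 < T := by linarith
  have hT1 : 1 ≤ T := by linarith
  have hN1 : (1 : ℝ) ≤ N := by exact_mod_cast hN
  have hN0 : (0 : ℝ) < N := by linarith
  rw [k2_abs]
  obtain ⟨v, hv⟩ : ∃ v : ℝ, v = |u| := ⟨_, rfl⟩
  rw [← hv] at hu ⊢
  have hv0 : 0 ≤ v := by
    rw [hv]
    exact abs_nonneg u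
  have hA : 0 ≤ (N : ℝ) / (1 + v) := by positivity
  have hB : 0 ≤ (N : ℝ) * T ^ (η - X) := by positivity
  have hC0 : 0 ≤ 4 * C1 * (3 + 3 / η) := by positivity
  rcases hX.eq_or_lt with hX0 | hX0
  · have h1 : (N : ℝ) ≤ N * T ^ (η - X) := by
      rw [← hX0, sub_zero]
      exact le_mul_of_one_le_right hN0.le (Real.one_le_rpow hT1 hη.le)
    have h3 := (k2_triv N v).trans h1
    nlinarith [mul_nonneg hC1 hA, mul_nonneg hC0 hA, mul_nonneg hC2 hA, mul_nonneg hC1 hB, mul_nonneg hC0 hB, mul_nonneg hC2 hB]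
  rcases lt_or_ge v 2 with h2 | h2
  · have h1 : (N : ℝ) ≤ 3 * (N / (1 + v)) := by
      rw [mul_div_assoc', le_div_iff₀ (by linarith)]
      nlinarith
    have h3 := (k2_triv N v).trans h1
    nlinarith [mul_nonneg hC1 hA, mul_nonneg hC0 hA, mul_nonneg hC2 hA, mul_nonneg hC1 hB, mul_nonneg hC0 hB, mul_nonneg hC2 hB]
  rcases lt_or_ge v N with h3 | h3
  · -- `v < N`
    have e1 : ∑ n ∈ Finset.Ioc N (2 * N), (n : ℂ) ^ (-((v : ℂ) * Complex.I)) =
        ∑ n ∈ Finset.Icc 1 (2 * N), (n : ℂ) ^ (-((v : ℂ) * Complex.I)) -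
          ∑ n ∈ Finset.Icc 1 N, (n : ℂ) ^ (-((v : ℂ) * Complex.I)) := by
      have h4 := Finset.sum_Ioc_consecutive (fun n : ℕ => (n : ℂ) ^ (-((v : ℂ) * Complex.I))) (Nat.zero_le N) (show N ≤ 2 * N by omega)
      have h5 : ∀ M : ℕ, Finset.Icc 1 M = Finset.Ioc 0 M := fun M => by
        ext n
        simp only [Finset.mem_Icc, Finset.mem_Ioc]
        omega
      rw [h5, h5, ← h4]
      ring
    have h6 := hk (2 * N) v (by omega)
    have h7 := hk N v hN
    rw [abs_of_nonneg hv0] at h6 h7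
    push_cast at h6
    have h8 : (1 + v) ^ (1 / 2 : ℝ) ≤ 2 * (N : ℝ) ^ (1 / 2 : ℝ) := by
      have h9 : (1 + v) ^ (1 / 2 : ℝ) ≤ (4 * (N : ℝ)) ^ (1 / 2 : ℝ) :=
        Real.rpow_le_rpow (by linarith) (by linarith) (by norm_num)
      rw [Real.mul_rpow (by norm_num) hN0.le] at h9
      have h10 : (4 : ℝ) ^ (1 / 2 : ℝ) = 2 := by
        rw [show (4 : ℝ) = 2 ^ (2 : ℝ) by norm_num, ← Real.rpow_mul (by norm_num)]
        norm_num
      rwa [h10] at h9
    have h9 : 1 + Real.log (2 * N) ≤ (3 + 3 / η) * T ^ η := by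
      have h10 : Real.log (2 * N) ≤ Real.log 2 + 3 * Real.log T := by
        rw [Real.log_mul (by norm_num) hN0.ne']
        have h11 : Real.log N ≤ Real.log (T ^ (3 : ℝ)) := Real.log_le_log hN0 hNT
        rw [Real.log_rpow hT0] at h11
        linarith
      have h12 : Real.log 2 ≤ 1 := by
        have := Real.log_le_sub_one_of_pos (show (0 : ℝ) < 2 by norm_num)
        linarith
      have h13 : Real.log T ≤ T ^ η / η := Real.log_le_rpow_div hT0.le hη
      have h14 : 1 ≤ T ^ η := Real.one_le_rpow hT1 hη.le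
      have h15 : (3 + 3 / η) * T ^ η = 3 * T ^ η + 3 * (T ^ η / η) := by ring
      rw [h15]
      linarith
    have h10 : Real.log N ≤ Real.log (2 * N) := Real.log_le_log hN0 (by linarith)
    have h11 : (N : ℝ) ^ (1 / 2 : ℝ) ≤ N * T ^ (-X) := by
      have h12 : (N : ℝ) ^ (-(1 / 2 : ℝ)) ≤ T ^ (-X) := by
        calc (N : ℝ) ^ (-(1 / 2 : ℝ)) ≤ (T ^ x) ^ (-(1 / 2 : ℝ)) :=
              Real.rpow_le_rpow_of_nonpos (by positivity) hx (by norm_num)
          _ = T ^ (-(x / 2)) := by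
              rw [← Real.rpow_mul hT0.le]
              congr 1
              ring
          _ ≤ T ^ (-X) := Real.rpow_le_rpow_of_exponent_le hT1 (by linarith)
      calc (N : ℝ) ^ (1 / 2 : ℝ) = N * (N : ℝ) ^ (-(1 / 2 : ℝ)) := by
            nth_rewrite 2 [← Real.rpow_one (N : ℝ)]
            rw [← Real.rpow_add hN0]
            norm_num
        _ ≤ N * T ^ (-X) := mul_le_mul_of_nonneg_left h12 hN0.le
    have hlog0 : 0 ≤ 1 + Real.log N := by
      have := Real.log_nonneg hN1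
      linarith
    have h12 : (1 + Real.log (2 * N)) * (1 + v) ^ (1 / 2 : ℝ) ≤ 2 * (3 + 3 / η) * (N * T ^ (η - X)) := by
      calc (1 + Real.log (2 * N)) * (1 + v) ^ (1 / 2 : ℝ) ≤ ((3 + 3 / η) * T ^ η) * (2 * (N * T ^ (-X))) :=
            mul_le_mul h9 (h8.trans (mul_le_mul_of_nonneg_left h11 (by norm_num))) (by positivity) (by positivity)
        _ = 2 * (3 + 3 / η) * (N * T ^ (η - X)) := by
            rw [sub_eq_add_neg, Real.rpow_add hT0]
            ring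
    have h13 : (1 + Real.log N) * (1 + v) ^ (1 / 2 : ℝ) ≤ 2 * (3 + 3 / η) * (N * T ^ (η - X)) :=
      (mul_le_mul_of_nonneg_right (by linarith) (by positivity)).trans h12
    have h14 : ‖∑ n ∈ Finset.Ioc N (2 * N), (n : ℂ) ^ (-((v : ℂ) * Complex.I))‖ ≤
        C1 * (2 * N / (1 + v) + 2 * (3 + 3 / η) * (N * T ^ (η - X))) + C1 * (N / (1 + v) + 2 * (3 + 3 / η) * (N * T ^ (η - X))) := by
      rw [e1]
      refine (norm_sub_le _ _).trans (add_le_add (h6.trans ?_) (h7.trans ?_))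
      · exact mul_le_mul_of_nonneg_left (by linarith) hC1
      · exact mul_le_mul_of_nonneg_left (by linarith) hC1
    refine h14.trans ?_
    have h15 : C1 * (2 * N / (1 + v) + 2 * (3 + 3 / η) * (N * T ^ (η - X))) + C1 * (N / (1 + v) + 2 * (3 + 3 / η) * (N * T ^ (η - X))) =
        3 * C1 * (N / (1 + v)) + 4 * C1 * (3 + 3 / η) * (N * T ^ (η - X)) := by ring
    rw [h15]
    nlinarith [mul_nonneg hC1 hA, mul_nonneg hC0 hA, mul_nonneg hC2 hA, mul_nonneg hC1 hB, mul_nonneg hC0 hB, mul_nonneg hC2 hB]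
  · -- `N ≤ v`
    have hv1 : 1 < v := by linarith
    have hlv : 0 < Real.log v := Real.log_pos hv1
    have hlT : 0 < Real.log T := Real.log_pos (by linarith)
    have h4 := hp v h2 N hN h3 (fun _ => 1) (fun _ => zero_le_one) (fun _ => le_rfl) (fun _ _ _ => le_rfl) v le_rfl (by linarith)
    have e1 : ∑ n ∈ Finset.Ioc N (2 * N), ((1 * (n : ℝ) ^ (-(0 : ℝ)) : ℝ) : ℂ) * (n : ℂ) ^ (-((v : ℂ) * Complex.I)) =
        ∑ n ∈ Finset.Ioc N (2 * N), (n : ℂ) ^ (-((v : ℂ) * Complex.I)) := by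
      refine Finset.sum_congr rfl fun n _ => ?_
      rw [neg_zero, Real.rpow_zero]
      norm_num
    rw [e1, sub_zero, Real.rpow_one] at h4
    obtain ⟨y, hyd⟩ : ∃ y : ℝ, y = Real.log N / Real.log v := ⟨_, rfl⟩
    rw [← hyd] at h4
    have hlN : x * Real.log T ≤ Real.log N := by
      have := Real.log_le_log (by positivity) hx
      rwa [Real.log_rpow hT0] at this
    have hlvT : Real.log v ≤ Real.log T := Real.log_le_log (by linarith) hu
    have hx0 : 0 ≤ x := by linarith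
    have hyv : y * Real.log v = Real.log N := by
      rw [hyd]
      field_simp
    have hxy : x ≤ y := by
      rw [hyd, le_div_iff₀ hlv]
      exact (mul_le_mul_of_nonneg_left hlvT hx0).trans hlN
    have hy1 : y ≤ 1 := by
      rw [hyd, div_le_one hlv]
      exact Real.log_le_log hN0 h3
    have h5 : v ^ (η - θ y) ≤ T ^ (η - X) := by
      have h6 : v ^ (η - θ y) = Real.exp ((η - θ y) * Real.log v) := by
        rw [Real.rpow_def_of_pos (by linarith), mul_comm]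
      have h7 : T ^ (η - X) = Real.exp ((η - X) * Real.log T) := by
        rw [Real.rpow_def_of_pos hT0, mul_comm]
      rw [h6, h7, Real.exp_le_exp]
      have h8 : η * Real.log v ≤ η * Real.log T := mul_le_mul_of_nonneg_left hlvT hη.le
      have h10 : 0 < x := by linarith
      have h11 := hy y hxy hy1
      have h12 : X * (y * Real.log v) ≤ x * (θ y * Real.log v) := by
        have := mul_le_mul_of_nonneg_right h11 hlv.le
        linarith
      rw [hyv] at h12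
      have h13 : X * (x * Real.log T) ≤ X * Real.log N := mul_le_mul_of_nonneg_left hlN hX
      have h14 : x * (X * Real.log T) ≤ x * (θ y * Real.log v) := by linarith
      have h15 := le_of_mul_le_mul_left h14 h10
      linarith
    have h6 : ‖∑ n ∈ Finset.Ioc N (2 * N), (n : ℂ) ^ (-((v : ℂ) * Complex.I))‖ ≤ C2 * (N * T ^ (η - X)) :=
      h4.trans (mul_le_mul_of_nonneg_left (mul_le_mul_of_nonneg_left h5 hN0.le) hC2)
    refine h6.trans ?_
    nlinarith [mul_nonneg hC1 hA, mul_nonneg hC0 hA, mul_nonneg hC2 hA, mul_nonneg hC1 hB, mul_nonneg hC0 hB, mul_nonneg hC2 hB]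

end Pool.Agent.Lib.PR
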