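import Pool.Agent.Lib.PR.K1
import Pool.Agent.Lib.PR.K2
import Pool.Agent.Lib.MP_bc6037_nt.DivBound

/-!
# PR / K3: large values of a block by the Halász-Montgomery inequality for its square and the pointwise kernel

`D^2` is supported on `(N^2, 4 N^2]`.  If `V^4 ≥ C N^(4(1-σ)) T^(η-X)` then the set of large values has measure at most
`C T^η N^(4(1-σ))/V^4`.
-/

set_option autoImplicit false

open MeasureTheory

namespace Pool.Agent.Lib.PR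

/-- the square of a block -/
theorem sqPoly {σ η : ℝ} (hσ : 0 < σ) (hη : 0 < η) : ∃ C : ℝ, 0 ≤ C ∧
    ∀ (N : ℕ), 1 ≤ N → ∀ c : ℕ → ℂ, (∀ n : ℕ, 1 ≤ n → ‖c n‖ ≤ (n : ℝ) ^ (-σ)) →
      ∃ b : ℕ → ℂ,
        (∀ t : ℝ, (∑ n ∈ Finset.Ioc N (2 * N), c n * (n : ℂ) ^ (-((t : ℂ) * Complex.I))) ^ 2 =
          ∑ n ∈ Finset.Ioc (N ^ 2) (2 * (2 * N ^ 2)), b n * (n : ℂ) ^ (-((t : ℂ) * Complex.I))) ∧
        ∑ n ∈ Finset.Ioc (N ^ 2) (2 * (2 * N ^ 2)), ‖b n‖ ^ 2 ≤ C * (N : ℝ) ^ (2 * (1 - 2 * σ) + η) := by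
  obtain ⟨C, hC1, hdiv⟩ := Pool.Agent.Lib.MP_bc6037_nt.card_divisors_le_rpow (η := η / 4) (by positivity)
  have hC : 0 ≤ C := by linarith
  refine ⟨3 * (C * (4 : ℝ) ^ (η / 4)) ^ 2, by positivity, fun N hN c hc => ?_⟩
  have hN1 : (1 : ℝ) ≤ N := by exact_mod_cast hN
  have hN0 : (0 : ℝ) < N := by linarith
  set S : Finset (ℕ × ℕ) := Finset.Ioc N (2 * N) ×ˢ Finset.Ioc N (2 * N) with hS
  have hmem : ∀ p ∈ S, N < p.1 ∧ p.1 ≤ 2 * N ∧ N < p.2 ∧ p.2 ≤ 2 * N := by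
    intro p hp
    rw [hS, Finset.mem_product, Finset.mem_Ioc, Finset.mem_Ioc] at hp
    exact ⟨hp.1.1, hp.1.2, hp.2.1, hp.2.2⟩
  refine ⟨fun n => ∑ p ∈ S with p.1 * p.2 = n, c p.1 * c p.2, fun t => ?_, ?_⟩
  · rw [sq, Finset.sum_mul_sum, ← Finset.sum_product']
    have hmaps : ∀ p ∈ S, p.1 * p.2 ∈ Finset.Ioc (N ^ 2) (2 * (2 * N ^ 2)) := by
      intro p hp
      obtain ⟨h1, h2, h3, h4⟩ := hmem p hp
      rw [Finset.mem_Ioc]
      constructor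
      · rw [sq]
        exact Nat.mul_lt_mul'' h1 h3
      · calc p.1 * p.2 ≤ (2 * N) * (2 * N) := Nat.mul_le_mul h2 h4
          _ = 2 * (2 * N ^ 2) := by ring
    rw [← Finset.sum_fiberwise_of_maps_to hmaps]
    refine Finset.sum_congr rfl fun n _ => ?_
    rw [Finset.sum_mul]
    refine Finset.sum_congr rfl fun p hp => ?_
    rw [Finset.mem_filter] at hp
    rw [← hp.2, Nat.cast_mul, Complex.natCast_mul_natCast_cpow]
    ring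
  · have hterm : ∀ n ∈ Finset.Ioc (N ^ 2) (2 * (2 * N ^ 2)), ‖∑ p ∈ S with p.1 * p.2 = n, c p.1 * c p.2‖ ^ 2 ≤
        (C * (4 : ℝ) ^ (η / 4)) ^ 2 * (N : ℝ) ^ (-(4 * σ) + η) := by
      intro n hn
      rw [Finset.mem_Ioc] at hn
      have hn0 : 1 ≤ n := by omega
      have hnpos : (0 : ℝ) < n := by exact_mod_cast hn0
      have hnl : (N : ℝ) ^ 2 ≤ n := by exact_mod_cast hn.1.le
      have hnu : (n : ℝ) ≤ 4 * (N : ℝ) ^ 2 := by
        have h1 : ((n : ℕ) : ℝ) ≤ ((2 * (2 * N ^ 2) : ℕ) : ℝ) := by exact_mod_cast hn.2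
        push_cast at h1
        linarith
      have h1 : ∀ p ∈ S.filter (fun p => p.1 * p.2 = n), ‖c p.1 * c p.2‖ ≤ (n : ℝ) ^ (-σ) := by
        intro p hp
        rw [Finset.mem_filter] at hp
        obtain ⟨h1, h2, h3, h4⟩ := hmem p hp.1
        rw [norm_mul, ← hp.2, Nat.cast_mul, Real.mul_rpow (Nat.cast_nonneg _) (Nat.cast_nonneg _)]
        exact mul_le_mul (hc _ (by omega)) (hc _ (by omega)) (norm_nonneg _) (by positivity)
      have hcard : (((S.filter (fun p => p.1 * p.2 = n)).card : ℕ) : ℝ) ≤ C * (n : ℝ) ^ (η / 4) := by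
        refine le_trans ?_ (hdiv n (by omega))
        have h1 : (S.filter (fun p => p.1 * p.2 = n)).card ≤ n.divisorsAntidiagonal.card := by
          refine Finset.card_le_card fun p hp => ?_
          rw [Finset.mem_filter] at hp
          rw [Nat.mem_divisorsAntidiagonal]
          exact ⟨hp.2, by omega⟩
        have h2 : n.divisorsAntidiagonal.card = n.divisors.card := by
          rw [← Nat.map_div_right_divisors, Finset.card_map]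
        rw [← h2]
        exact_mod_cast h1
      have h2 : ‖∑ p ∈ S with p.1 * p.2 = n, c p.1 * c p.2‖ ≤ (C * (4 : ℝ) ^ (η / 4)) * (N : ℝ) ^ (-(2 * σ) + η / 2) := by
        calc ‖∑ p ∈ S with p.1 * p.2 = n, c p.1 * c p.2‖
            ≤ ∑ p ∈ S with p.1 * p.2 = n, ‖c p.1 * c p.2‖ := norm_sum_le _ _
          _ ≤ ∑ p ∈ S with p.1 * p.2 = n, (n : ℝ) ^ (-σ) := Finset.sum_le_sum h1
          _ = ((S.filter (fun p => p.1 * p.2 = n)).card : ℝ) * (n : ℝ) ^ (-σ) := by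
              rw [Finset.sum_const, nsmul_eq_mul]
          _ ≤ (C * (n : ℝ) ^ (η / 4)) * (n : ℝ) ^ (-σ) := mul_le_mul_of_nonneg_right hcard (by positivity)
          _ ≤ (C * (4 * (N : ℝ) ^ 2) ^ (η / 4)) * ((N : ℝ) ^ 2) ^ (-σ) := by
              refine mul_le_mul (mul_le_mul_of_nonneg_left (Real.rpow_le_rpow hnpos.le hnu (by positivity)) hC)
                (Real.rpow_le_rpow_of_nonpos (by positivity) hnl (by linarith)) (by positivity) (by positivity)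
          _ = (C * (4 : ℝ) ^ (η / 4)) * (N : ℝ) ^ (-(2 * σ) + η / 2) := by
              rw [Real.mul_rpow (by norm_num) (by positivity), ← Real.rpow_natCast (N : ℝ) 2, ← Real.rpow_mul hN0.le,
                ← Real.rpow_mul hN0.le]
              have e1 : (N : ℝ) ^ (-(2 * σ) + η / 2) = (N : ℝ) ^ (((2 : ℕ) : ℝ) * (η / 4)) * (N : ℝ) ^ (((2 : ℕ) : ℝ) * -σ) := by
                rw [← Real.rpow_add hN0]
                congr 1
                push_cast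
                ring
              rw [e1]
              ring
      calc ‖∑ p ∈ S with p.1 * p.2 = n, c p.1 * c p.2‖ ^ 2 ≤ ((C * (4 : ℝ) ^ (η / 4)) * (N : ℝ) ^ (-(2 * σ) + η / 2)) ^ 2 :=
            pow_le_pow_left₀ (norm_nonneg _) h2 2
        _ = (C * (4 : ℝ) ^ (η / 4)) ^ 2 * (N : ℝ) ^ (-(4 * σ) + η) := by
            rw [mul_pow, ← Real.rpow_natCast ((N : ℝ) ^ (-(2 * σ) + η / 2)) 2, ← Real.rpow_mul hN0.le]
            congr 2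
            push_cast
            ring
    refine (Finset.sum_le_sum hterm).trans ?_
    rw [Finset.sum_const, Nat.card_Ioc, nsmul_eq_mul, show 2 * (2 * N ^ 2) - N ^ 2 = 3 * N ^ 2 by omega]
    have e1 : (N : ℝ) ^ (2 * (1 - 2 * σ) + η) = (N : ℝ) ^ 2 * (N : ℝ) ^ (-(4 * σ) + η) := by
      rw [← Real.rpow_natCast (N : ℝ) 2, ← Real.rpow_add hN0]
      congr 1
      push_cast
      ring
    rw [e1]
    push_cast
    exact le_of_eq (by ring)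

/-- large values of a block: Halász-Montgomery for the square with the pointwise kernel -/
theorem hmSq {θ : ℝ → ℝ} (hP : PW 0 θ) {σ η : ℝ} (hσ : 0 < σ) (hη : 0 < η) : ∃ C : ℝ, 0 ≤ C ∧
    ∀ N : ℕ, 1 ≤ N → ∀ c : ℕ → ℂ, (∀ n : ℕ, 1 ≤ n → ‖c n‖ ≤ (n : ℝ) ^ (-σ)) →
      ∀ T : ℝ, 2 ≤ T → (N : ℝ) ≤ T → ∀ x X : ℝ, T ^ x = N → 0 ≤ X → X ≤ x →
        (∀ y, 2 * x ≤ y → y ≤ 1 → X * y ≤ 2 * x * θ y) →
        ∀ V : ℝ, 0 < V → C * (N : ℝ) ^ (4 * (1 - σ)) * T ^ (η - X) ≤ V ^ 4 →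
          (volume {t : ℝ | t ∈ Set.Icc T (2 * T) ∧
            V ≤ ‖∑ n ∈ Finset.Ioc N (2 * N), c n * (n : ℂ) ^ (-((t : ℂ) * Complex.I))‖}).toReal ≤
            C * T ^ η * ((N : ℝ) ^ (4 * (1 - σ)) / V ^ 4) := by
  obtain ⟨C1, hC1, hS⟩ := sqPoly hσ (show (0 : ℝ) < η / 4 by positivity)
  obtain ⟨C2, hC2, hk⟩ := kerBlock hP (show (0 : ℝ) < η / 4 by positivity)
  refine ⟨12 * C1 * C2 * (1 + 2 / η), by positivity, ?_⟩
  intro N hN c hc T hT hNT x X hx hX hXx hy V hV hCV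
  obtain ⟨b, hb1, hb2⟩ := hS N hN c hc
  have hT0 : 0 < T := by linarith
  have hT1 : 1 ≤ T := by linarith
  have hN1 : (1 : ℝ) ≤ N := by exact_mod_cast hN
  have hN0 : (0 : ℝ) < N := by linarith
  have hlT : 0 ≤ Real.log T := Real.log_nonneg hT1
  have hN2 : T ^ (2 * x) = (N : ℝ) ^ 2 := by
    rw [mul_comm, Real.rpow_mul hT0.le, hx, Real.rpow_two]
  have hT3 : T ^ (3 : ℝ) = T ^ 3 := by
    exact_mod_cast Real.rpow_natCast T 3
  have hNT2 : (N : ℝ) ^ 2 ≤ T ^ 2 := pow_le_pow_left₀ hN0.le hNT 2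
  have hTT : 2 * T ^ 2 ≤ T ^ 3 := by
    have : 2 * T ^ 2 ≤ T * T ^ 2 := mul_le_mul_of_nonneg_right hT (by positivity)
    calc 2 * T ^ 2 ≤ T * T ^ 2 := this
      _ = T ^ 3 := by ring
  have hT2p : (0 : ℝ) ≤ T ^ 2 := by positivity
  have hN2p : (0 : ℝ) < (N : ℝ) ^ 2 := by positivity
  obtain ⟨Y, hY⟩ : ∃ Y : ℝ, Y = T ^ (η / 4 - X) := ⟨_, rfl⟩
  have hY0 : 0 < Y := by
    rw [hY]
    positivity
  have hK : ∀ u : ℝ, |u| ≤ T → ‖∑ n ∈ Finset.Ioc (N ^ 2) (2 * (2 * N ^ 2)), (n : ℂ) ^ (-((u : ℂ) * Complex.I))‖ ≤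
      (3 * C2 * (N : ℝ) ^ 2) / (1 + |u|) + 3 * C2 * (N : ℝ) ^ 2 * Y := by
    intro u hu
    have h1 := hk T hT (N ^ 2) (Nat.one_le_pow _ _ (by omega)) (by push_cast; rw [hT3]; linarith) (2 * x) X
      (by push_cast; rw [hN2]) hX (by linarith) hy u hu
    have h2 := hk T hT (2 * N ^ 2) (by have := Nat.one_le_pow 2 N (by omega); omega) (by push_cast; rw [hT3]; linarith) (2 * x) X
      (by push_cast; rw [hN2]; linarith) hX (by linarith) hy u hu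
    rw [← hY] at h1 h2
    push_cast at h1 h2
    have h3 := Finset.sum_Ioc_consecutive (fun n : ℕ => (n : ℂ) ^ (-((u : ℂ) * Complex.I)))
      (show N ^ 2 ≤ 2 * N ^ 2 by omega) (show 2 * N ^ 2 ≤ 2 * (2 * N ^ 2) by omega)
    rw [← h3]
    refine (norm_add_le _ _).trans ((add_le_add h1 h2).trans (le_of_eq ?_))
    ring
  have h1 := hmK (N ^ 2) (2 * (2 * N ^ 2)) b T T (V ^ 2) (3 * C2 * (N : ℝ) ^ 2) (3 * C2 * (N : ℝ) ^ 2 * Y) hT1 (by positivity)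
    (by positivity) (by positivity) hK
  have hset : {t : ℝ | t ∈ Set.Icc T (T + T) ∧ V ^ 2 ≤ ‖∑ n ∈ Finset.Ioc (N ^ 2) (2 * (2 * N ^ 2)), b n * (n : ℂ) ^ (-((t : ℂ) * Complex.I))‖} =
      {t : ℝ | t ∈ Set.Icc T (2 * T) ∧ V ≤ ‖∑ n ∈ Finset.Ioc N (2 * N), c n * (n : ℂ) ^ (-((t : ℂ) * Complex.I))‖} := by
    ext t
    have e : ∀ z : ℂ, V ^ 2 ≤ ‖z ^ 2‖ ↔ V ≤ ‖z‖ := fun z => by
      rw [norm_pow]
      exact pow_le_pow_iff_left₀ hV.le (norm_nonneg _) (by norm_num)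
    constructor
    · rintro ⟨g1, g2⟩
      refine ⟨by rwa [two_mul], ?_⟩
      rw [← hb1 t] at g2
      exact (e _).1 g2
    · rintro ⟨g1, g2⟩
      refine ⟨by rwa [← two_mul], ?_⟩
      rw [← hb1 t]
      exact (e _).2 g2
  rw [hset] at h1
  set μ : ℝ := (volume {t : ℝ | t ∈ Set.Icc T (2 * T) ∧
    V ≤ ‖∑ n ∈ Finset.Ioc N (2 * N), c n * (n : ℂ) ^ (-((t : ℂ) * Complex.I))‖}).toReal with hμ
  have hμ0 : 0 ≤ μ := ENNReal.toReal_nonneg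
  obtain ⟨P, hP'⟩ : ∃ P : ℝ, P = (N : ℝ) ^ (4 * (1 - σ)) := ⟨_, rfl⟩
  rw [← hP'] at hCV ⊢
  have hP0 : 0 < P := by
    rw [hP']
    positivity
  obtain ⟨Z, hZ⟩ : ∃ Z : ℝ, Z = T ^ (η / 4) := ⟨_, rfl⟩
  have hZ0 : 0 < Z := by
    rw [hZ]
    positivity
  have hG : (∑ n ∈ Finset.Ioc (N ^ 2) (2 * (2 * N ^ 2)), ‖b n‖ ^ 2) * (N : ℝ) ^ 2 ≤ C1 * Z * P := by
    calc (∑ n ∈ Finset.Ioc (N ^ 2) (2 * (2 * N ^ 2)), ‖b n‖ ^ 2) * (N : ℝ) ^ 2 ≤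
        (C1 * (N : ℝ) ^ (2 * (1 - 2 * σ) + η / 4)) * (N : ℝ) ^ 2 := mul_le_mul_of_nonneg_right hb2 hN2p.le
      _ = C1 * ((N : ℝ) ^ (η / 4) * P) := by
          rw [hP', ← Real.rpow_natCast (N : ℝ) 2, mul_assoc, ← Real.rpow_add hN0, ← Real.rpow_add hN0]
          congr 2
          push_cast
          ring
      _ ≤ C1 * (Z * P) := by
          refine mul_le_mul_of_nonneg_left (mul_le_mul_of_nonneg_right ?_ hP0.le) hC1
          rw [hZ]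
          exact Real.rpow_le_rpow hN0.le hNT (by positivity)
      _ = C1 * Z * P := by ring
  have hYZ : Z * Y ≤ T ^ (η - X) := by
    rw [hZ, hY, ← Real.rpow_add hT0]
    exact Real.rpow_le_rpow_of_exponent_le hT1 (by linarith)
  have hlog : 1 + Real.log T ≤ (1 + 2 / η) * T ^ (η / 2) := by
    have h2 : Real.log T ≤ T ^ (η / 2) / (η / 2) := Real.log_le_rpow_div hT0.le (by positivity)
    have h3 : 1 ≤ T ^ (η / 2) := Real.one_le_rpow hT1 (by positivity)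
    have h4 : (1 + 2 / η) * T ^ (η / 2) = T ^ (η / 2) + T ^ (η / 2) / (η / 2) := by
      field_simp
    rw [h4]
    linarith
  have hZ2 : T ^ (η / 2) * Z ≤ T ^ η := by
    rw [hZ, ← Real.rpow_add hT0]
    exact Real.rpow_le_rpow_of_exponent_le hT1 (by linarith)
  have h12 : 0 ≤ C1 * C2 := mul_nonneg hC1 hC2
  have hA1 : (∑ n ∈ Finset.Ioc (N ^ 2) (2 * (2 * N ^ 2)), ‖b n‖ ^ 2) * (2 * (1 + Real.log T) * (3 * C2 * (N : ℝ) ^ 2)) ≤
      6 * C1 * C2 * (1 + 2 / η) * T ^ η * P := by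
    calc (∑ n ∈ Finset.Ioc (N ^ 2) (2 * (2 * N ^ 2)), ‖b n‖ ^ 2) * (2 * (1 + Real.log T) * (3 * C2 * (N : ℝ) ^ 2)) =
          6 * C2 * (1 + Real.log T) * ((∑ n ∈ Finset.Ioc (N ^ 2) (2 * (2 * N ^ 2)), ‖b n‖ ^ 2) * (N : ℝ) ^ 2) := by ring
      _ ≤ 6 * C2 * ((1 + 2 / η) * T ^ (η / 2)) * (C1 * Z * P) := by
          refine mul_le_mul (mul_le_mul_of_nonneg_left hlog (by positivity)) hG
            (mul_nonneg (Finset.sum_nonneg fun n _ => by positivity) hN2p.le) (by positivity)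
      _ = 6 * C1 * C2 * (1 + 2 / η) * P * (T ^ (η / 2) * Z) := by ring
      _ ≤ 6 * C1 * C2 * (1 + 2 / η) * P * T ^ η := mul_le_mul_of_nonneg_left hZ2 (by positivity)
      _ = _ := by ring
  have hA2 : (∑ n ∈ Finset.Ioc (N ^ 2) (2 * (2 * N ^ 2)), ‖b n‖ ^ 2) * (3 * C2 * (N : ℝ) ^ 2 * Y * μ) ≤ V ^ 4 / 2 * μ := by
    have h2 : (∑ n ∈ Finset.Ioc (N ^ 2) (2 * (2 * N ^ 2)), ‖b n‖ ^ 2) * (3 * C2 * (N : ℝ) ^ 2 * Y) ≤ V ^ 4 / 2 := by
      calc (∑ n ∈ Finset.Ioc (N ^ 2) (2 * (2 * N ^ 2)), ‖b n‖ ^ 2) * (3 * C2 * (N : ℝ) ^ 2 * Y) =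
            3 * C2 * Y * ((∑ n ∈ Finset.Ioc (N ^ 2) (2 * (2 * N ^ 2)), ‖b n‖ ^ 2) * (N : ℝ) ^ 2) := by ring
        _ ≤ 3 * C2 * Y * (C1 * Z * P) := mul_le_mul_of_nonneg_left hG (by positivity)
        _ = 3 * (C1 * C2) * P * (Z * Y) := by ring
        _ ≤ 3 * (C1 * C2) * P * T ^ (η - X) := mul_le_mul_of_nonneg_left hYZ (by positivity)
        _ ≤ (12 * C1 * C2 * (1 + 2 / η) * P * T ^ (η - X)) / 2 := by
            have h3 : 0 ≤ 2 / η := by positivity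
            have h4 : 0 ≤ (C1 * C2) * (P * T ^ (η - X)) := by positivity
            nlinarith [mul_nonneg h4 h3]
        _ ≤ V ^ 4 / 2 := by linarith
    calc (∑ n ∈ Finset.Ioc (N ^ 2) (2 * (2 * N ^ 2)), ‖b n‖ ^ 2) * (3 * C2 * (N : ℝ) ^ 2 * Y * μ) =
          ((∑ n ∈ Finset.Ioc (N ^ 2) (2 * (2 * N ^ 2)), ‖b n‖ ^ 2) * (3 * C2 * (N : ℝ) ^ 2 * Y)) * μ := by ring
      _ ≤ V ^ 4 / 2 * μ := mul_le_mul_of_nonneg_right h2 hμ0
  have h4 : V ^ 4 * μ ≤ 6 * C1 * C2 * (1 + 2 / η) * T ^ η * P + V ^ 4 / 2 * μ := by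
    calc V ^ 4 * μ = (V ^ 2) ^ 2 * μ := by ring
      _ ≤ _ := h1
      _ = (∑ n ∈ Finset.Ioc (N ^ 2) (2 * (2 * N ^ 2)), ‖b n‖ ^ 2) * (2 * (1 + Real.log T) * (3 * C2 * (N : ℝ) ^ 2)) +
          (∑ n ∈ Finset.Ioc (N ^ 2) (2 * (2 * N ^ 2)), ‖b n‖ ^ 2) * (3 * C2 * (N : ℝ) ^ 2 * Y * μ) := by ring
      _ ≤ _ := add_le_add hA1 hA2
  have hV4 : 0 < V ^ 4 := by positivity
  rw [mul_div_assoc', le_div_iff₀ hV4]
  linarith

end Pool.Agent.Lib.PR
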