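import Pool.Agent.Lib.PR.OH
import Pool.Agent.Lib.PR.K4
import Pool.Agent.Lib.PR.Z3
import Pool.Agent.Lib.PR.ZH

/-!
# PR / K5: the arithmetic of the exponents with the pointwise kernel for the square, all `k ≥ 18`

`HK k q = (k + q^3 + q - 4)/(q(q+1))`.  On `[1/Q, 1/(Q-1)]`, `Q ≥ 5`, let `R = ⌈Q/2⌉`.  If `4 s + e ≤ 2a/(R(R+1))` the square of the block is
used with the pointwise kernel of length `N^2`, otherwise the power `R` with Halász-Montgomery-Huxley.
-/

set_option autoImplicit false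

namespace Pool.Agent.Lib.PR

/-- the corner value at `(q+1)/(q^2+1)` -/
noncomputable def HK (k : ℝ) (q : ℕ) : ℝ := (k + (q : ℝ) ^ 3 + q - 4) / ((q : ℝ) * (q + 1))

/-- `m` is at most all the corner values -/
def RecK (k m : ℝ) : Prop :=
  m ≤ (k + 30) / 12 ∧ m ≤ (k + 56) / 18 ∧ m ≤ (k + 66) / 20 ∧ ∀ q : ℕ, 5 ≤ q → m ≤ HK k q

/-- the kernel case: `1/R ≤ 2a` and `4 s + e ≤ 2a/(R(R+1))` -/
def KerC (k a s e : ℝ) : Prop :=
  ∃ R : ℕ, 3 ≤ R ∧ (R : ℝ) + 1 ≤ k ∧ 1 ≤ 2 * (R : ℝ) * a ∧ 4 * s + e ≤ 2 * a / ((R : ℝ) * (R + 1))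

/-- the conclusion of the arithmetic -/
def ConclK (k m a s e : ℝ) : Prop :=
  Concl k m a s e ∨ (4 * s ≤ 1 + k * s - a * m + k * e ∧ KerC k a s e)

/-- the savings are at least `y/(R(R+1))` for `y ≥ 1/R` -/
theorem sav_ge {K R : ℕ} {y : ℝ} (hR : 3 ≤ R) (hRK : R + 1 ≤ K) (h1 : 1 ≤ (R : ℝ) * y) (h2 : y ≤ 1) :
    y / ((R : ℝ) * (R + 1)) ≤ max (thv 8 y) (thh K y) := by
  have hR3 : (3 : ℝ) ≤ R := by exact_mod_cast hR
  have hy0 : 0 < y := by
    by_contra h
    have : (R : ℝ) * y ≤ 0 := mul_nonpos_of_nonneg_of_nonpos (by linarith) (not_lt.1 h)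
    linarith
  have h12 : y / ((R : ℝ) * (R + 1)) ≤ y / 12 := div_le_div_of_nonneg_left hy0.le (by norm_num) (by nlinarith)
  rcases le_total (2 / 3) y with h | h
  · refine le_max_of_le_left (h12.trans ?_)
    have n0 : nu 0 = 1 := by unfold nu; norm_num
    have k0 : kp 0 = 1 / 2 := by unfold kp; norm_num
    have := le_thv (show 0 < 8 by norm_num) (a := y) (by rw [n0]; push_cast; linarith)
    rw [k0] at this
    push_cast at this
    linarith
  rcases le_or_gt (1 / 2) y with h' | h'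
  · refine le_max_of_le_left (h12.trans ?_)
    have n1 : nu 1 = 1 / 2 := by unfold nu; norm_num
    have k1 : kp 1 = 1 / 6 := by unfold kp; norm_num
    have := le_thv (show 1 < 8 by norm_num) (a := y) (by rw [n1]; push_cast; linarith)
    rw [k1] at this
    push_cast at this
    linarith
  · refine le_max_of_le_right ?_
    obtain ⟨P, hP⟩ : ∃ P : ℕ, P = ⌈1 / y⌉₊ := ⟨_, rfl⟩
    have e1 : 1 / y ≤ P := by
      rw [hP]
      exact Nat.le_ceil _
    have e2 : (P : ℝ) < 1 / y + 1 := by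
      rw [hP]
      exact Nat.ceil_lt_add_one (by positivity)
    have e3 : P ≤ R := by
      rw [hP]
      refine Nat.ceil_le.2 ?_
      rw [div_le_iff₀ hy0]
      exact h1
    have e4 : 3 ≤ P := by
      have h3 : (2 : ℝ) < P := by
        refine lt_of_lt_of_le ?_ e1
        rw [lt_div_iff₀ hy0]
        linarith
      have h4 : 2 < P := by exact_mod_cast h3
      omega
    have hP3 : (3 : ℝ) ≤ P := by exact_mod_cast e4
    have hPR : (P : ℝ) ≤ R := by exact_mod_cast e3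
    have e5 : 1 ≤ (P : ℝ) * y := by
      rwa [div_le_iff₀ hy0] at e1
    have e6 : (P : ℝ) * y ≤ 1 + y := by
      have : (P : ℝ) * y ≤ (1 / y + 1) * y := mul_le_mul_of_nonneg_right e2.le hy0.le
      have e : (1 / y + 1) * y = 1 + y := by
        field_simp
      linarith
    have e7 := hb_flat (q := P + 1) (a := y) (by omega) (by push_cast; linarith) (by
      push_cast
      nlinarith)
    have e8 := le_thh (n := K) (q := P + 1) (by omega) (by omega) y
    push_cast at e7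
    have e9 : y / ((R : ℝ) * (R + 1)) ≤ y / (((P : ℝ) + 1) * ((P : ℝ) + 1 - 1)) := by
      refine div_le_div_of_nonneg_left hy0.le (by nlinarith) ?_
      nlinarith
    linarith

/-- the interval `[1/Q, 1/(Q-1)]` -/
theorem okMain {k m a s e : ℝ} (Q : ℕ) (hQ : 5 ≤ Q) (hk : 3 * ((Q : ℝ) + 1) ≤ k) (he : 0 ≤ e) (hm : m ≤ HK k Q)
    (hm2 : m * ((Q : ℝ) * (Q - 1)) ≤ k - 4 + (Q : ℝ) * (Q - 1) ^ 2)
    (hm3 : ∀ R : ℝ, 2 * R = ((2 * ((Q + 1) / 2) : ℕ) : ℝ) → m ≤ (Q : ℝ) - 1 + (k - 2 * R) / (2 * R * (R + 1)))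
    (l1 : 1 / (Q : ℝ) ≤ a) (l2 : a ≤ 1 / ((Q : ℝ) - 1)) (hs1 : hb (Q + 1) a - e ≤ s) (hs2 : hb Q a - e ≤ s) :
    ConclK k m a s e := by
  have hQ5 : (5 : ℝ) ≤ Q := by exact_mod_cast hQ
  have hQ0 : (0 : ℝ) < Q := by linarith
  have hQ1 : (0 : ℝ) < Q - 1 := by linarith
  have ha : 0 < a := lt_of_lt_of_le (by positivity) l1
  obtain ⟨R, p, hR, hRp, hp1, hR3⟩ : ∃ R p : ℕ, R = (Q + 1) / 2 ∧ 2 * R = Q + p ∧ p ≤ 1 ∧ 3 ≤ R :=
    ⟨(Q + 1) / 2, Q % 2, rfl, by omega, by omega, by omega⟩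
  have hRp' : 2 * (R : ℝ) = Q + p := by exact_mod_cast hRp
  have hp : (0 : ℝ) ≤ p := Nat.cast_nonneg p
  have hp1' : (p : ℝ) ≤ 1 := by exact_mod_cast hp1
  have hR3' : (3 : ℝ) ≤ R := by exact_mod_cast hR3
  have hm3' := hm3 R (by rw [← hR]; push_cast; ring)
  have hQa : 1 ≤ (Q : ℝ) * a := by
    rw [div_le_iff₀ hQ0] at l1
    linarith
  have hQa1 : ((Q : ℝ) - 1) * a ≤ 1 := by
    rw [le_div_iff₀ hQ1] at l2
    linarith
  rcases le_or_gt (4 * s + e) (2 * a / ((R : ℝ) * (R + 1))) with hX | hX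
  · -- the kernel case
    refine Or.inr ⟨?_, R, hR3, by linarith, by nlinarith, hX⟩
    have hm' : m * ((Q : ℝ) * (Q + 1)) ≤ k + (Q : ℝ) ^ 3 + Q - 4 := by
      unfold HK at hm
      rwa [le_div_iff₀ (by positivity)] at hm
    rcases le_total a (((Q : ℝ) + 1) / ((Q : ℝ) ^ 2 + 1)) with h | h
    · have h2 : ((Q + 1 : ℕ) : ℝ) * a ≤ 2 := by
        push_cast
        have : ((Q : ℝ) + 1) * a ≤ (Q + 1) * (((Q : ℝ) + 1) / ((Q : ℝ) ^ 2 + 1)) := mul_le_mul_of_nonneg_left h (by linarith)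
        refine this.trans ?_
        rw [mul_div_assoc', div_le_iff₀ (by positivity)]
        nlinarith [sq_nonneg ((Q : ℝ) - 1)]
      have h3 := hb_flat (q := Q + 1) (by omega) (by push_cast; linarith) h2
      have hs' : 1 / ((Q : ℝ) * (Q + 1)) * a - e ≤ s := by
        have e1 : 1 / ((Q : ℝ) * (Q + 1)) * a = a / (((Q + 1 : ℕ) : ℝ) * (((Q + 1 : ℕ) : ℝ) - 1)) := by
          push_cast
          rw [one_div, div_eq_inv_mul]
          ring_nf
        linarith
      have h4 : (k - 4) * (1 / ((Q : ℝ) * (Q + 1)) * a - e) ≤ (k - 4) * s := mul_le_mul_of_nonneg_left hs' (by linarith)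
      have h5 := lin_between (A := 1) (B := (k - 4) * (1 / ((Q : ℝ) * (Q + 1))) - m) l1 h
        (by
          have e1 : 1 + ((k - 4) * (1 / ((Q : ℝ) * (Q + 1))) - m) * (1 / (Q : ℝ)) =
              ((Q : ℝ) ^ 2 * (Q + 1) + (k - 4) - m * (Q * (Q + 1))) / ((Q : ℝ) ^ 2 * (Q + 1)) := by
            field_simp
            ring
          rw [e1]
          refine div_nonneg ?_ (by positivity)
          nlinarith [mul_self_nonneg (Q : ℝ)])
        (by
          have e1 : 1 + ((k - 4) * (1 / ((Q : ℝ) * (Q + 1))) - m) * (((Q : ℝ) + 1) / ((Q : ℝ) ^ 2 + 1)) =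
              ((Q : ℝ) ^ 3 + Q + (k - 4) - m * (Q * (Q + 1))) / ((Q : ℝ) * ((Q : ℝ) ^ 2 + 1)) := by
            field_simp
            ring
          rw [e1]
          refine div_nonneg ?_ (by positivity)
          linarith)
      nlinarith
    · have h3 := hb_rise (q := Q) (by omega) hQa1
      have hs' : 1 / ((Q : ℝ) - 1) * a + (-(1 / ((Q : ℝ) * (Q - 1)))) - e ≤ s := by
        have e1 : 1 / ((Q : ℝ) - 1) * a + (-(1 / ((Q : ℝ) * (Q - 1)))) = ((Q : ℝ) * a - 1) / ((Q : ℝ) * (Q - 1)) := by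
          field_simp
          ring
        linarith
      have h4 : (k - 4) * (1 / ((Q : ℝ) - 1) * a + (-(1 / ((Q : ℝ) * (Q - 1)))) - e) ≤ (k - 4) * s :=
        mul_le_mul_of_nonneg_left hs' (by linarith)
      have h5 := lin_between (A := 1 + (k - 4) * (-(1 / ((Q : ℝ) * (Q - 1))))) (B := (k - 4) * (1 / ((Q : ℝ) - 1)) - m) h l2
        (by
          have e1 : 1 + (k - 4) * (-(1 / ((Q : ℝ) * (Q - 1)))) + ((k - 4) * (1 / ((Q : ℝ) - 1)) - m) * (((Q : ℝ) + 1) / ((Q : ℝ) ^ 2 + 1)) =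
              ((Q : ℝ) ^ 3 + Q + (k - 4) - m * (Q * (Q + 1))) / ((Q : ℝ) * ((Q : ℝ) ^ 2 + 1)) := by
            field_simp
            ring
          rw [e1]
          refine div_nonneg ?_ (by positivity)
          linarith)
        (by
          have e1 : 1 + (k - 4) * (-(1 / ((Q : ℝ) * (Q - 1)))) + ((k - 4) * (1 / ((Q : ℝ) - 1)) - m) * (1 / ((Q : ℝ) - 1)) =
              ((Q : ℝ) * (Q - 1) ^ 2 + (k - 4) - m * (Q * (Q - 1))) / ((Q : ℝ) * ((Q : ℝ) - 1) ^ 2) := by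
            field_simp
            ring
          rw [e1]
          refine div_nonneg ?_ (by positivity)
          linarith)
      nlinarith
  · -- the power `R`
    refine Or.inl ?_
    obtain ⟨c, hc⟩ : ∃ c : ℝ, c = 1 / (2 * (R : ℝ) * (R + 1)) := ⟨_, rfl⟩
    have hc0 : 0 < c := by
      rw [hc]
      positivity
    have hs' : c * a + 0 - e ≤ s := by
      have e1 : c * a = (2 * a / ((R : ℝ) * (R + 1))) / 4 := by
        rw [hc]
        field_simp
        ring
      linarith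
    have hm4 : m ≤ (Q : ℝ) - 1 + (k - 2 * R) * c := by
      rw [hc]
      calc m ≤ _ := hm3'
        _ = _ := by ring
    have hc1 : 4 * (R : ℝ) * c ≤ 1 := by
      rw [hc, mul_one_div, div_le_one (by positivity)]
      nlinarith
    have hcr : m - 2 * R ≤ (k - 6 * R) * c := by
      linarith
    have hk6 : 6 * (R : ℝ) ≤ k := by linarith
    refine concl_lin R c 0 (1 / (Q : ℝ)) (1 / ((Q : ℝ) - 1)) hk6 he hs' l1 l2 ?_ ?_ ?_ ?_
    · have h5 : m ≤ (Q : ℝ) + (k - 2 * R) * c := by linarith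
      have h6 := mul_le_mul_of_nonneg_left h5 (show 0 ≤ 1 / (Q : ℝ) by positivity)
      have e1 : 1 / (Q : ℝ) * (Q + (k - 2 * R) * c) = 1 + (k - 2 * R) * (c * (1 / (Q : ℝ)) + 0) := by
        field_simp
        ring
      linarith
    · have h6 := mul_le_mul_of_nonneg_left hm4 (show 0 ≤ 1 / ((Q : ℝ) - 1) by positivity)
      have e1 : 1 / ((Q : ℝ) - 1) * ((Q : ℝ) - 1 + (k - 2 * R) * c) = 1 + (k - 2 * R) * (c * (1 / ((Q : ℝ) - 1)) + 0) := by
        field_simp
        ring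
      linarith
    · have := mul_le_mul_of_nonneg_left hcr (show 0 ≤ 1 / (Q : ℝ) by positivity)
      linarith
    · have := mul_le_mul_of_nonneg_left hcr (show 0 ≤ 1 / ((Q : ℝ) - 1) by positivity)
      linarith

theorem HK_two {k m : ℝ} (Q : ℕ) (hQ : 6 ≤ Q) (hm : m ≤ HK k (Q - 1)) :
    m * ((Q : ℝ) * (Q - 1)) ≤ k - 4 + (Q : ℝ) * (Q - 1) ^ 2 := by
  obtain ⟨R, rfl⟩ : ∃ R, Q = R + 1 := ⟨Q - 1, by omega⟩
  have hR : (5 : ℝ) ≤ R := by exact_mod_cast (by omega : 5 ≤ R)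
  rw [Nat.add_sub_cancel] at hm
  unfold HK at hm
  rw [le_div_iff₀ (by positivity)] at hm
  push_cast
  nlinarith [mul_self_nonneg (R : ℝ)]

theorem HK_three {k m : ℝ} (Q : ℕ) (hQ : 6 ≤ Q) (hk : 0 ≤ k) (hm : m ≤ HK k (Q - 1)) (R : ℝ)
    (hR : 2 * R = ((2 * ((Q + 1) / 2) : ℕ) : ℝ)) : m ≤ (Q : ℝ) - 1 + (k - 2 * R) / (2 * R * (R + 1)) := by
  rcases Nat.even_or_odd' Q with ⟨n, hn | hn⟩
  · have hn3 : 3 ≤ n := by omega
    have e1 : R = n := by
      have : (Q + 1) / 2 = n := by omega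
      rw [this] at hR
      push_cast at hR
      linarith
    have hn' : (3 : ℝ) ≤ n := by exact_mod_cast hn3
    have e2 : ((Q - 1 : ℕ) : ℝ) = 2 * n - 1 := by
      rw [hn, Nat.cast_sub (by omega)]
      push_cast
      ring
    have e3 : (Q : ℝ) = 2 * n := by exact_mod_cast hn
    unfold HK at hm
    rw [e2] at hm
    refine hm.trans ?_
    rw [e1, e3]
    have e4 : 2 * (n : ℝ) - 1 + (k - 2 * n) / (2 * n * (n + 1)) = ((2 * (n : ℝ) - 1) * (2 * n * (n + 1)) + (k - 2 * n)) / (2 * n * (n + 1)) := by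
      field_simp
    rw [e4, div_le_div_iff₀ (by nlinarith) (by positivity)]
    obtain ⟨x, hx⟩ : ∃ x : ℝ, x = n - 3 := ⟨_, rfl⟩
    have hx0 : 0 ≤ x := by linarith
    have hnx : (n : ℝ) = x + 3 := by linarith
    rw [hnx]
    have hkx : 0 ≤ k * x := mul_nonneg hk hx0
    have hkx2 : 0 ≤ k * x ^ 2 := by positivity
    have p1 : 0 ≤ x ^ 2 := by positivity
    have p2 : 0 ≤ x ^ 3 := by positivity
    have p3 : 0 ≤ x ^ 4 := by positivity
    nlinarith
  · have hn3 : 3 ≤ n := by omega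
    have e1 : R = n + 1 := by
      have : (Q + 1) / 2 = n + 1 := by omega
      rw [this] at hR
      push_cast at hR
      linarith
    have hn' : (3 : ℝ) ≤ n := by exact_mod_cast hn3
    have e2 : ((Q - 1 : ℕ) : ℝ) = 2 * n := by
      rw [hn, Nat.cast_sub (by omega)]
      push_cast
      ring
    have e3 : (Q : ℝ) = 2 * n + 1 := by exact_mod_cast hn
    unfold HK at hm
    rw [e2] at hm
    refine hm.trans ?_
    rw [e1, e3]
    have e4 : 2 * (n : ℝ) + 1 - 1 + (k - 2 * (n + 1)) / (2 * (n + 1) * (n + 1 + 1)) =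
        (2 * (n : ℝ) * (2 * (n + 1) * (n + 1 + 1)) + (k - 2 * (n + 1))) / (2 * (n + 1) * (n + 1 + 1)) := by
      field_simp
      ring
    rw [e4, div_le_div_iff₀ (by nlinarith) (by positivity)]
    obtain ⟨x, hx⟩ : ∃ x : ℝ, x = n - 3 := ⟨_, rfl⟩
    have hx0 : 0 ≤ x := by linarith
    have hnx : (n : ℝ) = x + 3 := by linarith
    rw [hnx]
    have hkx : 0 ≤ k * x := mul_nonneg hk hx0
    have hkx2 : 0 ≤ k * x ^ 2 := by positivity
    have p1 : 0 ≤ x ^ 2 := by positivity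
    have p2 : 0 ≤ x ^ 3 := by positivity
    have p3 : 0 ≤ x ^ 4 := by positivity
    nlinarith

/-- the arithmetic of the exponents -/
theorem optK {k m a s e : ℝ} (hk : 18 ≤ k) (hR : RecK k m) (ha0 : 0 ≤ a) (ha1 : a ≤ 1) (he : 0 ≤ e) (hs0 : -e ≤ s)
    (hv : ∀ q : ℕ, q ≤ 3 → a * ((q : ℝ) + nu q) ≤ 1 → kp q * (((q : ℝ) + 2) * a - 1) - e ≤ s)
    (hh : ∀ q : ℕ, 4 ≤ q → (q : ℝ) ≤ k → hb q a - e ≤ s) : ConclK k m a s e := by
  obtain ⟨g1, g2, g3, g4⟩ := hR
  have n0 : nu 0 = 1 := by unfold nu; norm_num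
  have n1 : nu 1 = 1 / 2 := by unfold nu; norm_num
  have n2 : nu 2 = 1 / 4 := by unfold nu; norm_num
  have n3 : nu 3 = 1 / 8 := by unfold nu; norm_num
  have k0 : kp 0 = 1 / 2 := by unfold kp; norm_num
  have k1 : kp 1 = 1 / 6 := by unfold kp; norm_num
  have k2 : kp 2 = 1 / 14 := by unfold kp; norm_num
  have k3 : kp 3 = 1 / 30 := by unfold kp; norm_num
  rcases le_total (2 / 3) a with h | h
  · have hs := hv 0 (by norm_num) (by rw [n0]; push_cast; linarith)
    rw [k0] at hs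
    push_cast at hs
    refine Or.inl (concl_lin 2 1 (-1 / 2) (2 / 3) 1 (by push_cast; linarith) he (by linarith) h ha1 ?_ ?_ ?_ ?_) <;>
      push_cast <;> linarith
  have h' := h
  rcases le_total (4 / 9) a with h | h
  · have hs := hv 1 (by norm_num) (by rw [n1]; push_cast; linarith)
    rw [k1] at hs
    push_cast at hs
    refine Or.inl (concl_lin 2 (1 / 2) (-1 / 6) (4 / 9) (2 / 3) (by push_cast; linarith) he (by linarith) h h' ?_ ?_ ?_ ?_) <;>
      push_cast <;> linarith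
  clear h'
  have h' := h
  rcases le_total (6 / 17) a with h | h
  · have hs := hv 2 (by norm_num) (by rw [n2]; push_cast; linarith)
    rw [k2] at hs
    push_cast at hs
    refine Or.inl (concl_lin 2 (2 / 7) (-1 / 14) (6 / 17) (4 / 9) (by push_cast; linarith) he (by linarith) h h' ?_ ?_ ?_ ?_) <;>
      push_cast <;> linarith
  clear h'
  have h' := h
  rcases le_total (1 / 3) a with h | h
  · have hs1 := hb_flat (q := 4) (a := a) (by norm_num) (by push_cast; linarith) (by push_cast; linarith)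
    have hs2 := hh 4 le_rfl (by push_cast; linarith)
    push_cast at hs1 hs2
    refine Or.inl (concl_lin 2 (1 / 12) 0 (1 / 3) (6 / 17) (by push_cast; linarith) he (by linarith) h h' ?_ ?_ ?_ ?_) <;>
      push_cast <;> linarith
  clear h'
  have h' := h
  rcases le_total (3 / 10) a with h | h
  · have hs1 := hb_rise (q := 4) (a := a) (by norm_num) (by push_cast; linarith)
    have hs2 := hh 4 le_rfl (by push_cast; linarith)
    push_cast at hs1 hs2
    refine Or.inl (concl_lin 2 (1 / 3) (-1 / 12) (3 / 10) (1 / 3) (by push_cast; linarith) he (by linarith) h h' ?_ ?_ ?_ ?_) <;>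
      push_cast <;> linarith
  clear h'
  have h' := h
  rcases le_total (2 / 7) a with h | h
  · have hs := hv 3 (by norm_num) (by rw [n3]; push_cast; linarith)
    rw [k3] at hs
    push_cast at hs
    refine Or.inl (concl_lin 2 (1 / 6) (-1 / 30) (2 / 7) (3 / 10) (by push_cast; linarith) he (by linarith) h h' ?_ ?_ ?_ ?_) <;>
      push_cast <;> linarith
  clear h'
  have h' := h
  rcases le_total (1 / 4) a with h | h
  · have hs1 := hb_flat (q := 5) (a := a) (by norm_num) (by push_cast; linarith) (by push_cast; linarith)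
    have hs2 := hh 5 (by norm_num) (by push_cast; linarith)
    push_cast at hs1 hs2
    refine Or.inl (concl_lin 2 (1 / 20) 0 (1 / 4) (2 / 7) (by push_cast; linarith) he (by linarith) h h' ?_ ?_ ?_ ?_) <;>
      push_cast <;> linarith
  clear h'
  have h' := h
  -- now `a ≤ 1/4`
  have hM1 : m ≤ (⌈m⌉₊ : ℝ) := Nat.le_ceil m
  rcases le_or_gt (a * (⌈m⌉₊ : ℝ)) 1 with h1 | h1
  · have hM2 : (⌈m⌉₊ : ℝ) ≤ max m 0 + 1 := by
      rcases le_total m 0 with h2 | h2
      · rw [Nat.ceil_eq_zero.2 h2, Nat.cast_zero]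
        linarith [le_max_right m 0]
      · rw [max_eq_left h2]
        exact (Nat.ceil_lt_add_one h2).le
    have hM3 : max m 0 ≤ (k + 30) / 12 := max_le g1 (by linarith)
    exact Or.inl (concl_mv ⌈m⌉₊ (by linarith) he ha0 hs0 hM1 h1)
  have ha : 0 < a := by
    rcases ha0.eq_or_lt with h2 | h2
    · rw [← h2, zero_mul] at h1
      linarith
    · exact h2
  have hm0 : 0 < m := by
    by_contra h2
    rw [Nat.ceil_eq_zero.2 (not_lt.1 h2), Nat.cast_zero, mul_zero] at h1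
    linarith
  have hM2 : (⌈m⌉₊ : ℝ) < m + 1 := Nat.ceil_lt_add_one hm0.le
  obtain ⟨Q, hQ⟩ : ∃ Q : ℕ, Q = ⌊1 / a⌋₊ + 1 := ⟨_, rfl⟩
  have h2 : 1 / a < Q := by
    rw [hQ]
    push_cast
    exact Nat.lt_floor_add_one _
  have h3 : (Q : ℝ) - 1 ≤ 1 / a := by
    rw [hQ]
    push_cast
    have := Nat.floor_le (show 0 ≤ 1 / a by positivity)
    linarith
  have h4 : 1 / a < (⌈m⌉₊ : ℝ) := by
    rw [div_lt_iff₀ ha]
    linarith
  have h5 : Q ≤ ⌈m⌉₊ := by
    have : (Q : ℝ) < (⌈m⌉₊ : ℝ) + 1 := by linarith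
    have h6 : Q < ⌈m⌉₊ + 1 := by exact_mod_cast this
    omega
  have h6 : (Q : ℝ) ≤ m + 1 := by
    have : (Q : ℝ) ≤ (⌈m⌉₊ : ℝ) := by exact_mod_cast h5
    linarith
  have h7 : 5 ≤ Q := by
    have e1 : (4 : ℝ) ≤ 1 / a := by
      rw [le_div_iff₀ ha]
      linarith
    have e2 : 4 ≤ ⌊1 / a⌋₊ := Nat.le_floor (by exact_mod_cast e1)
    omega
  have hQ5 : (5 : ℝ) ≤ Q := by exact_mod_cast h7
  have l1 : 1 / (Q : ℝ) ≤ a := by
    rw [div_le_iff₀ (by linarith)]
    rw [div_lt_iff₀ ha] at h2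
    linarith
  have l2 : a ≤ 1 / ((Q : ℝ) - 1) := by
    rw [le_div_iff₀ (by linarith)]
    rw [le_div_iff₀ ha] at h3
    linarith
  have hk3 : 3 * ((Q : ℝ) + 1) ≤ k := by linarith
  have s1 := hh (Q + 1) (by omega) (by push_cast; linarith)
  have s2 := hh Q (by omega) (by linarith)
  rcases h7.eq_or_lt with h9 | h9
  · subst h9
    have g5 := g4 5 le_rfl
    unfold HK at g5
    refine okMain 5 le_rfl hk3 he (g4 5 le_rfl) (by push_cast; linarith) ?_ l1 l2 s1 s2
    intro R hR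
    norm_num at hR
    have hR3 : R = 3 := by linarith
    rw [hR3]
    push_cast at g5 ⊢
    norm_num at g5 ⊢
    linarith
  · exact okMain Q h7 hk3 he (g4 Q h7) (HK_two Q h9 (g4 (Q - 1) (by omega)))
      (fun R hR => HK_three Q h9 (by linarith) (g4 (Q - 1) (by omega)) R hR) l1 l2 s1 s2

end Pool.Agent.Lib.PR
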