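import Pool.Agent.Lib.PR.BO
import Pool.Agent.Lib.PR.K5

/-!
# PR / KBO: the arithmetic of the exponents for the mean square with the pointwise kernel for the square, all `k ≥ 9`

`HKB k q = (k + q^3 + q - 2)/(q(q+1))`.  On `[1/Q, 1/(Q-1)]`, `Q ≥ 5`, let `R = ⌈Q/2⌉`.  If `4 s + e ≤ 2a/(R(R+1))` the square of the block
is used with the pointwise kernel of length `N^2`, otherwise the power `R` with Halász-Montgomery-Huxley.
-/

set_option autoImplicit false

namespace Pool.Agent.Lib.PR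

/-- the corner value at `(q+1)/(q^2+1)` for the mean square, pointwise kernel -/
noncomputable def HKB (k : ℝ) (q : ℕ) : ℝ := (k + (q : ℝ) ^ 3 + q - 2) / ((q : ℝ) * (q + 1))

/-- `m` is at most all the corner values -/
def RecKB (k m : ℝ) : Prop :=
  m ≤ (k + 4) / 4 ∧ m ≤ (k + 16) / 8 ∧ m ≤ (k + 32) / 12 ∧ m ≤ (k + 58) / 18 ∧ m ≤ (k + 68) / 20 ∧
    ∀ q : ℕ, 5 ≤ q → m ≤ HKB k q

/-- the conclusion of the arithmetic -/
def ConclKB (k m a s e : ℝ) : Prop :=
  ConclB k m a s e ∨ (4 * s ≤ 2 + 2 * k * s - 2 * a * m + 2 * k * e ∧ KerC k a s e)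

/-- the interval `[1/Q, 1/(Q-1)]` -/
theorem okMainB {k m a s e : ℝ} (Q : ℕ) (hQ : 5 ≤ Q) (hk : 3 * ((Q : ℝ) + 1) ≤ 2 * k) (he : 0 ≤ e) (hm : m ≤ HKB k Q)
    (hm2 : m * ((Q : ℝ) * (Q - 1)) ≤ k - 2 + (Q : ℝ) * (Q - 1) ^ 2)
    (hm3 : ∀ R : ℝ, 2 * R = ((2 * ((Q + 1) / 2) : ℕ) : ℝ) → m ≤ (Q : ℝ) - 1 + (k - R) / (2 * R * (R + 1)))
    (l1 : 1 / (Q : ℝ) ≤ a) (l2 : a ≤ 1 / ((Q : ℝ) - 1)) (hs1 : hb (Q + 1) a - e ≤ s) (hs2 : hb Q a - e ≤ s) :
    ConclKB k m a s e := by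
  have hQ5 : (5 : ℝ) ≤ Q := by exact_mod_cast hQ
  have hQ0 : (0 : ℝ) < Q := by linarith
  have hQ1 : (0 : ℝ) < Q - 1 := by linarith
  have ha : 0 < a := lt_of_lt_of_le (by positivity) l1
  obtain ⟨R, p, hR, hRp, hp1, hR3⟩ : ∃ R p : ℕ, R = (Q + 1) / 2 ∧ 2 * R = Q + p ∧ p ≤ 1 ∧ 3 ≤ R :=
    ⟨(Q + 1) / 2, Q % 2, rfl, by omega, by omega, by omega⟩
  have hRp' : 2 * (R : ℝ) = Q + p := by exact_mod_cast hRp
  have hp : (0 : ℝ) ≤ p := Nat.cast_nonneg p
  have hp1' : (p : ℝ) ≤ 1 := by exact_mod_cast hp1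
  have hR3' : (3 : ℝ) ≤ R := by exact_mod_cast hR3
  have hm3' := hm3 R (by rw [← hR]; push_cast; ring)
  have hQa : 1 ≤ (Q : ℝ) * a := by
    rw [div_le_iff₀ hQ0] at l1
    linarith
  have hQa1 : ((Q : ℝ) - 1) * a ≤ 1 := by
    rw [le_div_iff₀ hQ1] at l2
    linarith
  rcases le_or_gt (4 * s + e) (2 * a / ((R : ℝ) * (R + 1))) with hX | hX
  · -- the kernel case
    refine Or.inr ⟨?_, R, hR3, by linarith, by nlinarith, hX⟩
    have hm' : m * ((Q : ℝ) * (Q + 1)) ≤ k + (Q : ℝ) ^ 3 + Q - 2 := by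
      unfold HKB at hm
      rwa [le_div_iff₀ (by positivity)] at hm
    rcases le_total a (((Q : ℝ) + 1) / ((Q : ℝ) ^ 2 + 1)) with h | h
    · have h2 : ((Q + 1 : ℕ) : ℝ) * a ≤ 2 := by
        push_cast
        have : ((Q : ℝ) + 1) * a ≤ (Q + 1) * (((Q : ℝ) + 1) / ((Q : ℝ) ^ 2 + 1)) := mul_le_mul_of_nonneg_left h (by linarith)
        refine this.trans ?_
        rw [mul_div_assoc', div_le_iff₀ (by positivity)]
        nlinarith [sq_nonneg ((Q : ℝ) - 1)]
      have h3 := hb_flat (q := Q + 1) (by omega) (by push_cast; linarith) h2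
      have hs' : 1 / ((Q : ℝ) * (Q + 1)) * a - e ≤ s := by
        have e1 : 1 / ((Q : ℝ) * (Q + 1)) * a = a / (((Q + 1 : ℕ) : ℝ) * (((Q + 1 : ℕ) : ℝ) - 1)) := by
          push_cast
          rw [one_div, div_eq_inv_mul]
          ring_nf
        linarith
      have h4 : (k - 2) * (1 / ((Q : ℝ) * (Q + 1)) * a - e) ≤ (k - 2) * s := mul_le_mul_of_nonneg_left hs' (by linarith)
      have h5 := lin_between (A := 1) (B := (k - 2) * (1 / ((Q : ℝ) * (Q + 1))) - m) l1 h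
        (by
          have e1 : 1 + ((k - 2) * (1 / ((Q : ℝ) * (Q + 1))) - m) * (1 / (Q : ℝ)) =
              ((Q : ℝ) ^ 2 * (Q + 1) + (k - 2) - m * (Q * (Q + 1))) / ((Q : ℝ) ^ 2 * (Q + 1)) := by
            field_simp
            ring
          rw [e1]
          refine div_nonneg ?_ (by positivity)
          nlinarith [mul_self_nonneg (Q : ℝ)])
        (by
          have e1 : 1 + ((k - 2) * (1 / ((Q : ℝ) * (Q + 1))) - m) * (((Q : ℝ) + 1) / ((Q : ℝ) ^ 2 + 1)) =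
              ((Q : ℝ) ^ 3 + Q + (k - 2) - m * (Q * (Q + 1))) / ((Q : ℝ) * ((Q : ℝ) ^ 2 + 1)) := by
            field_simp
            ring
          rw [e1]
          refine div_nonneg ?_ (by positivity)
          linarith)
      nlinarith
    · have h3 := hb_rise (q := Q) (by omega) hQa1
      have hs' : 1 / ((Q : ℝ) - 1) * a + (-(1 / ((Q : ℝ) * (Q - 1)))) - e ≤ s := by
        have e1 : 1 / ((Q : ℝ) - 1) * a + (-(1 / ((Q : ℝ) * (Q - 1)))) = ((Q : ℝ) * a - 1) / ((Q : ℝ) * (Q - 1)) := by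
          field_simp
          ring
        linarith
      have h4 : (k - 2) * (1 / ((Q : ℝ) - 1) * a + (-(1 / ((Q : ℝ) * (Q - 1)))) - e) ≤ (k - 2) * s :=
        mul_le_mul_of_nonneg_left hs' (by linarith)
      have h5 := lin_between (A := 1 + (k - 2) * (-(1 / ((Q : ℝ) * (Q - 1))))) (B := (k - 2) * (1 / ((Q : ℝ) - 1)) - m) h l2
        (by
          have e1 : 1 + (k - 2) * (-(1 / ((Q : ℝ) * (Q - 1)))) + ((k - 2) * (1 / ((Q : ℝ) - 1)) - m) * (((Q : ℝ) + 1) / ((Q : ℝ) ^ 2 + 1)) =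
              ((Q : ℝ) ^ 3 + Q + (k - 2) - m * (Q * (Q + 1))) / ((Q : ℝ) * ((Q : ℝ) ^ 2 + 1)) := by
            field_simp
            ring
          rw [e1]
          refine div_nonneg ?_ (by positivity)
          linarith)
        (by
          have e1 : 1 + (k - 2) * (-(1 / ((Q : ℝ) * (Q - 1)))) + ((k - 2) * (1 / ((Q : ℝ) - 1)) - m) * (1 / ((Q : ℝ) - 1)) =
              ((Q : ℝ) * (Q - 1) ^ 2 + (k - 2) - m * (Q * (Q - 1))) / ((Q : ℝ) * ((Q : ℝ) - 1) ^ 2) := by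
            field_simp
            ring
          rw [e1]
          refine div_nonneg ?_ (by positivity)
          linarith)
      nlinarith
  · -- the power `R`
    refine Or.inl ?_
    obtain ⟨c, hc⟩ : ∃ c : ℝ, c = 1 / (2 * (R : ℝ) * (R + 1)) := ⟨_, rfl⟩
    have hc0 : 0 < c := by
      rw [hc]
      positivity
    have hs' : c * a + 0 - e ≤ s := by
      have e1 : c * a = (2 * a / ((R : ℝ) * (R + 1))) / 4 := by
        rw [hc]
        field_simp
        ring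
      linarith
    have hm4 : m ≤ (Q : ℝ) - 1 + (k - R) * c := by
      rw [hc]
      calc m ≤ _ := hm3'
        _ = _ := by ring
    have hc1 : 4 * (R : ℝ) * c ≤ 1 := by
      rw [hc, mul_one_div, div_le_one (by positivity)]
      nlinarith
    have hk6 : 3 * (R : ℝ) ≤ k := by linarith
    refine conclB_lin R c 0 (1 / (Q : ℝ)) (1 / ((Q : ℝ) - 1)) hk6 he hs' l1 l2 ?_ ?_ ?_ ?_
    · have h5 : m ≤ (Q : ℝ) + (k - R) * c := by linarith
      have h6 := mul_le_mul_of_nonneg_left h5 (show 0 ≤ 1 / (Q : ℝ) by positivity)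
      have e1 : 1 / (Q : ℝ) * (Q + (k - R) * c) = 1 + (k - R) * (c * (1 / (Q : ℝ)) + 0) := by
        field_simp
        ring
      linarith
    · have h6 := mul_le_mul_of_nonneg_left hm4 (show 0 ≤ 1 / ((Q : ℝ) - 1) by positivity)
      have e1 : 1 / ((Q : ℝ) - 1) * ((Q : ℝ) - 1 + (k - R) * c) = 1 + (k - R) * (c * (1 / ((Q : ℝ) - 1)) + 0) := by
        field_simp
        ring
      linarith
    · have h5 : 2 * m - 2 * R ≤ (Q : ℝ) + (2 * k - 6 * R) * c := by nlinarith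
      have h6 := mul_le_mul_of_nonneg_left h5 (show 0 ≤ 1 / (Q : ℝ) by positivity)
      have e1 : 1 / (Q : ℝ) * (Q + (2 * k - 6 * R) * c) = 1 + (2 * k - 6 * R) * (c * (1 / (Q : ℝ)) + 0) := by
        field_simp
        ring
      linarith
    · have h5 : 2 * m - 2 * R ≤ (Q : ℝ) - 1 + (2 * k - 6 * R) * c := by nlinarith
      have h6 := mul_le_mul_of_nonneg_left h5 (show 0 ≤ 1 / ((Q : ℝ) - 1) by positivity)
      have e1 : 1 / ((Q : ℝ) - 1) * ((Q : ℝ) - 1 + (2 * k - 6 * R) * c) = 1 + (2 * k - 6 * R) * (c * (1 / ((Q : ℝ) - 1)) + 0) := by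
        field_simp
        ring
      linarith

theorem HKB_two {k m : ℝ} (Q : ℕ) (hQ : 6 ≤ Q) (hm : m ≤ HKB k (Q - 1)) :
    m * ((Q : ℝ) * (Q - 1)) ≤ k - 2 + (Q : ℝ) * (Q - 1) ^ 2 := by
  obtain ⟨R, rfl⟩ : ∃ R, Q = R + 1 := ⟨Q - 1, by omega⟩
  have hR : (5 : ℝ) ≤ R := by exact_mod_cast (by omega : 5 ≤ R)
  rw [Nat.add_sub_cancel] at hm
  unfold HKB at hm
  rw [le_div_iff₀ (by positivity)] at hm
  push_cast
  nlinarith [mul_self_nonneg (R : ℝ)]

theorem HKB_three {k m : ℝ} (Q : ℕ) (hQ : 6 ≤ Q) (hk : 0 ≤ k) (hm : m ≤ HKB k (Q - 1)) (R : ℝ)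
    (hR : 2 * R = ((2 * ((Q + 1) / 2) : ℕ) : ℝ)) : m ≤ (Q : ℝ) - 1 + (k - R) / (2 * R * (R + 1)) := by
  rcases Nat.even_or_odd' Q with ⟨n, hn | hn⟩
  · have hn3 : 3 ≤ n := by omega
    have e1 : R = n := by
      have : (Q + 1) / 2 = n := by omega
      rw [this] at hR
      push_cast at hR
      linarith
    have hn' : (3 : ℝ) ≤ n := by exact_mod_cast hn3
    have e2 : ((Q - 1 : ℕ) : ℝ) = 2 * n - 1 := by
      rw [hn, Nat.cast_sub (by omega)]
      push_cast
      ring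
    have e3 : (Q : ℝ) = 2 * n := by exact_mod_cast hn
    unfold HKB at hm
    rw [e2] at hm
    refine hm.trans ?_
    rw [e1, e3]
    have e4 : 2 * (n : ℝ) - 1 + (k - n) / (2 * n * (n + 1)) = ((2 * (n : ℝ) - 1) * (2 * n * (n + 1)) + (k - n)) / (2 * n * (n + 1)) := by
      field_simp
    rw [e4, div_le_div_iff₀ (by nlinarith) (by positivity)]
    obtain ⟨x, hx⟩ : ∃ x : ℝ, x = n - 3 := ⟨_, rfl⟩
    have hx0 : 0 ≤ x := by linarith
    have hnx : (n : ℝ) = x + 3 := by linarith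
    rw [hnx]
    have hkx : 0 ≤ k * x := mul_nonneg hk hx0
    have hkx2 : 0 ≤ k * x ^ 2 := by positivity
    have p1 : 0 ≤ x ^ 2 := by positivity
    have p2 : 0 ≤ x ^ 3 := by positivity
    have p3 : 0 ≤ x ^ 4 := by positivity
    nlinarith
  · have hn3 : 3 ≤ n := by omega
    have e1 : R = n + 1 := by
      have : (Q + 1) / 2 = n + 1 := by omega
      rw [this] at hR
      push_cast at hR
      linarith
    have hn' : (3 : ℝ) ≤ n := by exact_mod_cast hn3
    have e2 : ((Q - 1 : ℕ) : ℝ) = 2 * n := by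
      rw [hn, Nat.cast_sub (by omega)]
      push_cast
      ring
    have e3 : (Q : ℝ) = 2 * n + 1 := by exact_mod_cast hn
    unfold HKB at hm
    rw [e2] at hm
    refine hm.trans ?_
    rw [e1, e3]
    have e4 : 2 * (n : ℝ) + 1 - 1 + (k - (n + 1)) / (2 * (n + 1) * (n + 1 + 1)) =
        (2 * (n : ℝ) * (2 * (n + 1) * (n + 1 + 1)) + (k - (n + 1))) / (2 * (n + 1) * (n + 1 + 1)) := by
      field_simp
      ring
    rw [e4, div_le_div_iff₀ (by nlinarith) (by positivity)]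
    obtain ⟨x, hx⟩ : ∃ x : ℝ, x = n - 3 := ⟨_, rfl⟩
    have hx0 : 0 ≤ x := by linarith
    have hnx : (n : ℝ) = x + 3 := by linarith
    rw [hnx]
    have hkx : 0 ≤ k * x := mul_nonneg hk hx0
    have hkx2 : 0 ≤ k * x ^ 2 := by positivity
    have p1 : 0 ≤ x ^ 2 := by positivity
    have p2 : 0 ≤ x ^ 3 := by positivity
    have p3 : 0 ≤ x ^ 4 := by positivity
    nlinarith

/-- the arithmetic of the exponents -/
theorem optKB {k m a s e : ℝ} (hk : 9 ≤ k) (hR : RecKB k m) (ha0 : 0 ≤ a) (ha1 : a ≤ 1) (he : 0 ≤ e) (hs0 : -e ≤ s)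
    (hv : ∀ q : ℕ, q ≤ 3 → a * ((q : ℝ) + nu q) ≤ 1 → kp q * (((q : ℝ) + 2) * a - 1) - e ≤ s)
    (hh : ∀ q : ℕ, 4 ≤ q → (q : ℝ) ≤ k → hb q a - e ≤ s) : ConclKB k m a s e := by
  obtain ⟨g1, g2, g3, g4, g5, g6⟩ := hR
  have n0 : nu 0 = 1 := by unfold nu; norm_num
  have n1 : nu 1 = 1 / 2 := by unfold nu; norm_num
  have n2 : nu 2 = 1 / 4 := by unfold nu; norm_num
  have n3 : nu 3 = 1 / 8 := by unfold nu; norm_num
  have k0 : kp 0 = 1 / 2 := by unfold kp; norm_num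
  have k1 : kp 1 = 1 / 6 := by unfold kp; norm_num
  have k2 : kp 2 = 1 / 14 := by unfold kp; norm_num
  have k3 : kp 3 = 1 / 30 := by unfold kp; norm_num
  rcases le_total (2 / 3) a with h | h
  · have hs := hv 0 (by norm_num) (by rw [n0]; push_cast; linarith)
    rw [k0] at hs
    push_cast at hs
    refine Or.inl (conclB_lin 2 1 (-1 / 2) (2 / 3) 1 (by push_cast; linarith) he (by linarith) h ha1 ?_ ?_ ?_ ?_) <;>
      push_cast <;> linarith
  have h' := h
  rcases le_total (4 / 9) a with h | h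
  · have hs := hv 1 (by norm_num) (by rw [n1]; push_cast; linarith)
    rw [k1] at hs
    push_cast at hs
    refine Or.inl (conclB_lin 2 (1 / 2) (-1 / 6) (4 / 9) (2 / 3) (by push_cast; linarith) he (by linarith) h h' ?_ ?_ ?_ ?_) <;>
      push_cast <;> linarith
  clear h'
  have h' := h
  rcases le_total (6 / 17) a with h | h
  · have hs := hv 2 (by norm_num) (by rw [n2]; push_cast; linarith)
    rw [k2] at hs
    push_cast at hs
    refine Or.inl (conclB_lin 2 (2 / 7) (-1 / 14) (6 / 17) (4 / 9) (by push_cast; linarith) he (by linarith) h h' ?_ ?_ ?_ ?_) <;>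
      push_cast <;> linarith
  clear h'
  have h' := h
  rcases le_total (1 / 3) a with h | h
  · have hs1 := hb_flat (q := 4) (a := a) (by norm_num) (by push_cast; linarith) (by push_cast; linarith)
    have hs2 := hh 4 le_rfl (by push_cast; linarith)
    push_cast at hs1 hs2
    refine Or.inl (conclB_lin 2 (1 / 12) 0 (1 / 3) (6 / 17) (by push_cast; linarith) he (by linarith) h h' ?_ ?_ ?_ ?_) <;>
      push_cast <;> linarith
  clear h'
  have h' := h
  rcases le_total (3 / 10) a with h | h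
  · have hs1 := hb_rise (q := 4) (a := a) (by norm_num) (by push_cast; linarith)
    have hs2 := hh 4 le_rfl (by push_cast; linarith)
    push_cast at hs1 hs2
    refine Or.inl (conclB_lin 2 (1 / 3) (-1 / 12) (3 / 10) (1 / 3) (by push_cast; linarith) he (by linarith) h h' ?_ ?_ ?_ ?_) <;>
      push_cast <;> linarith
  clear h'
  have h' := h
  rcases le_total (2 / 7) a with h | h
  · have hs := hv 3 (by norm_num) (by rw [n3]; push_cast; linarith)
    rw [k3] at hs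
    push_cast at hs
    refine Or.inl (conclB_lin 2 (1 / 6) (-1 / 30) (2 / 7) (3 / 10) (by push_cast; linarith) he (by linarith) h h' ?_ ?_ ?_ ?_) <;>
      push_cast <;> linarith
  clear h'
  have h' := h
  rcases le_total (1 / 4) a with h | h
  · have hs1 := hb_flat (q := 5) (a := a) (by norm_num) (by push_cast; linarith) (by push_cast; linarith)
    have hs2 := hh 5 (by norm_num) (by push_cast; linarith)
    push_cast at hs1 hs2
    refine Or.inl (conclB_lin 2 (1 / 20) 0 (1 / 4) (2 / 7) (by push_cast; linarith) he (by linarith) h h' ?_ ?_ ?_ ?_) <;>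
      push_cast <;> linarith
  clear h'
  have h' := h
  -- now `a ≤ 1/4`
  have hM1 : m ≤ (⌈m⌉₊ : ℝ) := Nat.le_ceil m
  rcases le_or_gt (a * m) 1 with h1 | h1
  · have hM2 : (⌈m⌉₊ : ℝ) ≤ max m 0 + 1 := by
      rcases le_total m 0 with h2 | h2
      · rw [Nat.ceil_eq_zero.2 h2, Nat.cast_zero]
        linarith [le_max_right m 0]
      · rw [max_eq_left h2]
        exact (Nat.ceil_lt_add_one h2).le
    have hM3 : max m 0 ≤ (k + 4) / 4 := max_le g1 (by linarith)
    exact Or.inl (conclB_mv ⌈m⌉₊ (by linarith) he ha0 hs0 hM1 h1)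
  have ha : 0 < a := by
    rcases ha0.eq_or_lt with h2 | h2
    · rw [← h2, zero_mul] at h1
      linarith
    · exact h2
  obtain ⟨Q, hQ⟩ : ∃ Q : ℕ, Q = ⌊1 / a⌋₊ + 1 := ⟨_, rfl⟩
  have h2 : 1 / a < Q := by
    rw [hQ]
    push_cast
    exact Nat.lt_floor_add_one _
  have h3 : (Q : ℝ) - 1 ≤ 1 / a := by
    rw [hQ]
    push_cast
    have := Nat.floor_le (show 0 ≤ 1 / a by positivity)
    linarith
  have h4 : 1 / a < m := by
    rw [div_lt_iff₀ ha]
    linarith
  have h6 : (Q : ℝ) ≤ m + 1 := by linarith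
  have h7 : 5 ≤ Q := by
    have e1 : (4 : ℝ) ≤ 1 / a := by
      rw [le_div_iff₀ ha]
      linarith
    have e2 : 4 ≤ ⌊1 / a⌋₊ := Nat.le_floor (by exact_mod_cast e1)
    omega
  have hQ5 : (5 : ℝ) ≤ Q := by exact_mod_cast h7
  have l1 : 1 / (Q : ℝ) ≤ a := by
    rw [div_le_iff₀ (by linarith)]
    rw [div_lt_iff₀ ha] at h2
    linarith
  have l2 : a ≤ 1 / ((Q : ℝ) - 1) := by
    rw [le_div_iff₀ (by linarith)]
    rw [le_div_iff₀ ha] at h3
    linarith
  have hk3 : 3 * ((Q : ℝ) + 1) ≤ 2 * k := by linarith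
  have s1 := hh (Q + 1) (by omega) (by push_cast; linarith)
  have s2 := hh Q (by omega) (by linarith)
  rcases h7.eq_or_lt with h9 | h9
  · subst h9
    have g7 := g6 5 le_rfl
    unfold HKB at g7
    refine okMainB 5 le_rfl hk3 he (g6 5 le_rfl) (by push_cast; linarith) ?_ l1 l2 s1 s2
    intro R hR
    norm_num at hR
    have hR3 : R = 3 := by linarith
    rw [hR3]
    push_cast at g7 ⊢
    norm_num at g7 ⊢
    linarith
  · exact okMainB Q h7 hk3 he (g6 Q h7) (HKB_two Q h9 (g6 (Q - 1) (by omega)))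
      (fun R hR => HKB_three Q h9 (by linarith) (g6 (Q - 1) (by omega)) R hR) l1 l2 s1 s2

end Pool.Agent.Lib.PR
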