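import Pool.Agent.Lib.PR.KF
import Pool.Agent.Lib.PR.KBO
import Pool.Agent.Lib.PR.K6
import Pool.Agent.Lib.PR.BR

/-!
# PR / KBR: the bounds for the mean square exponent for all `k ≥ 9` with the pointwise kernel

`betaAllK`: `beta k ≤ 1 - m/k` for every `m` with `RecKB k m`.  `recKB_closed`: `m = (3/2)((2k)^(1/3) - 1 + (2k)^(-1/3))` is admissible
for `k ≥ 9`.
-/

set_option autoImplicit false

namespace Pool.Agent.Lib.PR

open Pool.Agent.Lib.MP_bc6037_nt

theorem betaAllK (k : ℕ) (hk1 : 9 ≤ k) {m : ℝ} (hR : RecKB k m) (hz : ∀ q : ℕ, 3 ≤ q → HBB q) :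
    beta k ≤ 1 - m / k := by
  have hk : (9 : ℝ) ≤ k := by exact_mod_cast hk1
  have hk0 : (0 : ℝ) < k := by linarith
  have hb1 : beta k < 1 := (Limit.beta_le_alpha k).trans_lt (Limit.alpha_lt_one k)
  rcases le_or_gt m 0 with hm | hm
  · have h2 : m / k ≤ 0 := div_nonpos_of_nonpos_of_nonneg hm hk0.le
    linarith
  have h3 : 0 < m / k := div_pos hm hk0
  have h4 : m / k ≤ 1 / 2 := by
    rw [div_le_iff₀ hk0]
    linarith [hR.1]
  refine Rec.beta_le_of_fin (by linarith) fun σ hσ => ?_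
  rcases lt_or_ge σ 1 with hσ1 | hσ1
  swap
  · exact Rec.fin_of_beta (by omega) (hb1.trans_le hσ1)
  refine fin_genK k k (by omega) (m / k) (2 * k) h3 h4 le_rfl (fun a => max (thv 8 a) (thh k a))
    (fun a => le_max_of_le_left (thv_nonneg 8 a))
    (fun σ h0 => PW_max (PW_thv h0 8) (PW_thh h0 hz k)) ?_ hσ hσ1
  intro a s e ha0 ha1 he0 _ hs
  have hs1 : thv 8 a - e ≤ s := by
    have := le_max_left (thv 8 a) (thh k a)
    linarith
  have hs2 : thh k a - e ≤ s := by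
    have := le_max_right (thv 8 a) (thh k a)
    linarith
  have hs0 : -e ≤ s := by
    have := thv_nonneg 8 a
    linarith
  have h6 : 2 * (k : ℝ) * (s - a * (m / k)) = 2 * k * s - 2 * a * m := by
    field_simp
  rcases optKB hk hR ha0 ha1 he0 hs0
    (fun q hq hqa => by
      have := le_thv (show q < 8 by omega) hqa
      linarith)
    (fun q hq hqk => by
      have hqk' : q ≤ k := by exact_mod_cast hqk
      have := le_thh (n := k) (q := q) (by omega) (by omega) a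
      linarith) with ⟨j, hj, h7, h8⟩ | ⟨h7, h8⟩
  · refine Or.inl ⟨j, by exact_mod_cast hj, ?_⟩
    rw [h6]
    exact ⟨by linarith, h8.imp (fun h => by linarith) (fun h => by linarith)⟩
  · refine Or.inr ⟨?_, kerC_use ha0 h8⟩
    rw [h6]
    linarith

/-- the earlier corner values are smaller -/
theorem recKB_of_recB {k m : ℝ} (h : RecB k m) : RecKB k m := by
  obtain ⟨g1, g2, g3, g4, g5, g6⟩ := h
  refine ⟨g1, g2, g3, g4, g5, fun q hq => (g6 q hq).trans ?_⟩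
  have hq5 : (5 : ℝ) ≤ q := by exact_mod_cast hq
  have h1 : (2 : ℝ) ≤ (((q + 1) / 2 : ℕ) : ℝ) := by exact_mod_cast (by omega : 2 ≤ (q + 1) / 2)
  unfold HQ HKB
  exact div_le_div_of_nonneg_right (by linarith) (by positivity)

/-- `y (y - z)^2 (y + 2 z) ≥ 0` -/
private theorem quart {y z : ℝ} (hy : 0 ≤ y) (hz : 0 ≤ z) : 0 ≤ y * (y ^ 3 - 3 * z ^ 2 * y + 2 * z ^ 3) := by
  have h3 : 0 ≤ y * ((y - z) ^ 2 * (y + 2 * z)) := by positivity
  nlinarith

private theorem key {y z : ℝ} (hy : 2.6 ≤ y) (hz : 5.5 ≤ z) :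
    0 ≤ y * ((y - z) ^ 2 * (y + 2 * z)) / 2 + 3 / 8 * y ^ 2 + 7 / 4 * z * y - 3 * y - 3 / 2 * z ^ 2 + 3 / 8 := by
  have hy0 : 0 ≤ y := by linarith
  rcases le_total z y with h | h
  · have h1 : 0 ≤ y * ((y - z) ^ 2 * (y + 2 * z)) := by positivity
    nlinarith [mul_nonneg (sub_nonneg.2 h) (show 0 ≤ z - 5.5 by linarith), mul_nonneg (sub_nonneg.2 h) hy0]
  · obtain ⟨d, hd⟩ : ∃ d : ℝ, d = z - y := ⟨_, rfl⟩
    have hd0 : 0 ≤ d := by linarith
    have hzd : z = y + d := by linarith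
    rw [hzd]
    have e1 : y * ((y - (y + d)) ^ 2 * (y + 2 * (y + d))) / 2 + 3 / 8 * y ^ 2 + 7 / 4 * (y + d) * y - 3 * y - 3 / 2 * (y + d) ^ 2 + 3 / 8 =
        3 / 2 * y ^ 2 * d ^ 2 + y * d ^ 3 + 5 / 8 * y ^ 2 - 5 / 4 * (y * d) - 3 * y - 3 / 2 * d ^ 2 + 3 / 8 := by
      ring
    rw [e1]
    rcases le_total 5 y with h5 | h5
    · have h2 : 25 * d ^ 2 ≤ (y * d) ^ 2 := by nlinarith [mul_le_mul_of_nonneg_right (show (25 : ℝ) ≤ y ^ 2 by nlinarith) (sq_nonneg d)]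
      have h3 : 0 ≤ y * d ^ 3 := by positivity
      nlinarith [sq_nonneg (y * d - 0.434)]
    · have hd5 : 5.5 - y ≤ d := by linarith
      have h2 : y * (5.5 - y) ≤ y * d := mul_le_mul_of_nonneg_left hd5 hy0
      have h3 : 16 ≤ 3 / 2 * (y ^ 2 - 1) + y * d := by nlinarith
      have h4 : 16 * d ^ 2 ≤ (3 / 2 * (y ^ 2 - 1) + y * d) * d ^ 2 := mul_le_mul_of_nonneg_right h3 (sq_nonneg d)
      rcases le_total y 4.5 with h6 | h6
      · have hd1 : 1 ≤ d := by linarith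
        nlinarith [mul_nonneg (show 0 ≤ d - 1 by linarith) hd0, mul_nonneg (show 0 ≤ d - 1 by linarith) (show 0 ≤ 5 - y by linarith), sq_nonneg (y - 2.4)]
      · have hd1 : 0.5 ≤ d := by linarith
        nlinarith [mul_nonneg (show 0 ≤ d - 0.5 by linarith) hd0, mul_nonneg hd0 (show 0 ≤ 5 - y by linarith), mul_nonneg (show 0 ≤ y - 4.5 by linarith) (show 0 ≤ y by linarith)]

/-- `m = (3/2)((2k)^(1/3) - 1 + (2k)^(-1/3))`, `k ≥ 9` -/
theorem recKB_closed (k : ℝ) (hk : 9 ≤ k) :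
    RecKB k (3 / 2 * ((2 * k) ^ (1 / 3 : ℝ) - 1 + 1 / (2 * k) ^ (1 / 3 : ℝ))) := by
  obtain ⟨y, hy⟩ : ∃ y : ℝ, y = (2 * k) ^ (1 / 3 : ℝ) := ⟨_, rfl⟩
  have hy0 : 0 ≤ y := by
    rw [hy]
    positivity
  have hy3 : y ^ 3 = 2 * k := by
    rw [hy, ← Real.rpow_natCast, ← Real.rpow_mul (by linarith)]
    norm_num
  rw [← hy]
  have hy2 : 2.6 ≤ y := by
    by_contra h
    rw [not_le] at h
    have h1 := pow_le_pow_left₀ hy0 h.le 3
    norm_num at h1
    linarith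
  have hyp : 0 < y := by linarith
  have red : ∀ A D : ℝ, 0 < D → 0 ≤ (y ^ 3 / 2 + A) * y - D * (3 / 2 * (y - 1) * y + 3 / 2) →
      3 / 2 * (y - 1 + 1 / y) ≤ (k + A) / D := by
    intro A D hD h
    rw [le_div_iff₀ hD]
    have e1 : 3 / 2 * (y - 1 + 1 / y) * D = (D * (3 / 2 * (y - 1) * y + 3 / 2)) / y := by
      field_simp
    rw [e1, div_le_iff₀ hyp]
    rw [hy3] at h
    linarith
  refine ⟨?_, ?_, ?_, ?_, ?_, fun q hq => ?_⟩
  · refine red _ _ (by norm_num) ?_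
    obtain ⟨t, ht⟩ : ∃ t : ℝ, t = y - 2.6 := ⟨_, rfl⟩
    have ht0 : 0 ≤ t := by linarith
    have hyt : y = t + 2.6 := by linarith
    rw [hyt]
    have p1 : 0 ≤ t ^ 2 := by positivity
    have p2 : 0 ≤ t ^ 3 := by positivity
    have p3 : 0 ≤ t ^ 4 := by positivity
    nlinarith
  · refine red _ _ (by norm_num) ?_
    have := quart (y := y) (z := 2.83) hy0 (by norm_num)
    nlinarith
  · refine red _ _ (by norm_num) ?_
    have := quart (y := y) (z := 3.4642) hy0 (by norm_num)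
    nlinarith
  · refine red _ _ (by norm_num) ?_
    rcases le_total y 5 with h5 | h5
    · have := quart (y := y) (z := 4.07) hy0 (by norm_num)
      nlinarith [mul_nonneg (show 0 ≤ y - 2.6 by linarith) (show 0 ≤ 5 - y by linarith)]
    · have := quart (y := y) (z := 4.2427) hy0 (by norm_num)
      nlinarith
  · refine red _ _ (by norm_num) ?_
    rcases le_total y 5 with h5 | h5
    · have := quart (y := y) (z := 4.3) hy0 (by norm_num)
      nlinarith [mul_nonneg (show 0 ≤ y - 2.6 by linarith) (show 0 ≤ 5 - y by linarith)]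
    · have := quart (y := y) (z := 4.4722) hy0 (by norm_num)
      nlinarith
  · have hq5 : (5 : ℝ) ≤ q := by exact_mod_cast hq
    unfold HKB
    have e0 : (k + (q : ℝ) ^ 3 + q - 2) = k + ((q : ℝ) ^ 3 + q - 2) := by ring
    rw [e0]
    refine red _ _ (by positivity) ?_
    have h1 := key (y := y) (z := q + 1 / 2) hy2 (by linarith)
    have e1 : (y ^ 3 / 2 + ((q : ℝ) ^ 3 + q - 2)) * y - (q * (q + 1)) * (3 / 2 * (y - 1) * y + 3 / 2) =
        y * ((y - (q + 1 / 2)) ^ 2 * (y + 2 * (q + 1 / 2))) / 2 + 3 / 8 * y ^ 2 + 7 / 4 * (q + 1 / 2) * y - 3 * y -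
          3 / 2 * ((q : ℝ) + 1 / 2) ^ 2 + 3 / 8 := by
      ring
    rw [e1]
    exact h1

end Pool.Agent.Lib.PR
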