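import Pool.Agent.Lib.PR.LV
import Pool.Agent.Lib.PR.LVB
import Pool.Agent.Lib.PR.PWJ
import Pool.Agent.Lib.PR.K6
import Pool.Agent.Lib.PR.KBR

/-!
# PR / LR: the bounds with the new derivative test

`alphaAllV` (`k ≥ 18`): `alpha k ≤ 1 - m/k` for every `m` with `RecV k m`.
`betaAllV` (`k ≥ 8`): `beta k ≤ 1 - m/k` for every `m` with `RecVB k m`.
-/

set_option autoImplicit false

namespace Pool.Agent.Lib.PR

open Pool.Agent.Lib.MP_bc6037_nt

/-- all the savings: van der Corput, Heath-Brown, new -/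
noncomputable def thw (k : ℕ) (a : ℝ) : ℝ := max (max (thv 8 a) (thh k a)) (thj k a)

theorem thw_nonneg (k : ℕ) (a : ℝ) : 0 ≤ thw k a := le_max_of_le_left (le_max_of_le_left (thv_nonneg 8 a))

theorem PW_thw {σ : ℝ} (h0 : 0 ≤ σ) (hz : ∀ q : ℕ, 3 ≤ q → HBB q) (hj : ∀ q : ℕ, 4 ≤ q → HJB q) (k : ℕ) : PW σ (thw k) :=
  PW_max (PW_max (PW_thv h0 8) (PW_thh h0 hz k)) (PW_thj h0 hj k)

theorem thw_v {k : ℕ} {a e s : ℝ} (hs : thw k a - e ≤ s) (q : ℕ) (hq : q ≤ 3) (hqa : a * ((q : ℝ) + nu q) ≤ 1) :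
    kp q * (((q : ℝ) + 2) * a - 1) - e ≤ s := by
  have h1 := le_thv (show q < 8 by omega) hqa
  have h2 : thv 8 a ≤ thw k a := (le_max_left _ _).trans (le_max_left _ _)
  linarith

theorem thw_h {k : ℕ} {a e s : ℝ} (hs : thw k a - e ≤ s) (q : ℕ) (hq : 4 ≤ q) (hqk : (q : ℝ) ≤ k) : hb q a - e ≤ s := by
  have hqk' : q ≤ k := by exact_mod_cast hqk
  have h1 := le_thh (n := k) (q := q) (by omega) (by omega) a
  have h2 : thh k a ≤ thw k a := (le_max_right _ _).trans (le_max_left _ _)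
  linarith

theorem thw_j {k : ℕ} {a e s : ℝ} (hs : thw k a - e ≤ s) (q : ℕ) (hq : 4 ≤ q) (hqk : (q : ℝ) ≤ k) (hqa : ((q : ℝ) - 1) * a ≤ 1) :
    hv q a - e ≤ s := by
  have hqk' : q ≤ k := by exact_mod_cast hqk
  have h1 := le_thj (n := k) (q := q) hq (by omega) a
  have h2 : thj k a ≤ thw k a := le_max_right _ _
  have h3 : hj q a = hv q a := by
    unfold hj hv
    rw [if_pos hqa]
  linarith

/-- the kernel case in the form needed for the blocks -/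
theorem kerC_useV {k : ℕ} {a s e : ℝ} (ha : 0 ≤ a) (h : KerC k a s e) :
    ∃ X : ℝ, 0 ≤ X ∧ X ≤ a ∧ 4 * s + e ≤ X ∧ ∀ y, 2 * a ≤ y → y ≤ 1 → X * y ≤ 2 * a * thw k y := by
  obtain ⟨X, h1, h2, h3, h4⟩ := kerC_use ha h
  refine ⟨X, h1, h2, h3, fun y hy1 hy2 => (h4 y hy1 hy2).trans ?_⟩
  exact mul_le_mul_of_nonneg_left (le_max_left _ _) (by linarith)

theorem blockMomV (k : ℕ) (hk1 : 18 ≤ k) {m : ℝ} (hm : 0 < m) (hR : RecV k m) (hz : ∀ q : ℕ, 3 ≤ q → HBB q)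
    (hj : ∀ q : ℕ, 4 ≤ q → HJB q) : BlockMom k (1 - m / k) := by
  have hk : (18 : ℝ) ≤ k := by exact_mod_cast hk1
  have hk0 : (0 : ℝ) < k := by linarith
  have h3 : 0 < m / k := div_pos hm hk0
  have h4 : m / k ≤ 1 / 2 := by
    rw [div_le_iff₀ hk0]
    linarith [hR.1]
  have hB : BlockMomM k 1 (1 - m / k) := by
    refine blockMomK_gen k k (m / k) k 1 le_rfl h3 h4 hk0.le (thw k)
      (PW_thw (by linarith) hz hj k) (PW_thw le_rfl hz hj k) ?_
    intro a s e ha0 ha1 he0 _ hs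
    have hs0 : -e ≤ s := by
      have := thw_nonneg k a
      linarith
    have h6 : (k : ℝ) * (s - a * (m / k)) = k * s - a * m := by
      field_simp
    rcases optV hk hR ha0 ha1 he0.le hs0 (thw_v hs) (thw_h hs) (thw_j hs) with ⟨j, hj, h7, h8⟩ | ⟨h7, h8⟩
    · refine Or.inl ⟨j, by exact_mod_cast hj, ?_⟩
      rw [h6]
      exact ⟨by linarith, h8.imp (fun h => by linarith) (fun h => by linarith)⟩
    · refine Or.inr ⟨?_, kerC_useV ha0 h8⟩
      rw [h6]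
      linarith
  exact hB

theorem alphaAllV (k : ℕ) (hk1 : 18 ≤ k) {m : ℝ} (hR : RecV k m) (hz : ∀ q : ℕ, 3 ≤ q → HBB q) (hj : ∀ q : ℕ, 4 ≤ q → HJB q) :
    alpha k ≤ 1 - m / k := by
  have hk : (18 : ℝ) ≤ k := by exact_mod_cast hk1
  have hk0 : (0 : ℝ) < k := by linarith
  rcases le_or_gt m 0 with hm | hm
  · have h1 := Limit.alpha_lt_one k
    have h2 : m / k ≤ 0 := div_nonpos_of_nonpos_of_nonneg hm hk0.le
    linarith
  have h3 : 0 < m / k := div_pos hm hk0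
  have h4 : m / k ≤ 1 / 2 := by
    rw [div_le_iff₀ hk0]
    linarith [hR.1]
  have h := FO.alpha_le_of_mom (j := k) (σ := 1 - m / k) (M := 1) (by linarith) (by linarith) le_rfl
    (mom_of_block (by linarith) (by linarith) (blockMomV k hk1 hm hR hz hj))
  linarith

theorem betaAllV (k : ℕ) (hk1 : 8 ≤ k) {m : ℝ} (hR : RecVB k m) (hz : ∀ q : ℕ, 3 ≤ q → HBB q) (hj : ∀ q : ℕ, 4 ≤ q → HJB q) :
    beta k ≤ 1 - m / k := by
  have hk : (8 : ℝ) ≤ k := by exact_mod_cast hk1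
  have hk0 : (0 : ℝ) < k := by linarith
  have hb1 : beta k < 1 := (Limit.beta_le_alpha k).trans_lt (Limit.alpha_lt_one k)
  rcases le_or_gt m 0 with hm | hm
  · have h2 : m / k ≤ 0 := div_nonpos_of_nonpos_of_nonneg hm hk0.le
    linarith
  have h3 : 0 < m / k := div_pos hm hk0
  have h4 : m / k ≤ 1 / 2 := by
    rw [div_le_iff₀ hk0]
    linarith [hR.1]
  refine Rec.beta_le_of_fin (by linarith) fun σ hσ => ?_
  rcases lt_or_ge σ 1 with hσ1 | hσ1
  swap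
  · exact Rec.fin_of_beta (by omega) (hb1.trans_le hσ1)
  refine fin_genK k k (by omega) (m / k) (2 * k) h3 h4 le_rfl (thw k) (thw_nonneg k)
    (fun σ h0 => PW_thw h0 hz hj k) ?_ hσ hσ1
  intro a s e ha0 ha1 he0 _ hs
  have hs0 : -e ≤ s := by
    have := thw_nonneg k a
    linarith
  have h6 : 2 * (k : ℝ) * (s - a * (m / k)) = 2 * k * s - 2 * a * m := by
    field_simp
  rcases optVB hk hR ha0 ha1 he0 hs0 (thw_v hs) (thw_h hs) (thw_j hs) with ⟨j, hj, h7, h8⟩ | ⟨h7, h8⟩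
  · refine Or.inl ⟨j, by exact_mod_cast hj, ?_⟩
    rw [h6]
    exact ⟨by linarith, h8.imp (fun h => by linarith) (fun h => by linarith)⟩
  · refine Or.inr ⟨?_, kerC_useV ha0 h8⟩
    rw [h6]
    linarith

end Pool.Agent.Lib.PR
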