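import Pool.Agent.Lib.PR.PW
import Pool.Agent.Lib.PR.A2
import Pool.Agent.Lib.PR.ZH

/-!
# PR / PWD: the savings from the estimate with dilated shifts for zeta sums

As `PWJ`; the estimate of order `k` holds for `t ≤ N^k` and `N^(2(k+1)) ≤ t^3`, so the saving is `0` outside
`1 ≤ k a`, `2 (k+1) a ≤ 3`. The blocks of length `N = T^a` are tested with `t ∈ [T, 2T]`: if `T ≤ N^k < t` the test of
order `k + 1` of Heath-Brown gives the same saving.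
-/

set_option autoImplicit false

open Finset

namespace Pool.Agent.Lib.PR

private theorem pwd_abel_aux (a : ℕ → ℝ) (z : ℕ → ℂ) (N : ℕ) (B : ℝ)
    (ha : ∀ n, N < n → a (n + 1) ≤ a n) (k : ℕ)
    (hB : ∀ M, N ≤ M → M ≤ N + 1 + k → ‖∑ n ∈ Ioc N M, z n‖ ≤ B) :
    ‖∑ n ∈ Ioc N (N + 1 + k), ((a n : ℝ) : ℂ) * z n -
      ((a (N + 1 + k) : ℝ) : ℂ) * ∑ n ∈ Ioc N (N + 1 + k), z n‖ ≤
      (a (N + 1) - a (N + 1 + k)) * B := by
  induction k with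
  | zero =>
    simp
  | succ k ih =>
    have ih' := ih (fun M h1 h2 => hB M h1 (by omega))
    have e1 : N + 1 + (k + 1) = (N + 1 + k) + 1 := by ring
    rw [e1, Finset.sum_Ioc_succ_top (by omega), Finset.sum_Ioc_succ_top (by omega)]
    have h1 : ‖∑ n ∈ Ioc N (N + 1 + k), z n‖ ≤ B := hB _ (by omega) (by omega)
    have h2 : 0 ≤ a (N + 1 + k) - a (N + 1 + k + 1) := sub_nonneg.2 (ha _ (by omega))
    have e2 : ∑ n ∈ Ioc N (N + 1 + k), ((a n : ℝ) : ℂ) * z n +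
        ((a (N + 1 + k + 1) : ℝ) : ℂ) * z (N + 1 + k + 1) -
        ((a (N + 1 + k + 1) : ℝ) : ℂ) * (∑ n ∈ Ioc N (N + 1 + k), z n + z (N + 1 + k + 1)) =
        (∑ n ∈ Ioc N (N + 1 + k), ((a n : ℝ) : ℂ) * z n -
          ((a (N + 1 + k) : ℝ) : ℂ) * ∑ n ∈ Ioc N (N + 1 + k), z n) +
        (((a (N + 1 + k) - a (N + 1 + k + 1) : ℝ)) : ℂ) * ∑ n ∈ Ioc N (N + 1 + k), z n := by
      push_cast
      ring
    rw [e2]
    refine (norm_add_le _ _).trans ?_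
    rw [norm_mul, Complex.norm_real, Real.norm_of_nonneg h2]
    have h3 := mul_le_mul_of_nonneg_left h1 h2
    linarith

private theorem pwd_abel (a : ℕ → ℝ) (z : ℕ → ℂ) (N M : ℕ) (B : ℝ) (hNM : N < M)
    (ha : ∀ n, N < n → a (n + 1) ≤ a n) (ha0 : ∀ n, 0 ≤ a n)
    (hB : ∀ K, N ≤ K → K ≤ M → ‖∑ n ∈ Ioc N K, z n‖ ≤ B) :
    ‖∑ n ∈ Ioc N M, ((a n : ℝ) : ℂ) * z n‖ ≤ a (N + 1) * B := by
  obtain ⟨k, rfl⟩ : ∃ k, M = N + 1 + k := ⟨M - (N + 1), by omega⟩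
  have h1 := pwd_abel_aux a z N B ha k hB
  have h2 : ‖((a (N + 1 + k) : ℝ) : ℂ) * ∑ n ∈ Ioc N (N + 1 + k), z n‖ ≤ a (N + 1 + k) * B := by
    rw [norm_mul, Complex.norm_real, Real.norm_of_nonneg (ha0 _)]
    exact mul_le_mul_of_nonneg_left (hB _ (by omega) le_rfl) (ha0 _)
  have h3 : ∑ n ∈ Ioc N (N + 1 + k), ((a n : ℝ) : ℂ) * z n =
      (∑ n ∈ Ioc N (N + 1 + k), ((a n : ℝ) : ℂ) * z n -
        ((a (N + 1 + k) : ℝ) : ℂ) * ∑ n ∈ Ioc N (N + 1 + k), z n) +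
      ((a (N + 1 + k) : ℝ) : ℂ) * ∑ n ∈ Ioc N (N + 1 + k), z n := by ring
  rw [h3]
  refine (norm_add_le _ _).trans ?_
  linarith

private theorem pwd_log {T x : ℝ} (hT : 1 < T) (hx : 0 < x) : T ^ (Real.log x / Real.log T) = x := by
  have h := (Real.log_pos hT).ne'
  rw [Real.rpow_def_of_pos (by linarith), mul_div_assoc', mul_div_cancel_left₀ _ h, Real.exp_log hx]

/-- the saving of the test of order `k` with dilated shifts -/
noncomputable def hd (k : ℕ) (a : ℝ) : ℝ :=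
  if 1 ≤ (k : ℝ) * a ∧ 2 * ((k : ℝ) + 1) * a ≤ 3 then (2 * a - 1 / k) / ((k : ℝ) * (k + 1)) else 0

/-- the test of order `k` with dilated shifts for `n^(-it)` -/
def HDB (k : ℕ) : Prop :=
  ∀ ε : ℝ, 0 < ε → ∃ C : ℝ, 0 ≤ C ∧ ∀ (N M : ℕ), 1 ≤ N → N ≤ M → M ≤ 2 * N → ∀ t : ℝ, t ≤ (N : ℝ) ^ k →
    (N : ℝ) ^ (2 * (k + 1)) ≤ t ^ 3 →
    ‖∑ n ∈ Finset.Ioc N M, (n : ℂ) ^ (-((t : ℂ) * Complex.I))‖ ≤ C * (N : ℝ) ^ (1 + ε) *
      ((N : ℝ) ^ 2 * t ^ (-(1 / (k : ℝ)))) ^ (-(1 / ((k : ℝ) * (k + 1))))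

/-- the power of `t` in the main case -/
private theorem pwd_main (k : ℕ) (hk : 3 ≤ k) {T t a : ℝ} (hT : 2 ≤ T) (ht1 : T ≤ t) (ht2 : t ≤ 2 * T) :
    ((T ^ a) ^ 2 * t ^ (-(1 / (k : ℝ)))) ^ (-(1 / ((k : ℝ) * (k + 1)))) ≤ 2 * T ^ (-((2 * a - 1 / k) / ((k : ℝ) * (k + 1)))) := by
  have hk3 : (3 : ℝ) ≤ k := by exact_mod_cast hk
  have hT0 : 0 < T := by linarith
  have ht0 : 0 < t := by linarith
  obtain ⟨y, hy⟩ : ∃ y : ℝ, y = 1 / ((k : ℝ) * (k + 1)) := ⟨_, rfl⟩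
  have hy0 : 0 ≤ y := by
    rw [hy]
    positivity
  have hy1 : 1 / (k : ℝ) * y ≤ 1 := by
    rw [hy, div_mul_div_comm, one_mul, div_le_one (by positivity)]
    have h9 : (1 : ℝ) ≤ (k : ℝ) * (k + 1) := by nlinarith
    nlinarith
  have e1 : (2 * a - 1 / k) / ((k : ℝ) * (k + 1)) = (2 * a - 1 / k) * y := by
    rw [hy]
    ring
  rw [e1, ← hy]
  have e2 : ((T ^ a) ^ 2 * t ^ (-(1 / (k : ℝ)))) ^ (-y) = T ^ (-(2 * a * y)) * t ^ (1 / (k : ℝ) * y) := by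
    rw [Real.mul_rpow (by positivity) (by positivity), ← Real.rpow_natCast, ← Real.rpow_mul hT0.le, ← Real.rpow_mul hT0.le,
      ← Real.rpow_mul ht0.le]
    congr 2
    · push_cast
      ring
    · ring
  rw [e2]
  have e3 : t ^ (1 / (k : ℝ) * y) ≤ 2 * T ^ (1 / (k : ℝ) * y) := by
    calc t ^ (1 / (k : ℝ) * y) ≤ (2 * T) ^ (1 / (k : ℝ) * y) := Real.rpow_le_rpow ht0.le ht2 (by positivity)
      _ = 2 ^ (1 / (k : ℝ) * y) * T ^ (1 / (k : ℝ) * y) := Real.mul_rpow (by norm_num) hT0.le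
      _ ≤ 2 * T ^ (1 / (k : ℝ) * y) := by
          refine mul_le_mul_of_nonneg_right ?_ (by positivity)
          calc (2 : ℝ) ^ (1 / (k : ℝ) * y) ≤ 2 ^ (1 : ℝ) := Real.rpow_le_rpow_of_exponent_le (by norm_num) hy1
            _ = 2 := Real.rpow_one 2
  calc T ^ (-(2 * a * y)) * t ^ (1 / (k : ℝ) * y) ≤ T ^ (-(2 * a * y)) * (2 * T ^ (1 / (k : ℝ) * y)) :=
        mul_le_mul_of_nonneg_left e3 (by positivity)
    _ = 2 * T ^ (-((2 * a - 1 / k) * y)) := by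
        rw [show -((2 * a - 1 / k) * y) = -(2 * a * y) + 1 / (k : ℝ) * y by ring, Real.rpow_add hT0]
        ring

/-- the powers in the case `N^k < t` -/
private theorem pwd_side (k : ℕ) (hk : 3 ≤ k) {T t a x : ℝ} (hT : 2 ≤ T) (ht1 : T ≤ t) (ht2 : t ≤ 2 * T) (hx1 : 1 ≤ x)
    (hx : x = T ^ a) (h1 : 1 ≤ (k : ℝ) * a) (h2 : x ^ k < t) :
    (t / x ^ (k + 1)) ^ (1 / (((k + 1 : ℕ) : ℝ) * (((k + 1 : ℕ) : ℝ) - 1))) +
        x ^ (-(1 / (((k + 1 : ℕ) : ℝ) * (((k + 1 : ℕ) : ℝ) - 1)))) +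
        t ^ (-(2 / (((k + 1 : ℕ) : ℝ) ^ 2 * (((k + 1 : ℕ) : ℝ) - 1)))) ≤
      8 * T ^ (-((2 * a - 1 / k) / ((k : ℝ) * (k + 1)))) := by
  have hk3 : (3 : ℝ) ≤ k := by exact_mod_cast hk
  have hT0 : 0 < T := by linarith
  have ht0 : 0 < t := by linarith
  have hx0 : 0 < x := by linarith
  obtain ⟨y, hy⟩ : ∃ y : ℝ, y = 1 / ((k : ℝ) * (k + 1)) := ⟨_, rfl⟩
  have hy0 : 0 ≤ y := by
    rw [hy]
    positivity
  have hy1 : y ≤ 1 := by
    rw [hy, div_le_one (by positivity)]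
    nlinarith
  push_cast
  have e0 : 1 / (((k : ℝ) + 1) * ((k : ℝ) + 1 - 1)) = y := by
    rw [hy]
    congr 1
    ring
  have e1 : (2 * a - 1 / k) / ((k : ℝ) * (k + 1)) = (2 * a - 1 / k) * y := by
    rw [hy]
    ring
  rw [e0, e1]
  -- `T ≤ x^k`
  have hTx : T ≤ x ^ k := by
    rw [hx, ← Real.rpow_natCast, ← Real.rpow_mul hT0.le]
    calc T = T ^ (1 : ℝ) := (Real.rpow_one T).symm
      _ ≤ T ^ (a * k) := Real.rpow_le_rpow_of_exponent_le (by linarith) (by linarith)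
  -- `x^(-y) ≤ 2 T^(-(2a-1/k)y)`
  have hX : x ^ (-y) ≤ 2 * T ^ (-((2 * a - 1 / k) * y)) := by
    have h3 : x ≤ 2 * T ^ (1 / (k : ℝ)) := by
      have h4 : x ^ k ≤ (2 * T ^ (1 / (k : ℝ))) ^ k := by
        rw [mul_pow, ← Real.rpow_natCast (T ^ (1 / (k : ℝ))), ← Real.rpow_mul hT0.le, one_div_mul_cancel (by positivity), Real.rpow_one]
        have h5 : (2 : ℝ) ≤ 2 ^ k := by
          calc (2 : ℝ) = 2 ^ 1 := (pow_one 2).symm
            _ ≤ 2 ^ k := pow_le_pow_right₀ (by norm_num) (by omega)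
        calc x ^ k ≤ t := h2.le
          _ ≤ 2 * T := ht2
          _ ≤ 2 ^ k * T := mul_le_mul_of_nonneg_right h5 hT0.le
      exact le_of_pow_le_pow_left₀ (by omega) (by positivity) h4
    have h6 : x ^ y ≤ 2 * T ^ (1 / (k : ℝ) * y) := by
      calc x ^ y ≤ (2 * T ^ (1 / (k : ℝ))) ^ y := Real.rpow_le_rpow hx0.le h3 hy0
        _ = 2 ^ y * T ^ (1 / (k : ℝ) * y) := by rw [Real.mul_rpow (by norm_num) (by positivity), ← Real.rpow_mul hT0.le]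
        _ ≤ 2 * T ^ (1 / (k : ℝ) * y) := by
            refine mul_le_mul_of_nonneg_right ?_ (by positivity)
            calc (2 : ℝ) ^ y ≤ 2 ^ (1 : ℝ) := Real.rpow_le_rpow_of_exponent_le (by norm_num) hy1
              _ = 2 := Real.rpow_one 2
    have h7 : x ^ (-y) = x ^ y * T ^ (-(2 * a * y)) := by
      have h8 : T ^ (-(2 * a * y)) = x ^ (-(2 * y)) := by
        rw [hx, ← Real.rpow_mul hT0.le]
        congr 1
        ring
      rw [h8, ← Real.rpow_add hx0]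
      congr 1
      ring
    rw [h7]
    calc x ^ y * T ^ (-(2 * a * y)) ≤ 2 * T ^ (1 / (k : ℝ) * y) * T ^ (-(2 * a * y)) :=
          mul_le_mul_of_nonneg_right h6 (by positivity)
      _ = 2 * T ^ (-((2 * a - 1 / k) * y)) := by
          rw [show -((2 * a - 1 / k) * y) = 1 / (k : ℝ) * y + -(2 * a * y) by ring, Real.rpow_add hT0]
          ring
  have hA : (t / x ^ (k + 1)) ^ y ≤ 2 * x ^ (-y) := by
    have h3 : t / x ^ (k + 1) ≤ 2 * x⁻¹ := by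
      rw [div_le_iff₀ (by positivity), pow_succ]
      have h4 : 2 * x⁻¹ * (x ^ k * x) = 2 * x ^ k * (x⁻¹ * x) := by ring
      rw [h4, inv_mul_cancel₀ hx0.ne', mul_one]
      linarith
    calc (t / x ^ (k + 1)) ^ y ≤ (2 * x⁻¹) ^ y := Real.rpow_le_rpow (by positivity) h3 hy0
      _ = 2 ^ y * x ^ (-y) := by
          rw [Real.mul_rpow (by norm_num) (by positivity), Real.inv_rpow hx0.le, Real.rpow_neg hx0.le]
      _ ≤ 2 * x ^ (-y) := by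
          refine mul_le_mul_of_nonneg_right ?_ (by positivity)
          calc (2 : ℝ) ^ y ≤ 2 ^ (1 : ℝ) := Real.rpow_le_rpow_of_exponent_le (by norm_num) hy1
            _ = 2 := Real.rpow_one 2
  have hC : t ^ (-(2 / (((k : ℝ) + 1) ^ 2 * ((k : ℝ) + 1 - 1)))) ≤ x ^ (-y) := by
    have h3 : t ^ (-(2 / (((k : ℝ) + 1) ^ 2 * ((k : ℝ) + 1 - 1)))) ≤ (x ^ k) ^ (-(2 / (((k : ℝ) + 1) ^ 2 * ((k : ℝ) + 1 - 1)))) := by
      refine Real.rpow_le_rpow_of_nonpos (by positivity) h2.le ?_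
      have : 0 ≤ 2 / (((k : ℝ) + 1) ^ 2 * ((k : ℝ) + 1 - 1)) := by
        rw [add_sub_cancel_right]
        positivity
      linarith
    refine h3.trans ?_
    rw [← Real.rpow_natCast, ← Real.rpow_mul hx0.le]
    refine Real.rpow_le_rpow_of_exponent_le hx1 ?_
    have h4 : y ≤ (k : ℝ) * (2 / (((k : ℝ) + 1) ^ 2 * ((k : ℝ) + 1 - 1))) := by
      rw [hy, add_sub_cancel_right, mul_div_assoc', div_le_div_iff₀ (by positivity) (by positivity)]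
      have : 0 ≤ (k : ℝ) * ((k : ℝ) + 1) * (k : ℝ) * (k - 1) := by
        have : 0 ≤ (k : ℝ) - 1 := by linarith
        positivity
      nlinarith
    linarith
  linarith

theorem PW_of_hd (k : ℕ) (hk : 3 ≤ k) {σ : ℝ} (h0 : 0 ≤ σ) (hz : HBB (k + 1)) (hdk : HDB k) : PW σ (hd k) := by
  intro ε hε
  obtain ⟨C, hC, h⟩ := hdk (ε / 2) (by positivity)
  obtain ⟨C', hC', h'⟩ := hz (ε / 2) (by positivity)
  obtain ⟨C0, hC0, hzero⟩ := PW_zero h0 ε hε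
  refine ⟨2 * C + 8 * C' + C0, by positivity, ?_⟩
  intro T hT N hN hNT φ h1 h2 h3 t ht1 ht2
  have hN1 : (1 : ℝ) ≤ N := by exact_mod_cast hN
  have hN0 : (0 : ℝ) < N := by linarith
  have ht0 : 0 < t := by linarith
  have hT0 : 0 < T := by linarith
  have hT1 : 1 ≤ T := by linarith
  unfold hd
  split_ifs with hcase
  swap
  · have h4 := hzero T hT N hN hNT φ h1 h2 h3 t ht1 ht2
    refine h4.trans ?_
    have h5 : 0 ≤ (2 * C + 8 * C') * ((N : ℝ) ^ (1 - σ) * T ^ (ε - 0)) := by positivity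
    rw [add_mul]
    linarith
  obtain ⟨hc1, hc2⟩ := hcase
  obtain ⟨a, ha⟩ : ∃ a : ℝ, a = Real.log N / Real.log T := ⟨_, rfl⟩
  have hNa : (N : ℝ) = T ^ a := by
    rw [ha]
    exact (pwd_log (by linarith) hN0).symm
  rw [← ha] at hc1 hc2 ⊢
  obtain ⟨m, hm⟩ : ∃ m : ℝ, m = (2 * a - 1 / k) / ((k : ℝ) * (k + 1)) := ⟨_, rfl⟩
  rw [← hm]
  -- the unweighted sums
  have hsum : ∀ K, N ≤ K → K ≤ 2 * N → ‖∑ n ∈ Finset.Ioc N K, (n : ℂ) ^ (-((t : ℂ) * Complex.I))‖ ≤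
      (2 * C + 8 * C') * (N : ℝ) ^ (1 + ε / 2) * T ^ (-m) := by
    intro K hK1 hK2
    rcases le_or_gt t ((N : ℝ) ^ k) with h4 | h4
    · have h5 : (N : ℝ) ^ (2 * (k + 1)) ≤ t ^ 3 := by
        have e1 : (N : ℝ) ^ (2 * (k + 1)) = T ^ (2 * ((k : ℝ) + 1) * a) := by
          rw [hNa, ← Real.rpow_natCast, ← Real.rpow_mul hT0.le]
          congr 1
          push_cast
          ring
        rw [e1]
        calc T ^ (2 * ((k : ℝ) + 1) * a) ≤ T ^ (3 : ℝ) := Real.rpow_le_rpow_of_exponent_le hT1 hc2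
          _ = T ^ 3 := by exact_mod_cast Real.rpow_natCast T 3
          _ ≤ t ^ 3 := pow_le_pow_left₀ hT0.le ht1 3
      have h6 := h N K hN hK1 hK2 t h4 h5
      have h7 := pwd_main k hk (a := a) hT ht1 ht2
      rw [← hNa, ← hm] at h7
      refine h6.trans ?_
      calc C * (N : ℝ) ^ (1 + ε / 2) * ((N : ℝ) ^ 2 * t ^ (-(1 / (k : ℝ)))) ^ (-(1 / ((k : ℝ) * (k + 1)))) ≤
            C * (N : ℝ) ^ (1 + ε / 2) * (2 * T ^ (-m)) := mul_le_mul_of_nonneg_left h7 (by positivity)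
        _ ≤ (2 * C + 8 * C') * (N : ℝ) ^ (1 + ε / 2) * T ^ (-m) := by
            have : 0 ≤ C' * (N : ℝ) ^ (1 + ε / 2) * T ^ (-m) := by positivity
            linarith
    · have h6 := h' N K hN hK1 hK2 t (by linarith)
      have h7 := pwd_side k hk hT ht1 ht2 hN1 hNa hc1 h4
      rw [← hm] at h7
      refine h6.trans ?_
      refine (mul_le_mul_of_nonneg_left h7 (by positivity)).trans ?_
      have : 0 ≤ C * (N : ℝ) ^ (1 + ε / 2) * T ^ (-m) := by positivity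
      linarith
  have hanti : ∀ n, N < n → φ (n + 1) * ((n + 1 : ℕ) : ℝ) ^ (-σ) ≤ φ n * (n : ℝ) ^ (-σ) := by
    intro n hn
    have hn0 : (0 : ℝ) < n := by exact_mod_cast (by omega : 0 < n)
    refine mul_le_mul (h3 (Nat.le_succ n)) ?_ (by positivity) (h1 n)
    exact Real.rpow_le_rpow_of_nonpos hn0 (by exact_mod_cast Nat.le_succ n) (by linarith)
  have hB0 : 0 ≤ (2 * C + 8 * C') * (N : ℝ) ^ (1 + ε / 2) * T ^ (-m) := by positivity
  have key := pwd_abel (fun n => φ n * (n : ℝ) ^ (-σ)) (fun n => (n : ℂ) ^ (-((t : ℂ) * Complex.I))) N (2 * N)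
    ((2 * C + 8 * C') * (N : ℝ) ^ (1 + ε / 2) * T ^ (-m)) (by omega) hanti (fun n => mul_nonneg (h1 n) (by positivity))
    hsum
  refine key.trans ?_
  have h4 : φ (N + 1) * ((N + 1 : ℕ) : ℝ) ^ (-σ) ≤ (N : ℝ) ^ (-σ) := by
    have h5 : ((N + 1 : ℕ) : ℝ) ^ (-σ) ≤ (N : ℝ) ^ (-σ) :=
      Real.rpow_le_rpow_of_nonpos hN0 (by exact_mod_cast Nat.le_succ N) (by linarith)
    have h6 : (0 : ℝ) ≤ ((N + 1 : ℕ) : ℝ) ^ (-σ) := by positivity
    calc φ (N + 1) * ((N + 1 : ℕ) : ℝ) ^ (-σ) ≤ 1 * ((N + 1 : ℕ) : ℝ) ^ (-σ) :=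
          mul_le_mul_of_nonneg_right (h2 _) h6
      _ ≤ (N : ℝ) ^ (-σ) := by rw [one_mul]; exact h5
  have h8 : (N : ℝ) ^ (ε / 2) * T ^ (-m) ≤ T ^ (ε - m) := by
    rw [sub_eq_add_neg, Real.rpow_add hT0]
    refine mul_le_mul_of_nonneg_right ?_ (by positivity)
    exact (Real.rpow_le_rpow hN0.le hNT (by positivity)).trans (Real.rpow_le_rpow_of_exponent_le hT1 (by linarith))
  calc φ (N + 1) * ((N + 1 : ℕ) : ℝ) ^ (-σ) * ((2 * C + 8 * C') * (N : ℝ) ^ (1 + ε / 2) * T ^ (-m)) ≤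
      (N : ℝ) ^ (-σ) * ((2 * C + 8 * C') * (N : ℝ) ^ (1 + ε / 2) * T ^ (-m)) := mul_le_mul_of_nonneg_right h4 hB0
    _ = (2 * C + 8 * C') * (N : ℝ) ^ (1 - σ) * ((N : ℝ) ^ (ε / 2) * T ^ (-m)) := by
        rw [sub_eq_add_neg, Real.rpow_add hN0 1 (ε / 2), Real.rpow_add hN0 1 (-σ)]
        ring
    _ ≤ (2 * C + 8 * C') * (N : ℝ) ^ (1 - σ) * T ^ (ε - m) := mul_le_mul_of_nonneg_left h8 (by positivity)
    _ ≤ (2 * C + 8 * C' + C0) * ((N : ℝ) ^ (1 - σ) * T ^ (ε - m)) := by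
        have : 0 ≤ C0 * ((N : ℝ) ^ (1 - σ) * T ^ (ε - m)) := by positivity
        linarith

/-- the maximum of the savings `hd 3, ..., hd (n + 2)` -/
noncomputable def thd : ℕ → ℝ → ℝ
  | 0 => fun _ => 0
  | n + 1 => fun a => max (thd n a) (hd (n + 3) a)

theorem PW_thd {σ : ℝ} (h0 : 0 ≤ σ) (hz : ∀ q : ℕ, 3 ≤ q → HBB q) (hd0 : ∀ k : ℕ, 3 ≤ k → HDB k) (n : ℕ) : PW σ (thd n) := by
  induction n with
  | zero => exact PW_zero h0
  | succ n ih => exact PW_max ih (PW_of_hd (n + 3) (by omega) h0 (hz (n + 4) (by omega)) (hd0 (n + 3) (by omega)))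

theorem le_thd {n : ℕ} {k : ℕ} (h1 : 3 ≤ k) (h2 : k < n + 3) (a : ℝ) : hd k a ≤ thd n a := by
  induction n with
  | zero => omega
  | succ n ih =>
    rcases Nat.lt_or_ge k (n + 3) with h3 | h3
    · exact le_max_of_le_left (ih h3)
    · obtain rfl : k = n + 3 := by omega
      exact le_max_right _ _

end Pool.Agent.Lib.PR
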