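import Pool.Agent.Lib.PR.DVB
import Pool.Agent.Lib.PR.PWD
import Pool.Agent.Lib.PR.LR

/-!
# PR / DR: the bounds with the dilation test

`alphaAllD` (`k ≥ 18`): `alpha k ≤ 1 - m/k` for every `m` with `RecD k m`.
`betaAllD` (`k ≥ 8`): `beta k ≤ 1 - m/k` for every `m ≤ (k+4)/4`, `m ≤ (k+16)/8` with `RecDL k m`.
-/

set_option autoImplicit false

namespace Pool.Agent.Lib.PR

open Pool.Agent.Lib.MP_bc6037_nt

/-- all the savings: van der Corput, Heath-Brown, new derivative test, dilation test -/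
noncomputable def thx (k : ℕ) (a : ℝ) : ℝ := max (thw k a) (thd k a)

theorem thx_nonneg (k : ℕ) (a : ℝ) : 0 ≤ thx k a := le_max_of_le_left (thw_nonneg k a)

theorem PW_thx {σ : ℝ} (h0 : 0 ≤ σ) (hz : ∀ q : ℕ, 3 ≤ q → HBB q) (hj : ∀ q : ℕ, 4 ≤ q → HJB q) (hd : ∀ q : ℕ, 3 ≤ q → HDB q)
    (k : ℕ) : PW σ (thx k) :=
  PW_max (PW_thw h0 hz hj k) (PW_thd h0 hz hd k)

theorem thx_v {k : ℕ} {a e s : ℝ} (hs : thx k a - e ≤ s) (q : ℕ) (hq : q ≤ 3) (hqa : a * ((q : ℝ) + nu q) ≤ 1) :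
    kp q * (((q : ℝ) + 2) * a - 1) - e ≤ s :=
  thw_v (k := k) (by have h1 : thw k a ≤ thx k a := le_max_left _ _; linarith) q hq hqa

theorem thx_h {k : ℕ} {a e s : ℝ} (hs : thx k a - e ≤ s) (q : ℕ) (hq : 4 ≤ q) (hqk : (q : ℝ) ≤ k) : hb q a - e ≤ s :=
  thw_h (k := k) (by have h1 : thw k a ≤ thx k a := le_max_left _ _; linarith) q hq hqk

theorem thx_j {k : ℕ} {a e s : ℝ} (hs : thx k a - e ≤ s) (q : ℕ) (hq : 4 ≤ q) (hqk : (q : ℝ) ≤ k) (hqa : ((q : ℝ) - 1) * a ≤ 1) :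
    hv q a - e ≤ s :=
  thw_j (k := k) (by have h1 : thw k a ≤ thx k a := le_max_left _ _; linarith) q hq hqk hqa

theorem thx_d {k : ℕ} {a e s : ℝ} (hs : thx k a - e ≤ s) (q : ℕ) (hq : 3 ≤ q) (hqk : (q : ℝ) ≤ k) (h1 : 1 ≤ (q : ℝ) * a)
    (h2 : 2 * ((q : ℝ) + 1) * a ≤ 3) : (2 * a - 1 / q) / ((q : ℝ) * (q + 1)) - e ≤ s := by
  have hqk' : q ≤ k := by exact_mod_cast hqk
  have h3 := le_thd (n := k) (k := q) hq (by omega) a
  have h4 : thd k a ≤ thx k a := le_max_right _ _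
  have h5 : hd q a = (2 * a - 1 / q) / ((q : ℝ) * (q + 1)) := by
    unfold hd
    rw [if_pos ⟨h1, h2⟩]
  linarith

/-- the kernel case in the form needed for the blocks -/
theorem kerC_useD {k : ℕ} {a s e : ℝ} (ha : 0 ≤ a) (h : KerC k a s e) :
    ∃ X : ℝ, 0 ≤ X ∧ X ≤ a ∧ 4 * s + e ≤ X ∧ ∀ y, 2 * a ≤ y → y ≤ 1 → X * y ≤ 2 * a * thx k y := by
  obtain ⟨X, h1, h2, h3, h4⟩ := kerC_useV ha h
  refine ⟨X, h1, h2, h3, fun y hy1 hy2 => (h4 y hy1 hy2).trans ?_⟩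
  exact mul_le_mul_of_nonneg_left (le_max_left _ _) (by linarith)

theorem blockMomD (k : ℕ) (hk1 : 18 ≤ k) {m : ℝ} (hm : 0 < m) (hR : RecD k m) (hz : ∀ q : ℕ, 3 ≤ q → HBB q)
    (hj : ∀ q : ℕ, 4 ≤ q → HJB q) (hd : ∀ q : ℕ, 3 ≤ q → HDB q) : BlockMom k (1 - m / k) := by
  have hk : (18 : ℝ) ≤ k := by exact_mod_cast hk1
  have hk0 : (0 : ℝ) < k := by linarith
  have h3 : 0 < m / k := div_pos hm hk0
  have h4 : m / k ≤ 1 / 2 := by
    rw [div_le_iff₀ hk0]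
    linarith [hR.1]
  have hB : BlockMomM k 1 (1 - m / k) := by
    refine blockMomK_gen k k (m / k) k 1 le_rfl h3 h4 hk0.le (thx k)
      (PW_thx (by linarith) hz hj hd k) (PW_thx le_rfl hz hj hd k) ?_
    intro a s e ha0 ha1 he0 _ hs
    have hs0 : -e ≤ s := by
      have := thx_nonneg k a
      linarith
    have h6 : (k : ℝ) * (s - a * (m / k)) = k * s - a * m := by
      field_simp
    rcases optD hk hR ha0 ha1 he0.le hs0 (thx_v hs) (thx_j hs) (thx_d hs) with ⟨j, hj, h7, h8⟩ | ⟨h7, h8⟩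
    · refine Or.inl ⟨j, by exact_mod_cast hj, ?_⟩
      rw [h6]
      exact ⟨by linarith, h8.imp (fun h => by linarith) (fun h => by linarith)⟩
    · refine Or.inr ⟨?_, kerC_useD ha0 h8⟩
      rw [h6]
      linarith
  exact hB

theorem alphaAllD (k : ℕ) (hk1 : 18 ≤ k) {m : ℝ} (hR : RecD k m) (hz : ∀ q : ℕ, 3 ≤ q → HBB q) (hj : ∀ q : ℕ, 4 ≤ q → HJB q)
    (hd : ∀ q : ℕ, 3 ≤ q → HDB q) : alpha k ≤ 1 - m / k := by
  have hk : (18 : ℝ) ≤ k := by exact_mod_cast hk1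
  have hk0 : (0 : ℝ) < k := by linarith
  rcases le_or_gt m 0 with hm | hm
  · have h1 := Limit.alpha_lt_one k
    have h2 : m / k ≤ 0 := div_nonpos_of_nonpos_of_nonneg hm hk0.le
    linarith
  have h3 : 0 < m / k := div_pos hm hk0
  have h4 : m / k ≤ 1 / 2 := by
    rw [div_le_iff₀ hk0]
    linarith [hR.1]
  have h := FO.alpha_le_of_mom (j := k) (σ := 1 - m / k) (M := 1) (by linarith) (by linarith) le_rfl
    (mom_of_block (by linarith) (by linarith) (blockMomD k hk1 hm hR hz hj hd))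
  linarith

/-- the arithmetic of the exponents, mean square, all `a` -/
theorem optDB {k m a s e : ℝ} (hk : 8 ≤ k) (g1 : m ≤ (k + 4) / 4) (g2 : m ≤ (k + 16) / 8) (hR : RecDL k m) (ha0 : 0 ≤ a) (ha1 : a ≤ 1)
    (he : 0 ≤ e) (hs0 : -e ≤ s)
    (ht : ∀ q : ℕ, q ≤ 3 → a * ((q : ℝ) + nu q) ≤ 1 → kp q * (((q : ℝ) + 2) * a - 1) - e ≤ s)
    (hn : ∀ q : ℕ, 4 ≤ q → (q : ℝ) ≤ k → ((q : ℝ) - 1) * a ≤ 1 → hv q a - e ≤ s)
    (hd : ∀ q : ℕ, 3 ≤ q → (q : ℝ) ≤ k → 1 ≤ (q : ℝ) * a → 2 * ((q : ℝ) + 1) * a ≤ 3 →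
      (2 * a - 1 / q) / ((q : ℝ) * (q + 1)) - e ≤ s) : ConclKB k m a s e := by
  have g3 := hR.1
  have n0 : nu 0 = 1 := by unfold nu; norm_num
  have n1 : nu 1 = 1 / 2 := by unfold nu; norm_num
  have n2 : nu 2 = 1 / 4 := by unfold nu; norm_num
  have k0 : kp 0 = 1 / 2 := by unfold kp; norm_num
  have k1 : kp 1 = 1 / 6 := by unfold kp; norm_num
  have k2 : kp 2 = 1 / 14 := by unfold kp; norm_num
  rcases le_total (2 / 3) a with h | h
  · have hs := ht 0 (by norm_num) (by rw [n0]; push_cast; linarith)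
    rw [k0] at hs
    push_cast at hs
    refine Or.inl (conclB_lin 2 1 (-1 / 2) (2 / 3) 1 (by push_cast; linarith) he (by linarith) h ha1 ?_ ?_ ?_ ?_) <;>
      push_cast <;> linarith
  have h' := h
  rcases le_total (4 / 9) a with h | h
  · have hs := ht 1 (by norm_num) (by rw [n1]; push_cast; linarith)
    rw [k1] at hs
    push_cast at hs
    refine Or.inl (conclB_lin 2 (1 / 2) (-1 / 6) (4 / 9) (2 / 3) (by push_cast; linarith) he (by linarith) h h' ?_ ?_ ?_ ?_) <;>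
      push_cast <;> linarith
  clear h'
  have h' := h
  rcases le_total (3 / 8) a with h | h
  · have hs := ht 2 (by norm_num) (by rw [n2]; push_cast; linarith)
    rw [k2] at hs
    push_cast at hs
    refine Or.inl (conclB_lin 2 (2 / 7) (-1 / 14) (3 / 8) (4 / 9) (by push_cast; linarith) he (by linarith) h h' ?_ ?_ ?_ ?_) <;>
      push_cast <;> linarith
  exact optDB_low (by linarith) (by linarith) (by linarith) hR ha0 h he hs0 ht hn hd

theorem betaAllD (k : ℕ) (hk1 : 8 ≤ k) {m : ℝ} (g1 : m ≤ ((k : ℝ) + 4) / 4) (g2 : m ≤ ((k : ℝ) + 16) / 8) (hR : RecDL k m)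
    (hz : ∀ q : ℕ, 3 ≤ q → HBB q) (hj : ∀ q : ℕ, 4 ≤ q → HJB q) (hd : ∀ q : ℕ, 3 ≤ q → HDB q) : beta k ≤ 1 - m / k := by
  have hk : (8 : ℝ) ≤ k := by exact_mod_cast hk1
  have hk0 : (0 : ℝ) < k := by linarith
  have hb1 : beta k < 1 := (Limit.beta_le_alpha k).trans_lt (Limit.alpha_lt_one k)
  rcases le_or_gt m 0 with hm | hm
  · have h2 : m / k ≤ 0 := div_nonpos_of_nonpos_of_nonneg hm hk0.le
    linarith
  have h3 : 0 < m / k := div_pos hm hk0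
  have h4 : m / k ≤ 1 / 2 := by
    rw [div_le_iff₀ hk0]
    linarith
  refine Rec.beta_le_of_fin (by linarith) fun σ hσ => ?_
  rcases lt_or_ge σ 1 with hσ1 | hσ1
  swap
  · exact Rec.fin_of_beta (by omega) (hb1.trans_le hσ1)
  refine fin_genK k k (by omega) (m / k) (2 * k) h3 h4 le_rfl (thx k) (thx_nonneg k)
    (fun σ h0 => PW_thx h0 hz hj hd k) ?_ hσ hσ1
  intro a s e ha0 ha1 he0 _ hs
  have hs0 : -e ≤ s := by
    have := thx_nonneg k a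
    linarith
  have h6 : 2 * (k : ℝ) * (s - a * (m / k)) = 2 * k * s - 2 * a * m := by
    field_simp
  rcases optDB hk g1 g2 hR ha0 ha1 he0 hs0 (thx_v hs) (thx_j hs) (thx_d hs) with ⟨j, hj, h7, h8⟩ | ⟨h7, h8⟩
  · refine Or.inl ⟨j, by exact_mod_cast hj, ?_⟩
    rw [h6]
    exact ⟨by linarith, h8.imp (fun h => by linarith) (fun h => by linarith)⟩
  · refine Or.inr ⟨?_, kerC_useD ha0 h8⟩
    rw [h6]
    linarith

end Pool.Agent.Lib.PR
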