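import Pool.Agent.Lib.PR.DO

/-!
# PR / DV: the arithmetic of the exponents with the dilation test, pointwise, all `k ≥ 18`

`HD (k - 4) q` is the corner value of order `q`.
-/

set_option autoImplicit false

namespace Pool.Agent.Lib.PR

/-- `m` is at most all the corner values -/
def RecD (k m : ℝ) : Prop := m ≤ (k + 26) / 11 ∧ ∀ q : ℕ, 4 ≤ q → m ≤ HD (k - 4) q

/-- the interval `[1/Q, 1/(Q-1)]`, pointwise -/
theorem okD {k m a s e : ℝ} (Q : ℕ) (hQ : 5 ≤ Q) (hk : 3 * ((Q : ℝ) + 1) ≤ k) (he : 0 ≤ e)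
    (g4 : ∀ q : ℕ, 4 ≤ q → m ≤ HD (k - 4) q)
    (l1 : 1 / (Q : ℝ) ≤ a) (l2 : a ≤ 1 / ((Q : ℝ) - 1))
    (hs1 : 2 * ((Q : ℝ) + 1) * a ≤ 3 → (2 * a - 1 / Q) / ((Q : ℝ) * (Q + 1)) - e ≤ s) (hs2 : hv Q a - e ≤ s) :
    ConclK k m a s e := by
  have hQ5 : (5 : ℝ) ≤ Q := by exact_mod_cast hQ
  have hQ0 : (0 : ℝ) < Q := by linarith
  have hQ1 : (0 : ℝ) < Q - 1 := by linarith
  have ha : 0 < a := lt_of_lt_of_le (by positivity) l1
  obtain ⟨R, p, hR, hRp, hp1, hR3⟩ : ∃ R p : ℕ, R = (Q + 1) / 2 ∧ 2 * R = Q + p ∧ p ≤ 1 ∧ 3 ≤ R :=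
    ⟨(Q + 1) / 2, Q % 2, rfl, by omega, by omega, by omega⟩
  have hRp' : 2 * (R : ℝ) = Q + p := by exact_mod_cast hRp
  have hp : (0 : ℝ) ≤ p := Nat.cast_nonneg p
  have hp1' : (p : ℝ) ≤ 1 := by exact_mod_cast hp1
  have hR3' : (3 : ℝ) ≤ R := by exact_mod_cast hR3
  have hQa : 1 ≤ (Q : ℝ) * a := by
    rw [div_le_iff₀ hQ0] at l1
    linarith
  have hK : 0 ≤ k - 4 := by linarith
  have hm2 : m ≤ (Q : ℝ) - 1 + (k - 4) / ((Q : ℝ) * (Q - 1)) := by
    have h3 := HD_q (Q - 1) (by omega) (g4 (Q - 1) (by omega)) (g4 (Q - 1 + 1) (by omega))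
    rw [Nat.cast_sub (by omega)] at h3
    push_cast at h3
    rw [sub_add_cancel, mul_comm ((Q : ℝ) - 1)] at h3
    exact h3
  rcases le_or_gt (4 * s + e) (2 * a / ((R : ℝ) * (R + 1))) with hX | hX
  · -- the kernel case
    refine Or.inr ⟨?_, R, hR3, by linarith, by nlinarith, hX⟩
    have h1 := lineD Q (by omega) hK (g4 Q (by omega)) (g4 (Q + 1) (by omega)) hm2 l1 l2 hs1 hs2
    linarith
  · -- the power `R`
    refine Or.inl ?_
    have hs3 : 1 / (2 * (R : ℝ) * (R + 1)) * a - e ≤ s := by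
      have e1 : 1 / (2 * (R : ℝ) * (R + 1)) * a = (2 * a / ((R : ℝ) * (R + 1))) / 4 := by
        field_simp
        ring
      linarith
    rcases hQ.eq_or_lt with h9 | h9
    · have h10 : R = 3 := by omega
      subst h9
      rw [h10] at hs3
      push_cast at l1 l2 hs3 hk
      have g5 := g4 4 (by norm_num)
      have g6 := g4 5 (by norm_num)
      unfold HD at g5 g6
      push_cast at g5 g6
      norm_num at g5 g6
      rcases le_total a (34 / 145) with h | h
      · refine powV (c := 1 / 24) (a1 := 1 / 5) (a2 := 34 / 145) 3 (by norm_num) l1 h (by push_cast; linarith) he (by linarith) ?_ ?_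
        · push_cast
          norm_num
          linarith
        · push_cast
          norm_num
      · rcases le_total a (17 / 70) with h' | h'
        · have h11 : 17 / 60 * a + (-17 / 300) - e ≤ s := by
            have h12 : hv 5 a = 17 / 60 * a + (-17 / 300) := by
              unfold hv
              push_cast
              rw [min_eq_left]
              · ring
              · linarith
            rw [h12] at hs2
            exact hs2
          refine concl_lin 3 (17 / 60) (-17 / 300) (34 / 145) (17 / 70) (by push_cast; linarith) he h11 h h' ?_ ?_ ?_ ?_ <;>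
            push_cast <;> linarith
        · refine powV (c := 1 / 20) (a1 := 17 / 70) (a2 := 1 / 4) 3 (by norm_num) h' (by linarith) (by push_cast; linarith) he
            (by linarith [hv_flat5 h' hs2]) ?_ ?_
          · push_cast
            norm_num
            linarith
          · push_cast
            norm_num
    · have h10 := powD Q R h9 hR hK g4
      have e0 : k - 4 + 4 - 2 * (R : ℝ) = k - 2 * R := by ring
      rw [e0] at h10
      refine powV (c := 1 / (2 * (R : ℝ) * (R + 1))) R (a1 := 1 / (Q : ℝ)) (a2 := 1 / ((Q : ℝ) - 1)) (by positivity) l1 l2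
        (by linarith) he hs3 ?_ ?_
      · rw [one_div_one_div, mul_one_div]
        linarith
      · rw [one_div_one_div]
        have e1 : 4 * (R : ℝ) * (1 / (2 * (R : ℝ) * (R + 1))) = 2 / ((R : ℝ) + 1) := by
          field_simp
          ring
        have e2 : 2 / ((R : ℝ) + 1) ≤ 1 := by
          rw [div_le_one (by linarith)]
          linarith
        rw [e1]
        linarith

/-- the dilation test of order `3` -/
theorem hd_three {a s e : ℝ} (hs : (2 * a - 1 / (3 : ℕ)) / (((3 : ℕ) : ℝ) * ((3 : ℕ) + 1)) - e ≤ s) : 1 / 6 * a + (-1 / 36) - e ≤ s := by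
  push_cast at hs
  linarith

/-- the dilation test of order `4` -/
theorem hd_four {a s e : ℝ} (hs : (2 * a - 1 / (4 : ℕ)) / (((4 : ℕ) : ℝ) * ((4 : ℕ) + 1)) - e ≤ s) : 1 / 10 * a + (-1 / 80) - e ≤ s := by
  push_cast at hs
  linarith

/-- the arithmetic of the exponents -/
theorem optD {k m a s e : ℝ} (hk : 18 ≤ k) (hR : RecD k m) (ha0 : 0 ≤ a) (ha1 : a ≤ 1) (he : 0 ≤ e) (hs0 : -e ≤ s)
    (ht : ∀ q : ℕ, q ≤ 3 → a * ((q : ℝ) + nu q) ≤ 1 → kp q * (((q : ℝ) + 2) * a - 1) - e ≤ s)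
    (hn : ∀ q : ℕ, 4 ≤ q → (q : ℝ) ≤ k → ((q : ℝ) - 1) * a ≤ 1 → hv q a - e ≤ s)
    (hd : ∀ q : ℕ, 3 ≤ q → (q : ℝ) ≤ k → 1 ≤ (q : ℝ) * a → 2 * ((q : ℝ) + 1) * a ≤ 3 →
      (2 * a - 1 / q) / ((q : ℝ) * (q + 1)) - e ≤ s) : ConclK k m a s e := by
  obtain ⟨g1, g4⟩ := hR
  have g5 := g4 4 le_rfl
  have g6 := g4 5 (by norm_num)
  unfold HD at g5 g6
  push_cast at g5 g6
  norm_num at g5 g6
  have n0 : nu 0 = 1 := by unfold nu; norm_num
  have n1 : nu 1 = 1 / 2 := by unfold nu; norm_num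
  have n2 : nu 2 = 1 / 4 := by unfold nu; norm_num
  have k0 : kp 0 = 1 / 2 := by unfold kp; norm_num
  have k1 : kp 1 = 1 / 6 := by unfold kp; norm_num
  have k2 : kp 2 = 1 / 14 := by unfold kp; norm_num
  rcases le_total (2 / 3) a with h | h
  · have hs := ht 0 (by norm_num) (by rw [n0]; push_cast; linarith)
    rw [k0] at hs
    push_cast at hs
    refine Or.inl (concl_lin 2 1 (-1 / 2) (2 / 3) 1 (by push_cast; linarith) he (by linarith) h ha1 ?_ ?_ ?_ ?_) <;>
      push_cast <;> linarith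
  have h' := h
  rcases le_total (4 / 9) a with h | h
  · have hs := ht 1 (by norm_num) (by rw [n1]; push_cast; linarith)
    rw [k1] at hs
    push_cast at hs
    refine Or.inl (concl_lin 2 (1 / 2) (-1 / 6) (4 / 9) (2 / 3) (by push_cast; linarith) he (by linarith) h h' ?_ ?_ ?_ ?_) <;>
      push_cast <;> linarith
  clear h'
  have h' := h
  rcases le_total (11 / 30) a with h | h
  · have hs := ht 2 (by norm_num) (by rw [n2]; push_cast; linarith)
    rw [k2] at hs
    push_cast at hs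
    refine Or.inl (concl_lin 2 (2 / 7) (-1 / 14) (11 / 30) (4 / 9) (by push_cast; linarith) he (by linarith) h h' ?_ ?_ ?_ ?_) <;>
      push_cast <;> linarith
  clear h'
  have h' := h
  rcases le_total (1 / 3) a with h | h
  · have hs := hd_three (hd 3 le_rfl (by push_cast; linarith) (by push_cast; linarith) (by push_cast; linarith))
    refine Or.inl (concl_lin 2 (1 / 6) (-1 / 36) (1 / 3) (11 / 30) (by push_cast; linarith) he hs h h' ?_ ?_ ?_ ?_) <;>
      push_cast <;> linarith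
  clear h'
  have h' := h
  rcases le_total (13 / 40) a with h | h
  · have hs := hv_flat4 h (hn 4 le_rfl (by push_cast; linarith) (by push_cast; linarith))
    refine Or.inl (concl_lin 2 (1 / 12) 0 (13 / 40) (1 / 3) (by push_cast; linarith) he hs h h' ?_ ?_ ?_ ?_) <;>
      push_cast <;> linarith
  clear h'
  have h' := h
  rcases le_total (14 / 47) a with h | h
  · have hs := hv_rise4 h' (hn 4 le_rfl (by push_cast; linarith) (by push_cast; linarith))
    refine Or.inl (concl_lin 2 (13 / 36) (-13 / 144) (14 / 47) (13 / 40) (by push_cast; linarith) he hs h h' ?_ ?_ ?_ ?_) <;>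
      push_cast <;> linarith
  clear h'
  have h' := h
  rcases le_total (37 / 136) a with h | h
  · have hs := hd_four (hd 4 (by norm_num) (by push_cast; linarith) (by push_cast; linarith) (by push_cast; linarith))
    refine Or.inl (concl_lin 2 (1 / 10) (-1 / 80) (37 / 136) (14 / 47) (by push_cast; linarith) he hs h h' ?_ ?_ ?_ ?_) <;>
      push_cast <;> linarith
  clear h'
  have h' := h
  rcases le_total (1 / 4) a with h | h
  · have hs := hd_four (hd 4 (by norm_num) (by push_cast; linarith) (by push_cast; linarith) (by push_cast; linarith))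
    refine Or.inl (concl_lin 3 (1 / 10) (-1 / 80) (1 / 4) (37 / 136) (by push_cast; linarith) he hs h h' ?_ ?_ ?_ ?_) <;>
      push_cast <;> linarith
  clear h'
  have h' := h
  -- now `a ≤ 1/4`
  have hM1 : m ≤ (⌈m⌉₊ : ℝ) := Nat.le_ceil m
  rcases le_or_gt (a * (⌈m⌉₊ : ℝ)) 1 with h1 | h1
  · have hM2 : (⌈m⌉₊ : ℝ) ≤ max m 0 + 1 := by
      rcases le_total m 0 with h2 | h2
      · rw [Nat.ceil_eq_zero.2 h2, Nat.cast_zero]
        linarith [le_max_right m 0]
      · rw [max_eq_left h2]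
        exact (Nat.ceil_lt_add_one h2).le
    have hM3 : max m 0 ≤ (k + 26) / 11 := max_le g1 (by linarith)
    exact Or.inl (concl_mv ⌈m⌉₊ (by linarith) he ha0 hs0 hM1 h1)
  have ha : 0 < a := by
    rcases ha0.eq_or_lt with h2 | h2
    · rw [← h2, zero_mul] at h1
      linarith
    · exact h2
  have hm0 : 0 < m := by
    by_contra h2
    rw [Nat.ceil_eq_zero.2 (not_lt.1 h2), Nat.cast_zero, mul_zero] at h1
    linarith
  have hM2 : (⌈m⌉₊ : ℝ) < m + 1 := Nat.ceil_lt_add_one hm0.le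
  obtain ⟨Q, hQ⟩ : ∃ Q : ℕ, Q = ⌊1 / a⌋₊ + 1 := ⟨_, rfl⟩
  have h2 : 1 / a < Q := by
    rw [hQ]
    push_cast
    exact Nat.lt_floor_add_one _
  have h3 : (Q : ℝ) - 1 ≤ 1 / a := by
    rw [hQ]
    push_cast
    have := Nat.floor_le (show 0 ≤ 1 / a by positivity)
    linarith
  have h4 : 1 / a < (⌈m⌉₊ : ℝ) := by
    rw [div_lt_iff₀ ha]
    linarith
  have h5 : Q ≤ ⌈m⌉₊ := by
    have : (Q : ℝ) < (⌈m⌉₊ : ℝ) + 1 := by linarith
    have h6 : Q < ⌈m⌉₊ + 1 := by exact_mod_cast this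
    omega
  have h6 : (Q : ℝ) ≤ m + 1 := by
    have : (Q : ℝ) ≤ (⌈m⌉₊ : ℝ) := by exact_mod_cast h5
    linarith
  have h7 : 5 ≤ Q := by
    have e1 : (4 : ℝ) ≤ 1 / a := by
      rw [le_div_iff₀ ha]
      linarith
    have e2 : 4 ≤ ⌊1 / a⌋₊ := Nat.le_floor (by exact_mod_cast e1)
    omega
  have hQ5 : (5 : ℝ) ≤ Q := by exact_mod_cast h7
  have l1 : 1 / (Q : ℝ) ≤ a := by
    rw [div_le_iff₀ (by linarith)]
    rw [div_lt_iff₀ ha] at h2
    linarith
  have l0 : 1 ≤ (Q : ℝ) * a := by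
    rw [div_lt_iff₀ ha] at h2
    exact h2.le
  have l3 : ((Q : ℝ) - 1) * a ≤ 1 := by
    rwa [le_div_iff₀ ha] at h3
  have l2 : a ≤ 1 / ((Q : ℝ) - 1) := by
    rw [le_div_iff₀ (by linarith)]
    linarith
  exact okD Q h7 (by linarith) he g4 l1 l2 (fun hr => hd Q (by omega) (by linarith) l0 hr) (hn Q (by omega) (by linarith) l3)

end Pool.Agent.Lib.PR
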