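import Mathlib

/-!
# Piltz records: definitions

`kp q = 1/(2^(q+2)-2)` (`1/2, 1/6, 1/14, ...`), `nu q = 2^(-q)`, `mm k`: the records are
`alpha k ≤ 1 - mm k / k`.  `VD q θ L lam C`: all differences of order `q+2` of `θ` on `[0, L]` (the last two
with step 1, the first `q` with arbitrary steps) lie between `lam` and `C lam` times the product of the steps.
`BlockMom k σ`: `V^k |{t ∈ [T,2T] : |D(t)| ≥ V}| ≤ C T^(1+ε)` for all dyadic blocks `D` of `ζ(σ+it)` of length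
`≤ T` with decreasing weights.
-/

set_option autoImplicit false

open MeasureTheory

namespace Pool.Agent.Lib.PR

/-- the van der Corput exponent `1/(2^(q+2)-2)` -/
noncomputable def kp (q : ℕ) : ℝ := 1 / ((2 : ℝ) ^ (q + 2) - 2)

/-- `2^(-q)` -/
noncomputable def nu (q : ℕ) : ℝ := 1 / (2 : ℝ) ^ q

/-- the records: `alpha k ≤ 1 - mm k / k` for `18 ≤ k ≤ 262` -/
noncomputable def mm (k : ℝ) : ℝ :=
  min ((k + 46) / 16) (min ((k + 84) / 24) (min ((k + 124) / 32) (min ((k + 316) / 64)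
    (min ((k + 678) / 116) ((k + 762) / 128)))))

/-- the differences of order `q + 2` of `θ` on `[0, L]` are between `lam` and `C lam` (all steps) -/
def VD : ℕ → (ℕ → ℝ) → ℕ → ℝ → ℝ → Prop
  | 0, θ, L, lam, C => ∀ n : ℕ, n + 1 < L →
      lam ≤ θ (n + 2) - 2 * θ (n + 1) + θ n ∧ θ (n + 2) - 2 * θ (n + 1) + θ n ≤ C * lam
  | q + 1, θ, L, lam, C => ∀ h : ℕ, 1 ≤ h → h < L →
      VD q (fun n => θ (n + h) - θ n) (L - h) ((h : ℝ) * lam) C

/-- the bound for the dyadic blocks -/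
def BlockMom (k : ℕ) (σ : ℝ) : Prop :=
  ∀ ε : ℝ, 0 < ε → ∃ C : ℝ, 0 ≤ C ∧ ∀ T : ℝ, 1 ≤ T → ∀ N : ℕ, 1 ≤ N → (N : ℝ) ≤ T →
    ∀ φ : ℕ → ℝ, (∀ n, 0 ≤ φ n) → (∀ n, φ n ≤ 1) → Antitone φ → ∀ V : ℝ, 1 ≤ V →
      V ^ k * (volume {t : ℝ | t ∈ Set.Icc T (2 * T) ∧
        V ≤ ‖∑ n ∈ Finset.Ioc N (2 * N), ((φ n * (n : ℝ) ^ (-σ) : ℝ) : ℂ) *
          (n : ℂ) ^ (-((t : ℂ) * Complex.I))‖}).toReal ≤ C * T ^ (1 + ε)

theorem two_pow_ge (q : ℕ) : (4 : ℝ) ≤ (2 : ℝ) ^ (q + 2) := by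
  have : (1 : ℝ) ≤ (2 : ℝ) ^ q := one_le_pow₀ (by norm_num)
  rw [pow_add]
  linarith

theorem kp_pos (q : ℕ) : 0 < kp q := by
  have := two_pow_ge q
  unfold kp
  exact div_pos one_pos (by linarith)

theorem kp_le (q : ℕ) : kp q ≤ 1 / 2 := by
  have := two_pow_ge q
  unfold kp
  exact one_div_le_one_div_of_le (by norm_num) (by linarith)

theorem kp_zero : kp 0 = 1 / 2 := by
  unfold kp
  norm_num

theorem kp_succ (q : ℕ) : kp (q + 1) = kp q / (2 * (1 + kp q)) := by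
  have := two_pow_ge q
  have h1 : (2 : ℝ) ^ (q + 1 + 2) = 2 * 2 ^ (q + 2) := by ring
  unfold kp
  rw [h1]
  have h2 : (2 : ℝ) ^ (q + 2) - 2 ≠ 0 := by linarith
  have h3 : 2 * (2 : ℝ) ^ (q + 2) - 2 ≠ 0 := by linarith
  have h4 : (2 : ℝ) ^ (q + 2) - 1 ≠ 0 := by linarith
  have h5 : 1 + 1 / ((2 : ℝ) ^ (q + 2) - 2) = ((2 : ℝ) ^ (q + 2) - 1) / ((2 : ℝ) ^ (q + 2) - 2) := by
    field_simp
    ring
  have h6 : 2 * (((2 : ℝ) ^ (q + 2) - 1) / ((2 : ℝ) ^ (q + 2) - 2)) ≠ 0 :=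
    mul_ne_zero two_ne_zero (div_ne_zero h4 h2)
  rw [h5, div_eq_div_iff h3 h6]
  field_simp

theorem nu_zero : nu 0 = 1 := by
  unfold nu
  norm_num

theorem nu_pos (q : ℕ) : 0 < nu q := by
  unfold nu
  positivity

theorem nu_le (q : ℕ) : nu q ≤ 1 := by
  unfold nu
  rw [div_le_one (by positivity)]
  exact one_le_pow₀ (by norm_num)

theorem nu_succ (q : ℕ) : nu (q + 1) = nu q / 2 := by
  unfold nu
  rw [pow_succ]
  field_simp

/-- `2 kp q (2 - nu q) = nu q` -/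
theorem kp_nu (q : ℕ) : 2 * kp q * (2 - nu q) = nu q := by
  have h0 := two_pow_ge q
  have h1 : (2 : ℝ) ^ (q + 2) = 4 * 2 ^ q := by ring
  have h3 : (0 : ℝ) < 2 ^ q := by positivity
  have h2 : 4 * (2 : ℝ) ^ q - 2 ≠ 0 := by linarith
  unfold kp nu
  rw [h1]
  field_simp
  ring

theorem VD_mono {q : ℕ} : ∀ {θ : ℕ → ℝ} {L N : ℕ} {lam C : ℝ}, VD q θ L lam C → N ≤ L → VD q θ N lam C := by
  induction q with
  | zero =>
    intro θ L N lam C h hN n hn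
    exact h n (by omega)
  | succ q ih =>
    intro θ L N lam C h hN a ha1 ha2
    exact ih (h a ha1 (by omega)) (by omega)

end Pool.Agent.Lib.PR
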