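import Pool.Agent.Lib.PR.TL
import Pool.Agent.Lib.MP_bc6037_nt.FO.Base
import Pool.Agent.Lib.MP_bc6037_nt.RecDown

/-!
# PR / FM: `Fin k σ` from the moments on two lines

`U σ t ^ (2k) ≤ C (1+|t|)^(2k+2) (f ⋆ g) t` with `f v = (|H (σ-r+iv)|^(2k) + |H (σ+r+iv)|^(2k)) / (1+|v|)^(2k+2)`, integrable by
the moments, and `g x = (1+|x|)^(2k+2) e^(-|x|)`.
-/

set_option autoImplicit false

open MeasureTheory Complex
open scoped Convolution

namespace Pool.Agent.Lib.PR

open Pool.Agent.Lib.MP_bc6037_nt Rec ZetaGrowth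

private theorem fm_pow_exp (m : ℕ) : ∃ C : ℝ, 0 ≤ C ∧ ∀ x : ℝ, (1 + |x|) ^ m * Real.exp (-|x|) ≤ C * Real.exp (-|1 / 2 * x|) := by
  refine ⟨2 ^ m * m.factorial * Real.exp (1 / 2), by positivity, fun x => ?_⟩
  have h := Real.pow_div_factorial_le_exp (x := (1 + |x|) / 2) (by positivity) m
  have hm : (0 : ℝ) < m.factorial := by exact_mod_cast m.factorial_pos
  rw [div_pow, div_div, div_le_iff₀ (by positivity)] at h
  have e1 : Real.exp ((1 + |x|) / 2) * Real.exp (-|x|) = Real.exp (1 / 2) * Real.exp (-|1 / 2 * x|) := by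
    rw [← Real.exp_add, ← Real.exp_add]
    congr 1
    rw [abs_mul, abs_of_nonneg (by norm_num : (0 : ℝ) ≤ 1 / 2)]
    ring
  calc (1 + |x|) ^ m * Real.exp (-|x|) ≤ (Real.exp ((1 + |x|) / 2) * (2 ^ m * m.factorial)) * Real.exp (-|x|) := by
        gcongr
    _ = 2 ^ m * m.factorial * (Real.exp ((1 + |x|) / 2) * Real.exp (-|x|)) := by ring
    _ = _ := by rw [e1]; ring

/-- the function `g` is integrable and bounded -/
private theorem fm_g (m : ℕ) : Integrable (fun x : ℝ => (1 + |x|) ^ m * Real.exp (-|x|)) ∧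
    ∃ C : ℝ, ∀ x : ℝ, ‖(1 + |x|) ^ m * Real.exp (-|x|)‖ ≤ C := by
  obtain ⟨C, hC, h⟩ := fm_pow_exp m
  have hn : ∀ x : ℝ, ‖(1 + |x|) ^ m * Real.exp (-|x|)‖ = (1 + |x|) ^ m * Real.exp (-|x|) := fun x =>
    Real.norm_of_nonneg (by positivity)
  refine ⟨?_, C, fun x => ?_⟩
  · have h1 : Integrable (fun x : ℝ => Real.exp (-|1 / 2 * x|)) :=
      integrable_exp_abs.comp_mul_left' (by norm_num)
    refine (h1.const_mul C).mono' (Continuous.aestronglyMeasurable (by fun_prop)) (ae_of_all _ fun x => ?_)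
    rw [hn]
    exact h x
  · rw [hn]
    refine (h x).trans ?_
    have : Real.exp (-|1 / 2 * x|) ≤ 1 := Real.exp_le_one_iff.2 (neg_nonpos.2 (abs_nonneg _))
    exact mul_le_of_le_one_right hC this

/-- the function `f` on one line -/
private theorem fm_f {k : ℕ} {σ R : ℝ} (h0 : 0 < σ) (h1 : σ < 1) (hR : R < 2) (h : FO.Mom (2 * k) σ R) :
    Integrable (fun v : ℝ => ‖H (σ + v * I)‖ ^ (2 * k) / (1 + |v|) ^ (2 * k + 2)) := by
  have h2 := h (2 - R) (by linarith)
  refine h2.mono' ?_ (ae_of_all _ fun v => ?_)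
  · refine Continuous.aestronglyMeasurable (Continuous.div ?_ (by fun_prop) fun v => by positivity)
    exact (differentiable_H.continuous.comp (by fun_prop : Continuous fun v : ℝ => (σ : ℂ) + v * I)).norm.pow _
  · have hne : (σ : ℂ) + v * I ≠ 1 := by
      intro h3
      have h4 := congrArg Complex.re h3
      simp at h4
      linarith
    have h5 : ‖(σ : ℂ) + v * I - 1‖ ≤ 1 + |v| := by
      have e : (σ : ℂ) + v * I - 1 = ((σ - 1 : ℝ) : ℂ) + v * I := by push_cast; ring
      rw [e]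
      refine (norm_add_le _ _).trans ?_
      rw [norm_mul, Complex.norm_I, mul_one, Complex.norm_real, Complex.norm_real, Real.norm_eq_abs,
        Real.norm_eq_abs, abs_of_nonpos (by linarith)]
      linarith
    have hv : 0 < 1 + |v| := by positivity
    rw [Real.norm_of_nonneg (by positivity), H_of_ne hne, norm_mul, mul_pow]
    have e1 : -(R + (2 - R)) = (-2 : ℝ) := by ring
    have e2 : (1 + |v|) ^ (-2 : ℝ) = ((1 + |v|) ^ 2)⁻¹ := by
      rw [Real.rpow_neg hv.le]
      norm_num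
    rw [e1, e2, pow_add, div_le_iff₀ (by positivity)]
    have h6 : ‖(σ : ℂ) + v * I - 1‖ ^ (2 * k) ≤ (1 + |v|) ^ (2 * k) := pow_le_pow_left₀ (norm_nonneg _) h5 _
    have e3 : ‖riemannZeta (σ + v * I)‖ ^ (2 * k) * ((1 + |v|) ^ 2)⁻¹ * ((1 + |v|) ^ (2 * k) * (1 + |v|) ^ 2) =
        (1 + |v|) ^ (2 * k) * ‖riemannZeta (σ + v * I)‖ ^ (2 * k) := by
      field_simp
    rw [e3]
    exact mul_le_mul_of_nonneg_right h6 (by positivity)

private theorem fm_exp {u v t : ℝ} {k : ℕ} (hk : 1 ≤ k) :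
    Real.exp (-(v - u) ^ 2) * Real.exp (-|u - t|) ^ (2 * k) ≤ Real.exp (1 / 4) * Real.exp (-|t - v|) := by
  rw [← Real.exp_nat_mul, ← Real.exp_add, ← Real.exp_add]
  apply Real.exp_le_exp.2
  have h1 : |t - v| ≤ |u - t| + |v - u| := by
    have := abs_sub_le t u v
    rw [abs_sub_comm t u, abs_sub_comm u v] at this
    exact this
  have h2 : (v - u) ^ 2 = |v - u| ^ 2 := (sq_abs _).symm
  have h3 : (1 : ℝ) ≤ ((2 * k : ℕ) : ℝ) := by exact_mod_cast (by omega : 1 ≤ 2 * k)
  have h4 : |u - t| ≤ ((2 * k : ℕ) : ℝ) * |u - t| := le_mul_of_one_le_left (abs_nonneg _) h3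
  nlinarith [sq_nonneg (|v - u| - 1 / 2)]

theorem fin_of_mom {k : ℕ} (hk : 1 ≤ k) {σ r R : ℝ} (hr : 0 < r) (hσ : r < σ) (hσ1 : σ + r < 1) (hR : R < 2)
    (h1 : FO.Mom (2 * k) (σ - r) R) (h2 : FO.Mom (2 * k) (σ + r) R) : Fin k σ := by
  have hσ0 : 0 < σ := hr.trans hσ
  obtain ⟨C, hC0, hC⟩ := norm_H_line (σ₀ := σ - r) (σ₁ := σ + r) (by linarith)
  obtain ⟨K, hK0, hK⟩ := two_lines (F := fun s => H s ^ (2 * k)) (σ := σ) (r := r) (C := C ^ (2 * k)) (n := 2 * (2 * k))
    (differentiable_H.pow _).differentiableOn hr hσ (by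
      intro s hs1 hs2
      have h3 := hC s.re s.im hs1 hs2
      rw [Complex.re_add_im] at h3
      rw [norm_pow, pow_mul (1 + |s.im|) 2 (2 * k), ← mul_pow]
      exact pow_le_pow_left₀ (norm_nonneg _) h3 _)
  obtain ⟨Φ, hΦ⟩ : ∃ Φ : ℝ → ℝ, Φ = fun v : ℝ => ‖H (((σ - r : ℝ) : ℂ) + v * I)‖ ^ (2 * k) + ‖H (((σ + r : ℝ) : ℂ) + v * I)‖ ^ (2 * k) :=
    ⟨_, rfl⟩
  have hΦ0 : ∀ v, 0 ≤ Φ v := by
    intro v
    rw [hΦ]
    positivity
  obtain ⟨f, hf⟩ : ∃ f : ℝ → ℝ, f = fun v : ℝ => Φ v / (1 + |v|) ^ (2 * k + 2) := ⟨_, rfl⟩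
  obtain ⟨g, hg⟩ : ∃ g : ℝ → ℝ, g = fun x => (1 + |x|) ^ (2 * k + 2) * Real.exp (-|x|) := ⟨_, rfl⟩
  have hfi : Integrable f := by
    have h3 := (fm_f (by linarith) (by linarith) hR h1).add (fm_f (by linarith) hσ1 hR h2)
    refine h3.congr (ae_of_all _ fun v => ?_)
    simp only [hf, hΦ, Pi.add_apply]
    rw [add_div]
  obtain ⟨hgi, Cg, hgb⟩ := fm_g (2 * k + 2)
  rw [← hg] at hgi
  have hgb' : ∀ x, ‖g x‖ ≤ Cg := by
    intro x
    rw [hg]
    exact hgb x
  have hf0 : ∀ v, 0 ≤ f v := by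
    intro v
    rw [hf]
    exact div_nonneg (hΦ0 v) (by positivity)
  have hg0 : ∀ v, 0 ≤ g v := by
    intro v
    rw [hg]
    positivity
  have hgc : Continuous g := by
    rw [hg]
    fun_prop
  have hconv : Integrable (fun t : ℝ => ∫ v, f v * g (t - v)) := by
    have h3 := hfi.integrable_convolution (ContinuousLinearMap.mul ℝ ℝ) hgi
    exact h3
  have hfg : ∀ t : ℝ, Integrable (fun v => f v * g (t - v)) := by
    intro t
    exact hfi.mul_bdd (c := Cg) (hgc.comp (by fun_prop : Continuous fun v : ℝ => t - v)).aestronglyMeasurable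
      (ae_of_all _ fun v => hgb' _)
  -- the bound for `U`
  have hU : ∀ t : ℝ, U σ t ^ (2 * k) ≤ K * Real.exp (1 / 4) * (1 + |t|) ^ (2 * k + 2) * ∫ v, f v * g (t - v) := by
    intro t
    obtain ⟨B, hB⟩ : ∃ B, B = K * Real.exp (1 / 4) * (1 + |t|) ^ (2 * k + 2) * ∫ v, f v * g (t - v) := ⟨_, rfl⟩
    have hB0 : 0 ≤ B := by
      rw [hB]
      have : 0 ≤ ∫ v, f v * g (t - v) := integral_nonneg fun v => mul_nonneg (hf0 v) (hg0 _)
      positivity
    have hk0 : 2 * k ≠ 0 := by omega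
    rw [← hB]
    have h3 : U σ t ≤ B ^ (((2 * k : ℕ) : ℝ)⁻¹) := by
      refine U_le fun u => ?_
      have h4 : (‖H (σ + u * I)‖ * Real.exp (-|u - t|)) ^ (2 * k) ≤ B := by
        have h5 := hK u
        simp only [norm_pow] at h5
        rw [mul_pow]
        calc ‖H (σ + u * I)‖ ^ (2 * k) * Real.exp (-|u - t|) ^ (2 * k)
            ≤ (K * ∫ v : ℝ, (‖H (((σ - r : ℝ) : ℂ) + v * I)‖ ^ (2 * k) + ‖H (((σ + r : ℝ) : ℂ) + v * I)‖ ^ (2 * k)) *
                Real.exp (-(v - u) ^ 2)) * Real.exp (-|u - t|) ^ (2 * k) :=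
              mul_le_mul_of_nonneg_right h5 (by positivity)
          _ = K * ∫ v : ℝ, Φ v * Real.exp (-(v - u) ^ 2) * Real.exp (-|u - t|) ^ (2 * k) := by
              rw [integral_mul_const, hΦ, mul_assoc]
          _ ≤ K * ∫ v : ℝ, (Real.exp (1 / 4) * (1 + |t|) ^ (2 * k + 2)) * (f v * g (t - v)) := by
              refine mul_le_mul_of_nonneg_left ?_ hK0
              refine integral_mono_of_nonneg (ae_of_all _ fun v => ?_) ((hfg t).const_mul _) (ae_of_all _ fun v => ?_)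
              · have := hΦ0 v
                simp only [Pi.zero_apply]
                positivity
              · simp only
                have h6 := fm_exp (u := u) (v := v) (t := t) hk
                have hv : 0 < 1 + |v| := by positivity
                have h7 : 1 + |v| ≤ (1 + |t|) * (1 + |t - v|) := by
                  have h8 := abs_sub_abs_le_abs_sub v t
                  rw [abs_sub_comm v t] at h8
                  nlinarith [abs_nonneg t, abs_nonneg (t - v), mul_nonneg (abs_nonneg t) (abs_nonneg (t - v))]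
                have h9 : (1 + |v|) ^ (2 * k + 2) ≤ (1 + |t|) ^ (2 * k + 2) * (1 + |t - v|) ^ (2 * k + 2) := by
                  rw [← mul_pow]
                  exact pow_le_pow_left₀ hv.le h7 _
                have h10 : 1 ≤ ((1 + |t|) ^ (2 * k + 2) * (1 + |t - v|) ^ (2 * k + 2)) / (1 + |v|) ^ (2 * k + 2) := by
                  rwa [one_le_div (by positivity)]
                calc Φ v * Real.exp (-(v - u) ^ 2) * Real.exp (-|u - t|) ^ (2 * k)
                    = Φ v * (Real.exp (-(v - u) ^ 2) * Real.exp (-|u - t|) ^ (2 * k)) := by ring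
                  _ ≤ Φ v * (Real.exp (1 / 4) * Real.exp (-|t - v|)) := mul_le_mul_of_nonneg_left h6 (hΦ0 v)
                  _ = (Φ v * (Real.exp (1 / 4) * Real.exp (-|t - v|))) * 1 := (mul_one _).symm
                  _ ≤ (Φ v * (Real.exp (1 / 4) * Real.exp (-|t - v|))) *
                      (((1 + |t|) ^ (2 * k + 2) * (1 + |t - v|) ^ (2 * k + 2)) / (1 + |v|) ^ (2 * k + 2)) :=
                      mul_le_mul_of_nonneg_left h10 (mul_nonneg (hΦ0 v) (by positivity))
                  _ = _ := by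
                      rw [hf, hg]
                      ring
          _ = B := by
              rw [integral_const_mul, hB]
              ring
      have h5 : 0 ≤ ‖H (σ + u * I)‖ * Real.exp (-|u - t|) := by positivity
      have h6 := Real.rpow_le_rpow (by positivity) h4 (by positivity : (0 : ℝ) ≤ ((2 * k : ℕ) : ℝ)⁻¹)
      rwa [Real.pow_rpow_inv_natCast h5 hk0] at h6
    have h4 := pow_le_pow_left₀ (U_nonneg t) h3 (2 * k)
    rwa [Real.rpow_inv_natCast_pow hB0 hk0] at h4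
  unfold Rec.Fin
  refine (hconv.const_mul (K * Real.exp (1 / 4))).mono' ?_ (ae_of_all _ fun t => ?_)
  · exact (((continuous_U hσ0).pow _).div (by fun_prop) fun t => by positivity).aestronglyMeasurable
  · have ht : 0 < 1 + |t| := by positivity
    rw [Real.norm_of_nonneg (div_nonneg (pow_nonneg (U_nonneg t) _) (by positivity)), div_le_iff₀ (by positivity)]
    refine (hU t).trans (le_of_eq ?_)
    ring

end Pool.Agent.Lib.PR
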