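import Pool.Agent.Lib.PR.H1

/-!
# PR / H2 (220 lines): Huxley's subdivision

PROOF.  Let `C1 ≥ 1` be the constant of `hmI`, `P = C1 (1 + log M)(1 + log T) ≥ 1`, `E` the set, `μ = |E| ≤ T`.  `P^3 ≤ C2 (M T)^η`
(`Real.log_le_rpow_div`), and `P ≤ P^3`.  `T0 = (V^2/(2 P G))^2`.
(1) `T0 ≥ T`: `hmI` on `[T, 2T]` (`a = T`): `V^2 μ ≤ P G M + P G T^(1/2) μ` and `P G T^(1/2) ≤ V^2/2`, so `μ ≤ 2 P G M/V^2`.
(2) `T0 < 1`: `V^2 < 2 P G`, so `8 P^3 G^3 T M/V^6 ≥ T ≥ μ`.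
(3) `1 ≤ T0 < T`: cover `[T, 2T]` by `m = ⌈T/T0⌉₊ ≤ 2T/T0` intervals `[T + i T0, T + (i+1) T0]`; as in (1) (on an interval of length `T0`:
`P` there has `1 + log T0 ≤ 1 + log T`) each part of `E` has measure `≤ 2 P G M/V^2`; the sum is
`≤ (2T/T0)(2 P G M/V^2) = 16 T P^3 G^3 M/V^6`.
-/

set_option autoImplicit false

open MeasureTheory

namespace Pool.Agent.Lib.PR

private def EE (D : ℝ → ℂ) (V a L : ℝ) : Set ℝ := {t : ℝ | t ∈ Set.Icc a (a + L) ∧ V ≤ ‖D t‖}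

private theorem EE_fin (D : ℝ → ℂ) (V a L : ℝ) : volume (EE D V a L) ≠ ⊤ := by
  refine ne_top_of_le_ne_top ?_
    (measure_mono (show EE D V a L ⊆ Set.Icc a (a + L) from fun t ht => ht.1))
  rw [Real.volume_Icc]
  exact ENNReal.ofReal_ne_top

private theorem EE_le (D : ℝ → ℂ) (V a L : ℝ) (hL : 0 ≤ L) : (volume (EE D V a L)).toReal ≤ L := by
  have h := measure_mono (μ := volume) (show EE D V a L ⊆ Set.Icc a (a + L) from fun t ht => ht.1)
  rw [Real.volume_Icc, add_sub_cancel_left] at h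
  have h2 := ENNReal.toReal_mono ENNReal.ofReal_ne_top h
  rwa [ENNReal.toReal_ofReal hL] at h2

private theorem cover (D : ℝ → ℂ) (V a L T x : ℝ) (hL : 0 < L) (hx : 0 ≤ x) (hLT : L ≤ T)
    (h : ∀ i : ℕ, (volume (EE D V (a + i * L) L)).toReal ≤ x) :
    (volume (EE D V a T)).toReal ≤ 2 * T / L * x := by
  have hT : 0 ≤ T := by linarith
  have h0 : 0 ≤ T / L := by positivity
  have hm : ((⌊T / L⌋₊ + 1 : ℕ) : ℝ) ≤ 2 * T / L := by
    have h1 := Nat.floor_le h0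
    have h2 : 1 ≤ T / L := by rw [le_div_iff₀ hL]; linarith
    have h3 : 2 * T / L = T / L + T / L := by ring
    push_cast
    rw [h3]
    linarith
  have hsub : EE D V a T ⊆ ⋃ i ∈ Finset.range (⌊T / L⌋₊ + 1), EE D V (a + i * L) L := by
    rintro t ⟨⟨ht1, ht2⟩, ht3⟩
    have h4 : 0 ≤ (t - a) / L := div_nonneg (by linarith) hL.le
    have h5 := Nat.floor_le h4
    have h6 := Nat.lt_floor_add_one ((t - a) / L)
    rw [le_div_iff₀ hL] at h5
    rw [div_lt_iff₀ hL] at h6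
    simp only [Set.mem_iUnion, Finset.mem_range, exists_prop]
    refine ⟨⌊(t - a) / L⌋₊, ?_, ⟨by linarith, by linarith⟩, ht3⟩
    have : ⌊(t - a) / L⌋₊ ≤ ⌊T / L⌋₊ :=
      Nat.floor_le_floor (div_le_div_of_nonneg_right (by linarith) hL.le)
    omega
  have h7 : volume (EE D V a T) ≤ ∑ i ∈ Finset.range (⌊T / L⌋₊ + 1), ENNReal.ofReal x := by
    refine (measure_mono hsub).trans ((measure_biUnion_finset_le _ _).trans ?_)
    refine Finset.sum_le_sum fun i _ => ?_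
    exact (ENNReal.le_ofReal_iff_toReal_le (EE_fin D V _ L) hx).2 (h i)
  rw [Finset.sum_const, Finset.card_range, nsmul_eq_mul] at h7
  have h8 := ENNReal.toReal_mono (ENNReal.mul_ne_top (ENNReal.natCast_ne_top _) ENNReal.ofReal_ne_top) h7
  rw [ENNReal.toReal_mul, ENNReal.toReal_natCast, ENNReal.toReal_ofReal hx] at h8
  exact h8.trans (mul_le_mul_of_nonneg_right hm hx)

private theorem log_cube {η : ℝ} (hη : 0 < η) (x : ℝ) (hx : 1 ≤ x) :
    (1 + Real.log x) ^ 3 ≤ (1 + 3 / η) ^ 3 * x ^ η := by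
  have hx0 : 0 ≤ x := by linarith
  have h1 : Real.log x ≤ x ^ (η / 3) / (η / 3) := Real.log_le_rpow_div hx0 (by positivity)
  have h2 : 1 ≤ x ^ (η / 3) := Real.one_le_rpow hx (by positivity)
  have h3 : 0 ≤ Real.log x := Real.log_nonneg hx
  have h4 : 1 + Real.log x ≤ (1 + 3 / η) * x ^ (η / 3) := by
    have : x ^ (η / 3) / (η / 3) = 3 / η * x ^ (η / 3) := by
      field_simp
    rw [this] at h1
    linarith [h1, h2]
  calc (1 + Real.log x) ^ 3 ≤ ((1 + 3 / η) * x ^ (η / 3)) ^ 3 :=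
        pow_le_pow_left₀ (by linarith) h4 3
    _ = (1 + 3 / η) ^ 3 * x ^ η := by
        rw [mul_pow, ← Real.rpow_natCast (x ^ (η / 3)) 3, ← Real.rpow_mul hx0]
        congr 2
        push_cast
        ring

theorem hmT {η : ℝ} (hη : 0 < η) : ∃ C : ℝ, 0 ≤ C ∧ ∀ (M : ℕ) (b : ℕ → ℂ) (T V G : ℝ), 1 ≤ M → 1 ≤ T → 0 < V →
    0 < G → ∑ n ∈ Finset.Icc 1 M, ‖b n‖ ^ 2 ≤ G →
    (volume {t : ℝ | t ∈ Set.Icc T (2 * T) ∧
        V ≤ ‖∑ n ∈ Finset.Icc 1 M, b n * (n : ℂ) ^ (-((t : ℂ) * Complex.I))‖}).toReal ≤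
      C * ((M : ℝ) * T) ^ η * (G * M / V ^ 2 + T * G ^ 3 * M / V ^ 6) := by
  obtain ⟨C0, hC0, H⟩ := hmI
  refine ⟨16 * ((C0 + 1) ^ 3 * ((1 + 3 / η) ^ 3 * (1 + 3 / η) ^ 3)), by positivity, ?_⟩
  intro M b T V G hM hT hV hG hS
  have hMr : (1 : ℝ) ≤ M := by exact_mod_cast hM
  have hlM : 0 ≤ Real.log M := Real.log_nonneg hMr
  have hlT : 0 ≤ Real.log T := Real.log_nonneg hT
  obtain ⟨P, hP⟩ : ∃ P : ℝ, P = (C0 + 1) * (1 + Real.log M) * (1 + Real.log T) := ⟨_, rfl⟩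
  have hP1 : 1 ≤ P := by
    rw [hP]
    have h1 : 1 ≤ (C0 + 1) * (1 + Real.log M) := one_le_mul_of_one_le_of_one_le (by linarith) (by linarith)
    exact one_le_mul_of_one_le_of_one_le h1 (by linarith)
  have hP0 : 0 < P := by linarith
  have hP3 : P ≤ P ^ 3 := le_self_pow₀ hP1 (by norm_num)
  have hP3' : P ^ 3 ≤ (C0 + 1) ^ 3 * ((1 + 3 / η) ^ 3 * (1 + 3 / η) ^ 3) * ((M : ℝ) * T) ^ η := by
    have h1 := log_cube hη M hMr
    have h2 := log_cube hη T hT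
    have h3 : (0 : ℝ) ≤ (1 + Real.log T) ^ 3 := by positivity
    calc P ^ 3 = (C0 + 1) ^ 3 * ((1 + Real.log M) ^ 3 * (1 + Real.log T) ^ 3) := by rw [hP]; ring
      _ ≤ (C0 + 1) ^ 3 * (((1 + 3 / η) ^ 3 * (M : ℝ) ^ η) * ((1 + 3 / η) ^ 3 * T ^ η)) := by
          refine mul_le_mul_of_nonneg_left ?_ (by positivity)
          exact mul_le_mul h1 h2 h3 (by positivity)
      _ = (C0 + 1) ^ 3 * ((1 + 3 / η) ^ 3 * (1 + 3 / η) ^ 3) * ((M : ℝ) * T) ^ η := by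
          rw [Real.mul_rpow (by linarith) (by linarith)]; ring
  obtain ⟨D, hD⟩ : ∃ D : ℝ → ℂ, D = fun t : ℝ => ∑ n ∈ Finset.Icc 1 M, b n * (n : ℂ) ^ (-((t : ℂ) * Complex.I)) :=
    ⟨_, rfl⟩
  have hset : {t : ℝ | t ∈ Set.Icc T (2 * T) ∧
        V ≤ ‖∑ n ∈ Finset.Icc 1 M, b n * (n : ℂ) ^ (-((t : ℂ) * Complex.I))‖} = EE D V T T := by
    rw [hD]
    unfold EE
    rw [two_mul]
  have hkey : ∀ a L : ℝ, 1 ≤ L → L ≤ T → P * G * L ^ (1 / 2 : ℝ) ≤ V ^ 2 / 2 →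
      (volume (EE D V a L)).toReal ≤ 2 * P * G * M / V ^ 2 := by
    intro a L hL1 hL2 hL3
    have h := H M b a L V hM hL1 hV
    have hE : {t : ℝ | t ∈ Set.Icc a (a + L) ∧
        V ≤ ‖∑ n ∈ Finset.Icc 1 M, b n * (n : ℂ) ^ (-((t : ℂ) * Complex.I))‖} = EE D V a L := by
      rw [hD]; rfl
    rw [hE] at h
    obtain ⟨μ, hμ⟩ : ∃ μ : ℝ, μ = (volume (EE D V a L)).toReal := ⟨_, rfl⟩
    rw [← hμ] at h ⊢
    have hμ0 : 0 ≤ μ := by rw [hμ]; exact ENNReal.toReal_nonneg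
    have hlL : 0 ≤ Real.log L := Real.log_nonneg hL1
    have hlL2 : Real.log L ≤ Real.log T := Real.log_le_log (by linarith) hL2
    have hS0 : 0 ≤ ∑ n ∈ Finset.Icc 1 M, ‖b n‖ ^ 2 := Finset.sum_nonneg fun _ _ => by positivity
    have hLs : 0 ≤ L ^ (1 / 2 : ℝ) := Real.rpow_nonneg (by linarith) _
    have h1 : C0 * (1 + Real.log M) * (1 + Real.log L) ≤ P := by
      rw [hP]
      refine mul_le_mul ?_ (by linarith) (by linarith) (by positivity)
      exact mul_le_mul_of_nonneg_right (by linarith) (by linarith)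
    have h2 : C0 * (1 + Real.log M) * (1 + Real.log L) * (∑ n ∈ Finset.Icc 1 M, ‖b n‖ ^ 2) ≤ P * G :=
      mul_le_mul h1 hS hS0 hP0.le
    have h3 : V ^ 2 * μ ≤ P * G * (M + L ^ (1 / 2 : ℝ) * μ) :=
      h.trans (mul_le_mul_of_nonneg_right h2 (by positivity))
    have h4 : P * G * L ^ (1 / 2 : ℝ) * μ ≤ V ^ 2 / 2 * μ := mul_le_mul_of_nonneg_right hL3 hμ0
    rw [le_div_iff₀ (by positivity)]
    nlinarith [h3, h4]
  have hQ : 0 ≤ G * M / V ^ 2 := by positivity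
  have hR : 0 ≤ T * G ^ 3 * M / V ^ 6 := by positivity
  have hfin : (volume (EE D V T T)).toReal ≤ 16 * P ^ 3 * (G * M / V ^ 2 + T * G ^ 3 * M / V ^ 6) := by
    have hPG : 0 < 2 * P * G := by positivity
    have hq0 : 0 < V ^ 2 / (2 * P * G) := by positivity
    have hhalf : ∀ L : ℝ, 0 ≤ L → L ≤ (V ^ 2 / (2 * P * G)) ^ 2 → P * G * L ^ (1 / 2 : ℝ) ≤ V ^ 2 / 2 := by
      intro L hL0 hL
      have h1 : L ^ (1 / 2 : ℝ) ≤ V ^ 2 / (2 * P * G) := by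
        rw [← Real.sqrt_eq_rpow]
        exact Real.sqrt_le_iff.2 ⟨hq0.le, hL⟩
      rw [le_div_iff₀ hPG] at h1
      linarith
    rcases le_total T ((V ^ 2 / (2 * P * G)) ^ 2) with h1 | h1
    · have h2 := hkey T T hT le_rfl (hhalf T (by linarith) h1)
      have h3 : 2 * P * G * M / V ^ 2 = 2 * P * (G * M / V ^ 2) := by ring
      rw [h3] at h2
      have h4 : 2 * P * (G * M / V ^ 2) ≤ 16 * P ^ 3 * (G * M / V ^ 2) :=
        mul_le_mul_of_nonneg_right (by linarith) hQ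
      have h5 : 0 ≤ 16 * P ^ 3 * (T * G ^ 3 * M / V ^ 6) := by positivity
      rw [mul_add]
      linarith
    · rcases lt_or_ge ((V ^ 2 / (2 * P * G)) ^ 2) 1 with h2 | h2
      · have h3 : V ^ 2 / (2 * P * G) < 1 := by
          by_contra hc
          push Not at hc
          have : 1 ≤ (V ^ 2 / (2 * P * G)) ^ 2 := one_le_pow₀ hc
          linarith
        rw [div_lt_one hPG] at h3
        have h4 : V ^ 6 ≤ (2 * P * G) ^ 3 := by
          have : V ^ 6 = (V ^ 2) ^ 3 := by ring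
          rw [this]
          exact pow_le_pow_left₀ (by positivity) h3.le 3
        have h5 : T ≤ 8 * P ^ 3 * (T * G ^ 3 * M / V ^ 6) := by
          have h6 : 8 * P ^ 3 * (T * G ^ 3 * M / V ^ 6) = T * ((2 * P * G) ^ 3 * M) / V ^ 6 := by ring
          rw [h6, le_div_iff₀ (by positivity)]
          refine mul_le_mul_of_nonneg_left ?_ (by linarith)
          calc V ^ 6 ≤ (2 * P * G) ^ 3 := h4
            _ = (2 * P * G) ^ 3 * 1 := by ring
            _ ≤ (2 * P * G) ^ 3 * M := mul_le_mul_of_nonneg_left hMr (by positivity)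
        have h7 := EE_le D V T T (by linarith)
        have h8 : 0 ≤ 16 * P ^ 3 * (G * M / V ^ 2) := by positivity
        have h9 : 8 * P ^ 3 * (T * G ^ 3 * M / V ^ 6) ≤ 16 * P ^ 3 * (T * G ^ 3 * M / V ^ 6) := by
          have : 0 ≤ P ^ 3 * (T * G ^ 3 * M / V ^ 6) := by positivity
          linarith
        rw [mul_add]
        linarith
      · have h3 : ∀ i : ℕ, (volume (EE D V (T + i * (V ^ 2 / (2 * P * G)) ^ 2)
            ((V ^ 2 / (2 * P * G)) ^ 2))).toReal ≤ 2 * P * G * M / V ^ 2 := fun i =>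
          hkey _ _ h2 h1 (hhalf _ (by linarith) le_rfl)
        have h4 := cover D V T ((V ^ 2 / (2 * P * G)) ^ 2) T (2 * P * G * M / V ^ 2) (by linarith)
          (by positivity) h1 h3
        have h5 : 2 * T / (V ^ 2 / (2 * P * G)) ^ 2 * (2 * P * G * M / V ^ 2) =
            16 * P ^ 3 * (T * G ^ 3 * M / V ^ 6) := by
          have hV0 : V ≠ 0 := hV.ne'
          have hG0 : G ≠ 0 := hG.ne'
          field_simp
          ring
        rw [h5] at h4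
        have h8 : 0 ≤ 16 * P ^ 3 * (G * M / V ^ 2) := by positivity
        rw [mul_add]
        linarith
  rw [hset]
  refine hfin.trans ?_
  have h1 : 16 * P ^ 3 ≤ 16 * ((C0 + 1) ^ 3 * ((1 + 3 / η) ^ 3 * (1 + 3 / η) ^ 3)) * ((M : ℝ) * T) ^ η := by
    linarith
  exact mul_le_mul_of_nonneg_right h1 (by positivity)

end Pool.Agent.Lib.PR
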