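import Mathlib

/-!
# PR / K1: the Halász-Montgomery inequality, measure form, with a general bound for the kernel

As `H1.lean`, for polynomials supported on `(L, M]`, when the kernel `∑_{L < n ≤ M} n^(-iu)` is at most `D1/(1+|u|) + D2` for `|u| ≤ T`.
-/

set_option autoImplicit false

open MeasureTheory

namespace Pool.Agent.Lib.PR

private theorem k1_pos {L M n : ℕ} (hn : n ∈ Finset.Ioc L M) : 1 ≤ n := by
  rw [Finset.mem_Ioc] at hn
  omega

private theorem k1_cont (n : ℕ) (hn : 1 ≤ n) : Continuous fun t : ℝ => (n : ℂ) ^ (-((t : ℂ) * Complex.I)) := by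
  have hn0 : (n : ℂ) ≠ 0 := by
    simp only [ne_eq, Nat.cast_eq_zero]
    omega
  refine Continuous.const_cpow (by fun_prop) (Or.inl hn0)

private theorem k1_norm (n : ℕ) (hn : 1 ≤ n) (t : ℝ) : ‖(n : ℂ) ^ (-((t : ℂ) * Complex.I))‖ = 1 := by
  rw [Complex.norm_natCast_cpow_of_pos (by omega)]
  simp

private theorem k1_mul (n : ℕ) (hn : 1 ≤ n) (t u : ℝ) :
    (n : ℂ) ^ (-((t : ℂ) * Complex.I)) * (starRingEnd ℂ) ((n : ℂ) ^ (-((u : ℂ) * Complex.I))) =
      (n : ℂ) ^ (-(((t - u : ℝ) : ℂ) * Complex.I)) := by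
  have hn0 : (n : ℂ) ≠ 0 := by
    simp only [ne_eq, Nat.cast_eq_zero]
    omega
  have hl : Complex.log (n : ℂ) = ((Real.log n : ℝ) : ℂ) := by
    rw [← Complex.natCast_log]
  rw [Complex.cpow_def_of_ne_zero hn0, Complex.cpow_def_of_ne_zero hn0, Complex.cpow_def_of_ne_zero hn0,
    ← Complex.exp_conj, ← Complex.exp_add, hl]
  congr 1
  simp only [map_mul, map_neg, Complex.conj_ofReal, Complex.conj_I]
  push_cast
  ring

/-- the kernel -/
private noncomputable def k1_K (L M : ℕ) (u : ℝ) : ℂ := ∑ n ∈ Finset.Ioc L M, (n : ℂ) ^ (-((u : ℂ) * Complex.I))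

private theorem k1_K_cont (L M : ℕ) : Continuous (k1_K L M) := by
  unfold k1_K
  refine continuous_finsetSum _ fun n hn => k1_cont n (k1_pos hn)

private theorem k1_K_bd (L M : ℕ) (u : ℝ) : ‖k1_K L M u‖ ≤ M := by
  unfold k1_K
  refine (norm_sum_le _ _).trans ?_
  rw [Finset.sum_congr rfl fun n hn => k1_norm n (k1_pos hn) u]
  simp

/-- the polynomial -/
private noncomputable def k1_B (L M : ℕ) (b : ℕ → ℂ) (t : ℝ) : ℂ :=
  ∑ n ∈ Finset.Ioc L M, b n * (n : ℂ) ^ (-((t : ℂ) * Complex.I))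

private theorem k1_B_cont (L M : ℕ) (b : ℕ → ℂ) : Continuous (k1_B L M b) := by
  unfold k1_B
  refine continuous_finsetSum _ fun n hn => continuous_const.mul (k1_cont n (k1_pos hn))

private noncomputable def k1_g (L M : ℕ) (b : ℕ → ℂ) (t : ℝ) : ℂ := (starRingEnd ℂ) (k1_B L M b t) / (‖k1_B L M b t‖ : ℂ)

private theorem k1_g_meas (L M : ℕ) (b : ℕ → ℂ) : Measurable (k1_g L M b) := by
  unfold k1_g
  have h1 : Measurable (k1_B L M b) := (k1_B_cont L M b).measurable
  refine Measurable.div ?_ ?_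
  · exact Complex.continuous_conj.measurable.comp h1
  · exact Complex.measurable_ofReal.comp h1.norm

private theorem k1_g_bd (L M : ℕ) (b : ℕ → ℂ) (t : ℝ) : ‖k1_g L M b t‖ ≤ 1 := by
  unfold k1_g
  rw [norm_div, RCLike.norm_conj, Complex.norm_real, norm_norm]
  exact div_self_le_one _

private theorem k1_g_mul (L M : ℕ) (b : ℕ → ℂ) (t : ℝ) : k1_g L M b t * k1_B L M b t = ((‖k1_B L M b t‖ : ℝ) : ℂ) := by
  unfold k1_g
  by_cases h : k1_B L M b t = 0
  · rw [h]
    simp
  · have h2 : ((‖k1_B L M b t‖ : ℝ) : ℂ) ≠ 0 := by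
      rw [Ne, Complex.ofReal_eq_zero, norm_eq_zero]
      exact h
    rw [div_mul_eq_mul_div, div_eq_iff h2, mul_comm, Complex.mul_conj, Complex.normSq_eq_norm_sq]
    push_cast
    ring

private theorem k1_abs (L M : ℕ) (b : ℕ → ℂ) (ν : Measure ℝ) [IsFiniteMeasure ν] (R V : ℝ) (hV : 0 < V)
    (hB : ∀ᵐ t ∂ν, V ≤ ‖k1_B L M b t‖) (hR : ∀ᵐ u ∂ν, ∫ t, ‖k1_K L M (t - u)‖ ∂ν ≤ R) :
    (V * ν.real Set.univ) ^ 2 ≤ (∑ n ∈ Finset.Ioc L M, ‖b n‖ ^ 2) * (ν.real Set.univ * R) := by
  classical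
  set g := k1_g L M b with hg
  let e : ℕ → ℝ → ℂ := fun n t => (n : ℂ) ^ (-((t : ℂ) * Complex.I))
  have hgm : Measurable g := k1_g_meas L M b
  have hge : ∀ n, 1 ≤ n → Integrable (fun t => g t * e n t) ν := by
    intro n hn
    refine Integrable.of_bound (C := 1) (hgm.mul (k1_cont n hn).measurable).aestronglyMeasurable ?_
    refine Filter.Eventually.of_forall fun t => ?_
    rw [norm_mul, k1_norm n hn, mul_one]
    exact k1_g_bd L M b t
  let c : ℕ → ℂ := fun n => ∫ t, g t * e n t ∂ν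
  have hBi : Integrable (fun t => ‖k1_B L M b t‖) ν := by
    have h1 : ∃ D : ℝ, ∀ t, ‖k1_B L M b t‖ ≤ D := by
      refine ⟨∑ n ∈ Finset.Ioc L M, ‖b n‖, fun t => ?_⟩
      unfold k1_B
      refine (norm_sum_le _ _).trans (Finset.sum_le_sum fun n hn => ?_)
      rw [norm_mul, k1_norm n (k1_pos hn), mul_one]
    obtain ⟨D, hD⟩ := h1
    refine Integrable.of_bound (C := D) (k1_B_cont L M b).norm.measurable.aestronglyMeasurable ?_
    exact Filter.Eventually.of_forall fun t => by rw [norm_norm]; exact hD t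
  -- the lower bound
  have h1 : V * ν.real Set.univ ≤ ∫ t, ‖k1_B L M b t‖ ∂ν := by
    have h2 : ∫ _ : ℝ, V ∂ν ≤ ∫ t, ‖k1_B L M b t‖ ∂ν := integral_mono_ae (integrable_const V) hBi hB
    rw [integral_const, smul_eq_mul, mul_comm] at h2
    exact h2
  have h2 : ((∫ t, ‖k1_B L M b t‖ ∂ν : ℝ) : ℂ) = ∑ n ∈ Finset.Ioc L M, b n * c n := by
    rw [← integral_complex_ofReal]
    have h3 : ∀ t, ((‖k1_B L M b t‖ : ℝ) : ℂ) = ∑ n ∈ Finset.Ioc L M, b n * (g t * e n t) := by
      intro t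
      rw [← k1_g_mul]
      conv_lhs => rw [k1_B]
      rw [Finset.mul_sum]
      refine Finset.sum_congr rfl fun n _ => ?_
      simp only [e, hg]
      ring
    simp_rw [h3]
    rw [integral_finsetSum _ fun n hn => (hge n (k1_pos hn)).const_mul (b n)]
    refine Finset.sum_congr rfl fun n _ => ?_
    rw [integral_const_mul]
  have h3 : V * ν.real Set.univ ≤ ∑ n ∈ Finset.Ioc L M, ‖b n‖ * ‖c n‖ := by
    have h4 : ∫ t, ‖k1_B L M b t‖ ∂ν ≤ ‖((∫ t, ‖k1_B L M b t‖ ∂ν : ℝ) : ℂ)‖ := by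
      rw [Complex.norm_real]
      exact le_abs_self _
    refine h1.trans (h4.trans ?_)
    rw [h2]
    refine (norm_sum_le _ _).trans (Finset.sum_le_sum fun n _ => ?_)
    rw [norm_mul]
  have hV0 : 0 ≤ V * ν.real Set.univ := mul_nonneg hV.le measureReal_nonneg
  have h4 : (V * ν.real Set.univ) ^ 2 ≤ (∑ n ∈ Finset.Ioc L M, ‖b n‖ ^ 2) * ∑ n ∈ Finset.Ioc L M, ‖c n‖ ^ 2 :=
    (pow_le_pow_left₀ hV0 h3 2).trans (Finset.sum_mul_sq_le_sq_mul_sq _ _ _)
  refine h4.trans (mul_le_mul_of_nonneg_left ?_ (Finset.sum_nonneg fun n _ => by positivity))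
  -- the dual sum
  have hgen : ∀ n, 1 ≤ n → Integrable (fun u => (starRingEnd ℂ) (g u * e n u)) ν := by
    intro n hn
    refine Integrable.of_bound (C := 1)
      (Complex.continuous_conj.measurable.comp (hgm.mul (k1_cont n hn).measurable)).aestronglyMeasurable ?_
    refine Filter.Eventually.of_forall fun t => ?_
    rw [RCLike.norm_conj, norm_mul, k1_norm n hn, mul_one]
    exact k1_g_bd L M b t
  have h5 : ((∑ n ∈ Finset.Ioc L M, ‖c n‖ ^ 2 : ℝ) : ℂ) =
      ∫ u, ∑ n ∈ Finset.Ioc L M, c n * (starRingEnd ℂ) (g u * e n u) ∂ν := by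
    rw [integral_finsetSum _ fun n hn => (hgen n (k1_pos hn)).const_mul (c n)]
    push_cast
    refine Finset.sum_congr rfl fun n _ => ?_
    rw [integral_const_mul, integral_conj]
    simp only [c]
    rw [Complex.mul_conj, Complex.normSq_eq_norm_sq]
    push_cast
    ring
  have h6 : ∀ u, ∑ n ∈ Finset.Ioc L M, c n * (starRingEnd ℂ) (g u * e n u) =
      (starRingEnd ℂ) (g u) * ∫ t, g t * k1_K L M (t - u) ∂ν := by
    intro u
    have h7 : ∀ t, g t * k1_K L M (t - u) = ∑ n ∈ Finset.Ioc L M, (g t * e n t) * (starRingEnd ℂ) (e n u) := by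
      intro t
      unfold k1_K
      rw [Finset.mul_sum]
      refine Finset.sum_congr rfl fun n hn => ?_
      rw [mul_assoc, k1_mul n (k1_pos hn) t u]
    simp_rw [h7]
    rw [integral_finsetSum _ fun n hn => (hge n (k1_pos hn)).mul_const _, Finset.mul_sum]
    refine Finset.sum_congr rfl fun n _ => ?_
    rw [integral_mul_const, map_mul]
    simp only [c]
    ring
  have hKi : ∀ u, Integrable (fun t => ‖k1_K L M (t - u)‖) ν := by
    intro u
    refine Integrable.of_bound (C := M)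
      ((k1_K_cont L M).comp (by fun_prop : Continuous fun t : ℝ => t - u)).norm.measurable.aestronglyMeasurable ?_
    exact Filter.Eventually.of_forall fun t => by rw [norm_norm]; exact k1_K_bd L M _
  have h8 : ∀ u, ‖(starRingEnd ℂ) (g u) * ∫ t, g t * k1_K L M (t - u) ∂ν‖ ≤ ∫ t, ‖k1_K L M (t - u)‖ ∂ν := by
    intro u
    rw [norm_mul, RCLike.norm_conj]
    have h9 : ‖∫ t, g t * k1_K L M (t - u) ∂ν‖ ≤ ∫ t, ‖k1_K L M (t - u)‖ ∂ν := by
      refine norm_integral_le_of_norm_le (hKi u) (Filter.Eventually.of_forall fun t => ?_)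
      rw [norm_mul]
      exact mul_le_of_le_one_left (norm_nonneg _) (k1_g_bd L M b t)
    exact (mul_le_of_le_one_left (norm_nonneg _) (k1_g_bd L M b u)).trans h9
  have h10 : ∑ n ∈ Finset.Ioc L M, ‖c n‖ ^ 2 ≤ ∫ _ : ℝ, R ∂ν := by
    have h11 : (∑ n ∈ Finset.Ioc L M, ‖c n‖ ^ 2 : ℝ) ≤ ‖((∑ n ∈ Finset.Ioc L M, ‖c n‖ ^ 2 : ℝ) : ℂ)‖ := by
      rw [Complex.norm_real]
      exact le_abs_self _
    refine h11.trans ?_
    rw [h5]
    refine norm_integral_le_of_norm_le (integrable_const R) ?_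
    filter_upwards [hR] with u hu
    rw [h6]
    exact (h8 u).trans hu
  rw [integral_const, smul_eq_mul] at h10
  exact h10

private theorem k1_log (T : ℝ) (hT : 0 ≤ T) (a u : ℝ) (hu : u ∈ Set.Icc a (a + T)) :
    ∫ t in Set.Icc a (a + T), (1 + |t - u|)⁻¹ ≤ 2 * Real.log (1 + T) := by
  have hcont : Continuous fun t : ℝ => (1 + |t - u|)⁻¹ := by
    refine Continuous.inv₀ (by fun_prop) fun t => ?_
    have := abs_nonneg (t - u)
    positivity
  rw [integral_Icc_eq_integral_Ioc, ← intervalIntegral.integral_of_le (by linarith [hu.1, hu.2])]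
  rw [← intervalIntegral.integral_add_adjacent_intervals (hcont.intervalIntegrable a u) (hcont.intervalIntegrable u (a + T))]
  have h1 : ∫ t in a..u, (1 + |t - u|)⁻¹ = Real.log (1 + (u - a)) := by
    have h2 : ∫ t in a..u, (1 + |t - u|)⁻¹ = ∫ t in a..u, (1 + (u - t))⁻¹ := by
      refine intervalIntegral.integral_congr fun t ht => ?_
      rw [Set.uIcc_of_le hu.1] at ht
      rw [abs_of_nonpos (by linarith [ht.2]), neg_sub]
    rw [h2]
    have h3 : ∫ t in a..u, (1 + (u - t))⁻¹ = -Real.log (1 + (u - u)) - -Real.log (1 + (u - a)) := by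
      refine intervalIntegral.integral_eq_sub_of_hasDerivAt (f := fun t => -Real.log (1 + (u - t))) ?_ ?_
      · intro t ht
        rw [Set.uIcc_of_le hu.1] at ht
        have h4 : 1 + (u - t) ≠ 0 := by linarith [ht.2]
        have h5 : HasDerivAt (fun t : ℝ => 1 + (u - t)) (-1) t := by
          simpa using ((hasDerivAt_id t).const_sub u).const_add 1
        have h6 := (h5.log h4).neg
        have h7 : (1 + (u - t))⁻¹ = -(-1 / (1 + (u - t))) := by rw [neg_div, neg_neg, one_div]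
        rw [h7]
        exact h6
      · refine ContinuousOn.intervalIntegrable ?_
        rw [Set.uIcc_of_le hu.1]
        refine ContinuousOn.inv₀ (by fun_prop) fun t ht => ?_
        linarith [ht.2]
    rw [h3]
    simp
  have h2 : ∫ t in u..(a + T), (1 + |t - u|)⁻¹ = Real.log (1 + (a + T - u)) := by
    have h2 : ∫ t in u..(a + T), (1 + |t - u|)⁻¹ = ∫ t in u..(a + T), (1 + (t - u))⁻¹ := by
      refine intervalIntegral.integral_congr fun t ht => ?_
      rw [Set.uIcc_of_le hu.2] at ht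
      rw [abs_of_nonneg (by linarith [ht.1])]
    rw [h2]
    have h3 : ∫ t in u..(a + T), (1 + (t - u))⁻¹ = Real.log (1 + (a + T - u)) - Real.log (1 + (u - u)) := by
      refine intervalIntegral.integral_eq_sub_of_hasDerivAt (f := fun t => Real.log (1 + (t - u))) ?_ ?_
      · intro t ht
        rw [Set.uIcc_of_le hu.2] at ht
        have h4 : 1 + (t - u) ≠ 0 := by linarith [ht.1]
        have h5 : HasDerivAt (fun t : ℝ => 1 + (t - u)) 1 t := by
          simpa using ((hasDerivAt_id t).sub_const u).const_add 1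
        have h6 := h5.log h4
        rw [← one_div]
        exact h6
      · refine ContinuousOn.intervalIntegrable ?_
        rw [Set.uIcc_of_le hu.2]
        refine ContinuousOn.inv₀ (by fun_prop) fun t ht => ?_
        linarith [ht.1]
    rw [h3]
    simp
  rw [h1, h2]
  have h3 : Real.log (1 + (u - a)) ≤ Real.log (1 + T) :=
    Real.log_le_log (by linarith [hu.1]) (by linarith [hu.2])
  have h4 : Real.log (1 + (a + T - u)) ≤ Real.log (1 + T) :=
    Real.log_le_log (by linarith [hu.2]) (by linarith [hu.1])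
  linarith

/-- Halász-Montgomery with the kernel bound `D1/(1+|u|) + D2` -/
theorem hmK (L M : ℕ) (b : ℕ → ℂ) (a T V D1 D2 : ℝ) (hT : 1 ≤ T) (hV : 0 < V) (hD1 : 0 ≤ D1) (hD2 : 0 ≤ D2)
    (hK : ∀ u : ℝ, |u| ≤ T → ‖∑ n ∈ Finset.Ioc L M, (n : ℂ) ^ (-((u : ℂ) * Complex.I))‖ ≤ D1 / (1 + |u|) + D2) :
    V ^ 2 * (volume {t : ℝ | t ∈ Set.Icc a (a + T) ∧
        V ≤ ‖∑ n ∈ Finset.Ioc L M, b n * (n : ℂ) ^ (-((t : ℂ) * Complex.I))‖}).toReal ≤
      (∑ n ∈ Finset.Ioc L M, ‖b n‖ ^ 2) *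
        (2 * (1 + Real.log T) * D1 + D2 * (volume {t : ℝ | t ∈ Set.Icc a (a + T) ∧
          V ≤ ‖∑ n ∈ Finset.Ioc L M, b n * (n : ℂ) ^ (-((t : ℂ) * Complex.I))‖}).toReal) := by
  set E : Set ℝ := {t : ℝ | t ∈ Set.Icc a (a + T) ∧
        V ≤ ‖∑ n ∈ Finset.Ioc L M, b n * (n : ℂ) ^ (-((t : ℂ) * Complex.I))‖} with hE
  have hEc : IsClosed E := by
    have h1 : E = Set.Icc a (a + T) ∩ {t : ℝ | V ≤ ‖k1_B L M b t‖} := by
      ext t
      rfl
    rw [h1]
    exact isClosed_Icc.inter (isClosed_le continuous_const (k1_B_cont L M b).norm)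
  have hEm : MeasurableSet E := hEc.measurableSet
  have hEs : E ⊆ Set.Icc a (a + T) := fun t ht => ht.1
  have hEf : volume E < ⊤ := lt_of_le_of_lt (measure_mono hEs) (by rw [Real.volume_Icc]; exact ENNReal.ofReal_lt_top)
  have hlT : 0 ≤ Real.log T := Real.log_nonneg hT
  set μ : ℝ := (volume E).toReal with hμ
  have hμ0 : 0 ≤ μ := ENNReal.toReal_nonneg
  let ν : Measure ℝ := volume.restrict E
  have : IsFiniteMeasure ν := ⟨by rw [Measure.restrict_apply_univ]; exact hEf⟩
  have hν : ν.real Set.univ = μ := by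
    rw [Measure.real, Measure.restrict_apply_univ]
  set S : ℝ := ∑ n ∈ Finset.Ioc L M, ‖b n‖ ^ 2 with hS
  have hS0 : 0 ≤ S := Finset.sum_nonneg fun n _ => by positivity
  set R : ℝ := 2 * (1 + Real.log T) * D1 + D2 * μ with hR
  have hlog : Real.log (1 + T) ≤ 1 + Real.log T := by
    have h1 : Real.log (1 + T) ≤ Real.log (2 * T) := Real.log_le_log (by linarith) (by linarith)
    rw [Real.log_mul (by norm_num) (by linarith)] at h1
    have h2 : Real.log 2 ≤ 1 := by
      have := Real.log_le_sub_one_of_pos (show (0 : ℝ) < 2 by norm_num)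
      linarith
    linarith
  have hRb : ∀ᵐ u ∂ν, ∫ t, ‖k1_K L M (t - u)‖ ∂ν ≤ R := by
    refine (ae_restrict_iff' hEm).mpr (Filter.Eventually.of_forall fun u hu => ?_)
    have hu' := hEs hu
    have hci : Continuous fun t : ℝ => (1 + |t - u|)⁻¹ := by
      refine Continuous.inv₀ (by fun_prop) fun t => ?_
      have := abs_nonneg (t - u)
      positivity
    have hi1 : IntegrableOn (fun t : ℝ => (1 + |t - u|)⁻¹) (Set.Icc a (a + T)) volume :=
      hci.continuousOn.integrableOn_compact isCompact_Icc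
    have hi2 : Integrable (fun t : ℝ => (1 + |t - u|)⁻¹) ν := hi1.mono_set hEs
    have h1 : ∫ t, ‖k1_K L M (t - u)‖ ∂ν ≤ ∫ t, (D1 * (1 + |t - u|)⁻¹ + D2) ∂ν := by
      refine integral_mono_ae ?_ ((hi2.const_mul _).add (integrable_const _)) ?_
      · refine Integrable.of_bound (C := (M : ℝ))
          ((k1_K_cont L M).comp (by fun_prop : Continuous fun t : ℝ => t - u)).norm.measurable.aestronglyMeasurable ?_
        exact Filter.Eventually.of_forall fun t => by rw [norm_norm]; exact k1_K_bd L M _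
      · refine (ae_restrict_iff' hEm).mpr (Filter.Eventually.of_forall fun t ht => ?_)
        have ht' := hEs ht
        have h3 : |t - u| ≤ T := by
          rw [abs_le]
          constructor
          · linarith [ht'.1, hu'.2]
          · linarith [ht'.2, hu'.1]
        have h2 := hK (t - u) h3
        rw [div_eq_mul_inv] at h2
        exact h2
    have h5 : ∫ t, (1 + |t - u|)⁻¹ ∂ν ≤ 2 * (1 + Real.log T) := by
      have h6 : ∫ t, (1 + |t - u|)⁻¹ ∂ν ≤ ∫ t in Set.Icc a (a + T), (1 + |t - u|)⁻¹ := by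
        refine setIntegral_mono_set hi1 ?_ (Filter.Eventually.of_forall hEs)
        refine Filter.Eventually.of_forall fun t => ?_
        simp only [Pi.zero_apply]
        have := abs_nonneg (t - u)
        positivity
      refine h6.trans ((k1_log T (by linarith) a u hu').trans ?_)
      linarith
    rw [integral_add (hi2.const_mul _) (integrable_const _), integral_const_mul, integral_const, smul_eq_mul, hν] at h1
    refine h1.trans ?_
    have h7 : D1 * ∫ t, (1 + |t - u|)⁻¹ ∂ν ≤ D1 * (2 * (1 + Real.log T)) := mul_le_mul_of_nonneg_left h5 hD1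
    rw [hR]
    nlinarith
  have hBb : ∀ᵐ t ∂ν, V ≤ ‖k1_B L M b t‖ :=
    (ae_restrict_iff' hEm).mpr (Filter.Eventually.of_forall fun t ht => ht.2)
  have hmain := k1_abs L M b ν R V hV hBb hRb
  rw [hν] at hmain
  rcases eq_or_lt_of_le hμ0 with h0 | h0
  · have h2 : 0 ≤ S * R := by
      rw [hR]
      positivity
    rw [← h0, mul_zero]
    exact h2
  · have h1 : μ * (V ^ 2 * μ) ≤ μ * (S * R) := by
      calc μ * (V ^ 2 * μ) = (V * μ) ^ 2 := by ring
        _ ≤ S * (μ * R) := hmain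
        _ = μ * (S * R) := by ring
    exact le_of_mul_le_mul_left h1 h0

end Pool.Agent.Lib.PR
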