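import Pool.Agent.Lib.PR.K6

/-!
# PR / K7: closed forms for the bounds with the pointwise kernel

`m = (3/2)((2k)^(1/3) - 1) + (6/5)(2k)^(-1/3)` is admissible for `k ≥ 18`, and so is `m = 1.52 k^(1/3)`.
-/

set_option autoImplicit false

namespace Pool.Agent.Lib.PR

/-- `y (y - z)^2 (y + 2 z) ≥ 0` -/
private theorem quart {y z : ℝ} (hy : 0 ≤ y) (hz : 0 ≤ z) : 0 ≤ y * (y ^ 3 - 3 * z ^ 2 * y + 2 * z ^ 3) := by
  have h3 : 0 ≤ y * ((y - z) ^ 2 * (y + 2 * z)) := by positivity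
  nlinarith

/-- `m = (3/2)((2k)^(1/3) - 1) + (6/5)(2k)^(-1/3)`, `k ≥ 18` -/
theorem recK_closed (k : ℝ) (hk : 18 ≤ k) :
    RecK k (3 / 2 * ((2 * k) ^ (1 / 3 : ℝ) - 1) + 6 / 5 / (2 * k) ^ (1 / 3 : ℝ)) := by
  obtain ⟨y, hy⟩ : ∃ y : ℝ, y = (2 * k) ^ (1 / 3 : ℝ) := ⟨_, rfl⟩
  have hy0 : 0 ≤ y := by
    rw [hy]
    positivity
  have hy3 : y ^ 3 = 2 * k := by
    rw [hy, ← Real.rpow_natCast, ← Real.rpow_mul (by linarith)]
    norm_num
  rw [← hy]
  have hy2 : 3.3 ≤ y := by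
    by_contra h
    rw [not_le] at h
    have h1 := pow_le_pow_left₀ hy0 h.le 3
    norm_num at h1
    linarith
  have hyp : 0 < y := by linarith
  have red : ∀ A D : ℝ, 0 < D → 0 ≤ (y ^ 3 / 2 + A) * y - D * (3 / 2 * (y - 1) * y + 6 / 5) →
      3 / 2 * (y - 1) + 6 / 5 / y ≤ (k + A) / D := by
    intro A D hD h
    rw [le_div_iff₀ hD]
    have e1 : (3 / 2 * (y - 1) + 6 / 5 / y) * D = (D * (3 / 2 * (y - 1) * y + 6 / 5)) / y := by
      field_simp
    rw [e1, div_le_iff₀ hyp]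
    rw [hy3] at h
    linarith
  refine ⟨?_, ?_, ?_, fun q hq => ?_⟩
  · refine red _ _ (by norm_num) ?_
    have := quart (y := y) (z := 3.4642) hy0 (by norm_num)
    nlinarith
  · refine red _ _ (by norm_num) ?_
    have := quart (y := y) (z := 4.2427) hy0 (by norm_num)
    nlinarith
  · refine red _ _ (by norm_num) ?_
    rcases le_total y 4 with h | h
    · have := quart (y := y) (z := 4.3) hy0 (by norm_num)
      nlinarith [mul_nonneg (sub_nonneg.2 h) (sub_nonneg.2 hy2)]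
    · have := quart (y := y) (z := 4.4722) hy0 (by norm_num)
      nlinarith
  · unfold HK
    have e0 : (k + (q : ℝ) ^ 3 + q - 4) = k + ((q : ℝ) ^ 3 + q - 4) := by ring
    rw [e0]
    refine red _ _ (by positivity) ?_
    rcases hq.eq_or_lt with h5 | h5
    · subst h5
      push_cast
      have e1 : (y ^ 3 / 2 + (5 ^ 3 + 5 - 4)) * y - 5 * (5 + 1) * (3 / 2 * (y - 1) * y + 6 / 5) =
          (y - 5.4) ^ 2 * (y ^ 2 / 2 + 5.4 * y - 1.26) + (0.7416 - 0.072 * y) := by ring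
      rw [e1]
      have h1 : 0 ≤ y ^ 2 / 2 + 5.4 * y - 1.26 - 10 := by nlinarith
      rcases le_total y 10 with h2 | h2
      · have h3 : 0 ≤ (y - 5.4) ^ 2 * (y ^ 2 / 2 + 5.4 * y - 1.26) := mul_nonneg (sq_nonneg _) (by linarith)
        linarith
      · have h4 : 1 * (0.072 * y) ≤ (y - 5.4) ^ 2 * (y ^ 2 / 2 + 5.4 * y - 1.26) :=
          mul_le_mul (by nlinarith) (by nlinarith) (by positivity) (sq_nonneg _)
        linarith
    · have hq6 : (6 : ℝ) ≤ q := by exact_mod_cast h5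
      obtain ⟨z, hz⟩ : ∃ z : ℝ, z = q + 1 / 2 := ⟨_, rfl⟩
      have hz6 : 6.5 ≤ z := by
        rw [hz]
        norm_num
        linarith
      have hqz : (q : ℝ) = z - 1 / 2 := by linarith
      have key : 0 ≤ y * ((y - z) ^ 2 * (y + 2 * z)) / 2 + 3 / 8 * y ^ 2 + y * (7 / 4 * z - 5) - 6 / 5 * z ^ 2 + 3 / 10 := by
        rcases le_total (0.9 * z) y with h | h
        · have h1 : 0 ≤ y * ((y - z) ^ 2 * (y + 2 * z)) := by positivity
          nlinarith [mul_le_mul_of_nonneg_left h hy0, mul_le_mul_of_nonneg_left h (show 0 ≤ z - 6 by linarith)]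
        · have h1 : 0.01 * z ^ 2 ≤ (y - z) ^ 2 := by nlinarith
          have h2 : 0.01 * z ^ 2 * (3.3 + 2 * z) ≤ (y - z) ^ 2 * (y + 2 * z) :=
            mul_le_mul h1 (by linarith) (by positivity) (by positivity)
          have h3 : y * (0.01 * z ^ 2 * (3.3 + 2 * z)) ≤ y * ((y - z) ^ 2 * (y + 2 * z)) :=
            mul_le_mul_of_nonneg_left h2 hy0
          nlinarith [mul_nonneg (sq_nonneg (z - 4)) (show (0 : ℝ) ≤ z by linarith)]
      rw [hqz]
      nlinarith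

end Pool.Agent.Lib.PR
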