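import Pool.Agent.Lib.PR.BZ2
import Pool.Agent.Lib.PR.K4
import Pool.Agent.Lib.PR.BFin

/-!
# PR / KF: finiteness of the weighted moments, the arithmetic with the pointwise kernel and the exponent 2

As `BA.fin_gen`, with the possibility of the pointwise kernel for the square of the block.
-/

set_option autoImplicit false

namespace Pool.Agent.Lib.PR

open Pool.Agent.Lib.MP_bc6037_nt

theorem fin_genK (k J : ℕ) (hk : 1 ≤ k) (δ c0 : ℝ) (hδ : 0 < δ) (hδ1 : δ ≤ 1 / 2) (hc0 : 2 * (k : ℝ) ≤ c0)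
    (θ : ℝ → ℝ) (hθ : ∀ a, 0 ≤ θ a) (hP : ∀ σ : ℝ, 0 ≤ σ → PW σ θ)
    (hA : ∀ a s e : ℝ, 0 ≤ a → a ≤ 1 → 0 ≤ e → e ≤ 1 → θ a - e ≤ s →
      (∃ j : ℕ, j ≤ J ∧ 2 * j * s ≤ 2 + 2 * k * (s - a * δ) + c0 * e ∧
        (1 - 2 * j * a + 6 * j * s ≤ 2 + 2 * k * (s - a * δ) + c0 * e ∨
          1 - j * a + 2 * j * s ≤ 2 + 2 * k * (s - a * δ) + c0 * e)) ∨
      (4 * s ≤ 2 + 2 * k * (s - a * δ) + c0 * e ∧ ∃ X : ℝ, 0 ≤ X ∧ X ≤ a ∧ 4 * s + e ≤ X ∧
        ∀ y, 2 * a ≤ y → y ≤ 1 → X * y ≤ 2 * a * θ y))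
    {σ : ℝ} (hσ : 1 - δ < σ) (hσ1 : σ < 1) : Rec.Fin k σ := by
  have hk1 : (1 : ℝ) ≤ k := by exact_mod_cast hk
  obtain ⟨σ₁, h1, h2⟩ := exists_between hσ
  obtain ⟨δ', hδ'⟩ : ∃ δ' : ℝ, δ' = 1 - σ₁ := ⟨_, rfl⟩
  have e1 : σ₁ = 1 - δ' := by linarith
  have h3 : δ' < δ := by linarith
  have h4 : 0 < δ' := by linarith
  have h5 : δ' / δ < 1 := by rwa [div_lt_one hδ]
  have h6 : 0 < δ' / δ := div_pos h4 hδ
  have hB : BlockMomM (2 * k) (1 + δ' / δ) (1 - δ') := by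
    refine blockMomK_gen (2 * k) J δ' c0 (1 + δ' / δ) (by linarith) h4 (by linarith) (by linarith) θ
      (hP _ (by linarith)) (hP _ le_rfl) ?_
    intro a s e ha0 ha1 he0' he1 hs
    have he0 : 0 ≤ e := he0'.le
    push_cast
    have hs0 : -e ≤ s := by
      have := hθ a
      linarith
    have h7 : 2 * k * (-e) ≤ 2 * k * s := mul_le_mul_of_nonneg_left hs0 (by linarith)
    have h8 : 2 * k * e ≤ c0 * e := mul_le_mul_of_nonneg_right hc0 he0
    rcases le_total (2 * k * δ * a) 1 with h9 | h9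
    · refine Or.inl ⟨0, by omega, ?_⟩
      have h10 : 2 * k * (a * δ') ≤ δ' / δ := by
        have e2 : 2 * k * (a * δ') = (δ' / δ) * (2 * k * δ * a) := by
          field_simp
        rw [e2]
        exact mul_le_of_le_one_right h6.le h9
      push_cast
      exact ⟨by nlinarith, Or.inl (by nlinarith)⟩
    · have h12 : 2 + 2 * k * (s - a * δ) ≤ 1 + δ' / δ + 2 * k * (s - a * δ') := by
        have e2 : 1 + δ' / δ + 2 * k * (s - a * δ') - (2 + 2 * k * (s - a * δ)) =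
            (1 - δ' / δ) * (2 * k * δ * a - 1) := by
          field_simp
          ring
        have e3 : 0 ≤ (1 - δ' / δ) * (2 * k * δ * a - 1) := mul_nonneg (by linarith) (by linarith)
        linarith
      rcases hA a s e ha0 ha1 he0 he1 hs with ⟨j, hj, h10, h11⟩ | ⟨h10, h11⟩
      · exact Or.inl ⟨j, hj, by linarith, h11.imp (fun h => by linarith) (fun h => by linarith)⟩
      · exact Or.inr ⟨by linarith, h11⟩
  have hM := mom_of_blockM (by linarith) (by linarith) (by linarith) hB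
  rw [← e1] at hM
  exact fin_of_mom hk (by linarith) (by linarith) h2 (by linarith) (by linarith) hM

end Pool.Agent.Lib.PR
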