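import Pool.Agent.Lib.PR.LR

/-!
# PR / LC: closed forms and comparison

`recV_of_recK`, `recVB_of_recKB`: the earlier corner values are smaller.
`recV_closed`: `m = (3/2)(2k)^(1/3) - 5/4 + (1/4)(2k)^(-1/3)` is admissible for `k ≥ 18`.
`recVB_closed`: `m = (3/2)(2k)^(1/3) - 5/4 + (3/5)(2k)^(-1/3)` is admissible for `k ≥ 8`.
-/

set_option autoImplicit false

namespace Pool.Agent.Lib.PR

/-- the new corner value is at least the old one -/
theorem HV_ge {K : ℝ} (q : ℕ) (hq : 5 ≤ q) : (K + (q : ℝ) ^ 3 + q) / ((q : ℝ) * (q + 1)) ≤ HV K q := by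
  have hq5 : (5 : ℝ) ≤ q := by exact_mod_cast hq
  have h3 : (0 : ℝ) < 4 * q - 3 := by linarith
  have n3 : (4 * (q : ℝ) - 3) ≠ 0 := h3.ne'
  have n4 : (q : ℝ) * 4 - 3 ≠ 0 := by linarith
  have e1 : HV K q - (K + (q : ℝ) ^ 3 + q) / ((q : ℝ) * (q + 1)) = (q - 1) * (q - 3) / ((q + 1) * (4 * q - 3)) := by
    unfold HV
    field_simp
    ring
  have e2 : 0 ≤ ((q : ℝ) - 1) * (q - 3) / ((q + 1) * (4 * q - 3)) :=
    div_nonneg (mul_nonneg (by linarith) (by linarith)) (by positivity)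
  linarith

/-- a lower bound for the corner value -/
theorem HV_low {K : ℝ} (q : ℕ) (hq : 5 ≤ q) : (q : ℝ) - 3 / 4 + 15 / (16 * (q + 1)) + K / ((q : ℝ) * (q + 1)) ≤ HV K q := by
  have hq5 : (5 : ℝ) ≤ q := by exact_mod_cast hq
  have h3 : (0 : ℝ) < 4 * q - 3 := by linarith
  have n3 : (4 * (q : ℝ) - 3) ≠ 0 := h3.ne'
  have n4 : (q : ℝ) * 4 - 3 ≠ 0 := by linarith
  have e1 : HV K q - ((q : ℝ) - 3 / 4 + 15 / (16 * (q + 1)) + K / ((q : ℝ) * (q + 1))) = 9 / (16 * (q + 1) * (4 * q - 3)) := by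
    unfold HV
    field_simp
    ring
  have e2 : 0 ≤ 9 / (16 * ((q : ℝ) + 1) * (4 * q - 3)) := by positivity
  linarith

theorem recV_of_recK {k m : ℝ} (h : RecK k m) : RecV k m := by
  obtain ⟨g1, g2, g3, g4⟩ := h
  refine ⟨g1, by linarith, g3, fun q hq => (g4 q hq).trans ?_⟩
  have h1 := HV_ge (K := k - 4) q hq
  unfold HK
  have e1 : k + (q : ℝ) ^ 3 + q - 4 = k - 4 + (q : ℝ) ^ 3 + q := by ring
  rw [e1]
  exact h1

theorem recVB_of_recKB {k m : ℝ} (h : RecKB k m) : RecVB k m := by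
  obtain ⟨g1, g2, g3, g4, g5, g6⟩ := h
  refine ⟨g1, g2, g3, by linarith, g5, fun q hq => (g6 q hq).trans ?_⟩
  have h1 := HV_ge (K := k - 2) q hq
  unfold HKB
  have e1 : k + (q : ℝ) ^ 3 + q - 2 = k - 2 + (q : ℝ) ^ 3 + q := by ring
  rw [e1]
  exact h1

/-- `y (y - z)^2 (y + 2 z) ≥ 0` -/
private theorem quart {y z : ℝ} (hy : 0 ≤ y) (hz : 0 ≤ z) : 0 ≤ y * (y ^ 3 - 3 * z ^ 2 * y + 2 * z ^ 3) := by
  have h3 : 0 ≤ y * ((y - z) ^ 2 * (y + 2 * z)) := by positivity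
  nlinarith

private theorem keyA {y z : ℝ} (hy : 3.3 ≤ y) (hz : 6.5 ≤ z) :
    0 ≤ y * ((y - z) ^ 2 * (y + 2 * z)) / 2 + 3 / 8 * y ^ 2 + 11 / 16 * z * y - (4 + 15 / 32) * y - 1 / 4 * z ^ 2 + 1 / 16 := by
  have hy0 : 0 ≤ y := by linarith
  rcases le_total z y with h | h
  · have h1 : 0 ≤ y * ((y - z) ^ 2 * (y + 2 * z)) := by positivity
    nlinarith [mul_nonneg (show 0 ≤ z - 6.5 by linarith) hy0, mul_nonneg (sub_nonneg.2 h) hy0,
      mul_nonneg (sub_nonneg.2 h) (show 0 ≤ z by linarith)]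
  · obtain ⟨d, hd⟩ : ∃ d : ℝ, d = z - y := ⟨_, rfl⟩
    have hd0 : 0 ≤ d := by linarith
    have hzd : z = y + d := by linarith
    rw [hzd]
    have e1 : y * ((y - (y + d)) ^ 2 * (y + 2 * (y + d))) / 2 + 3 / 8 * y ^ 2 + 11 / 16 * (y + d) * y - (4 + 15 / 32) * y -
          1 / 4 * (y + d) ^ 2 + 1 / 16 =
        (3 / 2 * y ^ 2 - 1 / 4) * d ^ 2 + y * d ^ 3 + 13 / 16 * y ^ 2 + 3 / 16 * (y * d) - 143 / 32 * y + 1 / 16 := by
      ring
    rw [e1]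
    have h2 : 0 ≤ y * d ^ 3 := by positivity
    have h3 : 0 ≤ y * d := by positivity
    have h4 : 16 * d ^ 2 ≤ (3 / 2 * y ^ 2 - 1 / 4) * d ^ 2 := mul_le_mul_of_nonneg_right (by nlinarith) (sq_nonneg d)
    rcases le_total 5.5 y with h5 | h5
    · nlinarith [mul_nonneg (show 0 ≤ y - 5.5 by linarith) hy0, sq_nonneg d]
    · have hd1 : 1 ≤ d := by linarith
      nlinarith [mul_nonneg (show 0 ≤ d - 1 by linarith) hd0, sq_nonneg (y - 2.75)]

private theorem keyB {y z : ℝ} (hy : 2.5 ≤ y) (hz : 5.5 ≤ z) :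
    0 ≤ y * ((y - z) ^ 2 * (y + 2 * z)) / 2 + 3 / 8 * y ^ 2 + 11 / 16 * z * y - (2 + 15 / 32) * y - 3 / 5 * z ^ 2 + 3 / 20 := by
  have hy0 : 0 ≤ y := by linarith
  rcases le_total z y with h | h
  · have h1 : 0 ≤ y * ((y - z) ^ 2 * (y + 2 * z)) := by positivity
    nlinarith [mul_nonneg (show 0 ≤ z - 5.5 by linarith) hy0, mul_nonneg (sub_nonneg.2 h) hy0,
      mul_nonneg (sub_nonneg.2 h) (show 0 ≤ z by linarith)]
  · obtain ⟨d, hd⟩ : ∃ d : ℝ, d = z - y := ⟨_, rfl⟩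
    have hd0 : 0 ≤ d := by linarith
    have hzd : z = y + d := by linarith
    rw [hzd]
    have e1 : y * ((y - (y + d)) ^ 2 * (y + 2 * (y + d))) / 2 + 3 / 8 * y ^ 2 + 11 / 16 * (y + d) * y - (2 + 15 / 32) * y -
          3 / 5 * (y + d) ^ 2 + 3 / 20 =
        (3 / 2 * y ^ 2 - 3 / 5) * d ^ 2 + y * d ^ 3 + 37 / 80 * y ^ 2 - 41 / 80 * (y * d) - 79 / 32 * y + 3 / 20 := by
      ring
    rw [e1]
    have h2 : 0 ≤ y * d ^ 3 := by positivity
    have h3 : 0 ≤ y * d := by positivity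
    have hd5 : 5.5 - y ≤ d := by linarith
    rcases le_total 5 y with h5 | h5
    · have h4 : 36 * d ^ 2 ≤ (3 / 2 * y ^ 2 - 3 / 5) * d ^ 2 := mul_le_mul_of_nonneg_right (by nlinarith) (sq_nonneg d)
      rcases le_total 5.5 y with h6 | h6
      · have h7 : 27 * d ^ 2 ≤ (y * d) ^ 2 := by nlinarith [mul_le_mul_of_nonneg_right (show (27 : ℝ) ≤ y ^ 2 by nlinarith) (sq_nonneg d)]
        have h8 : (3 / 2 * y ^ 2 - 3 / 5) * d ^ 2 = 3 / 2 * (y * d) ^ 2 - 3 / 5 * d ^ 2 := by ring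
        nlinarith [sq_nonneg (y * d - 0.2), mul_nonneg (show 0 ≤ y - 5.5 by linarith) hy0]
      · nlinarith [mul_nonneg hd0 (show 0 ≤ 5.5 - y by linarith), mul_nonneg (show 0 ≤ y - 5 by linarith) (show 0 ≤ 5.5 - y by linarith),
          sq_nonneg (d - (5.5 - y)), mul_nonneg (show 0 ≤ d - (5.5 - y) by linarith) hd0,
          mul_nonneg (show 0 ≤ d - (5.5 - y) by linarith) (show 0 ≤ 5.5 - y by linarith), sq_nonneg (5.35 - y)]
    · have hd1 : 0.5 ≤ d := by linarith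
      have h3' : 8 ≤ 3 / 2 * y ^ 2 - 3 / 5 := by nlinarith
      have h4 : (8 + y * d) * d ^ 2 ≤ (3 / 2 * y ^ 2 - 3 / 5) * d ^ 2 + y * d ^ 3 := by
        nlinarith [mul_le_mul_of_nonneg_right h3' (sq_nonneg d)]
      rcases le_total y 4.5 with h6 | h6
      · have hd2 : 1 ≤ d := by linarith
        nlinarith [mul_nonneg (show 0 ≤ d - 1 by linarith) hd0, mul_nonneg h3 (show 0 ≤ d - 1 by linarith), sq_nonneg (y - 2.67),
          mul_nonneg h3 (sq_nonneg (d - 1)), mul_nonneg hd0 (show 0 ≤ 4.5 - y by linarith)]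
      · have h8 : 29 * d ^ 2 ≤ (3 / 2 * y ^ 2 - 3 / 5) * d ^ 2 := mul_le_mul_of_nonneg_right (by nlinarith) (sq_nonneg d)
        nlinarith [mul_nonneg (show 0 ≤ d - 0.5 by linarith) hd0, mul_nonneg hd0 (show 0 ≤ 5 - y by linarith),
          mul_nonneg (show 0 ≤ y - 4.5 by linarith) (show 0 ≤ y by linarith)]

/-- `m = (3/2)(2k)^(1/3) - 5/4 + (1/4)(2k)^(-1/3)`, `k ≥ 18` -/
theorem recV_closed (k : ℝ) (hk : 18 ≤ k) :
    RecV k (3 / 2 * (2 * k) ^ (1 / 3 : ℝ) - 5 / 4 + 1 / 4 / (2 * k) ^ (1 / 3 : ℝ)) := by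
  obtain ⟨y, hy⟩ : ∃ y : ℝ, y = (2 * k) ^ (1 / 3 : ℝ) := ⟨_, rfl⟩
  have hy0 : 0 ≤ y := by
    rw [hy]
    positivity
  have hy3 : y ^ 3 = 2 * k := by
    rw [hy, ← Real.rpow_natCast, ← Real.rpow_mul (by linarith)]
    norm_num
  rw [← hy]
  have hy2 : 3.3 ≤ y := by
    by_contra h
    rw [not_le] at h
    have h1 := pow_le_pow_left₀ hy0 h.le 3
    norm_num at h1
    linarith
  have hyp : 0 < y := by linarith
  have red : ∀ A D : ℝ, 0 < D → 0 ≤ (y ^ 3 / 2 + A) * y - D * (3 / 2 * y ^ 2 - 5 / 4 * y + 1 / 4) →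
      3 / 2 * y - 5 / 4 + 1 / 4 / y ≤ (k + A) / D := by
    intro A D hD h
    rw [le_div_iff₀ hD]
    have e1 : (3 / 2 * y - 5 / 4 + 1 / 4 / y) * D = (D * (3 / 2 * y ^ 2 - 5 / 4 * y + 1 / 4)) / y := by
      field_simp
    rw [e1, div_le_iff₀ hyp]
    rw [hy3] at h
    linarith
  refine ⟨?_, ?_, ?_, fun q hq => ?_⟩
  · refine red _ _ (by norm_num) ?_
    have := quart (y := y) (z := 3.4642) hy0 (by norm_num)
    nlinarith
  · have h1 := red (788 / 13) (246 / 13) (by norm_num) (by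
      have := quart (y := y) (z := 4.3502) hy0 (by norm_num)
      nlinarith)
    have e1 : (k + 788 / 13) / (246 / 13) = (13 * k + 788) / 246 := by ring
    rwa [e1] at h1
  · refine red _ _ (by norm_num) ?_
    have := quart (y := y) (z := 4.4722) hy0 (by norm_num)
    nlinarith
  · rcases hq.eq_or_lt with h9 | h9
    · rw [← h9]
      have h1 := red (2182 / 17) 30 (by norm_num) (by
        rcases le_total y 4.9 with h5 | h5
        · have := quart (y := y) (z := 5) hy0 (by norm_num)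
          nlinarith [mul_nonneg (show 0 ≤ y - 3.3 by linarith) (show 0 ≤ 4.9 - y by linarith)]
        · have := quart (y := y) (z := 5.4773) hy0 (by norm_num)
          nlinarith)
      have e1 : HV (k - 4) 5 = (k + 2182 / 17) / 30 := by
        unfold HV
        push_cast
        ring
      rw [e1]
      exact h1
    · have hq5 : (6 : ℝ) ≤ q := by exact_mod_cast h9
      refine le_trans ?_ (HV_low q hq)
      have e2 : (q : ℝ) - 3 / 4 + 15 / (16 * (q + 1)) + (k - 4) / ((q : ℝ) * (q + 1)) =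
          (k + ((q - 3 / 4) * (q * (q + 1)) + 15 / 16 * q - 4)) / ((q : ℝ) * (q + 1)) := by
        field_simp
        ring
      rw [e2]
      refine red _ _ (by positivity) ?_
      have h1 := keyA (y := y) (z := q + 1 / 2) hy2 (by linarith)
      have e1 : (y ^ 3 / 2 + (((q : ℝ) - 3 / 4) * (q * (q + 1)) + 15 / 16 * q - 4)) * y - (q * (q + 1)) * (3 / 2 * y ^ 2 - 5 / 4 * y + 1 / 4) =
          y * ((y - (q + 1 / 2)) ^ 2 * (y + 2 * (q + 1 / 2))) / 2 + 3 / 8 * y ^ 2 + 11 / 16 * (q + 1 / 2) * y - (4 + 15 / 32) * y -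
            1 / 4 * ((q : ℝ) + 1 / 2) ^ 2 + 1 / 16 := by
        ring
      rw [e1]
      exact h1

/-- the clauses for the mean square, `y = (2k)^(1/3)` -/
private theorem redB {k y : ℝ} (hyp : 0 < y) (hy3 : y ^ 3 = 2 * k) (A D : ℝ) (hD : 0 < D)
    (h : 0 ≤ (y ^ 3 / 2 + A) * y - D * (3 / 2 * y ^ 2 - 5 / 4 * y + 3 / 5)) :
    3 / 2 * y - 5 / 4 + 3 / 5 / y ≤ (k + A) / D := by
  rw [le_div_iff₀ hD]
  have e1 : (3 / 2 * y - 5 / 4 + 3 / 5 / y) * D = (D * (3 / 2 * y ^ 2 - 5 / 4 * y + 3 / 5)) / y := by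
    field_simp
  rw [e1, div_le_iff₀ hyp]
  rw [hy3] at h
  linarith

/-- `m = (3/2)(2k)^(1/3) - 5/4 + (3/5)(2k)^(-1/3)`, `k ≥ 8`, the clauses for `a ≤ 6/17` -/
theorem recVL_closed (k : ℝ) (hk : 8 ≤ k) :
    RecVL k (3 / 2 * (2 * k) ^ (1 / 3 : ℝ) - 5 / 4 + 3 / 5 / (2 * k) ^ (1 / 3 : ℝ)) := by
  obtain ⟨y, hy⟩ : ∃ y : ℝ, y = (2 * k) ^ (1 / 3 : ℝ) := ⟨_, rfl⟩
  have hy0 : 0 ≤ y := by
    rw [hy]
    positivity
  have hy3 : y ^ 3 = 2 * k := by
    rw [hy, ← Real.rpow_natCast, ← Real.rpow_mul (by linarith)]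
    norm_num
  rw [← hy]
  have hy2 : 2.5 ≤ y := by
    by_contra h
    rw [not_le] at h
    have h1 := pow_le_pow_left₀ hy0 h.le 3
    norm_num at h1
    linarith
  have hyp : 0 < y := by linarith
  refine ⟨?_, ?_, ?_, fun q hq => ?_⟩
  · refine redB hyp hy3 _ _ (by norm_num) ?_
    have := quart (y := y) (z := 3.4642) hy0 (by norm_num)
    nlinarith
  · have h1 := redB hyp hy3 (814 / 13) (246 / 13) (by norm_num) (by
      rcases le_total y 4 with h5 | h5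
      · have := quart (y := y) (z := 4) hy0 (by norm_num)
        nlinarith [mul_nonneg (show 0 ≤ y - 2.5 by linarith) (show 0 ≤ 4 - y by linarith)]
      · have := quart (y := y) (z := 4.3502) hy0 (by norm_num)
        nlinarith)
    have e1 : (k + 814 / 13) / (246 / 13) = (13 * k + 814) / 246 := by ring
    rwa [e1] at h1
  · refine redB hyp hy3 _ _ (by norm_num) ?_
    rcases le_total y 4 with h5 | h5
    · have := quart (y := y) (z := 4) hy0 (by norm_num)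
      nlinarith [mul_nonneg (show 0 ≤ y - 2.5 by linarith) (show 0 ≤ 4 - y by linarith)]
    · have := quart (y := y) (z := 4.4722) hy0 (by norm_num)
      nlinarith
  · have hq5 : (5 : ℝ) ≤ q := by exact_mod_cast hq
    refine le_trans ?_ (HV_low q hq)
    have e2 : (q : ℝ) - 3 / 4 + 15 / (16 * (q + 1)) + (k - 2) / ((q : ℝ) * (q + 1)) =
        (k + ((q - 3 / 4) * (q * (q + 1)) + 15 / 16 * q - 2)) / ((q : ℝ) * (q + 1)) := by
      field_simp
      ring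
    rw [e2]
    refine redB hyp hy3 _ _ (by positivity) ?_
    have h1 := keyB (y := y) (z := q + 1 / 2) hy2 (by linarith)
    have e1 : (y ^ 3 / 2 + (((q : ℝ) - 3 / 4) * (q * (q + 1)) + 15 / 16 * q - 2)) * y - (q * (q + 1)) * (3 / 2 * y ^ 2 - 5 / 4 * y + 3 / 5) =
        y * ((y - (q + 1 / 2)) ^ 2 * (y + 2 * (q + 1 / 2))) / 2 + 3 / 8 * y ^ 2 + 11 / 16 * (q + 1 / 2) * y - (2 + 15 / 32) * y -
          3 / 5 * ((q : ℝ) + 1 / 2) ^ 2 + 3 / 20 := by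
      ring
    rw [e1]
    exact h1

/-- the clauses `(k+4)/4`, `(k+16)/8`, `(k+24)/10` -/
theorem recV_top (k : ℝ) (hk : 8 ≤ k) :
    3 / 2 * (2 * k) ^ (1 / 3 : ℝ) - 5 / 4 + 3 / 5 / (2 * k) ^ (1 / 3 : ℝ) ≤ (k + 4) / 4 ∧
    3 / 2 * (2 * k) ^ (1 / 3 : ℝ) - 5 / 4 + 3 / 5 / (2 * k) ^ (1 / 3 : ℝ) ≤ (k + 16) / 8 ∧
    3 / 2 * (2 * k) ^ (1 / 3 : ℝ) - 5 / 4 + 3 / 5 / (2 * k) ^ (1 / 3 : ℝ) ≤ (k + 24) / 10 := by
  obtain ⟨y, hy⟩ : ∃ y : ℝ, y = (2 * k) ^ (1 / 3 : ℝ) := ⟨_, rfl⟩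
  have hy0 : 0 ≤ y := by
    rw [hy]
    positivity
  have hy3 : y ^ 3 = 2 * k := by
    rw [hy, ← Real.rpow_natCast, ← Real.rpow_mul (by linarith)]
    norm_num
  rw [← hy]
  have hy2 : 2.5 ≤ y := by
    by_contra h
    rw [not_le] at h
    have h1 := pow_le_pow_left₀ hy0 h.le 3
    norm_num at h1
    linarith
  have hyp : 0 < y := by linarith
  refine ⟨?_, ?_, ?_⟩
  · refine redB hyp hy3 _ _ (by norm_num) ?_
    have := quart (y := y) (z := 2) hy0 (by norm_num)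
    nlinarith
  · refine redB hyp hy3 _ _ (by norm_num) ?_
    have := quart (y := y) (z := 2.8285) hy0 (by norm_num)
    nlinarith
  · refine redB hyp hy3 _ _ (by norm_num) ?_
    have := quart (y := y) (z := 3.1623) hy0 (by norm_num)
    nlinarith

/-- `m = (3/2)(2k)^(1/3) - 5/4 + (3/5)(2k)^(-1/3)`, `k ≥ 8` -/
theorem recVB_closed (k : ℝ) (hk : 8 ≤ k) :
    RecVB k (3 / 2 * (2 * k) ^ (1 / 3 : ℝ) - 5 / 4 + 3 / 5 / (2 * k) ^ (1 / 3 : ℝ)) :=
  ⟨(recV_top k hk).1, (recV_top k hk).2.1, recVL_closed k hk⟩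

end Pool.Agent.Lib.PR
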