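import Mathlib

/-!
# PR / LE: closed forms that satisfy the clauses with the dilation estimate

The clause of order `q` is `(4q²-5q+3)/(2(2q-1)) + K (4q-3)/(2q²(2q-1))`, `K = k - 4` for `alpha` and `K = k - 2` for `beta`.
With `y = (2k)^(1/3)`: `3y/2 - 7/8 - 2/(3y)` (`k ≥ 18`) and `3y/2 - 7/8 - 1/(5y)` (`k ≥ 7`), and `1.57 k^(1/3)` (`k ≥ 7`).
-/

set_option autoImplicit false

namespace Pool.Agent.Lib.PR

/-- the clause in `y = (2k)^(1/3)` -/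
private theorem le_clause {y q e c : ℝ} (hy : 0 < y) (hq : 4 ≤ q)
    (h : 0 ≤ 2 * q * y * (q - y) ^ 2 * (2 * q + y) - 3 / 2 * y * (q - y) * (q ^ 2 - q * y - y ^ 2) + 5 / 4 * q ^ 2 * y +
      4 * c * q ^ 3 - 4 * e * q * y - 2 * c * q ^ 2 + 3 * e * y) :
    3 / 2 * y - 7 / 8 - c / y ≤ (4 * q ^ 2 - 5 * q + 3) / (2 * (2 * q - 1)) + (y ^ 3 / 2 - e) * (4 * q - 3) / (2 * q ^ 2 * (2 * q - 1)) := by
  have h1 : (0 : ℝ) < 2 * q - 1 := by linarith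
  have h2 : (0 : ℝ) < q := by linarith
  rw [← sub_nonneg]
  have e1 : (4 * q ^ 2 - 5 * q + 3) / (2 * (2 * q - 1)) + (y ^ 3 / 2 - e) * (4 * q - 3) / (2 * q ^ 2 * (2 * q - 1)) -
      (3 / 2 * y - 7 / 8 - c / y) = (2 * q * y * (q - y) ^ 2 * (2 * q + y) - 3 / 2 * y * (q - y) * (q ^ 2 - q * y - y ^ 2) +
      5 / 4 * q ^ 2 * y + 4 * c * q ^ 3 - 4 * e * q * y - 2 * c * q ^ 2 + 3 * e * y) / (2 * q ^ 2 * (2 * q - 1) * y) := by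
    have n1 : (2 * q - 1) ≠ 0 := h1.ne'
    have n1' : q * 2 - 1 ≠ 0 := by linarith
    have n2 : q ≠ 0 := h2.ne'
    have n3 : y ≠ 0 := hy.ne'
    field_simp
    ring
  rw [e1]
  positivity

/-- `q^2/y ≥ q + (q - y)` -/
private theorem le_inv {y q : ℝ} (hy : 0 < y) : (2 * q - y) * y ≤ q ^ 2 := by
  nlinarith [sq_nonneg (q - y)]

private theorem le_polyA {y q : ℝ} (hy : 0 < y) (hq : q = 4 ∨ 5 ≤ q) :
    0 ≤ 2 * q * y * (q - y) ^ 2 * (2 * q + y) - 3 / 2 * y * (q - y) * (q ^ 2 - q * y - y ^ 2) + 5 / 4 * q ^ 2 * y +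
      4 * (2 / 3) * q ^ 3 - 4 * 4 * q * y - 2 * (2 / 3) * q ^ 2 + 3 * 4 * y := by
  obtain ⟨d, hd⟩ : ∃ d : ℝ, d = q - y := ⟨_, rfl⟩
  have hy' : y = q - d := by linarith
  have hq4 : 4 ≤ q := by
    rcases hq with h | h <;> linarith
  have h1 := le_inv (q := q) hy
  have h2 : 0 ≤ 4 / 3 * (2 * q - 1) * (q ^ 2 - (2 * q - y) * y) := by
    refine mul_nonneg (by linarith) (by linarith)
  have hf : 0 ≤ (3 / 2 - 2 * q) * d ^ 3 + (6 * q ^ 2 - 9 / 2 * q) * d ^ 2 + (3 / 2 * q ^ 2 + 8 / 3 * q - 4 / 3) * d +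
      (47 / 12 * q ^ 2 - 52 / 3 * q + 12) := by
    have hc : 0 ≤ 47 / 12 * q ^ 2 - 52 / 3 * q + 12 := by nlinarith
    have hdq : d ≤ q := by linarith
    rcases le_total 0 d with h | h
    · have h3 : 0 ≤ (3 / 2 * q ^ 2 + 8 / 3 * q - 4 / 3) * d := mul_nonneg (by nlinarith) h
      have h4 : 0 ≤ (2 * q - 3 / 2) * (d ^ 2 * (q - d)) := mul_nonneg (by linarith) (mul_nonneg (sq_nonneg d) (by linarith))
      have h5 : 0 ≤ (4 * q ^ 2 - 3 * q) * d ^ 2 := mul_nonneg (by nlinarith) (sq_nonneg d)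
      nlinarith
    · have h3 : 0 ≤ (2 * q - 3 / 2) * (-d) ^ 3 := mul_nonneg (by linarith) (pow_nonneg (by linarith) 3)
      have h3' : (2 * q - 3 / 2) * (-d) ^ 3 = (3 / 2 - 2 * q) * d ^ 3 := by ring
      rcases hq with h4 | h4
      · subst h4
        nlinarith [sq_nonneg (d + 16 / 75)]
      · have h5 : 0 ≤ (6 * q ^ 2 - 9 / 2 * q) * (d + 1 / 5) ^ 2 := mul_nonneg (by nlinarith) (sq_nonneg _)
        have h6 : 0 ≤ (9 / 10 * q ^ 2 - 67 / 15 * q + 4 / 3) * (-d) := mul_nonneg (by nlinarith) (by linarith)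
        nlinarith
  have h7 : 0 ≤ y * ((3 / 2 - 2 * q) * d ^ 3 + (6 * q ^ 2 - 9 / 2 * q) * d ^ 2 + (3 / 2 * q ^ 2 + 8 / 3 * q - 4 / 3) * d +
      (47 / 12 * q ^ 2 - 52 / 3 * q + 12)) := mul_nonneg hy.le hf
  have e1 : 2 * q * y * (q - y) ^ 2 * (2 * q + y) - 3 / 2 * y * (q - y) * (q ^ 2 - q * y - y ^ 2) + 5 / 4 * q ^ 2 * y +
      4 * (2 / 3) * q ^ 3 - 4 * 4 * q * y - 2 * (2 / 3) * q ^ 2 + 3 * 4 * y =
      y * ((3 / 2 - 2 * q) * d ^ 3 + (6 * q ^ 2 - 9 / 2 * q) * d ^ 2 + (3 / 2 * q ^ 2 + 8 / 3 * q - 4 / 3) * d +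
      (47 / 12 * q ^ 2 - 52 / 3 * q + 12)) + 4 / 3 * (2 * q - 1) * (q ^ 2 - (2 * q - y) * y) := by
    rw [hd]
    ring
  rw [e1]
  linarith

private theorem le_polyB {y q : ℝ} (hy : 0 < y) (hq : q = 4 ∨ 5 ≤ q) :
    0 ≤ 2 * q * y * (q - y) ^ 2 * (2 * q + y) - 3 / 2 * y * (q - y) * (q ^ 2 - q * y - y ^ 2) + 5 / 4 * q ^ 2 * y +
      4 * (1 / 5) * q ^ 3 - 4 * 2 * q * y - 2 * (1 / 5) * q ^ 2 + 3 * 2 * y := by
  obtain ⟨d, hd⟩ : ∃ d : ℝ, d = q - y := ⟨_, rfl⟩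
  have hy' : y = q - d := by linarith
  have hq4 : 4 ≤ q := by
    rcases hq with h | h <;> linarith
  have h1 := le_inv (q := q) hy
  have h2 : 0 ≤ 2 / 5 * (2 * q - 1) * (q ^ 2 - (2 * q - y) * y) := by
    refine mul_nonneg (by linarith) (by linarith)
  have hf : 0 ≤ (3 / 2 - 2 * q) * d ^ 3 + (6 * q ^ 2 - 9 / 2 * q) * d ^ 2 + (3 / 2 * q ^ 2 + 4 / 5 * q - 2 / 5) * d +
      (41 / 20 * q ^ 2 - 42 / 5 * q + 6) := by
    have hc : 0 ≤ 41 / 20 * q ^ 2 - 42 / 5 * q + 6 := by nlinarith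
    have hdq : d ≤ q := by linarith
    rcases le_total 0 d with h | h
    · have h3 : 0 ≤ (3 / 2 * q ^ 2 + 4 / 5 * q - 2 / 5) * d := mul_nonneg (by nlinarith) h
      have h4 : 0 ≤ (2 * q - 3 / 2) * (d ^ 2 * (q - d)) := mul_nonneg (by linarith) (mul_nonneg (sq_nonneg d) (by linarith))
      have h5 : 0 ≤ (4 * q ^ 2 - 3 * q) * d ^ 2 := mul_nonneg (by nlinarith) (sq_nonneg d)
      nlinarith
    · have h3 : 0 ≤ (2 * q - 3 / 2) * (-d) ^ 3 := mul_nonneg (by linarith) (pow_nonneg (by linarith) 3)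
      have h3' : (2 * q - 3 / 2) * (-d) ^ 3 = (3 / 2 - 2 * q) * d ^ 3 := by ring
      rcases hq with h4 | h4
      · subst h4
        nlinarith [sq_nonneg (d + 13 / 75)]
      · have h5 : 0 ≤ (6 * q ^ 2 - 9 / 2 * q) * (d + 1 / 5) ^ 2 := mul_nonneg (by nlinarith) (sq_nonneg _)
        have h6 : 0 ≤ (9 / 10 * q ^ 2 - 13 / 5 * q + 2 / 5) * (-d) := mul_nonneg (by nlinarith) (by linarith)
        nlinarith
  have h7 : 0 ≤ y * ((3 / 2 - 2 * q) * d ^ 3 + (6 * q ^ 2 - 9 / 2 * q) * d ^ 2 + (3 / 2 * q ^ 2 + 4 / 5 * q - 2 / 5) * d +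
      (41 / 20 * q ^ 2 - 42 / 5 * q + 6)) := mul_nonneg hy.le hf
  have e1 : 2 * q * y * (q - y) ^ 2 * (2 * q + y) - 3 / 2 * y * (q - y) * (q ^ 2 - q * y - y ^ 2) + 5 / 4 * q ^ 2 * y +
      4 * (1 / 5) * q ^ 3 - 4 * 2 * q * y - 2 * (1 / 5) * q ^ 2 + 3 * 2 * y =
      y * ((3 / 2 - 2 * q) * d ^ 3 + (6 * q ^ 2 - 9 / 2 * q) * d ^ 2 + (3 / 2 * q ^ 2 + 4 / 5 * q - 2 / 5) * d +
      (41 / 20 * q ^ 2 - 42 / 5 * q + 6)) + 2 / 5 * (2 * q - 1) * (q ^ 2 - (2 * q - y) * y) := by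
    rw [hd]
    ring
  rw [e1]
  linarith

private theorem le_y {k : ℝ} (hk : 7 ≤ k) : 0 < (2 * k) ^ (1 / 3 : ℝ) ∧ ((2 * k) ^ (1 / 3 : ℝ)) ^ 3 = 2 * k := by
  refine ⟨Real.rpow_pos_of_pos (by linarith) _, ?_⟩
  rw [← Real.rpow_natCast, ← Real.rpow_mul (by linarith)]
  norm_num

private theorem le_q (q : ℕ) (hq : 4 ≤ q) : (q : ℝ) = 4 ∨ (5 : ℝ) ≤ q := by
  rcases Nat.eq_or_lt_of_le hq with h | h
  · left
    rw [← h]
    norm_num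
  · right
    exact_mod_cast h

/-- the closed form for `alpha` -/
theorem le_closedA (k : ℝ) (hk : 18 ≤ k) :
    3 / 2 * (2 * k) ^ (1 / 3 : ℝ) - 7 / 8 - 2 / 3 / (2 * k) ^ (1 / 3 : ℝ) ≤ (k + 26) / 11 ∧
    ∀ q : ℕ, 4 ≤ q → 3 / 2 * (2 * k) ^ (1 / 3 : ℝ) - 7 / 8 - 2 / 3 / (2 * k) ^ (1 / 3 : ℝ) ≤
      (4 * (q : ℝ) ^ 2 - 5 * q + 3) / (2 * (2 * q - 1)) + (k - 4) * (4 * q - 3) / (2 * (q : ℝ) ^ 2 * (2 * q - 1)) := by
  obtain ⟨h1, h2⟩ := le_y (k := k) (by linarith)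
  obtain ⟨y, hy⟩ : ∃ y : ℝ, y = (2 * k) ^ (1 / 3 : ℝ) := ⟨_, rfl⟩
  rw [← hy] at h1 h2 ⊢
  have hk2 : k = y ^ 3 / 2 := by linarith
  refine ⟨?_, fun q hq => ?_⟩
  · have h3 : 3 / 2 * y - 7 / 8 - 2 / 3 / y = (3 / 2 * y ^ 2 - 7 / 8 * y - 2 / 3) / y := by
      field_simp
    rw [h3, div_le_iff₀ h1, hk2]
    nlinarith [mul_nonneg (sq_nonneg (y - 3.345)) (by positivity : (0 : ℝ) ≤ y ^ 2 + 6.69 * y + 0.56)]
  · have h3 := le_clause (e := 4) (c := 2 / 3) h1 (by exact_mod_cast hq : (4 : ℝ) ≤ q) (le_polyA h1 (le_q q hq))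
    rwa [← hk2] at h3

/-- the closed form for `beta` -/
theorem le_closedB (k : ℝ) (hk : 7 ≤ k) :
    3 / 2 * (2 * k) ^ (1 / 3 : ℝ) - 7 / 8 - 1 / 5 / (2 * k) ^ (1 / 3 : ℝ) ≤ (k + 18) / 8 ∧
    3 / 2 * (2 * k) ^ (1 / 3 : ℝ) - 7 / 8 - 1 / 5 / (2 * k) ^ (1 / 3 : ℝ) ≤ 2 * (k + 26) / 21 ∧
    3 / 2 * (2 * k) ^ (1 / 3 : ℝ) - 7 / 8 - 1 / 5 / (2 * k) ^ (1 / 3 : ℝ) ≤ (k + 24) / 10 ∧
    3 / 2 * (2 * k) ^ (1 / 3 : ℝ) - 7 / 8 - 1 / 5 / (2 * k) ^ (1 / 3 : ℝ) ≤ (k + 28) / 11 ∧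
    ∀ q : ℕ, 4 ≤ q → 3 / 2 * (2 * k) ^ (1 / 3 : ℝ) - 7 / 8 - 1 / 5 / (2 * k) ^ (1 / 3 : ℝ) ≤
      (4 * (q : ℝ) ^ 2 - 5 * q + 3) / (2 * (2 * q - 1)) + (k - 2) * (4 * q - 3) / (2 * (q : ℝ) ^ 2 * (2 * q - 1)) := by
  obtain ⟨h1, h2⟩ := le_y (k := k) (by linarith)
  obtain ⟨y, hy⟩ : ∃ y : ℝ, y = (2 * k) ^ (1 / 3 : ℝ) := ⟨_, rfl⟩
  rw [← hy] at h1 h2 ⊢
  have hk2 : k = y ^ 3 / 2 := by linarith
  have h3 : 3 / 2 * y - 7 / 8 - 1 / 5 / y = (3 / 2 * y ^ 2 - 7 / 8 * y - 1 / 5) / y := by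
    field_simp
  refine ⟨?_, ?_, ?_, ?_, fun q hq => ?_⟩
  · rw [h3, div_le_iff₀ h1, hk2]
    nlinarith [mul_nonneg (sq_nonneg (y - 2.72)) (by positivity : (0 : ℝ) ≤ y ^ 2 + 5.44 * y)]
  · rw [h3, div_le_iff₀ h1, hk2]
    nlinarith [mul_nonneg (sq_nonneg (y - 3.19)) (by positivity : (0 : ℝ) ≤ y ^ 2 + 6.38 * y)]
  · rw [h3, div_le_iff₀ h1, hk2]
    nlinarith [mul_nonneg (sq_nonneg (y - 3.1)) (by positivity : (0 : ℝ) ≤ y ^ 2 + 6.2 * y)]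
  · rw [h3, div_le_iff₀ h1, hk2]
    nlinarith [mul_nonneg (sq_nonneg (y - 3.3)) (by positivity : (0 : ℝ) ≤ y ^ 2 + 6.6 * y)]
  · have h3 := le_clause (e := 2) (c := 1 / 5) h1 (by exact_mod_cast hq : (4 : ℝ) ≤ q) (le_polyB h1 (le_q q hq))
    rwa [← hk2] at h3

private theorem le_cube {x y c d : ℝ} (hx : 0 ≤ x) (hy : 0 ≤ y) (h1 : 2 * y ^ 3 ≤ c) (h2 : d ≤ 3 * y ^ 2) : d * x ≤ x ^ 3 + c := by
  have h3 : 0 ≤ (x - y) ^ 2 * (x + 2 * y) := by positivity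
  nlinarith [mul_le_mul_of_nonneg_right h2 hx]

/-- `1.57 k^(1/3)` -/
theorem le_closed157 (k : ℝ) (hk : 7 ≤ k) :
    1.57 * k ^ (1 / 3 : ℝ) ≤ (k + 18) / 8 ∧ 1.57 * k ^ (1 / 3 : ℝ) ≤ 2 * (k + 26) / 21 ∧
    1.57 * k ^ (1 / 3 : ℝ) ≤ (k + 24) / 10 ∧ 1.57 * k ^ (1 / 3 : ℝ) ≤ (k + 28) / 11 ∧
    ∀ q : ℕ, 4 ≤ q → 1.57 * k ^ (1 / 3 : ℝ) ≤
      (4 * (q : ℝ) ^ 2 - 5 * q + 3) / (2 * (2 * q - 1)) + (k - 2) * (4 * q - 3) / (2 * (q : ℝ) ^ 2 * (2 * q - 1)) := by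
  have hB := (le_closedB k hk).2.2.2.2
  have h12 : 1.259 * k ^ (1 / 3 : ℝ) ≤ (2 * k) ^ (1 / 3 : ℝ) := by
    have h1 : (1.259 : ℝ) = (1.259 ^ 3 : ℝ) ^ (1 / 3 : ℝ) := by
      rw [← Real.rpow_natCast, ← Real.rpow_mul (by norm_num)]
      norm_num
    rw [h1, ← Real.mul_rpow (by norm_num) (by linarith)]
    refine Real.rpow_le_rpow (by positivity) ?_ (by norm_num)
    nlinarith
  obtain ⟨x, hx⟩ : ∃ x : ℝ, x = k ^ (1 / 3 : ℝ) := ⟨_, rfl⟩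
  have hx0 : 0 ≤ x := by
    rw [hx]
    exact Real.rpow_nonneg (by linarith) _
  have hx3 : x ^ 3 = k := by
    rw [hx, ← Real.rpow_natCast, ← Real.rpow_mul (by linarith)]
    norm_num
  rw [← hx] at h12 ⊢
  refine ⟨?_, ?_, ?_, ?_, fun q hq => ?_⟩
  · have := le_cube (x := x) (y := 2.047) (c := 18) (d := 12.56) hx0 (by norm_num) (by norm_num) (by norm_num)
    linarith
  · have := le_cube (x := x) (y := 2.3445) (c := 26) (d := 16.485) hx0 (by norm_num) (by norm_num) (by norm_num)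
    linarith
  · have := le_cube (x := x) (y := 2.2877) (c := 24) (d := 15.7) hx0 (by norm_num) (by norm_num) (by norm_num)
    linarith
  · have := le_cube (x := x) (y := 2.4) (c := 28) (d := 17.27) hx0 (by norm_num) (by norm_num) (by norm_num)
    linarith
  · obtain rfl | h5 : q = 4 ∨ 5 ≤ q := by omega
    · have := le_cube (x := x) (y := 3.01) (c := 726 / 13) (d := 351.68 / 13) hx0 (by norm_num) (by norm_num) (by norm_num)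
      norm_num
      linarith
    obtain rfl | h6 : q = 5 ∨ 6 ≤ q := by omega
    · have := le_cube (x := x) (y := 3.723) (c := 1916 / 17) (d := 706.5 / 17) hx0 (by norm_num) (by norm_num) (by norm_num)
      norm_num
      linarith
    rcases le_total x 3.3 with hx33 | hx33
    · have hq6 : (6 : ℝ) ≤ q := by exact_mod_cast h6
      have hp : (0 : ℝ) < 2 * q - 1 := by linarith
      have h7 : 0 ≤ (k - 2) * (4 * q - 3) / (2 * (q : ℝ) ^ 2 * (2 * q - 1)) := by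
        refine div_nonneg (mul_nonneg (by linarith) (by linarith)) (by positivity)
      have h8 : (5.25 : ℝ) ≤ (4 * (q : ℝ) ^ 2 - 5 * q + 3) / (2 * (2 * q - 1)) := by
        rw [le_div_iff₀ (by linarith)]
        nlinarith
      linarith
    · refine le_trans ?_ (hB q hq)
      obtain ⟨y, hy⟩ : ∃ y : ℝ, y = (2 * k) ^ (1 / 3 : ℝ) := ⟨_, rfl⟩
      rw [← hy] at h12 ⊢
      have hy4 : 4 ≤ y := by linarith
      have h9 : 1 / 5 / y ≤ 1 / 20 := by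
        rw [div_le_iff₀ (by linarith)]
        linarith
      linarith

end Pool.Agent.Lib.PR
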