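import Pool.Agent.Lib.PR.K5
import Pool.Agent.Lib.PR.KBO

/-!
# PR / LO: the arithmetic of the exponents with the new derivative test, all `k ≥ 18` (pointwise) and all `k ≥ 9` (mean square)

`hv q a` is the saving of the new test of order `q` on `[1/q, 1/(q-1)]`, `c = (4q-3)/(3q)`.  Its corner with the saving of order `q + 1`
is at `(4q-3)(q+1)/(2q^2(2q-1))`, with the value `HV K q`, `K = k - 4` resp. `K = k - 2`.
-/

set_option autoImplicit false

namespace Pool.Agent.Lib.PR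

/-- the saving of the new test of order `q`, for `(q-1) a ≤ 1` -/
noncomputable def hv (q : ℕ) (a : ℝ) : ℝ :=
  min ((4 * (q : ℝ) - 3) / (3 * q) * (((q : ℝ) * a - 1) / ((q : ℝ) * (q - 1)))) (a / ((q : ℝ) * (q - 1)))

/-- the corner value of order `q` -/
noncomputable def HV (K : ℝ) (q : ℕ) : ℝ :=
  2 * (q : ℝ) ^ 2 * (2 * q - 1) / ((4 * q - 3) * (q + 1)) + K / ((q : ℝ) * (q + 1))

/-- `a m ≤ 1 + K s` on `[1/Q, 1/(Q-1)]` -/
theorem lineV {K m a s e : ℝ} (Q : ℕ) (hQ : 5 ≤ Q) (hK : 0 ≤ K) (hm : m ≤ HV K Q)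
    (hm2 : m ≤ (Q : ℝ) - 1 + K / ((Q : ℝ) * (Q - 1)))
    (l1 : 1 / (Q : ℝ) ≤ a) (l2 : a ≤ 1 / ((Q : ℝ) - 1)) (hs1 : hb (Q + 1) a - e ≤ s) (hs2 : hv Q a - e ≤ s) :
    a * m ≤ 1 + K * s + K * e := by
  have hQ5 : (5 : ℝ) ≤ Q := by exact_mod_cast hQ
  have hQ0 : (0 : ℝ) < Q := by linarith
  have hQ1 : (0 : ℝ) < Q - 1 := by linarith
  have ha : 0 < a := lt_of_lt_of_le (by positivity) l1
  have hQa : 1 ≤ (Q : ℝ) * a := by
    rw [div_le_iff₀ hQ0] at l1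
    linarith
  have hQa1 : ((Q : ℝ) - 1) * a ≤ 1 := by
    rw [le_div_iff₀ hQ1] at l2
    linarith
  have h2 : ((Q + 1 : ℕ) : ℝ) * a ≤ 2 := by
    push_cast
    nlinarith
  have h3 := hb_flat (q := Q + 1) (by omega) (by push_cast; linarith) h2
  have hZ : a / ((Q : ℝ) * (Q + 1)) ≤ s + e := by
    have e1 : a / ((Q : ℝ) * (Q + 1)) = a / (((Q + 1 : ℕ) : ℝ) * (((Q + 1 : ℕ) : ℝ) - 1)) := by
      push_cast
      ring_nf
    linarith
  obtain ⟨c, hc⟩ : ∃ c : ℝ, c = (4 * (Q : ℝ) - 3) / (3 * Q) := ⟨_, rfl⟩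
  have hc1 : 1 ≤ c := by
    rw [hc, le_div_iff₀ (by positivity)]
    linarith
  obtain ⟨b, hb0⟩ : ∃ b : ℝ, b = (4 * (Q : ℝ) - 3) * (Q + 1) / (2 * (Q : ℝ) ^ 2 * (2 * Q - 1)) := ⟨_, rfl⟩
  have hQ2 : (0 : ℝ) < 2 * Q - 1 := by linarith
  have hQ3 : (0 : ℝ) < 4 * Q - 3 := by linarith
  have n1 : (Q : ℝ) * 2 - 1 ≠ 0 := by linarith
  have n2 : (2 * (Q : ℝ) - 1) ≠ 0 := hQ2.ne'
  have n3 : (4 * (Q : ℝ) - 3) ≠ 0 := hQ3.ne'
  have n4 : (Q : ℝ) * 4 - 3 ≠ 0 := by linarith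
  have n5 : (Q : ℝ) - 1 ≠ 0 := hQ1.ne'
  have hbp : 0 < b := by
    rw [hb0]
    positivity
  -- the corner
  have hbm : b * m ≤ 1 + K * (b / ((Q : ℝ) * (Q + 1))) := by
    have h4 := mul_le_mul_of_nonneg_left hm hbp.le
    have e1 : b * HV K Q = 1 + K * (b / ((Q : ℝ) * (Q + 1))) := by
      unfold HV
      rw [mul_add]
      congr 1
      · rw [hb0]
        field_simp
      · ring
    linarith
  unfold hv at hs2
  rw [← hc] at hs2
  rcases le_total (a / ((Q : ℝ) * (Q - 1))) (c * (((Q : ℝ) * a - 1) / ((Q : ℝ) * (Q - 1)))) with h | h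
  · rw [min_eq_right h] at hs2
    have h4 : K * (a / ((Q : ℝ) * (Q - 1))) ≤ K * (s + e) := mul_le_mul_of_nonneg_left (by linarith) hK
    have h5 := mul_le_mul_of_nonneg_left hm2 ha.le
    have e1 : a * ((Q : ℝ) - 1 + K / ((Q : ℝ) * (Q - 1))) = ((Q : ℝ) - 1) * a + K * (a / ((Q : ℝ) * (Q - 1))) := by ring
    linarith
  · rw [min_eq_left h] at hs2
    have h4 : K * (c * (((Q : ℝ) * a - 1) / ((Q : ℝ) * (Q - 1)))) ≤ K * (s + e) := mul_le_mul_of_nonneg_left (by linarith) hK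
    rcases le_total a b with h5 | h5
    · -- flat part
      have h6 : K * (a / ((Q : ℝ) * (Q + 1))) ≤ K * (s + e) := mul_le_mul_of_nonneg_left hZ hK
      have h7 : 0 ≤ 1 / b - (m - K / ((Q : ℝ) * (Q + 1))) := by
        have e1 : 1 / b - (m - K / ((Q : ℝ) * (Q + 1))) = (1 + K * (b / ((Q : ℝ) * (Q + 1))) - b * m) / b := by
          field_simp
          ring
        rw [e1]
        exact div_nonneg (by linarith) hbp.le
      have h8 : a * (1 / b) ≤ 1 := by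
        rw [mul_one_div, div_le_one hbp]
        exact h5
      have h9 := mul_nonneg ha.le h7
      have e2 : a * (1 / b - (m - K / ((Q : ℝ) * (Q + 1)))) = a * (1 / b) - a * m + K * (a / ((Q : ℝ) * (Q + 1))) := by ring
      linarith
    · -- rising part
      have e1 : c * (((Q : ℝ) * b - 1) / ((Q : ℝ) * (Q - 1))) = b / ((Q : ℝ) * (Q + 1)) := by
        rw [hc, hb0]
        field_simp
        ring
      have h6 := lin_between (A := 1 - K * (c * (1 / ((Q : ℝ) * (Q - 1))))) (B := K * (c * (1 / ((Q : ℝ) - 1))) - m) h5 l2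
        (by
          have e2 : 1 - K * (c * (1 / ((Q : ℝ) * (Q - 1)))) + (K * (c * (1 / ((Q : ℝ) - 1))) - m) * b =
              1 + K * (c * (((Q : ℝ) * b - 1) / ((Q : ℝ) * (Q - 1)))) - b * m := by
            field_simp
            ring
          rw [e2, e1]
          linarith)
        (by
          have e2 : 1 - K * (c * (1 / ((Q : ℝ) * (Q - 1)))) + (K * (c * (1 / ((Q : ℝ) - 1))) - m) * (1 / ((Q : ℝ) - 1)) =
              (1 / ((Q : ℝ) - 1)) * (((Q : ℝ) - 1 + K / ((Q : ℝ) * (Q - 1)) - m) + (c - 1) * K / ((Q : ℝ) * (Q - 1))) := by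
            field_simp
            ring
          rw [e2]
          have h7 : 0 ≤ (c - 1) * K / ((Q : ℝ) * (Q - 1)) := div_nonneg (mul_nonneg (by linarith) hK) (by positivity)
          exact mul_nonneg (by positivity) (by linarith))
      have e3 : 1 - K * (c * (1 / ((Q : ℝ) * (Q - 1)))) + (K * (c * (1 / ((Q : ℝ) - 1))) - m) * a =
          1 + K * (c * (((Q : ℝ) * a - 1) / ((Q : ℝ) * (Q - 1)))) - a * m := by
        field_simp
        ring
      linarith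

/-- the clause of order `q` gives the bound at `1/q` -/
theorem HV_le {K m : ℝ} (Q : ℕ) (hQ : 6 ≤ Q) (hm : m ≤ HV K (Q - 1)) :
    m ≤ (Q : ℝ) - 1 + (K - 3 * ((Q : ℝ) - 3)) / ((Q : ℝ) * (Q - 1)) := by
  obtain ⟨R, rfl⟩ : ∃ R, Q = R + 1 := ⟨Q - 1, by omega⟩
  have hR : (5 : ℝ) ≤ R := by exact_mod_cast (by omega : 5 ≤ R)
  rw [Nat.add_sub_cancel] at hm
  refine hm.trans ?_
  unfold HV
  push_cast
  have h3 : (0 : ℝ) < 4 * R - 3 := by linarith
  have hR0 : (R : ℝ) ≠ 0 := by linarith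
  have n3 : (4 * (R : ℝ) - 3) ≠ 0 := h3.ne'
  have n4 : (R : ℝ) * 4 - 3 ≠ 0 := by linarith
  have n5 : (R : ℝ) + 1 ≠ 0 := by linarith
  rw [add_sub_cancel_right]
  have e1 : ((R : ℝ) + (K - 3 * ((R : ℝ) + 1 - 3)) / (((R : ℝ) + 1) * R)) -
      (2 * (R : ℝ) ^ 2 * (2 * R - 1) / ((4 * R - 3) * (R + 1)) + K / ((R : ℝ) * (R + 1))) =
      (3 * (R : ℝ) ^ 2 * (R - 1) - 3 * (R - 2) * (4 * R - 3)) / (R * (R + 1) * (4 * R - 3)) := by
    field_simp
    ring
  have e2 : 0 ≤ (3 * (R : ℝ) ^ 2 * (R - 1) - 3 * (R - 2) * (4 * R - 3)) / (R * (R + 1) * (4 * R - 3)) := by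
    refine div_nonneg ?_ (by positivity)
    nlinarith [mul_nonneg (show (0 : ℝ) ≤ R - 5 by linarith) (show (0 : ℝ) ≤ R by linarith),
      mul_nonneg (mul_nonneg (show (0 : ℝ) ≤ R - 5 by linarith) (show (0 : ℝ) ≤ R by linarith)) (show (0 : ℝ) ≤ R by linarith)]
  linarith

/-- `R = ⌈Q/2⌉`: `x/(Q(Q-1)) ≤ y/(2R(R+1))` for `x ≤ y`, `0 ≤ y` -/
theorem frac_le {x y : ℝ} (Q R : ℕ) (hQ : 6 ≤ Q) (hR : R = (Q + 1) / 2) (hxy : x ≤ y) (hy : 0 ≤ y) :
    x / ((Q : ℝ) * (Q - 1)) ≤ y / (2 * R * (R + 1)) := by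
  have hQ6 : (6 : ℝ) ≤ Q := by exact_mod_cast hQ
  have h1 : (0 : ℝ) < (Q : ℝ) * (Q - 1) := mul_pos (by linarith) (by linarith)
  have hR3 : 3 ≤ R := by omega
  have hR3' : (3 : ℝ) ≤ R := by exact_mod_cast hR3
  have h2 : 2 * (R : ℝ) * (R + 1) ≤ (Q : ℝ) * (Q - 1) := by
    rcases Nat.even_or_odd' Q with ⟨n, hn | hn⟩
    · have hRn : (R : ℝ) = n := by exact_mod_cast (by omega : R = n)
      have hQn : (Q : ℝ) = 2 * n := by exact_mod_cast hn
      rw [hRn] at hR3' ⊢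
      rw [hQn]
      nlinarith
    · have hRn : (R : ℝ) = n + 1 := by exact_mod_cast (by omega : R = n + 1)
      have hQn : (Q : ℝ) = 2 * n + 1 := by exact_mod_cast hn
      have hn3 : (3 : ℝ) ≤ n := by exact_mod_cast (by omega : 3 ≤ n)
      rw [hRn, hQn]
      nlinarith
  have h3 : x / ((Q : ℝ) * (Q - 1)) ≤ y / ((Q : ℝ) * (Q - 1)) := div_le_div_of_nonneg_right hxy h1.le
  exact h3.trans (div_le_div_of_nonneg_left hy (by positivity) h2)

/-- the power `R` with the saving `c a`, pointwise -/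
theorem powV {k m a s e c a1 a2 : ℝ} (R : ℕ) (ha1 : 0 < a1) (l1 : a1 ≤ a) (l2 : a ≤ a2) (hk : 6 * (R : ℝ) ≤ k) (he : 0 ≤ e)
    (hs : c * a - e ≤ s) (hm : m ≤ 1 / a2 + (k - 2 * R) * c) (hc : 1 / a2 + 4 * R * c ≤ 2 * R) : Concl k m a s e := by
  have ha : 0 < a := lt_of_lt_of_le ha1 l1
  have ha2 : 0 < a2 := lt_of_lt_of_le ha l2
  have h12 : 1 / a2 ≤ 1 / a1 := one_div_le_one_div_of_le ha1 (l1.trans l2)
  refine concl_lin R c 0 a1 a2 hk he (by linarith) l1 l2 ?_ ?_ ?_ ?_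
  · have h6 := mul_le_mul_of_nonneg_left (hm.trans (by linarith : 1 / a2 + (k - 2 * R) * c ≤ 1 / a1 + (k - 2 * R) * c)) ha1.le
    have e1 : a1 * (1 / a1 + (k - 2 * R) * c) = 1 + (k - 2 * R) * (c * a1 + 0) := by
      field_simp
      ring
    linarith
  · have h6 := mul_le_mul_of_nonneg_left hm ha2.le
    have e1 : a2 * (1 / a2 + (k - 2 * R) * c) = 1 + (k - 2 * R) * (c * a2 + 0) := by
      field_simp
      ring
    linarith
  · have h6 := mul_le_mul_of_nonneg_left (by linarith : m - 2 * R ≤ (k - 6 * R) * c) ha1.le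
    linarith
  · have h6 := mul_le_mul_of_nonneg_left (by linarith : m - 2 * R ≤ (k - 6 * R) * c) ha2.le
    linarith

/-- the power `R` with the saving `c a`, mean square -/
theorem powVB {k m a s e c a1 a2 : ℝ} (R : ℕ) (ha1 : 0 < a1) (l1 : a1 ≤ a) (l2 : a ≤ a2) (hk : 3 * (R : ℝ) ≤ k) (he : 0 ≤ e)
    (hs : c * a - e ≤ s) (hm : m ≤ 1 / a2 + (k - R) * c) (hc : 1 / a2 + 4 * R * c ≤ 2 * R) : ConclB k m a s e := by
  have ha : 0 < a := lt_of_lt_of_le ha1 l1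
  have ha2 : 0 < a2 := lt_of_lt_of_le ha l2
  have h12 : 1 / a2 ≤ 1 / a1 := one_div_le_one_div_of_le ha1 (l1.trans l2)
  refine conclB_lin R c 0 a1 a2 hk he (by linarith) l1 l2 ?_ ?_ ?_ ?_
  · have h6 := mul_le_mul_of_nonneg_left (hm.trans (by linarith : 1 / a2 + (k - R) * c ≤ 1 / a1 + (k - R) * c)) ha1.le
    have e1 : a1 * (1 / a1 + (k - R) * c) = 1 + (k - R) * (c * a1 + 0) := by
      field_simp
      ring
    linarith
  · have h6 := mul_le_mul_of_nonneg_left hm ha2.le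
    have e1 : a2 * (1 / a2 + (k - R) * c) = 1 + (k - R) * (c * a2 + 0) := by
      field_simp
      ring
    linarith
  · have h5 : 2 * m - 2 * R ≤ 1 / a1 + (2 * k - 6 * R) * c := by linarith
    have h6 := mul_le_mul_of_nonneg_left h5 ha1.le
    have e1 : a1 * (1 / a1 + (2 * k - 6 * R) * c) = 1 + (2 * k - 6 * R) * (c * a1 + 0) := by
      field_simp
      ring
    linarith
  · have h5 : 2 * m - 2 * R ≤ 1 / a2 + (2 * k - 6 * R) * c := by linarith
    have h6 := mul_le_mul_of_nonneg_left h5 ha2.le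
    have e1 : a2 * (1 / a2 + (2 * k - 6 * R) * c) = 1 + (2 * k - 6 * R) * (c * a2 + 0) := by
      field_simp
      ring
    linarith

end Pool.Agent.Lib.PR
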