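import Pool.Agent.Lib.PR.PW
import Pool.Agent.Lib.PR.A1

/-!
# PR / MU1: the growth of zeta from pointwise savings

`growth_of_PW`: if the blocks of length `T^a` of `ζ(σ+it)` have the pointwise saving `θ a` and
`a (1-σ) - θ a ≤ B` for `0 ≤ a ≤ 1`, then `ζ(σ+it) = O(|t|^(B+ε))`.
-/

set_option autoImplicit false

open Complex

namespace Pool.Agent.Lib.PR

private lemma mu1_dyadic (f : ℕ → ℂ) (K : ℕ) : ∑ n ∈ Finset.Icc 1 (2 ^ K), f n =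
    f 1 + ∑ i ∈ Finset.range K, ∑ n ∈ Finset.Ioc (2 ^ i) (2 * 2 ^ i), f n := by
  induction K with
  | zero => simp
  | succ K ih =>
    rw [Finset.sum_range_succ, ← add_assoc, ← ih]
    have h1 : Finset.Icc 1 (2 ^ (K + 1)) = Finset.Icc 1 (2 ^ K) ∪ Finset.Ioc (2 ^ K) (2 * 2 ^ K) := by
      ext n
      simp only [Finset.mem_union, Finset.mem_Icc, Finset.mem_Ioc]
      have : 2 ^ (K + 1) = 2 * 2 ^ K := by ring
      have h2 : 1 ≤ 2 ^ K := Nat.one_le_two_pow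
      omega
    have h2 : Disjoint (Finset.Icc 1 (2 ^ K)) (Finset.Ioc (2 ^ K) (2 * 2 ^ K)) := by
      rw [Finset.disjoint_left]
      intro n hn hn'
      simp only [Finset.mem_Icc, Finset.mem_Ioc] at hn hn'
      omega
    rw [h1, Finset.sum_union h2]

private lemma mu1_log {a : ℝ} (ha : 0 < a) : ∃ C : ℝ, 0 ≤ C ∧ ∀ T : ℝ, 1 ≤ T →
    ((Nat.log 2 ⌊T⌋₊ + 1 : ℕ) : ℝ) ≤ C * T ^ a := by
  have hl2 : 0 < Real.log 2 := Real.log_pos (by norm_num)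
  refine ⟨1 / (a * Real.log 2) + 1, by positivity, fun T hT => ?_⟩
  have hT0 : 0 < T := by linarith
  have h1 : ⌊T⌋₊ ≠ 0 := by
    have := Nat.floor_pos.2 hT
    omega
  have h2 : ((2 : ℝ)) ^ (Nat.log 2 ⌊T⌋₊) ≤ T := by
    have h3 : 2 ^ (Nat.log 2 ⌊T⌋₊) ≤ ⌊T⌋₊ := Nat.pow_log_le_self 2 h1
    have h4 : ((2 ^ (Nat.log 2 ⌊T⌋₊) : ℕ) : ℝ) ≤ (⌊T⌋₊ : ℝ) := by exact_mod_cast h3
    push_cast at h4
    exact h4.trans (Nat.floor_le hT0.le)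
  have h5 := Real.log_le_log (by positivity) h2
  rw [Real.log_pow] at h5
  have h6 := Real.log_le_rpow_div hT0.le ha
  have h7 : 1 ≤ T ^ a := Real.one_le_rpow hT ha.le
  have h8 : (Nat.log 2 ⌊T⌋₊ : ℝ) ≤ 1 / (a * Real.log 2) * T ^ a := by
    rw [← le_div_iff₀ hl2] at h5
    refine h5.trans ?_
    rw [div_le_iff₀ hl2]
    refine h6.trans (le_of_eq ?_)
    field_simp
  push_cast
  linarith

private lemma mu1_conj (σ t : ℝ) : ‖riemannZeta (σ + ((-t : ℝ) : ℂ) * I)‖ = ‖riemannZeta (σ + t * I)‖ := by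
  have h := riemannZeta_conj (σ + t * I)
  have e : (starRingEnd ℂ) (σ + t * I) = σ + ((-t : ℝ) : ℂ) * I := by
    rw [map_add, map_mul, Complex.conj_ofReal, Complex.conj_ofReal, Complex.conj_I]
    push_cast
    ring
  rw [e] at h
  rw [h, RCLike.norm_conj]

/-- one value of `T`, `t ∈ [T, 2T]` -/
private lemma mu1_one {σ B : ℝ} {θ : ℝ → ℝ} (h0 : 1 / 2 ≤ σ) (h1 : σ < 1) (hB0 : 0 ≤ B)
    (h : PW σ θ) (hB : ∀ a, 0 ≤ a → a ≤ 1 → a * (1 - σ) - θ a ≤ B) {ε : ℝ} (hε : 0 < ε) :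
    ∃ C : ℝ, 0 ≤ C ∧ ∀ t : ℝ, 2 ≤ t → ‖riemannZeta (σ + t * I)‖ ≤ C * t ^ (B + ε) := by
  obtain ⟨C0, hC0, happ⟩ := approxM h0 h1
  obtain ⟨C1, hC1, hblk⟩ := h (ε / 2) (by linarith)
  obtain ⟨C2, hC2, hl2⟩ := mu1_log (a := ε / 2) (by positivity)
  refine ⟨C0 + 1 + C2 * C1, by positivity, fun T hT2 => ?_⟩
  have hT : 1 ≤ T := by linarith
  have hTpos : 0 < T := by linarith
  obtain ⟨φ, hφ0, hφ1, hφm, hφ⟩ := happ T hT
  obtain ⟨ψ, hψ⟩ : ∃ ψ : ℕ → ℝ, ψ = fun n => if n ≤ ⌊T⌋₊ then φ n else 0 := ⟨_, rfl⟩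
  have hψ0 : ∀ n, 0 ≤ ψ n := by
    intro n
    rw [hψ]
    simp only
    split_ifs
    · exact hφ0 n
    · exact le_rfl
  have hψ1 : ∀ n, ψ n ≤ 1 := by
    intro n
    rw [hψ]
    simp only
    split_ifs
    · exact hφ1 n
    · exact zero_le_one
  have hψm : Antitone ψ := by
    intro m n hmn
    rw [hψ]
    simp only
    by_cases hn : n ≤ ⌊T⌋₊
    · rw [if_pos hn, if_pos (hmn.trans hn)]
      exact hφm hmn
    · rw [if_neg hn]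
      split_ifs
      · exact hφ0 m
      · exact le_rfl
  obtain ⟨K, hK⟩ : ∃ K, K = Nat.log 2 ⌊T⌋₊ + 1 := ⟨_, rfl⟩
  have hKn : ⌊T⌋₊ < 2 ^ K := by
    rw [hK]
    exact Nat.lt_pow_succ_log_self (by norm_num) _
  have hKT : ∀ i < K, ((2 ^ i : ℕ) : ℝ) ≤ T := by
    intro i hi
    have hi' : i ≤ Nat.log 2 ⌊T⌋₊ := by omega
    have h2 : ⌊T⌋₊ ≠ 0 := by
      have := Nat.floor_pos.2 hT
      omega
    have h3 : 2 ^ i ≤ ⌊T⌋₊ := (Nat.pow_le_pow_right (by norm_num) hi').trans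
      (Nat.pow_log_le_self 2 h2)
    have h4 : ((2 ^ i : ℕ) : ℝ) ≤ (⌊T⌋₊ : ℝ) := by exact_mod_cast h3
    exact h4.trans (Nat.floor_le hTpos.le)
  have hterm : ‖((ψ 1 * ((1 : ℕ) : ℝ) ^ (-σ) : ℝ) : ℂ) * ((1 : ℕ) : ℂ) ^ (-((T : ℂ) * I))‖ ≤ 1 := by
    simp only [Nat.cast_one, Real.one_rpow, mul_one, Complex.one_cpow, Complex.norm_real]
    rw [Real.norm_of_nonneg (hψ0 1)]
    exact hψ1 1
  -- the decomposition
  have hdec : ∑ n ∈ Finset.Icc 1 ⌊T⌋₊, (φ n : ℂ) * (n : ℂ) ^ (-((σ : ℂ) + T * I)) =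
      ((ψ 1 * ((1 : ℕ) : ℝ) ^ (-σ) : ℝ) : ℂ) * ((1 : ℕ) : ℂ) ^ (-((T : ℂ) * I)) +
        ∑ i ∈ Finset.range K, ∑ n ∈ Finset.Ioc (2 ^ i) (2 * 2 ^ i),
          ((ψ n * (n : ℝ) ^ (-σ) : ℝ) : ℂ) * (n : ℂ) ^ (-((T : ℂ) * I)) := by
    rw [← mu1_dyadic (fun n => ((ψ n * (n : ℝ) ^ (-σ) : ℝ) : ℂ) * (n : ℂ) ^ (-((T : ℂ) * I))) K]
    have h2 : Finset.Icc 1 ⌊T⌋₊ ⊆ Finset.Icc 1 (2 ^ K) := Finset.Icc_subset_Icc_right hKn.le
    rw [← Finset.sum_subset h2]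
    · apply Finset.sum_congr rfl
      intro n hn
      have hn1 := Finset.mem_Icc.1 hn
      have hn0 : (n : ℂ) ≠ 0 := by
        have : n ≠ 0 := by omega
        exact_mod_cast this
      simp only [hψ, if_pos hn1.2]
      rw [Complex.ofReal_mul, mul_assoc, Complex.ofReal_cpow (by positivity)]
      have e : -((σ : ℂ) + T * I) = ((-σ : ℝ) : ℂ) + -((T : ℂ) * I) := by push_cast; ring
      rw [e, Complex.cpow_add _ _ hn0]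
      simp
    · intro n hn2 hn
      have hn' : ¬ n ≤ ⌊T⌋₊ := by
        intro h
        apply hn
        rw [Finset.mem_Icc]
        exact ⟨(Finset.mem_Icc.1 hn2).1, h⟩
      simp [hψ, if_neg hn']
  have hz := hφ T le_rfl (by linarith)
  rw [hdec] at hz
  have hl : 0 < Real.log T := Real.log_pos (by linarith)
  have hD : ∀ i ∈ Finset.range K, ‖∑ n ∈ Finset.Ioc (2 ^ i) (2 * 2 ^ i),
      ((ψ n * (n : ℝ) ^ (-σ) : ℝ) : ℂ) * (n : ℂ) ^ (-((T : ℂ) * I))‖ ≤ C1 * T ^ (B + ε / 2) := by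
    intro i hi
    have hi' := hKT i (Finset.mem_range.1 hi)
    have hN1 : 1 ≤ 2 ^ i := Nat.one_le_two_pow
    have hN1' : (1 : ℝ) ≤ ((2 ^ i : ℕ) : ℝ) := by exact_mod_cast hN1
    refine (hblk T hT2 (2 ^ i) hN1 hi' ψ hψ0 hψ1 hψm T le_rfl (by linarith)).trans ?_
    refine mul_le_mul_of_nonneg_left ?_ hC1
    set a : ℝ := Real.log ((2 ^ i : ℕ) : ℝ) / Real.log T with ha
    have ha0 : 0 ≤ a := div_nonneg (Real.log_nonneg hN1') hl.le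
    have ha1 : a ≤ 1 := by
      rw [ha, div_le_one hl]
      exact Real.log_le_log (by linarith) hi'
    have e1 : ((2 ^ i : ℕ) : ℝ) ^ (1 - σ) = T ^ (a * (1 - σ)) := by
      have e2 : T ^ a = ((2 ^ i : ℕ) : ℝ) := by
        rw [ha, Real.rpow_def_of_pos hTpos, mul_div_cancel₀ _ hl.ne', Real.exp_log (by linarith)]
      rw [Real.rpow_mul hTpos.le, e2]
    rw [e1, ← Real.rpow_add hTpos]
    exact Real.rpow_le_rpow_of_exponent_le hT (by linarith [hB a ha0 ha1])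
  have hsum : ‖∑ i ∈ Finset.range K, ∑ n ∈ Finset.Ioc (2 ^ i) (2 * 2 ^ i),
      ((ψ n * (n : ℝ) ^ (-σ) : ℝ) : ℂ) * (n : ℂ) ^ (-((T : ℂ) * I))‖ ≤ C2 * C1 * T ^ (B + ε) := by
    refine (norm_sum_le _ _).trans ((Finset.sum_le_sum hD).trans ?_)
    rw [Finset.sum_const, Finset.card_range, nsmul_eq_mul]
    have h3 := hl2 T hT
    rw [← hK] at h3
    have h4 : 0 ≤ C1 * T ^ (B + ε / 2) := by positivity
    refine (mul_le_mul_of_nonneg_right h3 h4).trans (le_of_eq ?_)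
    rw [show B + ε = ε / 2 + (B + ε / 2) by ring, Real.rpow_add hTpos (ε / 2) (B + ε / 2)]
    ring
  have h5 : (1 : ℝ) ≤ T ^ (B + ε) := Real.one_le_rpow hT (by linarith)
  have h6 : ‖riemannZeta (σ + T * I)‖ ≤ C0 + (1 + C2 * C1 * T ^ (B + ε)) := by
    have h7 := norm_le_norm_add_norm_sub' (riemannZeta (σ + T * I))
      (((ψ 1 * ((1 : ℕ) : ℝ) ^ (-σ) : ℝ) : ℂ) * ((1 : ℕ) : ℂ) ^ (-((T : ℂ) * I)) +
        ∑ i ∈ Finset.range K, ∑ n ∈ Finset.Ioc (2 ^ i) (2 * 2 ^ i),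
          ((ψ n * (n : ℝ) ^ (-σ) : ℝ) : ℂ) * (n : ℂ) ^ (-((T : ℂ) * I)))
    have h8 := norm_add_le (((ψ 1 * ((1 : ℕ) : ℝ) ^ (-σ) : ℝ) : ℂ) * ((1 : ℕ) : ℂ) ^ (-((T : ℂ) * I)))
      (∑ i ∈ Finset.range K, ∑ n ∈ Finset.Ioc (2 ^ i) (2 * 2 ^ i),
          ((ψ n * (n : ℝ) ^ (-σ) : ℝ) : ℂ) * (n : ℂ) ^ (-((T : ℂ) * I)))
    linarith
  nlinarith

/-- the growth of zeta from pointwise savings -/
theorem growth_of_PW {σ B : ℝ} {θ : ℝ → ℝ} (h0 : 1 / 2 ≤ σ) (h1 : σ < 1) (hB0 : 0 ≤ B)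
    (h : PW σ θ) (hB : ∀ a, 0 ≤ a → a ≤ 1 → a * (1 - σ) - θ a ≤ B) {ε : ℝ} (hε : 0 < ε) :
    ∃ C : ℝ, 0 ≤ C ∧ ∀ t : ℝ, 1 ≤ |t| → ‖riemannZeta (σ + t * I)‖ ≤ C * |t| ^ (B + ε) := by
  obtain ⟨C, hC, hb⟩ := mu1_one h0 h1 hB0 h hB hε
  obtain ⟨C0, hC0, happ⟩ := approxM h0 h1
  have hsmall : ∀ t : ℝ, 1 ≤ t → t ≤ 2 → ‖riemannZeta (σ + t * I)‖ ≤ C0 + 1 := by
    intro t ht1 ht2
    obtain ⟨φ, hφ0, hφ1, -, hφ⟩ := happ 1 le_rfl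
    have h2 := hφ t ht1 (by linarith)
    rw [Nat.floor_one, Finset.Icc_self, Finset.sum_singleton] at h2
    have h3 : ‖(φ 1 : ℂ) * ((1 : ℕ) : ℂ) ^ (-((σ : ℂ) + t * I))‖ ≤ 1 := by
      rw [Nat.cast_one, Complex.one_cpow, mul_one, Complex.norm_real, Real.norm_of_nonneg (hφ0 1)]
      exact hφ1 1
    have h4 := norm_le_norm_add_norm_sub' (riemannZeta (σ + t * I))
      ((φ 1 : ℂ) * ((1 : ℕ) : ℂ) ^ (-((σ : ℂ) + t * I)))
    linarith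
  have hpos : ∀ t : ℝ, 1 ≤ t → ‖riemannZeta (σ + t * I)‖ ≤ (C + (C0 + 1)) * t ^ (B + ε) := by
    intro t ht
    have h5 : (1 : ℝ) ≤ t ^ (B + ε) := Real.one_le_rpow ht (by linarith)
    rcases le_total t 2 with h2 | h2
    · have := hsmall t ht h2
      nlinarith
    · have := hb t h2
      nlinarith
  refine ⟨C + (C0 + 1), by positivity, fun t ht => ?_⟩
  rcases le_total 0 t with h2 | h2
  · rw [abs_of_nonneg h2] at ht ⊢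
    exact hpos t ht
  · rw [abs_of_nonpos h2] at ht ⊢
    have h3 := mu1_conj σ t
    rw [← h3]
    exact hpos (-t) ht

end Pool.Agent.Lib.PR
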