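import Pool.Agent.Lib.PR.MU1
import Pool.Agent.Lib.PR.PWJ
import Pool.Agent.Lib.PR.PWD
import Pool.Agent.Lib.PR.ZH

/-!
# PR / MU3: the growth of zeta near the line 1, with the dilation estimate

`zeta_growth3`: for `9/10 ≤ σ < 1`, `ζ(σ+it) = O(|t|^(B (1-σ)^(3/2) + ε))` with `B = 28 √10 / 195 = 0.45407..`.
The maxima of `a d - θ a` (`d = 1 - σ`) are at the corners `a_q = 2(2q-1)/(4q²-5q+3)`, with the saving
`(4q-3)/(q²(4q²-5q+3))`, and at the points `1/q`.
-/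

set_option autoImplicit false

open Complex

namespace Pool.Agent.Lib.PR

private lemma mu3_thj_nonneg (n : ℕ) (a : ℝ) : 0 ≤ thj n a := by
  induction n with
  | zero => exact le_rfl
  | succ n ih => exact le_max_of_le_left ih

/-- `hb (q+1) a ≥ a / (q (q+1))` for `1/q ≤ a ≤ 1/(q-1)` -/
private lemma mu3_hb {q : ℕ} (hq : 3 ≤ q) {a : ℝ} (h1 : 1 ≤ (q : ℝ) * a) (h2 : ((q : ℝ) - 1) * a ≤ 1) :
    a / ((q : ℝ) * (q + 1)) ≤ hb (q + 1) a := by
  have hq3 : (3 : ℝ) ≤ q := by exact_mod_cast hq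
  unfold hb
  push_cast
  have e1 : ((q : ℝ) + 1) * ((q : ℝ) + 1 - 1) = q * (q + 1) := by ring
  rw [e1]
  have hpos : 0 < (q : ℝ) * (q + 1) := by positivity
  refine le_min ?_ (le_min le_rfl ?_)
  · exact div_le_div_of_nonneg_right (by linarith) hpos.le
  · rw [show ((q : ℝ) + 1) ^ 2 * ((q : ℝ) + 1 - 1) = (q * (q + 1)) * (q + 1) by ring,
      div_le_div_iff₀ hpos (by positivity)]
    have h3 : a * ((q : ℝ) + 1) ≤ 2 := by nlinarith
    calc a * ((q : ℝ) * (q + 1) * (q + 1)) = (a * ((q : ℝ) + 1)) * (q * (q + 1)) := by ring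
      _ ≤ 2 * (q * (q + 1)) := mul_le_mul_of_nonneg_right h3 hpos.le

/-- the cubic inequality -/
private lemma mu3_cubic {b d : ℝ} (hb : 0 < b) (hd : b ≤ d) : 27 * b * (d - b) ^ 2 ≤ 4 * d ^ 3 := by
  have h : 4 * d ^ 3 - 27 * b * (d - b) ^ 2 = (d - 3 * b) ^ 2 * (4 * d - 3 * b) := by ring
  have h2 : 0 ≤ (d - 3 * b) ^ 2 * (4 * d - 3 * b) := mul_nonneg (sq_nonneg _) (by linarith)
  linarith

/-- the corner inequality, abstract form -/
private lemma mu3_corner {K b d P : ℝ} (hK : 0 ≤ K) (hb : 0 < b) (hKb : K ^ 2 ≤ 1176 / 845 * b)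
    (hP : 0 ≤ P) (hP2 : P ^ 2 = 1568 / 7605 * d ^ 3) : K * (d - b) ≤ P := by
  rcases le_total d b with h | h
  · have : K * (d - b) ≤ 0 := mul_nonpos_of_nonneg_of_nonpos hK (by linarith)
    linarith
  · have h1 := mu3_cubic hb h
    have h2 : (K * (d - b)) ^ 2 ≤ P ^ 2 := by
      rw [hP2, mul_pow]
      have h3 : K ^ 2 * (d - b) ^ 2 ≤ 1176 / 845 * b * (d - b) ^ 2 :=
        mul_le_mul_of_nonneg_right hKb (sq_nonneg _)
      linarith
    exact le_of_sq_le_sq h2 hP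

private lemma mu3_poly (m : ℝ) (hm : 0 ≤ m) :
    845 * ((m + 6) ^ 2 * (2 * (m + 6) - 1) ^ 3) ≤ 147 * ((4 * (m + 6) - 3) * (4 * (m + 6) ^ 2 - 5 * (m + 6) + 3) ^ 2) := by
  have h : 147 * ((4 * (m + 6) - 3) * (4 * (m + 6) ^ 2 - 5 * (m + 6) + 3) ^ 2) - 845 * ((m + 6) ^ 2 * (2 * (m + 6) - 1) ^ 3) =
    2648 * m ^ 5 + 59004 * m ^ 4 + 504198 * m ^ 3 + 2011976 * m ^ 2 + 3529266 * m + 1768923 := by
    ring
  have h2 : 0 ≤ 2648 * m ^ 5 + 59004 * m ^ 4 + 504198 * m ^ 3 + 2011976 * m ^ 2 + 3529266 * m + 1768923 := by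
    positivity
  linarith

/-- the corner of order `q ≥ 6` -/
private lemma mu3_R {q : ℝ} (hq : 6 ≤ q) :
    (2 * (2 * q - 1) / (4 * q ^ 2 - 5 * q + 3)) ^ 2 ≤ 1176 / 845 * ((4 * q - 3) / (2 * q ^ 2 * (2 * q - 1))) := by
  have h := mu3_poly (q - 6) (by linarith)
  rw [sub_add_cancel] at h
  have h21 : 0 < 2 * q - 1 := by linarith
  have hq0 : 0 < q := by linarith
  have hW : 0 < 4 * q ^ 2 - 5 * q + 3 := by nlinarith
  rw [div_pow, div_mul_div_comm, div_le_div_iff₀ (by positivity) (by positivity)]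
  calc (2 * (2 * q - 1)) ^ 2 * (845 * (2 * q ^ 2 * (2 * q - 1))) = 8 * (845 * (q ^ 2 * (2 * q - 1) ^ 3)) := by ring
    _ ≤ 8 * (147 * ((4 * q - 3) * (4 * q ^ 2 - 5 * q + 3) ^ 2)) := mul_le_mul_of_nonneg_left h (by norm_num)
    _ = 1176 * (4 * q - 3) * (4 * q ^ 2 - 5 * q + 3) ^ 2 := by ring

/-- the orders `q` and `q + 1`, `q ≥ 4` -/
private lemma mu3_q {q : ℕ} (hq : 4 ≤ q) {a d P θ : ℝ} (ha0 : 0 < a) (h1 : 1 ≤ (q : ℝ) * a)
    (h2 : ((q : ℝ) - 1) * a ≤ 1) (hd0 : 0 < d) (hdd : d ≤ 1 / 10) (hP0 : 0 ≤ P)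
    (hP2 : P ^ 2 = 1568 / 7605 * d ^ 3) (hlin : 28 / 195 * (3 / 2 * d - 1 / 20) ≤ P) (hsq : d ^ 2 ≤ P)
    (hθ0 : 0 ≤ θ) (hθ2 : hj q a ≤ θ) (hθ3 : hd q a ≤ θ) : a * d - θ ≤ P := by
  have hq4 : (4 : ℝ) ≤ q := by exact_mod_cast hq
  have hq0 : (0 : ℝ) < q := by linarith
  have hq1 : (0 : ℝ) < (q : ℝ) - 1 := by linarith
  have h21 : (0 : ℝ) < 2 * (q : ℝ) - 1 := by linarith
  have hW : 0 < 4 * (q : ℝ) ^ 2 - 5 * q + 3 := by nlinarith
  by_cases hB : 1 ≤ ((q : ℝ) - 1) * d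
  · have had : a ≤ d := by
      by_contra hcon
      push Not at hcon
      have : ((q : ℝ) - 1) * d < ((q : ℝ) - 1) * a := mul_lt_mul_of_pos_left hcon hq1
      linarith
    have : a * d ≤ d ^ 2 := by nlinarith
    linarith
  push Not at hB
  unfold hj at hθ2
  rw [if_pos h2] at hθ2
  rcases le_total ((4 * (q : ℝ) - 3) / (3 * q) * (((q : ℝ) * a - 1) / ((q : ℝ) * (q - 1))))
    (a / ((q : ℝ) * (q - 1))) with hc | hc
  · rw [min_eq_left hc] at hθ2
    -- the corner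
    obtain ⟨A, hA⟩ : ∃ A : ℝ, A = 2 * (2 * (q : ℝ) - 1) / (4 * (q : ℝ) ^ 2 - 5 * q + 3) := ⟨_, rfl⟩
    obtain ⟨b, hb⟩ : ∃ b : ℝ, b = (4 * (q : ℝ) - 3) / (2 * (q : ℝ) ^ 2 * (2 * q - 1)) := ⟨_, rfl⟩
    obtain ⟨c, hcc⟩ : ∃ c : ℝ, c = (4 * (q : ℝ) - 3) / (3 * q) := ⟨_, rfl⟩
    have hA' : A * (4 * (q : ℝ) ^ 2 - 5 * q + 3) = 2 * (2 * (q : ℝ) - 1) := by
      rw [hA]
      exact div_mul_cancel₀ _ hW.ne'
    have hA0 : 0 ≤ A := by
      rw [hA]
      positivity
    have hb0 : 0 < b := by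
      rw [hb]
      have : 0 < 4 * (q : ℝ) - 3 := by linarith
      positivity
    have hc1 : 1 ≤ c := by
      rw [hcc, le_div_iff₀ (by positivity)]
      linarith
    -- the saving at the corner
    have hAb : A * b = (4 * (q : ℝ) - 3) / ((q : ℝ) ^ 2 * (4 * (q : ℝ) ^ 2 - 5 * q + 3)) := by
      rw [hA, hb]
      field_simp
    have hYA : (4 * (q : ℝ) - 3) / (3 * q) * (((q : ℝ) * A - 1) / ((q : ℝ) * (q - 1))) = A * b := by
      rw [hAb, div_mul_div_comm, div_eq_div_iff (by positivity) (by positivity)]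
      linear_combination ((4 * (q : ℝ) - 3) * (q : ℝ) ^ 3) * hA'
    have hDA : (2 * A - 1 / q) / ((q : ℝ) * (q + 1)) = A * b := by
      have e : (2 * A - 1 / q) / ((q : ℝ) * (q + 1)) = (2 * (q : ℝ) * A - 1) / ((q : ℝ) ^ 2 * (q + 1)) := by
        field_simp
      rw [hAb, e, div_eq_div_iff (by positivity) (by positivity)]
      linear_combination (2 * (q : ℝ) ^ 3) * hA'
    have hYa : (4 * (q : ℝ) - 3) / (3 * q) * (((q : ℝ) * a - 1) / ((q : ℝ) * (q - 1))) =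
        A * b + c / ((q : ℝ) - 1) * (a - A) := by
      rw [← hYA, hcc]
      have := hq1.ne'
      field_simp
      ring
    rw [hYa] at hθ2
    have hslope : d ≤ c / ((q : ℝ) - 1) := by
      rw [le_div_iff₀ hq1]
      linarith
    have hkey : a * d - θ ≤ max (A * (d - b)) (1 / (q : ℝ) * (d - 1 / ((q : ℝ) * (q + 1)))) := by
      rcases le_total a A with h3 | h3
      · have hrange : 2 * ((q : ℝ) + 1) * a ≤ 3 := by
          have h4 : 2 * ((q : ℝ) + 1) * A ≤ 3 := by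
            rw [hA, mul_div_assoc', div_le_iff₀ hW]
            nlinarith [mul_nonneg (show (0 : ℝ) ≤ q - 4 by linarith) (show (0 : ℝ) ≤ q by linarith)]
          have h5 : 2 * ((q : ℝ) + 1) * a ≤ 2 * ((q : ℝ) + 1) * A := mul_le_mul_of_nonneg_left h3 (by positivity)
          linarith
        unfold hd at hθ3
        rw [if_pos ⟨h1, hrange⟩] at hθ3
        obtain ⟨y, hy⟩ : ∃ y : ℝ, y = 1 / ((q : ℝ) * (q + 1)) := ⟨_, rfl⟩
        have e1 : (2 * a - 1 / q) / ((q : ℝ) * (q + 1)) = (2 * a - 1 / q) * y := by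
          rw [hy]
          ring
        have e2 : (2 * A - 1 / q) / ((q : ℝ) * (q + 1)) = (2 * A - 1 / q) * y := by
          rw [hy]
          ring
        rw [e1] at hθ3
        rw [e2] at hDA
        rw [← hy]
        rcases le_total (2 * y) d with h4 | h4
        · refine le_max_of_le_left ?_
          have : 0 ≤ (A - a) * (d - 2 * y) := mul_nonneg (by linarith) (by linarith)
          linarith
        · refine le_max_of_le_right ?_
          have h5 : 1 / (q : ℝ) ≤ a := by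
            rw [div_le_iff₀ hq0]
            linarith
          have : 0 ≤ (a - 1 / (q : ℝ)) * (2 * y - d) := mul_nonneg (by linarith) (by linarith)
          linarith
      · refine le_max_of_le_left ?_
        have : 0 ≤ (c / ((q : ℝ) - 1) - d) * (a - A) := mul_nonneg (by linarith) (by linarith)
        linarith
    refine hkey.trans (max_le ?_ ?_)
    · rcases Nat.lt_or_ge 5 q with h4 | h4
      · have hq6 : (6 : ℝ) ≤ q := by exact_mod_cast h4
        refine mu3_corner hA0 hb0 ?_ hP0 hP2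
        rw [hA, hb]
        exact mu3_R hq6
      · refine le_trans ?_ hlin
        rw [hA, hb]
        rcases (show q = 4 ∨ q = 5 by omega) with rfl | rfl
        · norm_num
          linarith
        · norm_num
          linarith
    · refine mu3_corner (by positivity) (by positivity) ?_ hP0 hP2
      rw [div_pow, one_pow, div_mul_div_comm, mul_one, div_le_div_iff₀ (by positivity) (by positivity)]
      nlinarith [mul_nonneg hq0.le (show (0 : ℝ) ≤ q - 4 by linarith)]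
  · rw [min_eq_right hc] at hθ2
    have hb0 : 0 < 1 / ((q : ℝ) * (q - 1)) := by positivity
    have h3 : a ≤ 1 / ((q : ℝ) - 1) := by
      rw [le_div_iff₀ hq1]
      linarith
    have h4 : a * (1 / ((q : ℝ) * (q - 1))) ≤ θ := by
      rw [mul_one_div]
      exact hθ2
    rcases le_total d (1 / ((q : ℝ) * (q - 1))) with h | h
    · have : a * d ≤ a * (1 / ((q : ℝ) * (q - 1))) := mul_le_mul_of_nonneg_left h ha0.le
      linarith
    · have h5 : 1 / ((q : ℝ) - 1) * (d - 1 / ((q : ℝ) * (q - 1))) ≤ P := by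
        refine mu3_corner (by positivity) hb0 ?_ hP0 hP2
        rw [div_pow, one_pow, div_mul_div_comm, mul_one, div_le_div_iff₀ (by positivity) (by positivity)]
        have : 0 ≤ ((q : ℝ) - 1) * (331 * q - 1176) := mul_nonneg hq1.le (by linarith)
        nlinarith
      have h6 : a * (d - 1 / ((q : ℝ) * (q - 1))) ≤ 1 / ((q : ℝ) - 1) * (d - 1 / ((q : ℝ) * (q - 1))) :=
        mul_le_mul_of_nonneg_right h3 (by linarith)
      linarith

/-- the numerical part -/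
private lemma mu3_num {d a P : ℝ} (hd0 : 0 < d) (hdd : d ≤ 1 / 10) (ha0 : 0 ≤ a) (ha1 : a ≤ 1) (hP0 : 0 ≤ P)
    (hP2 : P ^ 2 = 1568 / 7605 * d ^ 3) (hlin : 28 / 195 * (3 / 2 * d - 1 / 20) ≤ P) (hsq : d ^ 2 ≤ P)
    {n : ℕ} (hn : 1 / d + 4 ≤ n) : a * d - max (max (thh n a) (thj n a)) (thd n a) ≤ P := by
  have hn4 : 4 ≤ n := by
    have h1 : (0 : ℝ) < 1 / d := by positivity
    have h2 : (4 : ℝ) ≤ n := by linarith
    exact_mod_cast h2
  obtain ⟨θ, hθ⟩ : ∃ θ : ℝ, θ = max (max (thh n a) (thj n a)) (thd n a) := ⟨_, rfl⟩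
  have hh : thh n a ≤ θ := by
    rw [hθ]
    exact le_max_of_le_left (le_max_left _ _)
  have hjj : thj n a ≤ θ := by
    rw [hθ]
    exact le_max_of_le_left (le_max_right _ _)
  have hdn : thd n a ≤ θ := by
    rw [hθ]
    exact le_max_right _ _
  rw [← hθ]
  have hθ0 : 0 ≤ θ := (mu3_thj_nonneg n a).trans hjj
  rcases le_total a d with h | had
  · have : a * d ≤ d ^ 2 := by nlinarith
    linarith
  have hapos : 0 < a := by linarith
  rcases le_total (1 / 2) a with h | h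
  · -- order 3
    have h3 : hb 3 a ≤ θ := (le_thh (le_refl 3) (by omega) a).trans hh
    have h4 : a * d ≤ hb 3 a := by
      unfold hb
      have : a * d ≤ a / 10 := by nlinarith
      refine le_min ?_ (le_min ?_ ?_) <;> norm_num <;> linarith
    linarith
  · obtain ⟨q, hq⟩ : ∃ q : ℕ, q = ⌈1 / a⌉₊ := ⟨_, rfl⟩
    have hq1 : 1 / a ≤ q := by
      rw [hq]
      exact Nat.le_ceil _
    have hq2 : (q : ℝ) < 1 / a + 1 := by
      rw [hq]
      exact Nat.ceil_lt_add_one (by positivity)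
    have e1 : 1 ≤ (q : ℝ) * a := by
      rw [div_le_iff₀ hapos] at hq1
      exact hq1
    have e2 : ((q : ℝ) - 1) * a ≤ 1 := by
      have h5 : (q : ℝ) - 1 < 1 / a := by linarith
      rw [lt_div_iff₀ hapos] at h5
      exact h5.le
    have hq3 : 2 ≤ q := by
      by_contra hcon
      have h6 : (q : ℝ) ≤ 1 := by
        have : q ≤ 1 := by omega
        exact_mod_cast this
      nlinarith
    have hqn : q + 1 < n + 3 := by
      have h6 : (1 : ℝ) / a ≤ 1 / d := one_div_le_one_div_of_le hd0 had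
      have h7 : (q : ℝ) + 1 < n + 3 := by linarith
      exact_mod_cast h7
    rcases Nat.lt_or_ge q 3 with h8 | h8
    · -- `a = 1/2`
      obtain rfl : q = 2 := by omega
      push_cast at e1
      have ha2 : a = 1 / 2 := by linarith
      have h3 : hb 3 a ≤ θ := (le_thh (le_refl 3) (by omega) a).trans hh
      have h4 : a * d ≤ hb 3 a := by
        unfold hb
        have : a * d ≤ a / 10 := by nlinarith
        refine le_min ?_ (le_min ?_ ?_) <;> norm_num <;> linarith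
      linarith
    have hX : a / ((q : ℝ) * (q + 1)) ≤ θ :=
      (mu3_hb h8 e1 e2).trans ((le_thh (by omega) hqn a).trans hh)
    rcases Nat.lt_or_ge q 4 with h9 | h9
    · obtain rfl : q = 3 := by omega
      have h3 : hb 3 a ≤ θ := (le_thh (le_refl 3) (by omega) a).trans hh
      have h4 : (3 * a - 1) / 6 ≤ hb 3 a := by
        unfold hb
        refine le_min ?_ (le_min ?_ ?_) <;> norm_num <;> linarith
      push_cast at hX
      have hX' : a / 12 ≤ θ := by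
        refine le_trans (le_of_eq ?_) hX
        norm_num
      rcases le_total d (1 / 12) with h10 | h10
      · have : a * d ≤ a * (1 / 12) := mul_le_mul_of_nonneg_left h10 ha0
        linarith
      · refine le_trans ?_ hlin
        rcases le_total a (2 / 5) with h11 | h11
        · have : a * (d - 1 / 12) ≤ 2 / 5 * (d - 1 / 12) := mul_le_mul_of_nonneg_right h11 (by linarith)
          linarith
        · have : 0 ≤ (1 / 2 - d) * (a - 2 / 5) := mul_nonneg (by linarith) (by linarith)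
          linarith
    · have hY : hj q a ≤ θ := by
        refine (le_thj h9 ?_ a).trans hjj
        omega
      have hZ : hd q a ≤ θ := by
        refine (le_thd h8 ?_ a).trans hdn
        omega
      exact mu3_q h9 hapos e1 e2 hd0 hdd hP0 hP2 hlin hsq hθ0 hY hZ

/-- the facts on `P = B d^(3/2)` -/
private lemma mu3_P {d : ℝ} (hd0 : 0 < d) (hdd : d ≤ 1 / 10) :
    0 ≤ 28 * √10 / 195 * d ^ (3 / 2 : ℝ) ∧
    (28 * √10 / 195 * d ^ (3 / 2 : ℝ)) ^ 2 = 1568 / 7605 * d ^ 3 ∧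
    28 / 195 * (3 / 2 * d - 1 / 20) ≤ 28 * √10 / 195 * d ^ (3 / 2 : ℝ) ∧
    d ^ 2 ≤ 28 * √10 / 195 * d ^ (3 / 2 : ℝ) := by
  obtain ⟨x, hx⟩ : ∃ x : ℝ, x = √d := ⟨_, rfl⟩
  have hx0 : 0 < x := by
    rw [hx]
    exact Real.sqrt_pos.2 hd0
  have hx2 : x ^ 2 = d := by
    rw [hx]
    exact Real.sq_sqrt hd0.le
  have hd32 : d ^ (3 / 2 : ℝ) = x ^ 3 := by
    have h1 : d ^ (3 / 2 : ℝ) = (d ^ (1 / 2 : ℝ)) ^ (3 : ℝ) := by
      rw [← Real.rpow_mul hd0.le]
      norm_num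
    rw [h1, ← Real.sqrt_eq_rpow, ← hx]
    exact_mod_cast Real.rpow_natCast x 3
  obtain ⟨w, hw⟩ : ∃ w : ℝ, w = √10 := ⟨_, rfl⟩
  have hw0 : 0 < w := by
    rw [hw]
    exact Real.sqrt_pos.2 (by norm_num)
  have hw2 : w ^ 2 = 10 := by
    rw [hw]
    exact Real.sq_sqrt (by norm_num)
  rw [hd32, ← hw]
  refine ⟨by positivity, ?_, ?_, ?_⟩
  · have : (28 * w / 195 * x ^ 3) ^ 2 = 784 / 38025 * w ^ 2 * (x ^ 2) ^ 3 := by ring
    rw [this, hw2, hx2]
    ring
  · have h1 : 0 ≤ (w * x - 1) ^ 2 * (2 * (w * x) + 1) := by positivity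
    have h2 : (w * x - 1) ^ 2 * (2 * (w * x) + 1) = 2 * w ^ 2 * (w * x ^ 3) - 3 * w ^ 2 * x ^ 2 + 1 := by ring
    rw [h2, hw2, hx2] at h1
    linarith
  · have h1 : w * x ≤ 1 := by
      have : (w * x) ^ 2 ≤ 1 ^ 2 := by
        rw [mul_pow, hw2, hx2]
        linarith
      exact le_of_sq_le_sq this (by norm_num)
    have h2 : x ≤ w / 10 := by
      have : 10 * x = w * (w * x) := by
        rw [← hw2]
        ring
      nlinarith
    have h3 : d ^ 2 = x * x ^ 3 := by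
      rw [← hx2]
      ring
    rw [h3]
    refine mul_le_mul_of_nonneg_right ?_ (by positivity)
    linarith

/-- the growth of zeta near the line 1 -/
theorem zeta_growth3 (hz : ∀ q : ℕ, 3 ≤ q → HBB q) (hJ : ∀ q : ℕ, 4 ≤ q → HJB q) (hD : ∀ k : ℕ, 3 ≤ k → HDB k) {σ : ℝ}
    (h0 : 9 / 10 ≤ σ) (h1 : σ < 1) {ε : ℝ} (hε : 0 < ε) :
    ∃ C : ℝ, 0 ≤ C ∧ ∀ t : ℝ, 1 ≤ |t| →
      ‖riemannZeta (σ + t * I)‖ ≤ C * |t| ^ (28 * √10 / 195 * (1 - σ) ^ (3 / 2 : ℝ) + ε) := by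
  have hd0 : 0 < 1 - σ := by linarith
  have hdd : 1 - σ ≤ 1 / 10 := by linarith
  obtain ⟨hP0, hP2, hlin, hsq⟩ := mu3_P hd0 hdd
  obtain ⟨n, hn⟩ := exists_nat_ge (1 / (1 - σ) + 4)
  refine growth_of_PW (by linarith) h1 hP0
    (PW_max (PW_max (PW_thh (by linarith) hz n) (PW_thj (by linarith) hJ n)) (PW_thd (by linarith) hz hD n)) ?_ hε
  intro a ha0 ha1
  exact mu3_num hd0 hdd ha0 ha1 hP0 hP2 hlin hsq hn

end Pool.Agent.Lib.PR
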