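import Pool.Agent.Lib.PR.MU1
import Pool.Agent.Lib.PR.PWv
import Pool.Agent.Lib.PR.PWJ
import Pool.Agent.Lib.PR.PWD

/-!
# PR / MU4: the growth of zeta in the strip, uniformly

`zeta_growth4`: for `1/2 ≤ σ < 1`, `ζ(σ+it) = O(|t|^(B (1-σ)^(3/2) + ε))` with `B = 16 √6 / 81 = 0.48384..`.
The maxima of `a d - θ a` (`d = 1 - σ`): van der Corput `(2/3, 1/6)`, `(4/9, 1/18)` (this one gives `B`, at `d = 3/8`),
`(11/30, 1/30)` (order 4 against the dilation estimate of order 3), then the corners `a_q = 2(2q-1)/(4q²-5q+3)`, with the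
saving `(4q-3)/(q²(4q²-5q+3))`, and the points `1/q`.
-/

set_option autoImplicit false

open Complex

namespace Pool.Agent.Lib.PR

private lemma mu4_thj_nonneg (n : ℕ) (a : ℝ) : 0 ≤ thj n a := by
  induction n with
  | zero => exact le_rfl
  | succ n ih => exact le_max_of_le_left ih

/-- the cubic inequality -/
private lemma mu4_cubic {b d : ℝ} (hb : 0 < b) (hd : b ≤ d) : 27 * b * (d - b) ^ 2 ≤ 4 * d ^ 3 := by
  have h : 4 * d ^ 3 - 27 * b * (d - b) ^ 2 = (d - 3 * b) ^ 2 * (4 * d - 3 * b) := by ring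
  have h2 : 0 ≤ (d - 3 * b) ^ 2 * (4 * d - 3 * b) := mul_nonneg (sq_nonneg _) (by linarith)
  linarith

/-- the corner inequality, abstract form -/
private lemma mu4_corner {K b d P : ℝ} (hK : 0 ≤ K) (hb : 0 < b) (hKb : K ^ 2 ≤ 128 / 81 * b)
    (hP : 0 ≤ P) (hP2 : P ^ 2 = 512 / 2187 * d ^ 3) : K * (d - b) ≤ P := by
  rcases le_total d b with h | h
  · have : K * (d - b) ≤ 0 := mul_nonpos_of_nonneg_of_nonpos hK (by linarith)
    linarith
  · have h1 := mu4_cubic hb h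
    have h2 : (K * (d - b)) ^ 2 ≤ P ^ 2 := by
      rw [hP2, mul_pow]
      have h3 : K ^ 2 * (d - b) ^ 2 ≤ 128 / 81 * b * (d - b) ^ 2 :=
        mul_le_mul_of_nonneg_right hKb (sq_nonneg _)
      linarith
    exact le_of_sq_le_sq h2 hP

private lemma mu4_poly (m : ℝ) (hm : 0 ≤ m) :
    81 * ((m + 4) ^ 2 * (2 * (m + 4) - 1) ^ 3) ≤ 16 * ((4 * (m + 4) - 3) * (4 * (m + 4) ^ 2 - 5 * (m + 4) + 3) ^ 2) := by
  have h : 16 * ((4 * (m + 4) - 3) * (4 * (m + 4) ^ 2 - 5 * (m + 4) + 3) ^ 2) - 81 * ((m + 4) ^ 2 * (2 * (m + 4) - 1) ^ 3) =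
    376 * m ^ 5 + 5164 * m ^ 4 + 27034 * m ^ 3 + 65113 * m ^ 2 + 65992 * m + 14944 := by
    ring
  have h2 : 0 ≤ 376 * m ^ 5 + 5164 * m ^ 4 + 27034 * m ^ 3 + 65113 * m ^ 2 + 65992 * m + 14944 := by
    positivity
  linarith

/-- the corner of order `q ≥ 4` -/
private lemma mu4_R {q : ℝ} (hq : 4 ≤ q) :
    (2 * (2 * q - 1) / (4 * q ^ 2 - 5 * q + 3)) ^ 2 ≤ 128 / 81 * ((4 * q - 3) / (2 * q ^ 2 * (2 * q - 1))) := by
  have h := mu4_poly (q - 4) (by linarith)
  rw [sub_add_cancel] at h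
  have h21 : 0 < 2 * q - 1 := by linarith
  have hq0 : 0 < q := by linarith
  have hW : 0 < 4 * q ^ 2 - 5 * q + 3 := by nlinarith
  rw [div_pow, div_mul_div_comm, div_le_div_iff₀ (by positivity) (by positivity)]
  calc (2 * (2 * q - 1)) ^ 2 * (81 * (2 * q ^ 2 * (2 * q - 1))) = 8 * (81 * (q ^ 2 * (2 * q - 1) ^ 3)) := by ring
    _ ≤ 8 * (16 * ((4 * q - 3) * (4 * q ^ 2 - 5 * q + 3) ^ 2)) := mul_le_mul_of_nonneg_left h (by norm_num)
    _ = 128 * (4 * q - 3) * (4 * q ^ 2 - 5 * q + 3) ^ 2 := by ring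

/-- the order `q ≥ 4` -/
private lemma mu4_q {q : ℕ} (hq : 4 ≤ q) {a d P θ : ℝ} (ha0 : 0 < a) (h1 : 1 ≤ (q : ℝ) * a)
    (h2 : ((q : ℝ) - 1) * a ≤ 1) (hP0 : 0 ≤ P) (hP2 : P ^ 2 = 512 / 2187 * d ^ 3)
    (hθ2 : hj q a ≤ θ) (hθ3 : hd q a ≤ θ) : a * d - θ ≤ P := by
  have hq4 : (4 : ℝ) ≤ q := by exact_mod_cast hq
  have hq0 : (0 : ℝ) < q := by linarith
  have hq1 : (0 : ℝ) < (q : ℝ) - 1 := by linarith
  have h21 : (0 : ℝ) < 2 * (q : ℝ) - 1 := by linarith
  have hW : 0 < 4 * (q : ℝ) ^ 2 - 5 * q + 3 := by nlinarith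
  -- the right end point
  have hF : 1 / ((q : ℝ) - 1) * (d - 1 / ((q : ℝ) * (q - 1))) ≤ P := by
    refine mu4_corner (by positivity) (by positivity) ?_ hP0 hP2
    rw [div_pow, one_pow, div_mul_div_comm, mul_one, div_le_div_iff₀ (by positivity) (by positivity)]
    have : 0 ≤ ((q : ℝ) - 1) * (47 * q - 128) := mul_nonneg hq1.le (by linarith)
    nlinarith
  unfold hj at hθ2
  rw [if_pos h2] at hθ2
  rcases le_total ((4 * (q : ℝ) - 3) / (3 * q) * (((q : ℝ) * a - 1) / ((q : ℝ) * (q - 1))))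
    (a / ((q : ℝ) * (q - 1))) with hc | hc
  · rw [min_eq_left hc] at hθ2
    -- the corner
    obtain ⟨A, hA⟩ : ∃ A : ℝ, A = 2 * (2 * (q : ℝ) - 1) / (4 * (q : ℝ) ^ 2 - 5 * q + 3) := ⟨_, rfl⟩
    obtain ⟨b, hb⟩ : ∃ b : ℝ, b = (4 * (q : ℝ) - 3) / (2 * (q : ℝ) ^ 2 * (2 * q - 1)) := ⟨_, rfl⟩
    obtain ⟨c, hcc⟩ : ∃ c : ℝ, c = (4 * (q : ℝ) - 3) / (3 * q) := ⟨_, rfl⟩
    have hA' : A * (4 * (q : ℝ) ^ 2 - 5 * q + 3) = 2 * (2 * (q : ℝ) - 1) := by
      rw [hA]
      exact div_mul_cancel₀ _ hW.ne'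
    have hA0 : 0 ≤ A := by
      rw [hA]
      positivity
    have hb0 : 0 < b := by
      rw [hb]
      have : 0 < 4 * (q : ℝ) - 3 := by linarith
      positivity
    have hc1 : 1 ≤ c := by
      rw [hcc, le_div_iff₀ (by positivity)]
      linarith
    -- the saving at the corner
    have hAb : A * b = (4 * (q : ℝ) - 3) / ((q : ℝ) ^ 2 * (4 * (q : ℝ) ^ 2 - 5 * q + 3)) := by
      rw [hA, hb]
      field_simp
    have hYA : (4 * (q : ℝ) - 3) / (3 * q) * (((q : ℝ) * A - 1) / ((q : ℝ) * (q - 1))) = A * b := by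
      rw [hAb, div_mul_div_comm, div_eq_div_iff (by positivity) (by positivity)]
      linear_combination ((4 * (q : ℝ) - 3) * (q : ℝ) ^ 3) * hA'
    have hDA : (2 * A - 1 / q) / ((q : ℝ) * (q + 1)) = A * b := by
      have e : (2 * A - 1 / q) / ((q : ℝ) * (q + 1)) = (2 * (q : ℝ) * A - 1) / ((q : ℝ) ^ 2 * (q + 1)) := by
        field_simp
      rw [hAb, e, div_eq_div_iff (by positivity) (by positivity)]
      linear_combination (2 * (q : ℝ) ^ 3) * hA'
    have hYa : (4 * (q : ℝ) - 3) / (3 * q) * (((q : ℝ) * a - 1) / ((q : ℝ) * (q - 1))) =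
        A * b + c / ((q : ℝ) - 1) * (a - A) := by
      rw [← hYA, hcc]
      have := hq1.ne'
      field_simp
      ring
    have hcorner : A * (d - b) ≤ P := by
      refine mu4_corner hA0 hb0 ?_ hP0 hP2
      rw [hA, hb]
      exact mu4_R hq4
    rcases le_total a A with h3 | h3
    · rw [hYa] at hθ2
      have hrange : 2 * ((q : ℝ) + 1) * a ≤ 3 := by
        have h4 : 2 * ((q : ℝ) + 1) * A ≤ 3 := by
          rw [hA, mul_div_assoc', div_le_iff₀ hW]
          nlinarith [mul_nonneg (show (0 : ℝ) ≤ q - 4 by linarith) (show (0 : ℝ) ≤ q by linarith)]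
        have h5 : 2 * ((q : ℝ) + 1) * a ≤ 2 * ((q : ℝ) + 1) * A := mul_le_mul_of_nonneg_left h3 (by positivity)
        linarith
      unfold hd at hθ3
      rw [if_pos ⟨h1, hrange⟩] at hθ3
      obtain ⟨y, hy⟩ : ∃ y : ℝ, y = 1 / ((q : ℝ) * (q + 1)) := ⟨_, rfl⟩
      have e1 : (2 * a - 1 / q) / ((q : ℝ) * (q + 1)) = (2 * a - 1 / q) * y := by
        rw [hy]
        ring
      have e2 : (2 * A - 1 / q) / ((q : ℝ) * (q + 1)) = (2 * A - 1 / q) * y := by
        rw [hy]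
        ring
      rw [e1] at hθ3
      rw [e2] at hDA
      rcases le_total (2 * y) d with h4 | h4
      · have : 0 ≤ (A - a) * (d - 2 * y) := mul_nonneg (by linarith) (by linarith)
        linarith
      · have h5 : 1 / (q : ℝ) ≤ a := by
          rw [div_le_iff₀ hq0]
          linarith
        have h6 : 0 ≤ (a - 1 / (q : ℝ)) * (2 * y - d) := mul_nonneg (by linarith) (by linarith)
        have h7 : 1 / (q : ℝ) * (d - y) ≤ P := by
          rw [hy]
          refine mu4_corner (by positivity) (by positivity) ?_ hP0 hP2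
          rw [div_pow, one_pow, div_mul_div_comm, mul_one, div_le_div_iff₀ (by positivity) (by positivity)]
          nlinarith [mul_nonneg hq0.le (show (0 : ℝ) ≤ q - 4 by linarith)]
        linarith
    · rcases le_total d (c / ((q : ℝ) - 1)) with h4 | h4
      · rw [hYa] at hθ2
        have : 0 ≤ (c / ((q : ℝ) - 1) - d) * (a - A) := mul_nonneg (by linarith) (by linarith)
        linarith
      · -- increasing up to the right end point
        refine le_trans ?_ hF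
        obtain ⟨y, hy⟩ : ∃ y : ℝ, y = 1 / ((q : ℝ) * (q - 1)) := ⟨_, rfl⟩
        have hy0 : 0 ≤ y := by
          rw [hy]
          positivity
        have e1 : (4 * (q : ℝ) - 3) / (3 * q) * (((q : ℝ) * a - 1) / ((q : ℝ) * (q - 1))) = c * ((q : ℝ) * a - 1) * y := by
          rw [← hcc, hy]
          ring
        rw [e1] at hθ2
        rw [← hy]
        have e2 : c / ((q : ℝ) - 1) = c * q * y := by
          rw [hy]
          field_simp
        rw [e2] at h4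
        have h5 : a ≤ 1 / ((q : ℝ) - 1) := by
          rw [le_div_iff₀ hq1]
          linarith
        have h6 : 0 ≤ (1 / ((q : ℝ) - 1) - a) * (d - c * q * y) := mul_nonneg (by linarith) (by linarith)
        have h7 : 0 ≤ y * ((c - 1) * (1 / ((q : ℝ) - 1))) := by
          have : 0 ≤ c - 1 := by linarith
          positivity
        have e3 : (1 / ((q : ℝ) - 1)) * q = 1 + 1 / ((q : ℝ) - 1) := by
          field_simp
          ring
        have e4 : 1 / ((q : ℝ) - 1) * (c * q * y) = c * y * (1 + 1 / ((q : ℝ) - 1)) := by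
          rw [← e3]
          ring
        nlinarith
  · rw [min_eq_right hc] at hθ2
    have h3 : a ≤ 1 / ((q : ℝ) - 1) := by
      rw [le_div_iff₀ hq1]
      linarith
    have h4 : a * (1 / ((q : ℝ) * (q - 1))) ≤ θ := by
      rw [mul_one_div]
      exact hθ2
    rcases le_total d (1 / ((q : ℝ) * (q - 1))) with h | h
    · have : a * d ≤ a * (1 / ((q : ℝ) * (q - 1))) := mul_le_mul_of_nonneg_left h ha0.le
      linarith
    · have h6 : a * (d - 1 / ((q : ℝ) * (q - 1))) ≤ 1 / ((q : ℝ) - 1) * (d - 1 / ((q : ℝ) * (q - 1))) :=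
        mul_le_mul_of_nonneg_right h3 (by linarith)
      linarith

/-- the savings of van der Corput, order `q + 2` -/
private noncomputable def mu4_v (q : ℕ) (a : ℝ) : ℝ :=
  if a * ((q : ℝ) + nu q) ≤ 1 then kp q * (((q : ℝ) + 2) * a - 1) else 0

private lemma mu4_v0 {a : ℝ} (ha : a ≤ 1) : mu4_v 0 a = a - 1 / 2 := by
  unfold mu4_v kp nu
  rw [if_pos (by norm_num; exact ha)]
  norm_num
  ring

private lemma mu4_v1 {a : ℝ} (ha : a ≤ 2 / 3) : mu4_v 1 a = (3 * a - 1) / 6 := by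
  unfold mu4_v kp nu
  rw [if_pos (by norm_num; linarith)]
  norm_num
  ring

private lemma mu4_v2 {a : ℝ} (ha : a ≤ 4 / 9) : mu4_v 2 a = (4 * a - 1) / 14 := by
  unfold mu4_v kp nu
  rw [if_pos (by norm_num; linarith)]
  norm_num
  ring

/-- the numerical part -/
private lemma mu4_num {d a P : ℝ} (hd0 : 0 < d) (hdd : d ≤ 1 / 2) (ha0 : 0 ≤ a) (ha1 : a ≤ 1) (hP0 : 0 < P)
    (hP2 : P ^ 2 = 512 / 2187 * d ^ 3) (hhalf : 2 / 3 * d - 1 / 6 ≤ P)
    {n : ℕ} (hn : d / P + 4 ≤ n) :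
    a * d - max (max (max (mu4_v 0 a) (mu4_v 1 a)) (mu4_v 2 a)) (max (thj n a) (thd n a)) ≤ P := by
  have hn4 : 4 ≤ n := by
    have h1 : (0 : ℝ) < d / P := by positivity
    have h2 : (4 : ℝ) ≤ n := by linarith
    exact_mod_cast h2
  obtain ⟨θ, hθ⟩ : ∃ θ : ℝ, θ = max (max (max (mu4_v 0 a) (mu4_v 1 a)) (mu4_v 2 a)) (max (thj n a) (thd n a)) := ⟨_, rfl⟩
  have hv0 : mu4_v 0 a ≤ θ := by
    rw [hθ]
    exact le_max_of_le_left (le_max_of_le_left (le_max_left _ _))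
  have hv1 : mu4_v 1 a ≤ θ := by
    rw [hθ]
    exact le_max_of_le_left (le_max_of_le_left (le_max_right _ _))
  have hv2 : mu4_v 2 a ≤ θ := by
    rw [hθ]
    exact le_max_of_le_left (le_max_right _ _)
  have hjj : thj n a ≤ θ := by
    rw [hθ]
    exact le_max_of_le_right (le_max_left _ _)
  have hdn : thd n a ≤ θ := by
    rw [hθ]
    exact le_max_of_le_right (le_max_right _ _)
  rw [← hθ]
  have hθ0 : 0 ≤ θ := (mu4_thj_nonneg n a).trans hjj
  have hc1 : 4 / 9 * (d - 1 / 8) ≤ P := mu4_corner (by norm_num) (by norm_num) (by norm_num) hP0.le hP2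
  have hc2 : 11 / 30 * (d - 1 / 11) ≤ P := mu4_corner (by norm_num) (by norm_num) (by norm_num) hP0.le hP2
  have hc3 : 1 / 3 * (d - 1 / 12) ≤ P := mu4_corner (by norm_num) (by norm_num) (by norm_num) hP0.le hP2
  rcases le_total (2 / 3) a with h1 | h1
  · rw [mu4_v0 ha1] at hv0
    have : 0 ≤ (a - 2 / 3) * (1 - d) := mul_nonneg (by linarith) (by linarith)
    linarith
  rcases le_total (4 / 9) a with h2 | h2
  · rw [mu4_v1 h1] at hv1
    have : 0 ≤ (a - 4 / 9) * (1 / 2 - d) := mul_nonneg (by linarith) (by linarith)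
    linarith
  rcases le_total (11 / 30) a with h3 | h3
  · rw [mu4_v2 h2] at hv2
    rcases le_total (2 / 7) d with h4 | h4
    · have : 0 ≤ (4 / 9 - a) * (d - 2 / 7) := mul_nonneg (by linarith) (by linarith)
      linarith
    · have : 0 ≤ (a - 11 / 30) * (2 / 7 - d) := mul_nonneg (by linarith) (by linarith)
      linarith
  rcases le_total (1 / 3) a with h4 | h4
  · have h5 : hd 3 a ≤ θ := (le_thd (le_refl 3) (by omega) a).trans hdn
    have h6 : hd 3 a = (2 * a - 1 / 3) / 12 := by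
      unfold hd
      rw [if_pos ⟨by push_cast; linarith, by push_cast; linarith⟩]
      norm_num
    rw [h6] at h5
    rcases le_total (1 / 6) d with h7 | h7
    · have : 0 ≤ (11 / 30 - a) * (d - 1 / 6) := mul_nonneg (by linarith) (by linarith)
      linarith
    · have : 0 ≤ (a - 1 / 3) * (1 / 6 - d) := mul_nonneg (by linarith) (by linarith)
      linarith
  rcases le_total (a * d) P with had | had
  · linarith
  have hapos : 0 < a := by
    rcases ha0.lt_or_eq with h | h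
    · exact h
    · rw [← h, zero_mul] at had
      linarith
  obtain ⟨q, hq⟩ : ∃ q : ℕ, q = ⌈1 / a⌉₊ := ⟨_, rfl⟩
  have hq1 : 1 / a ≤ q := by
    rw [hq]
    exact Nat.le_ceil _
  have hq2 : (q : ℝ) < 1 / a + 1 := by
    rw [hq]
    exact Nat.ceil_lt_add_one (by positivity)
  have e1 : 1 ≤ (q : ℝ) * a := by
    rw [div_le_iff₀ hapos] at hq1
    exact hq1
  have e2 : ((q : ℝ) - 1) * a ≤ 1 := by
    have h5 : (q : ℝ) - 1 < 1 / a := by linarith
    rw [lt_div_iff₀ hapos] at h5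
    exact h5.le
  have hqn : q + 1 < n + 3 := by
    have h6 : (1 : ℝ) / a ≤ d / P := by
      rw [div_le_div_iff₀ hapos hP0]
      linarith
    have h7 : (q : ℝ) + 1 < n + 3 := by linarith
    exact_mod_cast h7
  have hq3 : 3 ≤ q := by
    by_contra hcon
    have h6 : (q : ℝ) ≤ 2 := by
      have : q ≤ 2 := by omega
      exact_mod_cast this
    nlinarith
  rcases Nat.lt_or_ge q 4 with h9 | h9
  · -- `a = 1/3`
    obtain rfl : q = 3 := by omega
    push_cast at e1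
    have h5 : hd 3 a ≤ θ := (le_thd (le_refl 3) (by omega) a).trans hdn
    have h6 : hd 3 a = (2 * a - 1 / 3) / 12 := by
      unfold hd
      rw [if_pos ⟨by push_cast; linarith, by push_cast; linarith⟩]
      norm_num
    have ha3 : a = 1 / 3 := by linarith
    rw [h6, ha3] at h5
    rw [ha3]
    linarith
  · have hY : hj q a ≤ θ := by
      refine (le_thj h9 ?_ a).trans hjj
      omega
    have hZ : hd q a ≤ θ := by
      refine (le_thd (by omega) ?_ a).trans hdn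
      omega
    exact mu4_q h9 hapos e1 e2 hP0.le hP2 hY hZ

/-- the facts on `P = B d^(3/2)` -/
private lemma mu4_P {d : ℝ} (hd0 : 0 < d) (hdd : d ≤ 1 / 2) :
    0 < 16 * √6 / 81 * d ^ (3 / 2 : ℝ) ∧
    (16 * √6 / 81 * d ^ (3 / 2 : ℝ)) ^ 2 = 512 / 2187 * d ^ 3 ∧
    2 / 3 * d - 1 / 6 ≤ 16 * √6 / 81 * d ^ (3 / 2 : ℝ) := by
  have hw0 : 0 < √6 := Real.sqrt_pos.2 (by norm_num)
  have hw2 : √6 ^ 2 = 6 := Real.sq_sqrt (by norm_num)
  have hpos : 0 < 16 * √6 / 81 * d ^ (3 / 2 : ℝ) := by positivity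
  have hsq : (16 * √6 / 81 * d ^ (3 / 2 : ℝ)) ^ 2 = 512 / 2187 * d ^ 3 := by
    have h1 : (d ^ (3 / 2 : ℝ)) ^ 2 = d ^ 3 := by
      rw [← Real.rpow_natCast, ← Real.rpow_mul hd0.le]
      norm_num
    calc (16 * √6 / 81 * d ^ (3 / 2 : ℝ)) ^ 2 = 256 / 6561 * √6 ^ 2 * (d ^ (3 / 2 : ℝ)) ^ 2 := by ring
      _ = 512 / 2187 * d ^ 3 := by
          rw [hw2, h1]
          ring
  refine ⟨hpos, hsq, ?_⟩
  rcases le_total d (1 / 4) with h | h
  · linarith
  · refine le_of_sq_le_sq ?_ hpos.le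
    rw [hsq]
    obtain ⟨e, he⟩ : ∃ e : ℝ, e = 1 / 2 - d := ⟨_, rfl⟩
    have he0 : 0 ≤ e := by linarith
    have he1 : e ≤ 1 / 4 := by linarith
    have hde : d = 1 / 2 - e := by linarith
    rw [hde]
    have h3 : 0 ≤ e * (684 + 7344 * (1 / 4 - e) + 18432 * ((1 / 4) ^ 2 - e ^ 2)) := by
      have h4 : e ^ 2 ≤ (1 / 4) ^ 2 := pow_le_pow_left₀ he0 he1 2
      have h5 : 0 ≤ 1 / 4 - e := by linarith
      have h6 : 0 ≤ (1 / 4) ^ 2 - e ^ 2 := by linarith
      positivity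
    linarith

/-- the growth of zeta in the strip -/
theorem zeta_growth4 (hz : ∀ q : ℕ, 3 ≤ q → HBB q) (hJ : ∀ q : ℕ, 4 ≤ q → HJB q) (hD : ∀ k : ℕ, 3 ≤ k → HDB k) {σ : ℝ}
    (h0 : 1 / 2 ≤ σ) (h1 : σ < 1) {ε : ℝ} (hε : 0 < ε) :
    ∃ C : ℝ, 0 ≤ C ∧ ∀ t : ℝ, 1 ≤ |t| →
      ‖riemannZeta (σ + t * I)‖ ≤ C * |t| ^ (16 * √6 / 81 * (1 - σ) ^ (3 / 2 : ℝ) + ε) := by
  have hd0 : 0 < 1 - σ := by linarith
  have hdd : 1 - σ ≤ 1 / 2 := by linarith
  obtain ⟨hP0, hP2, hhalf⟩ := mu4_P hd0 hdd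
  obtain ⟨n, hn⟩ := exists_nat_ge ((1 - σ) / (16 * √6 / 81 * (1 - σ) ^ (3 / 2 : ℝ)) + 4)
  have hσ : 0 ≤ σ := by linarith
  refine growth_of_PW h0 h1 hP0.le
    (PW_max (PW_max (PW_max (PW_vdc 0 hσ) (PW_vdc 1 hσ)) (PW_vdc 2 hσ)) (PW_max (PW_thj hσ hJ n) (PW_thd hσ hz hD n))) ?_ hε
  intro a ha0 ha1
  exact mu4_num hd0 hdd ha0 ha1 hP0 hP2 hhalf hn

end Pool.Agent.Lib.PR
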