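import Pool.Agent.Lib.PR.Defs

/-!
# PR / O1: the arithmetic of the exponents

For `a ≤ 1/j0` the mean value theorem for the `j0`-th power (`j0 ≥ mm k`); for larger `a` the Halász-Montgomery-Huxley bound with the
`j` of the list, and the van der Corput test of the order of the list.  All conditions are bilinear in `(k, a)` on boxes: they hold at the
vertices.
-/

set_option autoImplicit false

namespace Pool.Agent.Lib.PR

private theorem caseHM (k a s e m : ℝ) (j : ℕ) (w : ℝ) (hk : 6 * (j : ℝ) ≤ k) (he : 0 ≤ e) (hs : w - e ≤ s)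
    (hm : a * mm k ≤ a * m) (h1 : a * m ≤ 1 + (k - 2 * j) * w) (h2 : a * m ≤ 2 * j * a + (k - 6 * j) * w) :
    2 * j * s ≤ 1 + k * s - a * mm k + (k + 50) * e ∧
      1 - 2 * j * a + 6 * j * s ≤ 1 + k * s - a * mm k + (k + 50) * e := by
  have hj : (0 : ℝ) ≤ j := Nat.cast_nonneg j
  have h3 : (k - 6 * j) * (w - e) ≤ (k - 6 * j) * s := mul_le_mul_of_nonneg_left hs (by linarith)
  have h4 : (k - 2 * j) * (w - e) ≤ (k - 2 * j) * s := mul_le_mul_of_nonneg_left hs (by linarith)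
  have h5 : 0 ≤ j * e := mul_nonneg hj he
  constructor <;> nlinarith

private theorem caseMV (k a s e m : ℝ) (j : ℕ) (hk : 2 * (j : ℝ) ≤ k) (he : 0 ≤ e) (ha : 0 ≤ a) (hs : -e ≤ s)
    (hm : a * mm k ≤ a * m) (h1 : m ≤ j) (h2 : a * j ≤ 1) :
    2 * j * s ≤ 1 + k * s - a * mm k + (k + 50) * e ∧
      1 - j * a + 2 * j * s ≤ 1 + k * s - a * mm k + (k + 50) * e := by
  have hj : (0 : ℝ) ≤ j := Nat.cast_nonneg j
  have h4 : (k - 2 * j) * (-e) ≤ (k - 2 * j) * s := mul_le_mul_of_nonneg_left hs (by linarith)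
  have h5 : 0 ≤ j * e := mul_nonneg hj he
  have h6 : a * m ≤ a * j := mul_le_mul_of_nonneg_left h1 ha
  constructor <;> nlinarith

private theorem vkp (q : ℕ) : kp q = 1 / ((2 : ℝ) ^ (q + 2) - 2) := rfl

private theorem vnu (q : ℕ) : nu q = 1 / (2 : ℝ) ^ q := rfl


private theorem range0 (k : ℝ) (hk1 : 18 ≤ k) (hk2 : k ≤ 30) (a s e : ℝ) (ha0 : 0 ≤ a) (ha1 : a ≤ 1)
    (he : 0 ≤ e) (hs0 : -e ≤ s)
    (hs : ∀ q : ℕ, q ≤ 7 → a * ((q : ℝ) + nu q) ≤ 1 → kp q * (((q : ℝ) + 2) * a - 1) - e ≤ s) :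
    ∃ j : ℕ, j ≤ 8 ∧
      ((2 * j * s ≤ 1 + k * s - a * mm k + (k + 50) * e ∧
        1 - 2 * j * a + 6 * j * s ≤ 1 + k * s - a * mm k + (k + 50) * e) ∨
       (2 * j * s ≤ 1 + k * s - a * mm k + (k + 50) * e ∧
        1 - j * a + 2 * j * s ≤ 1 + k * s - a * mm k + (k + 50) * e)) := by
  have hmm : mm k ≤ (k + 46) / 16 := by
    unfold mm
    exact (min_le_left _ _)
  have hm : a * mm k ≤ a * ((k + 46) / 16) := mul_le_mul_of_nonneg_left hmm ha0
  rcases le_total (2 / 3) a with h | h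
  · have hq := hs 0 (by norm_num) (by
      rw [vnu]
      norm_num
      linarith)
    have hw : kp 0 * (((0 : ℕ) + 2 : ℝ) * a - 1) = (2 * a - 1) / 2 := by
      rw [vkp]
      norm_num
      ring
    rw [hw] at hq
    refine ⟨2, by norm_num, Or.inl (caseHM k a s e ((k + 46) / 16) 2 ((2 * a - 1) / 2) (by norm_num; linarith) he hq hm ?_ ?_)⟩
    · push_cast
      nlinarith [mul_nonneg (sub_nonneg.2 hk1) (sub_nonneg.2 h), mul_nonneg (sub_nonneg.2 hk2) (sub_nonneg.2 h),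
        mul_nonneg (sub_nonneg.2 hk1) (sub_nonneg.2 ha1), mul_nonneg (sub_nonneg.2 hk2) (sub_nonneg.2 ha1)]
    · push_cast
      nlinarith [mul_nonneg (sub_nonneg.2 hk1) (sub_nonneg.2 h), mul_nonneg (sub_nonneg.2 hk2) (sub_nonneg.2 h),
        mul_nonneg (sub_nonneg.2 hk1) (sub_nonneg.2 ha1), mul_nonneg (sub_nonneg.2 hk2) (sub_nonneg.2 ha1)]
  clear ha1
  rename a ≤ (2 / 3) => ha1
  rcases le_total (4 / 9) a with h | h
  · have hq := hs 1 (by norm_num) (by
      rw [vnu]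
      norm_num
      linarith)
    have hw : kp 1 * (((1 : ℕ) + 2 : ℝ) * a - 1) = (3 * a - 1) / 6 := by
      rw [vkp]
      norm_num
      ring
    rw [hw] at hq
    refine ⟨2, by norm_num, Or.inl (caseHM k a s e ((k + 46) / 16) 2 ((3 * a - 1) / 6) (by norm_num; linarith) he hq hm ?_ ?_)⟩
    · push_cast
      nlinarith [mul_nonneg (sub_nonneg.2 hk1) (sub_nonneg.2 h), mul_nonneg (sub_nonneg.2 hk2) (sub_nonneg.2 h),
        mul_nonneg (sub_nonneg.2 hk1) (sub_nonneg.2 ha1), mul_nonneg (sub_nonneg.2 hk2) (sub_nonneg.2 ha1)]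
    · push_cast
      nlinarith [mul_nonneg (sub_nonneg.2 hk1) (sub_nonneg.2 h), mul_nonneg (sub_nonneg.2 hk2) (sub_nonneg.2 h),
        mul_nonneg (sub_nonneg.2 hk1) (sub_nonneg.2 ha1), mul_nonneg (sub_nonneg.2 hk2) (sub_nonneg.2 ha1)]
  clear ha1
  rename a ≤ (4 / 9) => ha1
  rcases le_total (8 / 25) a with h | h
  · have hq := hs 2 (by norm_num) (by
      rw [vnu]
      norm_num
      linarith)
    have hw : kp 2 * (((2 : ℕ) + 2 : ℝ) * a - 1) = (4 * a - 1) / 14 := by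
      rw [vkp]
      norm_num
      ring
    rw [hw] at hq
    refine ⟨2, by norm_num, Or.inl (caseHM k a s e ((k + 46) / 16) 2 ((4 * a - 1) / 14) (by norm_num; linarith) he hq hm ?_ ?_)⟩
    · push_cast
      nlinarith [mul_nonneg (sub_nonneg.2 hk1) (sub_nonneg.2 h), mul_nonneg (sub_nonneg.2 hk2) (sub_nonneg.2 h),
        mul_nonneg (sub_nonneg.2 hk1) (sub_nonneg.2 ha1), mul_nonneg (sub_nonneg.2 hk2) (sub_nonneg.2 ha1)]
    · push_cast
      nlinarith [mul_nonneg (sub_nonneg.2 hk1) (sub_nonneg.2 h), mul_nonneg (sub_nonneg.2 hk2) (sub_nonneg.2 h),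
        mul_nonneg (sub_nonneg.2 hk1) (sub_nonneg.2 ha1), mul_nonneg (sub_nonneg.2 hk2) (sub_nonneg.2 ha1)]
  clear ha1
  rename a ≤ (8 / 25) => ha1
  rcases le_total (4 / 15) a with h | h
  · have hq := hs 3 (by norm_num) (by
      rw [vnu]
      norm_num
      linarith)
    have hw : kp 3 * (((3 : ℕ) + 2 : ℝ) * a - 1) = (5 * a - 1) / 30 := by
      rw [vkp]
      norm_num
      ring
    rw [hw] at hq
    refine ⟨2, by norm_num, Or.inl (caseHM k a s e ((k + 46) / 16) 2 ((5 * a - 1) / 30) (by norm_num; linarith) he hq hm ?_ ?_)⟩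
    · push_cast
      nlinarith [mul_nonneg (sub_nonneg.2 hk1) (sub_nonneg.2 h), mul_nonneg (sub_nonneg.2 hk2) (sub_nonneg.2 h),
        mul_nonneg (sub_nonneg.2 hk1) (sub_nonneg.2 ha1), mul_nonneg (sub_nonneg.2 hk2) (sub_nonneg.2 ha1)]
    · push_cast
      nlinarith [mul_nonneg (sub_nonneg.2 hk1) (sub_nonneg.2 h), mul_nonneg (sub_nonneg.2 hk2) (sub_nonneg.2 h),
        mul_nonneg (sub_nonneg.2 hk1) (sub_nonneg.2 ha1), mul_nonneg (sub_nonneg.2 hk2) (sub_nonneg.2 ha1)]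
  clear ha1
  rename a ≤ (4 / 15) => ha1
  rcases le_total (16 / 65) a with h | h
  · have hq := hs 3 (by norm_num) (by
      rw [vnu]
      norm_num
      linarith)
    have hw : kp 3 * (((3 : ℕ) + 2 : ℝ) * a - 1) = (5 * a - 1) / 30 := by
      rw [vkp]
      norm_num
      ring
    rw [hw] at hq
    refine ⟨3, by norm_num, Or.inl (caseHM k a s e ((k + 46) / 16) 3 ((5 * a - 1) / 30) (by norm_num; linarith) he hq hm ?_ ?_)⟩
    · push_cast
      nlinarith [mul_nonneg (sub_nonneg.2 hk1) (sub_nonneg.2 h), mul_nonneg (sub_nonneg.2 hk2) (sub_nonneg.2 h),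
        mul_nonneg (sub_nonneg.2 hk1) (sub_nonneg.2 ha1), mul_nonneg (sub_nonneg.2 hk2) (sub_nonneg.2 ha1)]
    · push_cast
      nlinarith [mul_nonneg (sub_nonneg.2 hk1) (sub_nonneg.2 h), mul_nonneg (sub_nonneg.2 hk2) (sub_nonneg.2 h),
        mul_nonneg (sub_nonneg.2 hk1) (sub_nonneg.2 ha1), mul_nonneg (sub_nonneg.2 hk2) (sub_nonneg.2 ha1)]
  clear ha1
  rename a ≤ (16 / 65) => ha1
  rcases le_total (1 / 5) a with h | h
  · have hq := hs 4 (by norm_num) (by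
      rw [vnu]
      norm_num
      linarith)
    have hw : kp 4 * (((4 : ℕ) + 2 : ℝ) * a - 1) = (6 * a - 1) / 62 := by
      rw [vkp]
      norm_num
      ring
    rw [hw] at hq
    refine ⟨3, by norm_num, Or.inl (caseHM k a s e ((k + 46) / 16) 3 ((6 * a - 1) / 62) (by norm_num; linarith) he hq hm ?_ ?_)⟩
    · push_cast
      nlinarith [mul_nonneg (sub_nonneg.2 hk1) (sub_nonneg.2 h), mul_nonneg (sub_nonneg.2 hk2) (sub_nonneg.2 h),
        mul_nonneg (sub_nonneg.2 hk1) (sub_nonneg.2 ha1), mul_nonneg (sub_nonneg.2 hk2) (sub_nonneg.2 ha1)]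
    · push_cast
      nlinarith [mul_nonneg (sub_nonneg.2 hk1) (sub_nonneg.2 h), mul_nonneg (sub_nonneg.2 hk2) (sub_nonneg.2 h),
        mul_nonneg (sub_nonneg.2 hk1) (sub_nonneg.2 ha1), mul_nonneg (sub_nonneg.2 hk2) (sub_nonneg.2 ha1)]
  clear ha1
  rename a ≤ (1 / 5) => ha1
  refine ⟨5, by norm_num, Or.inr (caseMV k a s e ((k + 46) / 16) 5 (by norm_num; linarith) he ha0 hs0 hm ?_ ?_)⟩
  · push_cast
    linarith
  · push_cast
    linarith

private theorem range1 (k : ℝ) (hk1 : 30 ≤ k) (hk2 : k ≤ 36) (a s e : ℝ) (ha0 : 0 ≤ a) (ha1 : a ≤ 1)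
    (he : 0 ≤ e) (hs0 : -e ≤ s)
    (hs : ∀ q : ℕ, q ≤ 7 → a * ((q : ℝ) + nu q) ≤ 1 → kp q * (((q : ℝ) + 2) * a - 1) - e ≤ s) :
    ∃ j : ℕ, j ≤ 8 ∧
      ((2 * j * s ≤ 1 + k * s - a * mm k + (k + 50) * e ∧
        1 - 2 * j * a + 6 * j * s ≤ 1 + k * s - a * mm k + (k + 50) * e) ∨
       (2 * j * s ≤ 1 + k * s - a * mm k + (k + 50) * e ∧
        1 - j * a + 2 * j * s ≤ 1 + k * s - a * mm k + (k + 50) * e)) := by
  have hmm : mm k ≤ (k + 84) / 24 := by
    unfold mm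
    exact ((min_le_right _ _).trans (min_le_left _ _))
  have hm : a * mm k ≤ a * ((k + 84) / 24) := mul_le_mul_of_nonneg_left hmm ha0
  rcases le_total (2 / 3) a with h | h
  · have hq := hs 0 (by norm_num) (by
      rw [vnu]
      norm_num
      linarith)
    have hw : kp 0 * (((0 : ℕ) + 2 : ℝ) * a - 1) = (2 * a - 1) / 2 := by
      rw [vkp]
      norm_num
      ring
    rw [hw] at hq
    refine ⟨2, by norm_num, Or.inl (caseHM k a s e ((k + 84) / 24) 2 ((2 * a - 1) / 2) (by norm_num; linarith) he hq hm ?_ ?_)⟩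
    · push_cast
      nlinarith [mul_nonneg (sub_nonneg.2 hk1) (sub_nonneg.2 h), mul_nonneg (sub_nonneg.2 hk2) (sub_nonneg.2 h),
        mul_nonneg (sub_nonneg.2 hk1) (sub_nonneg.2 ha1), mul_nonneg (sub_nonneg.2 hk2) (sub_nonneg.2 ha1)]
    · push_cast
      nlinarith [mul_nonneg (sub_nonneg.2 hk1) (sub_nonneg.2 h), mul_nonneg (sub_nonneg.2 hk2) (sub_nonneg.2 h),
        mul_nonneg (sub_nonneg.2 hk1) (sub_nonneg.2 ha1), mul_nonneg (sub_nonneg.2 hk2) (sub_nonneg.2 ha1)]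
  clear ha1
  rename a ≤ (2 / 3) => ha1
  rcases le_total (4 / 9) a with h | h
  · have hq := hs 1 (by norm_num) (by
      rw [vnu]
      norm_num
      linarith)
    have hw : kp 1 * (((1 : ℕ) + 2 : ℝ) * a - 1) = (3 * a - 1) / 6 := by
      rw [vkp]
      norm_num
      ring
    rw [hw] at hq
    refine ⟨2, by norm_num, Or.inl (caseHM k a s e ((k + 84) / 24) 2 ((3 * a - 1) / 6) (by norm_num; linarith) he hq hm ?_ ?_)⟩
    · push_cast
      nlinarith [mul_nonneg (sub_nonneg.2 hk1) (sub_nonneg.2 h), mul_nonneg (sub_nonneg.2 hk2) (sub_nonneg.2 h),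
        mul_nonneg (sub_nonneg.2 hk1) (sub_nonneg.2 ha1), mul_nonneg (sub_nonneg.2 hk2) (sub_nonneg.2 ha1)]
    · push_cast
      nlinarith [mul_nonneg (sub_nonneg.2 hk1) (sub_nonneg.2 h), mul_nonneg (sub_nonneg.2 hk2) (sub_nonneg.2 h),
        mul_nonneg (sub_nonneg.2 hk1) (sub_nonneg.2 ha1), mul_nonneg (sub_nonneg.2 hk2) (sub_nonneg.2 ha1)]
  clear ha1
  rename a ≤ (4 / 9) => ha1
  rcases le_total (8 / 25) a with h | h
  · have hq := hs 2 (by norm_num) (by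
      rw [vnu]
      norm_num
      linarith)
    have hw : kp 2 * (((2 : ℕ) + 2 : ℝ) * a - 1) = (4 * a - 1) / 14 := by
      rw [vkp]
      norm_num
      ring
    rw [hw] at hq
    refine ⟨2, by norm_num, Or.inl (caseHM k a s e ((k + 84) / 24) 2 ((4 * a - 1) / 14) (by norm_num; linarith) he hq hm ?_ ?_)⟩
    · push_cast
      nlinarith [mul_nonneg (sub_nonneg.2 hk1) (sub_nonneg.2 h), mul_nonneg (sub_nonneg.2 hk2) (sub_nonneg.2 h),
        mul_nonneg (sub_nonneg.2 hk1) (sub_nonneg.2 ha1), mul_nonneg (sub_nonneg.2 hk2) (sub_nonneg.2 ha1)]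
    · push_cast
      nlinarith [mul_nonneg (sub_nonneg.2 hk1) (sub_nonneg.2 h), mul_nonneg (sub_nonneg.2 hk2) (sub_nonneg.2 h),
        mul_nonneg (sub_nonneg.2 hk1) (sub_nonneg.2 ha1), mul_nonneg (sub_nonneg.2 hk2) (sub_nonneg.2 ha1)]
  clear ha1
  rename a ≤ (8 / 25) => ha1
  rcases le_total (4 / 15) a with h | h
  · have hq := hs 3 (by norm_num) (by
      rw [vnu]
      norm_num
      linarith)
    have hw : kp 3 * (((3 : ℕ) + 2 : ℝ) * a - 1) = (5 * a - 1) / 30 := by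
      rw [vkp]
      norm_num
      ring
    rw [hw] at hq
    refine ⟨2, by norm_num, Or.inl (caseHM k a s e ((k + 84) / 24) 2 ((5 * a - 1) / 30) (by norm_num; linarith) he hq hm ?_ ?_)⟩
    · push_cast
      nlinarith [mul_nonneg (sub_nonneg.2 hk1) (sub_nonneg.2 h), mul_nonneg (sub_nonneg.2 hk2) (sub_nonneg.2 h),
        mul_nonneg (sub_nonneg.2 hk1) (sub_nonneg.2 ha1), mul_nonneg (sub_nonneg.2 hk2) (sub_nonneg.2 ha1)]
    · push_cast
      nlinarith [mul_nonneg (sub_nonneg.2 hk1) (sub_nonneg.2 h), mul_nonneg (sub_nonneg.2 hk2) (sub_nonneg.2 h),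
        mul_nonneg (sub_nonneg.2 hk1) (sub_nonneg.2 ha1), mul_nonneg (sub_nonneg.2 hk2) (sub_nonneg.2 ha1)]
  clear ha1
  rename a ≤ (4 / 15) => ha1
  rcases le_total (16 / 65) a with h | h
  · have hq := hs 3 (by norm_num) (by
      rw [vnu]
      norm_num
      linarith)
    have hw : kp 3 * (((3 : ℕ) + 2 : ℝ) * a - 1) = (5 * a - 1) / 30 := by
      rw [vkp]
      norm_num
      ring
    rw [hw] at hq
    refine ⟨3, by norm_num, Or.inl (caseHM k a s e ((k + 84) / 24) 3 ((5 * a - 1) / 30) (by norm_num; linarith) he hq hm ?_ ?_)⟩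
    · push_cast
      nlinarith [mul_nonneg (sub_nonneg.2 hk1) (sub_nonneg.2 h), mul_nonneg (sub_nonneg.2 hk2) (sub_nonneg.2 h),
        mul_nonneg (sub_nonneg.2 hk1) (sub_nonneg.2 ha1), mul_nonneg (sub_nonneg.2 hk2) (sub_nonneg.2 ha1)]
    · push_cast
      nlinarith [mul_nonneg (sub_nonneg.2 hk1) (sub_nonneg.2 h), mul_nonneg (sub_nonneg.2 hk2) (sub_nonneg.2 h),
        mul_nonneg (sub_nonneg.2 hk1) (sub_nonneg.2 ha1), mul_nonneg (sub_nonneg.2 hk2) (sub_nonneg.2 ha1)]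
  clear ha1
  rename a ≤ (16 / 65) => ha1
  rcases le_total (1 / 5) a with h | h
  · have hq := hs 4 (by norm_num) (by
      rw [vnu]
      norm_num
      linarith)
    have hw : kp 4 * (((4 : ℕ) + 2 : ℝ) * a - 1) = (6 * a - 1) / 62 := by
      rw [vkp]
      norm_num
      ring
    rw [hw] at hq
    refine ⟨3, by norm_num, Or.inl (caseHM k a s e ((k + 84) / 24) 3 ((6 * a - 1) / 62) (by norm_num; linarith) he hq hm ?_ ?_)⟩
    · push_cast
      nlinarith [mul_nonneg (sub_nonneg.2 hk1) (sub_nonneg.2 h), mul_nonneg (sub_nonneg.2 hk2) (sub_nonneg.2 h),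
        mul_nonneg (sub_nonneg.2 hk1) (sub_nonneg.2 ha1), mul_nonneg (sub_nonneg.2 hk2) (sub_nonneg.2 ha1)]
    · push_cast
      nlinarith [mul_nonneg (sub_nonneg.2 hk1) (sub_nonneg.2 h), mul_nonneg (sub_nonneg.2 hk2) (sub_nonneg.2 h),
        mul_nonneg (sub_nonneg.2 hk1) (sub_nonneg.2 ha1), mul_nonneg (sub_nonneg.2 hk2) (sub_nonneg.2 ha1)]
  clear ha1
  rename a ≤ (1 / 5) => ha1
  refine ⟨5, by norm_num, Or.inr (caseMV k a s e ((k + 84) / 24) 5 (by norm_num; linarith) he ha0 hs0 hm ?_ ?_)⟩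
  · push_cast
    linarith
  · push_cast
    linarith

private theorem range2 (k : ℝ) (hk1 : 36 ≤ k) (hk2 : k ≤ 68) (a s e : ℝ) (ha0 : 0 ≤ a) (ha1 : a ≤ 1)
    (he : 0 ≤ e) (hs0 : -e ≤ s)
    (hs : ∀ q : ℕ, q ≤ 7 → a * ((q : ℝ) + nu q) ≤ 1 → kp q * (((q : ℝ) + 2) * a - 1) - e ≤ s) :
    ∃ j : ℕ, j ≤ 8 ∧
      ((2 * j * s ≤ 1 + k * s - a * mm k + (k + 50) * e ∧
        1 - 2 * j * a + 6 * j * s ≤ 1 + k * s - a * mm k + (k + 50) * e) ∨
       (2 * j * s ≤ 1 + k * s - a * mm k + (k + 50) * e ∧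
        1 - j * a + 2 * j * s ≤ 1 + k * s - a * mm k + (k + 50) * e)) := by
  have hmm : mm k ≤ (k + 124) / 32 := by
    unfold mm
    exact ((min_le_right _ _).trans ((min_le_right _ _).trans (min_le_left _ _)))
  have hm : a * mm k ≤ a * ((k + 124) / 32) := mul_le_mul_of_nonneg_left hmm ha0
  rcases le_total (2 / 3) a with h | h
  · have hq := hs 0 (by norm_num) (by
      rw [vnu]
      norm_num
      linarith)
    have hw : kp 0 * (((0 : ℕ) + 2 : ℝ) * a - 1) = (2 * a - 1) / 2 := by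
      rw [vkp]
      norm_num
      ring
    rw [hw] at hq
    refine ⟨2, by norm_num, Or.inl (caseHM k a s e ((k + 124) / 32) 2 ((2 * a - 1) / 2) (by norm_num; linarith) he hq hm ?_ ?_)⟩
    · push_cast
      nlinarith [mul_nonneg (sub_nonneg.2 hk1) (sub_nonneg.2 h), mul_nonneg (sub_nonneg.2 hk2) (sub_nonneg.2 h),
        mul_nonneg (sub_nonneg.2 hk1) (sub_nonneg.2 ha1), mul_nonneg (sub_nonneg.2 hk2) (sub_nonneg.2 ha1)]
    · push_cast
      nlinarith [mul_nonneg (sub_nonneg.2 hk1) (sub_nonneg.2 h), mul_nonneg (sub_nonneg.2 hk2) (sub_nonneg.2 h),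
        mul_nonneg (sub_nonneg.2 hk1) (sub_nonneg.2 ha1), mul_nonneg (sub_nonneg.2 hk2) (sub_nonneg.2 ha1)]
  clear ha1
  rename a ≤ (2 / 3) => ha1
  rcases le_total (4 / 9) a with h | h
  · have hq := hs 1 (by norm_num) (by
      rw [vnu]
      norm_num
      linarith)
    have hw : kp 1 * (((1 : ℕ) + 2 : ℝ) * a - 1) = (3 * a - 1) / 6 := by
      rw [vkp]
      norm_num
      ring
    rw [hw] at hq
    refine ⟨2, by norm_num, Or.inl (caseHM k a s e ((k + 124) / 32) 2 ((3 * a - 1) / 6) (by norm_num; linarith) he hq hm ?_ ?_)⟩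
    · push_cast
      nlinarith [mul_nonneg (sub_nonneg.2 hk1) (sub_nonneg.2 h), mul_nonneg (sub_nonneg.2 hk2) (sub_nonneg.2 h),
        mul_nonneg (sub_nonneg.2 hk1) (sub_nonneg.2 ha1), mul_nonneg (sub_nonneg.2 hk2) (sub_nonneg.2 ha1)]
    · push_cast
      nlinarith [mul_nonneg (sub_nonneg.2 hk1) (sub_nonneg.2 h), mul_nonneg (sub_nonneg.2 hk2) (sub_nonneg.2 h),
        mul_nonneg (sub_nonneg.2 hk1) (sub_nonneg.2 ha1), mul_nonneg (sub_nonneg.2 hk2) (sub_nonneg.2 ha1)]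
  clear ha1
  rename a ≤ (4 / 9) => ha1
  rcases le_total (8 / 25) a with h | h
  · have hq := hs 2 (by norm_num) (by
      rw [vnu]
      norm_num
      linarith)
    have hw : kp 2 * (((2 : ℕ) + 2 : ℝ) * a - 1) = (4 * a - 1) / 14 := by
      rw [vkp]
      norm_num
      ring
    rw [hw] at hq
    refine ⟨2, by norm_num, Or.inl (caseHM k a s e ((k + 124) / 32) 2 ((4 * a - 1) / 14) (by norm_num; linarith) he hq hm ?_ ?_)⟩
    · push_cast
      nlinarith [mul_nonneg (sub_nonneg.2 hk1) (sub_nonneg.2 h), mul_nonneg (sub_nonneg.2 hk2) (sub_nonneg.2 h),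
        mul_nonneg (sub_nonneg.2 hk1) (sub_nonneg.2 ha1), mul_nonneg (sub_nonneg.2 hk2) (sub_nonneg.2 ha1)]
    · push_cast
      nlinarith [mul_nonneg (sub_nonneg.2 hk1) (sub_nonneg.2 h), mul_nonneg (sub_nonneg.2 hk2) (sub_nonneg.2 h),
        mul_nonneg (sub_nonneg.2 hk1) (sub_nonneg.2 ha1), mul_nonneg (sub_nonneg.2 hk2) (sub_nonneg.2 ha1)]
  clear ha1
  rename a ≤ (8 / 25) => ha1
  rcases le_total (4 / 15) a with h | h
  · have hq := hs 3 (by norm_num) (by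
      rw [vnu]
      norm_num
      linarith)
    have hw : kp 3 * (((3 : ℕ) + 2 : ℝ) * a - 1) = (5 * a - 1) / 30 := by
      rw [vkp]
      norm_num
      ring
    rw [hw] at hq
    refine ⟨2, by norm_num, Or.inl (caseHM k a s e ((k + 124) / 32) 2 ((5 * a - 1) / 30) (by norm_num; linarith) he hq hm ?_ ?_)⟩
    · push_cast
      nlinarith [mul_nonneg (sub_nonneg.2 hk1) (sub_nonneg.2 h), mul_nonneg (sub_nonneg.2 hk2) (sub_nonneg.2 h),
        mul_nonneg (sub_nonneg.2 hk1) (sub_nonneg.2 ha1), mul_nonneg (sub_nonneg.2 hk2) (sub_nonneg.2 ha1)]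
    · push_cast
      nlinarith [mul_nonneg (sub_nonneg.2 hk1) (sub_nonneg.2 h), mul_nonneg (sub_nonneg.2 hk2) (sub_nonneg.2 h),
        mul_nonneg (sub_nonneg.2 hk1) (sub_nonneg.2 ha1), mul_nonneg (sub_nonneg.2 hk2) (sub_nonneg.2 ha1)]
  clear ha1
  rename a ≤ (4 / 15) => ha1
  rcases le_total (16 / 65) a with h | h
  · have hq := hs 3 (by norm_num) (by
      rw [vnu]
      norm_num
      linarith)
    have hw : kp 3 * (((3 : ℕ) + 2 : ℝ) * a - 1) = (5 * a - 1) / 30 := by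
      rw [vkp]
      norm_num
      ring
    rw [hw] at hq
    refine ⟨3, by norm_num, Or.inl (caseHM k a s e ((k + 124) / 32) 3 ((5 * a - 1) / 30) (by norm_num; linarith) he hq hm ?_ ?_)⟩
    · push_cast
      nlinarith [mul_nonneg (sub_nonneg.2 hk1) (sub_nonneg.2 h), mul_nonneg (sub_nonneg.2 hk2) (sub_nonneg.2 h),
        mul_nonneg (sub_nonneg.2 hk1) (sub_nonneg.2 ha1), mul_nonneg (sub_nonneg.2 hk2) (sub_nonneg.2 ha1)]
    · push_cast
      nlinarith [mul_nonneg (sub_nonneg.2 hk1) (sub_nonneg.2 h), mul_nonneg (sub_nonneg.2 hk2) (sub_nonneg.2 h),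
        mul_nonneg (sub_nonneg.2 hk1) (sub_nonneg.2 ha1), mul_nonneg (sub_nonneg.2 hk2) (sub_nonneg.2 ha1)]
  clear ha1
  rename a ≤ (16 / 65) => ha1
  rcases le_total (32 / 161) a with h | h
  · have hq := hs 4 (by norm_num) (by
      rw [vnu]
      norm_num
      linarith)
    have hw : kp 4 * (((4 : ℕ) + 2 : ℝ) * a - 1) = (6 * a - 1) / 62 := by
      rw [vkp]
      norm_num
      ring
    rw [hw] at hq
    refine ⟨3, by norm_num, Or.inl (caseHM k a s e ((k + 124) / 32) 3 ((6 * a - 1) / 62) (by norm_num; linarith) he hq hm ?_ ?_)⟩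
    · push_cast
      nlinarith [mul_nonneg (sub_nonneg.2 hk1) (sub_nonneg.2 h), mul_nonneg (sub_nonneg.2 hk2) (sub_nonneg.2 h),
        mul_nonneg (sub_nonneg.2 hk1) (sub_nonneg.2 ha1), mul_nonneg (sub_nonneg.2 hk2) (sub_nonneg.2 ha1)]
    · push_cast
      nlinarith [mul_nonneg (sub_nonneg.2 hk1) (sub_nonneg.2 h), mul_nonneg (sub_nonneg.2 hk2) (sub_nonneg.2 h),
        mul_nonneg (sub_nonneg.2 hk1) (sub_nonneg.2 ha1), mul_nonneg (sub_nonneg.2 hk2) (sub_nonneg.2 ha1)]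
  clear ha1
  rename a ≤ (32 / 161) => ha1
  rcases le_total (58 / 343) a with h | h
  · have hq := hs 5 (by norm_num) (by
      rw [vnu]
      norm_num
      linarith)
    have hw : kp 5 * (((5 : ℕ) + 2 : ℝ) * a - 1) = (7 * a - 1) / 126 := by
      rw [vkp]
      norm_num
      ring
    rw [hw] at hq
    refine ⟨3, by norm_num, Or.inl (caseHM k a s e ((k + 124) / 32) 3 ((7 * a - 1) / 126) (by norm_num; linarith) he hq hm ?_ ?_)⟩
    · push_cast
      nlinarith [mul_nonneg (sub_nonneg.2 hk1) (sub_nonneg.2 h), mul_nonneg (sub_nonneg.2 hk2) (sub_nonneg.2 h),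
        mul_nonneg (sub_nonneg.2 hk1) (sub_nonneg.2 ha1), mul_nonneg (sub_nonneg.2 hk2) (sub_nonneg.2 ha1)]
    · push_cast
      nlinarith [mul_nonneg (sub_nonneg.2 hk1) (sub_nonneg.2 h), mul_nonneg (sub_nonneg.2 hk2) (sub_nonneg.2 h),
        mul_nonneg (sub_nonneg.2 hk1) (sub_nonneg.2 ha1), mul_nonneg (sub_nonneg.2 hk2) (sub_nonneg.2 ha1)]
  clear ha1
  rename a ≤ (58 / 343) => ha1
  rcases le_total (1 / 6) a with h | h
  · have hq := hs 5 (by norm_num) (by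
      rw [vnu]
      norm_num
      linarith)
    have hw : kp 5 * (((5 : ℕ) + 2 : ℝ) * a - 1) = (7 * a - 1) / 126 := by
      rw [vkp]
      norm_num
      ring
    rw [hw] at hq
    refine ⟨4, by norm_num, Or.inl (caseHM k a s e ((k + 124) / 32) 4 ((7 * a - 1) / 126) (by norm_num; linarith) he hq hm ?_ ?_)⟩
    · push_cast
      nlinarith [mul_nonneg (sub_nonneg.2 hk1) (sub_nonneg.2 h), mul_nonneg (sub_nonneg.2 hk2) (sub_nonneg.2 h),
        mul_nonneg (sub_nonneg.2 hk1) (sub_nonneg.2 ha1), mul_nonneg (sub_nonneg.2 hk2) (sub_nonneg.2 ha1)]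
    · push_cast
      nlinarith [mul_nonneg (sub_nonneg.2 hk1) (sub_nonneg.2 h), mul_nonneg (sub_nonneg.2 hk2) (sub_nonneg.2 h),
        mul_nonneg (sub_nonneg.2 hk1) (sub_nonneg.2 ha1), mul_nonneg (sub_nonneg.2 hk2) (sub_nonneg.2 ha1)]
  clear ha1
  rename a ≤ (1 / 6) => ha1
  refine ⟨6, by norm_num, Or.inr (caseMV k a s e ((k + 124) / 32) 6 (by norm_num; linarith) he ha0 hs0 hm ?_ ?_)⟩
  · push_cast
    linarith
  · push_cast
    linarith

private theorem range3 (k : ℝ) (hk1 : 68 ≤ k) (hk2 : k ≤ 129) (a s e : ℝ) (ha0 : 0 ≤ a) (ha1 : a ≤ 1)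
    (he : 0 ≤ e) (hs0 : -e ≤ s)
    (hs : ∀ q : ℕ, q ≤ 7 → a * ((q : ℝ) + nu q) ≤ 1 → kp q * (((q : ℝ) + 2) * a - 1) - e ≤ s) :
    ∃ j : ℕ, j ≤ 8 ∧
      ((2 * j * s ≤ 1 + k * s - a * mm k + (k + 50) * e ∧
        1 - 2 * j * a + 6 * j * s ≤ 1 + k * s - a * mm k + (k + 50) * e) ∨
       (2 * j * s ≤ 1 + k * s - a * mm k + (k + 50) * e ∧
        1 - j * a + 2 * j * s ≤ 1 + k * s - a * mm k + (k + 50) * e)) := by
  have hmm : mm k ≤ (k + 316) / 64 := by
    unfold mm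
    exact ((min_le_right _ _).trans ((min_le_right _ _).trans ((min_le_right _ _).trans (min_le_left _ _))))
  have hm : a * mm k ≤ a * ((k + 316) / 64) := mul_le_mul_of_nonneg_left hmm ha0
  rcases le_total (2 / 3) a with h | h
  · have hq := hs 0 (by norm_num) (by
      rw [vnu]
      norm_num
      linarith)
    have hw : kp 0 * (((0 : ℕ) + 2 : ℝ) * a - 1) = (2 * a - 1) / 2 := by
      rw [vkp]
      norm_num
      ring
    rw [hw] at hq
    refine ⟨2, by norm_num, Or.inl (caseHM k a s e ((k + 316) / 64) 2 ((2 * a - 1) / 2) (by norm_num; linarith) he hq hm ?_ ?_)⟩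
    · push_cast
      nlinarith [mul_nonneg (sub_nonneg.2 hk1) (sub_nonneg.2 h), mul_nonneg (sub_nonneg.2 hk2) (sub_nonneg.2 h),
        mul_nonneg (sub_nonneg.2 hk1) (sub_nonneg.2 ha1), mul_nonneg (sub_nonneg.2 hk2) (sub_nonneg.2 ha1)]
    · push_cast
      nlinarith [mul_nonneg (sub_nonneg.2 hk1) (sub_nonneg.2 h), mul_nonneg (sub_nonneg.2 hk2) (sub_nonneg.2 h),
        mul_nonneg (sub_nonneg.2 hk1) (sub_nonneg.2 ha1), mul_nonneg (sub_nonneg.2 hk2) (sub_nonneg.2 ha1)]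
  clear ha1
  rename a ≤ (2 / 3) => ha1
  rcases le_total (4 / 9) a with h | h
  · have hq := hs 1 (by norm_num) (by
      rw [vnu]
      norm_num
      linarith)
    have hw : kp 1 * (((1 : ℕ) + 2 : ℝ) * a - 1) = (3 * a - 1) / 6 := by
      rw [vkp]
      norm_num
      ring
    rw [hw] at hq
    refine ⟨2, by norm_num, Or.inl (caseHM k a s e ((k + 316) / 64) 2 ((3 * a - 1) / 6) (by norm_num; linarith) he hq hm ?_ ?_)⟩
    · push_cast
      nlinarith [mul_nonneg (sub_nonneg.2 hk1) (sub_nonneg.2 h), mul_nonneg (sub_nonneg.2 hk2) (sub_nonneg.2 h),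
        mul_nonneg (sub_nonneg.2 hk1) (sub_nonneg.2 ha1), mul_nonneg (sub_nonneg.2 hk2) (sub_nonneg.2 ha1)]
    · push_cast
      nlinarith [mul_nonneg (sub_nonneg.2 hk1) (sub_nonneg.2 h), mul_nonneg (sub_nonneg.2 hk2) (sub_nonneg.2 h),
        mul_nonneg (sub_nonneg.2 hk1) (sub_nonneg.2 ha1), mul_nonneg (sub_nonneg.2 hk2) (sub_nonneg.2 ha1)]
  clear ha1
  rename a ≤ (4 / 9) => ha1
  rcases le_total (8 / 25) a with h | h
  · have hq := hs 2 (by norm_num) (by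
      rw [vnu]
      norm_num
      linarith)
    have hw : kp 2 * (((2 : ℕ) + 2 : ℝ) * a - 1) = (4 * a - 1) / 14 := by
      rw [vkp]
      norm_num
      ring
    rw [hw] at hq
    refine ⟨2, by norm_num, Or.inl (caseHM k a s e ((k + 316) / 64) 2 ((4 * a - 1) / 14) (by norm_num; linarith) he hq hm ?_ ?_)⟩
    · push_cast
      nlinarith [mul_nonneg (sub_nonneg.2 hk1) (sub_nonneg.2 h), mul_nonneg (sub_nonneg.2 hk2) (sub_nonneg.2 h),
        mul_nonneg (sub_nonneg.2 hk1) (sub_nonneg.2 ha1), mul_nonneg (sub_nonneg.2 hk2) (sub_nonneg.2 ha1)]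
    · push_cast
      nlinarith [mul_nonneg (sub_nonneg.2 hk1) (sub_nonneg.2 h), mul_nonneg (sub_nonneg.2 hk2) (sub_nonneg.2 h),
        mul_nonneg (sub_nonneg.2 hk1) (sub_nonneg.2 ha1), mul_nonneg (sub_nonneg.2 hk2) (sub_nonneg.2 ha1)]
  clear ha1
  rename a ≤ (8 / 25) => ha1
  rcases le_total (4 / 15) a with h | h
  · have hq := hs 3 (by norm_num) (by
      rw [vnu]
      norm_num
      linarith)
    have hw : kp 3 * (((3 : ℕ) + 2 : ℝ) * a - 1) = (5 * a - 1) / 30 := by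
      rw [vkp]
      norm_num
      ring
    rw [hw] at hq
    refine ⟨2, by norm_num, Or.inl (caseHM k a s e ((k + 316) / 64) 2 ((5 * a - 1) / 30) (by norm_num; linarith) he hq hm ?_ ?_)⟩
    · push_cast
      nlinarith [mul_nonneg (sub_nonneg.2 hk1) (sub_nonneg.2 h), mul_nonneg (sub_nonneg.2 hk2) (sub_nonneg.2 h),
        mul_nonneg (sub_nonneg.2 hk1) (sub_nonneg.2 ha1), mul_nonneg (sub_nonneg.2 hk2) (sub_nonneg.2 ha1)]
    · push_cast
      nlinarith [mul_nonneg (sub_nonneg.2 hk1) (sub_nonneg.2 h), mul_nonneg (sub_nonneg.2 hk2) (sub_nonneg.2 h),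
        mul_nonneg (sub_nonneg.2 hk1) (sub_nonneg.2 ha1), mul_nonneg (sub_nonneg.2 hk2) (sub_nonneg.2 ha1)]
  clear ha1
  rename a ≤ (4 / 15) => ha1
  rcases le_total (16 / 65) a with h | h
  · have hq := hs 3 (by norm_num) (by
      rw [vnu]
      norm_num
      linarith)
    have hw : kp 3 * (((3 : ℕ) + 2 : ℝ) * a - 1) = (5 * a - 1) / 30 := by
      rw [vkp]
      norm_num
      ring
    rw [hw] at hq
    refine ⟨3, by norm_num, Or.inl (caseHM k a s e ((k + 316) / 64) 3 ((5 * a - 1) / 30) (by norm_num; linarith) he hq hm ?_ ?_)⟩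
    · push_cast
      nlinarith [mul_nonneg (sub_nonneg.2 hk1) (sub_nonneg.2 h), mul_nonneg (sub_nonneg.2 hk2) (sub_nonneg.2 h),
        mul_nonneg (sub_nonneg.2 hk1) (sub_nonneg.2 ha1), mul_nonneg (sub_nonneg.2 hk2) (sub_nonneg.2 ha1)]
    · push_cast
      nlinarith [mul_nonneg (sub_nonneg.2 hk1) (sub_nonneg.2 h), mul_nonneg (sub_nonneg.2 hk2) (sub_nonneg.2 h),
        mul_nonneg (sub_nonneg.2 hk1) (sub_nonneg.2 ha1), mul_nonneg (sub_nonneg.2 hk2) (sub_nonneg.2 ha1)]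
  clear ha1
  rename a ≤ (16 / 65) => ha1
  rcases le_total (32 / 161) a with h | h
  · have hq := hs 4 (by norm_num) (by
      rw [vnu]
      norm_num
      linarith)
    have hw : kp 4 * (((4 : ℕ) + 2 : ℝ) * a - 1) = (6 * a - 1) / 62 := by
      rw [vkp]
      norm_num
      ring
    rw [hw] at hq
    refine ⟨3, by norm_num, Or.inl (caseHM k a s e ((k + 316) / 64) 3 ((6 * a - 1) / 62) (by norm_num; linarith) he hq hm ?_ ?_)⟩
    · push_cast
      nlinarith [mul_nonneg (sub_nonneg.2 hk1) (sub_nonneg.2 h), mul_nonneg (sub_nonneg.2 hk2) (sub_nonneg.2 h),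
        mul_nonneg (sub_nonneg.2 hk1) (sub_nonneg.2 ha1), mul_nonneg (sub_nonneg.2 hk2) (sub_nonneg.2 ha1)]
    · push_cast
      nlinarith [mul_nonneg (sub_nonneg.2 hk1) (sub_nonneg.2 h), mul_nonneg (sub_nonneg.2 hk2) (sub_nonneg.2 h),
        mul_nonneg (sub_nonneg.2 hk1) (sub_nonneg.2 ha1), mul_nonneg (sub_nonneg.2 hk2) (sub_nonneg.2 ha1)]
  clear ha1
  rename a ≤ (32 / 161) => ha1
  rcases le_total (58 / 343) a with h | h
  · have hq := hs 5 (by norm_num) (by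
      rw [vnu]
      norm_num
      linarith)
    have hw : kp 5 * (((5 : ℕ) + 2 : ℝ) * a - 1) = (7 * a - 1) / 126 := by
      rw [vkp]
      norm_num
      ring
    rw [hw] at hq
    refine ⟨3, by norm_num, Or.inl (caseHM k a s e ((k + 316) / 64) 3 ((7 * a - 1) / 126) (by norm_num; linarith) he hq hm ?_ ?_)⟩
    · push_cast
      nlinarith [mul_nonneg (sub_nonneg.2 hk1) (sub_nonneg.2 h), mul_nonneg (sub_nonneg.2 hk2) (sub_nonneg.2 h),
        mul_nonneg (sub_nonneg.2 hk1) (sub_nonneg.2 ha1), mul_nonneg (sub_nonneg.2 hk2) (sub_nonneg.2 ha1)]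
    · push_cast
      nlinarith [mul_nonneg (sub_nonneg.2 hk1) (sub_nonneg.2 h), mul_nonneg (sub_nonneg.2 hk2) (sub_nonneg.2 h),
        mul_nonneg (sub_nonneg.2 hk1) (sub_nonneg.2 ha1), mul_nonneg (sub_nonneg.2 hk2) (sub_nonneg.2 ha1)]
  clear ha1
  rename a ≤ (58 / 343) => ha1
  rcases le_total (64 / 385) a with h | h
  · have hq := hs 5 (by norm_num) (by
      rw [vnu]
      norm_num
      linarith)
    have hw : kp 5 * (((5 : ℕ) + 2 : ℝ) * a - 1) = (7 * a - 1) / 126 := by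
      rw [vkp]
      norm_num
      ring
    rw [hw] at hq
    refine ⟨4, by norm_num, Or.inl (caseHM k a s e ((k + 316) / 64) 4 ((7 * a - 1) / 126) (by norm_num; linarith) he hq hm ?_ ?_)⟩
    · push_cast
      nlinarith [mul_nonneg (sub_nonneg.2 hk1) (sub_nonneg.2 h), mul_nonneg (sub_nonneg.2 hk2) (sub_nonneg.2 h),
        mul_nonneg (sub_nonneg.2 hk1) (sub_nonneg.2 ha1), mul_nonneg (sub_nonneg.2 hk2) (sub_nonneg.2 ha1)]
    · push_cast
      nlinarith [mul_nonneg (sub_nonneg.2 hk1) (sub_nonneg.2 h), mul_nonneg (sub_nonneg.2 hk2) (sub_nonneg.2 h),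
        mul_nonneg (sub_nonneg.2 hk1) (sub_nonneg.2 ha1), mul_nonneg (sub_nonneg.2 hk2) (sub_nonneg.2 ha1)]
  clear ha1
  rename a ≤ (64 / 385) => ha1
  rcases le_total (1 / 7) a with h | h
  · have hq := hs 6 (by norm_num) (by
      rw [vnu]
      norm_num
      linarith)
    have hw : kp 6 * (((6 : ℕ) + 2 : ℝ) * a - 1) = (8 * a - 1) / 254 := by
      rw [vkp]
      norm_num
      ring
    rw [hw] at hq
    refine ⟨4, by norm_num, Or.inl (caseHM k a s e ((k + 316) / 64) 4 ((8 * a - 1) / 254) (by norm_num; linarith) he hq hm ?_ ?_)⟩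
    · push_cast
      nlinarith [mul_nonneg (sub_nonneg.2 hk1) (sub_nonneg.2 h), mul_nonneg (sub_nonneg.2 hk2) (sub_nonneg.2 h),
        mul_nonneg (sub_nonneg.2 hk1) (sub_nonneg.2 ha1), mul_nonneg (sub_nonneg.2 hk2) (sub_nonneg.2 ha1)]
    · push_cast
      nlinarith [mul_nonneg (sub_nonneg.2 hk1) (sub_nonneg.2 h), mul_nonneg (sub_nonneg.2 hk2) (sub_nonneg.2 h),
        mul_nonneg (sub_nonneg.2 hk1) (sub_nonneg.2 ha1), mul_nonneg (sub_nonneg.2 hk2) (sub_nonneg.2 ha1)]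
  clear ha1
  rename a ≤ (1 / 7) => ha1
  refine ⟨7, by norm_num, Or.inr (caseMV k a s e ((k + 316) / 64) 7 (by norm_num; linarith) he ha0 hs0 hm ?_ ?_)⟩
  · push_cast
    linarith
  · push_cast
    linarith

private theorem range4 (k : ℝ) (hk1 : 130 ≤ k) (hk2 : k ≤ 134) (a s e : ℝ) (ha0 : 0 ≤ a) (ha1 : a ≤ 1)
    (he : 0 ≤ e) (hs0 : -e ≤ s)
    (hs : ∀ q : ℕ, q ≤ 7 → a * ((q : ℝ) + nu q) ≤ 1 → kp q * (((q : ℝ) + 2) * a - 1) - e ≤ s) :
    ∃ j : ℕ, j ≤ 8 ∧
      ((2 * j * s ≤ 1 + k * s - a * mm k + (k + 50) * e ∧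
        1 - 2 * j * a + 6 * j * s ≤ 1 + k * s - a * mm k + (k + 50) * e) ∨
       (2 * j * s ≤ 1 + k * s - a * mm k + (k + 50) * e ∧
        1 - j * a + 2 * j * s ≤ 1 + k * s - a * mm k + (k + 50) * e)) := by
  have hmm : mm k ≤ (k + 678) / 116 := by
    unfold mm
    exact ((min_le_right _ _).trans ((min_le_right _ _).trans ((min_le_right _ _).trans ((min_le_right _ _).trans (min_le_left _ _)))))
  have hm : a * mm k ≤ a * ((k + 678) / 116) := mul_le_mul_of_nonneg_left hmm ha0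
  rcases le_total (2 / 3) a with h | h
  · have hq := hs 0 (by norm_num) (by
      rw [vnu]
      norm_num
      linarith)
    have hw : kp 0 * (((0 : ℕ) + 2 : ℝ) * a - 1) = (2 * a - 1) / 2 := by
      rw [vkp]
      norm_num
      ring
    rw [hw] at hq
    refine ⟨2, by norm_num, Or.inl (caseHM k a s e ((k + 678) / 116) 2 ((2 * a - 1) / 2) (by norm_num; linarith) he hq hm ?_ ?_)⟩
    · push_cast
      nlinarith [mul_nonneg (sub_nonneg.2 hk1) (sub_nonneg.2 h), mul_nonneg (sub_nonneg.2 hk2) (sub_nonneg.2 h),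
        mul_nonneg (sub_nonneg.2 hk1) (sub_nonneg.2 ha1), mul_nonneg (sub_nonneg.2 hk2) (sub_nonneg.2 ha1)]
    · push_cast
      nlinarith [mul_nonneg (sub_nonneg.2 hk1) (sub_nonneg.2 h), mul_nonneg (sub_nonneg.2 hk2) (sub_nonneg.2 h),
        mul_nonneg (sub_nonneg.2 hk1) (sub_nonneg.2 ha1), mul_nonneg (sub_nonneg.2 hk2) (sub_nonneg.2 ha1)]
  clear ha1
  rename a ≤ (2 / 3) => ha1
  rcases le_total (4 / 9) a with h | h
  · have hq := hs 1 (by norm_num) (by
      rw [vnu]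
      norm_num
      linarith)
    have hw : kp 1 * (((1 : ℕ) + 2 : ℝ) * a - 1) = (3 * a - 1) / 6 := by
      rw [vkp]
      norm_num
      ring
    rw [hw] at hq
    refine ⟨2, by norm_num, Or.inl (caseHM k a s e ((k + 678) / 116) 2 ((3 * a - 1) / 6) (by norm_num; linarith) he hq hm ?_ ?_)⟩
    · push_cast
      nlinarith [mul_nonneg (sub_nonneg.2 hk1) (sub_nonneg.2 h), mul_nonneg (sub_nonneg.2 hk2) (sub_nonneg.2 h),
        mul_nonneg (sub_nonneg.2 hk1) (sub_nonneg.2 ha1), mul_nonneg (sub_nonneg.2 hk2) (sub_nonneg.2 ha1)]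
    · push_cast
      nlinarith [mul_nonneg (sub_nonneg.2 hk1) (sub_nonneg.2 h), mul_nonneg (sub_nonneg.2 hk2) (sub_nonneg.2 h),
        mul_nonneg (sub_nonneg.2 hk1) (sub_nonneg.2 ha1), mul_nonneg (sub_nonneg.2 hk2) (sub_nonneg.2 ha1)]
  clear ha1
  rename a ≤ (4 / 9) => ha1
  rcases le_total (8 / 25) a with h | h
  · have hq := hs 2 (by norm_num) (by
      rw [vnu]
      norm_num
      linarith)
    have hw : kp 2 * (((2 : ℕ) + 2 : ℝ) * a - 1) = (4 * a - 1) / 14 := by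
      rw [vkp]
      norm_num
      ring
    rw [hw] at hq
    refine ⟨2, by norm_num, Or.inl (caseHM k a s e ((k + 678) / 116) 2 ((4 * a - 1) / 14) (by norm_num; linarith) he hq hm ?_ ?_)⟩
    · push_cast
      nlinarith [mul_nonneg (sub_nonneg.2 hk1) (sub_nonneg.2 h), mul_nonneg (sub_nonneg.2 hk2) (sub_nonneg.2 h),
        mul_nonneg (sub_nonneg.2 hk1) (sub_nonneg.2 ha1), mul_nonneg (sub_nonneg.2 hk2) (sub_nonneg.2 ha1)]
    · push_cast
      nlinarith [mul_nonneg (sub_nonneg.2 hk1) (sub_nonneg.2 h), mul_nonneg (sub_nonneg.2 hk2) (sub_nonneg.2 h),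
        mul_nonneg (sub_nonneg.2 hk1) (sub_nonneg.2 ha1), mul_nonneg (sub_nonneg.2 hk2) (sub_nonneg.2 ha1)]
  clear ha1
  rename a ≤ (8 / 25) => ha1
  rcases le_total (4 / 15) a with h | h
  · have hq := hs 3 (by norm_num) (by
      rw [vnu]
      norm_num
      linarith)
    have hw : kp 3 * (((3 : ℕ) + 2 : ℝ) * a - 1) = (5 * a - 1) / 30 := by
      rw [vkp]
      norm_num
      ring
    rw [hw] at hq
    refine ⟨2, by norm_num, Or.inl (caseHM k a s e ((k + 678) / 116) 2 ((5 * a - 1) / 30) (by norm_num; linarith) he hq hm ?_ ?_)⟩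
    · push_cast
      nlinarith [mul_nonneg (sub_nonneg.2 hk1) (sub_nonneg.2 h), mul_nonneg (sub_nonneg.2 hk2) (sub_nonneg.2 h),
        mul_nonneg (sub_nonneg.2 hk1) (sub_nonneg.2 ha1), mul_nonneg (sub_nonneg.2 hk2) (sub_nonneg.2 ha1)]
    · push_cast
      nlinarith [mul_nonneg (sub_nonneg.2 hk1) (sub_nonneg.2 h), mul_nonneg (sub_nonneg.2 hk2) (sub_nonneg.2 h),
        mul_nonneg (sub_nonneg.2 hk1) (sub_nonneg.2 ha1), mul_nonneg (sub_nonneg.2 hk2) (sub_nonneg.2 ha1)]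
  clear ha1
  rename a ≤ (4 / 15) => ha1
  rcases le_total (16 / 65) a with h | h
  · have hq := hs 3 (by norm_num) (by
      rw [vnu]
      norm_num
      linarith)
    have hw : kp 3 * (((3 : ℕ) + 2 : ℝ) * a - 1) = (5 * a - 1) / 30 := by
      rw [vkp]
      norm_num
      ring
    rw [hw] at hq
    refine ⟨3, by norm_num, Or.inl (caseHM k a s e ((k + 678) / 116) 3 ((5 * a - 1) / 30) (by norm_num; linarith) he hq hm ?_ ?_)⟩
    · push_cast
      nlinarith [mul_nonneg (sub_nonneg.2 hk1) (sub_nonneg.2 h), mul_nonneg (sub_nonneg.2 hk2) (sub_nonneg.2 h),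
        mul_nonneg (sub_nonneg.2 hk1) (sub_nonneg.2 ha1), mul_nonneg (sub_nonneg.2 hk2) (sub_nonneg.2 ha1)]
    · push_cast
      nlinarith [mul_nonneg (sub_nonneg.2 hk1) (sub_nonneg.2 h), mul_nonneg (sub_nonneg.2 hk2) (sub_nonneg.2 h),
        mul_nonneg (sub_nonneg.2 hk1) (sub_nonneg.2 ha1), mul_nonneg (sub_nonneg.2 hk2) (sub_nonneg.2 ha1)]
  clear ha1
  rename a ≤ (16 / 65) => ha1
  rcases le_total (32 / 161) a with h | h
  · have hq := hs 4 (by norm_num) (by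
      rw [vnu]
      norm_num
      linarith)
    have hw : kp 4 * (((4 : ℕ) + 2 : ℝ) * a - 1) = (6 * a - 1) / 62 := by
      rw [vkp]
      norm_num
      ring
    rw [hw] at hq
    refine ⟨3, by norm_num, Or.inl (caseHM k a s e ((k + 678) / 116) 3 ((6 * a - 1) / 62) (by norm_num; linarith) he hq hm ?_ ?_)⟩
    · push_cast
      nlinarith [mul_nonneg (sub_nonneg.2 hk1) (sub_nonneg.2 h), mul_nonneg (sub_nonneg.2 hk2) (sub_nonneg.2 h),
        mul_nonneg (sub_nonneg.2 hk1) (sub_nonneg.2 ha1), mul_nonneg (sub_nonneg.2 hk2) (sub_nonneg.2 ha1)]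
    · push_cast
      nlinarith [mul_nonneg (sub_nonneg.2 hk1) (sub_nonneg.2 h), mul_nonneg (sub_nonneg.2 hk2) (sub_nonneg.2 h),
        mul_nonneg (sub_nonneg.2 hk1) (sub_nonneg.2 ha1), mul_nonneg (sub_nonneg.2 hk2) (sub_nonneg.2 ha1)]
  clear ha1
  rename a ≤ (32 / 161) => ha1
  rcases le_total (58 / 343) a with h | h
  · have hq := hs 5 (by norm_num) (by
      rw [vnu]
      norm_num
      linarith)
    have hw : kp 5 * (((5 : ℕ) + 2 : ℝ) * a - 1) = (7 * a - 1) / 126 := by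
      rw [vkp]
      norm_num
      ring
    rw [hw] at hq
    refine ⟨3, by norm_num, Or.inl (caseHM k a s e ((k + 678) / 116) 3 ((7 * a - 1) / 126) (by norm_num; linarith) he hq hm ?_ ?_)⟩
    · push_cast
      nlinarith [mul_nonneg (sub_nonneg.2 hk1) (sub_nonneg.2 h), mul_nonneg (sub_nonneg.2 hk2) (sub_nonneg.2 h),
        mul_nonneg (sub_nonneg.2 hk1) (sub_nonneg.2 ha1), mul_nonneg (sub_nonneg.2 hk2) (sub_nonneg.2 ha1)]
    · push_cast
      nlinarith [mul_nonneg (sub_nonneg.2 hk1) (sub_nonneg.2 h), mul_nonneg (sub_nonneg.2 hk2) (sub_nonneg.2 h),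
        mul_nonneg (sub_nonneg.2 hk1) (sub_nonneg.2 ha1), mul_nonneg (sub_nonneg.2 hk2) (sub_nonneg.2 ha1)]
  clear ha1
  rename a ≤ (58 / 343) => ha1
  rcases le_total (64 / 385) a with h | h
  · have hq := hs 5 (by norm_num) (by
      rw [vnu]
      norm_num
      linarith)
    have hw : kp 5 * (((5 : ℕ) + 2 : ℝ) * a - 1) = (7 * a - 1) / 126 := by
      rw [vkp]
      norm_num
      ring
    rw [hw] at hq
    refine ⟨4, by norm_num, Or.inl (caseHM k a s e ((k + 678) / 116) 4 ((7 * a - 1) / 126) (by norm_num; linarith) he hq hm ?_ ?_)⟩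
    · push_cast
      nlinarith [mul_nonneg (sub_nonneg.2 hk1) (sub_nonneg.2 h), mul_nonneg (sub_nonneg.2 hk2) (sub_nonneg.2 h),
        mul_nonneg (sub_nonneg.2 hk1) (sub_nonneg.2 ha1), mul_nonneg (sub_nonneg.2 hk2) (sub_nonneg.2 ha1)]
    · push_cast
      nlinarith [mul_nonneg (sub_nonneg.2 hk1) (sub_nonneg.2 h), mul_nonneg (sub_nonneg.2 hk2) (sub_nonneg.2 h),
        mul_nonneg (sub_nonneg.2 hk1) (sub_nonneg.2 ha1), mul_nonneg (sub_nonneg.2 hk2) (sub_nonneg.2 ha1)]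
  clear ha1
  rename a ≤ (64 / 385) => ha1
  rcases le_total (1 / 7) a with h | h
  · have hq := hs 6 (by norm_num) (by
      rw [vnu]
      norm_num
      linarith)
    have hw : kp 6 * (((6 : ℕ) + 2 : ℝ) * a - 1) = (8 * a - 1) / 254 := by
      rw [vkp]
      norm_num
      ring
    rw [hw] at hq
    refine ⟨4, by norm_num, Or.inl (caseHM k a s e ((k + 678) / 116) 4 ((8 * a - 1) / 254) (by norm_num; linarith) he hq hm ?_ ?_)⟩
    · push_cast
      nlinarith [mul_nonneg (sub_nonneg.2 hk1) (sub_nonneg.2 h), mul_nonneg (sub_nonneg.2 hk2) (sub_nonneg.2 h),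
        mul_nonneg (sub_nonneg.2 hk1) (sub_nonneg.2 ha1), mul_nonneg (sub_nonneg.2 hk2) (sub_nonneg.2 ha1)]
    · push_cast
      nlinarith [mul_nonneg (sub_nonneg.2 hk1) (sub_nonneg.2 h), mul_nonneg (sub_nonneg.2 hk2) (sub_nonneg.2 h),
        mul_nonneg (sub_nonneg.2 hk1) (sub_nonneg.2 ha1), mul_nonneg (sub_nonneg.2 hk2) (sub_nonneg.2 ha1)]
  clear ha1
  rename a ≤ (1 / 7) => ha1
  refine ⟨7, by norm_num, Or.inr (caseMV k a s e ((k + 678) / 116) 7 (by norm_num; linarith) he ha0 hs0 hm ?_ ?_)⟩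
  · push_cast
    linarith
  · push_cast
    linarith

private theorem range5 (k : ℝ) (hk1 : 134 ≤ k) (hk2 : k ≤ 262) (a s e : ℝ) (ha0 : 0 ≤ a) (ha1 : a ≤ 1)
    (he : 0 ≤ e) (hs0 : -e ≤ s)
    (hs : ∀ q : ℕ, q ≤ 7 → a * ((q : ℝ) + nu q) ≤ 1 → kp q * (((q : ℝ) + 2) * a - 1) - e ≤ s) :
    ∃ j : ℕ, j ≤ 8 ∧
      ((2 * j * s ≤ 1 + k * s - a * mm k + (k + 50) * e ∧
        1 - 2 * j * a + 6 * j * s ≤ 1 + k * s - a * mm k + (k + 50) * e) ∨
       (2 * j * s ≤ 1 + k * s - a * mm k + (k + 50) * e ∧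
        1 - j * a + 2 * j * s ≤ 1 + k * s - a * mm k + (k + 50) * e)) := by
  have hmm : mm k ≤ (k + 762) / 128 := by
    unfold mm
    exact ((min_le_right _ _).trans ((min_le_right _ _).trans ((min_le_right _ _).trans ((min_le_right _ _).trans (min_le_right _ _)))))
  have hm : a * mm k ≤ a * ((k + 762) / 128) := mul_le_mul_of_nonneg_left hmm ha0
  rcases le_total (2 / 3) a with h | h
  · have hq := hs 0 (by norm_num) (by
      rw [vnu]
      norm_num
      linarith)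
    have hw : kp 0 * (((0 : ℕ) + 2 : ℝ) * a - 1) = (2 * a - 1) / 2 := by
      rw [vkp]
      norm_num
      ring
    rw [hw] at hq
    refine ⟨2, by norm_num, Or.inl (caseHM k a s e ((k + 762) / 128) 2 ((2 * a - 1) / 2) (by norm_num; linarith) he hq hm ?_ ?_)⟩
    · push_cast
      nlinarith [mul_nonneg (sub_nonneg.2 hk1) (sub_nonneg.2 h), mul_nonneg (sub_nonneg.2 hk2) (sub_nonneg.2 h),
        mul_nonneg (sub_nonneg.2 hk1) (sub_nonneg.2 ha1), mul_nonneg (sub_nonneg.2 hk2) (sub_nonneg.2 ha1)]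
    · push_cast
      nlinarith [mul_nonneg (sub_nonneg.2 hk1) (sub_nonneg.2 h), mul_nonneg (sub_nonneg.2 hk2) (sub_nonneg.2 h),
        mul_nonneg (sub_nonneg.2 hk1) (sub_nonneg.2 ha1), mul_nonneg (sub_nonneg.2 hk2) (sub_nonneg.2 ha1)]
  clear ha1
  rename a ≤ (2 / 3) => ha1
  rcases le_total (4 / 9) a with h | h
  · have hq := hs 1 (by norm_num) (by
      rw [vnu]
      norm_num
      linarith)
    have hw : kp 1 * (((1 : ℕ) + 2 : ℝ) * a - 1) = (3 * a - 1) / 6 := by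
      rw [vkp]
      norm_num
      ring
    rw [hw] at hq
    refine ⟨2, by norm_num, Or.inl (caseHM k a s e ((k + 762) / 128) 2 ((3 * a - 1) / 6) (by norm_num; linarith) he hq hm ?_ ?_)⟩
    · push_cast
      nlinarith [mul_nonneg (sub_nonneg.2 hk1) (sub_nonneg.2 h), mul_nonneg (sub_nonneg.2 hk2) (sub_nonneg.2 h),
        mul_nonneg (sub_nonneg.2 hk1) (sub_nonneg.2 ha1), mul_nonneg (sub_nonneg.2 hk2) (sub_nonneg.2 ha1)]
    · push_cast
      nlinarith [mul_nonneg (sub_nonneg.2 hk1) (sub_nonneg.2 h), mul_nonneg (sub_nonneg.2 hk2) (sub_nonneg.2 h),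
        mul_nonneg (sub_nonneg.2 hk1) (sub_nonneg.2 ha1), mul_nonneg (sub_nonneg.2 hk2) (sub_nonneg.2 ha1)]
  clear ha1
  rename a ≤ (4 / 9) => ha1
  rcases le_total (8 / 25) a with h | h
  · have hq := hs 2 (by norm_num) (by
      rw [vnu]
      norm_num
      linarith)
    have hw : kp 2 * (((2 : ℕ) + 2 : ℝ) * a - 1) = (4 * a - 1) / 14 := by
      rw [vkp]
      norm_num
      ring
    rw [hw] at hq
    refine ⟨2, by norm_num, Or.inl (caseHM k a s e ((k + 762) / 128) 2 ((4 * a - 1) / 14) (by norm_num; linarith) he hq hm ?_ ?_)⟩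
    · push_cast
      nlinarith [mul_nonneg (sub_nonneg.2 hk1) (sub_nonneg.2 h), mul_nonneg (sub_nonneg.2 hk2) (sub_nonneg.2 h),
        mul_nonneg (sub_nonneg.2 hk1) (sub_nonneg.2 ha1), mul_nonneg (sub_nonneg.2 hk2) (sub_nonneg.2 ha1)]
    · push_cast
      nlinarith [mul_nonneg (sub_nonneg.2 hk1) (sub_nonneg.2 h), mul_nonneg (sub_nonneg.2 hk2) (sub_nonneg.2 h),
        mul_nonneg (sub_nonneg.2 hk1) (sub_nonneg.2 ha1), mul_nonneg (sub_nonneg.2 hk2) (sub_nonneg.2 ha1)]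
  clear ha1
  rename a ≤ (8 / 25) => ha1
  rcases le_total (4 / 15) a with h | h
  · have hq := hs 3 (by norm_num) (by
      rw [vnu]
      norm_num
      linarith)
    have hw : kp 3 * (((3 : ℕ) + 2 : ℝ) * a - 1) = (5 * a - 1) / 30 := by
      rw [vkp]
      norm_num
      ring
    rw [hw] at hq
    refine ⟨2, by norm_num, Or.inl (caseHM k a s e ((k + 762) / 128) 2 ((5 * a - 1) / 30) (by norm_num; linarith) he hq hm ?_ ?_)⟩
    · push_cast
      nlinarith [mul_nonneg (sub_nonneg.2 hk1) (sub_nonneg.2 h), mul_nonneg (sub_nonneg.2 hk2) (sub_nonneg.2 h),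
        mul_nonneg (sub_nonneg.2 hk1) (sub_nonneg.2 ha1), mul_nonneg (sub_nonneg.2 hk2) (sub_nonneg.2 ha1)]
    · push_cast
      nlinarith [mul_nonneg (sub_nonneg.2 hk1) (sub_nonneg.2 h), mul_nonneg (sub_nonneg.2 hk2) (sub_nonneg.2 h),
        mul_nonneg (sub_nonneg.2 hk1) (sub_nonneg.2 ha1), mul_nonneg (sub_nonneg.2 hk2) (sub_nonneg.2 ha1)]
  clear ha1
  rename a ≤ (4 / 15) => ha1
  rcases le_total (16 / 65) a with h | h
  · have hq := hs 3 (by norm_num) (by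
      rw [vnu]
      norm_num
      linarith)
    have hw : kp 3 * (((3 : ℕ) + 2 : ℝ) * a - 1) = (5 * a - 1) / 30 := by
      rw [vkp]
      norm_num
      ring
    rw [hw] at hq
    refine ⟨3, by norm_num, Or.inl (caseHM k a s e ((k + 762) / 128) 3 ((5 * a - 1) / 30) (by norm_num; linarith) he hq hm ?_ ?_)⟩
    · push_cast
      nlinarith [mul_nonneg (sub_nonneg.2 hk1) (sub_nonneg.2 h), mul_nonneg (sub_nonneg.2 hk2) (sub_nonneg.2 h),
        mul_nonneg (sub_nonneg.2 hk1) (sub_nonneg.2 ha1), mul_nonneg (sub_nonneg.2 hk2) (sub_nonneg.2 ha1)]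
    · push_cast
      nlinarith [mul_nonneg (sub_nonneg.2 hk1) (sub_nonneg.2 h), mul_nonneg (sub_nonneg.2 hk2) (sub_nonneg.2 h),
        mul_nonneg (sub_nonneg.2 hk1) (sub_nonneg.2 ha1), mul_nonneg (sub_nonneg.2 hk2) (sub_nonneg.2 ha1)]
  clear ha1
  rename a ≤ (16 / 65) => ha1
  rcases le_total (32 / 161) a with h | h
  · have hq := hs 4 (by norm_num) (by
      rw [vnu]
      norm_num
      linarith)
    have hw : kp 4 * (((4 : ℕ) + 2 : ℝ) * a - 1) = (6 * a - 1) / 62 := by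
      rw [vkp]
      norm_num
      ring
    rw [hw] at hq
    refine ⟨3, by norm_num, Or.inl (caseHM k a s e ((k + 762) / 128) 3 ((6 * a - 1) / 62) (by norm_num; linarith) he hq hm ?_ ?_)⟩
    · push_cast
      nlinarith [mul_nonneg (sub_nonneg.2 hk1) (sub_nonneg.2 h), mul_nonneg (sub_nonneg.2 hk2) (sub_nonneg.2 h),
        mul_nonneg (sub_nonneg.2 hk1) (sub_nonneg.2 ha1), mul_nonneg (sub_nonneg.2 hk2) (sub_nonneg.2 ha1)]
    · push_cast
      nlinarith [mul_nonneg (sub_nonneg.2 hk1) (sub_nonneg.2 h), mul_nonneg (sub_nonneg.2 hk2) (sub_nonneg.2 h),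
        mul_nonneg (sub_nonneg.2 hk1) (sub_nonneg.2 ha1), mul_nonneg (sub_nonneg.2 hk2) (sub_nonneg.2 ha1)]
  clear ha1
  rename a ≤ (32 / 161) => ha1
  rcases le_total (58 / 343) a with h | h
  · have hq := hs 5 (by norm_num) (by
      rw [vnu]
      norm_num
      linarith)
    have hw : kp 5 * (((5 : ℕ) + 2 : ℝ) * a - 1) = (7 * a - 1) / 126 := by
      rw [vkp]
      norm_num
      ring
    rw [hw] at hq
    refine ⟨3, by norm_num, Or.inl (caseHM k a s e ((k + 762) / 128) 3 ((7 * a - 1) / 126) (by norm_num; linarith) he hq hm ?_ ?_)⟩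
    · push_cast
      nlinarith [mul_nonneg (sub_nonneg.2 hk1) (sub_nonneg.2 h), mul_nonneg (sub_nonneg.2 hk2) (sub_nonneg.2 h),
        mul_nonneg (sub_nonneg.2 hk1) (sub_nonneg.2 ha1), mul_nonneg (sub_nonneg.2 hk2) (sub_nonneg.2 ha1)]
    · push_cast
      nlinarith [mul_nonneg (sub_nonneg.2 hk1) (sub_nonneg.2 h), mul_nonneg (sub_nonneg.2 hk2) (sub_nonneg.2 h),
        mul_nonneg (sub_nonneg.2 hk1) (sub_nonneg.2 ha1), mul_nonneg (sub_nonneg.2 hk2) (sub_nonneg.2 ha1)]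
  clear ha1
  rename a ≤ (58 / 343) => ha1
  rcases le_total (64 / 385) a with h | h
  · have hq := hs 5 (by norm_num) (by
      rw [vnu]
      norm_num
      linarith)
    have hw : kp 5 * (((5 : ℕ) + 2 : ℝ) * a - 1) = (7 * a - 1) / 126 := by
      rw [vkp]
      norm_num
      ring
    rw [hw] at hq
    refine ⟨4, by norm_num, Or.inl (caseHM k a s e ((k + 762) / 128) 4 ((7 * a - 1) / 126) (by norm_num; linarith) he hq hm ?_ ?_)⟩
    · push_cast
      nlinarith [mul_nonneg (sub_nonneg.2 hk1) (sub_nonneg.2 h), mul_nonneg (sub_nonneg.2 hk2) (sub_nonneg.2 h),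
        mul_nonneg (sub_nonneg.2 hk1) (sub_nonneg.2 ha1), mul_nonneg (sub_nonneg.2 hk2) (sub_nonneg.2 ha1)]
    · push_cast
      nlinarith [mul_nonneg (sub_nonneg.2 hk1) (sub_nonneg.2 h), mul_nonneg (sub_nonneg.2 hk2) (sub_nonneg.2 h),
        mul_nonneg (sub_nonneg.2 hk1) (sub_nonneg.2 ha1), mul_nonneg (sub_nonneg.2 hk2) (sub_nonneg.2 ha1)]
  clear ha1
  rename a ≤ (64 / 385) => ha1
  rcases le_total (128 / 897) a with h | h
  · have hq := hs 6 (by norm_num) (by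
      rw [vnu]
      norm_num
      linarith)
    have hw : kp 6 * (((6 : ℕ) + 2 : ℝ) * a - 1) = (8 * a - 1) / 254 := by
      rw [vkp]
      norm_num
      ring
    rw [hw] at hq
    refine ⟨4, by norm_num, Or.inl (caseHM k a s e ((k + 762) / 128) 4 ((8 * a - 1) / 254) (by norm_num; linarith) he hq hm ?_ ?_)⟩
    · push_cast
      nlinarith [mul_nonneg (sub_nonneg.2 hk1) (sub_nonneg.2 h), mul_nonneg (sub_nonneg.2 hk2) (sub_nonneg.2 h),
        mul_nonneg (sub_nonneg.2 hk1) (sub_nonneg.2 ha1), mul_nonneg (sub_nonneg.2 hk2) (sub_nonneg.2 ha1)]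
    · push_cast
      nlinarith [mul_nonneg (sub_nonneg.2 hk1) (sub_nonneg.2 h), mul_nonneg (sub_nonneg.2 hk2) (sub_nonneg.2 h),
        mul_nonneg (sub_nonneg.2 hk1) (sub_nonneg.2 ha1), mul_nonneg (sub_nonneg.2 hk2) (sub_nonneg.2 ha1)]
  clear ha1
  rename a ≤ (128 / 897) => ha1
  rcases le_total (248 / 1977) a with h | h
  · have hq := hs 7 (by norm_num) (by
      rw [vnu]
      norm_num
      linarith)
    have hw : kp 7 * (((7 : ℕ) + 2 : ℝ) * a - 1) = (9 * a - 1) / 510 := by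
      rw [vkp]
      norm_num
      ring
    rw [hw] at hq
    refine ⟨4, by norm_num, Or.inl (caseHM k a s e ((k + 762) / 128) 4 ((9 * a - 1) / 510) (by norm_num; linarith) he hq hm ?_ ?_)⟩
    · push_cast
      nlinarith [mul_nonneg (sub_nonneg.2 hk1) (sub_nonneg.2 h), mul_nonneg (sub_nonneg.2 hk2) (sub_nonneg.2 h),
        mul_nonneg (sub_nonneg.2 hk1) (sub_nonneg.2 ha1), mul_nonneg (sub_nonneg.2 hk2) (sub_nonneg.2 ha1)]
    · push_cast
      nlinarith [mul_nonneg (sub_nonneg.2 hk1) (sub_nonneg.2 h), mul_nonneg (sub_nonneg.2 hk2) (sub_nonneg.2 h),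
        mul_nonneg (sub_nonneg.2 hk1) (sub_nonneg.2 ha1), mul_nonneg (sub_nonneg.2 hk2) (sub_nonneg.2 ha1)]
  clear ha1
  rename a ≤ (248 / 1977) => ha1
  rcases le_total (1 / 8) a with h | h
  · have hq := hs 7 (by norm_num) (by
      rw [vnu]
      norm_num
      linarith)
    have hw : kp 7 * (((7 : ℕ) + 2 : ℝ) * a - 1) = (9 * a - 1) / 510 := by
      rw [vkp]
      norm_num
      ring
    rw [hw] at hq
    refine ⟨5, by norm_num, Or.inl (caseHM k a s e ((k + 762) / 128) 5 ((9 * a - 1) / 510) (by norm_num; linarith) he hq hm ?_ ?_)⟩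
    · push_cast
      nlinarith [mul_nonneg (sub_nonneg.2 hk1) (sub_nonneg.2 h), mul_nonneg (sub_nonneg.2 hk2) (sub_nonneg.2 h),
        mul_nonneg (sub_nonneg.2 hk1) (sub_nonneg.2 ha1), mul_nonneg (sub_nonneg.2 hk2) (sub_nonneg.2 ha1)]
    · push_cast
      nlinarith [mul_nonneg (sub_nonneg.2 hk1) (sub_nonneg.2 h), mul_nonneg (sub_nonneg.2 hk2) (sub_nonneg.2 h),
        mul_nonneg (sub_nonneg.2 hk1) (sub_nonneg.2 ha1), mul_nonneg (sub_nonneg.2 hk2) (sub_nonneg.2 ha1)]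
  clear ha1
  rename a ≤ (1 / 8) => ha1
  refine ⟨8, by norm_num, Or.inr (caseMV k a s e ((k + 762) / 128) 8 (by norm_num; linarith) he ha0 hs0 hm ?_ ?_)⟩
  · push_cast
    linarith
  · push_cast
    linarith

theorem optE (k : ℝ) (hk1 : 18 ≤ k) (hk2 : k ≤ 262) (hk3 : k ≤ 129 ∨ 130 ≤ k) (a s e : ℝ) (ha0 : 0 ≤ a) (ha1 : a ≤ 1)
    (he : 0 ≤ e) (hs0 : -e ≤ s)
    (hs : ∀ q : ℕ, q ≤ 7 → a * ((q : ℝ) + nu q) ≤ 1 → kp q * (((q : ℝ) + 2) * a - 1) - e ≤ s) :
    ∃ j : ℕ, j ≤ 8 ∧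
      ((2 * j * s ≤ 1 + k * s - a * mm k + (k + 50) * e ∧
        1 - 2 * j * a + 6 * j * s ≤ 1 + k * s - a * mm k + (k + 50) * e) ∨
       (2 * j * s ≤ 1 + k * s - a * mm k + (k + 50) * e ∧
        1 - j * a + 2 * j * s ≤ 1 + k * s - a * mm k + (k + 50) * e)) := by
  rcases le_total k 30 with h1 | h1
  · exact range0 k hk1 h1 a s e ha0 ha1 he hs0 hs
  rcases le_total k 36 with h2 | h2
  · exact range1 k h1 h2 a s e ha0 ha1 he hs0 hs
  rcases le_total k 68 with h3 | h3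
  · exact range2 k h2 h3 a s e ha0 ha1 he hs0 hs
  rcases hk3 with h4 | h4
  · exact range3 k h3 h4 a s e ha0 ha1 he hs0 hs
  rcases le_total k 134 with h5 | h5
  · exact range4 k h4 h5 a s e ha0 ha1 he hs0 hs
  · exact range5 k h5 hk2 a s e ha0 ha1 he hs0 hs

end Pool.Agent.Lib.PR
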