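import Pool.Agent.Lib.PR.Defs

/-!
# PR / OD: the records for all k, definitions

`Rec k m`: `m` is at most all the corner values; `Concl`: the conclusion of the arithmetic (hypothesis `hA` of `blockMom_gen`
with `δ = m/k`, `c0 = k`).
-/

set_option autoImplicit false

namespace Pool.Agent.Lib.PR

/-- the corner value at `1/(q-1) + 1/q^2` -/
noncomputable def GG (k : ℝ) (q : ℕ) : ℝ :=
  (k + (q : ℝ) ^ 2 * (q - 1) - 2 * ((q / 2 : ℕ) : ℝ)) / ((q : ℝ) ^ 2 + q - 1)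

/-- `m` is at most all the corner values -/
def Rec (k m : ℝ) : Prop :=
  1 ≤ m ∧ m ≤ (k + 46) / 16 ∧ m ≤ (k + 84) / 24 ∧ m ≤ (k + 94) / 26 ∧ m ≤ (k + 154) / 37 ∧
    m ≤ 3 * (k + 174) / 121 ∧ ∀ q : ℕ, 7 ≤ q → m ≤ GG k q

/-- the conclusion of the arithmetic -/
def Concl (k m a s e : ℝ) : Prop :=
  ∃ j : ℕ, (j : ℝ) ≤ k ∧ 2 * j * s ≤ 1 + k * s - a * m + k * e ∧
    (1 - 2 * j * a + 6 * j * s ≤ 1 + k * s - a * m + k * e ∨
      1 - j * a + 2 * j * s ≤ 1 + k * s - a * m + k * e)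

/-- Halász-Montgomery-Huxley case: `w` is the saving, `1 + 4 j w ≤ 2 j a` -/
theorem concl_hm {k m a s e : ℝ} (j : ℕ) (w : ℝ) (hk : 6 * (j : ℝ) ≤ k) (he : 0 ≤ e) (hs : w - e ≤ s)
    (h1 : a * m ≤ 1 + (k - 2 * j) * w) (h2 : 1 + 4 * j * w ≤ 2 * j * a) : Concl k m a s e := by
  have hj : (0 : ℝ) ≤ j := Nat.cast_nonneg j
  have h3 : (k - 6 * j) * (w - e) ≤ (k - 6 * j) * s := mul_le_mul_of_nonneg_left hs (by linarith)
  have h4 : (k - 2 * j) * (w - e) ≤ (k - 2 * j) * s := mul_le_mul_of_nonneg_left hs (by linarith)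
  have h5 : 0 ≤ j * e := mul_nonneg hj he
  refine ⟨j, by linarith, by nlinarith, Or.inl (by nlinarith)⟩

/-- mean value case -/
theorem concl_mv {k m a s e : ℝ} (j : ℕ) (hk : 2 * (j : ℝ) ≤ k) (he : 0 ≤ e) (ha : 0 ≤ a) (hs : -e ≤ s)
    (h1 : m ≤ j) (h2 : a * j ≤ 1) : Concl k m a s e := by
  have hj : (0 : ℝ) ≤ j := Nat.cast_nonneg j
  have h4 : (k - 2 * j) * (-e) ≤ (k - 2 * j) * s := mul_le_mul_of_nonneg_left hs (by linarith)
  have h5 : 0 ≤ j * e := mul_nonneg hj he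
  have h6 : a * m ≤ a * j := mul_le_mul_of_nonneg_left h1 ha
  refine ⟨j, by linarith, by nlinarith, Or.inr (by nlinarith)⟩

/-- a function linear in `a` is nonnegative between two points where it is nonnegative -/
theorem lin_between {A B a a1 a2 : ℝ} (h1 : a1 ≤ a) (h2 : a ≤ a2) (e1 : 0 ≤ A + B * a1) (e2 : 0 ≤ A + B * a2) :
    0 ≤ A + B * a := by
  rcases le_total 0 B with h | h
  · nlinarith
  · nlinarith

end Pool.Agent.Lib.PR
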