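import Pool.Agent.Lib.PR.OD

/-!
# PR / OH: the arithmetic of the exponents for Heath-Brown's form of the derivative test, all `k ≥ 18`

`HH k q` is the corner value at `(q+1)/(q^2+1)`, `RecH k m` says that `m` is at most all the corner values.  On `[1/Q, 1/(Q-1)]` the
power `j = ⌈Q/2⌉` is used, with the test of order `Q + 1` up to `(Q+1)/(Q^2+1)` and of order `Q` after it.
-/

set_option autoImplicit false

namespace Pool.Agent.Lib.PR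

/-- the corner value at `(q+1)/(q^2+1)` -/
noncomputable def HH (k : ℝ) (q : ℕ) : ℝ := (k + (q : ℝ) ^ 3 - ((q % 2 : ℕ) : ℝ)) / ((q : ℝ) * (q + 1))

/-- `m` is at most all the corner values -/
def RecH (k m : ℝ) : Prop :=
  m ≤ (k + 30) / 12 ∧ m ≤ (k + 56) / 18 ∧ m ≤ (k + 66) / 20 ∧ ∀ q : ℕ, 5 ≤ q → m ≤ HH k q

/-- the saving of Heath-Brown's test of order `q` -/
noncomputable def hb (q : ℕ) (a : ℝ) : ℝ :=
  min (((q : ℝ) * a - 1) / ((q : ℝ) * (q - 1))) (min (a / ((q : ℝ) * (q - 1))) (2 / ((q : ℝ) ^ 2 * (q - 1))))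

private theorem oh_three {q : ℕ} {a : ℝ} (hq : 2 ≤ q) (h : q * a ≤ 2) : a / ((q : ℝ) * (q - 1)) ≤ 2 / ((q : ℝ) ^ 2 * (q - 1)) := by
  have h2 : (2 : ℝ) ≤ q := by exact_mod_cast hq
  have h3 : (0 : ℝ) < q - 1 := by linarith
  rw [div_le_div_iff₀ (by positivity) (by positivity)]
  nlinarith [mul_le_mul_of_nonneg_right h (show (0 : ℝ) ≤ q * (q - 1) by positivity)]

theorem hb_flat {q : ℕ} {a : ℝ} (hq : 2 ≤ q) (h1 : 1 ≤ ((q : ℝ) - 1) * a) (h2 : q * a ≤ 2) :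
    a / ((q : ℝ) * (q - 1)) ≤ hb q a := by
  have hq2 : (2 : ℝ) ≤ q := by exact_mod_cast hq
  have h3 : (0 : ℝ) < q * (q - 1) := mul_pos (by linarith) (by linarith)
  refine le_min ?_ (le_min le_rfl (oh_three hq h2))
  exact div_le_div_of_nonneg_right (by linarith) h3.le

theorem hb_rise {q : ℕ} {a : ℝ} (hq : 2 ≤ q) (h1 : ((q : ℝ) - 1) * a ≤ 1) :
    ((q : ℝ) * a - 1) / ((q : ℝ) * (q - 1)) ≤ hb q a := by
  have hq2 : (2 : ℝ) ≤ q := by exact_mod_cast hq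
  have h3 : (0 : ℝ) < q * (q - 1) := mul_pos (by linarith) (by linarith)
  have h4 : ((q : ℝ) * a - 1) / ((q : ℝ) * (q - 1)) ≤ a / ((q : ℝ) * (q - 1)) :=
    div_le_div_of_nonneg_right (by linarith) h3.le
  refine le_min le_rfl (le_min h4 (h4.trans (oh_three hq ?_)))
  have h5 : q * (((q : ℝ) - 1) * a) ≤ q * 1 := mul_le_mul_of_nonneg_left h1 (by linarith)
  nlinarith

/-- Halász-Montgomery-Huxley with the power `j` on an interval where the saving is linear -/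
theorem concl_lin {k m a s e : ℝ} (j : ℕ) (c d a1 a2 : ℝ) (hk : 6 * (j : ℝ) ≤ k) (he : 0 ≤ e) (hs : c * a + d - e ≤ s)
    (l1 : a1 ≤ a) (l2 : a ≤ a2)
    (p1 : a1 * m ≤ 1 + (k - 2 * j) * (c * a1 + d)) (p2 : a2 * m ≤ 1 + (k - 2 * j) * (c * a2 + d))
    (r1 : a1 * (m - 2 * j) ≤ (k - 6 * j) * (c * a1 + d)) (r2 : a2 * (m - 2 * j) ≤ (k - 6 * j) * (c * a2 + d)) :
    Concl k m a s e := by
  have hj : (0 : ℝ) ≤ j := Nat.cast_nonneg j
  have h3 : (k - 6 * j) * (c * a + d - e) ≤ (k - 6 * j) * s := mul_le_mul_of_nonneg_left hs (by linarith)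
  have h4 : (k - 2 * j) * (c * a + d - e) ≤ (k - 2 * j) * s := mul_le_mul_of_nonneg_left hs (by linarith)
  have h5 : 0 ≤ j * e := mul_nonneg hj he
  have h6 := lin_between (A := 1 + (k - 2 * j) * d) (B := (k - 2 * j) * c - m) l1 l2 (by linarith) (by linarith)
  have h7 := lin_between (A := (k - 6 * j) * d) (B := (k - 6 * j) * c - (m - 2 * j)) l1 l2 (by linarith) (by linarith)
  refine ⟨j, by linarith, by linarith, Or.inl (by linarith)⟩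

/-- the interval `[1/Q, (Q+1)/(Q^2+1)]`, order `Q + 1` -/
theorem ohFlat {k m a s e : ℝ} (Q : ℕ) (hQ : 5 ≤ Q) (hk : 3 * ((Q : ℝ) + 1) ≤ k) (he : 0 ≤ e) (hm : m ≤ HH k Q)
    (l1 : 1 / (Q : ℝ) ≤ a) (l2 : a ≤ ((Q : ℝ) + 1) / ((Q : ℝ) ^ 2 + 1)) (hs : hb (Q + 1) a - e ≤ s) : Concl k m a s e := by
  have hQ5 : (5 : ℝ) ≤ Q := by exact_mod_cast hQ
  have hQ0 : (0 : ℝ) < Q := by linarith
  obtain ⟨j, p, hjp, hp0, hp1⟩ : ∃ j p : ℕ, 2 * j = Q + p ∧ p = Q % 2 ∧ p ≤ 1 := ⟨(Q + 1) / 2, Q % 2, by omega, rfl, by omega⟩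
  have hjp' : 2 * (j : ℝ) = Q + p := by exact_mod_cast hjp
  have hp : (0 : ℝ) ≤ p := Nat.cast_nonneg p
  have hp1' : (p : ℝ) ≤ 1 := by exact_mod_cast hp1
  have hm' : m * ((Q : ℝ) * (Q + 1)) ≤ k + (Q : ℝ) ^ 3 - p := by
    unfold HH at hm
    rwa [le_div_iff₀ (by positivity), ← hp0] at hm
  have h1 : 1 ≤ (((Q + 1 : ℕ) : ℝ) - 1) * a := by
    push_cast
    rw [div_le_iff₀ hQ0] at l1
    linarith
  have h2 : ((Q + 1 : ℕ) : ℝ) * a ≤ 2 := by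
    push_cast
    have : ((Q : ℝ) + 1) * a ≤ (Q + 1) * (((Q : ℝ) + 1) / ((Q : ℝ) ^ 2 + 1)) := mul_le_mul_of_nonneg_left l2 (by linarith)
    refine this.trans ?_
    rw [mul_div_assoc', div_le_iff₀ (by positivity)]
    nlinarith [sq_nonneg ((Q : ℝ) - 1)]
  have h3 := hb_flat (q := Q + 1) (by omega) h1 h2
  have hs' : 1 / ((Q : ℝ) * (Q + 1)) * a + 0 - e ≤ s := by
    have e1 : 1 / ((Q : ℝ) * (Q + 1)) * a = a / (((Q + 1 : ℕ) : ℝ) * (((Q + 1 : ℕ) : ℝ) - 1)) := by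
      push_cast
      rw [one_div, div_eq_inv_mul]
      ring_nf
    linarith
  have hB : m - 2 * j ≤ (k - 6 * j) * (1 / ((Q : ℝ) * (Q + 1))) := by
    rw [mul_one_div, le_div_iff₀ (by positivity)]
    nlinarith [mul_nonneg hp hQ0.le, mul_nonneg (mul_nonneg hp hQ0.le) hQ0.le, mul_self_nonneg (Q : ℝ)]
  refine concl_lin j (1 / ((Q : ℝ) * (Q + 1))) 0 (1 / (Q : ℝ)) (((Q : ℝ) + 1) / ((Q : ℝ) ^ 2 + 1)) (by linarith) he hs' l1 l2 ?_ ?_ ?_ ?_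
  · have e1 : 1 + (k - 2 * j) * (1 / ((Q : ℝ) * (Q + 1)) * (1 / (Q : ℝ)) + 0) - 1 / (Q : ℝ) * m =
        ((Q : ℝ) ^ 2 * (Q + 1) + (k - 2 * j) - m * (Q * (Q + 1))) / ((Q : ℝ) ^ 2 * (Q + 1)) := by
      field_simp
      ring
    have e2 : 0 ≤ ((Q : ℝ) ^ 2 * (Q + 1) + (k - 2 * j) - m * (Q * (Q + 1))) / ((Q : ℝ) ^ 2 * (Q + 1)) := by
      refine div_nonneg ?_ (by positivity)
      nlinarith [mul_self_nonneg (Q : ℝ)]
    linarith
  · have e1 : 1 + (k - 2 * j) * (1 / ((Q : ℝ) * (Q + 1)) * (((Q : ℝ) + 1) / ((Q : ℝ) ^ 2 + 1)) + 0) -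
        ((Q : ℝ) + 1) / ((Q : ℝ) ^ 2 + 1) * m =
        ((Q : ℝ) ^ 3 + Q + (k - 2 * j) - m * (Q * (Q + 1))) / ((Q : ℝ) * ((Q : ℝ) ^ 2 + 1)) := by
      field_simp
      ring
    have e2 : 0 ≤ ((Q : ℝ) ^ 3 + Q + (k - 2 * j) - m * (Q * (Q + 1))) / ((Q : ℝ) * ((Q : ℝ) ^ 2 + 1)) := by
      refine div_nonneg ?_ (by positivity)
      linarith
    linarith
  · have := mul_le_mul_of_nonneg_left hB (show 0 ≤ 1 / (Q : ℝ) by positivity)
    linarith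
  · have := mul_le_mul_of_nonneg_left hB (show 0 ≤ ((Q : ℝ) + 1) / ((Q : ℝ) ^ 2 + 1) by positivity)
    linarith

/-- the interval `[(Q+1)/(Q^2+1), 1/(Q-1)]`, order `Q` -/
theorem ohRise {k m a s e : ℝ} (Q : ℕ) (hQ : 5 ≤ Q) (hk : 3 * ((Q : ℝ) + 1) ≤ k) (he : 0 ≤ e) (hm : m ≤ HH k Q)
    (hm2 : m * ((Q : ℝ) * (Q - 1)) ≤ k + ((Q : ℝ) - 1) ^ 2 * Q - Q - 1)
    (l1 : ((Q : ℝ) + 1) / ((Q : ℝ) ^ 2 + 1) ≤ a) (l2 : a ≤ 1 / ((Q : ℝ) - 1)) (hs : hb Q a - e ≤ s) : Concl k m a s e := by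
  have hQ5 : (5 : ℝ) ≤ Q := by exact_mod_cast hQ
  have hQ0 : (0 : ℝ) < Q := by linarith
  have hQ1 : (0 : ℝ) < Q - 1 := by linarith
  obtain ⟨j, p, hjp, hp0, hp1⟩ : ∃ j p : ℕ, 2 * j = Q + p ∧ p = Q % 2 ∧ p ≤ 1 := ⟨(Q + 1) / 2, Q % 2, by omega, rfl, by omega⟩
  have hjp' : 2 * (j : ℝ) = Q + p := by exact_mod_cast hjp
  have hp : (0 : ℝ) ≤ p := Nat.cast_nonneg p
  have hp1' : (p : ℝ) ≤ 1 := by exact_mod_cast hp1
  have hm' : m * ((Q : ℝ) * (Q + 1)) ≤ k + (Q : ℝ) ^ 3 - p := by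
    unfold HH at hm
    rwa [le_div_iff₀ (by positivity), ← hp0] at hm
  have h1 : ((Q : ℝ) - 1) * a ≤ 1 := by
    rw [le_div_iff₀ hQ1] at l2
    linarith
  have h3 := hb_rise (q := Q) (by omega) h1
  have hs' : 1 / ((Q : ℝ) - 1) * a + (-(1 / ((Q : ℝ) * (Q - 1)))) - e ≤ s := by
    have e1 : 1 / ((Q : ℝ) - 1) * a + (-(1 / ((Q : ℝ) * (Q - 1)))) = ((Q : ℝ) * a - 1) / ((Q : ℝ) * (Q - 1)) := by
      field_simp
      ring
    linarith
  have w1 : 1 / ((Q : ℝ) - 1) * (((Q : ℝ) + 1) / ((Q : ℝ) ^ 2 + 1)) + (-(1 / ((Q : ℝ) * (Q - 1)))) = 1 / (Q * ((Q : ℝ) ^ 2 + 1)) := by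
    field_simp
    ring
  have w2 : 1 / ((Q : ℝ) - 1) * (1 / ((Q : ℝ) - 1)) + (-(1 / ((Q : ℝ) * (Q - 1)))) = 1 / (Q * ((Q : ℝ) - 1) ^ 2) := by
    field_simp
    ring
  refine concl_lin j (1 / ((Q : ℝ) - 1)) (-(1 / ((Q : ℝ) * (Q - 1)))) (((Q : ℝ) + 1) / ((Q : ℝ) ^ 2 + 1)) (1 / ((Q : ℝ) - 1))
    (by linarith) he hs' l1 l2 ?_ ?_ ?_ ?_
  · rw [w1]
    have e1 : 1 + (k - 2 * j) * (1 / (Q * ((Q : ℝ) ^ 2 + 1))) - ((Q : ℝ) + 1) / ((Q : ℝ) ^ 2 + 1) * m =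
        ((Q : ℝ) ^ 3 + Q + (k - 2 * j) - m * (Q * (Q + 1))) / ((Q : ℝ) * ((Q : ℝ) ^ 2 + 1)) := by
      field_simp
    have e2 : 0 ≤ ((Q : ℝ) ^ 3 + Q + (k - 2 * j) - m * (Q * (Q + 1))) / ((Q : ℝ) * ((Q : ℝ) ^ 2 + 1)) := by
      refine div_nonneg ?_ (by positivity)
      linarith
    linarith
  · rw [w2]
    have e1 : 1 + (k - 2 * j) * (1 / (Q * ((Q : ℝ) - 1) ^ 2)) - 1 / ((Q : ℝ) - 1) * m =
        ((Q : ℝ) * (Q - 1) ^ 2 + (k - 2 * j) - m * (Q * (Q - 1))) / ((Q : ℝ) * ((Q : ℝ) - 1) ^ 2) := by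
      field_simp
    have e2 : 0 ≤ ((Q : ℝ) * (Q - 1) ^ 2 + (k - 2 * j) - m * (Q * (Q - 1))) / ((Q : ℝ) * ((Q : ℝ) - 1) ^ 2) := by
      refine div_nonneg ?_ (by positivity)
      linarith
    linarith
  · rw [w1]
    have e1 : (k - 6 * j) * (1 / (Q * ((Q : ℝ) ^ 2 + 1))) - ((Q : ℝ) + 1) / ((Q : ℝ) ^ 2 + 1) * (m - 2 * j) =
        ((k - 6 * j) - (m - 2 * j) * (Q * (Q + 1))) / ((Q : ℝ) * ((Q : ℝ) ^ 2 + 1)) := by
      field_simp
    have e2 : 0 ≤ ((k - 6 * j) - (m - 2 * j) * (Q * (Q + 1))) / ((Q : ℝ) * ((Q : ℝ) ^ 2 + 1)) := by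
      refine div_nonneg ?_ (by positivity)
      nlinarith [mul_nonneg hp hQ0.le, mul_nonneg (mul_nonneg hp hQ0.le) hQ0.le, mul_self_nonneg (Q : ℝ)]
    linarith
  · rw [w2]
    have e1 : (k - 6 * j) * (1 / (Q * ((Q : ℝ) - 1) ^ 2)) - 1 / ((Q : ℝ) - 1) * (m - 2 * j) =
        ((k - 6 * j) - (m - 2 * j) * (Q * (Q - 1))) / ((Q : ℝ) * ((Q : ℝ) - 1) ^ 2) := by
      field_simp
    have e2 : 0 ≤ ((k - 6 * j) - (m - 2 * j) * (Q * (Q - 1))) / ((Q : ℝ) * ((Q : ℝ) - 1) ^ 2) := by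
      refine div_nonneg ?_ (by positivity)
      have e3 : 0 ≤ (p : ℝ) * (Q * (Q - 1)) := mul_nonneg hp (mul_nonneg hQ0.le hQ1.le)
      nlinarith [mul_self_nonneg (Q : ℝ)]
    linarith

theorem HH_four {k m : ℝ} (Q : ℕ) (hQ : 6 ≤ Q) (hm : m ≤ HH k (Q - 1)) :
    m * ((Q : ℝ) * (Q - 1)) ≤ k + ((Q : ℝ) - 1) ^ 2 * Q - Q - 1 := by
  obtain ⟨R, rfl⟩ : ∃ R, Q = R + 1 := ⟨Q - 1, by omega⟩
  have hR : (5 : ℝ) ≤ R := by exact_mod_cast (by omega : 5 ≤ R)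
  have hp : (0 : ℝ) ≤ ((R % 2 : ℕ) : ℝ) := Nat.cast_nonneg _
  rw [Nat.add_sub_cancel] at hm
  unfold HH at hm
  rw [le_div_iff₀ (by positivity)] at hm
  push_cast
  nlinarith [mul_self_nonneg (R : ℝ)]

/-- the arithmetic of the exponents -/
theorem optH {k m a s e : ℝ} (hk : 18 ≤ k) (hR : RecH k m) (ha0 : 0 ≤ a) (ha1 : a ≤ 1) (he : 0 ≤ e) (hs0 : -e ≤ s)
    (hv : ∀ q : ℕ, q ≤ 3 → a * ((q : ℝ) + nu q) ≤ 1 → kp q * (((q : ℝ) + 2) * a - 1) - e ≤ s)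
    (hh : ∀ q : ℕ, 4 ≤ q → (q : ℝ) ≤ k → hb q a - e ≤ s) : Concl k m a s e := by
  obtain ⟨g1, g2, g3, g4⟩ := hR
  have n0 : nu 0 = 1 := by unfold nu; norm_num
  have n1 : nu 1 = 1 / 2 := by unfold nu; norm_num
  have n2 : nu 2 = 1 / 4 := by unfold nu; norm_num
  have n3 : nu 3 = 1 / 8 := by unfold nu; norm_num
  have k0 : kp 0 = 1 / 2 := by unfold kp; norm_num
  have k1 : kp 1 = 1 / 6 := by unfold kp; norm_num
  have k2 : kp 2 = 1 / 14 := by unfold kp; norm_num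
  have k3 : kp 3 = 1 / 30 := by unfold kp; norm_num
  rcases le_total (2 / 3) a with h | h
  · have hs := hv 0 (by norm_num) (by rw [n0]; push_cast; linarith)
    rw [k0] at hs
    push_cast at hs
    refine concl_lin 2 1 (-1 / 2) (2 / 3) 1 (by push_cast; linarith) he (by linarith) h ha1 ?_ ?_ ?_ ?_ <;>
      push_cast <;> linarith
  have h' := h
  rcases le_total (4 / 9) a with h | h
  · have hs := hv 1 (by norm_num) (by rw [n1]; push_cast; linarith)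
    rw [k1] at hs
    push_cast at hs
    refine concl_lin 2 (1 / 2) (-1 / 6) (4 / 9) (2 / 3) (by push_cast; linarith) he (by linarith) h h' ?_ ?_ ?_ ?_ <;>
      push_cast <;> linarith
  clear h'
  have h' := h
  rcases le_total (6 / 17) a with h | h
  · have hs := hv 2 (by norm_num) (by rw [n2]; push_cast; linarith)
    rw [k2] at hs
    push_cast at hs
    refine concl_lin 2 (2 / 7) (-1 / 14) (6 / 17) (4 / 9) (by push_cast; linarith) he (by linarith) h h' ?_ ?_ ?_ ?_ <;>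
      push_cast <;> linarith
  clear h'
  have h' := h
  rcases le_total (1 / 3) a with h | h
  · have hs1 := hb_flat (q := 4) (a := a) (by norm_num) (by push_cast; linarith) (by push_cast; linarith)
    have hs2 := hh 4 le_rfl (by push_cast; linarith)
    push_cast at hs1 hs2
    refine concl_lin 2 (1 / 12) 0 (1 / 3) (6 / 17) (by push_cast; linarith) he (by linarith) h h' ?_ ?_ ?_ ?_ <;>
      push_cast <;> linarith
  clear h'
  have h' := h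
  rcases le_total (3 / 10) a with h | h
  · have hs1 := hb_rise (q := 4) (a := a) (by norm_num) (by push_cast; linarith)
    have hs2 := hh 4 le_rfl (by push_cast; linarith)
    push_cast at hs1 hs2
    refine concl_lin 2 (1 / 3) (-1 / 12) (3 / 10) (1 / 3) (by push_cast; linarith) he (by linarith) h h' ?_ ?_ ?_ ?_ <;>
      push_cast <;> linarith
  clear h'
  have h' := h
  rcases le_total (2 / 7) a with h | h
  · have hs := hv 3 (by norm_num) (by rw [n3]; push_cast; linarith)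
    rw [k3] at hs
    push_cast at hs
    refine concl_lin 2 (1 / 6) (-1 / 30) (2 / 7) (3 / 10) (by push_cast; linarith) he (by linarith) h h' ?_ ?_ ?_ ?_ <;>
      push_cast <;> linarith
  clear h'
  have h' := h
  rcases le_total (1 / 4) a with h | h
  · have hs1 := hb_flat (q := 5) (a := a) (by norm_num) (by push_cast; linarith) (by push_cast; linarith)
    have hs2 := hh 5 (by norm_num) (by push_cast; linarith)
    push_cast at hs1 hs2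
    refine concl_lin 2 (1 / 20) 0 (1 / 4) (2 / 7) (by push_cast; linarith) he (by linarith) h h' ?_ ?_ ?_ ?_ <;>
      push_cast <;> linarith
  clear h'
  have h' := h
  rcases le_total (3 / 13) a with h | h
  · refine ohRise 5 le_rfl (by push_cast; linarith) he (g4 5 le_rfl) (by push_cast; linarith) (by push_cast; linarith)
      (by push_cast; linarith) (hh 5 (by norm_num) (by push_cast; linarith))
  clear h'
  -- now `a ≤ 3/13`
  have hM1 : m ≤ (⌈m⌉₊ : ℝ) := Nat.le_ceil m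
  rcases le_or_gt (a * (⌈m⌉₊ : ℝ)) 1 with h1 | h1
  · have hM2 : (⌈m⌉₊ : ℝ) ≤ max m 0 + 1 := by
      rcases le_total m 0 with h2 | h2
      · rw [Nat.ceil_eq_zero.2 h2, Nat.cast_zero]
        linarith [le_max_right m 0]
      · rw [max_eq_left h2]
        exact (Nat.ceil_lt_add_one h2).le
    have hM3 : max m 0 ≤ (k + 30) / 12 := max_le g1 (by linarith)
    exact concl_mv ⌈m⌉₊ (by linarith) he ha0 hs0 hM1 h1
  have ha : 0 < a := by
    rcases ha0.eq_or_lt with h2 | h2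
    · rw [← h2, zero_mul] at h1
      linarith
    · exact h2
  have hm0 : 0 < m := by
    by_contra h2
    rw [Nat.ceil_eq_zero.2 (not_lt.1 h2), Nat.cast_zero, mul_zero] at h1
    linarith
  have hM2 : (⌈m⌉₊ : ℝ) < m + 1 := Nat.ceil_lt_add_one hm0.le
  obtain ⟨Q, hQ⟩ : ∃ Q : ℕ, Q = ⌊1 / a⌋₊ + 1 := ⟨_, rfl⟩
  have h2 : 1 / a < Q := by
    rw [hQ]
    push_cast
    exact Nat.lt_floor_add_one _
  have h3 : (Q : ℝ) - 1 ≤ 1 / a := by
    rw [hQ]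
    push_cast
    have := Nat.floor_le (show 0 ≤ 1 / a by positivity)
    linarith
  have h4 : 1 / a < (⌈m⌉₊ : ℝ) := by
    rw [div_lt_iff₀ ha]
    linarith
  have h5 : Q ≤ ⌈m⌉₊ := by
    have : (Q : ℝ) < (⌈m⌉₊ : ℝ) + 1 := by linarith
    have h6 : Q < ⌈m⌉₊ + 1 := by exact_mod_cast this
    omega
  have h6 : (Q : ℝ) ≤ m + 1 := by
    have : (Q : ℝ) ≤ (⌈m⌉₊ : ℝ) := by exact_mod_cast h5
    linarith
  have h7 : 5 ≤ Q := by
    have e1 : (4 : ℝ) ≤ 1 / a := by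
      rw [le_div_iff₀ ha]
      linarith
    have e2 : 4 ≤ ⌊1 / a⌋₊ := Nat.le_floor (by exact_mod_cast e1)
    omega
  have hQ5 : (5 : ℝ) ≤ Q := by exact_mod_cast h7
  have l1 : 1 / (Q : ℝ) ≤ a := by
    rw [div_le_iff₀ (by linarith)]
    rw [div_lt_iff₀ ha] at h2
    linarith
  have l2 : a ≤ 1 / ((Q : ℝ) - 1) := by
    rw [le_div_iff₀ (by linarith)]
    rw [le_div_iff₀ ha] at h3
    linarith
  have hk3 : 3 * ((Q : ℝ) + 1) ≤ k := by linarith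
  rcases le_total a (((Q : ℝ) + 1) / ((Q : ℝ) ^ 2 + 1)) with h8 | h8
  · exact ohFlat Q h7 hk3 he (g4 Q h7) l1 h8 (hh (Q + 1) (by omega) (by push_cast; linarith))
  · rcases h7.eq_or_lt with h9 | h9
    · subst h9
      refine ohRise 5 le_rfl hk3 he (g4 5 le_rfl) (by push_cast; linarith) h8 l2 (hh 5 (by norm_num) (by push_cast; linarith))
    · exact ohRise Q h7 hk3 he (g4 Q h7) (HH_four Q h9 (g4 (Q - 1) (by omega))) h8 l2 (hh Q (by omega) (by linarith))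

end Pool.Agent.Lib.PR
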