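import Pool.Agent.Lib.PR.PW
import Pool.Agent.Lib.PR.A2

/-!
# PR / PWm (180 lines): the savings from a bound for the unweighted sums (Vinogradov)

PROOF.  Abel summation as in `A2.lean` (copy it): `|D| ≤ N^(-σ) max_M ‖∑_{(N,M]} n^(-it)‖`.  The hypothesis with `ε/2` (`N ≤ T ≤ t`):
`|D| ≤ C N^(1-σ) N^(ε/2) (t^(-x) + (t/N^q)^(1/q^2))`, `x = 1/(q^2(q-1))`; `N^(ε/2) ≤ T^(ε/2)`, `t^(-x) ≤ T^(-x)`,
`(t/N^q)^(1/q^2) ≤ 2 T^((1 - qa)/q^2)` with `N = T^a`, `a = log N/log T`.  Both powers are `≤ T^(-min(x, (qa-1)/q^2))`.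
-/

set_option autoImplicit false

open Finset

namespace Pool.Agent.Lib.PR

private theorem pwm_abel_aux (a : ℕ → ℝ) (z : ℕ → ℂ) (N : ℕ) (B : ℝ)
    (ha : ∀ n, N < n → a (n + 1) ≤ a n) (k : ℕ)
    (hB : ∀ M, N ≤ M → M ≤ N + 1 + k → ‖∑ n ∈ Ioc N M, z n‖ ≤ B) :
    ‖∑ n ∈ Ioc N (N + 1 + k), ((a n : ℝ) : ℂ) * z n -
      ((a (N + 1 + k) : ℝ) : ℂ) * ∑ n ∈ Ioc N (N + 1 + k), z n‖ ≤
      (a (N + 1) - a (N + 1 + k)) * B := by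
  induction k with
  | zero =>
    simp
  | succ k ih =>
    have ih' := ih (fun M h1 h2 => hB M h1 (by omega))
    have e1 : N + 1 + (k + 1) = (N + 1 + k) + 1 := by ring
    rw [e1, Finset.sum_Ioc_succ_top (by omega), Finset.sum_Ioc_succ_top (by omega)]
    have h1 : ‖∑ n ∈ Ioc N (N + 1 + k), z n‖ ≤ B := hB _ (by omega) (by omega)
    have h2 : 0 ≤ a (N + 1 + k) - a (N + 1 + k + 1) := sub_nonneg.2 (ha _ (by omega))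
    have e2 : ∑ n ∈ Ioc N (N + 1 + k), ((a n : ℝ) : ℂ) * z n +
        ((a (N + 1 + k + 1) : ℝ) : ℂ) * z (N + 1 + k + 1) -
        ((a (N + 1 + k + 1) : ℝ) : ℂ) * (∑ n ∈ Ioc N (N + 1 + k), z n + z (N + 1 + k + 1)) =
        (∑ n ∈ Ioc N (N + 1 + k), ((a n : ℝ) : ℂ) * z n -
          ((a (N + 1 + k) : ℝ) : ℂ) * ∑ n ∈ Ioc N (N + 1 + k), z n) +
        (((a (N + 1 + k) - a (N + 1 + k + 1) : ℝ)) : ℂ) * ∑ n ∈ Ioc N (N + 1 + k), z n := by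
      push_cast
      ring
    rw [e2]
    refine (norm_add_le _ _).trans ?_
    rw [norm_mul, Complex.norm_real, Real.norm_of_nonneg h2]
    have h3 := mul_le_mul_of_nonneg_left h1 h2
    linarith

private theorem pwm_abel (a : ℕ → ℝ) (z : ℕ → ℂ) (N M : ℕ) (B : ℝ) (hNM : N < M)
    (ha : ∀ n, N < n → a (n + 1) ≤ a n) (ha0 : ∀ n, 0 ≤ a n)
    (hB : ∀ K, N ≤ K → K ≤ M → ‖∑ n ∈ Ioc N K, z n‖ ≤ B) :
    ‖∑ n ∈ Ioc N M, ((a n : ℝ) : ℂ) * z n‖ ≤ a (N + 1) * B := by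
  obtain ⟨k, rfl⟩ : ∃ k, M = N + 1 + k := ⟨M - (N + 1), by omega⟩
  have h1 := pwm_abel_aux a z N B ha k hB
  have h2 : ‖((a (N + 1 + k) : ℝ) : ℂ) * ∑ n ∈ Ioc N (N + 1 + k), z n‖ ≤ a (N + 1 + k) * B := by
    rw [norm_mul, Complex.norm_real, Real.norm_of_nonneg (ha0 _)]
    exact mul_le_mul_of_nonneg_left (hB _ (by omega) le_rfl) (ha0 _)
  have h3 : ∑ n ∈ Ioc N (N + 1 + k), ((a n : ℝ) : ℂ) * z n =
      (∑ n ∈ Ioc N (N + 1 + k), ((a n : ℝ) : ℂ) * z n -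
        ((a (N + 1 + k) : ℝ) : ℂ) * ∑ n ∈ Ioc N (N + 1 + k), z n) +
      ((a (N + 1 + k) : ℝ) : ℂ) * ∑ n ∈ Ioc N (N + 1 + k), z n := by ring
  rw [h3]
  refine (norm_add_le _ _).trans ?_
  linarith

private theorem pwm_log {T x : ℝ} (hT : 1 < T) (hx : 0 < x) : T ^ (Real.log x / Real.log T) = x := by
  have h := (Real.log_pos hT).ne'
  rw [Real.rpow_def_of_pos (by linarith), mul_div_assoc', mul_div_cancel_left₀ _ h, Real.exp_log hx]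

/-- the powers -/
private theorem pwm_pow (q : ℕ) (hq : 3 ≤ q) {T t ε : ℝ} (hT : 2 ≤ T) {N : ℕ} (hN : 1 ≤ N) (hNT : (N : ℝ) ≤ T) (ht1 : T ≤ t)
    (ht2 : t ≤ 2 * T) (hε : 0 < ε) :
    (N : ℝ) ^ (ε / 2) * (t ^ (-(1 / ((q : ℝ) ^ 2 * (q - 1)))) + (t / (N : ℝ) ^ q) ^ (1 / (q : ℝ) ^ 2)) ≤
      3 * T ^ (ε - min (1 / ((q : ℝ) ^ 2 * (q - 1))) (((q : ℝ) * (Real.log N / Real.log T) - 1) / (q : ℝ) ^ 2)) := by
  have hT1 : 1 ≤ T := by linarith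
  have hT0 : 0 < T := by linarith
  have ht0 : 0 < t := by linarith
  have hN1 : (1 : ℝ) ≤ N := by exact_mod_cast hN
  have hN0 : (0 : ℝ) < N := by linarith
  have hq3 : (3 : ℝ) ≤ q := by exact_mod_cast hq
  obtain ⟨a, ha⟩ : ∃ a : ℝ, a = Real.log N / Real.log T := ⟨_, rfl⟩
  have hNa : T ^ a = N := by
    rw [ha]
    exact pwm_log (by linarith) hN0
  rw [← ha]
  obtain ⟨x, hx⟩ : ∃ x : ℝ, x = 1 / ((q : ℝ) ^ 2 * (q - 1)) := ⟨_, rfl⟩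
  rw [← hx]
  have hx0 : 0 ≤ x := by
    rw [hx]
    have : 0 < (q : ℝ) - 1 := by linarith
    positivity
  obtain ⟨m, hm⟩ : ∃ m : ℝ, m = min x (((q : ℝ) * a - 1) / (q : ℝ) ^ 2) := ⟨_, rfl⟩
  rw [← hm]
  have hm1 : m ≤ x := by
    rw [hm]
    exact min_le_left _ _
  have hm2 : m ≤ ((q : ℝ) * a - 1) / (q : ℝ) ^ 2 := by
    rw [hm]
    exact min_le_right _ _
  have h1 : (N : ℝ) ^ (ε / 2) ≤ T ^ ε :=
    (Real.rpow_le_rpow hN0.le hNT (by positivity)).trans (Real.rpow_le_rpow_of_exponent_le hT1 (by linarith))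
  have h2 : t ^ (-x) ≤ T ^ (-m) :=
    (Real.rpow_le_rpow_of_nonpos hT0 ht1 (by linarith)).trans (Real.rpow_le_rpow_of_exponent_le hT1 (by linarith))
  have hy0 : 0 ≤ 1 / (q : ℝ) ^ 2 := by positivity
  have hy1 : 1 / (q : ℝ) ^ 2 ≤ 1 := by
    rw [div_le_one (by positivity)]
    nlinarith
  have h3 : (t / (N : ℝ) ^ q) ^ (1 / (q : ℝ) ^ 2) ≤ 2 * T ^ (-m) := by
    have e1 : T / (N : ℝ) ^ q = T ^ (1 - (q : ℝ) * a) := by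
      rw [← hNa, ← Real.rpow_natCast, ← Real.rpow_mul hT0.le, Real.rpow_sub hT0, Real.rpow_one, mul_comm a]
    have hNq : 0 < (N : ℝ) ^ q := by positivity
    calc (t / (N : ℝ) ^ q) ^ (1 / (q : ℝ) ^ 2) ≤ (2 * (T / (N : ℝ) ^ q)) ^ (1 / (q : ℝ) ^ 2) := by
          refine Real.rpow_le_rpow (by positivity) ?_ hy0
          rw [← mul_div_assoc]
          exact div_le_div_of_nonneg_right ht2 hNq.le
      _ = 2 ^ (1 / (q : ℝ) ^ 2) * (T ^ (1 - (q : ℝ) * a)) ^ (1 / (q : ℝ) ^ 2) := by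
          rw [e1, Real.mul_rpow (by norm_num) (by positivity)]
      _ ≤ 2 * T ^ (-m) := by
          refine mul_le_mul ?_ ?_ (by positivity) (by norm_num)
          · calc (2 : ℝ) ^ (1 / (q : ℝ) ^ 2) ≤ 2 ^ (1 : ℝ) := Real.rpow_le_rpow_of_exponent_le (by norm_num) hy1
              _ = 2 := Real.rpow_one 2
          · rw [← Real.rpow_mul hT0.le]
            refine Real.rpow_le_rpow_of_exponent_le hT1 ?_
            have e2 : (1 - (q : ℝ) * a) * (1 / (q : ℝ) ^ 2) = -(((q : ℝ) * a - 1) / (q : ℝ) ^ 2) := by ring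
            rw [e2]
            linarith
  have h4 : 0 ≤ t ^ (-x) + (t / (N : ℝ) ^ q) ^ (1 / (q : ℝ) ^ 2) := by positivity
  calc (N : ℝ) ^ (ε / 2) * (t ^ (-x) + (t / (N : ℝ) ^ q) ^ (1 / (q : ℝ) ^ 2)) ≤ T ^ ε * (T ^ (-m) + 2 * T ^ (-m)) :=
        mul_le_mul h1 (add_le_add h2 h3) h4 (by positivity)
    _ = 3 * T ^ (ε - m) := by
        rw [sub_eq_add_neg, Real.rpow_add hT0]
        ring

theorem PW_of_sum (q : ℕ) (hq : 3 ≤ q) {σ : ℝ} (h0 : 0 ≤ σ)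
    (hz : ∀ ε : ℝ, 0 < ε → ∃ C : ℝ, 0 ≤ C ∧ ∀ (N M : ℕ), 1 ≤ N → N ≤ M → M ≤ 2 * N → ∀ t : ℝ, (N : ℝ) ≤ t →
      ‖∑ n ∈ Finset.Ioc N M, (n : ℂ) ^ (-((t : ℂ) * Complex.I))‖ ≤
        C * (N : ℝ) ^ (1 + ε) * (t ^ (-(1 / ((q : ℝ) ^ 2 * (q - 1)))) + (t / (N : ℝ) ^ q) ^ (1 / (q : ℝ) ^ 2))) :
    PW σ (fun a => min (1 / ((q : ℝ) ^ 2 * (q - 1))) (((q : ℝ) * a - 1) / (q : ℝ) ^ 2)) := by
  intro ε hε
  obtain ⟨C, hC, h⟩ := hz (ε / 2) (by positivity)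
  refine ⟨3 * C, by positivity, ?_⟩
  intro T hT N hN hNT φ h1 h2 h3 t ht1 ht2
  have hN0 : (0 : ℝ) < N := by exact_mod_cast hN
  have ht0 : 0 < t := by linarith
  obtain ⟨D, hD⟩ : ∃ D : ℝ, D = t ^ (-(1 / ((q : ℝ) ^ 2 * (q - 1)))) + (t / (N : ℝ) ^ q) ^ (1 / (q : ℝ) ^ 2) := ⟨_, rfl⟩
  have hD0 : 0 ≤ D := by
    rw [hD]
    positivity
  have hB0 : 0 ≤ C * (N : ℝ) ^ (1 + ε / 2) * D := by positivity
  have hanti : ∀ n, N < n → φ (n + 1) * ((n + 1 : ℕ) : ℝ) ^ (-σ) ≤ φ n * (n : ℝ) ^ (-σ) := by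
    intro n hn
    have hn0 : (0 : ℝ) < n := by exact_mod_cast (by omega : 0 < n)
    refine mul_le_mul (h3 (Nat.le_succ n)) ?_ (by positivity) (h1 n)
    exact Real.rpow_le_rpow_of_nonpos hn0 (by exact_mod_cast Nat.le_succ n) (by linarith)
  have key := pwm_abel (fun n => φ n * (n : ℝ) ^ (-σ)) (fun n => (n : ℂ) ^ (-((t : ℂ) * Complex.I))) N (2 * N)
    (C * (N : ℝ) ^ (1 + ε / 2) * D) (by omega) hanti (fun n => mul_nonneg (h1 n) (by positivity))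
    (fun K hK1 hK2 => by
      rw [hD]
      exact h N K hN hK1 hK2 t (by linarith))
  refine key.trans ?_
  have h4 : φ (N + 1) * ((N + 1 : ℕ) : ℝ) ^ (-σ) ≤ (N : ℝ) ^ (-σ) := by
    have h5 : ((N + 1 : ℕ) : ℝ) ^ (-σ) ≤ (N : ℝ) ^ (-σ) :=
      Real.rpow_le_rpow_of_nonpos hN0 (by exact_mod_cast Nat.le_succ N) (by linarith)
    have h6 : (0 : ℝ) ≤ ((N + 1 : ℕ) : ℝ) ^ (-σ) := by positivity
    calc φ (N + 1) * ((N + 1 : ℕ) : ℝ) ^ (-σ) ≤ 1 * ((N + 1 : ℕ) : ℝ) ^ (-σ) :=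
          mul_le_mul_of_nonneg_right (h2 _) h6
      _ ≤ (N : ℝ) ^ (-σ) := by rw [one_mul]; exact h5
  have h8 := pwm_pow q hq hT hN hNT ht1 ht2 hε
  rw [← hD] at h8
  have h9 : (N : ℝ) ^ (-σ) * (C * (N : ℝ) ^ (1 + ε / 2) * D) = C * (N : ℝ) ^ (1 - σ) * ((N : ℝ) ^ (ε / 2) * D) := by
    rw [sub_eq_add_neg, Real.rpow_add hN0 1 (ε / 2), Real.rpow_add hN0 1 (-σ)]
    ring
  calc φ (N + 1) * ((N + 1 : ℕ) : ℝ) ^ (-σ) * (C * (N : ℝ) ^ (1 + ε / 2) * D) ≤ (N : ℝ) ^ (-σ) * (C * (N : ℝ) ^ (1 + ε / 2) * D) :=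
        mul_le_mul_of_nonneg_right h4 hB0
    _ = C * (N : ℝ) ^ (1 - σ) * ((N : ℝ) ^ (ε / 2) * D) := h9
    _ ≤ C * (N : ℝ) ^ (1 - σ) * _ := mul_le_mul_of_nonneg_left h8 (by positivity)
    _ = _ := by ring

end Pool.Agent.Lib.PR
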