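import Pool.Agent.Lib.PR.Z2
import Pool.Agent.Lib.PR.Z3
import Pool.Agent.Lib.MP_bc6037_nt.FO.Per

/-!
# PR / R: the records
-/

set_option autoImplicit false

namespace Pool.Agent.Lib.PR

open Pool.Agent.Lib.MP_bc6037_nt

theorem records (k : ℕ) (hk1 : 18 ≤ k) (hk2 : k ≤ 262) : alpha k ≤ 1 - mm k / k := by
  have hk : (18 : ℝ) ≤ k := by exact_mod_cast hk1
  have hk0 : (0 : ℝ) < k := by linarith
  obtain ⟨h1, h2⟩ := mm_le k hk
  have h3 : 0 < mm k / k := div_pos h1 hk0
  have h4 : mm k / k ≤ 1 / 2 := by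
    rw [div_le_iff₀ hk0]
    linarith
  have h := FO.alpha_le_of_mom (j := k) (σ := 1 - mm k / k) (M := 1) (by linarith) (by linarith) le_rfl
    (mom_of_block (by linarith) (by linarith) (blockMom k hk1 hk2))
  linarith

end Pool.Agent.Lib.PR
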