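import Pool.Agent.Lib.PR.Defs

/-!
# PR / RD: block moments with a general exponent

`BlockMomR k R σ`: `V^k |{t ∈ [T,2T] : |D(t)| ≥ V}| ≤ C T^(R+ε)`; `BlockMom k σ` is the case `R = 1`.
-/

set_option autoImplicit false

open MeasureTheory

namespace Pool.Agent.Lib.PR

/-- the bound for the dyadic blocks, with the exponent `R + ε` -/
def BlockMomR (k : ℕ) (R σ : ℝ) : Prop :=
  ∀ ε : ℝ, 0 < ε → ∃ C : ℝ, 0 ≤ C ∧ ∀ T : ℝ, 1 ≤ T → ∀ N : ℕ, 1 ≤ N → (N : ℝ) ≤ T →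
    ∀ φ : ℕ → ℝ, (∀ n, 0 ≤ φ n) → (∀ n, φ n ≤ 1) → Antitone φ → ∀ V : ℝ, 1 ≤ V →
      V ^ k * (volume {t : ℝ | t ∈ Set.Icc T (2 * T) ∧
        V ≤ ‖∑ n ∈ Finset.Ioc N (2 * N), ((φ n * (n : ℝ) ^ (-σ) : ℝ) : ℂ) *
          (n : ℂ) ^ (-((t : ℂ) * Complex.I))‖}).toReal ≤ C * T ^ (R + ε)

end Pool.Agent.Lib.PR
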