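import Pool.Agent.Lib.PR.ZH
import Pool.Agent.Lib.HB.FB
import Pool.Agent.Lib.ZB.Br

/-!
# PR / RH: the records for all `k ≥ 18`, unconditional
-/

set_option autoImplicit false

namespace Pool.Agent.Lib.PR

open Pool.Agent.Lib.MP_bc6037_nt

theorem hbb (q : ℕ) (hq : 3 ≤ q) : HBB q := fun _ hε => Pool.Agent.Lib.HB.hblk Pool.Agent.Lib.ZB.vmv q hq hε

theorem alpha_le_rec {k : ℕ} (hk : 18 ≤ k) {m : ℝ} (hR : RecH k m) : alpha k ≤ 1 - m / k := alphaAll k hk hR hbb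

end Pool.Agent.Lib.PR
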