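import Pool.Agent.Lib.PR.RH
import Pool.Agent.Lib.PR.PWJ
import Pool.Agent.Lib.HC.BJ

/-!
# PR / RJ: the new derivative estimate for zeta sums in the form used here, unconditional
-/

set_option autoImplicit false

namespace Pool.Agent.Lib.PR

theorem hjb (q : ℕ) (hq : 4 ≤ q) : HJB q := fun _ hε => Pool.Agent.Lib.HC.hblkJ Pool.Agent.Lib.ZB.vmv q hq hε

end Pool.Agent.Lib.PR
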