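import Pool.Agent.Lib.MP_bc6037_nt.Smooth

/-!
# PR / TL (150 lines): the value at a point from the integrals over two vertical lines

PROOF.  `s = σ + iu`, `F' w = F w e^((w-s)^2)`; on the strip `|F' w| ≤ C (1+|v|)^n e^(r^2 - (v-u)^2)` (`v = Im w`) is bounded.
Kernel `K w = 1/(w-s) - 1/(w-s-2r) = -2r/((w-s)(w-s-2r))`.  `G w = dslope F' s w * (-2r/(w-s-2r))`, equal to
`(F' w - F' s) K w` for `w ≠ s`, is holomorphic near the closed strip `|Re w - σ| ≤ r` and `O((1+|Im w|)^(-2))` there, so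
`shift_line` (`Smooth.lean`) gives `∫ G (σ-r+iv) dv = ∫ G (σ+r+iv) dv`.  On the right line (`w = s+r+iy`) `K = 2r/(r^2+y^2)`, integral `2π`
(`integral_univ_inv_one_add_sq`, scaled); on the left line (`w = s-r+iy`) `K = -2r/((-r+iy)(-3r+iy))`,
`|K| ≤ 2r/(3r^2+y^2)` (as `(r²+y²)(9r²+y²) ≥ (3r²+y²)²`), integral of the bound `2π/√3`.  So
`|F s| (2π - 2π/√3) ≤ (2/r) e^(r^2) ∫ (|F| on both lines) e^(-(v-u)^2) dv` (`|K| ≤ 2/r` on both lines).
(In the file: everything is first moved to `s = 0`.)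
-/

set_option autoImplicit false

open MeasureTheory Complex Pool.Agent.Lib.MP_bc6037_nt.Perron

namespace Pool.Agent.Lib.PR

/-- the Cauchy kernel -/
private theorem tl_ker {r c : ℝ} (hc : 0 < c) : Integrable (fun y : ℝ => 2 * r / (c ^ 2 + y ^ 2)) ∧
    ∫ y : ℝ, 2 * r / (c ^ 2 + y ^ 2) = 2 * Real.pi * r / c := by
  have e : (fun y : ℝ => 2 * r / (c ^ 2 + y ^ 2)) = fun y => (2 * r / c ^ 2) * (1 + (c⁻¹ * y) ^ 2)⁻¹ := by
    ext y
    have h1 : (0 : ℝ) < c ^ 2 + y ^ 2 := by positivity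
    have h2 : (0 : ℝ) < 1 + (c⁻¹ * y) ^ 2 := by positivity
    field_simp
  have hi : Integrable fun y : ℝ => (1 + (c⁻¹ * y) ^ 2)⁻¹ :=
    (integrable_inv_one_add_sq).comp_mul_left' (by positivity)
  refine ⟨by rw [e]; exact hi.const_mul _, ?_⟩
  rw [e, integral_const_mul]
  have h1 := Measure.integral_comp_mul_left (fun x : ℝ => (1 + x ^ 2)⁻¹) c⁻¹
  rw [h1, integral_univ_inv_one_add_sq, inv_inv, abs_of_pos hc, smul_eq_mul]
  field_simp

/-- the polynomial factor is absorbed -/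
private theorem tl_abs (n : ℕ) (y : ℝ) : (1 + |y|) ^ n * Real.exp (-y ^ 2) ≤
    Real.exp ((n : ℝ) ^ 2 / 2) * Real.exp (-(1 / 2) * y ^ 2) := by
  have h1 : (1 + |y|) ^ n ≤ Real.exp (n * |y|) := by
    rw [Real.exp_nat_mul]
    refine pow_le_pow_left₀ (by positivity) ?_ n
    have := Real.add_one_le_exp |y|
    linarith
  calc (1 + |y|) ^ n * Real.exp (-y ^ 2) ≤ Real.exp (n * |y|) * Real.exp (-y ^ 2) :=
        mul_le_mul_of_nonneg_right h1 (Real.exp_pos _).le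
    _ = Real.exp (n * |y| + -y ^ 2) := (Real.exp_add _ _).symm
    _ ≤ Real.exp ((n : ℝ) ^ 2 / 2 + -(1 / 2) * y ^ 2) := by
        refine Real.exp_le_exp.2 ?_
        have h2 : y ^ 2 = |y| ^ 2 := (sq_abs y).symm
        rw [h2]
        nlinarith [sq_nonneg (|y| - n)]
    _ = _ := Real.exp_add _ _

/-- the case of the point zero -/
private theorem tl_zero {H : ℂ → ℂ} {σ r : ℝ} (hr : 0 < r) (hσ : r < σ) (hH : DifferentiableOn ℂ H {z : ℂ | -σ < z.re})
    {C : ℝ} {n : ℕ} (hb : ∀ z : ℂ, -r ≤ z.re → z.re ≤ r → ‖H z‖ ≤ C * (1 + |z.im|) ^ n) :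
    ‖H 0‖ * (2 * Real.pi - 2 * Real.pi / Real.sqrt 3) ≤ (2 / r * Real.exp (r ^ 2)) *
      ∫ v : ℝ, (‖H (((-r : ℝ) : ℂ) + v * I)‖ + ‖H ((r : ℂ) + v * I)‖) * Real.exp (-v ^ 2) := by
  have hC : 0 ≤ C := by
    have h1 := hb 0 (by simp [hr.le]) (by simp [hr.le])
    simp only [Complex.zero_im, abs_zero, add_zero, one_pow, mul_one] at h1
    exact (norm_nonneg _).trans h1
  set P : ℂ → ℂ := fun z => H z * Complex.exp (z ^ 2) with hP
  set U : Set ℂ := {z | -σ < z.re ∧ z.re < 2 * r} with hU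
  have hUo : IsOpen U := (isOpen_lt continuous_const Complex.continuous_re).inter
    (isOpen_lt Complex.continuous_re continuous_const)
  have hstrip : ∀ z : ℂ, -r ≤ z.re → z.re ≤ r → z ∈ U := fun z h1 h2 => ⟨by linarith, by linarith⟩
  have h0U : (0 : ℂ) ∈ U := hstrip 0 (by simp [hr.le]) (by simp [hr.le])
  have hPd : DifferentiableOn ℂ P U := by
    refine DifferentiableOn.mul (hH.mono fun z hz => hz.1) ?_
    exact (by fun_prop : Differentiable ℂ fun z : ℂ => Complex.exp (z ^ 2)).differentiableOn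
  have hPn : ∀ z : ℂ, -r ≤ z.re → z.re ≤ r → ‖P z‖ ≤ ‖H z‖ * (Real.exp (r ^ 2) * Real.exp (-z.im ^ 2)) := by
    intro z h1 h2
    rw [hP]
    simp only
    rw [norm_mul, Complex.norm_exp]
    refine mul_le_mul_of_nonneg_left ?_ (norm_nonneg _)
    rw [← Real.exp_add]
    refine Real.exp_le_exp.2 ?_
    have e : (z ^ 2).re = z.re ^ 2 - z.im ^ 2 := by rw [pow_two, Complex.mul_re]; ring
    rw [e]
    nlinarith
  set B : ℝ := C * Real.exp (r ^ 2) * Real.exp ((n : ℝ) ^ 2 / 2) with hB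
  have hB0 : 0 ≤ B := by rw [hB]; positivity
  have hPB : ∀ z : ℂ, -r ≤ z.re → z.re ≤ r → ‖P z‖ ≤ B := by
    intro z h1 h2
    refine (hPn z h1 h2).trans ?_
    have h3 := tl_abs n z.im
    have h4 : Real.exp (-(1 / 2) * z.im ^ 2) ≤ 1 := by
      rw [Real.exp_le_one_iff]
      nlinarith [sq_nonneg z.im]
    calc ‖H z‖ * (Real.exp (r ^ 2) * Real.exp (-z.im ^ 2))
        ≤ (C * (1 + |z.im|) ^ n) * (Real.exp (r ^ 2) * Real.exp (-z.im ^ 2)) :=
          mul_le_mul_of_nonneg_right (hb z h1 h2) (by positivity)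
      _ = C * Real.exp (r ^ 2) * ((1 + |z.im|) ^ n * Real.exp (-z.im ^ 2)) := by ring
      _ ≤ C * Real.exp (r ^ 2) * (Real.exp ((n : ℝ) ^ 2 / 2) * 1) := by
          refine mul_le_mul_of_nonneg_left (h3.trans ?_) (by positivity)
          exact mul_le_mul_of_nonneg_left h4 (Real.exp_pos _).le
      _ = B := by rw [hB]; ring
  -- the function `G`
  set G : ℂ → ℂ := fun z => dslope P 0 z * (-2 * r / (z - 2 * r)) with hG
  have hden : ∀ z ∈ U, z - 2 * (r : ℂ) ≠ 0 := by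
    intro z hz h
    have h1 : z.re = 2 * r := by
      have h2 := congrArg Complex.re h
      simp at h2
      linarith
    exact absurd hz.2 (by rw [h1]; exact lt_irrefl _)
  have hGd : DifferentiableOn ℂ G U := by
    refine DifferentiableOn.mul ((Complex.differentiableOn_dslope (hUo.mem_nhds h0U)).2 hPd) ?_
    refine DifferentiableOn.div (differentiableOn_const _) ?_ hden
    exact (by fun_prop : Differentiable ℂ fun z : ℂ => z - 2 * (r : ℂ)).differentiableOn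
  have hGe : ∀ z : ℂ, z ≠ 0 → G z = (P z - P 0) * (-2 * r / (z * (z - 2 * r))) := by
    intro z hz
    rw [hG]
    simp only
    rw [dslope_of_ne _ hz, slope_def_field, sub_zero, div_mul_div_comm, mul_div_assoc]
  -- the bound of `G`
  have hcomp : IsCompact {z : ℂ | (-r ≤ z.re ∧ z.re ≤ r) ∧ (-1 ≤ z.im ∧ z.im ≤ 1)} := by
    have h1 : {z : ℂ | (-r ≤ z.re ∧ z.re ≤ r) ∧ (-1 ≤ z.im ∧ z.im ≤ 1)} = Set.Icc (-r) r ×ℂ Set.Icc (-1) 1 := by
      ext z
      simp [Complex.mem_reProdIm, Set.mem_Icc]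
    rw [h1]
    exact isCompact_Icc.reProdIm isCompact_Icc
  obtain ⟨M, hM⟩ := hcomp.exists_bound_of_continuousOn (f := G) (hGd.continuousOn.mono fun z hz => hstrip z hz.1.1 hz.1.2)
  have hGb : ∀ z : ℂ, -r ≤ z.re → z.re ≤ r → ‖G z‖ ≤ (4 * |M| + 16 * B * r) * (1 + |z.im|) ^ (-2 : ℝ) := by
    intro z h1 h2
    have e1 : (1 + |z.im|) ^ (-2 : ℝ) = ((1 + |z.im|) ^ 2)⁻¹ := by
      rw [Real.rpow_neg (by positivity), Real.rpow_two]
    rw [e1]
    have hp : (0 : ℝ) < (1 + |z.im|) ^ 2 := by positivity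
    rw [← div_eq_mul_inv, le_div_iff₀ hp]
    by_cases hz : |z.im| ≤ 1
    · have h3 : ‖G z‖ ≤ |M| := (hM z ⟨⟨h1, h2⟩, abs_le.1 hz⟩).trans (le_abs_self M)
      have h4 : (1 + |z.im|) ^ 2 ≤ 4 := by nlinarith [abs_nonneg z.im]
      calc ‖G z‖ * (1 + |z.im|) ^ 2 ≤ |M| * 4 := mul_le_mul h3 h4 (by positivity) (abs_nonneg _)
        _ ≤ 4 * |M| + 16 * B * r := by nlinarith [mul_nonneg hB0 hr.le]
    · push Not at hz
      have hz0 : z ≠ 0 := by
        rintro rfl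
        simp at hz
        linarith
      rw [hGe z hz0, norm_mul]
      have h3 : ‖P z - P 0‖ ≤ 2 * B := by
        refine (norm_sub_le _ _).trans ?_
        have := hPB z h1 h2
        have := hPB 0 (by simp [hr.le]) (by simp [hr.le])
        linarith
      have h4 : ‖(-2 * r / (z * (z - 2 * r)) : ℂ)‖ ≤ 2 * r / z.im ^ 2 := by
        rw [norm_div, norm_mul, norm_mul, norm_neg]
        have n1 : |z.im| ≤ ‖z‖ := Complex.abs_im_le_norm z
        have n2 : |z.im| ≤ ‖z - 2 * r‖ := by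
          have := Complex.abs_im_le_norm (z - 2 * r)
          simpa using this
        have n3 : ‖(2 : ℂ)‖ * ‖(r : ℂ)‖ = 2 * r := by
          rw [Complex.norm_real, Real.norm_of_nonneg hr.le]; simp
        rw [n3]
        have n4 : z.im ^ 2 ≤ ‖z‖ * ‖z - 2 * r‖ := by
          rw [← sq_abs, pow_two]
          exact mul_le_mul n1 n2 (abs_nonneg _) (norm_nonneg _)
        exact div_le_div_of_nonneg_left (by positivity) (by rw [← sq_abs]; positivity) n4
      have h5 : (1 + |z.im|) ^ 2 ≤ 4 * z.im ^ 2 := by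
        rw [← sq_abs z.im]
        nlinarith
      have hz2 : (0 : ℝ) < z.im ^ 2 := by rw [← sq_abs]; positivity
      have hz3 : z.im ≠ 0 := by
        intro h
        rw [h] at hz2
        simp at hz2
      calc ‖P z - P 0‖ * ‖(-2 * r / (z * (z - 2 * r)) : ℂ)‖ * (1 + |z.im|) ^ 2
          ≤ (2 * B) * (2 * r / z.im ^ 2) * (4 * z.im ^ 2) := by
            refine mul_le_mul (mul_le_mul h3 h4 (norm_nonneg _) (by positivity)) h5 (by positivity) (by positivity)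
        _ = 16 * B * r := by field_simp; ring
        _ ≤ 4 * |M| + 16 * B * r := by linarith [abs_nonneg M]
  have hline := shift_line (G := G) (a := -r) (b := r) (by linarith) hstrip hGd hUo hGb
  -- the two lines
  have hcont : ∀ c : ℝ, -r ≤ c → c ≤ r → Continuous (fun t : ℝ => H ((c : ℂ) + t * I)) := by
    intro c h1 h2
    rw [continuous_iff_continuousAt]
    intro t
    have hm : ((c : ℂ) + t * I) ∈ {z : ℂ | -σ < z.re} := by
      show -σ < ((c : ℂ) + t * I).re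
      simp
      linarith
    have ho : IsOpen {z : ℂ | -σ < z.re} := isOpen_lt continuous_const Complex.continuous_re
    exact ContinuousAt.comp (f := fun t : ℝ => (c : ℂ) + t * I) (hH.continuousOn.continuousAt (ho.mem_nhds hm)) (by fun_prop)
  have hcontP : ∀ c : ℝ, -r ≤ c → c ≤ r → Continuous (fun t : ℝ => P ((c : ℂ) + t * I)) := by
    intro c h1 h2
    exact (hcont c h1 h2).mul (by fun_prop)
  have hHi : ∀ c : ℝ, -r ≤ c → c ≤ r → Integrable (fun t : ℝ => ‖H ((c : ℂ) + t * I)‖ * Real.exp (-t ^ 2)) := by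
    intro c h1 h2
    have hbase : Integrable fun t : ℝ => C * (Real.exp ((n : ℝ) ^ 2 / 2) * Real.exp (-(1 / 2) * t ^ 2)) :=
      ((integrable_exp_neg_mul_sq (by norm_num : (0 : ℝ) < 1 / 2)).const_mul _).const_mul _
    refine hbase.mono' (((hcont c h1 h2).norm).mul (by fun_prop)).aestronglyMeasurable (ae_of_all _ fun t => ?_)
    rw [Real.norm_of_nonneg (by positivity)]
    have h3 := hb ((c : ℂ) + t * I) (by simpa using h1) (by simpa using h2)
    have h4 : ((c : ℂ) + t * I).im = t := by simp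
    rw [h4] at h3
    calc ‖H ((c : ℂ) + t * I)‖ * Real.exp (-t ^ 2) ≤ (C * (1 + |t|) ^ n) * Real.exp (-t ^ 2) :=
          mul_le_mul_of_nonneg_right h3 (Real.exp_pos _).le
      _ = C * ((1 + |t|) ^ n * Real.exp (-t ^ 2)) := by ring
      _ ≤ _ := mul_le_mul_of_nonneg_left (tl_abs n t) hC
  -- the kernel
  set k : ℂ → ℂ := fun z => -2 * r / (z * (z - 2 * r)) with hk
  have hkR : ∀ t : ℝ, k ((r : ℂ) + t * I) = ((2 * r / (r ^ 2 + t ^ 2) : ℝ) : ℂ) := by
    intro t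
    have h1 : ((r : ℂ) + t * I) * ((r : ℂ) + t * I - 2 * r) = -((r ^ 2 + t ^ 2 : ℝ) : ℂ) := by
      push_cast
      linear_combination (t : ℂ) ^ 2 * Complex.I_sq
    rw [hk]
    simp only
    rw [h1, neg_mul, neg_div_neg_eq]
    push_cast
    ring
  have hkL : ∀ t : ℝ, ‖k (((-r : ℝ) : ℂ) + t * I)‖ ≤ 2 * r / ((Real.sqrt 3 * r) ^ 2 + t ^ 2) := by
    intro t
    have h3 : (Real.sqrt 3 * r) ^ 2 = 3 * r ^ 2 := by rw [mul_pow, Real.sq_sqrt (by norm_num)]
    rw [h3, hk]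
    simp only
    rw [norm_div]
    have n1 : ‖(-2 * (r : ℂ))‖ = 2 * r := by
      rw [norm_mul, norm_neg, Complex.norm_real, Real.norm_of_nonneg hr.le]
      simp
    rw [n1]
    refine div_le_div_of_nonneg_left (by positivity) (by positivity) ?_
    have n2 : ‖(((-r : ℝ) : ℂ) + t * I) * ((((-r : ℝ) : ℂ) + t * I) - 2 * r)‖ ^ 2 = (r ^ 2 + t ^ 2) * (9 * r ^ 2 + t ^ 2) := by
      rw [norm_mul, mul_pow, Complex.sq_norm, Complex.sq_norm, Complex.normSq_apply, Complex.normSq_apply]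
      simp
      ring
    rw [← pow_le_pow_iff_left₀ (by positivity) (norm_nonneg _) two_ne_zero, n2]
    nlinarith [mul_nonneg (sq_nonneg r) (sq_nonneg t)]
  obtain ⟨iR, eR⟩ := tl_ker (r := r) hr
  obtain ⟨iL, eL⟩ := tl_ker (r := r) (c := Real.sqrt 3 * r) (by positivity)
  have hcR : Continuous fun t : ℝ => ((2 * r / (r ^ 2 + t ^ 2) : ℝ) : ℂ) := by
    refine Complex.continuous_ofReal.comp (Continuous.div (by fun_prop) (by fun_prop) fun t => ?_)
    positivity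
  have hcL : Continuous fun t : ℝ => k (((-r : ℝ) : ℂ) + t * I) := by
    rw [hk]
    refine Continuous.div (by fun_prop) (by fun_prop) fun t h => ?_
    rcases mul_eq_zero.1 h with h1 | h1
    · have h2 := congrArg Complex.re h1
      simp at h2
      linarith
    · have h2 := congrArg Complex.re h1
      simp at h2
      linarith
  have hkRi : Integrable fun t : ℝ => ((2 * r / (r ^ 2 + t ^ 2) : ℝ) : ℂ) := iR.ofReal
  have hkLi : Integrable fun t : ℝ => k (((-r : ℝ) : ℂ) + t * I) :=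
    iL.mono' hcL.aestronglyMeasurable (ae_of_all _ hkL)
  have hPR : Integrable fun t : ℝ => P ((r : ℂ) + t * I) * ((2 * r / (r ^ 2 + t ^ 2) : ℝ) : ℂ) := by
    refine (iR.const_mul B).mono' ((hcontP r (by linarith) le_rfl).mul hcR).aestronglyMeasurable (ae_of_all _ fun t => ?_)
    rw [norm_mul, Complex.norm_real, Real.norm_of_nonneg (by positivity)]
    exact mul_le_mul_of_nonneg_right (hPB _ (by simp; linarith) (by simp)) (by positivity)
  have hPL : Integrable fun t : ℝ => P (((-r : ℝ) : ℂ) + t * I) * k (((-r : ℝ) : ℂ) + t * I) := by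
    refine (iL.const_mul B).mono' ((hcontP (-r) le_rfl (by linarith)).mul hcL).aestronglyMeasurable (ae_of_all _ fun t => ?_)
    rw [norm_mul]
    exact mul_le_mul (hPB _ (by simp) (by simp; linarith)) (hkL t) (norm_nonneg _) hB0
  have hR : ∫ t : ℝ, G ((r : ℂ) + t * I) = (∫ t : ℝ, P ((r : ℂ) + t * I) * ((2 * r / (r ^ 2 + t ^ 2) : ℝ) : ℂ)) -
      P 0 * ((2 * Real.pi : ℝ) : ℂ) := by
    have h1 : (fun t : ℝ => G ((r : ℂ) + t * I)) = fun t : ℝ => P ((r : ℂ) + t * I) * ((2 * r / (r ^ 2 + t ^ 2) : ℝ) : ℂ) -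
        P 0 * ((2 * r / (r ^ 2 + t ^ 2) : ℝ) : ℂ) := by
      ext t
      have h2 : ((r : ℂ) + t * I) ≠ 0 := by
        intro h
        have h3 := congrArg Complex.re h
        simp at h3
        linarith
      rw [hGe _ h2, ← sub_mul, ← hkR t]
    rw [h1, integral_sub hPR (hkRi.const_mul _), integral_const_mul, integral_complex_ofReal, eR]
    congr 3
    field_simp
  have hL : ∫ t : ℝ, G (((-r : ℝ) : ℂ) + t * I) = (∫ t : ℝ, P (((-r : ℝ) : ℂ) + t * I) * k (((-r : ℝ) : ℂ) + t * I)) -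
      P 0 * ∫ t : ℝ, k (((-r : ℝ) : ℂ) + t * I) := by
    have h1 : (fun t : ℝ => G (((-r : ℝ) : ℂ) + t * I)) = fun t : ℝ => P (((-r : ℝ) : ℂ) + t * I) * k (((-r : ℝ) : ℂ) + t * I) -
        P 0 * k (((-r : ℝ) : ℂ) + t * I) := by
      ext t
      have h2 : (((-r : ℝ) : ℂ) + t * I) ≠ 0 := by
        intro h
        have h3 := congrArg Complex.re h
        simp at h3
        linarith
      rw [hGe _ h2, ← sub_mul]
    rw [h1, integral_sub hPL (hkLi.const_mul _), integral_const_mul]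
  have hmain : P 0 * (((2 * Real.pi : ℝ) : ℂ) - ∫ t : ℝ, k (((-r : ℝ) : ℂ) + t * I)) =
      (∫ t : ℝ, P ((r : ℂ) + t * I) * ((2 * r / (r ^ 2 + t ^ 2) : ℝ) : ℂ)) -
        ∫ t : ℝ, P (((-r : ℝ) : ℂ) + t * I) * k (((-r : ℝ) : ℂ) + t * I) := by
    rw [hR, hL] at hline
    linear_combination hline
  have hAL : ‖∫ t : ℝ, k (((-r : ℝ) : ℂ) + t * I)‖ ≤ 2 * Real.pi / Real.sqrt 3 := by
    refine (norm_integral_le_of_norm_le iL (ae_of_all _ hkL)).trans (le_of_eq ?_)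
    rw [eL]
    field_simp
  have hlow : 2 * Real.pi - 2 * Real.pi / Real.sqrt 3 ≤ ‖((2 * Real.pi : ℝ) : ℂ) - ∫ t : ℝ, k (((-r : ℝ) : ℂ) + t * I)‖ := by
    have h1 := norm_sub_norm_le ((2 * Real.pi : ℝ) : ℂ) (∫ t : ℝ, k (((-r : ℝ) : ℂ) + t * I))
    rw [Complex.norm_real, Real.norm_of_nonneg (by positivity)] at h1
    linarith
  have hP0 : P 0 = H 0 := by rw [hP]; simp
  have hR2 : ‖∫ t : ℝ, P ((r : ℂ) + t * I) * ((2 * r / (r ^ 2 + t ^ 2) : ℝ) : ℂ)‖ ≤
      (2 / r * Real.exp (r ^ 2)) * ∫ t : ℝ, ‖H ((r : ℂ) + t * I)‖ * Real.exp (-t ^ 2) := by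
    rw [← integral_const_mul]
    refine norm_integral_le_of_norm_le ((hHi r (by linarith) le_rfl).const_mul _) (ae_of_all _ fun t => ?_)
    rw [norm_mul, Complex.norm_real, Real.norm_of_nonneg (by positivity)]
    have h1 := hPn ((r : ℂ) + t * I) (by simp; linarith) (by simp)
    have h2 : ((r : ℂ) + t * I).im = t := by simp
    rw [h2] at h1
    have h3 : 2 * r / (r ^ 2 + t ^ 2) ≤ 2 / r := by
      rw [div_le_div_iff₀ (by positivity) hr]
      nlinarith [sq_nonneg t]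
    calc ‖P ((r : ℂ) + t * I)‖ * (2 * r / (r ^ 2 + t ^ 2)) ≤
          (‖H ((r : ℂ) + t * I)‖ * (Real.exp (r ^ 2) * Real.exp (-t ^ 2))) * (2 / r) :=
          mul_le_mul h1 h3 (by positivity) (by positivity)
      _ = _ := by ring
  have hL2 : ‖∫ t : ℝ, P (((-r : ℝ) : ℂ) + t * I) * k (((-r : ℝ) : ℂ) + t * I)‖ ≤
      (2 / r * Real.exp (r ^ 2)) * ∫ t : ℝ, ‖H (((-r : ℝ) : ℂ) + t * I)‖ * Real.exp (-t ^ 2) := by
    rw [← integral_const_mul]
    refine norm_integral_le_of_norm_le ((hHi (-r) le_rfl (by linarith)).const_mul _) (ae_of_all _ fun t => ?_)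
    rw [norm_mul]
    have h1 := hPn (((-r : ℝ) : ℂ) + t * I) (by simp) (by simp; linarith)
    have h2 : (((-r : ℝ) : ℂ) + t * I).im = t := by simp
    rw [h2] at h1
    have h3 : 2 * r / ((Real.sqrt 3 * r) ^ 2 + t ^ 2) ≤ 2 / r := by
      have h4 : (Real.sqrt 3 * r) ^ 2 = 3 * r ^ 2 := by rw [mul_pow, Real.sq_sqrt (by norm_num)]
      rw [h4, div_le_div_iff₀ (by positivity) hr]
      nlinarith [sq_nonneg t, sq_nonneg r]
    calc ‖P (((-r : ℝ) : ℂ) + t * I)‖ * ‖k (((-r : ℝ) : ℂ) + t * I)‖ ≤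
          (‖H (((-r : ℝ) : ℂ) + t * I)‖ * (Real.exp (r ^ 2) * Real.exp (-t ^ 2))) * (2 / r) :=
          mul_le_mul h1 ((hkL t).trans h3) (norm_nonneg _) (by positivity)
      _ = _ := by ring
  have hsplit : ∫ v : ℝ, (‖H (((-r : ℝ) : ℂ) + v * I)‖ + ‖H ((r : ℂ) + v * I)‖) * Real.exp (-v ^ 2) =
      (∫ t : ℝ, ‖H (((-r : ℝ) : ℂ) + t * I)‖ * Real.exp (-t ^ 2)) + ∫ t : ℝ, ‖H ((r : ℂ) + t * I)‖ * Real.exp (-t ^ 2) := by
    rw [← integral_add (hHi (-r) le_rfl (by linarith)) (hHi r (by linarith) le_rfl)]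
    refine integral_congr_ae (ae_of_all _ fun v => ?_)
    simp only
    ring
  rw [hsplit, ← hP0]
  calc ‖P 0‖ * (2 * Real.pi - 2 * Real.pi / Real.sqrt 3) ≤
        ‖P 0‖ * ‖((2 * Real.pi : ℝ) : ℂ) - ∫ t : ℝ, k (((-r : ℝ) : ℂ) + t * I)‖ := mul_le_mul_of_nonneg_left hlow (norm_nonneg _)
    _ = ‖(∫ t : ℝ, P ((r : ℂ) + t * I) * ((2 * r / (r ^ 2 + t ^ 2) : ℝ) : ℂ)) -
        ∫ t : ℝ, P (((-r : ℝ) : ℂ) + t * I) * k (((-r : ℝ) : ℂ) + t * I)‖ := by rw [← norm_mul, hmain]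
    _ ≤ _ := norm_sub_le _ _
    _ ≤ _ := by
        rw [mul_add]
        linarith

theorem two_lines {F : ℂ → ℂ} (hF : DifferentiableOn ℂ F {s : ℂ | 0 < s.re}) {σ r : ℝ} (hr : 0 < r) (hσ : r < σ)
    {C : ℝ} {n : ℕ} (hb : ∀ s : ℂ, σ - r ≤ s.re → s.re ≤ σ + r → ‖F s‖ ≤ C * (1 + |s.im|) ^ n) :
    ∃ K : ℝ, 0 ≤ K ∧ ∀ u : ℝ, ‖F (σ + u * I)‖ ≤
      K * ∫ v : ℝ, (‖F (((σ - r : ℝ) : ℂ) + v * I)‖ + ‖F (((σ + r : ℝ) : ℂ) + v * I)‖) * Real.exp (-(v - u) ^ 2) := by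
  have hD : 0 < 2 * Real.pi - 2 * Real.pi / Real.sqrt 3 := by
    have h1 : (1 : ℝ) < Real.sqrt 3 := by
      rw [show (1 : ℝ) = Real.sqrt 1 by simp]
      exact Real.sqrt_lt_sqrt (by norm_num) (by norm_num)
    have h2 : 2 * Real.pi / Real.sqrt 3 < 2 * Real.pi := div_lt_self (by positivity) h1
    linarith
  refine ⟨(2 / r * Real.exp (r ^ 2)) / (2 * Real.pi - 2 * Real.pi / Real.sqrt 3), by positivity, fun u => ?_⟩
  have hH : DifferentiableOn ℂ (fun z : ℂ => F ((σ : ℂ) + u * I + z)) {z : ℂ | -σ < z.re} := by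
    refine hF.comp (by fun_prop : Differentiable ℂ fun z : ℂ => (σ : ℂ) + u * I + z).differentiableOn fun z hz => ?_
    show 0 < ((σ : ℂ) + u * I + z).re
    have hz' : -σ < z.re := hz
    simp
    linarith
  have hb' : ∀ z : ℂ, -r ≤ z.re → z.re ≤ r → ‖(fun z : ℂ => F ((σ : ℂ) + u * I + z)) z‖ ≤ (|C| * (1 + |u|) ^ n) * (1 + |z.im|) ^ n := by
    intro z h1 h2
    have h3 := hb ((σ : ℂ) + u * I + z) (by simp; linarith) (by simp; linarith)
    have h4 : ((σ : ℂ) + u * I + z).im = u + z.im := by simp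
    rw [h4] at h3
    refine h3.trans ?_
    have h5 : (1 + |u + z.im|) ^ n ≤ (1 + |u|) ^ n * (1 + |z.im|) ^ n := by
      rw [← mul_pow]
      refine pow_le_pow_left₀ (by positivity) ?_ n
      have h6 := abs_add_le u z.im
      nlinarith [abs_nonneg u, abs_nonneg z.im, mul_nonneg (abs_nonneg u) (abs_nonneg z.im)]
    calc C * (1 + |u + z.im|) ^ n ≤ |C| * ((1 + |u|) ^ n * (1 + |z.im|) ^ n) :=
          mul_le_mul (le_abs_self C) h5 (by positivity) (abs_nonneg C)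
      _ = _ := by ring
  have h := tl_zero hr hσ hH hb'
  simp only [add_zero] at h
  have e : ∫ v : ℝ, (‖F ((σ : ℂ) + u * I + (((-r : ℝ) : ℂ) + v * I))‖ + ‖F ((σ : ℂ) + u * I + ((r : ℂ) + v * I))‖) * Real.exp (-v ^ 2) =
      ∫ v : ℝ, (‖F (((σ - r : ℝ) : ℂ) + v * I)‖ + ‖F (((σ + r : ℝ) : ℂ) + v * I)‖) * Real.exp (-(v - u) ^ 2) := by
    rw [← integral_add_right_eq_self (fun v : ℝ => (‖F (((σ - r : ℝ) : ℂ) + v * I)‖ + ‖F (((σ + r : ℝ) : ℂ) + v * I)‖) *
      Real.exp (-(v - u) ^ 2)) u]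
    refine integral_congr_ae (ae_of_all _ fun v => ?_)
    have e1 : (σ : ℂ) + u * I + (((-r : ℝ) : ℂ) + v * I) = ((σ - r : ℝ) : ℂ) + ((v + u : ℝ) : ℂ) * I := by push_cast; ring
    have e2 : (σ : ℂ) + u * I + ((r : ℂ) + v * I) = ((σ + r : ℝ) : ℂ) + ((v + u : ℝ) : ℂ) * I := by push_cast; ring
    simp only
    rw [e1, e2, add_sub_cancel_right]
  rw [e] at h
  rw [div_mul_eq_mul_div, le_div_iff₀ hD]
  exact h

end Pool.Agent.Lib.PR
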