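import Mathlib

/-!
# PR / V1 (150 lines): the inequality of van der Corput, sum over the shifts

PROOF. `f n = F n` for `n < N`, `0` for `n ≥ N`; `G m = ∑_{i < R, i ≤ m} f (m - i)` for `m < N + R`.  Every pair
`(n, i)`, `n < N`, `i < R` gives one `m = n + i < N + R`, so `∑_{m < N+R} G m = R ∑_{n < N} F n`.  Cauchy-Schwarz and `R ≤ N`:
`R^2 ‖∑ F‖^2 ≤ (N + R) ∑_m ‖G m‖^2 ≤ 2N ∑_m ‖G m‖^2`.  Expand: `∑_m ‖G m‖^2 = ∑_{i, j < R} ∑_{m ≥ max i j} f (m-i) conj f (m-j)`.
The terms `i = j` give at most `N` each.  For `i < j` put `h = j - i`, `m = n + j`: the inner sum is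
`∑_{n < N-h} F (n+h) conj F n`, of norm `≤ B h`; for `i > j` it is the conjugate of such a sum.  For every `h` there are at most `R`
pairs `i < j < R` with `j - i = h`.  So `∑_m ‖G m‖^2 ≤ R N + 2 R ∑_{1 ≤ h < R} B h`; divide by `R^2`.
-/

set_option autoImplicit false

namespace Pool.Agent.Lib.PR

open Finset

/-- the `i`-th shift of `F` -/
private def V1_g (F : ℕ → ℂ) (N i m : ℕ) : ℂ := if i ≤ m ∧ m < i + N then F (m - i) else 0

private lemma V1_sum (F : ℕ → ℂ) (N R i : ℕ) (hi : i < R) :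
    ∑ m ∈ range (N + R), V1_g F N i m = ∑ n ∈ range N, F n := by
  unfold V1_g
  rw [← sum_filter]
  have h : (range (N + R)).filter (fun m => i ≤ m ∧ m < i + N) = Ico i (i + N) := by
    ext m
    simp only [mem_filter, mem_range, mem_Ico]
    omega
  rw [h, sum_Ico_eq_sum_range, Nat.add_sub_cancel_left]
  exact sum_congr rfl fun n _ => by rw [Nat.add_sub_cancel_left]

private lemma V1_corr (F : ℕ → ℂ) (N R i j : ℕ) (hij : i ≤ j) (hj : j < R) :
    ∑ m ∈ range (N + R), V1_g F N i m * (starRingEnd ℂ) (V1_g F N j m) =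
      ∑ n ∈ range (N - (j - i)), F (n + (j - i)) * (starRingEnd ℂ) (F n) := by
  have h0 : ∀ m, V1_g F N i m * (starRingEnd ℂ) (V1_g F N j m) =
      if j ≤ m ∧ m < i + N then F (m - i) * (starRingEnd ℂ) (F (m - j)) else 0 := by
    intro m
    unfold V1_g
    by_cases h1 : j ≤ m ∧ m < i + N
    · rw [if_pos h1, if_pos (by omega), if_pos (by omega)]
    · rw [if_neg h1]
      by_cases h2 : i ≤ m ∧ m < i + N
      · rw [if_neg (by omega : ¬ (j ≤ m ∧ m < j + N)), map_zero, mul_zero]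
      · rw [if_neg h2, zero_mul]
  rw [sum_congr rfl fun m _ => h0 m, ← sum_filter]
  have h : (range (N + R)).filter (fun m => j ≤ m ∧ m < i + N) = Ico j (i + N) := by
    ext m
    simp only [mem_filter, mem_range, mem_Ico]
    omega
  rw [h, sum_Ico_eq_sum_range, show i + N - j = N - (j - i) by omega]
  refine sum_congr rfl fun n _ => ?_
  rw [Nat.add_sub_cancel_left, show j + n - i = n + (j - i) by omega]

/-- the bound for the correlation of the shifts `i` and `j` -/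
private def V1_b (N : ℕ) (B : ℕ → ℝ) (i j : ℕ) : ℝ := if i < j then B (j - i) else if j < i then B (i - j) else N

private lemma V1_row (N R : ℕ) (B : ℕ → ℝ) (hB0 : ∀ h, 1 ≤ h → h < R → 0 ≤ B h) (i : ℕ) (hi : i < R) :
    ∑ j ∈ range R, V1_b N B i j ≤ N + 2 * ∑ h ∈ Ico 1 R, B h := by
  have h1 : ∑ j ∈ range R, V1_b N B i j = ∑ j ∈ range i, V1_b N B i j + (V1_b N B i i + ∑ j ∈ Ico (i + 1) R, V1_b N B i j) := by
    rw [← sum_range_add_sum_Ico _ hi.le, ← sum_eq_sum_Ico_succ_bot hi]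
  have h2 : V1_b N B i i = N := by simp [V1_b]
  have h3 : ∑ j ∈ range i, V1_b N B i j ≤ ∑ h ∈ Ico 1 R, B h := by
    have e : ∑ j ∈ range i, V1_b N B i j = ∑ h ∈ Ico 1 (i + 1), B h := by
      refine sum_bij' (fun j _ => i - j) (fun h _ => i - h) ?_ ?_ ?_ ?_ ?_
      · intro a ha; simp only [mem_range, mem_Ico] at ha ⊢; omega
      · intro a ha; simp only [mem_range, mem_Ico] at ha ⊢; omega
      · intro a ha; simp only [mem_range] at ha; omega
      · intro a ha; simp only [mem_Ico] at ha; omega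
      · intro a ha
        simp only [mem_range] at ha
        unfold V1_b
        rw [if_neg (by omega), if_pos ha]
    rw [e]
    refine sum_le_sum_of_subset_of_nonneg (Ico_subset_Ico le_rfl (by omega)) fun h hh _ => ?_
    rw [mem_Ico] at hh
    exact hB0 h hh.1 hh.2
  have h4 : ∑ j ∈ Ico (i + 1) R, V1_b N B i j ≤ ∑ h ∈ Ico 1 R, B h := by
    have e : ∑ j ∈ Ico (i + 1) R, V1_b N B i j = ∑ h ∈ Ico 1 (R - i), B h := by
      refine sum_bij' (fun j _ => j - i) (fun h _ => h + i) ?_ ?_ ?_ ?_ ?_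
      · intro a ha; simp only [mem_Ico] at ha ⊢; omega
      · intro a ha; simp only [mem_Ico] at ha ⊢; omega
      · intro a ha; simp only [mem_Ico] at ha; omega
      · intro a ha; omega
      · intro a ha
        simp only [mem_Ico] at ha
        unfold V1_b
        rw [if_pos (by omega)]
    rw [e]
    refine sum_le_sum_of_subset_of_nonneg (Ico_subset_Ico le_rfl (by omega)) fun h hh _ => ?_
    rw [mem_Ico] at hh
    exact hB0 h hh.1 hh.2
  rw [h1, h2]
  linarith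

theorem vdcA (F : ℕ → ℂ) (N R : ℕ) (hF : ∀ n, ‖F n‖ ≤ 1) (hR : 1 ≤ R) (hRN : R ≤ N) (B : ℕ → ℝ)
    (hB : ∀ h, 1 ≤ h → h < R → ‖∑ n ∈ range (N - h), F (n + h) * (starRingEnd ℂ) (F n)‖ ≤ B h) :
    ‖∑ n ∈ range N, F n‖ ^ 2 ≤ 2 * (N : ℝ) ^ 2 / R + 4 * N / R * ∑ h ∈ Ico 1 R, B h := by
  have hB0 : ∀ h, 1 ≤ h → h < R → 0 ≤ B h := fun h h1 h2 => (norm_nonneg _).trans (hB h h1 h2)
  have hR0 : (0 : ℝ) < R := by exact_mod_cast hR
  have hRN' : (R : ℝ) ≤ N := by exact_mod_cast hRN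
  set c : ℕ → ℕ → ℂ := fun i j => ∑ m ∈ range (N + R), V1_g F N i m * (starRingEnd ℂ) (V1_g F N j m) with hc
  set S : ℝ := ∑ h ∈ Ico 1 R, B h with hS
  have hS0 : 0 ≤ S := sum_nonneg fun h hh => by
    rw [mem_Ico] at hh
    exact hB0 h hh.1 hh.2
  -- the correlations
  have hsymm : ∀ i j, ‖c i j‖ = ‖c j i‖ := by
    intro i j
    have : c i j = (starRingEnd ℂ) (c j i) := by
      rw [hc]
      simp only [map_sum, map_mul, Complex.conj_conj]
      exact sum_congr rfl fun m _ => mul_comm _ _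
    rw [this, Complex.norm_conj]
  have hcb : ∀ i ∈ range R, ∀ j ∈ range R, ‖c i j‖ ≤ V1_b N B i j := by
    intro i hi j hj
    rw [mem_range] at hi hj
    unfold V1_b
    rcases lt_trichotomy i j with h | h | h
    · rw [if_pos h, hc]
      dsimp only
      rw [V1_corr F N R i j h.le hj]
      exact hB (j - i) (by omega) (by omega)
    · subst h
      rw [if_neg (lt_irrefl _), if_neg (lt_irrefl _), hc]
      dsimp only
      rw [V1_corr F N R i i le_rfl hi, Nat.sub_self, Nat.sub_zero]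
      refine (norm_sum_le _ _).trans ?_
      have : ∀ n ∈ range N, ‖F (n + 0) * (starRingEnd ℂ) (F n)‖ ≤ 1 := by
        intro n _
        rw [norm_mul, Complex.norm_conj]
        exact mul_le_one₀ (hF _) (norm_nonneg _) (hF _)
      refine (sum_le_sum this).trans ?_
      simp
    · rw [if_neg (by omega), if_pos h, hsymm, hc]
      dsimp only
      rw [V1_corr F N R j i h.le hi]
      exact hB (i - j) (by omega) (by omega)
  -- the sum of the squares
  set G : ℕ → ℂ := fun m => ∑ i ∈ range R, V1_g F N i m with hG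
  have hG1 : ∑ m ∈ range (N + R), G m = R * ∑ n ∈ range N, F n := by
    rw [hG, sum_comm]
    rw [sum_congr rfl fun i hi => V1_sum F N R i (mem_range.mp hi)]
    simp
  have hsq : ((∑ m ∈ range (N + R), ‖G m‖ ^ 2 : ℝ) : ℂ) = ∑ i ∈ range R, ∑ j ∈ range R, c i j := by
    push_cast
    have h1 : ∀ m, ((‖G m‖ : ℝ) : ℂ) ^ 2 = ∑ i ∈ range R, ∑ j ∈ range R, V1_g F N i m * (starRingEnd ℂ) (V1_g F N j m) := by
      intro m
      rw [← Complex.mul_conj', hG]
      dsimp only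
      rw [map_sum, sum_mul_sum]
    rw [sum_congr rfl fun m _ => h1 m, sum_comm]
    refine sum_congr rfl fun i _ => ?_
    rw [sum_comm]
  have hsq2 : ∑ m ∈ range (N + R), ‖G m‖ ^ 2 ≤ R * (N + 2 * S) := by
    have h0 : 0 ≤ ∑ m ∈ range (N + R), ‖G m‖ ^ 2 := sum_nonneg fun m _ => by positivity
    have h1 : ∑ m ∈ range (N + R), ‖G m‖ ^ 2 = ‖∑ i ∈ range R, ∑ j ∈ range R, c i j‖ := by
      rw [← hsq, Complex.norm_real, Real.norm_of_nonneg h0]
    rw [h1]
    calc ‖∑ i ∈ range R, ∑ j ∈ range R, c i j‖ ≤ ∑ i ∈ range R, ‖∑ j ∈ range R, c i j‖ := norm_sum_le _ _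
      _ ≤ ∑ i ∈ range R, ∑ j ∈ range R, ‖c i j‖ := sum_le_sum fun i _ => norm_sum_le _ _
      _ ≤ ∑ i ∈ range R, ∑ j ∈ range R, V1_b N B i j := sum_le_sum fun i hi => sum_le_sum fun j hj => hcb i hi j hj
      _ ≤ ∑ _i ∈ range R, ((N : ℝ) + 2 * S) := sum_le_sum fun i hi => V1_row N R B hB0 i (mem_range.mp hi)
      _ = R * (N + 2 * S) := by rw [sum_const, card_range, nsmul_eq_mul]
  -- Cauchy-Schwarz
  have hcs : ‖∑ m ∈ range (N + R), G m‖ ^ 2 ≤ ((N : ℝ) + R) * ∑ m ∈ range (N + R), ‖G m‖ ^ 2 := by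
    have h1 : ‖∑ m ∈ range (N + R), G m‖ ≤ ∑ m ∈ range (N + R), ‖G m‖ := norm_sum_le _ _
    have h2 := sq_sum_le_card_mul_sum_sq (s := range (N + R)) (f := fun m => ‖G m‖)
    rw [card_range] at h2
    push_cast at h2
    calc ‖∑ m ∈ range (N + R), G m‖ ^ 2 ≤ (∑ m ∈ range (N + R), ‖G m‖) ^ 2 := by gcongr
      _ ≤ _ := h2
  rw [hG1, norm_mul, Complex.norm_natCast, mul_pow] at hcs
  have hN0 : (0 : ℝ) ≤ N := Nat.cast_nonneg _
  have hfin : (R : ℝ) ^ 2 * ‖∑ n ∈ range N, F n‖ ^ 2 ≤ (2 * N) * (R * (N + 2 * S)) := by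
    refine hcs.trans ?_
    have : (0 : ℝ) ≤ R * (N + 2 * S) := by positivity
    calc ((N : ℝ) + R) * ∑ m ∈ range (N + R), ‖G m‖ ^ 2 ≤ (N + R) * (R * (N + 2 * S)) := by gcongr
      _ ≤ (2 * N) * (R * (N + 2 * S)) := by gcongr; linarith
  have hfin2 : 2 * (N : ℝ) ^ 2 / R + 4 * N / R * S = (2 * N) * (R * (N + 2 * S)) / R ^ 2 := by
    field_simp
    ring
  rw [hfin2, le_div_iff₀ (by positivity)]
  linarith

end Pool.Agent.Lib.PR
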