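import Pool.Agent.Lib.PR.Defs
import Pool.Agent.Lib.PR.V1
import Pool.Agent.Lib.G3.Sdt

/-!
# PR / V2 (250 lines): the van der Corput test of order `q + 2`, discrete form

PROOF. Induction on `q`.  `q = 0`: `G3.sdt` (`kp 0 = 1/2`, `nu 0 = 1`, `Real.sqrt_eq_rpow`), `A = 63`.
Step.  Let `A` be the constant for `q`, `κ = kp q`, `κ' = kp (q+1) = κ/(2(1+κ))` (`kp_succ`), `ν = nu q`, `nu (q+1) = ν/2 ≤ 1/2`
(`nu_succ`).  If `lam ≥ 1` the trivial bound `L` is enough.  Let `lam < 1`, `X = lam^(-2κ') ≥ 1`.  If `X > L` then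
`L^(1-ν/2) lam^(-κ') ≥ L^(1/2) X^(1/2) ≥ L`: trivial bound.  Let `X ≤ L`, `R = ⌊X⌋₊`, so `1 ≤ R ≤ L`, `X/2 ≤ R ≤ X`.
`F n = exp (I θ n)`: `F (n+h) conj F n = exp (I (θ (n+h) - θ n))`, and by the induction hypothesis (`VD` of order `q` for
`θ (n+h) - θ n`, length `L - h ≥ 1`, `h lam` in place of `lam`) `B h = A C (L (h lam)^κ + L^(1-ν) (h lam)^(-κ))` works in `vdcA`.
`∑_{1≤h<R} h^κ ≤ R R^κ`, and `∑_{1≤h<R} h^(-κ) ≤ 2 R^(1-κ)` (because `h^(-κ) ≤ 2 (h^(1-κ) - (h-1)^(1-κ))`: `κ ≤ 1/2`; or from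
`h^(-κ) ≤ R^(1/2-κ) h^(-1/2)` and `h^(-1/2) ≤ 2 (√h - √(h-1))`).  So
`|S|^2 ≤ 2 L^2/R + 4 A C (L^2 lam^κ R^κ + 2 L^(2-ν) lam^(-κ) R^(-κ))
  ≤ 4 L^2/X + 4 A C L^2 (lam X)^κ + 16 A C L^(2-ν) (lam X)^(-κ)`, and `1/X = lam^(2κ')`, `(lam X)^κ = lam^(κ(1-2κ')) = lam^(2κ')`
(`κ (1 - 2κ') = 2κ'`).  Hence `|S|^2 ≤ 16 A C (L^2 lam^(2κ') + L^(2-ν) lam^(-2κ')) ≤ (4 A C)^2 (L lam^κ' + L^(1-ν/2) lam^(-κ'))^2`:
the constant for `q + 1` is `4 A`.
-/

set_option autoImplicit false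
set_option maxHeartbeats 1000000

namespace Pool.Agent.Lib.PR

open Finset Complex

private lemma vdq_norm (x : ℝ) : ‖Complex.exp (I * (x : ℂ))‖ = 1 := by
  rw [mul_comm, Complex.norm_exp_ofReal_mul_I]

private lemma vdq_triv (θ : ℕ → ℝ) (L : ℕ) : ‖∑ n ∈ range L, Complex.exp (I * (θ n : ℂ))‖ ≤ L := by
  calc _ ≤ ∑ n ∈ range L, ‖Complex.exp (I * (θ n : ℂ))‖ := norm_sum_le _ _
    _ = ∑ _n ∈ range L, (1 : ℝ) := Finset.sum_congr rfl fun n _ => vdq_norm _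
    _ = L := by simp

private lemma vdq_mulconj (x y : ℝ) : Complex.exp (I * (x : ℂ)) * (starRingEnd ℂ) (Complex.exp (I * (y : ℂ))) =
    Complex.exp (I * ((x - y : ℝ) : ℂ)) := by
  rw [← Complex.exp_conj, ← Complex.exp_add]
  apply congrArg
  rw [map_mul, Complex.conj_I, Complex.conj_ofReal]
  push_cast
  ring

private lemma vdq_inv_sqrt (R : ℕ) : ∑ h ∈ Ico 1 (R + 1), 1 / Real.sqrt h ≤ 2 * Real.sqrt R := by
  induction R with
  | zero => simp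
  | succ R ih =>
    rw [Finset.sum_Ico_succ_top (by omega)]
    have h2 : Real.sqrt R ^ 2 = R := Real.sq_sqrt (Nat.cast_nonneg _)
    have h3 : (0 : ℝ) ≤ ((R + 1 : ℕ) : ℝ) := Nat.cast_nonneg _
    have h4 : Real.sqrt ((R + 1 : ℕ) : ℝ) ^ 2 = R + 1 := by
      rw [Real.sq_sqrt h3]; push_cast; rfl
    have h5 : 0 < Real.sqrt ((R + 1 : ℕ) : ℝ) := Real.sqrt_pos.mpr (by positivity)
    have h6 : 1 / Real.sqrt ((R + 1 : ℕ) : ℝ) ≤ 2 * (Real.sqrt ((R + 1 : ℕ) : ℝ) - Real.sqrt R) := by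
      rw [div_le_iff₀ h5]
      nlinarith [sq_nonneg (Real.sqrt ((R + 1 : ℕ) : ℝ) - Real.sqrt R)]
    linarith

private lemma vdq_sum_neg {κ : ℝ} (h0 : 0 < κ) (h1 : κ ≤ 1 / 2) {R : ℕ} (hR : 1 ≤ R) :
    ∑ h ∈ Ico 1 R, (h : ℝ) ^ (-κ) ≤ 2 * (R : ℝ) ^ (1 - κ) := by
  have hR0 : (0 : ℝ) < R := by exact_mod_cast hR
  calc ∑ h ∈ Ico 1 R, (h : ℝ) ^ (-κ) ≤ ∑ h ∈ Ico 1 R, (R : ℝ) ^ (1 / 2 - κ) * (1 / Real.sqrt h) := by
        apply Finset.sum_le_sum
        intro h hh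
        rw [mem_Ico] at hh
        have hh0 : (0 : ℝ) < h := by exact_mod_cast hh.1
        have hhR : (h : ℝ) ≤ R := by exact_mod_cast hh.2.le
        have e0 : 1 / Real.sqrt h = (h : ℝ) ^ (-(1 / 2) : ℝ) := by
          rw [Real.sqrt_eq_rpow, Real.rpow_neg hh0.le, one_div ((h : ℝ) ^ (1 / 2 : ℝ))]
        have e : (h : ℝ) ^ (-κ) = (h : ℝ) ^ (1 / 2 - κ) * (1 / Real.sqrt h) := by
          rw [e0, ← Real.rpow_add hh0]
          apply congrArg
          ring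
        rw [e]
        have : (h : ℝ) ^ (1 / 2 - κ) ≤ (R : ℝ) ^ (1 / 2 - κ) := Real.rpow_le_rpow hh0.le hhR (by linarith)
        gcongr
    _ = (R : ℝ) ^ (1 / 2 - κ) * ∑ h ∈ Ico 1 R, (1 / Real.sqrt h) := by rw [Finset.mul_sum]
    _ ≤ (R : ℝ) ^ (1 / 2 - κ) * (2 * Real.sqrt R) := by
        have h2 : ∑ h ∈ Ico 1 R, 1 / Real.sqrt h ≤ ∑ h ∈ Ico 1 (R + 1), 1 / Real.sqrt h := by
          apply Finset.sum_le_sum_of_subset_of_nonneg
          · intro x hx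
            rw [mem_Ico] at hx ⊢
            omega
          · intro x _ _
            positivity
        have h3 := h2.trans (vdq_inv_sqrt R)
        gcongr
    _ = 2 * (R : ℝ) ^ (1 - κ) := by
        rw [Real.sqrt_eq_rpow]
        have : (R : ℝ) ^ (1 - κ) = (R : ℝ) ^ (1 / 2 - κ) * (R : ℝ) ^ (1 / 2 : ℝ) := by
          rw [← Real.rpow_add hR0]
          apply congrArg
          ring
        rw [this]
        ring

private lemma vdq_sum_pos {κ : ℝ} (h0 : 0 < κ) {R : ℕ} (hR : 1 ≤ R) :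
    ∑ h ∈ Ico 1 R, (h : ℝ) ^ κ ≤ R * (R : ℝ) ^ κ := by
  have hR0 : (0 : ℝ) < R := by exact_mod_cast hR
  calc ∑ h ∈ Ico 1 R, (h : ℝ) ^ κ ≤ ∑ _h ∈ Ico 1 R, (R : ℝ) ^ κ := by
        apply Finset.sum_le_sum
        intro h hh
        rw [mem_Ico] at hh
        have hh0 : (0 : ℝ) < h := by exact_mod_cast hh.1
        have hhR : (h : ℝ) ≤ R := by exact_mod_cast hh.2.le
        exact Real.rpow_le_rpow hh0.le hhR h0.le
    _ = ((R - 1 : ℕ) : ℝ) * (R : ℝ) ^ κ := by simp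
    _ ≤ R * (R : ℝ) ^ κ := by
        have : ((R - 1 : ℕ) : ℝ) ≤ R := by exact_mod_cast Nat.sub_le _ _
        gcongr

private lemma vdq_end {S P x y : ℝ} (hP : 1 ≤ P) (hx : 0 ≤ x) (hy : 0 ≤ y) (h : S ^ 2 ≤ 16 * P * (x ^ 2 + y ^ 2)) :
    S ≤ 4 * P * (x + y) := by
  have h1 : 0 ≤ x * y := mul_nonneg hx hy
  have h2 : x ^ 2 + y ^ 2 ≤ (x + y) ^ 2 := by nlinarith
  have h3 : 0 ≤ x ^ 2 + y ^ 2 := by positivity
  have h4 : P ≤ P * P := by nlinarith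
  have h5 : S ^ 2 ≤ (4 * P * (x + y)) ^ 2 := by
    calc S ^ 2 ≤ 16 * P * (x ^ 2 + y ^ 2) := h
      _ ≤ 16 * (P * P) * (x + y) ^ 2 := by gcongr
      _ = (4 * P * (x + y)) ^ 2 := by ring
  exact (abs_le_of_sq_le_sq' h5 (by positivity)).2

/-- the numbers in the step -/
private lemma vdq_num {κ κ' ν L lam A C r : ℝ} (hκ0 : 0 < κ) (hκ1 : κ ≤ 1 / 2) (hκ' : 2 * κ' = κ * (1 - 2 * κ'))
    (hL : 1 ≤ L) (hl0 : 0 < lam) (hA : 1 ≤ A) (hC : 1 ≤ C) (hr0 : 0 < r) (hr1 : r ≤ lam ^ (-(2 * κ')))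
    (hr2 : lam ^ (-(2 * κ')) ≤ 2 * r) {S Bs : ℝ} (hS : S ^ 2 ≤ 2 * L ^ 2 / r + 4 * L / r * Bs)
    (hB : Bs ≤ A * C * (L * lam ^ κ * (r * r ^ κ) + L ^ (1 - ν) * lam ^ (-κ) * (2 * r ^ (1 - κ)))) :
    S ≤ 4 * A * C * (L * lam ^ κ' + L ^ (1 - ν / 2) * lam ^ (-κ')) := by
  have hL0 : 0 < L := by linarith
  set a : ℝ := lam ^ κ' with ha
  set b : ℝ := lam ^ (-κ') with hb
  set M : ℝ := L ^ (1 - ν / 2) with hM
  have ha0 : 0 < a := Real.rpow_pos_of_pos hl0 _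
  have hb0 : 0 < b := Real.rpow_pos_of_pos hl0 _
  have hM0 : 0 < M := Real.rpow_pos_of_pos hL0 _
  have ea : lam ^ (2 * κ') = a ^ 2 := by
    rw [ha, ← Real.rpow_natCast, ← Real.rpow_mul hl0.le]
    apply congrArg
    push_cast
    ring
  have eb : lam ^ (-(2 * κ')) = b ^ 2 := by
    rw [hb, ← Real.rpow_natCast, ← Real.rpow_mul hl0.le]
    apply congrArg
    push_cast
    ring
  have eab : a * b = 1 := by
    rw [ha, hb, ← Real.rpow_add hl0]
    simp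
  have eM : L * L ^ (1 - ν) = M ^ 2 := by
    rw [hM, ← Real.rpow_natCast, ← Real.rpow_mul hL0.le]
    nth_rewrite 1 [← Real.rpow_one L]
    rw [← Real.rpow_add hL0]
    apply congrArg
    push_cast
    ring
  rw [eb] at hr1 hr2
  -- `1/r ≤ 2 a^2`
  have t1 : 1 / r ≤ 2 * a ^ 2 := by
    rw [div_le_iff₀ hr0]
    have : a ^ 2 * b ^ 2 = 1 := by rw [← mul_pow, eab, one_pow]
    nlinarith [mul_le_mul_of_nonneg_left hr2 (by positivity : (0 : ℝ) ≤ a ^ 2)]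
  -- `lam^κ r^κ ≤ a^2`
  have t2 : lam ^ κ * r ^ κ ≤ a ^ 2 := by
    calc lam ^ κ * r ^ κ ≤ lam ^ κ * (b ^ 2) ^ κ := by
          have := Real.rpow_le_rpow hr0.le hr1 hκ0.le
          gcongr
      _ = lam ^ κ * lam ^ (-(2 * κ') * κ) := by rw [← eb, ← Real.rpow_mul hl0.le]
      _ = lam ^ (2 * κ') := by
          rw [← Real.rpow_add hl0]
          apply congrArg
          linarith
      _ = a ^ 2 := ea
  have t3 : lam ^ (-κ) * r ^ (-κ) ≤ 2 * b ^ 2 := by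
    have hb2 : 0 < b ^ 2 / 2 := by positivity
    have h1 : r ^ (-κ) ≤ (b ^ 2 / 2) ^ (-κ) :=
      Real.rpow_le_rpow_of_nonpos hb2 (by linarith) (by linarith)
    have h2 : (b ^ 2 / 2) ^ (-κ) = (b ^ 2) ^ (-κ) * 2 ^ κ := by
      rw [Real.div_rpow (by positivity) (by norm_num), Real.rpow_neg (by norm_num : (0 : ℝ) ≤ 2), div_inv_eq_mul]
    have h3 : (2 : ℝ) ^ κ ≤ 2 := by
      calc (2 : ℝ) ^ κ ≤ 2 ^ (1 : ℝ) := Real.rpow_le_rpow_of_exponent_le (by norm_num) (by linarith)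
        _ = 2 := Real.rpow_one _
    have h4 : lam ^ (-κ) * (b ^ 2) ^ (-κ) = b ^ 2 := by
      rw [← eb, ← Real.rpow_mul hl0.le, ← Real.rpow_add hl0]
      apply congrArg
      linarith
    calc lam ^ (-κ) * r ^ (-κ) ≤ lam ^ (-κ) * ((b ^ 2) ^ (-κ) * 2 ^ κ) := by rw [← h2]; gcongr
      _ = (lam ^ (-κ) * (b ^ 2) ^ (-κ)) * 2 ^ κ := by ring
      _ = b ^ 2 * 2 ^ κ := by rw [h4]
      _ ≤ b ^ 2 * 2 := by gcongr
      _ = 2 * b ^ 2 := by ring
  have hrk : r ^ (1 - κ) = r * r ^ (-κ) := by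
    nth_rewrite 2 [← Real.rpow_one r]
    rw [← Real.rpow_add hr0]
    apply congrArg
    ring
  have hAC : 1 ≤ A * C := by nlinarith
  -- the square
  have hsq : S ^ 2 ≤ 16 * (A * C) * ((L * a) ^ 2 + (M * b) ^ 2) := by
    calc S ^ 2 ≤ 2 * L ^ 2 / r + 4 * L / r * Bs := hS
      _ ≤ 2 * L ^ 2 / r + 4 * L / r *
          (A * C * (L * lam ^ κ * (r * r ^ κ) + L ^ (1 - ν) * lam ^ (-κ) * (2 * r ^ (1 - κ)))) := by gcongr
      _ = 2 * L ^ 2 * (1 / r) + 4 * (A * C) * (L ^ 2 * (lam ^ κ * r ^ κ) +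
            2 * (L * L ^ (1 - ν)) * (lam ^ (-κ) * r ^ (-κ))) := by
          rw [hrk]
          field_simp
      _ ≤ 2 * L ^ 2 * (2 * a ^ 2) + 4 * (A * C) * (L ^ 2 * a ^ 2 + 2 * (L * L ^ (1 - ν)) * (2 * b ^ 2)) := by
          have : 0 ≤ L * L ^ (1 - ν) := by rw [eM]; positivity
          gcongr
      _ = 4 * (L * a) ^ 2 + 4 * (A * C) * ((L * a) ^ 2) + 16 * (A * C) * (M * b) ^ 2 := by
          rw [eM]
          ring
      _ ≤ 16 * (A * C) * ((L * a) ^ 2 + (M * b) ^ 2) := by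
          have : 0 ≤ (L * a) ^ 2 := by positivity
          nlinarith
  have hfin := vdq_end hAC (by positivity) (by positivity) hsq
  rw [show 4 * A * C = 4 * (A * C) by ring]
  exact hfin

theorem vdq (q : ℕ) : ∃ A : ℝ, 1 ≤ A ∧ ∀ (θ : ℕ → ℝ) (L : ℕ) (lam C : ℝ), 1 ≤ L → 0 < lam → 1 ≤ C →
    VD q θ L lam C → ‖∑ n ∈ range L, Complex.exp (I * (θ n : ℂ))‖ ≤
      A * C * (L * lam ^ kp q + (L : ℝ) ^ (1 - nu q) * lam ^ (-kp q)) := by
  induction q with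
  | zero =>
    refine ⟨63, by norm_num, fun θ L lam C hL hl hC h => ?_⟩
    have h1 := Pool.Agent.Lib.G3.sdt θ L lam C hl hC (fun n hn => (h n hn).1) (fun n hn => (h n hn).2)
    rw [kp_zero, nu_zero, sub_self, Real.rpow_zero, one_mul, Real.rpow_neg hl.le, ← Real.sqrt_eq_rpow]
    have hs : 0 < Real.sqrt lam := Real.sqrt_pos.mpr hl
    calc _ ≤ 63 * (C * L * Real.sqrt lam + 1 / Real.sqrt lam) := h1
      _ ≤ 63 * (C * L * Real.sqrt lam + C * (1 / Real.sqrt lam)) := by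
          have : 0 ≤ 1 / Real.sqrt lam := by positivity
          nlinarith
      _ = 63 * C * (L * Real.sqrt lam + (Real.sqrt lam)⁻¹) := by rw [one_div]; ring
  | succ q ih =>
    obtain ⟨A, hA, ih⟩ := ih
    refine ⟨4 * A, by linarith, fun θ L lam C hL hl hC h => ?_⟩
    have hL1 : (1 : ℝ) ≤ L := by exact_mod_cast hL
    have hL0 : (0 : ℝ) < L := by linarith
    have hk0 := kp_pos q
    have hk1 := kp_le q
    have hk0' := kp_pos (q + 1)
    have hk' : 2 * kp (q + 1) = kp q * (1 - 2 * kp (q + 1)) := by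
      rw [kp_succ]
      have : 1 + kp q ≠ 0 := by linarith
      field_simp
      ring
    have hnu := nu_le q
    have hnu0 := nu_pos q
    rw [nu_succ]
    have hAC : 1 ≤ 4 * A * C := by nlinarith
    have htriv := vdq_triv θ L
    have hp1 : 0 ≤ (L : ℝ) * lam ^ kp (q + 1) := by positivity
    have hp2 : 0 ≤ (L : ℝ) ^ (1 - nu q / 2) * lam ^ (-kp (q + 1)) := by positivity
    rcases le_or_gt 1 lam with h1 | h1
    · have : 1 ≤ lam ^ kp (q + 1) := Real.one_le_rpow h1 hk0'.le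
      have h2 : (L : ℝ) ≤ L * lam ^ kp (q + 1) := by nlinarith
      calc _ ≤ (L : ℝ) := htriv
        _ ≤ 1 * (L * lam ^ kp (q + 1) + (L : ℝ) ^ (1 - nu q / 2) * lam ^ (-kp (q + 1))) := by linarith
        _ ≤ _ := by gcongr
    · set X : ℝ := lam ^ (-(2 * kp (q + 1))) with hX
      have hX1 : 1 ≤ X := by
        rw [hX]
        exact Real.one_le_rpow_of_pos_of_le_one_of_nonpos hl h1.le (by linarith)
      rcases lt_or_ge (L : ℝ) X with h2 | h2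
      · have e1 : lam ^ (-kp (q + 1)) = Real.sqrt X := by
          rw [hX, Real.sqrt_eq_rpow, ← Real.rpow_mul hl.le]
          apply congrArg
          ring
        have e2 : Real.sqrt L ≤ (L : ℝ) ^ (1 - nu q / 2) := by
          rw [Real.sqrt_eq_rpow]
          exact Real.rpow_le_rpow_of_exponent_le hL1 (by linarith)
        have e3 : (L : ℝ) ≤ (L : ℝ) ^ (1 - nu q / 2) * lam ^ (-kp (q + 1)) := by
          rw [e1]
          calc (L : ℝ) = Real.sqrt L * Real.sqrt L := (Real.mul_self_sqrt hL0.le).symm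
            _ ≤ (L : ℝ) ^ (1 - nu q / 2) * Real.sqrt X := by
                have := Real.sqrt_le_sqrt h2.le
                gcongr
        calc _ ≤ (L : ℝ) := htriv
          _ ≤ 1 * (L * lam ^ kp (q + 1) + (L : ℝ) ^ (1 - nu q / 2) * lam ^ (-kp (q + 1))) := by linarith
          _ ≤ _ := by gcongr
      · set R : ℕ := ⌊X⌋₊ with hR
        have hR1 : 1 ≤ R := Nat.le_floor (by exact_mod_cast hX1)
        have hR1r : (1 : ℝ) ≤ R := by exact_mod_cast hR1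
        have hRX : (R : ℝ) ≤ X := Nat.floor_le (by linarith)
        have hXR : X ≤ 2 * R := by
          have := Nat.lt_floor_add_one X
          linarith
        have hRL : R ≤ L := by
          have : (R : ℝ) ≤ L := hRX.trans h2
          exact_mod_cast this
        have hB : ∀ h', 1 ≤ h' → h' < R → ‖∑ n ∈ range (L - h'), Complex.exp (I * (θ (n + h') : ℂ)) *
            (starRingEnd ℂ) (Complex.exp (I * (θ n : ℂ)))‖ ≤
            A * C * (L * ((h' : ℝ) * lam) ^ kp q + (L : ℝ) ^ (1 - nu q) * ((h' : ℝ) * lam) ^ (-kp q)) := by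
          intro h' hh1 hh2
          have hVD := h h' hh1 (by omega)
          have hh0 : (0 : ℝ) < h' := by exact_mod_cast hh1
          have i1 := ih (fun n => θ (n + h') - θ n) (L - h') ((h' : ℝ) * lam) C (by omega) (by positivity) hC hVD
          have e1 : ∑ n ∈ range (L - h'), Complex.exp (I * (θ (n + h') : ℂ)) *
              (starRingEnd ℂ) (Complex.exp (I * (θ n : ℂ))) =
              ∑ n ∈ range (L - h'), Complex.exp (I * (((θ (n + h') - θ n : ℝ)) : ℂ)) :=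
            Finset.sum_congr rfl fun n _ => vdq_mulconj _ _
          rw [e1]
          refine i1.trans ?_
          have hle : ((L - h' : ℕ) : ℝ) ≤ L := by exact_mod_cast Nat.sub_le _ _
          have hge : (0 : ℝ) ≤ ((L - h' : ℕ) : ℝ) := Nat.cast_nonneg _
          have hle2 : ((L - h' : ℕ) : ℝ) ^ (1 - nu q) ≤ (L : ℝ) ^ (1 - nu q) :=
            Real.rpow_le_rpow hge hle (by linarith)
          gcongr
        have hv := vdcA (fun n => Complex.exp (I * (θ n : ℂ))) L R (fun n => (vdq_norm _).le) hR1 hRL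
          (fun h' => A * C * (L * ((h' : ℝ) * lam) ^ kp q + (L : ℝ) ^ (1 - nu q) * ((h' : ℝ) * lam) ^ (-kp q))) hB
        refine vdq_num hk0 hk1 hk' hL1 hl hA hC (by linarith) hRX hXR hv ?_
        have hs1 := vdq_sum_pos hk0 hR1
        have hs2 := vdq_sum_neg hk0 hk1 hR1
        have e1 : ∀ h' ∈ Ico 1 R, A * C * (L * ((h' : ℝ) * lam) ^ kp q + (L : ℝ) ^ (1 - nu q) * ((h' : ℝ) * lam) ^ (-kp q)) =
            A * C * (L * lam ^ kp q * (h' : ℝ) ^ kp q + (L : ℝ) ^ (1 - nu q) * lam ^ (-kp q) * (h' : ℝ) ^ (-kp q)) := by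
          intro h' _
          have hh0 : (0 : ℝ) ≤ h' := Nat.cast_nonneg _
          rw [Real.mul_rpow hh0 hl.le, Real.mul_rpow hh0 hl.le]
          ring
        rw [Finset.sum_congr rfl e1, ← Finset.mul_sum, Finset.sum_add_distrib, ← Finset.mul_sum, ← Finset.mul_sum]
        gcongr

end Pool.Agent.Lib.PR
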