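import Pool.Agent.Lib.PR.Defs
import Pool.Agent.Lib.G3.SdtD

/-!
# PR / V3 (200 lines): differences of `t log x`

PROOF.  `VD_chain`: induction on `q`.  `q = 0`: `G3.second_diff` (`f = g 0`, `f1 = g 1`, `f2 = g 2`, `x = x0 + n`, `n + 2 ≤ L`).  Step: for
`1 ≤ h < L` the function is `G 0 (x0 + n)` with `G i x = g i (x + h) - g i x`, a chain on `[x0, x0 + (L-h)]`, and by the mean value
theorem (`exists_hasDerivAt_eq_slope` or `image_sub...`) `G (q+2) x = g (q+2) (x+h) - g (q+2) x = h g (q+3) ξ`, between `h lam` and `h C lam`.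
`VD_log`: the chain `g 0 x = (-1)^(q+1) t log x`, `g i x = (-1)^(q+1) (-1)^(i-1) (i-1)! t / x^i` for `i ≥ 1`, on
`[N+1, N+1+L] ⊆ [N, 3N]`: `g (q+2) x = (q+1)! t / x^(q+2)`, so `c = (q+1)! / 3^(q+2)`, `C = 3^(q+2)`.
-/

set_option autoImplicit false

namespace Pool.Agent.Lib.PR

/-- the mean value theorem on `[x, x + h]` -/
private theorem v3_mvt {f f1 : ℝ → ℝ} {x h : ℝ} (hh : 0 < h)
    (hf : ∀ y ∈ Set.Icc x (x + h), HasDerivAt f (f1 y) y) :
    ∃ y ∈ Set.Icc x (x + h), f (x + h) - f x = h * f1 y := by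
  have hc : ContinuousOn f (Set.Icc x (x + h)) := fun y hy => (hf y hy).continuousAt.continuousWithinAt
  obtain ⟨y, hy, he⟩ := exists_hasDerivAt_eq_slope f f1 (by linarith : x < x + h) hc
    (fun y hy => hf y ⟨hy.1.le, hy.2.le⟩)
  refine ⟨y, ⟨hy.1.le, hy.2.le⟩, ?_⟩
  rw [he, add_sub_cancel_left]
  field_simp

theorem VD_chain (q : ℕ) : ∀ (g : ℕ → ℝ → ℝ) (x0 : ℝ) (L : ℕ) (lam C : ℝ),
    (∀ i, i ≤ q + 1 → ∀ x ∈ Set.Icc x0 (x0 + L), HasDerivAt (g i) (g (i + 1) x) x) →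
    (∀ x ∈ Set.Icc x0 (x0 + L), lam ≤ g (q + 2) x ∧ g (q + 2) x ≤ C * lam) →
    VD q (fun n => g 0 (x0 + n)) L lam C := by
  induction q with
  | zero =>
    intro g x0 L lam C hd hb n hn
    have hnL : (n : ℝ) + 2 ≤ L := by exact_mod_cast hn
    have hn0 : (0 : ℝ) ≤ n := Nat.cast_nonneg n
    -- the first difference of `g 0`, as a function on `[x0 + n, x0 + n + 1]`
    obtain ⟨y, hy, he⟩ := v3_mvt (f := fun x => g 0 (x + 1) - g 0 x) (f1 := fun x => g 1 (x + 1) - g 1 x)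
      (x := x0 + n) (h := 1) one_pos (fun y hy => by
        have h1 : HasDerivAt (g 0) (g 1 (y + 1)) (y + 1) :=
          hd 0 (by omega) (y + 1) ⟨by linarith [hy.1], by linarith [hy.2]⟩
        have h2 : HasDerivAt (g 0) (g 1 y) y := hd 0 (by omega) y ⟨by linarith [hy.1], by linarith [hy.2]⟩
        have h3 : HasDerivAt (fun x => g 0 (x + 1)) (g 1 (y + 1)) y := by
          simpa using h1.comp_add_const y 1
        exact h3.sub h2)
    obtain ⟨z, hz, he2⟩ := v3_mvt (f := g 1) (f1 := g 2) (x := y) (h := 1) one_pos (fun z hz =>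
      hd 1 (by omega) z ⟨by linarith [hz.1, hy.1], by linarith [hz.2, hy.2]⟩)
    have hz' : z ∈ Set.Icc x0 (x0 + L) := ⟨by linarith [hz.1, hy.1], by linarith [hz.2, hy.2]⟩
    have e : g 0 (x0 + ((n + 2 : ℕ) : ℝ)) - 2 * g 0 (x0 + ((n + 1 : ℕ) : ℝ)) + g 0 (x0 + n) = g 2 z := by
      have e1 : x0 + ((n + 2 : ℕ) : ℝ) = x0 + n + 1 + 1 := by push_cast; ring
      have e2 : x0 + ((n + 1 : ℕ) : ℝ) = x0 + n + 1 := by push_cast; ring
      rw [e1, e2]
      simp only [one_mul] at he he2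
      rw [he2] at he
      linarith
    show lam ≤ g 0 (x0 + ((n + 2 : ℕ) : ℝ)) - 2 * g 0 (x0 + ((n + 1 : ℕ) : ℝ)) + g 0 (x0 + n) ∧
      g 0 (x0 + ((n + 2 : ℕ) : ℝ)) - 2 * g 0 (x0 + ((n + 1 : ℕ) : ℝ)) + g 0 (x0 + n) ≤ C * lam
    rw [e]
    exact hb z hz'
  | succ q ih =>
    intro g x0 L lam C hd hb h h1 hL
    have hLc : ((L - h : ℕ) : ℝ) = (L : ℝ) - h := Nat.cast_sub hL.le
    have hh0 : (0 : ℝ) < h := by exact_mod_cast h1
    have hhL : (h : ℝ) ≤ L := by exact_mod_cast hL.le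
    have key := ih (fun i x => g i (x + h) - g i x) x0 (L - h) ((h : ℝ) * lam) C (fun i hi x hx => by
        rw [hLc] at hx
        have h3 : HasDerivAt (g i) (g (i + 1) (x + h)) (x + h) :=
          hd i (by omega) (x + h) ⟨by linarith [hx.1], by linarith [hx.2]⟩
        have h4 : HasDerivAt (g i) (g (i + 1) x) x := hd i (by omega) x ⟨hx.1, by linarith [hx.2]⟩
        have h5 : HasDerivAt (fun x => g i (x + h)) (g (i + 1) (x + h)) x := by
          simpa using h3.comp_add_const x (h : ℝ)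
        exact h5.sub h4) (fun x hx => by
        rw [hLc] at hx
        obtain ⟨y, hy, he⟩ := v3_mvt (f := g (q + 2)) (f1 := g (q + 3)) (x := x) (h := h) hh0 (fun y hy =>
          hd (q + 2) (by omega) y ⟨by linarith [hy.1, hx.1], by linarith [hy.2, hx.2]⟩)
        have hy' : y ∈ Set.Icc x0 (x0 + L) := ⟨by linarith [hy.1, hx.1], by linarith [hy.2, hx.2]⟩
        obtain ⟨h6, h7⟩ := hb y hy'
        have h6' : lam ≤ g (q + 3) y := h6
        have h7' : g (q + 3) y ≤ C * lam := h7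
        show (h : ℝ) * lam ≤ g (q + 2) (x + h) - g (q + 2) x ∧ g (q + 2) (x + h) - g (q + 2) x ≤ C * ((h : ℝ) * lam)
        rw [he]
        refine ⟨mul_le_mul_of_nonneg_left h6' hh0.le, ?_⟩
        calc (h : ℝ) * g (q + 3) y ≤ h * (C * lam) := mul_le_mul_of_nonneg_left h7' hh0.le
          _ = C * (h * lam) := by ring)
    have e : (fun n : ℕ => g 0 (x0 + ((n + h : ℕ) : ℝ)) - g 0 (x0 + n)) =
        (fun n : ℕ => g 0 (x0 + n + h) - g 0 (x0 + n)) := by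
      funext n
      rw [Nat.cast_add, add_assoc]
    show VD q (fun n : ℕ => g 0 (x0 + ((n + h : ℕ) : ℝ)) - g 0 (x0 + n)) (L - h) ((h : ℝ) * lam) C
    rw [e]
    exact key

/-- the chain of derivatives of `(-1)^(q+1) t log x` -/
private noncomputable def v3_g (q : ℕ) (t : ℝ) : ℕ → ℝ → ℝ
  | 0, x => (-1) ^ (q + 1) * t * Real.log x
  | i + 1, x => (-1) ^ (q + 1) * (-1) ^ i * (i.factorial : ℝ) * t * (x ^ (i + 1))⁻¹

private theorem v3_deriv (q : ℕ) (t : ℝ) (i : ℕ) {x : ℝ} (hx : 0 < x) :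
    HasDerivAt (v3_g q t i) (v3_g q t (i + 1) x) x := by
  cases i with
  | zero =>
    have h1 := (Real.hasDerivAt_log hx.ne').const_mul ((-1) ^ (q + 1) * t)
    have e : v3_g q t (0 + 1) x = (-1) ^ (q + 1) * t * x⁻¹ := by
      simp [v3_g]
    rw [e]
    exact h1
  | succ i =>
    have h1 : HasDerivAt (fun x : ℝ => x ^ (i + 1)) (((i + 1 : ℕ) : ℝ) * x ^ i) x := by
      simpa using hasDerivAt_pow (i + 1) x
    have h2 := (h1.inv (pow_ne_zero (i + 1) hx.ne')).const_mul ((-1) ^ (q + 1) * (-1) ^ i * (i.factorial : ℝ) * t)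
    have e : v3_g q t (i + 1 + 1) x = (-1) ^ (q + 1) * (-1) ^ i * (i.factorial : ℝ) * t *
        (-(((i + 1 : ℕ) : ℝ) * x ^ i) / (x ^ (i + 1)) ^ 2) := by
      have hx0 : x ≠ 0 := hx.ne'
      simp only [v3_g]
      rw [Nat.factorial_succ, pow_succ (-1 : ℝ) i]
      push_cast
      field_simp
      ring
    rw [e]
    exact h2

theorem VD_log (q : ℕ) : ∃ c C : ℝ, 0 < c ∧ 1 ≤ C ∧ ∀ (N L : ℕ) (t : ℝ), 1 ≤ N → L ≤ N → 0 < t →
    VD q (fun n => (-1) ^ (q + 1) * t * Real.log ((N : ℝ) + 1 + n)) L (c * (t / (N : ℝ) ^ (q + 2))) C := by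
  refine ⟨((q + 1).factorial : ℝ) / 3 ^ (q + 2), 3 ^ (q + 2), by positivity, one_le_pow₀ (by norm_num), ?_⟩
  intro N L t hN hL ht
  have hN1 : (1 : ℝ) ≤ N := by exact_mod_cast hN
  have hN0 : (0 : ℝ) < N := by linarith
  have hLN : (L : ℝ) ≤ N := by exact_mod_cast hL
  refine VD_chain q (v3_g q t) ((N : ℝ) + 1) L _ _ (fun i _ x hx => v3_deriv q t i (by linarith [hx.1])) ?_
  intro x hx
  have hx1 : (N : ℝ) ≤ x := by linarith [hx.1]
  have hx2 : x ≤ 3 * N := by linarith [hx.2]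
  have hx0 : 0 < x := by linarith
  have e : v3_g q t (q + 2) x = ((q + 1).factorial : ℝ) * t * (x ^ (q + 2))⁻¹ := by
    simp only [v3_g]
    rw [← mul_pow]
    norm_num
  rw [e]
  have h1 : (N : ℝ) ^ (q + 2) ≤ x ^ (q + 2) := pow_le_pow_left₀ hN0.le hx1 _
  have h2 : x ^ (q + 2) ≤ 3 ^ (q + 2) * (N : ℝ) ^ (q + 2) := by
    rw [← mul_pow]
    exact pow_le_pow_left₀ hx0.le hx2 _
  have hx3 : 0 < x ^ (q + 2) := by positivity
  have hN3 : 0 < (N : ℝ) ^ (q + 2) := by positivity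
  have hf : (0 : ℝ) < ((q + 1).factorial : ℝ) * t := by positivity
  constructor
  · have e2 : ((q + 1).factorial : ℝ) / 3 ^ (q + 2) * (t / (N : ℝ) ^ (q + 2)) =
        ((q + 1).factorial : ℝ) * t * (3 ^ (q + 2) * (N : ℝ) ^ (q + 2))⁻¹ := by
      field_simp
    rw [e2]
    exact mul_le_mul_of_nonneg_left (inv_anti₀ hx3 h2) hf.le
  · have e2 : 3 ^ (q + 2) * (((q + 1).factorial : ℝ) / 3 ^ (q + 2) * (t / (N : ℝ) ^ (q + 2))) =
        ((q + 1).factorial : ℝ) * t * ((N : ℝ) ^ (q + 2))⁻¹ := by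
      field_simp
    rw [e2]
    exact mul_le_mul_of_nonneg_left (inv_anti₀ hN3 h1) hf.le

end Pool.Agent.Lib.PR
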