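import Pool.Agent.Lib.PR.V2
import Pool.Agent.Lib.PR.V3

/-!
# PR / V4 (180 lines): the sums of `n^(-it)` over a block

PROOF.  `blockP`: `M = N`: the sum is empty.  Else `L = M - N`, `1 ≤ L ≤ N`, `n = N + 1 + m`, `m < L`, and
`n^(-it) = exp (I (-t log n))`.  If `q` is even `(-1)^(q+1) t log n = -t log n`; if `q` is odd the phase is `t log n` and the norm of the sum
is the same (`G3.sum_neg_phase`).  `vdq` with `lam = c t/N^(q+2)`, `L ≤ N` (`1 - nu q ≥ 0`, `nu_le`), `lam^(kp q) = c^(kp q) (t/N^(q+2))^(kp q)`,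
`lam^(-kp q) = c^(-kp q) (..)^(-kp q)`.
`blockP'`: with `y = t/N^(q+2) ≥ N^(nu q - 2)` one has `N^(-nu q) ≤ y^(2 kp q)` because `2 kp q (2 - nu q) = nu q` (`kp_nu`), so the second
term of `blockP`, `N N^(-nu q) y^(-kp q)`, is at most the first, `N y^(kp q)`.
-/

set_option autoImplicit false

namespace Pool.Agent.Lib.PR

open Finset Complex

private theorem v4_term (t : ℝ) (n : ℕ) (hn : n ≠ 0) :
    (n : ℂ) ^ (-((t : ℂ) * I)) = Complex.exp (I * ((-(t * Real.log n) : ℝ) : ℂ)) := by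
  rw [Complex.cpow_def_of_ne_zero (Nat.cast_ne_zero.2 hn), ← Complex.natCast_log]
  congr 1
  push_cast
  ring

private theorem v4_sum (q N L : ℕ) (t : ℝ) :
    ‖∑ n ∈ Ioc N (N + L), (n : ℂ) ^ (-((t : ℂ) * I))‖ =
      ‖∑ n ∈ range L, Complex.exp (I * (((-1) ^ (q + 1) * t * Real.log ((N : ℝ) + 1 + n) : ℝ) : ℂ))‖ := by
  have h1 : ∑ n ∈ Ioc N (N + L), (n : ℂ) ^ (-((t : ℂ) * I)) =
      ∑ n ∈ range L, Complex.exp (I * ((-(t * Real.log ((N : ℝ) + 1 + n)) : ℝ) : ℂ)) := by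
    have h2 : Ioc N (N + L) = Ico (N + 1) (N + 1 + L) := by
      ext x
      simp only [mem_Ioc, mem_Ico]
      omega
    rw [h2, sum_Ico_eq_sum_range, Nat.add_sub_cancel_left]
    refine sum_congr rfl fun n _ => ?_
    rw [v4_term t (N + 1 + n) (by omega)]
    push_cast
    rfl
  rw [h1]
  rcases Nat.even_or_odd q with hq | hq
  · have h3 : ((-1 : ℝ)) ^ (q + 1) = -1 := (hq.add_one).neg_one_pow
    rw [h3]
    congr 1
    refine sum_congr rfl fun n _ => ?_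
    congr 3
    ring
  · have h3 : ((-1 : ℝ)) ^ (q + 1) = 1 := (hq.add_one).neg_one_pow
    rw [h3, G3.sum_neg_phase (fun n => t * Real.log ((N : ℝ) + 1 + n))]
    congr 1
    refine sum_congr rfl fun n _ => ?_
    congr 3
    ring

theorem blockP (q : ℕ) : ∃ C : ℝ, 0 ≤ C ∧ ∀ (N M : ℕ), 1 ≤ N → N ≤ M → M ≤ 2 * N → ∀ t : ℝ, 0 < t →
    ‖∑ n ∈ Ioc N M, (n : ℂ) ^ (-((t : ℂ) * I))‖ ≤ C * (N * (t / (N : ℝ) ^ (q + 2)) ^ kp q +
      (N : ℝ) ^ (1 - nu q) * (t / (N : ℝ) ^ (q + 2)) ^ (-kp q)) := by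
  obtain ⟨A, hA, hv⟩ := vdq q
  obtain ⟨c, C, hc, hC, hV⟩ := VD_log q
  have hA0 : 0 ≤ A := by linarith
  have hC0 : 0 ≤ C := by linarith
  refine ⟨A * C * (c ^ kp q + c ^ (-kp q)), by positivity, ?_⟩
  intro N M hN hNM hM t ht
  have hN0 : (0 : ℝ) < N := by exact_mod_cast hN
  obtain ⟨L, rfl⟩ := Nat.exists_eq_add_of_le hNM
  have hLN : L ≤ N := by omega
  have hy : 0 < t / (N : ℝ) ^ (q + 2) := by positivity
  set y : ℝ := t / (N : ℝ) ^ (q + 2) with hyd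
  rcases Nat.eq_zero_or_pos L with hL | hL
  · subst hL
    rw [Nat.add_zero, Ioc_self, sum_empty, norm_zero]
    positivity
  rw [v4_sum q N L t]
  have h1 := hv (fun n => (-1) ^ (q + 1) * t * Real.log ((N : ℝ) + 1 + n)) L (c * y) C hL (by positivity) hC
    (hV N L t hN hLN ht)
  refine h1.trans ?_
  rw [mul_assoc (A * C)]
  refine mul_le_mul_of_nonneg_left ?_ (by positivity)
  have hL1 : (L : ℝ) ≤ N := by exact_mod_cast hLN
  have hL0 : (0 : ℝ) ≤ L := Nat.cast_nonneg L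
  rw [Real.mul_rpow hc.le hy.le, Real.mul_rpow hc.le hy.le]
  have e1 : (L : ℝ) ^ (1 - nu q) ≤ (N : ℝ) ^ (1 - nu q) :=
    Real.rpow_le_rpow hL0 hL1 (by linarith [nu_le q])
  have p1 : 0 < c ^ kp q := Real.rpow_pos_of_pos hc _
  have p2 : 0 < c ^ (-kp q) := Real.rpow_pos_of_pos hc _
  have p3 : 0 < y ^ kp q := Real.rpow_pos_of_pos hy _
  have p4 : 0 < y ^ (-kp q) := Real.rpow_pos_of_pos hy _
  have p5 : 0 < (N : ℝ) ^ (1 - nu q) := Real.rpow_pos_of_pos hN0 _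
  have e2 : (L : ℝ) * (c ^ kp q * y ^ kp q) ≤ c ^ kp q * (N * y ^ kp q) := by
    calc (L : ℝ) * (c ^ kp q * y ^ kp q) ≤ N * (c ^ kp q * y ^ kp q) :=
          mul_le_mul_of_nonneg_right hL1 (by positivity)
      _ = c ^ kp q * (N * y ^ kp q) := by ring
  have e3 : (L : ℝ) ^ (1 - nu q) * (c ^ (-kp q) * y ^ (-kp q)) ≤
      c ^ (-kp q) * ((N : ℝ) ^ (1 - nu q) * y ^ (-kp q)) := by
    calc (L : ℝ) ^ (1 - nu q) * (c ^ (-kp q) * y ^ (-kp q))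
        ≤ (N : ℝ) ^ (1 - nu q) * (c ^ (-kp q) * y ^ (-kp q)) :=
          mul_le_mul_of_nonneg_right e1 (by positivity)
      _ = c ^ (-kp q) * ((N : ℝ) ^ (1 - nu q) * y ^ (-kp q)) := by ring
  have e4 : 0 ≤ c ^ kp q * ((N : ℝ) ^ (1 - nu q) * y ^ (-kp q)) := by positivity
  have e5 : 0 ≤ c ^ (-kp q) * (N * y ^ kp q) := by positivity
  calc (L : ℝ) * (c ^ kp q * y ^ kp q) + (L : ℝ) ^ (1 - nu q) * (c ^ (-kp q) * y ^ (-kp q))
      ≤ c ^ kp q * (N * y ^ kp q) + c ^ (-kp q) * ((N : ℝ) ^ (1 - nu q) * y ^ (-kp q)) := add_le_add e2 e3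
    _ ≤ (c ^ kp q + c ^ (-kp q)) * (N * y ^ kp q + (N : ℝ) ^ (1 - nu q) * y ^ (-kp q)) := by
        linarith

theorem blockP' (q : ℕ) : ∃ C : ℝ, 0 ≤ C ∧ ∀ (N M : ℕ), 1 ≤ N → N ≤ M → M ≤ 2 * N → ∀ t : ℝ, 0 < t →
    (N : ℝ) ^ ((q : ℝ) + nu q) ≤ t →
    ‖∑ n ∈ Ioc N M, (n : ℂ) ^ (-((t : ℂ) * I))‖ ≤ C * (N * (t / (N : ℝ) ^ (q + 2)) ^ kp q) := by
  obtain ⟨C, hC, h⟩ := blockP q
  refine ⟨C * 2, by positivity, ?_⟩
  intro N M hN hNM hM t ht htN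
  have hN0 : (0 : ℝ) < N := by exact_mod_cast hN
  refine (h N M hN hNM hM t ht).trans ?_
  rw [mul_assoc C]
  refine mul_le_mul_of_nonneg_left ?_ hC
  have hy : 0 < t / (N : ℝ) ^ (q + 2) := by positivity
  have hyN : (N : ℝ) ^ (nu q - 2) ≤ t / (N : ℝ) ^ (q + 2) := by
    rw [le_div_iff₀ (by positivity), ← Real.rpow_natCast (N : ℝ) (q + 2), ← Real.rpow_add hN0]
    refine le_trans (le_of_eq ?_) htN
    congr 1
    push_cast
    ring
  set y : ℝ := t / (N : ℝ) ^ (q + 2) with hyd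
  have h1 : (N : ℝ) ^ (-nu q) ≤ y ^ (2 * kp q) := by
    have h2 : ((N : ℝ) ^ (nu q - 2)) ^ (2 * kp q) = (N : ℝ) ^ (-nu q) := by
      rw [← Real.rpow_mul hN0.le]
      congr 1
      have := kp_nu q
      linarith
    rw [← h2]
    exact Real.rpow_le_rpow (Real.rpow_nonneg hN0.le _) hyN (by linarith [kp_pos q])
  have h2 : (N : ℝ) ^ (1 - nu q) * y ^ (-kp q) ≤ N * y ^ kp q := by
    have h3 : (N : ℝ) ^ (1 - nu q) = N * (N : ℝ) ^ (-nu q) := by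
      rw [sub_eq_add_neg, Real.rpow_add hN0, Real.rpow_one]
    have h4 : y ^ kp q = y ^ (2 * kp q) * y ^ (-kp q) := by
      rw [← Real.rpow_add hy]
      congr 1
      ring
    rw [h3, h4, ← mul_assoc]
    exact mul_le_mul_of_nonneg_right (mul_le_mul_of_nonneg_left h1 hN0.le) (Real.rpow_nonneg hy.le _)
  linarith

end Pool.Agent.Lib.PR
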