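import Pool.Agent.Lib.PR.Defs
import Pool.Agent.Lib.PR.A1

/-!
# PR / Z1 (300 lines): the moment over `[T, 2T]` from the bound for the blocks

PROOF.  `approxM`: for `t ∈ [T, 2T]`, `|ζ(σ+it)| ≤ C0 + |∑_{n ≤ T} φ n n^(-σ) n^(-it)|`.  Put `φ' n = φ n` for `n ≤ ⌊T⌋₊` and `0` for `n > ⌊T⌋₊`
(antitone, in `[0,1]`).  `K = Nat.log 2 ⌊T⌋₊ + 1`, `2^K > ⌊T⌋₊`; as in `FO/LZ.lean` (`lz_dyadic`) the sum is the term `n = 1` plus the blocks
`D i`, `N = 2^i`, `i < K`, so `N ≤ T`.  So `|ζ| ≤ (C0 + 1) + ∑_{i<K} |D i|` and `|ζ|^k ≤ (K+1)^k ((C0+1)^k + ∑_i |D i|^k)`.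
`|D i| ≤ N ≤ T` (every coefficient is `≤ 1`); with `E l = {t ∈ [T,2T] : 2^l ≤ |D i t|}`: `|D i|^k ≤ 1 + ∑_{l < K} 2^k (2^l)^k 1_(E l)`
(if `|D| ≥ 1` take `l` with `2^l ≤ |D| < 2^(l+1)`; `2^l ≤ T`, so `l < K`).  Integrate over `[T,2T]`: `≤ T + 2^k K C T^(1+ε)` by `BlockMom`
(`V = 2^l ≥ 1`).  Altogether `≤ C' (K+1)^(k+2) T^(1+ε)` and `(K+1)^(k+2) ≤ C'' T^ε` (`lz_log` in `FO/LZ.lean`, private: copy it).
Use `ε/2`.
-/

set_option autoImplicit false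

open MeasureTheory Complex

namespace Pool.Agent.Lib.PR

private lemma z1_dyadic (f : ℕ → ℂ) (K : ℕ) : ∑ n ∈ Finset.Icc 1 (2 ^ K), f n =
    f 1 + ∑ i ∈ Finset.range K, ∑ n ∈ Finset.Ioc (2 ^ i) (2 * 2 ^ i), f n := by
  induction K with
  | zero => simp
  | succ K ih =>
    rw [Finset.sum_range_succ, ← add_assoc, ← ih]
    have h1 : Finset.Icc 1 (2 ^ (K + 1)) = Finset.Icc 1 (2 ^ K) ∪ Finset.Ioc (2 ^ K) (2 * 2 ^ K) := by
      ext n
      simp only [Finset.mem_union, Finset.mem_Icc, Finset.mem_Ioc]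
      have : 2 ^ (K + 1) = 2 * 2 ^ K := by ring
      have h2 : 1 ≤ 2 ^ K := Nat.one_le_two_pow
      omega
    have h2 : Disjoint (Finset.Icc 1 (2 ^ K)) (Finset.Ioc (2 ^ K) (2 * 2 ^ K)) := by
      rw [Finset.disjoint_left]
      intro n hn hn'
      simp only [Finset.mem_Icc, Finset.mem_Ioc] at hn hn'
      omega
    rw [h1, Finset.sum_union h2]

private lemma z1_log {a : ℝ} (ha : 0 < a) : ∃ C : ℝ, 0 ≤ C ∧ ∀ T : ℝ, 1 ≤ T →
    ((Nat.log 2 ⌊T⌋₊ + 1 : ℕ) : ℝ) ≤ C * T ^ a := by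
  have hl2 : 0 < Real.log 2 := Real.log_pos (by norm_num)
  refine ⟨1 / (a * Real.log 2) + 1, by positivity, fun T hT => ?_⟩
  have hT0 : 0 < T := by linarith
  have h1 : ⌊T⌋₊ ≠ 0 := by
    have := Nat.floor_pos.2 hT
    omega
  have h2 : ((2 : ℝ)) ^ (Nat.log 2 ⌊T⌋₊) ≤ T := by
    have h3 : 2 ^ (Nat.log 2 ⌊T⌋₊) ≤ ⌊T⌋₊ := Nat.pow_log_le_self 2 h1
    have h4 : ((2 ^ (Nat.log 2 ⌊T⌋₊) : ℕ) : ℝ) ≤ (⌊T⌋₊ : ℝ) := by exact_mod_cast h3
    push_cast at h4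
    exact h4.trans (Nat.floor_le hT0.le)
  have h5 := Real.log_le_log (by positivity) h2
  rw [Real.log_pow] at h5
  have h6 := Real.log_le_rpow_div hT0.le ha
  have h7 : 1 ≤ T ^ a := Real.one_le_rpow hT ha.le
  have h8 : (Nat.log 2 ⌊T⌋₊ : ℝ) ≤ 1 / (a * Real.log 2) * T ^ a := by
    rw [← le_div_iff₀ hl2] at h5
    refine h5.trans ?_
    rw [div_le_iff₀ hl2]
    refine h6.trans (le_of_eq ?_)
    field_simp
  push_cast
  linarith

private lemma z1_max {K k : ℕ} {a0 : ℝ} (h0 : 0 ≤ a0) (x : ℕ → ℝ) (hx : ∀ i, 0 ≤ x i) :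
    ∃ M : ℝ, 0 ≤ M ∧ a0 ≤ M ∧ (∀ i < K, x i ≤ M) ∧
      M ^ k ≤ a0 ^ k + ∑ i ∈ Finset.range K, x i ^ k := by
  induction K with
  | zero => exact ⟨a0, h0, le_rfl, fun i hi => absurd hi (by omega), by simp⟩
  | succ K ih =>
    obtain ⟨M, h1, h2, h3, h4⟩ := ih
    rw [Finset.sum_range_succ]
    have h5 : 0 ≤ x K ^ k := pow_nonneg (hx K) k
    rcases le_total (x K) M with h | h
    · refine ⟨M, h1, h2, fun i hi => ?_, by linarith⟩
      rcases Nat.lt_succ_iff_lt_or_eq.1 hi with h' | h'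
      · exact h3 i h'
      · rw [h']; exact h
    · refine ⟨x K, hx K, h2.trans h, fun i hi => ?_, ?_⟩
      · rcases Nat.lt_succ_iff_lt_or_eq.1 hi with h' | h'
        · exact (h3 i h').trans h
        · rw [h']
      · have h6 : 0 ≤ ∑ i ∈ Finset.range K, x i ^ k :=
          Finset.sum_nonneg fun i _ => pow_nonneg (hx i) k
        have h7 : 0 ≤ a0 ^ k := pow_nonneg h0 k
        linarith

private lemma z1_pow {K k : ℕ} {a0 : ℝ} (h0 : 0 ≤ a0) (x : ℕ → ℝ) (hx : ∀ i, 0 ≤ x i) :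
    (a0 + ∑ i ∈ Finset.range K, x i) ^ k ≤
      ((K : ℝ) + 1) ^ k * (a0 ^ k + ∑ i ∈ Finset.range K, x i ^ k) := by
  obtain ⟨M, h1, h2, h3, h4⟩ := z1_max (K := K) (k := k) h0 x hx
  have h5 : a0 + ∑ i ∈ Finset.range K, x i ≤ ((K : ℝ) + 1) * M := by
    have h6 : ∑ i ∈ Finset.range K, x i ≤ ∑ _i ∈ Finset.range K, M :=
      Finset.sum_le_sum fun i hi => h3 i (Finset.mem_range.1 hi)
    rw [Finset.sum_const, Finset.card_range, nsmul_eq_mul] at h6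
    linarith
  have h6 : 0 ≤ a0 + ∑ i ∈ Finset.range K, x i :=
    add_nonneg h0 (Finset.sum_nonneg fun i _ => hx i)
  refine (pow_le_pow_left₀ h6 h5 k).trans ?_
  rw [mul_pow]
  exact mul_le_mul_of_nonneg_left h4 (by positivity)

private lemma z1_layer {K k i : ℕ} (hi : i < K) {x : ℝ} (h0 : 0 ≤ x) (h1 : x ≤ 2 ^ i) :
    x ^ k ≤ 1 + ∑ l ∈ Finset.range K, (2 ^ k * ((2 : ℝ) ^ l) ^ k) *
      (if (2 : ℝ) ^ l ≤ x then 1 else 0) := by
  have hs : ∀ l : ℕ, 0 ≤ (2 ^ k * ((2 : ℝ) ^ l) ^ k) * (if (2 : ℝ) ^ l ≤ x then (1 : ℝ) else 0) := by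
    intro l
    split_ifs <;> positivity
  rcases lt_or_ge x 1 with h | h
  · have h2 : x ^ k ≤ 1 := pow_le_one₀ h0 h.le
    have h3 := Finset.sum_nonneg fun l (_ : l ∈ Finset.range K) => hs l
    linarith
  · obtain ⟨l, h2, h3⟩ := exists_nat_pow_near h (by norm_num : (1 : ℝ) < 2)
    have hl : l < K := by
      have h4 : (2 : ℝ) ^ l ≤ 2 ^ i := h2.trans h1
      have h5 : l ≤ i := (pow_le_pow_iff_right₀ (by norm_num : (1 : ℝ) < 2)).1 h4
      omega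
    have h4 := Finset.single_le_sum (f := fun l : ℕ => (2 ^ k * ((2 : ℝ) ^ l) ^ k) *
      (if (2 : ℝ) ^ l ≤ x then (1 : ℝ) else 0)) (fun l _ => hs l) (Finset.mem_range.2 hl)
    simp only [if_pos h2, mul_one] at h4
    have h5 : x ^ k ≤ 2 ^ k * ((2 : ℝ) ^ l) ^ k := by
      rw [← mul_pow, ← pow_succ']
      exact pow_le_pow_left₀ h0 h3.le k
    linarith

private lemma z1_ii {a b : ℝ} (K : ℕ) (A0 P : ℝ) (c : ℕ → ℝ) (F : ℕ → ℕ → ℝ → ℝ)
    (hF : ∀ i l, IntervalIntegrable (F i l) volume a b) :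
    IntervalIntegrable (fun t => P * (A0 + ∑ i ∈ Finset.range K,
      (1 + ∑ l ∈ Finset.range K, c l * F i l t))) volume a b := by
  have h2 : ∀ i, IntervalIntegrable (fun t => ∑ l ∈ Finset.range K, c l * F i l t) volume a b :=
    fun i => by
      have h3 := IntervalIntegrable.sum (Finset.range K) (f := fun l t => c l * F i l t)
        (fun l _ => (hF i l).const_mul (c l))
      refine h3.congr ?_
      intro t _
      simp
  have h4 : IntervalIntegrable (fun t => ∑ i ∈ Finset.range K,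
      (1 + ∑ l ∈ Finset.range K, c l * F i l t)) volume a b := by
    have h3 := IntervalIntegrable.sum (Finset.range K)
      (f := fun i t => (1 + ∑ l ∈ Finset.range K, c l * F i l t))
      (fun i _ => intervalIntegrable_const.add (h2 i))
    refine h3.congr ?_
    intro t _
    simp
  exact (intervalIntegrable_const.add h4).const_mul P

private lemma z1_int {a b : ℝ} (K : ℕ) (A0 P : ℝ) (c : ℕ → ℝ) (F : ℕ → ℕ → ℝ → ℝ)
    (hF : ∀ i l, IntervalIntegrable (F i l) volume a b) :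
    ∫ t in a..b, P * (A0 + ∑ i ∈ Finset.range K, (1 + ∑ l ∈ Finset.range K, c l * F i l t)) =
      P * ((b - a) * A0 + ∑ i ∈ Finset.range K, ((b - a) + ∑ l ∈ Finset.range K,
        c l * ∫ t in a..b, F i l t)) := by
  have h2 : ∀ i, IntervalIntegrable (fun t => ∑ l ∈ Finset.range K, c l * F i l t) volume a b :=
    fun i => by
      have h3 := IntervalIntegrable.sum (Finset.range K) (f := fun l t => c l * F i l t)
        (fun l _ => (hF i l).const_mul (c l))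
      refine h3.congr ?_
      intro t _
      simp
  have h3 : ∀ i, IntervalIntegrable (fun t => 1 + ∑ l ∈ Finset.range K, c l * F i l t) volume a b :=
    fun i => intervalIntegrable_const.add (h2 i)
  have h4 : IntervalIntegrable (fun t => ∑ i ∈ Finset.range K,
      (1 + ∑ l ∈ Finset.range K, c l * F i l t)) volume a b := by
    have h5 := IntervalIntegrable.sum (Finset.range K)
      (f := fun i t => (1 + ∑ l ∈ Finset.range K, c l * F i l t)) (fun i _ => h3 i)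
    refine h5.congr ?_
    intro t _
    simp
  rw [intervalIntegral.integral_const_mul, intervalIntegral.integral_add intervalIntegrable_const h4,
    intervalIntegral.integral_const, smul_eq_mul,
    intervalIntegral.integral_finsetSum (fun i _ => h3 i)]
  congr 2
  refine Finset.sum_congr rfl fun i _ => ?_
  rw [intervalIntegral.integral_add intervalIntegrable_const (h2 i),
    intervalIntegral.integral_const, smul_eq_mul, mul_one,
    intervalIntegral.integral_finsetSum (fun l _ => (hF i l).const_mul (c l))]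
  congr 1
  refine Finset.sum_congr rfl fun l _ => ?_
  rw [intervalIntegral.integral_const_mul]

theorem dyadic_moment {k : ℕ} {σ : ℝ} (h0 : 1 / 2 ≤ σ) (h1 : σ < 1) (h : BlockMom k σ) {ε : ℝ} (hε : 0 < ε) :
    ∃ C : ℝ, 0 ≤ C ∧ ∀ T : ℝ, 1 ≤ T →
      ∫ t in T..(2 * T), ‖riemannZeta (σ + t * I)‖ ^ k ≤ C * T ^ (1 + ε) := by
  obtain ⟨C0, hC0, happ⟩ := approxM h0 h1
  obtain ⟨C1, hC1, hB⟩ := h (ε / 2) (by linarith)
  obtain ⟨C2, hC2, hl2⟩ := z1_log (a := ε / (2 * ((k : ℝ) + 2))) (by positivity)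
  refine ⟨(2 * C2) ^ (k + 2) * ((C0 + 1) ^ k + 1 + 2 ^ k * C1), by positivity, fun T hT => ?_⟩
  have hTpos : 0 < T := by linarith
  obtain ⟨φ, hφ0, hφ1, hφm, hφ⟩ := happ T hT
  obtain ⟨ψ, hψ⟩ : ∃ ψ : ℕ → ℝ, ψ = fun n => if n ≤ ⌊T⌋₊ then φ n else 0 := ⟨_, rfl⟩
  have hψ0 : ∀ n, 0 ≤ ψ n := by
    intro n
    rw [hψ]
    simp only
    split_ifs
    · exact hφ0 n
    · exact le_rfl
  have hψ1 : ∀ n, ψ n ≤ 1 := by
    intro n
    rw [hψ]
    simp only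
    split_ifs
    · exact hφ1 n
    · exact zero_le_one
  have hψm : Antitone ψ := by
    intro m n hmn
    rw [hψ]
    simp only
    by_cases hn : n ≤ ⌊T⌋₊
    · rw [if_pos hn, if_pos (hmn.trans hn)]
      exact hφm hmn
    · rw [if_neg hn]
      split_ifs
      · exact hφ0 m
      · exact le_rfl
  obtain ⟨K, hK⟩ : ∃ K, K = Nat.log 2 ⌊T⌋₊ + 1 := ⟨_, rfl⟩
  have hKn : ⌊T⌋₊ < 2 ^ K := by
    rw [hK]
    exact Nat.lt_pow_succ_log_self (by norm_num) _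
  have hKT : ∀ i < K, ((2 ^ i : ℕ) : ℝ) ≤ T := by
    intro i hi
    have hi' : i ≤ Nat.log 2 ⌊T⌋₊ := by omega
    have h2 : ⌊T⌋₊ ≠ 0 := by
      have := Nat.floor_pos.2 hT
      omega
    have h3 : 2 ^ i ≤ ⌊T⌋₊ := (Nat.pow_le_pow_right (by norm_num) hi').trans
      (Nat.pow_log_le_self 2 h2)
    have h4 : ((2 ^ i : ℕ) : ℝ) ≤ (⌊T⌋₊ : ℝ) := by exact_mod_cast h3
    exact h4.trans (Nat.floor_le hTpos.le)
  have hnt : ∀ (n : ℕ) (t : ℝ), 1 ≤ n → ‖(n : ℂ) ^ (-((t : ℂ) * I))‖ = 1 := by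
    intro n t hn
    rw [Complex.norm_natCast_cpow_of_pos (by omega)]
    simp
  have hterm : ∀ (n : ℕ) (t : ℝ), 1 ≤ n →
      ‖((ψ n * (n : ℝ) ^ (-σ) : ℝ) : ℂ) * (n : ℂ) ^ (-((t : ℂ) * I))‖ ≤ 1 := by
    intro n t hn
    have h2 : 0 ≤ (n : ℝ) ^ (-σ) := by positivity
    rw [norm_mul, hnt n t hn, mul_one, Complex.norm_real, Real.norm_of_nonneg (mul_nonneg (hψ0 n) h2)]
    refine mul_le_one₀ (hψ1 n) h2 ?_
    exact Real.rpow_le_one_of_one_le_of_nonpos (by exact_mod_cast hn) (by linarith)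
  -- the decomposition
  obtain ⟨D, hD⟩ : ∃ D : ℕ → ℝ → ℂ, D = fun (i : ℕ) (t : ℝ) =>
      (∑ n ∈ Finset.Ioc (2 ^ i) (2 * 2 ^ i),
        ((ψ n * (n : ℝ) ^ (-σ) : ℝ) : ℂ) * (n : ℂ) ^ (-((t : ℂ) * I)) : ℂ) :=
    ⟨fun (i : ℕ) (t : ℝ) => ∑ n ∈ Finset.Ioc (2 ^ i) (2 * 2 ^ i),
        ((ψ n * (n : ℝ) ^ (-σ) : ℝ) : ℂ) * (n : ℂ) ^ (-((t : ℂ) * I)), rfl⟩
  have hdec : ∀ t : ℝ, ∑ n ∈ Finset.Icc 1 ⌊T⌋₊, (φ n : ℂ) * (n : ℂ) ^ (-((σ : ℂ) + t * I)) =
      ((ψ 1 * ((1 : ℕ) : ℝ) ^ (-σ) : ℝ) : ℂ) * ((1 : ℕ) : ℂ) ^ (-((t : ℂ) * I)) +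
        ∑ i ∈ Finset.range K, D i t := by
    intro t
    rw [hD]
    simp only
    rw [← z1_dyadic (fun n => ((ψ n * (n : ℝ) ^ (-σ) : ℝ) : ℂ) * (n : ℂ) ^ (-((t : ℂ) * I))) K]
    have h2 : Finset.Icc 1 ⌊T⌋₊ ⊆ Finset.Icc 1 (2 ^ K) := Finset.Icc_subset_Icc_right hKn.le
    rw [← Finset.sum_subset h2]
    · apply Finset.sum_congr rfl
      intro n hn
      have hn1 := Finset.mem_Icc.1 hn
      have hn0 : (n : ℂ) ≠ 0 := by
        have : n ≠ 0 := by omega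
        exact_mod_cast this
      simp only [hψ, if_pos hn1.2]
      rw [Complex.ofReal_mul, mul_assoc, Complex.ofReal_cpow (by positivity)]
      have e : -((σ : ℂ) + t * I) = ((-σ : ℝ) : ℂ) + -((t : ℂ) * I) := by push_cast; ring
      rw [e, Complex.cpow_add _ _ hn0]
      simp
    · intro n hn2 hn
      have hn' : ¬ n ≤ ⌊T⌋₊ := by
        intro h
        apply hn
        rw [Finset.mem_Icc]
        exact ⟨(Finset.mem_Icc.1 hn2).1, h⟩
      simp [hψ, if_neg hn']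
  have hDtriv : ∀ i t, ‖D i t‖ ≤ 2 ^ i := by
    intro i t
    rw [hD]
    refine (norm_sum_le _ _).trans ?_
    have h2 : ∀ n ∈ Finset.Ioc (2 ^ i) (2 * 2 ^ i),
        ‖((ψ n * (n : ℝ) ^ (-σ) : ℝ) : ℂ) * (n : ℂ) ^ (-((t : ℂ) * I))‖ ≤ 1 := by
      intro n hn
      have hn1 : 1 ≤ n := Nat.succ_le_of_lt (lt_of_le_of_lt (Nat.zero_le _) (Finset.mem_Ioc.1 hn).1)
      exact hterm n t hn1
    refine (Finset.sum_le_sum h2).trans ?_
    rw [Finset.sum_const, Nat.card_Ioc, nsmul_eq_mul, mul_one]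
    have : 2 * 2 ^ i - 2 ^ i = 2 ^ i := by omega
    rw [this]
    push_cast
    exact le_rfl
  have hDc : ∀ i, Continuous (D i) := by
    intro i
    rw [hD]
    refine continuous_finset_sum _ fun n hn => ?_
    have hn1 : 1 ≤ n := Nat.succ_le_of_lt (lt_of_le_of_lt (Nat.zero_le _) (Finset.mem_Ioc.1 hn).1)
    have hn0 : (n : ℂ) ≠ 0 := by
      have : n ≠ 0 := by omega
      exact_mod_cast this
    refine continuous_const.mul ?_
    exact Continuous.const_cpow (by fun_prop) (Or.inl hn0)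
  -- the sets
  obtain ⟨E, hE⟩ : ∃ E : ℕ → ℕ → Set ℝ, E = fun i l => {t : ℝ | t ∈ Set.Icc T (2 * T) ∧
    (2 : ℝ) ^ l ≤ ‖D i t‖} := ⟨_, rfl⟩
  have hEm : ∀ i l, MeasurableSet (E i l) := by
    intro i l
    rw [hE]
    exact measurableSet_Icc.inter (measurableSet_le measurable_const (hDc i).norm.measurable)
  have hEb : ∀ i < K, ∀ l, ((2 : ℝ) ^ l) ^ k * (volume (E i l)).toReal ≤ C1 * T ^ (1 + ε / 2) := by
    intro i hi l
    have h2 := hB T hT (2 ^ i) Nat.one_le_two_pow (hKT i hi) ψ hψ0 hψ1 hψm ((2 : ℝ) ^ l)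
      (one_le_pow₀ (by norm_num))
    rw [hE, hD]
    exact h2
  obtain ⟨F, hF⟩ : ∃ F : ℕ → ℕ → ℝ → ℝ, F = fun i l => (E i l).indicator 1 := ⟨_, rfl⟩
  have hFi : ∀ i l, IntervalIntegrable (F i l) volume T (2 * T) := by
    intro i l
    rw [hF, intervalIntegrable_iff]
    refine IntegrableOn.indicator ?_ (hEm i l)
    refine integrableOn_const (C := (1 : ℝ)) ?_ ?_
    · rw [Set.uIoc_of_le (by linarith), Real.volume_Ioc]
      exact ENNReal.ofReal_ne_top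
    · simp
  have hFint : ∀ i l, ∫ t in T..(2 * T), F i l t ≤ (volume (E i l)).toReal := by
    intro i l
    rw [intervalIntegral.integral_of_le (by linarith), hF]
    simp only
    rw [integral_indicator_one (hEm i l), measureReal_def]
    refine ENNReal.toReal_mono ?_ (Measure.restrict_apply_le _ _)
    refine ne_top_of_le_ne_top (b := volume (Set.Icc T (2 * T))) ?_ (measure_mono ?_)
    · rw [Real.volume_Icc]
      exact ENNReal.ofReal_ne_top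
    · rw [hE]
      exact fun t ht => ht.1
  have hpt : ∀ t ∈ Set.Icc T (2 * T), ‖riemannZeta (σ + t * I)‖ ^ k ≤
      ((K : ℝ) + 1) ^ k * ((C0 + 1) ^ k + ∑ i ∈ Finset.range K,
        (1 + ∑ l ∈ Finset.range K, (2 ^ k * ((2 : ℝ) ^ l) ^ k) * F i l t)) := by
    intro t ht
    have h4 := hφ t ht.1 ht.2
    have h5 : ‖riemannZeta (σ + t * I)‖ ≤ (C0 + 1) + ∑ i ∈ Finset.range K, ‖D i t‖ := by
      have h6 := norm_sub_norm_le (riemannZeta (σ + t * I))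
        (∑ n ∈ Finset.Icc 1 ⌊T⌋₊, (φ n : ℂ) * (n : ℂ) ^ (-((σ : ℂ) + t * I)))
      have h7 : ‖∑ n ∈ Finset.Icc 1 ⌊T⌋₊, (φ n : ℂ) * (n : ℂ) ^ (-((σ : ℂ) + t * I))‖ ≤
          1 + ∑ i ∈ Finset.range K, ‖D i t‖ := by
        rw [hdec t]
        exact (norm_add_le _ _).trans (add_le_add (hterm 1 t le_rfl) (norm_sum_le _ _))
      linarith
    refine (pow_le_pow_left₀ (norm_nonneg _) h5 k).trans ?_
    refine (z1_pow (by positivity) (fun i => ‖D i t‖) (fun i => norm_nonneg _)).trans ?_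
    refine mul_le_mul_of_nonneg_left ?_ (by positivity)
    refine add_le_add le_rfl (Finset.sum_le_sum fun i hi => ?_)
    refine (z1_layer (Finset.mem_range.1 hi) (norm_nonneg _) (hDtriv i t)).trans (le_of_eq ?_)
    congr 1
    refine Finset.sum_congr rfl fun l _ => ?_
    congr 1
    rw [hF, hE]
    simp only [Set.indicator, Set.mem_setOf_eq, ht, true_and, Pi.one_apply]
  have hζ : IntervalIntegrable (fun t : ℝ => ‖riemannZeta (σ + t * I)‖ ^ k) volume T (2 * T) := by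
    apply Continuous.intervalIntegrable
    refine (Continuous.norm ?_).pow k
    refine continuous_iff_continuousAt.2 fun t => ?_
    have h2 : ((σ : ℂ) + t * I) ≠ 1 := by
      intro h3
      have h4 := congrArg Complex.re h3
      simp at h4
      linarith
    exact ContinuousAt.comp (f := fun t : ℝ => ((σ : ℂ) + t * I)) (g := riemannZeta)
      (differentiableAt_riemannZeta h2).continuousAt (by fun_prop)
  have hmain := intervalIntegral.integral_mono_on (by linarith : T ≤ 2 * T) hζ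
    (z1_ii K ((C0 + 1) ^ k) (((K : ℝ) + 1) ^ k) (fun l => 2 ^ k * ((2 : ℝ) ^ l) ^ k) F hFi) hpt
  rw [z1_int K ((C0 + 1) ^ k) (((K : ℝ) + 1) ^ k) (fun l => 2 ^ k * ((2 : ℝ) ^ l) ^ k) F hFi] at hmain
  refine hmain.trans ?_
  have hK1 : (1 : ℝ) ≤ K := by
    rw [hK]
    push_cast
    have : (0 : ℝ) ≤ Nat.log 2 ⌊T⌋₊ := Nat.cast_nonneg _
    linarith
  have hone : T ≤ T ^ (1 + ε / 2) := by
    calc T = T ^ (1 : ℝ) := (Real.rpow_one T).symm
      _ ≤ _ := Real.rpow_le_rpow_of_exponent_le hT (by linarith)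
  obtain ⟨Q, hQ⟩ : ∃ Q, Q = T ^ (1 + ε / 2) := ⟨_, rfl⟩
  rw [← hQ] at hone hEb
  have hQ0 : 0 ≤ Q := by linarith
  have hl : ∀ i < K, ∑ l ∈ Finset.range K, (2 ^ k * ((2 : ℝ) ^ l) ^ k) *
      ∫ t in T..(2 * T), F i l t ≤ K * (2 ^ k * C1 * Q) := by
    intro i hi
    have h2 : ∀ l ∈ Finset.range K, (2 ^ k * ((2 : ℝ) ^ l) ^ k) *
        ∫ t in T..(2 * T), F i l t ≤ 2 ^ k * C1 * Q := by
      intro l _
      calc (2 ^ k * ((2 : ℝ) ^ l) ^ k) * ∫ t in T..(2 * T), F i l t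
          ≤ (2 ^ k * ((2 : ℝ) ^ l) ^ k) * (volume (E i l)).toReal :=
            mul_le_mul_of_nonneg_left (hFint i l) (by positivity)
        _ = 2 ^ k * (((2 : ℝ) ^ l) ^ k * (volume (E i l)).toReal) := by ring
        _ ≤ 2 ^ k * (C1 * Q) := mul_le_mul_of_nonneg_left (hEb i hi l) (by positivity)
        _ = _ := by ring
    refine (Finset.sum_le_sum h2).trans (le_of_eq ?_)
    rw [Finset.sum_const, Finset.card_range, nsmul_eq_mul]
  have hi' : ∑ i ∈ Finset.range K, ((2 * T - T) + ∑ l ∈ Finset.range K,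
      (2 ^ k * ((2 : ℝ) ^ l) ^ k) * ∫ t in T..(2 * T), F i l t) ≤ K * (Q + K * (2 ^ k * C1 * Q)) := by
    have h2 : ∀ i ∈ Finset.range K, ((2 * T - T) + ∑ l ∈ Finset.range K,
        (2 ^ k * ((2 : ℝ) ^ l) ^ k) * ∫ t in T..(2 * T), F i l t) ≤ Q + K * (2 ^ k * C1 * Q) := by
      intro i hi
      have h3 := hl i (Finset.mem_range.1 hi)
      linarith
    refine (Finset.sum_le_sum h2).trans (le_of_eq ?_)
    rw [Finset.sum_const, Finset.card_range, nsmul_eq_mul]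
  have hA0 : 0 ≤ (C0 + 1) ^ k := by positivity
  have hP : 0 ≤ 2 ^ k * C1 := by positivity
  have h6 : (2 * T - T) * (C0 + 1) ^ k + ∑ i ∈ Finset.range K, ((2 * T - T) + ∑ l ∈ Finset.range K,
      (2 ^ k * ((2 : ℝ) ^ l) ^ k) * ∫ t in T..(2 * T), F i l t) ≤
      ((K : ℝ) + 1) ^ 2 * (((C0 + 1) ^ k + 1 + 2 ^ k * C1) * Q) := by
    have h7 : (2 * T - T) * (C0 + 1) ^ k ≤ Q * (C0 + 1) ^ k :=
      mul_le_mul_of_nonneg_right (by linarith) hA0
    have h8 : Q * (C0 + 1) ^ k * 1 ≤ Q * (C0 + 1) ^ k * ((K : ℝ) + 1) ^ 2 :=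
      mul_le_mul_of_nonneg_left (by nlinarith) (by positivity)
    have h9 : Q * (K : ℝ) ≤ Q * ((K : ℝ) + 1) ^ 2 := mul_le_mul_of_nonneg_left (by nlinarith) hQ0
    have h10 : (2 ^ k * C1 * Q) * (K : ℝ) ^ 2 ≤ (2 ^ k * C1 * Q) * ((K : ℝ) + 1) ^ 2 :=
      mul_le_mul_of_nonneg_left (by nlinarith) (by positivity)
    nlinarith
  have h7 : ((K : ℝ) + 1) ≤ 2 * C2 * T ^ (ε / (2 * ((k : ℝ) + 2))) := by
    have h8 := hl2 T hT
    rw [← hK] at h8
    linarith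
  have h8 : ((K : ℝ) + 1) ^ (k + 2) ≤ (2 * C2) ^ (k + 2) * T ^ (ε / 2) := by
    refine (pow_le_pow_left₀ (by positivity) h7 (k + 2)).trans (le_of_eq ?_)
    rw [mul_pow, ← Real.rpow_natCast (T ^ (ε / (2 * ((k : ℝ) + 2)))), ← Real.rpow_mul hTpos.le]
    congr 2
    push_cast
    field_simp
  calc ((K : ℝ) + 1) ^ k * ((2 * T - T) * (C0 + 1) ^ k + ∑ i ∈ Finset.range K, ((2 * T - T) +
        ∑ l ∈ Finset.range K, (2 ^ k * ((2 : ℝ) ^ l) ^ k) * ∫ t in T..(2 * T), F i l t))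
      ≤ ((K : ℝ) + 1) ^ k * (((K : ℝ) + 1) ^ 2 * (((C0 + 1) ^ k + 1 + 2 ^ k * C1) * Q)) :=
        mul_le_mul_of_nonneg_left h6 (by positivity)
    _ = ((K : ℝ) + 1) ^ (k + 2) * (((C0 + 1) ^ k + 1 + 2 ^ k * C1) * Q) := by
        rw [pow_add]; ring
    _ ≤ ((2 * C2) ^ (k + 2) * T ^ (ε / 2)) * (((C0 + 1) ^ k + 1 + 2 ^ k * C1) * Q) :=
        mul_le_mul_of_nonneg_right h8 (by positivity)
    _ = (2 * C2) ^ (k + 2) * ((C0 + 1) ^ k + 1 + 2 ^ k * C1) * (T ^ (ε / 2) * Q) := by ring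
    _ = (2 * C2) ^ (k + 2) * ((C0 + 1) ^ k + 1 + 2 ^ k * C1) * T ^ (1 + ε) := by
        rw [hQ, ← Real.rpow_add hTpos]
        congr 2
        ring

end Pool.Agent.Lib.PR
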